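import Pool.Agent.Lib.MP_813db1_ag.SV.StB
import Pool.Agent.Lib.MP_813db1_ag.AN.St
import Pool.Agent.Lib.MP_813db1_ag.HS.AYAll

/-! An equivariant partition of unity on a normal covering of a compact manifold. -/

namespace Pool.Agent.Lib.MP_813db1_ag.SV

open Pool.Agent.Lib.MP_813db1_ag.HS Pool.Agent.Lib.MP_813db1_ag.AS Pool.Agent.Lib.MP_813db1_ag.AN
open MeasureTheory Complex Matrix Filter Topology Set Metric
open scoped ContDiff ComplexOrder

theorem puS : PuS := by
  intro ι X Y G _ _ _ _ _ _ _ _ M p hp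
  have := StJ.t2 hp.isCoveringMap
  choose P hP0 hP1 hP2 using StJ.loc hp
  obtain ⟨T, hT⟩ := isCompact_univ.elim_finite_subcover (fun x => (P x).target)
    (fun x => (P x).open_target) fun x _ => mem_iUnion.2 ⟨x, hP0 x⟩
  obtain ⟨ψ, h1, h2⟩ := pou AY.repA' AY.repB' ι X M T (fun b => (P b.1).target)
    (fun b => (P b.1).open_target) fun x => by simpa using hT (mem_univ x)
  let f : T → Y → ℝ := fun b => (P b.1).source.indicator fun y => ψ b (p y)
  let K : T → Set Y := fun b => (P b.1).symm '' tsupport (ψ b)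
  have hK : ∀ b, IsCompact (K b) := fun b =>
    (isClosed_tsupport _).isCompact.image_of_continuousOn
      ((P b.1).continuousOn_symm.mono (h1 b).2.2)
  have hf : ∀ b y, y ∉ K b → f b y = 0 := fun b y hy => by
    by_contra h
    have h3 : y ∈ (P b.1).source := mem_of_indicator_ne_zero h
    refine hy ⟨p y, subset_tsupport _ fun h4 => h ?_, ?_⟩
    · exact (indicator_of_mem h3 _).trans h4
    · rw [← hP1 b.1 y, (P b.1).left_inv h3]
  refine ⟨fun y => ∑ b, f b y, fun e he z hz t ht => ContDiffAt.sum fun b _ => ?_,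
    HasCompactSupport.intro (isCompact_iUnion hK) fun y hy =>
      Finset.sum_eq_zero fun b _ => hf b y fun h => hy (mem_iUnion.2 ⟨b, h⟩),
    fun y => Finset.sum_nonneg fun b _ => indicator_nonneg (fun w _ => (h1 b).2.1 _) y,
    fun y => HasSum.tsum_eq ?_⟩
  · by_cases h : t z ∈ (P b.1).source
    · have h6 : ContDiffAt ℝ ∞ (fun w => ψ b (e.symm w)) z :=
        Complex.reCLM.contDiff.contDiffAt.comp z ((h1 b).1 e he z hz)
      refine h6.congr_of_eventuallyEq ?_
      filter_upwards [ht.2, ht.1.eventually ((P b.1).open_source.eventually_mem h)] with w h7 h8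
      rw [← h7]
      exact indicator_of_mem h8 _
    · have h3 : t z ∈ (K b)ᶜ := by
        rintro ⟨x, hx, h4⟩
        exact h (h4 ▸ (P b.1).map_target ((h1 b).2.2 hx))
      refine (contDiffAt_const (c := 0)).congr_of_eventuallyEq ?_
      filter_upwards [ht.1.eventually ((hK b).isClosed.isOpen_compl.eventually_mem h3)] with w h7
      exact hf b _ h7
  · rw [← h2 (p y)]
    refine hasSum_sum fun b _ => ?_
    by_cases h : ψ b (p y) = 0
    · rw [h]
      convert hasSum_zero with g
      refine indicator_apply_eq_zero.2 fun _ => ?_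
      rw [hp.map_smul, h]
    · have h3 := (h1 b).2.2 (subset_tsupport _ h)
      obtain ⟨γ, hγ⟩ := hp.apply_eq_iff_mem_orbit.1
        ((hP1 b.1 _).symm.trans ((P b.1).right_inv h3))
      have h4 : γ • y ∈ (P b.1).source := by
        change γ • y = _ at hγ
        rw [hγ]
        exact (P b.1).map_target h3
      have h5 : f b (γ • y) = ψ b (p y) := (indicator_of_mem h4 _).trans (by rw [hp.map_smul])
      rw [← h5]
      refine hasSum_single γ fun g hg => indicator_of_notMem (fun h6 => hg ?_) _
      refine mul_inv_eq_one.1 (hP2 b.1 (g * γ⁻¹) _ h4 ?_)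
      rwa [mul_smul, inv_smul_smul]

end Pool.Agent.Lib.MP_813db1_ag.SV
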