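import Pool.Agent.Lib.MP_813db1_ag.SV.BcC
import Pool.Agent.Lib.MP_bbd4b9_ag.NH.Fg

/-! Bounded classes give lower bounds for the spherical volume. -/

namespace Pool.Agent.Lib.MP_813db1_ag.SV

open Pool.Agent.Lib.MP_813db1_ag.HS Pool.Agent.Lib.MP_813db1_ag.AS F12
open Function Matrix Filter Topology Module MeasureTheory Fintype
open scoped ContDiff Manifold

variable {ι X Y G A C : Type} [Fintype ι] [DecidableEq ι] [TopologicalSpace X]
  [ChartedSpace (ι → ℂ) X] [TopologicalSpace Y] [Group G] [MulAction G Y] [MulAction G A]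
  [MulAction G C] {p : Y → X} {W : A → Y → ℝ} {W' : C → Y → ℝ} {e : Ch ι X} {z : V ι}
  {s : V ι → Y} {N : ℕ} {f : Y → ℝ}

namespace Bc

omit [DecidableEq ι] in
theorem Fam.prod (F : Fam ι G p W) (F' : Fam ι G p W') :
    Fam ι G p fun (q : A × C) y => W q.1 y * W' q.2 y := by
  have k : ∀ y, ∃ (T : Finset A) (U : Finset C), ∀ᶠ y' in 𝓝 y, (∀ α ∉ T, W α y' = 0) ∧
      (∀ α ∉ U, W' α y' = 0) ∧ ∀ q ∉ T ×ˢ U, W q.1 y' * W' q.2 y' = 0 := fun y => by
    obtain ⟨T, hT⟩ := F.fin y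
    obtain ⟨U, hU⟩ := F'.fin y
    exact ⟨T, U, (hT.and hU).mono fun w ⟨a, b⟩ => ⟨a, b, fun q hq => mul_eq_zero.2
      ((not_and_or.1 (mt Finset.mem_product.2 hq)).imp (a _) (b _))⟩⟩
  refine ⟨fun q e he z hz s hs => (F.sm _ e he z hz s hs).mul (F'.sm _ e he z hz s hs),
    fun h q y => congrArg₂ _ (F.eqv ..) (F'.eqv ..),
    fun y => (k y).elim fun T ⟨U, h⟩ => ⟨_, h.mono fun _ h => h.2.2⟩, fun y => ?_⟩
  obtain ⟨T, U, h⟩ := k y
  obtain ⟨a, b, c⟩ := h.self_of_nhds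
  rw [tsum_eq_sum c, Finset.sum_product' T U fun a b => W a y * W' b y, ← Finset.sum_mul_sum,
    (tsum_eq_sum a).symm.trans (F.one y), (tsum_eq_sum b).symm.trans (F'.one y), mul_one]

omit [DecidableEq ι] in
theorem Fam.fst (F : Fam ι G p W) (F' : Fam ι G p W') (he : e ∈ atlas (ι → ℂ) X)
    (hz : z ∈ e.target) (hs : Sec p e z s) (a : (Fin N → A) → ℝ)
    (m : MultilinearMap ℝ (fun _ : Fin N => Jt ι) ℝ) : Sm (fun α => a fun i => (α i).1) m
      (jt (fun (q : A × C) y => W q.1 y * W' q.2 y) s z) = Sm a m (jt W s z) := by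
  obtain ⟨T, hT⟩ := F.fin (s z)
  obtain ⟨U, hU⟩ := F'.fin (s z)
  refine sm_fst a m (T := T) (U := U) (jt_zero hs.1 ((hT.and hU).mono fun w ⟨a, b⟩ q hq =>
    mul_eq_zero.2 ((not_and_or.1 (mt Finset.mem_product.2 hq)).imp (a _) (b _)))).self_of_nhds
    fun x => ?_
  have k : (fun w => W x (s w)) =ᶠ[𝓝 z] fun w => ∑ y ∈ U, W x (s w) * W' y (s w) :=
    (hs.1.eventually hU).mono fun w hw => by
      simp only [← Finset.mul_sum, (tsum_eq_sum hw).symm.trans (F'.one _), mul_one]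
  refine Prod.ext (by rw [Prod.fst_sum]; exact k.self_of_nhds) ?_
  simp only [Prod.snd_sum, jt]
  rw [k.fderiv_eq, fderiv_fun_sum fun y _ =>
    ((F.prod F').sm (x, y) e he z hz s hs).differentiableAt (by simp)]

variable [T2Space X] [CompactSpace X]

omit [ChartedSpace (ι → ℂ) X] in
theorem fin1 (hq : IsQuotientCoveringMap p G) (hf : HasCompactSupport f) (y : Y) :
    ∃ T : Finset G, ∀ᶠ y' in 𝓝 y, ∀ g ∉ T, f (g⁻¹ • y') = 0 := by
  obtain ⟨e, he, rfl⟩ := hq.isCoveringMap.isLocalHomeomorph y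
  obtain ⟨K, c1, c2, c3⟩ := exists_compact_subset e.open_target (e.map_source he)
  have k := e.symm.image_mem_nhds (e.map_source he) (mem_interior_iff_mem_nhds.1 c2)
  rw [e.left_inv he] at k
  refine ⟨(MP_bbd4b9_ag.NH.prop_fin hq (hf.prod
    (c1.image_of_continuousOn (e.continuousOn_symm.mono c3)))).toFinset,
    mem_of_superset k fun w hw g hg => by_contra fun h => hg ?_⟩
  exact (Set.Finite.mem_toFinset _).2 ⟨(g⁻¹ • w, w), ⟨subset_tsupport _ h, hw⟩, smul_inv_smul _ _⟩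

theorem fam1 (hq : IsQuotientCoveringMap p G) (hf : HasCompactSupport f)
    (h1 : ∀ e ∈ atlas (ι → ℂ) X, ∀ z ∈ e.target, ∀ s : (ι → ℂ) → Y, ContinuousAt s z →
      (∀ᶠ w in 𝓝 z, p (s w) = e.symm w) → ContDiffAt ℝ ∞ (fun w => f (s w)) z)
    (h2 : ∀ y, ∑' g : G, f (g⁻¹ • y) = 1) : Fam ι G p fun (g : G) y => f (g⁻¹ • y) :=
  ⟨fun g e he z hz _ hs => h1 e he z hz _ (hs.smul hq g⁻¹).1 (hs.smul hq g⁻¹).2,
    fun h g y => by simp [mul_smul], fin1 hq hf, h2⟩

omit [T2Space X] [CompactSpace X] [TopologicalSpace Y] in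
theorem bound (B : Fin N ≃ ι × Fin 2) {c : (Fin (N + 1) → G) → ℝ} (hc : ∀ g, |c g| ≤ 1)
    {T : Finset G} (hT : ∀ g ∉ T, jt (fun (g : G) y => f (g⁻¹ • y)) s z g = 0)
    (hd : ∀ g : G, DifferentiableAt ℝ (fun w => f (g⁻¹ • s w)) z)
    (h1 : ∑' g : G, f (g⁻¹ • s z) ^ 2 = 1) : |frm B c (fun y => f y ^ 2) s z| ≤
      2 ^ N * √N.factorial * √(gram G f s z).det := by
  let u : G → ℝ := fun g => f (g⁻¹ • s z)
  let v : G → Fin N → ℝ := fun g j => fderiv ℝ (fun w => f (g⁻¹ • s w)) z (reB (B j))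
  have u0 : ∀ g ∉ T, u g = 0 := fun g hg => congrArg Prod.fst (hT g hg)
  have v0 : ∀ g ∉ T, ∀ j, v g j = 0 := fun g hg j => congrArg (·.2 (reB (B j))) (hT g hg)
  have u1 : ∑ g ∈ T, u g ^ 2 = 1 := (tsum_eq_sum fun g hg => by simp [u0 g hg]).symm.trans h1
  have e1 : (gram G f s z).det = (of fun i j => ∑ x ∈ T, v x i * v x j).det := by
    rw [← det_submatrix_equiv_self B]
    congr 1
    ext i j
    exact ((Equiv.inv G).tsum_eq _).symm.trans (tsum_eq_sum fun g hg => mul_eq_zero_of_left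
      (v0 g hg i) _)
  have e2 : ∀ (g : G) j, fderiv ℝ (fun w => f (g⁻¹ • s w) ^ 2) z (reB (B j)) = 2 * u g * v g j :=
    fun g j => by
    rw [fderiv_fun_pow _ (hd g)]
    simp [u, v]
  have e3 : frm B c (fun y => f y ^ 2) s z = ∑ α ∈ piFinset fun _ => T, c α * (u (α 0) ^ 2 *
      (2 ^ N * ((∏ i : Fin N, u (α i.succ)) * (of fun i => v (α i.succ)).det))) := by
    simp only [frm, e2]
    rw [tsum_eq_sum (s := piFinset fun _ => T) fun α hα => ?_]
    · refine Finset.sum_congr rfl fun α _ => ?_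
      rw [show (of fun i j => 2 * u (α i.succ) * v (α i.succ) j).det = _ from
        det_mul_column (fun i => 2 * u (α i.succ)) (of fun i => v (α i.succ))]
      simp [Finset.prod_mul_distrib, mul_assoc, u]
    · obtain ⟨i, hi⟩ := not_forall.1 (mt mem_piFinset.2 hα)
      refine mul_eq_zero_of_right _ (mul_eq_zero.2 ?_)
      revert hi
      exact Fin.cases (fun hi => .inl (pow_eq_zero_iff two_ne_zero |>.2 (u0 _ hi)))
        (fun i hi => .inr (det_eq_zero_of_row_eq_zero i fun j => by simp [v0 _ hi])) i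
  rw [e3]
  refine (Finset.abs_sum_le_sum_abs _ _).trans ((Finset.sum_le_sum (g := fun α => u (α 0) ^ 2 *
    (2 ^ N * (|∏ i : Fin N, u (α i.succ)| * |(of fun i => v (α i.succ)).det|)))
      fun α _ => ?_).trans ?_)
  · rw [abs_mul]
    refine (mul_le_of_le_one_left (abs_nonneg _) (hc α)).trans_eq ?_
    simp [abs_mul]
  · rw [sum_succ T 0]
    simp only [Fin.insertNth_zero', Fin.cons_zero, Fin.cons_succ, ← Finset.sum_mul, u1, one_mul,
      ← Finset.mul_sum, mul_assoc]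
    refine mul_le_mul_of_nonneg_left ((Real.sum_mul_le_sqrt_mul_sqrt _ _ _).trans_eq ?_)
      (by positivity)
    simp only [sq_abs, andr, ← Finset.prod_pow]
    rw [← Finset.prod_univ_sum (fun _ => T) fun _ g => u g ^ 2, e1, Real.sqrt_mul (by positivity)]
    simp [u1]

variable [MeasurableSpace X] [BorelSpace X] {M : Atl ι X} {g : X → Mat ι} {μ : Measure X}
  {t : X → V ι → Y}

theorem Fam.lab (F : Fam ι G p W) (hq : IsQuotientCoveringMap p G)
    (hA : atlas (ι → ℂ) X ⊆ M.A) (hch : ∀ x, M.ch x = chartAt (ι → ℂ) x) (hg : M.IsK g)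
    (hμ : M.IsVol g μ) (ht : ∀ x, Sec p (chartAt (ι → ℂ) x) (chartAt (ι → ℂ) x x) (t x))
    (B : Fin N ≃ ι × Fin 2) {c : (Fin (N + 1) → G) → ℝ} (hc : Coc c) {l l' : A → G}
    (hl : ∀ (h : G) x, l (h • x) = h * l x) (hl' : ∀ (h : G) x, l' (h • x) = h * l' x) (x0 : A) :
    ∫ x, Sm (fun α => c fun i => l (α i)) (mu (dtm B)) (jt W (t x) (chartAt (ι → ℂ) x x)) /
      (g x).det.re ∂μ = ∫ x, Sm (fun α => c fun i => l' (α i)) (mu (dtm B))
        (jt W (t x) (chartAt (ι → ℂ) x x)) / (g x).det.re ∂μ := by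
  choose T t1 t2 using fun x => F.loc (chart_mem_atlas _ x) (mem_chart_target _ x) (ht x)
  replace t1 := fun x => (t1 x).self_of_nhds
  let O : ((Fin (N + 1) → A) → ℝ) →ₗ[ℝ] X → ℝ :=
    { toFun := fun a x => Sm a (mu (dtm B)) (jt W (t x) (chartAt (ι → ℂ) x x)) / (g x).det.re
      map_add' := fun a b => funext fun x => by
        simp only [sm_eq _ _ (t1 x), Pi.add_apply, add_mul, Finset.sum_add_distrib, add_div]
      map_smul' := fun a b => funext fun x => by
        simp only [sm_eq _ _ (t1 x), Pi.smul_apply, smul_eq_mul, mul_assoc, ← Finset.mul_sum,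
          mul_div_assoc, RingHom.id_apply] }
  let Z : Submodule ℝ (X → ℝ) :=
    { carrier := {u | Integrable u μ ∧ ∫ x, u x ∂μ = 0}
      add_mem' := fun a b => ⟨a.1.add b.1, (integral_add a.1 b.1).trans (by rw [a.2, b.2, add_zero])⟩
      zero_mem' := ⟨integrable_zero _ _ _, integral_zero _ _⟩
      smul_mem' := fun c _ a => ⟨a.1.smul c, (integral_smul c _).trans (by rw [a.2, smul_zero])⟩ }
  obtain ⟨k1, k2⟩ := prism hc hl hl' (Z.comap O) fun a i j hj h1 h2 => by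
    have h3 : ∀ x β, a (j.insertNth x β) = a (j.insertNth x0 β) := fun x β => by
      rw [← Fin.update_insertNth (x := x0), h2]
    change O a ∈ Z
    revert hj h3
    refine Fin.cases (fun hj h3 => ?_) (fun j _ h3 => ?_) j
    · obtain _ | N := N
      · exact (hj (Fin.fin_one_eq_zero i).symm).elim
      convert F.stokes hq hA hch hg hμ ht B (b := fun β => a (Fin.insertNth 0 x0 β)) fun h β =>
        (h3 (h • x0) _).symm.trans ((congrArg a (funext (Fin.cases rfl fun _ => rfl))).trans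
          (h1 h _)) using 1
      change O a ∈ Z ↔ _ ∈ Z
      refine iff_of_eq (congrArg (· ∈ Z) (funext fun x => congrArg (· / (g x).det.re) ?_))
      rw [sm_slot _ (t1 x) x0 h3, sm_eq _ _ (t1 x), t2]
      simp [mu_apply]
    · refine (show O a = 0 from funext fun x => div_eq_zero_iff.2 (.inl ?_)) ▸ Z.zero_mem
      rw [sm_slot _ (t1 x) x0 h3, t2]
      exact Finset.sum_eq_zero fun β _ => mul_eq_zero_of_right _ (mul_eq_zero_of_right _
        (det_eq_zero_of_row_eq_zero j fun k => by simp [Fin.tail]))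
  rw [map_sub] at k1 k2
  change ∫ x, O _ x ∂μ = ∫ x, O _ x ∂μ
  by_cases h : Integrable (O fun α => c fun i => l' (α i)) μ
  · rw [← sub_eq_zero, ← integral_sub (by simpa using k1.add h) h]
    exact k2
  · rw [integral_undef h, integral_undef fun k => h (by simpa using k.sub k1)]

end Bc

open Bc in
/-- the inequality of Besson, Courtois and Gallot. -/
theorem bc [T2Space X] [CompactSpace X] [MeasurableSpace X] [BorelSpace X]
    [IsManifold 𝓘(ℂ, ι → ℂ) ω X] {K : Kahler ι X} {μ : Measure X} (hμ : K.IsVol μ)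
    (hq : IsQuotientCoveringMap p G) {v : ℝ} (h : BddGe G K μ p v) : SphGe G K μ p
      (v / (2 ^ (2 * card ι) * √(2 * card ι).factorial)) := by
  obtain ⟨N, B, c, φ, t, hc, hb, a1, a2, a3, a4, a5⟩ := h
  intro f t' b1 _ b2 b3 b4
  obtain rfl : N = 2 * card ι := by simpa [mul_comm] using card_congr B
  obtain ⟨M, g, hA, hch, hg, hrep⟩ := maxAtl AY.repA' ι X K
  obtain ⟨⟨ν, hν⟩, hV⟩ := AY.volS' ι X M g hg
  obtain rfl : μ = ν := by
    refine (hV ν hν).uniq μ fun x => ?_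
    rw [hν _ (M.ch_mem x), hch x, hμ _ (chart_mem_atlas _ x)]
    congr 1
    refine withDensity_congr_ae ?_
    filter_upwards [ae_restrict_mem (chartAt (ι → ℂ) x).open_target.measurableSet] with w hw
    rw [hrep _ (chart_mem_atlas _ x) w hw]
  have eg : ∀ x, K.g (chartAt (ι → ℂ) x) (chartAt (ι → ℂ) x x) = g x := fun x => by
    rw [← hrep _ (chart_mem_atlas _ x) _ (mem_chart_target _ x), ← hch, (AY.repA' ι X M).repF_self]
  have b5 : ∀ y, ∑' g : G, f (g⁻¹ • y) ^ 2 = 1 := fun y =>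
    ((Equiv.inv G).tsum_eq fun g => f (g • y) ^ 2).trans (b3 y)
  have F := fam1 hq a1 a2 a3
  have F' := fam1 (f := fun y => f y ^ 2) hq (b1.comp_left (g := (· ^ 2)) (by simp))
    (fun e he z hz s s1 s2 => (b2 e he z hz s s1 s2).pow 2) b5
  have m := fun x => chart_mem_atlas (ι → ℂ) (M := X) x
  have n := fun x => mem_chart_target (ι → ℂ) (M := X) x
  have k := (F.prod F').lab hq hA hch hg hν b4 B hc (l := Prod.fst) (l' := Prod.snd)
    (fun _ _ => rfl) (fun _ _ => rfl) 1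
  have k1 : ∀ x, frm B c φ (t x) (chartAt (ι → ℂ) x x) = _ := fun x =>
    (F.ind hq hc.1 (mu (dtm B)) (a4 x) (b4 x)).trans (F.fst F' (m x) (n x) (b4 x) c _).symm
  have k2 : ∀ x, frm B c (fun y => f y ^ 2) (t' x) (chartAt (ι → ℂ) x x) = _ := fun x =>
    (F'.fst F (m x) (n x) (b4 x) c (mu (dtm B))).symm.trans
      (sm_equiv (Equiv.prodComm G G) _ _ _).symm
  simp only [Equiv.prodComm_apply, Prod.fst_swap] at k2
  simp only [eg, k1, k] at a5
  have pc : (0 : ℝ) < 2 ^ (2 * card ι) * √(2 * card ι).factorial := by positivity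
  rw [ENNReal.ofReal_div_of_pos pc]
  refine ENNReal.div_le_of_le_mul' ((ENNReal.ofReal_le_ofReal a5).trans ?_)
  rw [← Real.enorm_eq_ofReal_abs, ← lintegral_const_mul' _ _ ENNReal.ofReal_ne_top]
  refine (enorm_integral_le_lintegral_enorm _).trans (lintegral_mono fun x => ?_)
  have pg := RepB.pos_det ((((AY.repA' ι X M).isK_iff _).1 hg).2 x)
  obtain ⟨T, hT⟩ := fin1 hq b1 (t' x (chartAt (ι → ℂ) x x))
  have := bound B hb (jt_zero (b4 x).1 hT).self_of_nhds (fun g => (b2 _ (m x) _ (n x) _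
    (Sec.smul hq (b4 x) g⁻¹).1 (Sec.smul hq (b4 x) g⁻¹).2).differentiableAt (by simp)) (b5 _)
  rw [Real.enorm_eq_ofReal_abs, ← ENNReal.ofReal_mul pc.le, eg, abs_div, abs_of_pos pg,
    ← mul_div_assoc]
  refine ENNReal.ofReal_le_ofReal (div_le_div_of_nonneg_right (le_of_eq_of_le ?_ this) pg.le)
  rw [k2]
  congr 2
  funext q
  simp only [jt, Prod.fst_swap, Prod.snd_swap, mul_comm]

end Pool.Agent.Lib.MP_813db1_ag.SV
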