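import Pool.Agent.Lib.MP_813db1_ag.SV.StB

/-! The determinant of a real quadratic form below a Hermitian form plus a real square. -/

namespace Pool.Agent.Lib.MP_813db1_ag.SV

open Pool.Agent.Lib.MP_813db1_ag.HS Pool.Agent.Lib.MP_813db1_ag.AS
open Complex Matrix
open scoped ComplexOrder MatrixOrder

namespace Alg

variable {κ ι : Type} [Fintype κ] [DecidableEq κ] [Fintype ι] [DecidableEq ι]

theorem one_le {N : Matrix κ κ ℝ} (hN : N.PosSemidef) : 1 ≤ (1 + N).det := by
  obtain ⟨U, d, hU, hd, e⟩ : ∃ (U : Matrix κ κ ℝ) (d : κ → ℝ), U * Uᴴ = 1 ∧ (∀ i, 0 ≤ d i) ∧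
      N = U * diagonal d * Uᴴ :=
    ⟨hN.1.eigenvectorUnitary, hN.1.eigenvalues, Unitary.coe_mul_star_self _,
      hN.eigenvalues_nonneg, hN.1.spectral_theorem⟩
  have h : 1 + N = U * diagonal (fun i => 1 + d i) * Uᴴ := by
    rw [← diagonal_add, diagonal_one, mul_add, add_mul, mul_one, hU, e]
  rw [h, det_mul, det_mul, mul_right_comm, ← det_mul, hU, det_one, one_mul, det_diagonal]
  exact Finset.one_le_prod fun i _ => le_add_of_nonneg_right (hd i)

theorem mono {Q D : Matrix κ κ ℝ} (hQ : Q.PosSemidef) (hD : D.PosSemidef) :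
    Q.det ≤ (Q + D).det := by
  by_cases h : Q.det = 0
  · rw [h]; exact (hQ.add hD).det_nonneg
  obtain ⟨S, rfl⟩ : ∃ S : Matrix κ κ ℝ, Q = Sᴴ * S := by
    refine ⟨CFC.sqrt Q, ?_⟩
    have h1 : (CFC.sqrt Q).PosSemidef := nonneg_iff_posSemidef.1 (CFC.sqrt_nonneg Q)
    rw [h1.1.eq, CFC.sqrt_mul_sqrt_self Q hQ.nonneg]
  have hS : IsUnit S.det := by
    rw [det_mul] at h
    exact (right_ne_zero_of_mul h).isUnit
  have hS' : IsUnit Sᴴ.det := by rw [det_conjTranspose]; exact hS.star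
  have e : Sᴴ * S + D = Sᴴ * (1 + S⁻¹ᴴ * D * S⁻¹) * S := by
    rw [mul_add, add_mul, mul_one, conjTranspose_nonsing_inv, ← mul_assoc, ← mul_assoc,
      mul_nonsing_inv _ hS', one_mul, nonsing_inv_mul_cancel_right _ _ hS]
  rw [e, det_mul (_ * _), det_mul _ (1 + _), mul_right_comm, ← det_mul]
  exact le_mul_of_one_le_right hQ.det_nonneg (one_le (hD.conjTranspose_mul_mul_same S⁻¹))

theorem det_rk {R : Type} [CommRing R] (A : Matrix κ κ R) (u v : κ → R) :
    (A + vecMulVec (A *ᵥ u) v).det = A.det * (1 + v ⬝ᵥ u) := by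
  rw [← mul_vecMulVec, ← det_one_add_replicateCol_mul_replicateRow (ι := Unit), ← vecMulVec_eq,
    ← det_mul, mul_add, mul_one]

/-- the real form of a Hermitian matrix. -/
noncomputable def rl (H : Mat ι) : Matrix (ι × Fin 2) (ι × Fin 2) ℝ :=
  of fun q r => (H q.1 r.1 * I ^ (q.2 : ℕ) * star (I ^ (r.2 : ℕ))).re

/-- the real form of a covector. -/
noncomputable def dl (a : V ι) (q : ι × Fin 2) : ℝ := 2 * (a q.1 * I ^ (q.2 : ℕ)).re

theorem cx (x : ι × Fin 2 → ℝ) (i : ι) : (∑ q, x q • reB q) i = x (i, 0) + x (i, 1) * I := by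
  simp [reB, Fintype.sum_prod_type, Pi.single_apply]

theorem rl_quad (H : Mat ι) (x : ι × Fin 2 → ℝ) : x ⬝ᵥ rl H *ᵥ x = nV H (∑ q, x q • reB q) := by
  simp only [nV, ipV, cx, dotProduct, mulVec, Fintype.sum_prod_type, Fin.sum_univ_two, re_sum,
    Finset.mul_sum, ← Finset.sum_add_distrib, rl, of_apply]
  refine Finset.sum_congr rfl fun i _ => Finset.sum_congr rfl fun j _ => ?_
  simp
  ring

theorem dl_dot (a : V ι) (x : ι × Fin 2 → ℝ) :
    dl a ⬝ᵥ x = 2 * (∑ i, a i * (∑ q, x q • reB q) i).re := by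
  simp only [cx, dotProduct, Fintype.sum_prod_type, Fin.sum_univ_two, re_sum, Finset.mul_sum, dl]
  refine Finset.sum_congr rfl fun i _ => ?_
  simp
  ring

omit [DecidableEq ι] in
theorem dl_dl (a u : V ι) : dl a ⬝ᵥ dl u = 4 * (star a ⬝ᵥ u).re := by
  simp only [dotProduct, Fintype.sum_prod_type, Fin.sum_univ_two, re_sum, Finset.mul_sum, dl]
  refine Finset.sum_congr rfl fun i _ => ?_
  simp
  ring

omit [DecidableEq ι] in
theorem rl_dl (H : Mat ι) (u : V ι) : rl H *ᵥ dl u = dl (H *ᵥ u) := by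
  funext q
  simp only [dotProduct, mulVec, Fintype.sum_prod_type, Fin.sum_univ_two, re_sum, Finset.mul_sum,
    Finset.sum_mul, dl, rl, of_apply]
  refine Finset.sum_congr rfl fun i _ => ?_
  simp
  ring

omit [Fintype ι] [DecidableEq ι] in
theorem rl_herm {H : Mat ι} (hH : H.IsHermitian) : (rl H).IsHermitian := by
  ext q r
  rw [conjTranspose_apply, star_trivial, rl, of_apply, of_apply, ← hH.apply q.1 r.1, ← conj_re]
  congr 1
  simp only [map_mul, RCLike.star_def, conj_conj]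
  ring

theorem rl_det (H : Mat ι) : (rl H).det = normSq H.det := by
  let b : Module.Basis (ι × Fin 2) ℝ (V ι) :=
    (Pi.basis fun _ : ι => basisOneI).reindex (Equiv.sigmaEquivProd ι (Fin 2))
  have e : LinearMap.toMatrix b b ((toLin' Hᵀ).restrictScalars ℝ) = (rl H)ᵀ := by
    ext ⟨i, s⟩ ⟨j, t⟩
    fin_cases s <;> fin_cases t <;>
      simp [b, LinearMap.toMatrix_apply, rl, Pi.basis_apply, Pi.basis_repr]
  rw [← det_transpose, ← e, LinearMap.det_toMatrix, LinearMap.det_restrictScalars,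
    LinearMap.det_toLin', det_transpose, Algebra.norm_complex_apply]

end Alg

open Alg in
theorem algL : AlgL := by
  intro ι _ _ Q H a c r hQ hH hc hr h
  have hu : IsUnit H.det := (isUnit_iff_isUnit_det _).1 hH.isUnit
  obtain ⟨u, hua⟩ : ∃ u, H *ᵥ u = a :=
    ⟨H⁻¹ *ᵥ a, by rw [mulVec_mulVec, mul_nonsing_inv _ hu, one_mulVec]⟩
  have hs : 0 ≤ (star a ⬝ᵥ u).re := by
    have h1 := hH.posSemidef.dotProduct_mulVec_nonneg u
    rw [← hua, star_mulVec, hH.1.eq, ← dotProduct_mulVec]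
    exact (Complex.le_def.1 h1).1
  obtain ⟨d0, d1⟩ := Complex.pos_iff.1 hH.det_pos
  have e1 : (H + vecMulVec a (star a)).det.re = H.det.re * (1 + (star a ⬝ᵥ u).re) := by
    have := det_rk H u (star a)
    rw [hua] at this
    rw [this, mul_re, ← d1]
    simp
  have e2 : (rl H + vecMulVec (dl a) (dl a)).det = H.det.re ^ 2 * (1 + 4 * (star a ⬝ᵥ u).re) := by
    have := det_rk (rl H) (dl u) (dl a)
    rw [rl_dl, hua] at this
    rw [this, dl_dl, rl_det, normSq_apply, ← d1]
    ring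
  have hD : (c • (rl H + vecMulVec (dl a) (dl a)) - Q).PosSemidef := by
    refine PosSemidef.of_dotProduct_mulVec_nonneg (IsHermitian.sub ?_ hQ.1) fun x => ?_
    · have h2 : (vecMulVec (dl a) (dl a)).IsHermitian := by
        ext q r
        simp [vecMulVec_apply, mul_comm]
      have h3 := (rl_herm hH.1).add h2
      rw [IsHermitian, conjTranspose_smul, h3.eq, star_trivial]
    · have h2 := h x
      rw [← dl_dot, ← rl_quad] at h2
      rw [star_trivial, sub_mulVec, dotProduct_sub, smul_mulVec, dotProduct_smul, add_mulVec,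
        dotProduct_add, vecMulVec_mulVec, dotProduct_smul, dotProduct_comm x (dl a)]
      simp only [smul_eq_mul, MulOpposite.smul_eq_mul_unop, MulOpposite.unop_op]
      nlinarith
  have key := mono hQ hD
  rw [add_sub_cancel, det_smul, e2, Fintype.card_prod, Fintype.card_fin, pow_mul] at key
  set s := (star a ⬝ᵥ u).re with hs'
  set C := c ^ Fintype.card ι
  have hC : 0 ≤ C := pow_nonneg hc _
  set d := H.det.re
  constructor
  · rw [e1]
    refine Real.sqrt_le_iff.2 ⟨by positivity, key.trans ?_⟩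
    have e3 : (C * ((1 + r) * d + d * (1 + s) / r)) ^ 2 =
        C ^ 2 * (d ^ 2 * (1 + r + (1 + s) / r) ^ 2) := by ring
    rw [e3]
    refine mul_le_mul_of_nonneg_left (mul_le_mul_of_nonneg_left ?_ (sq_nonneg _)) (sq_nonneg _)
    have e4 : r * ((1 + s) / r) = 1 + s := by field_simp
    have : 0 ≤ (1 + s) / r := by positivity
    nlinarith [sq_nonneg (r - (1 + s) / r)]
  · rintro rfl
    have : s = 0 := by rw [hs']; simp
    rw [this] at key
    exact Real.sqrt_le_iff.2 ⟨by positivity, key.trans_eq (by ring)⟩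

end Pool.Agent.Lib.MP_813db1_ag.SV
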