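import Pool.Agent.Lib.MP_813db1_ag.SV.StA
import Pool.Agent.Lib.MP_813db1_ag.AN.BasB

/-! Sections read in the sheets. -/

namespace Pool.Agent.Lib.MP_813db1_ag.SV

open Pool.Agent.Lib.MP_813db1_ag.HS Pool.Agent.Lib.MP_813db1_ag.AS Pool.Agent.Lib.MP_813db1_ag.AN
open Pool.Agent.Lib.MP_813db1_ag.AN.BasB (mt tg ms ri src on_ball)
open MeasureTheory Complex Matrix Filter Topology Set Metric
open scoped ContDiff ComplexOrder

variable {ι Y : Type} [Fintype ι] [DecidableEq ι] [TopologicalSpace Y] [MeasurableSpace Y]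
  {M : Atl ι Y} {g : Y → Mat ι} {ν : Measure Y}

namespace BasB

section

variable (S : Sg M g ν)

theorem dpos (k : S.κ) {z : V ι} (hz : z ∈ ball (0 : V ι) 4) : 0 < (S.H (S.ty k) z).det.re :=
  S.rep_g k z hz ▸ AN.BasB.pos S.kg (S.mem k) (tg S.toSt k hz)

theorem dsm (k : S.κ) {z : V ι} (hz : z ∈ ball (0 : V ι) 4) :
    ContDiffAt ℝ ∞ (fun w => (S.H (S.ty k) w).det.re) z :=
  reCLM.contDiff.contDiffAt.comp z
    ((S.kon _).1.1.det (ball_subset_ball (by norm_num) hz))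

theorem dtr {k l : S.κ} {y : Y} (hk : y ∈ (S.c k).source) (hl : y ∈ (S.c l).source) :
    (S.H (S.ty k) (S.c k y)).det.re =
      ‖(tj (S.c k) (S.c l) y).det‖ ^ 2 * (S.H (S.ty l) (S.c l y)).det.re := by
  rw [← S.rep_g k _ (mt S.toSt hk), ← S.rep_g l _ (mt S.toSt hl),
    RepA.repF_tr M g _ (S.mem k) _ (S.mem l) y hk hl, RepA.det_pull, re_ofReal_mul]

variable (U : S.κ → Y → ℂ)

theorem pt (σ : Y → ℂ) (k : S.κ) (y : Y) (hy : y ∈ (S.c k).source) :
    S.rep U σ k (S.c k y) = U k y * σ y := by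
  rw [Sg.rep, (S.c k).left_inv hy]

theorem rep_zero {σ : Y → ℂ} (k : S.κ) {z : V ι} (h : σ ((S.c k).symm z) = 0) :
    S.rep U σ k z = 0 := by
  rw [Sg.rep, h, mul_zero]

theorem lin (a b : ℂ) (σ τ : Y → ℂ) (k : S.κ) (z : V ι) :
    S.rep U (fun y => a * σ y + b * τ y) k z = a * S.rep U σ k z + b * S.rep U τ k z := by
  simp only [Sg.rep]
  ring

theorem mul (u σ : Y → ℂ) (k : S.κ) (z : V ι) :
    S.rep U (fun y => u y * σ y) k z = u ((S.c k).symm z) * S.rep U σ k z := by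
  simp only [Sg.rep]
  ring

theorem ck_lin (a b : ℂ) {σ τ : Y → ℂ} (hσ : S.Sm U σ) (hτ : S.Sm U τ) :
    S.Sm U fun y => a * σ y + b * τ y := by
  intro k z hz
  rw [funext (lin S U a b σ τ k)]
  exact (contDiffAt_const.mul (hσ k z hz)).add (contDiffAt_const.mul (hτ k z hz))

theorem ck_mul {u : Y → ℝ} {σ : Y → ℂ} (hu : M.Ck ∞ u) (hσ : S.Sm U σ) :
    S.Sm U fun y => u y * σ y := by
  intro k z hz
  rw [funext (mul S U (fun y => (u y : ℂ)) σ k)]
  exact (hu _ (S.mem k) z (tg S.toSt k hz)).mul (hσ k z hz)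

theorem dc_lin (a b : ℂ) {σ τ : Y → ℂ} (hσ : S.Dc U σ) (hτ : S.Dc U τ) :
    S.Dc U fun y => a * σ y + b * τ y :=
  ⟨ck_lin S U a b hσ.1 hτ.1,
    (hσ.2.mul_left (f := fun _ => a)).add (hτ.2.mul_left (f := fun _ => b))⟩

theorem dc_zero : S.Dc U fun _ => 0 := by
  refine ⟨fun k z _ => ?_, HasCompactSupport.zero⟩
  have h : S.rep U (fun _ => 0) k = fun _ => 0 := funext fun w => mul_zero _
  rw [h]
  exact contDiffAt_const

theorem dc_sum {J : Type} (F : Finset J) (σ : J → Y → ℂ) (h : ∀ j ∈ F, S.Dc U (σ j)) :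
    S.Dc U fun y => ∑ j ∈ F, σ j y := by
  classical
  induction F using Finset.induction_on with
  | empty => simpa using dc_zero S U
  | insert j F hj ih =>
    have h1 := dc_lin S U 1 1 (h j (Finset.mem_insert_self j F))
      (ih fun i hi => h i (Finset.mem_insert_of_mem hi))
    simpa only [one_mul, Finset.sum_insert hj] using h1

theorem ext_ne (k : S.κ) (w : V ι → ℂ) (y : Y) (h : S.ext U k w y ≠ 0) :
    y ∈ (S.c k).source ∧ w (S.c k y) ≠ 0 := by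
  rw [Sg.ext] at h
  split_ifs at h with hy
  · exact ⟨hy, fun h0 => h (by rw [h0, zero_div])⟩
  · exact (h rfl).elim

theorem cut (σ : Y → ℂ) (k : S.κ) (r : ℝ) (hr : r < 4) (hσ : S.Sm U σ)
    (h : ∀ y, σ y ≠ 0 → y ∈ S.B k r) : Tf r ((ball (0 : V ι) 4).indicator (S.rep U σ k)) := by
  have h0 : ∀ z, r < ‖z‖ → (ball (0 : V ι) 4).indicator (S.rep U σ k) z = 0 := fun z hz => by
    refine indicator_apply_eq_zero.2 fun hb => rep_zero S U k (by_contra fun hn => ?_)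
    have h1 := (h _ hn).2
    rw [mem_preimage, ri S.toSt k hb, mem_closedBall_zero_iff] at h1
    exact hz.not_ge h1
  refine ⟨contDiff_iff_contDiffAt.2 fun z => ?_, h0⟩
  by_cases hz : z ∈ ball (0 : V ι) 4
  · refine (hσ k z hz).congr_of_eventuallyEq ?_
    filter_upwards [isOpen_ball.mem_nhds hz] with w hw using indicator_of_mem hw _
  · refine (contDiffAt_const (c := (0 : ℂ))).congr_of_eventuallyEq ?_
    have h1 : r < ‖z‖ := hr.trans_le (not_lt.1 fun h => hz (mem_ball_zero_iff.2 h))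
    filter_upwards [(isOpen_lt continuous_const continuous_norm).mem_nhds h1] with w hw
      using h0 w hw

end

variable {S : Sg M g ν} {ξ : Y → Mat ι} (T : Bun S ξ)

theorem bd (r : ℝ) (hr : r < 4) : ∃ L ≥ (1 : ℝ), ∀ a, ∀ z : V ι, ‖z‖ ≤ r → |T.ρ a z| ≤ L := by
  have h : ∀ a, ∃ C : ℝ, ∀ z ∈ closedBall (0 : V ι) r, ‖T.ρ a z‖ ≤ C := fun a =>
    (isCompact_closedBall _ _).exists_bound_of_continuousOn fun z hz =>
      (T.ρ_sm a z (closedBall_subset_ball hr hz)).continuousAt.continuousWithinAt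
  choose C hC using h
  refine ⟨1 + ∑ a, |C a|, le_add_of_nonneg_right (Finset.sum_nonneg fun _ _ => abs_nonneg _),
    fun a z hz => ?_⟩
  have h1 := hC a z (mem_closedBall_zero_iff.2 hz)
  have h2 := Finset.single_le_sum (f := fun a => |C a|) (fun _ _ => abs_nonneg _)
    (Finset.mem_univ a)
  have h3 := le_abs_self (C a)
  rw [Real.norm_eq_abs] at h1
  linarith

theorem ne (k : S.κ) (y : Y) (hy : y ∈ (S.c k).source) : T.U k y ≠ 0 := fun h => by
  have h1 := T.nrm k y hy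
  rw [h, norm_zero, zero_pow two_ne_zero] at h1
  exact (mul_pos (Real.exp_pos _) (dpos S k (mt S.toSt hy))).ne h1

theorem tr (σ : Y → ℂ) (k l : S.κ) (y : Y) (hk : y ∈ (S.c k).source)
    (hl : y ∈ (S.c l).source) : S.rep T.U σ k (S.c k y) =
    T.U k y / T.U l y * S.rep T.U σ l (S.c l y) := by
  rw [pt S _ σ k y hk, pt S _ σ l y hl, ← mul_assoc, div_mul_cancel₀ _ (ne T l y hl)]

theorem zero (σ : Y → ℂ) (k : S.κ) (y : Y) (hy : y ∈ (S.c k).source) :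
    S.rep T.U σ k (S.c k y) = 0 ↔ σ y = 0 := by
  rw [pt S _ σ k y hy, mul_eq_zero, or_iff_right (ne T k y hy)]

theorem wt (k l : S.κ) (y : Y) (hk : y ∈ (S.c k).source) (hl : y ∈ (S.c l).source) :
    Real.exp (-T.ρ (S.ty k) (S.c k y)) * ‖T.U k y / T.U l y‖ ^ 2 =
    ‖(tj (S.c k) (S.c l) y).det‖ ^ 2 * Real.exp (-T.ρ (S.ty l) (S.c l y)) := by
  have h1 := (dpos S l (mt S.toSt hl)).ne'
  rw [norm_div, div_pow, T.nrm k y hk, T.nrm l y hl, dtr S hk hl, Real.exp_neg, Real.exp_neg]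
  field_simp

theorem ip (σ τ : Y → ℂ) (k : S.κ) (y : Y) (hy : y ∈ (S.c k).source) :
    ((S.H (S.ty k) (S.c k y)).det.re : ℂ) * (σ y * star (τ y)) =
    S.rep T.U σ k (S.c k y) * star (S.rep T.U τ k (S.c k y)) *
      (Real.exp (-T.ρ (S.ty k) (S.c k y)) : ℝ) := by
  have h1 : T.U k y * star (T.U k y) * (Real.exp (-T.ρ (S.ty k) (S.c k y)) : ℝ) =
      ((S.H (S.ty k) (S.c k y)).det.re : ℂ) := by
    rw [RCLike.star_def, mul_conj', ← ofReal_pow, T.nrm k y hy, ← ofReal_mul, mul_right_comm,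
      ← Real.exp_add, add_neg_cancel, Real.exp_zero, one_mul]
  rw [pt S _ σ k y hy, pt S _ τ k y hy, star_mul', ← h1]
  ring

theorem dn' (σ : Y → ℂ) (k : S.κ) (y : Y) (hy : y ∈ (S.c k).source) :
    (S.H (S.ty k) (S.c k y)).det.re * ‖σ y‖ ^ 2 =
    ‖S.rep T.U σ k (S.c k y)‖ ^ 2 * Real.exp (-T.ρ (S.ty k) (S.c k y)) := by
  have h := ip T σ σ k y hy
  rw [RCLike.star_def, mul_conj', mul_conj'] at h
  exact_mod_cast h

theorem tr_ev (σ : Y → ℂ) {k l : S.κ} {y : Y} (hk : y ∈ (S.c k).source)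
    (hl : y ∈ (S.c l).source) : S.rep T.U σ k =ᶠ[𝓝 (S.c k y)] fun w =>
      T.U k ((S.c k).symm w) / T.U l ((S.c k).symm w) *
        S.rep T.U σ l ((S.c l ∘ (S.c k).symm) w) :=
  (RepA.ev_src hk hl).mono fun w h => by
    have h1 := tr T σ k l _ ((S.c k).map_target h.1) h.2
    rwa [(S.c k).right_inv h.1] at h1

theorem sm_loc (σ : Y → ℂ)
    (h : ∀ y, ∃ k, y ∈ (S.c k).source ∧ ContDiffAt ℝ ∞ (S.rep T.U σ k) (S.c k y)) :
    S.Sm T.U σ := by
  refine fun k => on_ball S.toSt (k := k) fun y hk => ?_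
  obtain ⟨l, hl, h1⟩ := h y
  rw [← RepA.tr_apply (S.c l) hk] at h1
  have ha := M.hol _ (S.mem k) _ (S.mem l) y hk hl
  exact ((RepA.cd_an (T.hol k l y hk hl)).mul (h1.comp _ (RepA.cd_an ha))).congr_of_eventuallyEq
    (tr_ev T σ hk hl)

theorem hol_loc (σ : Y → ℂ)
    (h : ∀ y, ∃ k, y ∈ (S.c k).source ∧ AnalyticAt ℂ (S.rep T.U σ k) (S.c k y)) :
    S.Hol T.U σ := by
  refine fun k z hz => DifferentiableAt.differentiableWithinAt
    (on_ball S.toSt (k := k) (fun y hk => ?_) z hz)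
  obtain ⟨l, hl, h1⟩ := h y
  rw [← RepA.tr_apply (S.c l) hk] at h1
  have ha := M.hol _ (S.mem k) _ (S.mem l) y hk hl
  exact ((T.hol k l y hk hl).differentiableAt.fun_mul
    (h1.differentiableAt.comp _ ha.differentiableAt)).congr_of_eventuallyEq (tr_ev T σ hk hl)

theorem hol_an (σ : Y → ℂ) (h : S.Hol T.U σ) :
    S.Sm T.U σ ∧ ∀ k, AnalyticOnNhd ℂ (S.rep T.U σ k) (ball 0 4) :=
  have h1 : ∀ k, AnalyticOnNhd ℂ (S.rep T.U σ k) (ball 0 4) := fun k =>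
    MP_caab05_ag.GB.osg _ _ _ _ isOpen_ball (h k)
  ⟨fun k z hz => RepA.cd_an (h1 k z hz), h1⟩

theorem glue (F : S.κ → V ι → ℂ)
    (h : ∀ k l y, y ∈ (S.c k).source → y ∈ (S.c l).source →
      F k (S.c k y) = T.U k y / T.U l y * F l (S.c l y)) :
    ∃ σ, ∀ k, ∀ z ∈ ball (0 : V ι) 4, S.rep T.U σ k z = F k z := by
  refine ⟨fun y => F (S.ch y) (S.c (S.ch y) y) / T.U (S.ch y) y,
    fun k => on_ball S.toSt (k := k) fun y hy => ?_⟩
  rw [pt S _ _ k y hy, h k _ y hy (src S.toSt y)]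
  ring

theorem ip_sm {σ τ : Y → ℂ} (hσ : S.Sm T.U σ) (hτ : S.Sm T.U τ) (k : S.κ) {z : V ι}
    (hz : z ∈ ball (0 : V ι) 4) :
    ContDiffAt ℝ ∞ (fun w => σ ((S.c k).symm w) * star (τ ((S.c k).symm w))) z := by
  have h1 : ContDiffAt ℝ ∞ (fun w => ((S.H (S.ty k) w).det.re : ℂ)) z :=
    contDiffAt_ofReal.2 (dsm S k hz)
  have h2 : ContDiffAt ℝ ∞ (fun w => star (S.rep T.U τ k w)) z :=
    conjCLE.contDiff.contDiffAt.comp z (hτ k z hz)
  have h4 : ContDiffAt ℝ ∞ (fun w => ((Real.exp (-T.ρ (S.ty k) w) : ℝ) : ℂ)) z :=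
    contDiffAt_ofReal.2 (T.ρ_sm _ z hz).neg.exp
  refine ((((hσ k z hz).mul h2).mul h4).mul
    (h1.inv (ofReal_ne_zero.2 (dpos S k hz).ne'))).congr_of_eventuallyEq ?_
  filter_upwards [isOpen_ball.mem_nhds hz] with w hw
  have h3 := ip T σ τ k _ (ms S.toSt k hw)
  rw [ri S.toSt k hw] at h3
  exact eq_div_of_mul_eq (ofReal_ne_zero.2 (dpos S k hw).ne') ((mul_comm _ _).trans h3)

theorem cont {σ τ : Y → ℂ} (hσ : S.Sm T.U σ) (hτ : S.Sm T.U τ) :
    Continuous fun y => σ y * star (τ y) := by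
  refine continuous_iff_continuousAt.2 fun x => ?_
  have hx := src S.toSt x
  have h1 := (ip_sm T hσ hτ (S.ch x) (mt S.toSt hx)).continuousAt
  refine (h1.comp ((S.c (S.ch x)).continuousAt hx)).congr ?_
  filter_upwards [(S.c (S.ch x)).open_source.mem_nhds hx] with y hy
  simp only [Function.comp_apply, (S.c (S.ch x)).left_inv hy]

theorem ck {σ : Y → ℂ} (hσ : S.Sm T.U σ) : M.Ck ∞ fun y => ‖σ y‖ ^ 2 := by
  refine RepA.ck_loc M ∞ _ fun y => ⟨_, S.mem (S.ch y), src S.toSt y, ?_⟩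
  have h : fn (fun y => ‖σ y‖ ^ 2) (S.c (S.ch y)) =
      fun w => σ ((S.c (S.ch y)).symm w) * star (σ ((S.c (S.ch y)).symm w)) :=
    funext fun w => by rw [fn, RCLike.star_def, mul_conj', ofReal_pow]
  rw [h]
  exact ip_sm T hσ hσ _ (mt S.toSt (src S.toSt y))

theorem ext_rep (k : S.κ) (w : V ι → ℂ) {z : V ι} (hz : z ∈ ball (0 : V ι) 4) :
    S.rep T.U (S.ext T.U k w) k z = w z := by
  rw [Sg.rep, Sg.ext, if_pos (ms S.toSt k hz), ri S.toSt k hz,
    mul_div_cancel₀ _ (ne T k _ (ms S.toSt k hz))]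

theorem ext [T2Space Y] (hA : S.BasA) (k : S.κ) (r : ℝ) (hr : r < 4) (w : V ι → ℂ)
    (hw : Tf r w) : S.Dc T.U (S.ext T.U k w) ∧
    (∀ z ∈ ball (0 : V ι) 4, S.rep T.U (S.ext T.U k w) k z = w z) ∧
    (∀ y, S.ext T.U k w y ≠ 0 → y ∈ (S.c k).source ∧ w (S.c k y) ≠ 0) ∧
    tsupport (S.ext T.U k w) ⊆ S.B k r := by
  have hc := hA.cpt k r hr
  have hs : tsupport (S.ext T.U k w) ⊆ S.B k r := closure_minimal (fun y hy =>
    ⟨(ext_ne S _ k w y hy).1, mem_closedBall_zero_iff.2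
      (not_lt.1 fun h => (ext_ne S _ k w y hy).2 (hw.2 _ h))⟩) hc.isClosed
  refine ⟨⟨sm_loc T _ fun y => ?_, hc.of_isClosed_subset (isClosed_tsupport _) hs⟩,
    fun z hz => ext_rep T k w hz, ext_ne S _ k w, hs⟩
  by_cases hy : y ∈ (S.c k).source
  · refine ⟨k, hy, hw.1.contDiffAt.congr_of_eventuallyEq ?_⟩
    filter_upwards [isOpen_ball.mem_nhds (mt S.toSt hy)] with z hz using ext_rep T k w hz
  · have h0 : ∀ᶠ x in 𝓝 y, S.ext T.U k w x = 0 :=
      notMem_tsupport_iff_eventuallyEq.1 fun h => hy (hs h).1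
    have h1 := src S.toSt y
    refine ⟨_, h1, (contDiffAt_const (c := (0 : ℂ))).congr_of_eventuallyEq ?_⟩
    filter_upwards [((S.c (S.ch y)).tendsto_symm h1).eventually h0] with z hz
      using rep_zero S _ _ hz

end BasB

variable {S : Sg M g ν} {ξ : Y → Mat ι} {T : Bun S ξ}

theorem basB [T2Space Y] (hA : S.BasA) : T.BasB where
  bd := BasB.bd T
  ne := BasB.ne T
  pt := BasB.pt S _
  tr := BasB.tr T
  zero := BasB.zero T
  wt := BasB.wt T
  ip := BasB.ip T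
  dn := BasB.dn' T
  sm_loc := BasB.sm_loc T
  hol_loc := BasB.hol_loc T
  hol_an := BasB.hol_an T
  glue := BasB.glue T
  lin := BasB.lin S _
  mul := BasB.mul S _
  sum J F σ k z := by simp only [Sg.rep, Finset.mul_sum]
  ck_lin a b _ _ := BasB.ck_lin S _ a b
  ck_mul _ _ := BasB.ck_mul S _
  dc_lin a b _ _ := BasB.dc_lin S _ a b
  dc_sum _ := BasB.dc_sum S _
  cont _ _ := BasB.cont T
  ck _ hσ := ⟨BasB.ck T hσ, RepA.cont M _ fun e he z hz =>
    (BasB.ck T hσ e he z hz).of_le (by simp)⟩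
  ext := BasB.ext T hA
  cut := BasB.cut S _

end Pool.Agent.Lib.MP_813db1_ag.SV
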