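import Pool.Agent.Lib.MP_813db1_ag.SV.StA
import Pool.Agent.Lib.MP_813db1_ag.AN.BasC

/-! The differential operators on sections of a line bundle. -/

namespace Pool.Agent.Lib.MP_813db1_ag.SV

open Pool.Agent.Lib.MP_813db1_ag.HS Pool.Agent.Lib.MP_813db1_ag.AS Pool.Agent.Lib.MP_813db1_ag.AN
open MeasureTheory Complex Matrix Filter Topology Set Metric
open scoped ContDiff ComplexOrder

noncomputable section

namespace BasC3

open Pool.Agent.Lib.MP_813db1_ag.AN.BasC (del_lin shp_lin shp_zero)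

variable {ι Y : Type} [Fintype ι] [DecidableEq ι] [TopologicalSpace Y] [MeasurableSpace Y]
  {M : Atl ι Y} {g : Y → Mat ι} {ν : Measure Y} {S : Sg M g ν} {ξ : Y → Mat ι} (T : Bun S ξ)
  {k l : S.κ} {y : Y} {z : V ι}

/-- the change of coordinates. -/
def ph (S : Sg M g ν) (k l : S.κ) : V ι → V ι := S.c l ∘ (S.c k).symm

/-- the transition function. -/
def D (k l : S.κ) (w : V ι) : ℂ := T.U k ((S.c k).symm w) / T.U l ((S.c k).symm w)

variable {T}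

theorem mb (hk : y ∈ (S.c k).source) : S.c k y ∈ ball (0 : V ι) 4 :=
  S.tgt k ▸ (S.c k).map_source hk

theorem tg (hz : z ∈ ball (0 : V ι) 4) : z ∈ (S.c k).target := (S.tgt k).symm ▸ hz

theorem src (y : Y) : y ∈ (S.c (S.ch y)).source := S.ch_eq y ▸ M.mem y

theorem ph_pt (hk : y ∈ (S.c k).source) : ph S k l (S.c k y) = S.c l y := RepB.tr_pt hk

theorem kon (a : Fin S.n) : KOn (S.H a) (ball 0 4) := by
  have h : ball (0 : V ι) 4 ⊆ ball 0 5 := ball_subset_ball (by norm_num)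
  exact ⟨⟨(S.kon a).1.1.mono h, fun z hz => (S.kon a).1.2.1 z (h hz),
    fun z hz => (S.kon a).1.2.2 z (h hz)⟩, fun z hz => (S.kon a).2 z (h hz)⟩

/-- near a common point, the points of the chart come from common points. -/
theorem ev (hk : y ∈ (S.c k).source) (hl : y ∈ (S.c l).source) : ∀ᶠ w in 𝓝 (S.c k y),
    ∃ x ∈ (S.c k).source, x ∈ (S.c l).source ∧ S.c k x = w :=
  (RepB.ev hk hl).mono fun _ h => ⟨_, (S.c k).map_target h.1, h.2, (S.c k).right_inv h.1⟩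

theorem H_pt (hk : y ∈ (S.c k).source) (hl : y ∈ (S.c l).source) : S.H (S.ty k) (S.c k y) =
    pull (jac (ph S k l) (S.c k y)) (S.H (S.ty l) (ph S k l (S.c k y))) := by
  rw [ph_pt hk, ← S.rep_g k _ (mb hk), ← S.rep_g l _ (mb hl)]
  exact (AY.repA' ι Y M).repF_tr g _ (S.mem k) _ (S.mem l) y hk hl

theorem H_ev (hk : y ∈ (S.c k).source) (hl : y ∈ (S.c l).source) : ∀ᶠ w in 𝓝 (S.c k y),
    S.H (S.ty k) w = pull (jac (ph S k l) w) (S.H (S.ty l) (ph S k l w)) := by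
  filter_upwards [ev hk hl] with w ⟨x, h1, h2, e⟩
  subst e
  exact H_pt h1 h2

theorem D_pt (hk : y ∈ (S.c k).source) : D T k l (S.c k y) = T.U k y / T.U l y := by
  rw [D, (S.c k).left_inv hk]

theorem tr (hB : T.BasB) (ψ : Y → ℝ) (hk : y ∈ (S.c k).source) (hl : y ∈ (S.c l).source) :
    Tr (ph S k l) (D T k l) (T.Φ ψ k) (T.Φ ψ l) (S.c k y) := by
  have an : AnalyticAt ℂ (ph S k l) (S.c k y) := M.hol _ (S.mem k) _ (S.mem l) y hk hl
  have hd : (jac (ph S k l) (S.c k y)).det ≠ 0 :=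
    (AY.repA' ι Y M).tj_det _ (S.mem k) _ (S.mem l) y hk hl
  refine ⟨an, hd, T.hol k l y hk hl, D_pt (T := T) hk ▸ div_ne_zero (hB.ne k y hk) (hB.ne l y hl),
    ?_⟩
  filter_upwards [ev hk hl] with w ⟨x, h1, h2, e⟩
  subst e
  have e1 := hB.wt k l x h1 h2
  rw [D_pt h1, ph_pt h1, Bun.Φ, Bun.Φ, (S.c k).left_inv h1, (S.c l).left_inv h2, neg_add, neg_add,
    Real.exp_add, Real.exp_add, mul_right_comm, e1, mul_assoc]
  rfl

theorem rep_ev (hB : T.BasB) (σ : Y → ℂ) (hk : y ∈ (S.c k).source)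
    (hl : y ∈ (S.c l).source) :
    ∀ᶠ w in 𝓝 (S.c k y), S.rep T.U σ k w = D T k l w * S.rep T.U σ l (ph S k l w) := by
  filter_upwards [ev hk hl] with w ⟨x, h1, h2, e⟩
  subst e
  rw [D_pt h1, ph_pt h1, hB.tr σ k l x h1 h2]

theorem shp_ev (hB : T.BasB) {σ : Y → ℂ} (hσ : S.Sm T.U σ) (hk : y ∈ (S.c k).source)
    (hl : y ∈ (S.c l).source) : ∀ᶠ w in 𝓝 (S.c k y),
      jac (ph S k l) w *ᵥ shp (S.H (S.ty k)) (S.rep T.U σ k) w =
        D T k l w • shp (S.H (S.ty l)) (S.rep T.U σ l) (ph S k l w) := by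
  refine (tr hB 0 hk hl).shp_ev ?_ (rep_ev hB σ hk hl) (H_ev hk hl)
  rw [ph_pt hk]
  exact eventually_diff ((hσ l _ (mb hl)).of_le (by norm_cast))

theorem cd_shp (hB : T.BasB) {σ : Y → ℂ} (hσ : S.Sm T.U σ) (hz : z ∈ ball (0 : V ι) 4)
    (i : ι) : ContDiffAt ℝ ∞ (fun w => shp (S.H (S.ty k)) (S.rep T.U σ k) w i) z :=
  Green.cd_shp ((kon _).1.1.cd hz) (Green.det_ne ((kon _).2 z hz)) (hσ k z hz)
    (by simp) i

theorem cd_Φ {ψ : Y → ℝ} (hψ : M.Ck ∞ ψ) (hz : z ∈ ball (0 : V ι) 4) :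
    ContDiffAt ℝ ∞ (T.Φ ψ k) z :=
  (T.ρ_sm _ z hz).add (contDiffAt_ofReal.1 (hψ _ (S.mem k) z (tg hz)))

theorem box (hB : T.BasB) {ψ : Y → ℝ} {σ : Y → ℂ} (hψ : M.Ck ∞ ψ) (hσ : S.Sm T.U σ)
    (hz : z ∈ ball (0 : V ι) 4) :
    S.rep T.U (T.box ψ σ) k z = bx (T.Φ ψ k) (S.H (S.ty k)) (S.rep T.U σ k) z := by
  obtain ⟨y, hk, rfl⟩ : ∃ y ∈ (S.c k).source, S.c k y = z :=
    ⟨_, (S.c k).map_target (tg hz), (S.c k).right_inv (tg hz)⟩
  have hl := src (S := S) y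
  have e := (tr hB ψ hk hl).del_tr ((cd_Φ hψ hz).differentiableAt (by simp))
    (by rw [ph_pt hk]; exact (cd_Φ hψ (mb hl)).differentiableAt (by simp))
    (fun i => (cd_shp hB hσ hz i).differentiableAt (by simp))
    (fun i => by rw [ph_pt hk]; exact (cd_shp hB hσ (mb hl) i).differentiableAt (by simp))
    (shp_ev hB hσ hk hl)
  rw [hB.tr _ k _ y hk hl, hB.pt _ _ y hl, ← D_pt hk, Bun.box, mul_div_cancel₀ _ (hB.ne _ y hl)]
  rw [ph_pt hk] at e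
  exact e.symm

theorem shp_pt (hB : T.BasB) {σ : Y → ℂ} (hσ : S.Sm T.U σ) (hk : y ∈ (S.c k).source)
    (hl : y ∈ (S.c l).source) :
    tj (S.c k) (S.c l) y *ᵥ shp (S.H (S.ty k)) (S.rep T.U σ k) (S.c k y) =
      D T k l (S.c k y) • shp (S.H (S.ty l)) (S.rep T.U σ l) (S.c l y) := by
  have := (shp_ev hB hσ hk hl).self_of_nhds
  rwa [ph_pt hk] at this

theorem ex_star (hk : y ∈ (S.c k).source) :
    ((S.H (S.ty k) (S.c k y)).det.re : ℂ) * ((T.U k y)⁻¹ * star (T.U k y)⁻¹) =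
      (Real.exp (-T.ρ (S.ty k) (S.c k y)) : ℝ) := by
  have p := Green.det_pos ((kon (S := S) (S.ty k)).2 _ (mb hk))
  rw [← Green.nsq, norm_inv, inv_pow, T.nrm k y hk, ← ofReal_mul, Real.exp_neg]
  congr 1
  field_simp

theorem H_self (y : Y) : S.H (S.ty (S.ch y)) (S.c (S.ch y) y) = g y := by
  rw [← S.rep_g _ _ (mb (src y)), ← S.ch_eq, (AY.repA' ι Y M).repF_self]

theorem ip1 (hA : S.BasA) (hB : T.BasB) (B : Y → Mat ι) {σ τ : Y → ℂ} (hσ : S.Sm T.U σ)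
    (hτ : S.Sm T.U τ) (hk : y ∈ (S.c k).source) :
    ((S.H (S.ty k) (S.c k y)).det.re : ℂ) * S.ip1 T.U B σ τ y =
      ipV (M.repF B (S.c k) (S.c k y)) (shp (S.H (S.ty k)) (S.rep T.U σ k) (S.c k y))
        (shp (S.H (S.ty k)) (S.rep T.U τ k) (S.c k y)) *
          (Real.exp (-T.ρ (S.ty k) (S.c k y)) : ℝ) := by
  have hl := src (S := S) y
  have e := (tr hB 0 hk hl).p1 (B y) (shp_pt hB hσ hk hl) (shp_pt hB hτ hk hl)
  have e1 := Green.det_rep (AY.repA' ι Y M) mat g (S.mem k) hk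
  have n : (((g y).det.re : ℝ) : ℂ) ≠ 0 := ofReal_ne_zero.2 (hA.det y).2.1.ne'
  rw [S.rep_g k _ (mb hk), S.ch_eq] at e1
  simp only [Flat.ew, Bun.Φ, Pi.zero_apply, add_zero, ph_pt hk] at e
  have e2 := ex_star (T := T) hl
  rw [H_self] at e2
  rw [Green.repF_eq B hk, S.ch_eq, mul_comm (ipV _ _ _), e1, Sg.ip1, Sg.vec, Sg.vec, Green.ipV_smul,
    ofReal_mul, mul_assoc, ← mul_assoc (((g y).det.re : ℝ) : ℂ), e2]
  exact e.symm

theorem cont (hA : S.BasA) (hB : T.BasB) {B : Y → Mat ι} {σ τ : Y → ℂ} (hF : M.SmF B)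
    (hσ : S.Sm T.U σ) (hτ : S.Sm T.U τ) : Continuous (S.ip1 T.U B σ τ) := by
  refine continuous_iff_continuousAt.2 fun y => ?_
  have hk := src (S := S) y
  generalize S.ch y = k at hk
  have hz := mb hk
  have p : ∀ z ∈ ball (0 : V ι) 4, (((S.H (S.ty k) z).det.re : ℝ) : ℂ) ≠ 0 := fun z hz =>
    ofReal_ne_zero.2 (Green.det_pos ((kon _).2 z hz)).ne'
  have c : ContinuousAt (fun z => ipV (M.repF B (S.c k) z) (shp (S.H (S.ty k)) (S.rep T.U σ k) z)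
      (shp (S.H (S.ty k)) (S.rep T.U τ k) z) * (Real.exp (-T.ρ (S.ty k) z) : ℝ) /
        ((S.H (S.ty k) z).det.re : ℂ)) (S.c k y) :=
    ((Green.cd_ipV (((hF _ (S.mem k)).cd (tg hz)).of_le zero_le)
      (fun i => (cd_shp hB hσ hz i).of_le zero_le)
      fun i => (cd_shp hB hτ hz i).of_le zero_le).continuousAt.mul
      (continuous_ofReal.continuousAt.comp (T.ρ_sm _ _ hz).continuousAt.neg.rexp)).div
      (continuous_ofReal.continuousAt.comp (continuous_re.continuousAt.comp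
        ((kon _).1.1.det hz).continuousAt)) (p _ hz)
  refine (c.comp ((S.c k).continuousAt hk)).congr ?_
  filter_upwards [(S.c k).open_source.mem_nhds hk] with x hx
  rw [Function.comp, ← ip1 hA hB B hσ hτ hx, mul_div_cancel_left₀ _ (p _ (mb hx))]

theorem off (ψ : Y → ℝ) {σ : Y → ℂ} (h : ∀ᶠ x in 𝓝 y, σ x = 0) :
    T.box ψ σ y = 0 ∧ S.vec T.U σ y = 0 := by
  have hk := src (S := S) y
  have e : S.rep T.U σ (S.ch y) =ᶠ[𝓝 (S.c (S.ch y) y)] fun _ => 0 := by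
    have c := (S.c (S.ch y)).continuousAt_symm ((S.c (S.ch y)).map_source hk)
    rw [ContinuousAt, (S.c (S.ch y)).left_inv hk] at c
    filter_upwards [c.eventually h] with w hw
    rw [Sg.rep, hw, mul_zero]
  have e2 := shp_zero (H := S.H (S.ty (S.ch y))) e
  constructor
  · have : bx (T.Φ ψ (S.ch y)) (S.H (S.ty (S.ch y))) (S.rep T.U σ (S.ch y)) (S.c (S.ch y) y) = 0 :=
      (Flat.del_congr e2).trans (Flat.del_zero _ _)
    rw [Bun.box, this, zero_div]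
  · rw [Sg.vec, e2.self_of_nhds, smul_zero]

theorem dc (hB : T.BasB) {ψ : Y → ℝ} {σ : Y → ℂ} (hψ : M.Ck ∞ ψ) (hσ : S.Dc T.U σ) :
    S.Dc T.U (T.box ψ σ) := by
  refine ⟨hB.sm_loc _ fun y => ⟨_, src y, ?_⟩, hσ.2.mono' fun y hy => ?_⟩
  · have hz := mb (src (S := S) y)
    refine (Flat.cd_del (n := ∞) (by simp) (cd_Φ (T := T) (k := S.ch y) hψ hz)
      (cd_shp (k := S.ch y) hB hσ.1 hz)).congr_of_eventuallyEq ?_
    filter_upwards [isOpen_ball.mem_nhds hz] with w hw using box hB hψ hσ.1 hw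
  · by_contra hn
    exact hy (off ψ (notMem_tsupport_iff_eventuallyEq.1 hn)).1

theorem lin (hB : T.BasB) (ψ : Y → ℝ) (a b : ℂ) {σ τ : Y → ℂ} (y : Y) (hσ : S.Sm T.U σ)
    (hτ : S.Sm T.U τ) :
    T.box ψ (fun x => a * σ x + b * τ x) y = a * T.box ψ σ y + b * T.box ψ τ y ∧
      S.vec T.U (fun x => a * σ x + b * τ x) y = a • S.vec T.U σ y + b • S.vec T.U τ y := by
  have hz := mb (src (S := S) y)
  have e : S.rep T.U (fun x => a * σ x + b * τ x) (S.ch y) =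
      fun w => a * S.rep T.U σ (S.ch y) w + b * S.rep T.U τ (S.ch y) w := funext (hB.lin a b σ τ _)
  have e2 : shp (S.H (S.ty (S.ch y))) (S.rep T.U (fun x => a * σ x + b * τ x) (S.ch y))
      =ᶠ[𝓝 (S.c (S.ch y) y)] fun w => a • shp (S.H (S.ty (S.ch y))) (S.rep T.U σ (S.ch y)) w +
        b • shp (S.H (S.ty (S.ch y))) (S.rep T.U τ (S.ch y)) w := by
    filter_upwards [isOpen_ball.mem_nhds hz] with w hw
    rw [e, shp_lin a b ((hσ _ w hw).differentiableAt (by simp))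
      ((hτ _ w hw).differentiableAt (by simp))]
  constructor
  · have := (Flat.del_congr (Φ := T.Φ ψ (S.ch y)) e2).trans (del_lin a b
      (fun i => (cd_shp hB hσ hz i).differentiableAt (by simp))
      fun i => (cd_shp hB hτ hz i).differentiableAt (by simp))
    change Flat.del _ _ _ / _ = a * (Flat.del _ _ _ / _) + b * (Flat.del _ _ _ / _)
    rw [this]
    ring
  · rw [Sg.vec, Sg.vec, Sg.vec, e2.self_of_nhds, smul_add, smul_comm a, smul_comm b]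

theorem levi2 {ψ : Y → ℝ} (hψ : M.Ck ∞ ψ) (hz : z ∈ ball (0 : V ι) 4) :
    levi (fun w => (T.Φ ψ k w : ℂ)) z = M.repF (fun y => ξ y + M.ddc ψ y) (S.c k) z := by
  have c1 : ContDiffAt ℝ 2 (fun w => (T.ρ (S.ty k) w : ℂ)) z :=
    contDiffAt_ofReal.2 ((T.ρ_sm _ z hz).of_le (by norm_cast))
  have e : (fun w => (T.Φ ψ k w : ℂ)) =
      fun w => (T.ρ (S.ty k) w : ℂ) + fn ψ (S.c k) w := funext fun w => by simp [Bun.Φ, fn]
  have h := (AY.repB' ι Y M).ddc_rep ψ _ (S.mem k) _ ((S.c k).map_target (tg hz))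
  rw [(S.c k).right_inv (tg hz)] at h
  rw [e, levi_add c1 ((hψ _ (S.mem k) z (tg hz)).of_le (by norm_cast)), T.ρ_lv k z hz,
    ← h ((hψ _ (S.mem k) z (tg hz)).of_le (by norm_cast))]
  simp only [Atl.repF, pull, Matrix.mul_add, Matrix.add_mul]

end BasC3

theorem basC {ι Y : Type} [Fintype ι] [DecidableEq ι] [TopologicalSpace Y] [MeasurableSpace Y]
    {M : Atl ι Y} {g : Y → Mat ι} {ν : Measure Y} {S : Sg M g ν} {ξ : Y → Mat ι} {T : Bun S ξ}
    (hA : S.BasA) (hB : T.BasB) : T.BasC where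
  box _ _ hψ hσ _ _ hz := BasC3.box hB hψ hσ hz
  shp _ hσ _ _ _ hk hl := BasC3.D_pt (T := T) hk ▸ BasC3.shp_pt hB hσ hk hl
  ip1 B _ _ hσ hτ _ _ hk := BasC3.ip1 hA hB B hσ hτ hk
  cont _ _ _ hF hσ hτ := BasC3.cont hA hB hF hσ hτ
  nn _ _ _ h := mat.nv_mono ι _ _ h
  off ψ _ _ h := BasC3.off ψ h
  dc _ _ hψ hσ := BasC3.dc hB hψ hσ
  lin ψ a b _ _ y hσ hτ := BasC3.lin hB ψ a b y hσ hτ
  levi _ hψ _ _ hz := ⟨BasC3.cd_Φ hψ hz, BasC3.levi2 hψ hz⟩

end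

end Pool.Agent.Lib.MP_813db1_ag.SV
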