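import Pool.Agent.Lib.MP_813db1_ag.SV.StA
import Pool.Agent.Lib.MP_813db1_ag.AN.Lim
import Pool.Agent.Lib.MP_caab05_ag.GB.Osg

/-! Decay, sums and limits of square integrable sections. -/

namespace Pool.Agent.Lib.MP_813db1_ag.SV

open Pool.Agent.Lib.MP_813db1_ag.HS Pool.Agent.Lib.MP_813db1_ag.AS Pool.Agent.Lib.MP_813db1_ag.AN
open MeasureTheory Complex Matrix Filter Topology Set Metric
open scoped ContDiff ComplexOrder ENNReal

variable {ι Y : Type} [Fintype ι] [DecidableEq ι] [TopologicalSpace Y] [MeasurableSpace Y]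
  {M : Atl ι Y} {g : Y → Mat ι} {ν : Measure Y} {S : Sg M g ν} {ξ : Y → Mat ι} {T : Bun S ξ}

namespace BDS

theorem sup (hB : T.BasB) (hM : T.Mv) : ∃ C ≥ (0 : ℝ), ∀ σ, S.H2 T.U σ → ∀ y,
    ‖σ y‖ ^ 2 * (1 / 2) ^ (2 * Fintype.card ι) ≤ C * ∫ x in S.B (S.ch y) 2, ‖σ x‖ ^ 2 ∂ν := by
  obtain ⟨C, hC, hm⟩ := hM
  refine ⟨C, hC, fun σ h y => ?_⟩
  have hs : y ∈ (S.c (S.ch y)).source := S.ch_eq y ▸ M.mem y
  have hl := S.ch_lt y
  have s2 : closedBall (S.c (S.ch y) y) (1 / 2) ⊆ closedBall 0 2 := fun w hw =>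
    mem_closedBall_zero_iff.2 (by
      linarith [norm_le_norm_add_norm_sub' w (S.c (S.ch y) y), mem_closedBall_iff_norm.1 hw])
  have h3 := hm σ (S.ch y) _ (1 / 2) (by norm_num) le_rfl (by linarith)
    (((hB.hol_an σ h.1).2 _).mono (s2.trans (closedBall_subset_ball (by norm_num))))
  rw [(S.c _).left_inv hs] at h3
  exact h3.trans (mul_le_mul_of_nonneg_left (setIntegral_mono_set h.2.integrableOn
    (Eventually.of_forall fun _ => sq_nonneg _)
    (inter_subset_inter_right _ (preimage_mono s2)).eventuallyLE) hC)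

theorem dec (hA : S.BasA) (hB : T.BasB) (hM : T.Mv) (σ : Y → ℂ) (h : S.H2 T.U σ) (ε : ℝ)
    (hε : ε > 0) : IsCompact {y | ε ≤ ‖σ y‖ ^ 2} := by
  obtain ⟨C, hC, hm⟩ := sup hB hM
  have hδ : 0 < ε * (1 / 2) ^ (2 * Fintype.card ι) := by positivity
  have hf : {k | ε * (1 / 2) ^ (2 * Fintype.card ι) ≤ C * ∫ y in S.B k 2, ‖σ y‖ ^ 2 ∂ν}.Finite := by
    by_contra hi
    obtain ⟨m, hm⟩ := exists_nat_gt (C * (S.n * ∫ y, ‖σ y‖ ^ 2 ∂ν) /
      (ε * (1 / 2) ^ (2 * Fintype.card ι)))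
    obtain ⟨F, hF, rfl⟩ := Set.Infinite.exists_subset_card_eq hi m
    have h3 := mul_le_mul_of_nonneg_left (hA.ov _ F (fun k => S.B k 2) h.2 (fun _ => sq_nonneg _)
      fun k => ⟨hA.ms k _ measurableSet_closedBall, inter_subset_left⟩) hC
    have h4 := F.card_nsmul_le_sum (fun k => C * ∫ y in S.B k 2, ‖σ y‖ ^ 2 ∂ν) _ fun k hk => hF hk
    rw [div_lt_iff₀ hδ] at hm
    rw [nsmul_eq_mul, ← Finset.mul_sum] at h4
    linarith
  refine (hf.isCompact_biUnion fun k _ => hA.cpt k 1 (by norm_num)).of_isClosed_subset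
    (isClosed_le continuous_const (hB.ck σ (hB.hol_an σ h.1).1).2) fun y hy => ?_
  exact mem_biUnion (x := S.ch y)
    ((mul_le_mul_of_nonneg_right hy (by positivity)).trans (hm σ h y))
    ⟨S.ch_eq y ▸ M.mem y, mem_closedBall_zero_iff.2 (S.ch_lt y).le⟩

theorem hsub {U : S.κ → Y → ℂ} {σ τ : Y → ℂ} (h : S.Hol U σ) (h' : S.Hol U τ) :
    S.Hol U fun y => σ y - τ y := fun k =>
  ((h k).sub (h' k)).congr fun _ _ => mul_sub _ _ _

variable [BorelSpace Y]

theorem h2 (hB : T.BasB) (J : Type) (F : Finset J) (d : J → ℂ) (σ : J → Y → ℂ)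
    (h : ∀ j ∈ F, S.H2 T.U (σ j)) : S.H2 T.U fun y => ∑ j ∈ F, d j * σ j y := by
  have h1 : S.Hol T.U fun y => ∑ j ∈ F, d j * σ j y := fun k => by
    have e : S.rep T.U (fun y => ∑ j ∈ F, d j * σ j y) k =
        fun z => ∑ j ∈ F, d j * S.rep T.U (σ j) k z :=
      funext fun z => (hB.sum J F (fun j y => d j * σ j y) k z).trans
        (Finset.sum_congr rfl fun j _ => hB.mul (fun _ => d j) (σ j) k z)
    rw [e]
    exact DifferentiableOn.fun_sum fun j hj => ((h j hj).1 k).const_mul _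
  refine ⟨h1, Integrable.mono' ((integrable_finsetSum F fun j hj =>
    (h j hj).2.const_mul (‖d j‖ ^ 2)).const_mul F.card) ?_ (Eventually.of_forall fun y => ?_)⟩
  · exact (hB.ck _ (hB.hol_an _ h1).1).2.aestronglyMeasurable
  · rw [Real.norm_of_nonneg (sq_nonneg _)]
    simp only [← mul_pow, ← norm_mul]
    exact (pow_le_pow_left₀ (norm_nonneg _) (norm_sum_le _ _) 2).trans sq_sum_le_card_mul_sum_sq

theorem sub (hB : T.BasB) {σ τ : Y → ℂ} (h : S.H2 T.U σ) (h' : S.H2 T.U τ) :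
    S.H2 T.U fun y => σ y - τ y := by
  simpa [sub_eq_add_neg] using h2 hB (Fin 2) Finset.univ ![1, -1] ![σ, τ] fun j _ => by
    fin_cases j <;> assumption

theorem lim (hA : S.BasA) (hB : T.BasB) (hM : T.Mv) (h : ℕ → Y → ℂ) (d : ℕ → ℝ)
    (hh : ∀ j, S.H2 T.U (h j)) (hd : Tendsto d atTop (𝓝 0))
    (hc : ∀ i j, i ≤ j → ∫ y, ‖h i y - h j y‖ ^ 2 ∂ν ≤ d i) :
    ∃ h', S.H2 T.U h' ∧ ∀ y, Tendsto (fun j => h j y) atTop (𝓝 (h' y)) := by
  obtain ⟨C, hC, hm⟩ := sup hB hM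
  set e : ℕ → ℝ := fun i => √(C * d i / (1 / 2) ^ (2 * Fintype.card ι))
  have he : Tendsto e atTop (𝓝 0) := by
    simpa only [mul_zero, zero_div, Real.sqrt_zero] using ((hd.const_mul C).div_const _).sqrt
  have h1 : ∀ y i j, i ≤ j → ‖h i y - h j y‖ ≤ e i := fun y i j hij => by
    have a := sub hB (hh i) (hh j)
    exact Real.le_sqrt_of_sq_le ((le_div_iff₀ (by positivity)).2 ((hm _ a y).trans
      (mul_le_mul_of_nonneg_left ((setIntegral_le_integral a.2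
        (Eventually.of_forall fun _ => sq_nonneg _)).trans (hc i j hij)) hC)))
  choose h' hl using fun y => cauchySeq_tendsto_of_complete
    (cauchySeq_of_le_tendsto_0' (s := fun j => h j y) e
      (fun i j hij => (dist_eq_norm _ _).trans_le (h1 y i j hij)) he)
  have h3 : ∀ y i, ‖h i y - h' y‖ ≤ e i := fun y i =>
    le_of_tendsto ((hl y).const_sub _).norm ((eventually_ge_atTop i).mono (h1 y i))
  obtain ⟨L, hL, hb⟩ := hA.bd 3 (by norm_num)
  obtain ⟨R, -, hr⟩ := hB.bd 3 (by norm_num)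
  have h4 : S.Hol T.U h' := hB.hol_loc _ fun y => ⟨S.ch y, S.ch_eq y ▸ M.mem y,
    MP_caab05_ag.GB.osg _ _ _ (ball 0 1) isOpen_ball (fun c hc => by
      have s1 : ball c (1 + 1) ⊆ ball 0 3 := fun w hw => mem_ball_zero_iff.2 (by
        linarith [norm_le_norm_add_norm_sub' w c, mem_ball_iff_norm.1 hw, mem_ball_zero_iff.1 hc])
      have s2 := s1.trans (ball_subset_ball (show (3 : ℝ) ≤ 4 by norm_num))
      refine (MP_caab05_ag.GB.OsgAux.lim_diff one_pos (fun j => ((hh j).1 (S.ch y)).mono s2)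
        (Metric.tendstoUniformlyOn_iff.2 fun ε hε => ?_)).differentiableWithinAt
      have a0 := he.const_mul √(Real.exp R * L)
      rw [mul_zero] at a0
      filter_upwards [a0.eventually (gt_mem_nhds hε)] with j hj w hw
      have a1 : w ∈ (S.c (S.ch y)).target := S.tgt _ ▸ s2 hw
      have a2 := T.nrm _ _ ((S.c (S.ch y)).map_target a1)
      have a3 := (mem_ball_zero_iff.1 (s1 hw)).le
      rw [(S.c _).right_inv a1] at a2
      rw [dist_comm, dist_eq_norm, Sg.rep, Sg.rep, ← mul_sub, norm_mul]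
      refine lt_of_le_of_lt (mul_le_mul (Real.le_sqrt_of_sq_le (a2.trans_le ?_)) (h3 _ j)
        (norm_nonneg _) (Real.sqrt_nonneg _)) hj
      exact mul_le_mul (Real.exp_le_exp.2 (abs_le.1 (hr _ w a3)).2) (hb _ w a3).2.2.2.2
        (le_trans (by positivity) (hb _ w a3).2.2.2.1) (Real.exp_pos _).le) _
      (mem_ball_zero_iff.2 (S.ch_lt y))⟩
  have h5 := (fatou (μ := ν) (g := fun m y => ‖h 0 y - h m y‖ ^ 2) (G := fun y => ‖h 0 y - h' y‖ ^ 2)
    (fun m => (sub hB (hh 0) (hh m)).2) (fun _ _ => sq_nonneg _)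
    (Eventually.of_forall fun y => ((hl y).const_sub _).norm.pow 2) fun m => hc 0 m m.zero_le).1
  exact ⟨h', by simpa using sub hB (hh 0) ⟨hsub (hh 0).1 h4, h5⟩, hl⟩

end BDS

theorem basD [BorelSpace Y] (hA : S.BasA) (hB : T.BasB) (hM : T.Mv) : T.BasD :=
  ⟨BDS.dec hA hB hM, BDS.h2 hB, BDS.lim hA hB hM⟩

end Pool.Agent.Lib.MP_813db1_ag.SV
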