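import Pool.Agent.Lib.MP_813db1_ag.SV.StA
import Pool.Agent.Lib.MP_813db1_ag.AN.BasC

/-! The gradient term read in the sheets. -/

namespace Pool.Agent.Lib.MP_813db1_ag.SV

open Pool.Agent.Lib.MP_813db1_ag.HS Pool.Agent.Lib.MP_813db1_ag.AS Pool.Agent.Lib.MP_813db1_ag.AN
open MeasureTheory Complex Matrix Filter Topology Set Metric
open scoped ContDiff ComplexOrder

noncomputable section

namespace BasN

section st

variable {ι Y : Type} [Fintype ι] [DecidableEq ι] [TopologicalSpace Y]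
  {M : Atl ι Y} {g : Y → Mat ι} (S : St M g) {k l : S.κ} {y : Y}

/-- the change of coordinates. -/
def ph (k l : S.κ) : V ι → V ι := S.c l ∘ (S.c k).symm

variable {S}

theorem mb (hk : y ∈ (S.c k).source) : S.c k y ∈ ball (0 : V ι) 4 :=
  S.tgt k ▸ (S.c k).map_source hk

theorem src (y : Y) : y ∈ (S.c (S.ch y)).source := S.ch_eq y ▸ M.mem y

theorem ph_pt (hk : y ∈ (S.c k).source) : ph S k l (S.c k y) = S.c l y := RepB.tr_pt hk

theorem kon (a : Fin S.n) : KOn (S.H a) (ball 0 4) := by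
  have h : ball (0 : V ι) 4 ⊆ ball 0 5 := ball_subset_ball (by norm_num)
  exact ⟨⟨(S.kon a).1.1.mono h, fun z hz => (S.kon a).1.2.1 z (h hz),
    fun z hz => (S.kon a).1.2.2 z (h hz)⟩, fun z hz => (S.kon a).2 z (h hz)⟩

theorem ev (hk : y ∈ (S.c k).source) (hl : y ∈ (S.c l).source) : ∀ᶠ w in 𝓝 (S.c k y),
    ∃ x ∈ (S.c k).source, x ∈ (S.c l).source ∧ S.c k x = w :=
  (RepB.ev hk hl).mono fun _ h => ⟨_, (S.c k).map_target h.1, h.2, (S.c k).right_inv h.1⟩

theorem H_pt (hk : y ∈ (S.c k).source) (hl : y ∈ (S.c l).source) : S.H (S.ty k) (S.c k y) =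
    pull (jac (ph S k l) (S.c k y)) (S.H (S.ty l) (ph S k l (S.c k y))) := by
  rw [ph_pt hk, ← S.rep_g k _ (mb hk), ← S.rep_g l _ (mb hl)]
  exact (AY.repA' ι Y M).repF_tr g _ (S.mem k) _ (S.mem l) y hk hl

end st

variable {ι Y : Type} [Fintype ι] [DecidableEq ι] [TopologicalSpace Y] [MeasurableSpace Y]
  {M : Atl ι Y} {g : Y → Mat ι} {ν : Measure Y} {S : Sg M g ν} {ξ : Y → Mat ι} (T : Bun S ξ)
  {k l : S.κ} {y : Y} {z : V ι}

/-- the transition function. -/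
def D (k l : S.κ) (w : V ι) : ℂ := T.U k ((S.c k).symm w) / T.U l ((S.c k).symm w)

variable {T}

theorem D_pt (hk : y ∈ (S.c k).source) : D T k l (S.c k y) = T.U k y / T.U l y := by
  rw [D, (S.c k).left_inv hk]

theorem tr (hB : T.BasB) (ψ : Y → ℝ) (hk : y ∈ (S.c k).source) (hl : y ∈ (S.c l).source) :
    Tr (ph S.toSt k l) (D T k l) (T.Φ ψ k) (T.Φ ψ l) (S.c k y) := by
  have an : AnalyticAt ℂ (ph S.toSt k l) (S.c k y) := M.hol _ (S.mem k) _ (S.mem l) y hk hl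
  have hd : (jac (ph S.toSt k l) (S.c k y)).det ≠ 0 :=
    (AY.repA' ι Y M).tj_det _ (S.mem k) _ (S.mem l) y hk hl
  refine ⟨an, hd, T.hol k l y hk hl, by
    rw [D_pt hk]
    exact div_ne_zero (hB.ne k y hk) (hB.ne l y hl), ?_⟩
  filter_upwards [ev hk hl] with w ⟨x, h1, h2, e⟩
  subst e
  have e1 := hB.wt k l x h1 h2
  rw [D_pt h1, ph_pt h1, Bun.Φ, Bun.Φ, (S.c k).left_inv h1, (S.c l).left_inv h2, neg_add, neg_add,
    Real.exp_add, Real.exp_add, mul_right_comm, e1, mul_assoc]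
  rfl

theorem shp_ev (hC : T.BasC) {σ : Y → ℂ} (hσ : S.Sm T.U σ) (hk : y ∈ (S.c k).source)
    (hl : y ∈ (S.c l).source) : ∀ᶠ w in 𝓝 (S.c k y),
      jac (ph S.toSt k l) w *ᵥ shp (S.H (S.ty k)) (S.rep T.U σ k) w =
        D T k l w • shp (S.H (S.ty l)) (S.rep T.U σ l) (ph S.toSt k l w) := by
  filter_upwards [ev hk hl] with w ⟨x, h1, h2, e⟩
  subst e
  rw [D_pt h1, ph_pt h1]
  exact hC.shp σ hσ k l x h1 h2

theorem cd_shp {σ : Y → ℂ} (hσ : S.Sm T.U σ) (hz : z ∈ ball (0 : V ι) 4)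
    (i : ι) : ContDiffAt ℝ ∞ (fun w => shp (S.H (S.ty k)) (S.rep T.U σ k) w i) z :=
  Green.cd_shp ((kon _).1.1.cd hz) (Green.det_ne ((kon _).2 z hz)) (hσ k z hz)
    (by simp) i

theorem nd (hA : S.BasA) (hB : T.BasB) (hC : T.BasC) {σ : Y → ℂ} (hσ : S.Sm T.U σ)
    (hk : y ∈ (S.c k).source) : (S.H (S.ty k) (S.c k y)).det.re * T.nd σ y =
      nD (S.H (S.ty k)) (shp (S.H (S.ty k)) (S.rep T.U σ k)) (S.c k y) *
        Real.exp (-T.ρ (S.ty k) (S.c k y)) := by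
  have hl := src (S := S.toSt) y
  have e := (tr hB 0 hk hl).nD_tr
    (fun i => (cd_shp hσ (mb hk) i).differentiableAt (by simp))
    (fun i => by rw [ph_pt hk]; exact (cd_shp hσ (mb hl) i).differentiableAt (by simp))
    (shp_ev hC hσ hk hl) (H_pt hk hl)
  have e1 := Green.det_rep (AY.repA' ι Y M) mat g (S.mem k) hk
  rw [S.rep_g k _ (mb hk), S.ch_eq] at e1
  simp only [Bun.Φ, Pi.zero_apply, add_zero, ph_pt hk] at e
  rw [e1, Bun.nd, mul_assoc, mul_div_cancel₀ _ (hA.det y).2.1.ne', mul_comm (nD _ _ _),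
    mul_comm (nD _ _ _), e]
  rfl

theorem cont (hA : S.BasA) (hB : T.BasB) (hC : T.BasC) {σ : Y → ℂ} (hσ : S.Sm T.U σ) :
    Continuous (T.nd σ) := by
  refine continuous_iff_continuousAt.2 fun y => ?_
  have hk := src (S := S.toSt) y
  generalize S.ch y = k at hk
  have hz := mb hk
  have p : ∀ z ∈ ball (0 : V ι) 4, (S.H (S.ty k) z).det.re ≠ 0 := fun z hz =>
    (Green.det_pos ((kon _).2 z hz)).ne'
  have cH := (kon (S := S.toSt) (S.ty k)).1.1.cd hz
  have cU := fun i j => (contDiffAt_dzb (m := 0) (cd_shp (k := k) hσ hz i) (by simp)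
    j).continuousAt
  have c0 : ContinuousAt (nD (S.H (S.ty k)) (shp (S.H (S.ty k)) (S.rep T.U σ k))) (S.c k y) :=
    continuous_re.continuousAt.comp (tendsto_finsetSum _ fun a _ => tendsto_finsetSum _
      fun b _ => tendsto_finsetSum _ fun i _ => tendsto_finsetSum _ fun j _ =>
        (((cH.inv (Green.det_ne ((kon _).2 _ hz)) a b).continuousAt.mul
          (cH i j).continuousAt).mul (cU i a)).mul (cU j b).star)
  have c : ContinuousAt (fun z => nD (S.H (S.ty k)) (shp (S.H (S.ty k)) (S.rep T.U σ k)) z *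
      Real.exp (-T.ρ (S.ty k) z) / (S.H (S.ty k) z).det.re) (S.c k y) :=
    (c0.mul (T.ρ_sm _ _ hz).continuousAt.neg.rexp).div
      (continuous_re.continuousAt.comp ((kon _).1.1.det hz).continuousAt) (p _ hz)
  refine (c.comp ((S.c k).continuousAt hk)).congr ?_
  filter_upwards [(S.c k).open_source.mem_nhds hk] with x hx
  rw [Function.comp, ← nd hA hB hC hσ hx, mul_div_cancel_left₀ _ (p _ (mb hx))]

theorem rep0 (hB : T.BasB) {σ : Y → ℂ} (hk : y ∈ (S.c k).source) (h : ∀ᶠ x in 𝓝 y, σ x = 0) :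
    shp (S.H (S.ty k)) (S.rep T.U σ k) =ᶠ[𝓝 (S.c k y)] fun _ => 0 := by
  refine AN.BasC.shp_zero ?_
  have c := (S.c k).continuousAt_symm ((S.c k).map_source hk)
  rw [ContinuousAt, (S.c k).left_inv hk] at c
  filter_upwards [c.eventually h, RepB.ev hk hk] with w a b
  have := (hB.zero σ k _ b.2).2 a
  rwa [(S.c k).right_inv b.1] at this

end BasN

open BasN in
theorem basN {ι Y : Type} [Fintype ι] [DecidableEq ι] [TopologicalSpace Y] [MeasurableSpace Y]
    {M : Atl ι Y} {g : Y → Mat ι} {ν : Measure Y} {S : Sg M g ν} {ξ : Y → Mat ι} {T : Bun S ξ}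
    (hA : S.BasA) (hB : T.BasB) (hC : T.BasC) : T.BasN where
  nd _ hσ _ _ hk := nd hA hB hC hσ hk
  nn σ y := div_nonneg (mul_nonneg (Flat.nD_nonneg
    ((kon _).2 _ (mb (src y))) _) (Real.exp_pos _).le) (hA.det y).2.1.le
  cont _ hσ := cont hA hB hC hσ
  off σ y h := by
    have e := rep0 hB (src (S := S.toSt) y) h
    have e2 : ∀ i j, dzb (fun w => shp (S.H (S.ty (S.ch y))) (S.rep T.U σ (S.ch y)) w i) j
        (S.c (S.ch y) y) = 0 := fun i j =>
      (dzb_congr (g := fun _ => 0) (e.mono fun _ h => congrFun h i) j).trans (dzb_const _ _ _)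
    simp [Bun.nd, nD, e2]

end

end Pool.Agent.Lib.MP_813db1_ag.SV
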