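import Pool.Agent.Lib.MP_813db1_ag.SV.BasN
import Pool.Agent.Lib.MP_813db1_ag.AN.Bk

/-! The identity of Bochner and Kodaira for sections of a line bundle. -/

namespace Pool.Agent.Lib.MP_813db1_ag.SV

open Pool.Agent.Lib.MP_813db1_ag.HS Pool.Agent.Lib.MP_813db1_ag.AS Pool.Agent.Lib.MP_813db1_ag.AN
open MeasureTheory Complex Matrix Filter Topology Set Metric
open scoped ContDiff ComplexOrder
open Pool.Agent.Lib.MP_813db1_ag.HS.Div Pool.Agent.Lib.MP_813db1_ag.AN.Flat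

variable {ι Y : Type} [Fintype ι] [DecidableEq ι] [TopologicalSpace Y] [MeasurableSpace Y]
  {M : Atl ι Y} {g : Y → Mat ι} {ν : Measure Y} {S : Sg M g ν} {ξ : Y → Mat ι} {T : Bun S ξ}

namespace BkI

open BasN (mb src ph_pt kon)

/-- the vector field. -/
noncomputable def W (T : Bun S ξ) (ψ : Y → ℝ) (σ : Y → ℂ) (k : S.κ) : V ι → V ι :=
  vB (T.Φ ψ k) (shp (S.H (S.ty k)) (S.rep T.U σ k)) (shp (S.H (S.ty k)) (S.rep T.U σ k))

theorem cov (hB : T.BasB) (hC : T.BasC) (ψ : Y → ℝ) {σ : Y → ℂ} (hσ : S.Sm T.U σ)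
    (k l : S.κ) (y : Y) (hk : y ∈ (S.c k).source) (hl : y ∈ (S.c l).source) :
    tj (S.c k) (S.c l) y *ᵥ W T ψ σ k (S.c k y) =
      ((‖(tj (S.c k) (S.c l) y).det‖ ^ 2 : ℝ) : ℂ) • W T ψ σ l (S.c l y) := by
  have e := BasN.shp_ev hC hσ hk hl
  have q := (BasN.tr hB ψ hk hl).vB_tr e.self_of_nhds
    (fun i => (BasN.cd_shp hσ (mb hk) i).differentiableAt (by simp))
    (fun i => by rw [ph_pt hk]; exact (BasN.cd_shp hσ (mb hl) i).differentiableAt (by simp)) e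
  rw [ph_pt hk] at q
  exact q

theorem off (hB : T.BasB) (ψ : Y → ℝ) (σ : Y → ℂ) (k : S.κ) (y : Y)
    (hk : y ∈ (S.c k).source) (h : y ∉ tsupport σ) : W T ψ σ k (S.c k y) = 0 := by
  have e2 : shp (S.H (S.ty k)) (S.rep T.U σ k) (S.c k y) = 0 :=
    (BasN.rep0 hB hk (notMem_tsupport_iff_eventuallyEq.1 h)).self_of_nhds
  rw [W, vB, e2, star_zero, mulVec_zero, smul_zero]

theorem smF (T : Bun S ξ) {ψ : Y → ℝ} (hψ : M.Ck ∞ ψ) : M.SmF fun x => ξ x + M.ddc ψ x := by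
  intro e he z hz i j
  have := ((T.cl e he).1 z hz i j).add (((AY.repB' ι Y M).ddc_cl ψ hψ e he).1 z hz i j)
  simpa only [Atl.repF, pull, Matrix.mul_add, Matrix.add_mul, Matrix.add_apply] using this

end BkI

open BkI BasN in
theorem bkI [T2Space Y] [BorelSpace Y] (hA : S.BasA) (hB : T.BasB) (hC : T.BasC) (hN : T.BasN)
    (hV : S.Dv) (hG : T.Grn) : T.BkI := by
  intro ψ σ hψ hσ
  have := hA.fin
  have hτ := hC.dc ψ σ hψ hσ
  have cψ : Continuous ψ := (repA mat ι Y M).cont ψ fun e he z hz => (hψ e he z hz).of_le (by simp)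
  have hd := fun y => (hA.det y).2.1
  obtain ⟨d1, d2, d3⟩ := hV (W T ψ σ)
    (fun y => dv (W T ψ σ (S.ch y)) (S.c (S.ch y) y) / ((g y).det.re : ℂ)) _ hσ.2
    (fun k z hz => contDiffAt_pi.2 (cd_vB (n := 2) le_rfl
      ((hC.levi ψ hψ k z hz).1.of_le (by simp))
      (fun i => (BK.cd_U (kon _) (hσ.1 k) hz i).of_le one_le_two)
      (BK.cd_U (kon _) (hσ.1 k) hz)))
    (cov hB hC ψ hσ.1) (BkI.off hB ψ σ) fun y => by
      rw [mul_div_cancel₀ _ (ofReal_ne_zero.2 (hd y).ne')]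
      rfl
  have i0 := d1.integrable_of_hasCompactSupport (μ := ν) (HasCompactSupport.intro hσ.2 d2)
  have i1 : ∀ B τ, M.SmF B → S.Sm T.U τ →
      Integrable (fun y => (S.ip1 T.U B σ τ y).re * Real.exp (-ψ y)) ν := fun B τ hF h =>
    ((continuous_re.comp (hC.cont B σ τ hF hσ.1 h)).mul
      cψ.neg.rexp).integrable_of_hasCompactSupport (HasCompactSupport.intro hσ.2 fun y hy => by
        simp [Sg.ip1, ipV, (hC.off ψ σ y (notMem_tsupport_iff_eventuallyEq.1 hy)).2])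
  have i2 : Integrable (fun y => T.nd σ y * Real.exp (-ψ y)) ν :=
    ((hN.cont σ hσ.1).mul cψ.neg.rexp).integrable_of_hasCompactSupport
      (HasCompactSupport.intro hσ.2 fun y hy => by
        simp [hN.off σ y (notMem_tsupport_iff_eventuallyEq.1 hy)])
  have i3 := i1 g _ (fun e he => (S.kg e he).1.1) hτ.1
  have i4 := i1 _ _ (smF T hψ) hσ.1
  have r0 := (integral_re (𝕜 := ℂ) i0).trans (congrArg _ d3)
  simp only [RCLike.re_to_complex, zero_re] at r0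
  rw [hG ψ σ _ hψ hσ hτ, Sg.p1, ← integral_add i4 i2, neg_eq_iff_add_eq_zero,
    ← integral_add i3 (i4.fun_add i2), ← r0]
  refine integral_congr_ae (ae_of_all _ fun y => ?_)
  have hy := src (S := S.toSt) y
  have hz := mb hy
  obtain ⟨l1, l2⟩ := hC.levi ψ hψ _ _ hz
  have e0 := Bk.pt isOpen_ball (kon _) (hσ.1 (S.ch y)) hz (l1.of_le (by norm_cast))
    (T := S.rep T.U (T.box ψ σ) (S.ch y))
    (by filter_upwards [isOpen_ball.mem_nhds hz] with w hw using hC.box ψ σ hψ hσ.1 _ w hw)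
  have e1 := congrArg re (hC.ip1 g σ _ hσ.1 hτ.1 _ y hy)
  have e2 := congrArg re (hC.ip1 (fun x => ξ x + M.ddc ψ x) σ _ hσ.1 hσ.1 _ y hy)
  have e4 := hN.nd σ hσ.1 _ y hy
  rw [S.rep_g _ _ hz] at e1
  rw [← l2] at e2
  rw [re_ofReal_mul, re_mul_ofReal] at e1 e2
  have e3 := (hA.det y).2.2
  have e5 : Real.exp (-T.Φ ψ (S.ch y) (S.c (S.ch y) y)) =
      Real.exp (-T.ρ (S.ty (S.ch y)) (S.c (S.ch y) y)) * Real.exp (-ψ y) := by
    rw [Bun.Φ, (S.c _).left_inv hy, neg_add, Real.exp_add]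
  have h0 := hd y
  change _ = (dv (W T ψ σ (S.ch y)) (S.c (S.ch y) y) / ((g y).det.re : ℂ)).re
  rw [div_ofReal_re, eq_div_iff h0.ne', W, e0, e5]
  rw [← e3] at e1 e2 e4
  rw [← e3]
  simp only [nV]
  linear_combination Real.exp (-ψ y) * e1 + Real.exp (-ψ y) * e2 + Real.exp (-ψ y) * e4

open BkI in
theorem gap [T2Space Y] [BorelSpace Y] (hA : S.BasA) (hC : T.BasC) (hN : T.BasN) (hI : T.BkI)
    {ψ : Y → ℝ} {c : ℝ} (hp : ∀ y, (ξ y + M.ddc ψ y - (c : ℂ) • g y).PosSemidef)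
    (hψ : M.Ck ∞ ψ) : T.Gap ψ c := by
  intro σ hσ
  have := hA.fin
  have cψ : Continuous ψ := (repA mat ι Y M).cont ψ fun e he z hz => (hψ e he z hz).of_le (by simp)
  have i1 : ∀ B, M.SmF B →
      Integrable (fun y => (S.ip1 T.U B σ σ y).re * Real.exp (-ψ y)) ν := fun B hF =>
    ((continuous_re.comp (hC.cont B σ σ hF hσ.1 hσ.1)).mul
      cψ.neg.rexp).integrable_of_hasCompactSupport (HasCompactSupport.intro hσ.2 fun y hy => by
        simp [Sg.ip1, ipV, (hC.off ψ σ y (notMem_tsupport_iff_eventuallyEq.1 hy)).2])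
  rw [hI ψ σ hψ hσ, Sg.p1, ← integral_const_mul]
  refine le_add_of_le_of_nonneg (integral_mono
    ((i1 g fun e he => (S.kg e he).1.1).const_mul c) (i1 _ (smF T hψ)) fun y => ?_)
    (integral_nonneg fun y => mul_nonneg (hN.nn σ y) (Real.exp_pos _).le)
  have n2 := mat.nv_mono ι _ (S.vec T.U σ y) (hp y)
  rw [Bk.nV_sub] at n2
  have k := mul_nonneg n2 (Real.exp_pos (-ψ y)).le
  simp only [nV, Sg.ip1] at k ⊢
  linear_combination k

end Pool.Agent.Lib.MP_813db1_ag.SV
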