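import Pool.Agent.Lib.MP_813db1_ag.SV.StA
import Pool.Agent.Lib.MP_813db1_ag.AN.Res

/-! The global parametrix. -/

namespace Pool.Agent.Lib.MP_813db1_ag.SV

open Pool.Agent.Lib.MP_813db1_ag.HS Pool.Agent.Lib.MP_813db1_ag.AN
open Pool.Agent.Lib.MP_bbd4b9_ag.BR (FinT)
open MeasureTheory Complex Matrix Filter Topology Set Metric
open scoped ContDiff ComplexOrder

variable {ι Y : Type} [Fintype ι] [DecidableEq ι] [TopologicalSpace Y] [MeasurableSpace Y]
  {M : Atl ι Y} {g : Y → Mat ι} {ν : Measure Y} {S : Sg M g ν} {ξ : Y → Mat ι} {R : Bun S ξ}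

namespace Den3

theorem unif (hC : R.BasC) {ψ : Y → ℝ} (hψ : M.Ck ∞ ψ) (hc : FinT S.toSt ψ) {ε : ℝ}
    (hε : 0 < ε) : ∀ᶠ l : ℝ in atTop, ∀ k, ∀ f : V ι → ℂ, Tf 2 f → ∃ w : V ι → ℂ, Tf (5 / 2) w ∧
    ∫ z in ball (0 : V ι) 3, ‖l * w z - bx (R.Φ ψ k) (S.H (S.ty k)) w z - f z‖ ^ 2 *
      Real.exp (-R.Φ ψ k z) ≤
      ε * ∫ z in ball (0 : V ι) 3, ‖f z‖ ^ 2 * Real.exp (-R.Φ ψ k z) := by
  obtain ⟨φ, hφ, hc⟩ := hc
  have h1 := (eventually_all_finite hc).2 fun k _ =>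
    S.par (S.ty k) (R.Φ ψ k) (fun z hz => (hC.levi ψ hψ k z hz).1) ε hε
  have h2 := eventually_all.2 fun a => S.par a (fun z => R.ρ a z + φ a z)
    (fun z hz => (R.ρ_sm a z hz).add (hφ a z hz)) ε hε
  filter_upwards [h1, h2] with l k1 k2 k f hf
  by_cases hk : EqOn (fun z => ψ ((S.c k).symm z)) (φ (S.ty k)) (ball 0 3)
  swap
  · exact k1 k hk f hf
  obtain ⟨w, w1, w2⟩ := k2 (S.ty k) f hf
  have e : ∀ z ∈ ball (0 : V ι) 3, R.Φ ψ k z = R.ρ (S.ty k) z + φ (S.ty k) z := fun z hz =>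
    congrArg (R.ρ (S.ty k) z + ·) (hk hz)
  refine ⟨w, w1, ?_⟩
  convert w2 using 1
  · refine setIntegral_congr_fun measurableSet_ball fun z hz => ?_
    rw [e z hz, bx_congr (Filter.mem_of_superset (isOpen_ball.mem_nhds hz) e) EventuallyEq.rfl
      EventuallyEq.rfl]
  · rw [setIntegral_congr_fun measurableSet_ball fun z hz => by rw [e z hz]]

theorem chart (hA : S.BasA) (hB : R.BasB) (ψ : Y → ℝ) (σ : Y → ℂ) (k : S.κ) :
    ∫ y in (S.c k).source ∩ S.c k ⁻¹' ball 0 3, ‖σ y‖ ^ 2 * Real.exp (-ψ y) ∂ν =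
      ∫ z in ball (0 : V ι) 3, ‖S.rep R.U σ k z‖ ^ 2 * Real.exp (-R.Φ ψ k z) := by
  rw [hA.intR k _ measurableSet_ball (ball_subset_ball (by norm_num))]
  refine setIntegral_congr_fun measurableSet_ball fun z hz => ?_
  have m : z ∈ (S.c k).target := S.tgt k ▸ ball_subset_ball (by norm_num) hz
  have := hB.dn σ k _ ((S.c k).map_target m)
  rw [(S.c k).right_inv m] at this
  rw [← mul_assoc, this, Bun.Φ, neg_add, Real.exp_add, mul_assoc]

theorem intg [T2Space Y] [BorelSpace Y] (hA : S.BasA) (hB : R.BasB) {ψ : Y → ℝ} (hψ : M.Ck ∞ ψ)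
    {σ : Y → ℂ} (hσ : S.Dc R.U σ) : Integrable (fun y => ‖σ y‖ ^ 2 * Real.exp (-ψ y)) ν := by
  have := hA.fin
  have c : Continuous ψ := (AY.repA' ι Y M).cont ψ fun e he z hz => (hψ e he z hz).of_le zero_le
  exact ((hB.ck σ hσ.1).2.mul c.neg.rexp).integrable_of_hasCompactSupport
    (HasCompactSupport.intro hσ.2 fun y hy => by simp [image_eq_zero_of_notMem_tsupport hy])

theorem box_sum (hB : R.BasB) (hC : R.BasC) (ψ : Y → ℝ) (T : Finset S.κ) {σ : S.κ → Y → ℂ}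
    (h : ∀ k, S.Dc R.U (σ k)) (y : Y) :
    R.box ψ (fun x => ∑ k ∈ T, σ k x) y = ∑ k ∈ T, R.box ψ (σ k) y := by
  classical
  induction T using Finset.induction_on with
  | empty => exact (hC.off ψ _ y (Eventually.of_forall fun _ => rfl)).1
  | insert j T hj ih =>
    have := (hC.lin ψ 1 1 (σ j) (fun x => ∑ k ∈ T, σ k x) y (h j).1
      (hB.dc_sum _ T σ fun k _ => h k).1).1
    simp only [one_mul] at this
    simp only [Finset.sum_insert hj]
    rw [this, ih]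

theorem dn_sum (hA : S.BasA) (T : Finset S.κ) (σ : S.κ → Y → ℂ) (y : Y)
    (h : ∀ k, σ k y ≠ 0 → y ∈ (S.c k).source) :
    ‖∑ k ∈ T, σ k y‖ ^ 2 ≤ S.n * ∑ k ∈ T, ‖σ k y‖ ^ 2 := by
  classical
  have k1 := hA.card (T.filter fun k => σ k y ≠ 0) y fun k hk => h k (Finset.mem_filter.1 hk).2
  have k2 := sq_sum_le_card_mul_sum_sq (s := T.filter fun k => σ k y ≠ 0) (f := fun k => ‖σ k y‖)
  have k3 : ‖∑ k ∈ T, σ k y‖ ≤ ∑ k ∈ T.filter fun k => σ k y ≠ 0, ‖σ k y‖ := by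
    rw [← Finset.sum_filter_ne_zero]
    exact norm_sum_le _ _
  refine ((pow_le_pow_left₀ (norm_nonneg _) k3 2).trans k2).trans ?_
  exact mul_le_mul (by exact_mod_cast k1) (Finset.sum_le_sum_of_subset_of_nonneg
    (Finset.filter_subset _ _) fun _ _ _ => sq_nonneg _) (by positivity) (by positivity)

end Den3

open Den3

theorem den [T2Space Y] [BorelSpace Y] (hA : S.BasA) (hB : R.BasB) (hC : R.BasC) : R.Den := by
  intro ψ hψ hc
  have e0 : (0 : ℝ) < 1 / (4 * (S.n ^ 2 + 1)) := by positivity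
  obtain ⟨l, hl, l0⟩ := ((unif hC hψ hc e0).and (eventually_gt_atTop 0)).exists
  refine ⟨l, l0, fun u hu => ?_⟩
  obtain ⟨χ, χ1, χ2⟩ := hA.pou
  obtain ⟨T, hT⟩ : ∃ T : Finset S.κ, ∀ y, u y ≠ 0 → ∀ k, y ∈ S.B k 2 → k ∈ T :=
    ⟨(S.fin _ hu.2 2 (by norm_num)).toFinset, fun y hy k hk => (Finite.mem_toFinset _).2
      ⟨y, subset_tsupport _ hy, hk.1, mem_closedBall_zero_iff.1 hk.2⟩⟩
  have u1 : ∀ k, S.Dc R.U fun y => (χ k y : ℂ) * u y := fun k =>
    ⟨hB.ck_mul _ u (χ1 k).1 hu.1, hu.2.mul_left⟩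
  have u2 : ∀ k y, (χ k y : ℂ) * u y ≠ 0 → y ∈ S.B k 2 := fun k y h =>
    ((χ1 k).2 y).2 fun h' => h (by simp [h'])
  choose w w1 w2 using fun k => hl k _ (hB.cut _ k 2 (by norm_num) (u1 k).1 (u2 k))
  have x := fun k => hB.ext k (5 / 2) (by norm_num) (w k) (w1 k)
  obtain ⟨E, hE⟩ : ∃ E : S.κ → Y → ℂ, ∀ k y,
      E k y = l * S.ext R.U k (w k) y - R.box ψ (S.ext R.U k (w k)) y - χ k y * u y :=
    ⟨_, fun _ _ => rfl⟩
  have E0 : ∀ k, E k = fun y => 1 * (l * S.ext R.U k (w k) y + -1 * R.box ψ (S.ext R.U k (w k)) y) +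
      -1 * (χ k y * u y) := fun k => funext fun y => by rw [hE]; ring
  have E1 : ∀ k, S.Dc R.U (E k) := fun k =>
    E0 k ▸ hB.dc_lin 1 (-1) _ _ (hB.dc_lin l (-1) _ _ (x k).1 (hC.dc ψ _ hψ (x k).1)) (u1 k)
  have E2 : ∀ k y, E k y ≠ 0 → y ∈ (S.c k).source ∩ S.c k ⁻¹' ball 0 3 := fun k y h => by
    by_contra hy
    have n1 : y ∉ tsupport (S.ext R.U k (w k)) := fun h' => hy ⟨((x k).2.2.2 h').1,
      closedBall_subset_ball (by norm_num) ((x k).2.2.2 h').2⟩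
    have n2 : (χ k y : ℂ) * u y = 0 := by
      by_contra h'
      exact hy ⟨(u2 k y h').1, closedBall_subset_ball (by norm_num) (u2 k y h').2⟩
    refine h ?_
    rw [hE, n2, image_eq_zero_of_notMem_tsupport n1,
      (hC.off ψ _ y (notMem_tsupport_iff_eventuallyEq.1 n1)).1]
    simp
  have E3 : ∀ k, ∫ y, ‖E k y‖ ^ 2 * Real.exp (-ψ y) ∂ν ≤ 1 / (4 * (S.n ^ 2 + 1)) *
      ∫ y in (S.c k).source ∩ S.c k ⁻¹' ball 0 3, ‖u y‖ ^ 2 * Real.exp (-ψ y) ∂ν := fun k => by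
    have s4 : ball (0 : V ι) 3 ⊆ ball 0 4 := ball_subset_ball (by norm_num)
    rw [← setIntegral_eq_integral_of_forall_compl_eq_zero
      (s := (S.c k).source ∩ S.c k ⁻¹' ball 0 3) fun y hy => by
        simp [not_not.1 (mt (E2 k y) hy)], chart hA hB]
    refine le_trans (le_of_eq ?_) ((w2 k).trans (mul_le_mul_of_nonneg_left ?_ e0.le))
    · refine setIntegral_congr_fun measurableSet_ball fun z hz => ?_
      rw [E0, hB.lin, hB.lin, hC.box ψ _ hψ (x k).1.1 k z (s4 hz), (x k).2.1 z (s4 hz),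
        bx_congr EventuallyEq.rfl EventuallyEq.rfl
          (Filter.mem_of_superset (isOpen_ball.mem_nhds (s4 hz)) (x k).2.1),
        indicator_of_mem (s4 hz)]
      congr 3
      ring
    · rw [setIntegral_congr_fun measurableSet_ball fun z hz => by rw [indicator_of_mem (s4 hz)],
        ← chart hA hB]
      refine integral_mono (intg hA hB hψ (u1 k)).integrableOn (intg hA hB hψ hu).integrableOn
        fun y => mul_le_mul_of_nonneg_right ?_ (Real.exp_pos _).le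
      by_cases h : (χ k y : ℂ) * u y = 0
      · simp [h]
      have h' := right_ne_zero_of_mul h
      have : χ k y ≤ 1 := χ2 T y (hT y h') ▸ Finset.single_le_sum (fun j _ => ((χ1 j).2 y).1)
        (hT y h' k (u2 k y h))
      simp only [norm_mul, mul_pow, norm_real, Real.norm_eq_abs, sq_abs]
      exact mul_le_of_le_one_left (sq_nonneg _) (pow_le_one₀ ((χ1 k).2 y).1 this)
  refine ⟨fun y => ∑ k ∈ T, S.ext R.U k (w k) y, hB.dc_sum _ T _ fun k _ => (x k).1, ?_⟩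
  have e : (fun y => (l : ℂ) * ∑ k ∈ T, S.ext R.U k (w k) y -
      R.box ψ (fun y => ∑ k ∈ T, S.ext R.U k (w k) y) y - u y) = fun y => ∑ k ∈ T, E k y := by
    funext y
    simp only [hE, Finset.sum_sub_distrib, ← Finset.mul_sum, ← Finset.sum_mul,
      box_sum hB hC ψ T fun k => (x k).1]
    by_cases h : u y = 0
    · simp [h]
    · rw [← ofReal_sum, χ2 T y (hT y h), ofReal_one, one_mul]
  have i := fun k => intg hA hB hψ (E1 k)
  have ov := hA.ov _ T (fun k => (S.c k).source ∩ S.c k ⁻¹' ball 0 3) (intg hA hB hψ hu)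
    (fun y => mul_nonneg (sq_nonneg ‖u y‖) (Real.exp_pos _).le)
    fun k => ⟨hA.ms k _ measurableSet_ball, inter_subset_left⟩
  have p : 0 ≤ ∫ y, ‖u y‖ ^ 2 * Real.exp (-ψ y) ∂ν :=
    integral_nonneg fun y => mul_nonneg (sq_nonneg ‖u y‖) (Real.exp_pos _).le
  rw [e, q0_self, q0_self]
  calc _ ≤ ∫ y, S.n * ∑ k ∈ T, ‖E k y‖ ^ 2 * Real.exp (-ψ y) ∂ν := by
        refine integral_mono (intg hA hB hψ (hB.dc_sum _ T _ fun k _ => E1 k))
          ((integrable_finsetSum _ fun k _ => i k).const_mul _) fun y => ?_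
        simp only [← Finset.sum_mul, ← mul_assoc]
        exact mul_le_mul_of_nonneg_right (dn_sum hA T E y fun k h => (E2 k y h).1)
          (Real.exp_pos _).le
    _ ≤ S.n * (1 / (4 * (S.n ^ 2 + 1)) * (S.n * ∫ y, ‖u y‖ ^ 2 * Real.exp (-ψ y) ∂ν)) := by
        rw [integral_const_mul, integral_finsetSum _ fun k _ => i k]
        refine mul_le_mul_of_nonneg_left ((Finset.sum_le_sum fun k _ => E3 k).trans ?_)
          (by positivity)
        rw [← Finset.mul_sum]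
        exact mul_le_mul_of_nonneg_left ov e0.le
    _ = S.n ^ 2 / (S.n ^ 2 + 1) * ((∫ y, ‖u y‖ ^ 2 * Real.exp (-ψ y) ∂ν) / 4) := by field_simp
    _ ≤ _ := mul_le_of_le_one_left (by positivity) ((div_le_one (by positivity)).2 (by linarith))

end Pool.Agent.Lib.MP_813db1_ag.SV
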