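import Pool.Agent.Lib.MP_813db1_ag.SV.StA
import Pool.Agent.Lib.MP_813db1_ag.HS.Div
import Pool.Agent.Lib.MP_813db1_ag.HS.RepA
import Pool.Agent.Lib.MP_813db1_ag.HS.Mat

/-! The divergence theorem for fields with compact support on the covering space. -/

namespace Pool.Agent.Lib.MP_813db1_ag.SV

open Pool.Agent.Lib.MP_813db1_ag.HS Pool.Agent.Lib.MP_813db1_ag.HS.Div
open MeasureTheory Complex Matrix Filter Topology Set Metric
open scoped ContDiff ComplexOrder

noncomputable section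

variable {ι Y : Type} [Fintype ι] [DecidableEq ι] [TopologicalSpace Y] [MeasurableSpace Y]
  {M : Atl ι Y} {g : Y → Mat ι} {ν : Measure Y} {S : Sg M g ν}

namespace DvS

/-- vector densities. -/
def Fld (S : Sg M g ν) (W : S.κ → V ι → V ι) : Prop :=
  (∀ k, ∀ z ∈ ball (0 : V ι) 4, ContDiffAt ℝ 1 (W k) z) ∧
  ∀ k l y, y ∈ (S.c k).source → y ∈ (S.c l).source → tj (S.c k) (S.c l) y *ᵥ W k (S.c k y) =
    ((‖(tj (S.c k) (S.c l) y).det‖ ^ 2 : ℝ) : ℂ) • W l (S.c l y)

/-- the divergence as a function. -/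
def dd (S : Sg M g ν) (W : S.κ → V ι → V ι) (y : Y) : ℂ :=
  dv (W (S.ch y)) (S.c (S.ch y) y) / ((g y).det.re : ℂ)

variable {W : S.κ → V ι → V ι}

theorem tg {k : S.κ} {y : Y} (hy : y ∈ (S.c k).source) : S.c k y ∈ ball (0 : V ι) 4 :=
  S.tgt k ▸ (S.c k).map_source hy

theorem src (y : Y) : y ∈ (S.c (S.ch y)).source := S.ch_eq y ▸ M.mem y

theorem pos {k : S.κ} {z : V ι} (hz : z ∈ ball (0 : V ι) 4) :
    ((S.H (S.ty k) z).det.re : ℂ) ≠ 0 :=
  ofReal_ne_zero.2 (mat.det ι _ ((S.kon _).2 z (ball_subset_ball (by norm_num) hz))).1.ne'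

theorem key (hA : S.BasA) (hW : Fld S W) (k : S.κ) {y : Y} (hy : y ∈ (S.c k).source) :
    dv (W k) (S.c k y) = ((S.H (S.ty k) (S.c k y)).det.re : ℂ) * dd S W y := by
  have ha := repA mat ι Y M
  have hy' : y ∈ (S.c (S.ch y)).source := src y
  have hd := ha.tj_det _ (S.mem k) _ (S.mem (S.ch y)) y hy hy'
  have e0 : (S.c (S.ch y) ∘ (S.c k).symm) (S.c k y) = S.c (S.ch y) y := by
    rw [Function.comp, (S.c k).left_inv hy]
  have an := M.hol _ (S.mem k) _ (S.mem (S.ch y)) y hy hy'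
  have i1 := dv_tr (W := W k) (W' := W (S.ch y)) an hd
    (e0 ▸ (hW.1 _ _ (tg hy')).differentiableAt one_ne_zero) (by
      have n1 : ∀ᶠ w in 𝓝 (S.c k y), (S.c k).symm w ∈ (S.c (S.ch y)).source :=
        ((S.c k).continuousAt_symm ((S.c k).map_source hy)).eventually_mem
          ((S.c _).open_source.mem_nhds (by rw [(S.c k).left_inv hy]; exact hy'))
      filter_upwards [n1, (S.c k).open_target.mem_nhds ((S.c k).map_source hy)] with w w1 w4
      have := hW.2 k _ ((S.c k).symm w) ((S.c k).map_target w4) w1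
      rwa [tj, (S.c k).right_inv w4] at this)
  rw [i1, e0, ← S.rep_g k _ (tg hy), ha.repF_tr g _ (S.mem k) _ (S.mem (S.ch y)) y hy hy',
    (mat.pull_pd ι _ _ hd).2.2.2.1, re_ofReal_mul, ofReal_mul, mul_assoc, dd, (hA.det y).2.2,
    S.rep_g _ _ (tg hy'), mul_div_cancel₀ _ (pos (tg hy'))]
  rfl

theorem cont (hA : S.BasA) (hW : Fld S W) : Continuous (dd S W) := by
  refine continuous_iff_continuousAt.2 fun y => ?_
  have hy : y ∈ (S.c (S.ch y)).source := src y
  have ce := (S.c (S.ch y)).continuousAt hy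
  have d1 : ContinuousAt (dv (W (S.ch y))) (S.c (S.ch y) y) := by
    unfold dv
    exact tendsto_finsetSum _ fun i _ => (contDiffAt_dz (m := 0)
      (contDiffAt_pi.1 (hW.1 _ _ (tg hy)) i) (by simp) i).continuousAt
  have d2 : ContinuousAt (fun z => ((S.H (S.ty (S.ch y)) z).det.re : ℂ)) (S.c (S.ch y) y) :=
    continuous_ofReal.continuousAt.comp (continuous_re.continuousAt.comp
      ((S.kon _).1.1.det (ball_subset_ball (by norm_num) (tg hy))).continuousAt)
  refine ((d1.div d2 (pos (tg hy))).comp ce).congr ?_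
  filter_upwards [(S.c (S.ch y)).open_source.mem_nhds hy] with x x1
  simp only [Function.comp, Pi.div_apply]
  rw [key hA hW _ x1, mul_div_cancel_left₀ _ (pos (tg x1))]

theorem off [T2Space Y] {K : Set Y} (hK : IsCompact K)
    (h0 : ∀ k, ∀ y ∈ (S.c k).source, y ∉ K → W k (S.c k y) = 0) {y : Y} (hy : y ∉ K) :
    dd S W y = 0 := by
  have h1 : y ∈ (S.c (S.ch y)).source := src y
  have n1 : ∀ᶠ w in 𝓝 (S.c (S.ch y) y), (S.c (S.ch y)).symm w ∈ Kᶜ :=
    ((S.c _).continuousAt_symm ((S.c _).map_source h1)).eventually_mem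
      (hK.isClosed.isOpen_compl.mem_nhds (by rwa [(S.c _).left_inv h1]))
  rw [dd, dv_congr (W' := fun _ => 0), dv_zero, zero_div]
  filter_upwards [n1, (S.c _).open_target.mem_nhds ((S.c _).map_source h1)] with w w1 w2
  have := h0 _ _ ((S.c _).map_target w2) w1
  rwa [(S.c _).right_inv w2] at this

theorem cut (hW : Fld S W) {u : Y → ℝ} (hu : M.Ck ∞ u) :
    Fld S fun l w => fn u (S.c l) w • W l w :=
  ⟨fun l z hz => ((hu _ (S.mem l) z (S.tgt l ▸ hz)).of_le (by norm_cast)).smul (hW.1 l z hz),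
    fun k l y hk hl => by
      beta_reduce
      rw [mulVec_smul, hW.2 k l y hk hl, smul_comm, fn, fn, (S.c k).left_inv hk,
        (S.c l).left_inv hl]⟩

theorem one [T2Space Y] [BorelSpace Y] (hA : S.BasA) (hW : Fld S W) (k : S.κ)
    (h0 : ∀ l, ∀ y ∈ (S.c l).source, y ∉ S.B k 2 → W l (S.c l y) = 0) :
    Integrable (dd S W) ν ∧ ∫ y, dd S W y ∂ν = 0 := by
  have hK := hA.cpt k 2 (by norm_num)
  have := hA.fin
  refine ⟨(cont hA hW).integrable_of_hasCompactSupport
    (HasCompactSupport.intro hK fun y hy => off hK h0 hy), ?_⟩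
  have s : closedBall (0 : V ι) 2 ⊆ ball 0 4 := closedBall_subset_ball (by norm_num)
  have tt : ∀ z ∈ ball (0 : V ι) 4, z ∈ (S.c k).target := fun z hz => S.tgt k ▸ hz
  rw [← setIntegral_eq_integral_of_forall_compl_eq_zero
      (s := (S.c k).source ∩ S.c k ⁻¹' ball 0 4) fun y hy => off hK h0 fun h => hy ⟨h.1, s h.2⟩,
    hA.int k _ measurableSet_ball Subset.rfl,
    setIntegral_congr_fun (g := dv (W k)) measurableSet_ball fun z hz => by
      have := key hA hW k ((S.c k).map_target (tt z hz))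
      rw [(S.c k).right_inv (tt z hz)] at this
      exact this.symm]
  refine int_dv isOpen_ball (isCompact_closedBall 0 2) s (hW.1 k) fun z hz hk => ?_
  have := h0 k _ ((S.c k).map_target (tt z hz)) fun h => hk (by
    have := h.2
    rwa [mem_preimage, (S.c k).right_inv (tt z hz)] at this)
  rwa [(S.c k).right_inv (tt z hz)] at this

end DvS

/-- the divergence theorem. -/
theorem dv [T2Space Y] [BorelSpace Y] (hA : S.BasA) : S.Dv := by
  intro W d K hK h1 h2 h3 h4
  have hW : DvS.Fld S W := ⟨h1, h2⟩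
  obtain rfl : d = DvS.dd S W := funext fun y => by
    rw [DvS.dd, Div.dv, h4, mul_div_cancel_left₀ _ (ofReal_ne_zero.2 (hA.det y).2.1.ne')]
  refine ⟨DvS.cont hA hW, fun y hy => DvS.off hK h3 hy, ?_⟩
  obtain ⟨χ, x1, x2⟩ := hA.pou
  have hT := S.fin K hK 2 (by norm_num)
  have o := fun k => DvS.one hA (DvS.cut hW (x1 k).1) k fun l y hl hy => by
    rw [fn, (S.c l).left_inv hl, show χ k y = 0 from by_contra fun h => hy (((x1 k).2 y).2 h),
      ofReal_zero, zero_smul]
  have sum : DvS.dd S W = fun y =>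
      ∑ k ∈ hT.toFinset, DvS.dd S (fun l w => fn (χ k) (S.c l) w • W l w) y := funext fun y => by
    have hy : y ∈ (S.c (S.ch y)).source := DvS.src y
    simp only [DvS.dd]
    rw [← Finset.sum_div]
    congr 1
    unfold Div.dv
    rw [Finset.sum_comm]
    refine Finset.sum_congr rfl fun i _ => ?_
    rw [← dz_sum _ fun k _ => (contDiffAt_pi.1
      ((DvS.cut hW (x1 k).1).1 _ _ (DvS.tg hy)) i).differentiableAt one_ne_zero]
    refine dz_congr ?_ i
    filter_upwards [(S.c _).open_target.mem_nhds ((S.c _).map_source hy)] with w hw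
    simp only [Pi.smul_apply, smul_eq_mul, ← Finset.sum_mul, fn, ← ofReal_sum]
    by_cases hk : (S.c (S.ch y)).symm w ∈ K
    · rw [x2 _ _ fun k h => hT.mem_toFinset.2 ⟨_, hk, h.1, mem_closedBall_zero_iff.1 h.2⟩,
        ofReal_one, one_mul]
    · have := h3 _ _ ((S.c _).map_target hw) hk
      rw [(S.c _).right_inv hw] at this
      rw [this, Pi.zero_apply, mul_zero]
  rw [sum, integral_finsetSum _ fun k _ => (o k).1]
  exact Finset.sum_eq_zero fun k _ => (o k).2

end

end Pool.Agent.Lib.MP_813db1_ag.SV
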