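import Pool.Agent.Lib.MP_813db1_ag.HS.Calc2
import Pool.Agent.Lib.MP_caab05_ag.GB.Osg

/-! Families of functions that are smooth as maps to the space of bounded sequences. -/

namespace Pool.Agent.Lib.MP_813db1_ag.SV.Nem

open Pool.Agent.Lib.MP_813db1_ag.HS Pool.Agent.Lib.MP_caab05_ag.GB
open Complex Filter Topology Set Metric
open scoped ContDiff

/-- bounded sequences. -/
abbrev B (κ : Type) : Type := lp (fun _ : κ => ℂ) (⊤ : ENNReal)

variable {ι κ : Type} [Fintype ι] {z : V ι} {f f' : κ → V ι → ℂ}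

theorem mem {g : κ → ℂ} {C : ℝ} (h : ∀ k, ‖g k‖ ≤ C) : Memℓp g ⊤ :=
  memℓp_infty ⟨C, by rintro _ ⟨k, rfl⟩; exact h k⟩

open scoped Classical in
/-- a sequence as a vector. -/
noncomputable def vc (g : κ → ℂ) : B κ := if h : Memℓp g ⊤ then ⟨g, h⟩ else 0

theorem vc_apply {g : κ → ℂ} {C : ℝ} (h : ∀ k, ‖g k‖ ≤ C) (k : κ) : vc g k = g k := by
  rw [vc, dif_pos (mem h)]

theorem le (x : B κ) (k : κ) : ‖x k‖ ≤ ‖x‖ := lp.norm_apply_le_norm ENNReal.top_ne_zero x k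

/-- the coordinates. -/
noncomputable def ev (k : κ) : B κ →L[ℂ] ℂ := lp.evalCLM ℂ (fun _ : κ => ℂ) ⊤ k

theorem hd {E : Type} [NormedAddCommGroup E] [NormedSpace ℂ E] {F : κ → E → ℂ} {c : E} {r C : ℝ}
    (hr : 0 < r) (hC : 0 ≤ C) (h1 : ∀ k, DifferentiableOn ℂ (F k) (ball c r))
    (h2 : ∀ k, ∀ w ∈ ball c r, ‖F k w‖ ≤ C) : ∃ L : E →L[ℂ] B κ,
      (∀ v k, L v k = fderiv ℂ (F k) c v) ∧ HasFDerivAt (fun w => vc fun k => F k w) L c := by
  have b1 : ∀ v k, ‖fderiv ℂ (F k) c v‖ ≤ 2 * C / r * ‖v‖ := fun v k =>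
    (fderiv ℂ (F k) c).le_of_opNorm_le (OsgAux.cauchy hr (h1 k) (h2 k)) v
  let L : E →L[ℂ] B κ := LinearMap.mkContinuous
    { toFun := fun v => ⟨fun k => fderiv ℂ (F k) c v, mem (b1 v)⟩
      map_add' := fun v w => lp.ext (funext fun k => map_add _ v w)
      map_smul' := fun a v => lp.ext (funext fun k => map_smul _ a v) }
    (2 * C / r) fun v => lp.norm_le_of_forall_le (by positivity) (b1 v)
  refine ⟨L, fun _ _ => rfl, hasFDerivAt_iff_isLittleO.2 (Asymptotics.IsBigO.trans_isLittleO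
    (Asymptotics.IsBigO.of_bound (4 * C / r ^ 2) ?_)
    (Asymptotics.isLittleO_pow_sub_sub c one_lt_two))⟩
  filter_upwards [ball_mem_nhds c hr] with w hw
  refine lp.norm_le_of_forall_le (by positivity) fun k => ?_
  have e : ((vc fun k => F k w) - (vc fun k => F k c) - L (w - c)) k =
      F k w - F k c - fderiv ℂ (F k) c (w - c) := by
    rw [← vc_apply (fun k => h2 k w hw) k, ← vc_apply (fun k => h2 k c (mem_ball_self hr)) k]
    rfl
  rw [e]
  refine (OsgAux.second (h1 k) (h2 k) hw).trans_eq ?_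
  rw [Real.norm_of_nonneg (by positivity)]
  ring

theorem nem (n : ℕ) : ∀ (φ : κ → ℂ → ℂ) (x : B κ) (r C : ℝ), 0 < r → 0 ≤ C →
    (∀ k, DifferentiableOn ℂ (φ k) (ball (x k) r)) → (∀ k, ∀ w ∈ ball (x k) r, ‖φ k w‖ ≤ C) →
    ContDiffAt ℂ n (fun y : B κ => vc fun k => φ k (y k)) x := by
  have key : ∀ (φ : κ → ℂ → ℂ) (x : B κ) (r C : ℝ), 0 < r → 0 ≤ C →
      (∀ k, DifferentiableOn ℂ (φ k) (ball (x k) r)) → (∀ k, ∀ w ∈ ball (x k) r, ‖φ k w‖ ≤ C) →
      (∀ k, ∀ w ∈ ball (x k) (r / 2), ‖deriv (φ k) w‖ ≤ 2 * C / (r / 2)) ∧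
      ∀ y ∈ ball x (r / 2), HasFDerivAt (fun y : B κ => vc fun k => φ k (y k))
        (ContinuousLinearMap.mul ℂ (B κ) (vc fun k => deriv (φ k) (y k))) y := by
    intro φ x r C hr hC h1 h2
    have m : ∀ {a : ℝ} {y : B κ}, y ∈ ball x a → ∀ k, y k ∈ ball (x k) a := fun hy k =>
      mem_ball_iff_norm.2 ((le (_ - x) k).trans_lt (mem_ball_iff_norm.1 hy))
    have b : ∀ k, ∀ w ∈ ball (x k) (r / 2), ‖deriv (φ k) w‖ ≤ 2 * C / (r / 2) := fun k w hw => by
      have s : ball w (r / 2) ⊆ ball (x k) r := (OsgAux.ball_sub hw).trans_eq (by rw [add_halves])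
      rw [norm_deriv_eq_norm_fderiv]
      exact OsgAux.cauchy (half_pos hr) ((h1 k).mono s) fun u hu => h2 k u (s hu)
    refine ⟨b, fun y hy => ?_⟩
    have s : ball y (r / 2) ⊆ ball x r := (OsgAux.ball_sub hy).trans_eq (by rw [add_halves])
    obtain ⟨L, l1, l2⟩ := hd (F := fun k (y : B κ) => φ k (y k)) (half_pos hr) hC
      (fun k => (h1 k).comp (ev k).differentiableOn fun u hu => m (s hu) k)
      fun k u hu => h2 k _ (m (s hu) k)
    refine l2.congr_fderiv (ContinuousLinearMap.ext fun v => lp.ext (funext fun k => ?_))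
    have d := ((h1 k).differentiableAt (isOpen_ball.mem_nhds
      (m (s (mem_ball_self (half_pos hr))) k))).hasDerivAt.comp_hasFDerivAt y (ev k).hasFDerivAt
    rw [l1, show fderiv ℂ (fun y : B κ => φ k (y k)) y = _ from d.fderiv,
      ← vc_apply (fun k => b k _ (m hy k)) k]
    rfl
  induction n with
  | zero =>
    intro φ x r C hr hC h1 h2
    exact contDiffAt_zero.2 ⟨_, ball_mem_nhds x (half_pos hr), fun y hy =>
      ((key φ x r C hr hC h1 h2).2 y hy).continuousAt.continuousWithinAt⟩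
  | succ n ih =>
    intro φ x r C hr hC h1 h2
    obtain ⟨k1, k2⟩ := key φ x r C hr hC h1 h2
    exact contDiffAt_succ_iff_hasFDerivAt.2 ⟨_, ⟨_, ball_mem_nhds x (half_pos hr), k2⟩,
      (ContinuousLinearMap.mul ℂ (B κ)).contDiff.contDiffAt.comp x
        (ih (fun k => deriv (φ k)) x (r / 2) _ (half_pos hr) (by positivity) (fun k =>
          ((h1 k).deriv isOpen_ball).mono (ball_subset_ball (half_le_self hr.le))) k1)⟩

/-- the family is smooth at `z` as a map to the bounded sequences. -/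
def Sf (f : κ → V ι → ℂ) (z : V ι) : Prop :=
  ∃ Φ : V ι → B κ, ContDiffAt ℝ ∞ Φ z ∧ ∀ᶠ w in 𝓝 z, ∀ k, Φ w k = f k w

namespace Sf

theorem congr (h : Sf f z) (e : ∀ᶠ w in 𝓝 z, ∀ k, f k w = f' k w) : Sf f' z :=
  h.imp fun _ h => ⟨h.1, (h.2.and e).mono fun _ h k => (h.1 k).trans (h.2 k)⟩

theorem hol {C : ℝ} (hC : 0 ≤ C)
    (h : ∀ᶠ w in 𝓝 z, ∀ k, DifferentiableAt ℂ (f k) w ∧ ‖f k w‖ ≤ C) : Sf f z := by
  obtain ⟨R, hR, h⟩ := Metric.eventually_nhds_iff_ball.1 h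
  have a : AnalyticAt ℂ (fun w => vc fun k => f k w) z := by
    refine osg _ _ _ _ isOpen_ball (fun c hc => ?_) _ (mem_ball_self hR)
    obtain ⟨r, hr, hs⟩ := Metric.isOpen_iff.1 isOpen_ball c hc
    obtain ⟨L, -, l⟩ := hd hr hC (fun k w hw => (h w (hs hw) k).1.differentiableWithinAt)
      fun k w hw => (h w (hs hw) k).2
    exact l.differentiableAt.differentiableWithinAt
  exact ⟨_, a.contDiffAt.restrict_scalars ℝ, mem_of_superset (ball_mem_nhds z hR) fun w hw =>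
    vc_apply fun k => (h w hw k).2⟩

theorem const {c : κ → ℂ} {C : ℝ} (h : ∀ k, ‖c k‖ ≤ C) {u : V ι → ℂ} (hu : ContDiffAt ℝ ∞ u z) :
    Sf (fun k w => u w * c k) z :=
  ⟨fun w => u w • vc c, hu.smul contDiffAt_const, Eventually.of_forall fun w k =>
    congrArg (u w * ·) (vc_apply h k)⟩

theorem one {u : V ι → ℂ} (hu : ContDiffAt ℝ ∞ u z) : Sf (fun (_ : κ) w => u w) z :=
  (const (c := fun _ => 1) (fun _ => le_rfl) hu).congr (Eventually.of_forall fun _ _ => mul_one _)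

theorem add (h : Sf f z) (h' : Sf f' z) : Sf (fun k w => f k w + f' k w) z := by
  obtain ⟨Φ, a, b⟩ := h
  obtain ⟨Ψ, c, d⟩ := h'
  exact ⟨fun w => Φ w + Ψ w, a.add c, (b.and d).mono fun w h k => congrArg₂ (· + ·) (h.1 k) (h.2 k)⟩

theorem mul (h : Sf f z) (h' : Sf f' z) : Sf (fun k w => f k w * f' k w) z := by
  obtain ⟨Φ, a, b⟩ := h
  obtain ⟨Ψ, c, d⟩ := h'
  exact ⟨fun w => Φ w * Ψ w, a.mul c, (b.and d).mono fun w h k => congrArg₂ (· * ·) (h.1 k) (h.2 k)⟩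

theorem conj (h : Sf f z) : Sf (fun k w => star (f k w)) z := by
  obtain ⟨Φ, a, b⟩ := h
  let S : B κ →L[ℝ] B κ := LinearMap.mkContinuous
    { toFun := star
      map_add' := star_add
      map_smul' := fun c l => lp.ext (funext fun k => by simp) } 1 fun l => by simp
  exact ⟨fun w => S (Φ w), S.contDiff.contDiffAt.comp z a, b.mono fun w h k => congrArg star (h k)⟩

theorem fsum {α : Type} (s : Finset α) {F : α → κ → V ι → ℂ} (h : ∀ a ∈ s, Sf (F a) z) :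
    Sf (fun k w => ∑ a ∈ s, F a k w) z := by
  classical
  induction s using Finset.induction_on with
  | empty => simpa using one (κ := κ) (contDiffAt_const (c := (0 : ℂ)))
  | insert a s ha ih =>
    simpa only [Finset.sum_insert ha] using (h a (Finset.mem_insert_self a s)).add
      (ih fun b hb => h b (Finset.mem_insert_of_mem hb))

theorem bd (h : Sf f z) : ∃ C ≥ (0 : ℝ), ∀ k, ‖f k z‖ ≤ C := by
  obtain ⟨Φ, -, b⟩ := h
  exact ⟨_, norm_nonneg _, fun k => b.self_of_nhds k ▸ le (Φ z) k⟩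

theorem comp (h : Sf f z) (φ : ℂ → ℂ) {r C : ℝ} (hr : 0 < r) (hC : 0 ≤ C)
    (h1 : ∀ k, ∀ w ∈ ball (f k z) r, DifferentiableAt ℂ φ w ∧ ‖φ w‖ ≤ C) :
    Sf (fun k w => φ (f k w)) z := by
  obtain ⟨Φ, a, b⟩ := h
  simp only [← b.self_of_nhds] at h1
  refine ⟨fun w => vc fun k => φ (Φ w k), ContDiffAt.comp z (g := fun y : B κ => vc fun k => φ (y k))
    (contDiffAt_infty.2 fun n => (nem n (fun _ => φ) (Φ z) r C hr hC
      (fun k w hw => (h1 k w hw).1.differentiableWithinAt)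
      fun k w hw => (h1 k w hw).2).restrict_scalars ℝ) a, ?_⟩
  filter_upwards [b, a.continuousAt.eventually (ball_mem_nhds _ hr)] with w e hw k
  rw [← e]
  exact vc_apply (fun k => (h1 k _ (mem_ball_iff_norm.2
    ((le (_ - Φ z) k).trans_lt (mem_ball_iff_norm.1 hw)))).2) k

theorem exp (h : Sf f z) : Sf (fun k w => cexp (f k w)) z := by
  obtain ⟨C, -, b⟩ := h.bd
  refine h.comp cexp one_pos (Real.exp_pos (C + 1)).le fun k w hw => ⟨differentiableAt_exp, ?_⟩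
  refine (norm_exp_le_exp_norm w).trans (Real.exp_le_exp.2 ?_)
  linarith [norm_le_norm_add_norm_sub' w (f k z), mem_ball_iff_norm.1 hw, b k]

theorem rpow {u : κ → V ι → ℝ} (h : Sf (fun k w => (u k w : ℂ)) z) {c q : ℝ} (hc : 0 < c)
    (hq : 0 ≤ q) (h0 : ∀ᶠ w in 𝓝 z, ∀ k, 0 ≤ u k w) (h1 : ∀ k, c ≤ u k z) :
    Sf (fun k w => ((u k w ^ q : ℝ) : ℂ)) z := by
  obtain ⟨C, c0, b⟩ := h.bd
  refine (h.comp (fun x => x ^ (q : ℂ)) hc (C := (C + c) ^ q) (by positivity)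
    fun k w hw => ⟨?_, ?_⟩).congr (h0.mono fun w hw k => (ofReal_cpow (hw k) q).symm)
  · refine differentiableAt_id.cpow_const (Or.inl ?_)
    have := (abs_re_le_norm (w - u k z)).trans_lt (mem_ball_iff_norm.1 hw)
    rw [sub_re, ofReal_re] at this
    change 0 < w.re
    linarith [h1 k, (abs_lt.1 this).1]
  · rw [norm_cpow_real]
    refine Real.rpow_le_rpow (norm_nonneg _) ?_ hq
    linarith [norm_le_norm_add_norm_sub' w (u k z), mem_ball_iff_norm.1 hw, b k]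

end Sf

variable [DecidableEq ι]

theorem clm {E : Type} [NormedAddCommGroup E] [NormedSpace ℝ E] {Φ : V ι → E} {F : V ι → ℝ}
    (a : ContDiffAt ℝ ∞ Φ z) (T : E →L[ℝ] ℂ) (e : ∀ᶠ w in 𝓝 z, (F w : ℂ) = T (Φ w)) :
    ContDiffAt ℝ ∞ F z ∧ (∀ v, fderiv ℝ F z v = (T (fderiv ℝ Φ z v)).re) ∧
      ∀ i j, levi (fun w => (F w : ℂ)) z i j =
      ((T (fderiv ℝ (fderiv ℝ Φ) z (Pi.single i 1) (Pi.single j 1)) +
        I * T (fderiv ℝ (fderiv ℝ Φ) z (Pi.single i 1) (Pi.single j I))) / 2 -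
      I * ((T (fderiv ℝ (fderiv ℝ Φ) z (Pi.single i I) (Pi.single j 1)) +
        I * T (fderiv ℝ (fderiv ℝ Φ) z (Pi.single i I) (Pi.single j I))) / 2)) / 2 := by
  have c1 : ContDiffAt ℝ ∞ (fun w => T (Φ w)) z := T.contDiff.contDiffAt.comp z a
  have e1 : F =ᶠ[𝓝 z] fun w => (reCLM.comp T) (Φ w) := e.mono fun w h => congrArg re h
  have a2 : ContDiffAt ℝ 2 Φ z := a.of_le (by norm_cast)
  refine ⟨((reCLM.comp T).contDiff.contDiffAt.comp z a).congr_of_eventuallyEq e1, fun v => ?_,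
    fun i j => ?_⟩
  · rw [e1.fderiv_eq, show fderiv ℝ (fun w => (reCLM.comp T) (Φ w)) z = _ from
      ((reCLM.comp T).hasFDerivAt.comp z (a2.differentiableAt two_ne_zero).hasFDerivAt).fderiv]
    rfl
  · have e2 : fderiv ℝ (fun w => T (Φ w)) =ᶠ[𝓝 z]
        fun w => ContinuousLinearMap.compL ℝ (V ι) E ℂ T (fderiv ℝ Φ w) :=
      (a2.eventually (by simp)).mono fun w h =>
        (T.hasFDerivAt.comp w (h.differentiableAt two_ne_zero).hasFDerivAt).fderiv
    have e3 : ∀ u v, fderiv ℝ (fderiv ℝ fun w => T (Φ w)) z u v =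
        T (fderiv ℝ (fderiv ℝ Φ) z u v) := fun u v => by
      rw [e2.fderiv_eq, show fderiv ℝ (fun w => ContinuousLinearMap.compL ℝ (V ι) E ℂ T
        (fderiv ℝ Φ w)) z = _ from ((ContinuousLinearMap.compL ℝ (V ι) E ℂ T).hasFDerivAt.comp z
          ((a2.fderiv_right (m := 1) le_rfl).differentiableAt one_ne_zero).hasFDerivAt).fderiv]
      rfl
    have c2 : ContDiffAt ℝ 2 (fun w => T (Φ w)) z := c1.of_le (by norm_cast)
    rw [levi_congr (g := fun w => T (Φ w)) e, levi, Matrix.of_apply, dz, fderiv_dzb c2,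
      fderiv_dzb c2, e3, e3, e3, e3]

theorem lin {a : κ → ℝ} (ha : Summable a) : ∃ (T : κ → B κ →L[ℝ] ℂ) (L : B κ →L[ℝ] ℂ),
    (∀ k x, T k x = a k * x k) ∧ ∀ x, HasSum (fun k => T k x) (L x) := by
  have b : ∀ (x : B κ) k, ‖(a k : ℂ) * x k‖ ≤ |a k| * ‖x‖ := fun x k => by
    rw [norm_mul, norm_real]
    exact mul_le_mul_of_nonneg_left (le x k) (abs_nonneg _)
  have s : ∀ x : B κ, Summable fun k => (a k : ℂ) * x k := fun x =>
    (ha.abs.mul_right _).of_norm_bounded (b x)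
  let L : B κ →L[ℂ] ℂ := LinearMap.mkContinuous
    { toFun := fun x => ∑' k, (a k : ℂ) * x k
      map_add' := fun x y => by
        rw [← (s x).tsum_add (s y)]
        exact tsum_congr fun k => mul_add _ _ _
      map_smul' := fun c x => by
        rw [smul_eq_mul, ← tsum_mul_left]
        exact tsum_congr fun k => mul_left_comm _ c _ } (∑' k, |a k|) fun x =>
    tsum_of_norm_bounded (ha.abs.hasSum.mul_right _) (b x)
  exact ⟨fun k => ((a k : ℂ) • ev k).restrictScalars ℝ, L.restrictScalars ℝ, fun _ _ => rfl,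
    fun x => (s x).hasSum⟩

/-- sums are differentiated term by term. -/
theorem Sf.sum (h : Sf f z) {a : κ → ℝ} (ha : Summable a) {F : κ → V ι → ℝ} {N : V ι → ℝ}
    (hF : ∀ᶠ w in 𝓝 z, ∀ k, (F k w : ℂ) = a k * f k w)
    (hN : ∀ᶠ w in 𝓝 z, HasSum (fun k => F k w) (N w)) :
    ContDiffAt ℝ ∞ N z ∧ (∀ k, ContDiffAt ℝ ∞ (F k) z) ∧
      (∀ v, HasSum (fun k => fderiv ℝ (F k) z v) (fderiv ℝ N z v)) ∧
      ∀ v, HasSum (fun k => nV (levi (fun w => (F k w : ℂ)) z) v)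
        (nV (levi (fun w => (N w : ℂ)) z) v) := by
  obtain ⟨Φ, c, b⟩ := h
  obtain ⟨T, L, t0, t2⟩ := lin ha
  have e1 : ∀ᶠ w in 𝓝 z, ∀ k, (F k w : ℂ) = T k (Φ w) :=
    (hF.and b).mono fun w h k => by rw [t0, h.1, h.2]
  have k1 := fun k => clm c (T k) (e1.mono fun _ h => h k)
  have k2 := clm c L (F := N) ((e1.and hN).mono fun w h =>
    (hasSum_ofReal.2 h.2).unique (by simpa only [h.1] using t2 (Φ w)))
  refine ⟨k2.1, fun k => (k1 k).1, fun v => ?_, fun v => ?_⟩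
  · simp only [(k1 _).2.1, k2.2.1]
    exact hasSum_re (t2 _)
  · refine hasSum_re (hasSum_sum fun i _ => hasSum_sum fun j _ =>
      HasSum.mul_right _ (HasSum.mul_right _ ?_))
    simp only [(k1 _).2.2, k2.2.2]
    exact ((((t2 _).add ((t2 _).mul_left _)).div_const _).sub
      ((((t2 _).add ((t2 _).mul_left _)).div_const _).mul_left _)).div_const _

end Pool.Agent.Lib.MP_813db1_ag.SV.Nem
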