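import Pool.Agent.Lib.MP_813db1_ag.SV.FamG
import Pool.Agent.Lib.MP_813db1_ag.SV.Nem

/-! The family: the weight and the regularity of the sum. -/

namespace Pool.Agent.Lib.MP_813db1_ag.SV

open Pool.Agent.Lib.MP_813db1_ag.HS Pool.Agent.Lib.MP_813db1_ag.AS Pool.Agent.Lib.MP_813db1_ag.AN
open Filter Topology Set F12 FamG Nem
open scoped ContDiff

namespace FamW

section

variable {ι κ : Type} [Fintype ι] {z : V ι} {u u' : κ → V ι → ℝ}

/-- real families. -/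
def Sr (u : κ → V ι → ℝ) (z : V ι) : Prop := Sf (fun k w => (u k w : ℂ)) z

theorem Sr.congr (h : Sr u z) (e : ∀ᶠ w in 𝓝 z, ∀ k, u k w = u' k w) : Sr u' z :=
  Sf.congr h (e.mono fun _ a k => congrArg _ (a k))

theorem Sr.add (h : Sr u z) (h' : Sr u' z) : Sr (fun k w => u k w + u' k w) z :=
  (Sf.add h h').congr (Eventually.of_forall fun _ _ => (Complex.ofReal_add _ _).symm)

theorem Sr.mul (h : Sr u z) (h' : Sr u' z) : Sr (fun k w => u k w * u' k w) z :=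
  (Sf.mul h h').congr (Eventually.of_forall fun _ _ => (Complex.ofReal_mul _ _).symm)

theorem Sr.exp (h : Sr u z) : Sr (fun k w => Real.exp (u k w)) z :=
  (Sf.exp h).congr (Eventually.of_forall fun _ _ => (Complex.ofReal_exp _).symm)

theorem Sr.one {v : V ι → ℝ} (h : ContDiffAt ℝ ∞ v z) : Sr (fun (_ : κ) w => v w) z :=
  Sf.one (Complex.ofRealCLM.contDiff.contDiffAt.comp z h)

theorem Sr.lin {α : Type} (s : Finset α) {v : α → V ι → ℝ} (h : ∀ a, ContDiffAt ℝ ∞ (v a) z)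
    {c : α → κ → ℝ} {D : ℝ} (hc : ∀ a ∈ s, ∀ k, |c a k| ≤ D) :
    Sr (fun k w => ∑ a ∈ s, v a w * c a k) z :=
  (Sf.fsum s fun a ha => Sf.const (c := fun k => (c a k : ℂ))
    (fun k => (Complex.norm_real _).trans_le (hc a ha k))
    (Complex.ofRealCLM.contDiff.contDiffAt.comp z (h a))).congr
    (Eventually.of_forall fun _ _ => by simp)

theorem Sr.sq {f : κ → V ι → ℂ} (h : Sf f z) : Sr (fun k w => ‖f k w‖ ^ 2) z :=
  (h.mul h.conj).congr (Eventually.of_forall fun _ _ => by simp [Complex.mul_conj'])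

end

variable {ι X Y G : Type} [Fintype ι] [DecidableEq ι] [TopologicalSpace X] [T2Space X]
  [TopologicalSpace Y] [Group G] [MulAction G Y] {M : Atl ι X} {g : X → Mat ι} {p : Y → X}
  {χ : Y → ℝ} {α : G → ℝ} {s : Y → ℂ} {r δ : ℝ} {ρ : X → ℝ}

/-- the weight. -/
noncomputable def lf (χ : Y → ℝ) (α : G → ℝ) (y : Y) : ℝ := ∑' h : G, χ (h • y) * α h⁻¹

/-- slowly varying functions on the group. -/
def Sl (α : G → ℝ) : Prop := ∀ h, ∃ C, ∀ γ, |α (γ * h) - α γ| ≤ C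

omit [DecidableEq ι] in
theorem key (hp : IsQuotientCoveringMap p G) (hχ : Pu M G p χ) (hα : Sl α) {K : Set Y}
    (hK : IsCompact K) : ∃ (H : Finset G) (D : ℝ), 0 ≤ D ∧
      (∀ η ∈ H, ∀ γ, |α (γ * η⁻¹) - α γ| ≤ D) ∧ ∀ y ∈ K, (∃ η ∈ H, η • y ∈ tsupport χ) ∧ ∀ γ,
        lf χ α (γ • y) = α γ + ∑ η ∈ H, χ (η • y) * (α (γ * η⁻¹) - α γ) ∧
        |lf χ α (γ • y) - α γ| ≤ D := by
  have fin := MP_bbd4b9_ag.NH.prop_fin hp (hK.prod hχ.cpt)
  choose C hC using hα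
  have b : ∀ η ∈ fin.toFinset, ∀ γ, |α (γ * η⁻¹) - α γ| ≤ ∑ η ∈ fin.toFinset, |C η⁻¹| :=
    fun η h γ => ((hC _ _).trans (le_abs_self _)).trans
      (Finset.single_le_sum (f := fun η => |C η⁻¹|) (fun _ _ => abs_nonneg _) h)
  refine ⟨_, _, Finset.sum_nonneg fun _ _ => abs_nonneg _, b, fun y hy => ?_⟩
  have z0 : ∀ η ∉ fin.toFinset, χ (η • y) = 0 := fun η h => image_eq_zero_of_notMem_tsupport
    fun h1 => h (fin.mem_toFinset.2 ⟨(y, η • y), ⟨hy, h1⟩, rfl⟩)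
  have s1 : ∑ η ∈ fin.toFinset, χ (η • y) = 1 := (tsum_eq_sum z0).symm.trans (hχ.sum y)
  refine ⟨?_, fun γ => ?_⟩
  · obtain ⟨η, h1, h2⟩ := Finset.exists_ne_zero_of_sum_ne_zero (s1.trans_ne one_ne_zero)
    exact ⟨η, h1, subset_tsupport _ h2⟩
  have e : lf χ α (γ • y) = α γ + ∑ η ∈ fin.toFinset, χ (η • y) * (α (γ * η⁻¹) - α γ) := by
    have := (Equiv.mulRight γ).tsum_eq fun η : G => χ (η • y) * α (γ * η⁻¹)
    simp only [Equiv.coe_mulRight, mul_smul, mul_inv_rev, mul_inv_cancel_left] at this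
    rw [lf, this, tsum_eq_sum (s := fin.toFinset) fun η h => by rw [z0 η h, zero_mul]]
    simp only [mul_sub, Finset.sum_sub_distrib, ← Finset.sum_mul, s1]
    ring
  refine ⟨e, ?_⟩
  rw [e, add_sub_cancel_left]
  refine (Finset.abs_sum_le_sum_abs _ _).trans ((Finset.sum_le_sum fun η h => ?_).trans_eq
    ((Finset.sum_mul _ _ _).symm.trans ((congrArg (· * _) s1).trans (one_mul _))))
  rw [abs_mul, abs_of_nonneg (hχ.nn _)]
  exact mul_le_mul_of_nonneg_left (b η h γ) (hχ.nn _)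

variable [CompactSpace X]

theorem l_sm (hp : IsQuotientCoveringMap p G) (hχ : Pu M G p χ) (hα : Sl α) :
    SmY M p (lf χ α) := by
  have := loc hp.isCoveringMap.isLocalHomeomorph
  intro e he z hz t ht
  obtain ⟨K, k1, k2⟩ := exists_compact_mem_nhds (t z)
  obtain ⟨H, D, -, -, h⟩ := key hp hχ hα k1
  refine ((contDiffAt_const (c := α 1)).add (ContDiffAt.sum (s := H) fun η _ =>
    (hχ.sm e he z hz _ (ht.smul hp η)).mul (contDiffAt_const (c := α (1 * η⁻¹) - α 1))))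
    |>.congr_of_eventuallyEq ((ht.1.eventually k2).mono fun w hw => ?_)
  exact (congrArg _ (one_smul G _).symm).trans ((h _ hw).2 1).1

theorem l_wt (hg : M.IsK g) (hp : IsQuotientCoveringMap p G) (hχ : Pu M G p χ) (hα : Sl α)
    (ha : Summable fun γ => Real.exp (α γ)) : ∃ A C, Wt M g G p (lf χ α) A C := by
  have := loc hp.isCoveringMap.isLocalHomeomorph
  obtain ⟨K, k1, k2⟩ := exists_compact_superset hχ.cpt
  obtain ⟨H, D, d0, d1, h⟩ := key hp hχ hα k1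
  obtain ⟨C, c0, hC⟩ := lvb hg hp.isCoveringMap.isLocalHomeomorph hχ.sm hχ.cpt
  have cov : ∀ y, ∃ η : G, η • y ∈ interior K := fun y => by
    obtain ⟨_, _, -, -, h⟩ := key hp hχ hα (isCompact_singleton (x := y))
    obtain ⟨η, -, h⟩ := (h y rfl).1
    exact ⟨η, k2 h⟩
  refine ⟨(∑' γ, Real.exp (α γ)) * Real.exp D, H.card * (D * C), l_sm hp hχ hα,
    ⟨mul_nonneg (tsum_nonneg fun _ => (Real.exp_pos _).le) (Real.exp_pos _).le, by positivity⟩,
    fun y => ?_, fun e he z hz t ht v => ?_⟩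
  · obtain ⟨η, hη⟩ := cov y
    have s := ((Equiv.mulRight η⁻¹).hasSum_iff.2 ha.hasSum).mul_right (Real.exp D)
    have b : ∀ γ : G, Real.exp (lf χ α (γ • y)) ≤ Real.exp (α (γ * η⁻¹)) * Real.exp D := fun γ => by
      have := ((h _ (interior_subset hη)).2 (γ * η⁻¹)).2
      rw [mul_smul, inv_smul_smul] at this
      rw [← Real.exp_add]
      exact Real.exp_le_exp.2 (sub_le_iff_le_add'.1 (abs_le.1 this).2)
    have s1 := s.summable.of_nonneg_of_le (fun _ => (Real.exp_pos _).le) b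
    exact ⟨s1, hasSum_le b s1.hasSum s⟩
  · obtain ⟨η, hη⟩ := cov (t z)
    have t1 := ht.smul hp η
    rw [levi_congr (g := fun w => ((α η⁻¹ + ∑ ζ ∈ H, χ (ζ • η • t w) *
      (α (η⁻¹ * ζ⁻¹) - α η⁻¹) : ℝ) : ℂ)) ((t1.1.eventually (isOpen_interior.mem_nhds hη)).mono
        fun w hw => congrArg _ ((congrArg _ (inv_smul_smul η _).symm).trans
          ((h _ (interior_subset hw)).2 η⁻¹).1)),
      lv_sum H _ _ (fun ζ => hχ.sm e he z hz _ (t1.smul hp ζ))]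
    refine le_trans (le_of_eq ?_) (Finset.card_nsmul_le_sum H _
      (-(D * (C * nV (M.repF g e z) v))) fun ζ hζ => neg_le_of_abs_le ?_)
    · rw [nsmul_eq_mul]
      ring
    · rw [abs_mul]
      exact mul_le_mul (d1 ζ hζ _) (hC e he z hz _ (t1.smul hp ζ) v) (abs_nonneg _) d0

theorem s_bd (hr : 0 < r)
    (hs : ∀ γ : G, ∀ y ∈ tsupport χ, ‖s (γ • y)‖ ^ r ≤ Real.exp (α γ)) {D : ℝ} {η : G} {y : Y}
    (h1 : ∀ γ, |α (γ * η⁻¹) - α γ| ≤ D) (h2 : η • y ∈ tsupport χ) (γ : G) :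
    ‖s (γ • y)‖ ^ 2 ≤ Real.exp (2 / r * (α γ + D)) := by
  have a := hs (γ * η⁻¹) _ h2
  rw [mul_smul, inv_smul_smul] at a
  have b := Real.rpow_le_rpow (by positivity) (a.trans (Real.exp_le_exp.2
    (sub_le_iff_le_add'.1 (abs_le.1 (h1 γ)).2))) (z := 2 / r) (by positivity)
  rwa [← Real.rpow_mul (norm_nonneg _), mul_div_cancel₀ _ hr.ne', Real.rpow_two, ← Real.exp_mul,
    mul_comm] at b

theorem scale (hr : 0 < r) {x : ℝ} (hx : 0 ≤ x) (a : ℝ) :
    (x * Real.exp (2 / r * a)) ^ (r / 2) = Real.exp a * x ^ (r / 2) := by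
  rw [Real.mul_rpow hx (Real.exp_pos _).le, ← Real.exp_mul, mul_comm]
  congr 2
  field_simp

omit [DecidableEq ι] in
theorem f_lp (hp : IsQuotientCoveringMap p G) (hχ : Pu M G p χ) (hα : Sl α)
    (ha : Summable fun γ => Real.exp (α γ)) (hr : 0 < r) (hδ : 0 < δ)
    (hs : ∀ γ : G, ∀ y ∈ tsupport χ, ‖s (γ • y)‖ ^ r ≤ Real.exp (α γ)) (c : Continuous ρ)
    (n : ∀ x, 0 ≤ ρ x) : Lp G (Ff s (lf χ α) ρ p r δ) := by
  intro K hK
  obtain ⟨H, D, -, d1, h⟩ := key hp hχ hα hK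
  obtain ⟨R, hR⟩ := (isCompact_range c).bddAbove
  refine ⟨fun γ => Real.exp (α γ) * (Real.exp D * (1 + δ * R) ^ (r / 2)), ha.mul_right _,
    fun γ y hy => ?_⟩
  obtain ⟨⟨η, h1, h2⟩, h3⟩ := h y hy
  have a := s_bd hr hs (d1 η h1) h2 γ
  have b : Real.exp (2 / r * lf χ α (γ • y)) ≤ Real.exp (2 / r * (α γ + D)) :=
    Real.exp_le_exp.2 (mul_le_mul_of_nonneg_left (sub_le_iff_le_add'.1 (abs_le.1 (h3 γ).2).2)
      (by positivity))
  have r1 : ρ (p (γ • y)) ≤ R := hR ⟨_, rfl⟩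
  have r0 := n (p (γ • y))
  have r2 := r0.trans r1
  beta_reduce
  rw [← mul_assoc, ← Real.exp_add, ← scale hr (by positivity), Ff]
  refine Real.rpow_le_rpow (by positivity) ?_ (by positivity)
  rw [add_mul, one_mul, mul_right_comm δ R]
  gcongr

theorem f_sf (hg : M.IsK g) {N : ℕ} {σ : Fin N → X → ℂ} (hσ : Prj M g σ) {m k : ℕ}
    (hy : HY M g σ p m k s) (hp : IsQuotientCoveringMap p G) (hχ : Pu M G p χ) (hα : Sl α)
    (hr : 0 < r) (hδ : 0 < δ)
    (hs : ∀ γ : G, ∀ y ∈ tsupport χ, ‖s (γ • y)‖ ^ r ≤ Real.exp (α γ)) (n : ∀ x, 0 ≤ ρ x)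
    {e : Ch ι X} (he : e ∈ M.A) {z : V ι} (hz : z ∈ e.target) (h0 : 0 < ρ (e.symm z))
    (c : ContDiffAt ℝ ∞ (fun w => ρ (e.symm w)) z) {t : V ι → Y} (ht : Sec p e z t) :
    ∃ f : G → V ι → ℂ, Sf f z ∧ ∀ᶠ w in 𝓝 z, ∀ γ,
      (Ff s (lf χ α) ρ p r δ (γ • t w) : ℂ) = (Real.exp (α γ) : ℝ) * f γ w := by
  have := loc hp.isCoveringMap.isLocalHomeomorph
  obtain ⟨K, k1, k2⟩ := exists_compact_mem_nhds (t z)
  obtain ⟨H, D, -, d1, h⟩ := key hp hχ hα k1
  obtain ⟨W, S, w1, w2, w3⟩ := wt hg hσ hy hp he hz ht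
  have tK := ht.1.eventually k2
  have e2 : ∀ γ, ‖((Real.exp (-(1 / r * α γ)) : ℝ) : ℂ)‖ ^ 2 = Real.exp (-(2 / r * α γ)) :=
    fun γ => by
      rw [Complex.norm_real, Real.norm_of_nonneg (Real.exp_pos _).le, sq, ← Real.exp_add]
      congr 1
      ring
  have s1 : Sf (fun γ w => S γ w * (Real.exp (-(1 / r * α γ)) : ℝ)) z := by
    refine Sf.hol (Real.sqrt_nonneg ((W z + 1) * Real.exp (2 / r * D))) ?_
    filter_upwards [w3, tK, w1.continuousAt.eventually (gt_mem_nhds (lt_add_one _))] with w a b d γ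
    refine ⟨(a γ).1.differentiableAt.mul_const _, Real.le_sqrt_of_sq_le ?_⟩
    obtain ⟨η, h1, h2⟩ := (h _ b).1
    rw [norm_mul, mul_pow, e2, (a γ).2, mul_assoc, show 2 / r * D =
      2 / r * (α γ + D) + -(2 / r * α γ) by ring, Real.exp_add]
    gcongr
    exact s_bd hr hs (d1 η h1) h2 γ
  have s2 := ((Sr.sq s1).mul (Sr.one (w1.inv w2.ne'))).add ((((Sr.one (contDiffAt_const
    (c := 2 / r))).mul (Sr.lin H (fun η => hχ.sm e he z hz _ (ht.smul hp η)) d1)).exp).mul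
      (Sr.one ((contDiffAt_const (c := δ)).mul c)))
  let u : G → V ι → ℝ := fun γ w => (‖s (γ • t w)‖ ^ 2 + δ * Real.exp (2 / r * lf χ α (γ • t w)) *
    ρ (p (γ • t w))) * Real.exp (-(2 / r * α γ))
  have u0 : ∀ γ w, 0 ≤ u γ w := fun γ w => by
    have := n (p (γ • t w))
    positivity
  have s3 : Sr u z := by
    refine s2.congr ?_
    filter_upwards [w3, tK, ht.2, w1.continuousAt.eventually (lt_mem_nhds w2)] with w a b d d0 γ
    simp only [u]
    rw [norm_mul, mul_pow, e2, (a γ).2, ((h _ b).2 γ).1, hp.map_smul, d, mul_add (2 / r),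
      Real.exp_add, Real.exp_neg, Pi.inv_apply]
    field_simp
  refine ⟨_, Sf.rpow s3 (c := δ * Real.exp (-(2 / r * D)) * ρ (e.symm z)) (q := r / 2)
    (by positivity) (by positivity) (Eventually.of_forall fun w γ => u0 γ w) fun γ => ?_,
    Eventually.of_forall fun w γ => ?_⟩
  · have a : Real.exp (-(2 / r * D)) ≤
        Real.exp (2 / r * lf χ α (γ • t z)) * Real.exp (-(2 / r * α γ)) := by
      rw [← Real.exp_add, ← sub_eq_add_neg, ← mul_sub, ← mul_neg]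
      exact Real.exp_le_exp.2 (mul_le_mul_of_nonneg_left
        (abs_le.1 ((h _ (mem_of_mem_nhds k2)).2 γ).2).1 (by positivity))
    simp only [u]
    rw [hp.map_smul, ht.2.self_of_nhds, add_mul, mul_right_comm _ (ρ _),
      mul_assoc δ (Real.exp _) (Real.exp _)]
    refine le_add_of_nonneg_of_le (by positivity) ?_
    gcongr
  · rw [← Complex.ofReal_mul, ← scale hr (u0 γ w), Ff]
    simp only [u]
    rw [mul_assoc _ (Real.exp _) (Real.exp _), ← Real.exp_add, neg_add_cancel, Real.exp_zero,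
      mul_one]

end FamW

open FamW

theorem famR (hP : PuS) (hS : SlowS) : FamR := by
  intro ι X Y G _ _ _ _ _ _ _ _ _ M g β N σ p m k r s ρ hg hσ hp hr hy hL hρ
  have hl := hp.isCoveringMap.isLocalHomeomorph
  obtain ⟨χ, hχ⟩ := hP ι X Y G M p hp
  obtain ⟨b, b1, b2⟩ := hL _ hχ.cpt
  obtain ⟨a, a1, a2, hα⟩ := hS G b (MP_bbd4b9_ag.NH.fg_deck hp) b1
  have ha : Summable fun γ => Real.exp (Real.log (a γ)) :=
    a1.congr fun γ => (Real.exp_log (a2 γ).1).symm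
  have hs : ∀ γ : G, ∀ y ∈ tsupport χ, ‖s (γ • y)‖ ^ r ≤ Real.exp (Real.log (a γ)) := fun γ y h =>
    ((b2 γ y h).trans (a2 γ).2).trans_eq (Real.exp_log (a2 γ).1).symm
  obtain ⟨A, C, hW⟩ := l_wt (α := fun γ => Real.log (a γ)) hg hp hχ hα ha
  refine ⟨_, A, C, hW, fun δ hδ => ?_⟩
  have lp := f_lp (α := fun γ => Real.log (a γ)) hp hχ hα ha hr hδ hs hρ.cont hρ.nn
  obtain ⟨N', n1, n2⟩ := sumN hp (F := Ff s (lf χ fun γ => Real.log (a γ)) ρ p r δ) (((cont hl (sq_sm hg hσ hy hp)).add ((continuous_const.mul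
    (continuous_const.mul (cont hl hW.sm)).rexp).mul (hρ.cont.comp hp.continuous))).rpow_const
      fun _ => Or.inr (half_pos hr).le) (fun y => Real.rpow_nonneg (by
        have := hρ.nn (p y)
        positivity) _) lp
  have main := fun e (he : e ∈ M.A) z (hz : z ∈ e.target) (h0 : 0 < ρ (e.symm z)) t
      (ht : Sec p e z t) => (f_sf (α := fun γ => Real.log (a γ)) hg hσ hy hp hχ hα hr hδ hs hρ.nn
    he hz h0 (contDiffAt_ofReal.1 (hρ.sm e he z hz h0)) ht).choose_spec.elim fun h1 h2 =>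
      h1.sum ha (N := fun w => N' (e.symm w)) h2 (ht.2.mono fun w hw => hw ▸ n1 (t w))
  refine ⟨N', n1, lp, n2, fun e he z hz h0 => ?_, fun e he z hz h0 t ht => ?_,
    fun e he z hz h0 t ht => (main e he z hz h0 t ht).2.2.1,
    fun e he z hz h0 t ht => (main e he z hz h0 t ht).2.2.2⟩
  · obtain ⟨y, h⟩ := hp.surjective (e.symm z)
    have := (sh_self hl (e := e) (y := y) (h ▸ e.map_target hz)).1
    rw [h, e.right_inv hz] at this
    exact (main e he z hz h0 _ this).1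
  · simpa only [one_smul] using (main e he z hz h0 t ht).2.1 1

end Pool.Agent.Lib.MP_813db1_ag.SV
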