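import Pool.Agent.Lib.MP_813db1_ag.SV.StA
import Pool.Agent.Lib.MP_813db1_ag.AN.Grn

/-! The formula of Green for twisted sections. -/

namespace Pool.Agent.Lib.MP_813db1_ag.SV

open Pool.Agent.Lib.MP_813db1_ag.HS Pool.Agent.Lib.MP_813db1_ag.AS Pool.Agent.Lib.MP_813db1_ag.AN
open MeasureTheory Complex Matrix Filter Topology Set Metric
open scoped ContDiff ComplexOrder

variable {ι Y : Type} [Fintype ι] [DecidableEq ι] [TopologicalSpace Y] [MeasurableSpace Y]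
  {M : Atl ι Y} {g : Y → Mat ι} {ν : Measure Y} {S : Sg M g ν} {ξ : Y → Mat ι} {T : Bun S ξ}

namespace Gr3

open Pool.Agent.Lib.MP_813db1_ag.AN.Grn (mem5 cont_ew)

theorem mem4 {k : S.κ} {y : Y} (hy : y ∈ (S.c k).source) : S.c k y ∈ ball (0 : V ι) 4 :=
  S.tgt k ▸ (S.c k).map_source hy

theorem src (S : Sg M g ν) (y : Y) : y ∈ (S.c (S.ch y)).source := S.ch_eq y ▸ M.mem y

theorem ew_eq (T : Bun S ξ) (ψ : Y → ℝ) {k : S.κ} {y : Y} (hy : y ∈ (S.c k).source) :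
    Flat.ew (T.Φ ψ k) (S.c k y) =
      (Real.exp (-T.ρ (S.ty k) (S.c k y)) : ℝ) * (Real.exp (-ψ y) : ℝ) := by
  rw [Flat.ew, Bun.Φ, (S.c k).left_inv hy, neg_add, Real.exp_add, ofReal_mul]

/-- the weights of two sheets. -/
theorem wt_tr (hB : T.BasB) (ψ : Y → ℝ) {k l : S.κ} {y : Y} (hk : y ∈ (S.c k).source)
    (hl : y ∈ (S.c l).source) :
    Flat.ew (T.Φ ψ k) (S.c k y) *
      star (T.U k y / T.U l y) *
      (T.U k y / T.U l y) =
      ((‖(tj (S.c k) (S.c l) y).det‖ ^ 2 : ℝ) : ℂ) * Flat.ew (T.Φ ψ l) (S.c l y) := by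
  have h := hB.wt k l y hk hl
  rw [ew_eq T ψ hk, ew_eq T ψ hl, mul_assoc, RCLike.star_def, ← normSq_eq_conj_mul_self,
    normSq_eq_norm_sq, ← mul_assoc (((_ : ℝ) : ℂ)), ← ofReal_mul (_ ^ 2), ← h, ofReal_mul]
  ring

theorem cd_U {σ : Y → ℂ} (hσ : S.Sm T.U σ) (k : S.κ) {z : V ι}
    (hz : z ∈ ball (0 : V ι) 4) (i : ι) :
    ContDiffAt ℝ 2 (fun w => shp (S.H (S.ty k)) (S.rep T.U σ k) w i) z :=
  Green.cd_shp ((S.kon _).1.1.cd2 (mem5 hz)) (Green.det_ne ((S.kon _).2 z (mem5 hz)))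
    (hσ k z hz) (by norm_cast) i

variable [T2Space Y] [BorelSpace Y]

/-- integrability of the products of sections, one of them with compact support. -/
theorem int0 (hA : S.BasA) (hB : T.BasB) {ψ : Y → ℝ} {σ τ : Y → ℂ} (hψ : M.Ck ∞ ψ)
    (hσ : S.Sm T.U σ) (hτ : S.Dc T.U τ) :
    Integrable (fun y => σ y * star (τ y) * (Real.exp (-ψ y) : ℝ)) ν := by
  have := hA.fin
  refine ((hB.cont σ τ hσ hτ.1).mul
    (continuous_ofReal.comp (cont_ew hψ))).integrable_of_hasCompactSupport ?_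
  refine HasCompactSupport.intro hτ.2 fun y hy => ?_
  simp [image_eq_zero_of_notMem_tsupport hy]

/-- the formula of Green, complex form. -/
theorem grnC (hA : S.BasA) (hB : T.BasB) (hC : T.BasC) (hV : S.Dv) {ψ : Y → ℝ}
    {σ τ : Y → ℂ} (hψ : M.Ck ∞ ψ) (hσ : S.Dc T.U σ) (hτ : S.Dc T.U τ) :
    Integrable (fun y => S.ip1 T.U g σ τ y * (Real.exp (-ψ y) : ℝ)) ν ∧
    ∫ y, T.box ψ σ y * star (τ y) * (Real.exp (-ψ y) : ℝ) ∂ν =
      -∫ y, S.ip1 T.U g σ τ y * (Real.exp (-ψ y) : ℝ) ∂ν := by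
  have := hA.fin
  have hb := hC.dc ψ σ hψ hσ
  obtain ⟨c, z0, i0⟩ := hV (fun k => Flat.vA (T.Φ ψ k) (shp (S.H (S.ty k)) (S.rep T.U σ k))
      (S.rep T.U τ k))
    (fun y => T.box ψ σ y * star (τ y) * (Real.exp (-ψ y) : ℝ) +
      S.ip1 T.U g σ τ y * (Real.exp (-ψ y) : ℝ)) (tsupport τ) hτ.2
    (fun k z hz => contDiffAt_pi.2 fun j => Flat.cd_vA
      ((hC.levi ψ hψ k z hz).1.of_le (by norm_cast))
      (fun i => (cd_U hσ.1 k hz i).of_le (by norm_cast))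
      ((hτ.1 k z hz).of_le (by norm_cast)) j)
    (fun k l y hk hl => by
      rw [Flat.vA, Flat.vA, mulVec_smul, hC.shp σ hσ.1 k l y hk hl, hB.tr τ k l y hk hl,
        smul_smul, smul_smul, star_mul', ← mul_assoc (((_ : ℝ) : ℂ)), ← wt_tr hB ψ hk hl]
      congr 1; ring)
    (fun k y hk hy => by
      rw [Flat.vA, (hB.zero τ k y hk).2 (image_eq_zero_of_notMem_tsupport hy)]; simp)
    (fun y => by
      have hy := src S y
      have hz := mem4 hy
      have hP := (S.kon (S.ty (S.ch y))).2 _ (mem5 hz)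
      have e1 := Flat.dv_vA (Φ := T.Φ ψ (S.ch y)) (U := shp (S.H (S.ty (S.ch y))) (S.rep T.U σ _))
        (T := S.rep T.U τ (S.ch y)) ((hC.levi ψ hψ _ _ hz).1.differentiableAt (by simp))
        (fun i => (cd_U hσ.1 _ hz i).differentiableAt two_ne_zero)
        ((hτ.1 _ _ hz).differentiableAt (by simp))
      have e2 := hB.ip (T.box ψ σ) τ _ y hy
      have e3 := hC.ip1 g σ τ hσ.1 hτ.1 _ y hy
      rw [hC.box ψ σ hψ hσ.1 _ _ hz] at e2
      rw [S.rep_g _ _ hz, Green.ipV_shp hP.1 (Green.det_ne hP)] at e3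
      refine e1.trans ?_
      rw [(hA.det y).2.2, mul_add, mul_add, ← mul_assoc _ (_ * star (τ y)), e2,
        ← mul_assoc _ (S.ip1 _ _ _ _ _), e3, ← mul_assoc, ew_eq T ψ hy]
      show _ * Flat.del _ _ _ * _ + _ = Flat.del _ _ _ * _ * _ * _ + _
      ring)
  have h0 := int0 hA hB hψ hb.1 hτ
  have h1 := c.integrable_of_hasCompactSupport (μ := ν) (HasCompactSupport.intro hτ.2 z0)
  have h2 : Integrable (fun y => S.ip1 T.U g σ τ y * (Real.exp (-ψ y) : ℝ)) ν :=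
    (h1.sub h0).congr (Eventually.of_forall fun y => by simp)
  rw [integral_add h0 h2] at i0
  exact ⟨h2, eq_neg_of_add_eq_zero_left i0⟩

end Gr3

/-- the formula of Green. -/
theorem grn [T2Space Y] [BorelSpace Y] (hA : S.BasA) (hB : T.BasB) (hC : T.BasC) (hV : S.Dv) :
    T.Grn := by
  intro ψ σ τ hψ hσ hτ
  obtain ⟨h1, h2⟩ := Gr3.grnC hA hB hC hV hψ hσ hτ
  have h0 := Gr3.int0 hA hB hψ (hC.dc ψ σ hψ hσ).1 hτ
  have h3 := congrArg re h2
  rw [neg_re, ← RCLike.re_to_complex, ← RCLike.re_to_complex, ← integral_re h0,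
    ← integral_re h1] at h3
  simpa only [RCLike.re_to_complex, re_mul_ofReal, q0, Sg.p1] using h3

end Pool.Agent.Lib.MP_813db1_ag.SV
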