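import Pool.Agent.Lib.MP_813db1_ag.SV.StA
import Pool.Agent.Lib.MP_813db1_ag.AN.Hor

/-! The estimate of Hoermander for sections of a line bundle. -/

namespace Pool.Agent.Lib.MP_813db1_ag.SV

open Pool.Agent.Lib.MP_813db1_ag.HS Pool.Agent.Lib.MP_813db1_ag.AS Pool.Agent.Lib.MP_813db1_ag.AN
open Pool.Agent.Lib.MP_bbd4b9_ag.BR (FinT)
open MeasureTheory Complex Matrix Filter Topology Set Metric
open scoped ContDiff ComplexOrder ENNReal

variable {ι Y : Type} [Fintype ι] [DecidableEq ι] [TopologicalSpace Y] [MeasurableSpace Y]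
  {M : Atl ι Y} {g : Y → Mat ι} {ν : Measure Y} {S : Sg M g ν} {ξ : Y → Mat ι} {T : Bun S ξ}

namespace HorS

open Hor (dzb_shp cont e_add e_sub e_smul)

/-- the space of smooth sections with compact support. -/
def DS (hB : T.BasB) : Submodule ℝ (Y → ℂ) where
  carrier := {σ | S.Dc T.U σ}
  add_mem' := fun {a b} ha hb => by rw [e_add]; exact hB.dc_lin 1 1 a b ha hb
  zero_mem' := hB.dc_sum Unit ∅ (fun _ => 0) (by simp)
  smul_mem' := fun c a ha => by rw [e_smul]; exact hB.dc_lin c 0 a a ha ha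

theorem sym (k : S.κ) {z : V ι} (hz : z ∈ ball (0 : V ι) 4) :
    (S.c k).symm z ∈ (S.c k).source ∧ S.c k ((S.c k).symm z) = z := by
  rw [← S.tgt k] at hz
  exact ⟨(S.c k).map_target hz, (S.c k).right_inv hz⟩

theorem mp (k : S.κ) {y : Y} (hy : y ∈ (S.c k).source) : S.c k y ∈ ball (0 : V ι) 4 := by
  rw [← S.tgt k]
  exact (S.c k).map_source hy

theorem chm (S : Sg M g ν) (y : Y) : y ∈ (S.c (S.ch y)).source := by
  rw [← S.ch_eq]
  exact M.mem y

theorem slf (a : ℂ) : (a * star a).re = ‖a‖ ^ 2 := by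
  simp only [RCLike.star_def, mul_conj', ← ofReal_pow, ofReal_re]

theorem ae_tr (hA : S.BasA) (k : S.κ) {P : V ι → Prop} (h : ∀ᵐ z, z ∈ ball (0 : V ι) 4 → P z) :
    ∀ᵐ y ∂ν, y ∈ (S.c k).source → P (S.c k y) := by
  obtain ⟨N, hN, hm, h0⟩ := exists_measurable_superset_of_null (ae_iff.1 h)
  have e := hA.lint k (N ∩ ball 0 4) (hm.inter measurableSet_ball) inter_subset_right fun _ => 1
  rw [setLIntegral_one, setLIntegral_measure_zero _ _ (measure_mono_null inter_subset_left h0)] at e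
  refine measure_mono_null (fun y hy => ?_) e
  obtain ⟨h1, h2⟩ := Classical.not_imp.1 hy
  exact ⟨h1, hN fun h3 => h2 (h3 (mp k h1)), mp k h1⟩

theorem loc (hA : S.BasA) {F : Y → ℝ} (hF : Continuous F) (hi : Integrable F ν) (h0 : ∀ y, 0 ≤ F y)
    (k : S.κ) {K : Set (V ι)} (hK : K ⊆ ball 0 4) (hk : IsCompact K) {q : V ι → ℝ}
    (hq : ∀ z, 0 ≤ q z) {C : ℝ} (hC : 0 ≤ C)
    (h : ∀ z ∈ K, q z ≤ C * ((S.H (S.ty k) z).det.re * F ((S.c k).symm z))) :
    ∫ z in K, q z ≤ C * ∫ y, F y ∂ν := by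
  have h1 : ContinuousOn (S.H (S.ty k)) K :=
    continuousOn_pi.2 fun i => continuousOn_pi.2 fun j z hz => ((S.kon _).1.1 z
      (ball_subset_ball (by norm_num) (hK hz)) i j).continuousAt.continuousWithinAt
  have h2 : ContinuousOn (fun z => (S.H (S.ty k) z).det.re * F ((S.c k).symm z)) K :=
    (continuous_re.comp_continuousOn (continuous_id.matrix_det.comp_continuousOn h1)).mul
      (hF.comp_continuousOn ((S.c k).continuousOn_symm.mono (by rw [S.tgt]; exact hK)))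
  calc _ ≤ ∫ z in K, C * ((S.H (S.ty k) z).det.re * F ((S.c k).symm z)) :=
        integral_mono_of_nonneg (ae_of_all _ hq) ((h2.integrableOn_compact hk).const_mul C)
          ((ae_restrict_mem hk.measurableSet).mono h)
    _ = C * ∫ y in (S.c k).source ∩ S.c k ⁻¹' K, F y ∂ν := by
        rw [integral_const_mul, hA.intR k K hk.measurableSet hK]
    _ ≤ _ := mul_le_mul_of_nonneg_left (setIntegral_le_integral hi (ae_of_all _ h0)) hC

variable [T2Space Y] [BorelSpace Y] {ψ : Y → ℝ} {σ τ : Y → ℂ}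

omit [T2Space Y] [BorelSpace Y] in
theorem c0 (hB : T.BasB) (hψ : M.Ck ∞ ψ) (hσ : S.Dc T.U σ) (hτ : S.Dc T.U τ) :
    Continuous fun y => (σ y * star (τ y)).re * Real.exp (-ψ y) :=
  (continuous_re.comp (hB.cont σ τ hσ.1 hτ.1)).mul (Real.continuous_exp.comp (cont hψ).neg)

omit [T2Space Y] [BorelSpace Y] in
theorem c1 (hC : T.BasC) (hψ : M.Ck ∞ ψ) (hσ : S.Dc T.U σ) (hτ : S.Dc T.U τ) :
    Continuous fun y => (S.ip1 T.U g σ τ y).re * Real.exp (-ψ y) :=
  (continuous_re.comp (hC.cont g σ τ (fun e he => (S.kg e he).1.1) hσ.1 hτ.1)).mul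
    (Real.continuous_exp.comp (cont hψ).neg)

theorem int0 (hA : S.BasA) (hB : T.BasB) (hψ : M.Ck ∞ ψ) (hσ : S.Dc T.U σ) (hτ : S.Dc T.U τ) :
    Integrable (fun y => (σ y * star (τ y)).re * Real.exp (-ψ y)) ν := by
  have := hA.fin
  refine (c0 hB hψ hσ hτ).integrable_of_hasCompactSupport
    (HasCompactSupport.intro hσ.2 fun y hy => ?_)
  simp [image_eq_zero_of_notMem_tsupport hy]

theorem int1 (hA : S.BasA) (hC : T.BasC) (hψ : M.Ck ∞ ψ) (hσ : S.Dc T.U σ) (hτ : S.Dc T.U τ) :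
    Integrable (fun y => (S.ip1 T.U g σ τ y).re * Real.exp (-ψ y)) ν := by
  have := hA.fin
  refine (c1 hC hψ hσ hτ).integrable_of_hasCompactSupport
    (HasCompactSupport.intro hσ.2 fun y hy => ?_)
  simp [Sg.ip1, (hC.off ψ σ y (notMem_tsupport_iff_eventuallyEq.1 hy)).2, ipV]

theorem form0 (hA : S.BasA) (hB : T.BasB) (hψ : M.Ck ∞ ψ) : IsForm (DS hB) (q0 ν ψ) where
  add x hx y hy z hz := by
    rw [q0, q0, q0, ← integral_add (int0 hA hB hψ hx hz) (int0 hA hB hψ hy hz)]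
    refine integral_congr_ae (ae_of_all _ fun w => ?_)
    simp only [Pi.add_apply, add_mul, add_re]
  smul a x hx z hz := by
    rw [q0, q0, ← integral_const_mul]
    refine integral_congr_ae (ae_of_all _ fun w => ?_)
    simp only [Pi.smul_apply, real_smul, mul_assoc, re_ofReal_mul]
  symm x hx y hy := by
    refine integral_congr_ae (ae_of_all _ fun w => ?_)
    simp only [mul_re, star_def, conj_re, conj_im]
    ring
  nonneg x hx := by
    rw [q0_self]
    exact integral_nonneg fun w => mul_nonneg (sq_nonneg _) (Real.exp_pos _).le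

theorem form1 (hA : S.BasA) (hB : T.BasB) (hC : T.BasC) (hψ : M.Ck ∞ ψ) :
    IsForm (DS hB) (S.p1 T.U ψ) where
  add x hx y hy z hz := by
    rw [Sg.p1, Sg.p1, Sg.p1, ← integral_add (int1 hA hC hψ hx hz) (int1 hA hC hψ hy hz)]
    refine integral_congr_ae (ae_of_all _ fun w => ?_)
    simp only [Sg.ip1, e_add x y, (hC.lin ψ 1 1 x y w hx.1 hy.1).2, one_smul, Sec.ipV_add,
      add_mul, add_re]
  smul a x hx z hz := by
    rw [Sg.p1, Sg.p1, ← integral_const_mul]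
    refine integral_congr_ae (ae_of_all _ fun w => ?_)
    simp only [Sg.ip1, e_smul a x, (hC.lin ψ a 0 x x w hx.1 hx.1).2, zero_smul, add_zero,
      Sec.ipV_smul, mul_assoc, re_ofReal_mul]
  symm x hx y hy := by
    refine integral_congr_ae (ae_of_all _ fun w => ?_)
    simp only [Sg.ip1]
    rw [← Sec.ipV_st (hA.det w).1.isHermitian, star_def, conj_re]
  nonneg x hx := integral_nonneg fun w =>
    mul_nonneg (hC.nn g x w (hA.det w).1.posSemidef) (Real.exp_pos _).le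

theorem habs (hA : S.BasA) (hB : T.BasB) (hC : T.BasC) (hG : T.Grn) (hD : T.Den)
    {c : ℝ} (hc : 0 < c) (hψ : M.Ck ∞ ψ) (hs : FinT S.toSt ψ) (hp : T.Gap ψ c) :
    HAbs (DS hB) (q0 ν ψ) (S.p1 T.U ψ) (T.box ψ) c where
  f0 := form0 hA hB hψ
  f1 := form1 hA hB hC hψ
  mem x hx := hC.dc ψ x hψ hx
  add x hx y hy := by
    funext w
    rw [e_add x y, (hC.lin ψ 1 1 x y w hx.1 hy.1).1]
    simp
  smul a x hx := by
    funext w
    rw [e_smul a x, (hC.lin ψ a 0 x x w hx.1 hx.1).1]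
    simp
  green x hx y hy := hG ψ x y hψ hx hy
  bk x hx := hp x hx
  cpos := hc
  par := by
    obtain ⟨lam, hl, h⟩ := hD ψ hψ hs
    refine ⟨lam, hl, fun f hf => ?_⟩
    obtain ⟨w, hw, h2⟩ := h f hf
    refine ⟨w, hw, ?_⟩
    have e : lam • w - T.box ψ w - f = fun y => lam * w y - T.box ψ w y - f y := by
      funext y; simp
    rw [e]
    linarith

omit [T2Space Y] [BorelSpace Y] in
theorem wbd (hC : T.BasC) (hψ : M.Ck ∞ ψ) (k : S.κ) {K : Set (V ι)} (hK : K ⊆ ball 0 4)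
    (hk : IsCompact K) : ∃ A ≥ (0 : ℝ), ∀ z ∈ K,
      1 ≤ A * (Real.exp (-T.ρ (S.ty k) z) * Real.exp (-ψ ((S.c k).symm z))) := by
  obtain ⟨A, hA⟩ := hk.exists_bound_of_continuousOn (f := T.Φ ψ k) fun z hz =>
    (hC.levi ψ hψ k z (hK hz)).1.continuousAt.continuousWithinAt
  refine ⟨Real.exp A, (Real.exp_pos _).le, fun z hz => ?_⟩
  rw [← Real.exp_add, ← Real.exp_add]
  have := (abs_le.1 (hA z hz)).2
  rw [Bun.Φ] at this
  exact Real.one_le_exp (by linarith)

theorem loc0 (hA : S.BasA) (hB : T.BasB) (hC : T.BasC) (hψ : M.Ck ∞ ψ) (k : S.κ)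
    {K : Set (V ι)} (hK : K ⊆ ball 0 4) (hk : IsCompact K) : ∃ A ≥ (0 : ℝ), ∀ σ, S.Dc T.U σ →
      ∫ z in K, ‖S.rep T.U σ k z‖ ^ 2 ≤ A * q0 ν ψ σ σ := by
  obtain ⟨A, h0, h⟩ := wbd hC hψ k hK hk
  refine ⟨A, h0, fun σ hσ => loc hA (c0 hB hψ hσ hσ) (int0 hA hB hψ hσ hσ) (fun y => ?_) k hK hk
    (fun z => sq_nonneg _) h0 fun z hz => ?_⟩
  · rw [slf]
    exact mul_nonneg (sq_nonneg _) (Real.exp_pos _).le
  · have e := hB.dn σ k _ (sym k (hK hz)).1
    rw [(sym k (hK hz)).2] at e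
    rw [slf, ← mul_assoc (S.H _ z).det.re, e, mul_assoc, mul_left_comm]
    exact le_mul_of_one_le_right (sq_nonneg _) (h z hz)

theorem loc1 (hA : S.BasA) (hC : T.BasC) (hψ : M.Ck ∞ ψ) (k : S.κ)
    {K : Set (V ι)} (hK : K ⊆ ball 0 4) (hk : IsCompact K) : ∃ A ≥ (0 : ℝ), ∀ σ, S.Dc T.U σ → ∀ j,
      ∫ z in K, ‖dzb (S.rep T.U σ k) j z‖ ^ 2 ≤ A * S.p1 T.U ψ σ σ := by
  obtain ⟨A, h0, h⟩ := wbd hC hψ k hK hk
  obtain ⟨r, hr, hKr⟩ := exists_lt_subset_ball hk.isClosed hK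
  obtain ⟨L, hL, hb⟩ := hA.bd r hr
  obtain ⟨c, hc, hn⟩ := mat.nv ι L
  have hA0 : 0 ≤ (Fintype.card ι * L) ^ 2 / c * A := by positivity
  refine ⟨_, hA0, fun σ hσ j => loc hA (c1 hC hψ hσ hσ) (int1 hA hC hψ hσ hσ) (fun y =>
    mul_nonneg (hC.nn g σ y (hA.det y).1.posSemidef) (Real.exp_pos _).le) k hK hk
    (fun z => sq_nonneg _) hA0 fun z hz => ?_⟩
  have e := congrArg re (hC.ip1 g σ σ hσ.1 hσ.1 k _ (sym k (hK hz)).1)
  rw [(sym k (hK hz)).2, S.rep_g k z (hK hz), re_ofReal_mul, re_mul_ofReal] at e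
  have hpd := (S.kon (S.ty k)).2 z (ball_subset_ball (by norm_num) (hK hz))
  obtain ⟨b1, b2, -⟩ := hb (S.ty k) z (mem_ball_zero_iff.1 (hKr hz)).le
  set U := shp (S.H (S.ty k)) (S.rep T.U σ k) z with hU
  have a1 : c * ‖U‖ ^ 2 ≤ (ipV (S.H (S.ty k) z) U U).re := (hn _ hpd b1 b2 U).1
  have a2 : ‖dzb (S.rep T.U σ k) j z‖ ≤ Fintype.card ι * L * ‖U‖ := by
    rw [← dzb_shp hpd.det_pos.ne']
    refine (norm_sum_le_of_le _ (n := fun _ => L * ‖U‖) fun i _ => ?_).trans (by simp [mul_assoc])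
    rw [norm_mul, mul_comm]
    exact mul_le_mul (b1 i j) (norm_le_pi_norm U i) (norm_nonneg _) (by linarith)
  have a3 : ‖dzb (S.rep T.U σ k) j z‖ ^ 2 ≤
      (Fintype.card ι * L) ^ 2 / c * (ipV (S.H (S.ty k) z) U U).re := by
    refine (pow_le_pow_left₀ (norm_nonneg _) a2 2).trans ?_
    rw [mul_pow, div_mul_eq_mul_div, mul_div_assoc]
    exact mul_le_mul_of_nonneg_left ((le_div_iff₀' hc).2 a1) (sq_nonneg _)
  rw [← mul_assoc (S.H _ z).det.re, e, mul_assoc, mul_assoc, mul_left_comm A, ← mul_assoc]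
  refine a3.trans (le_mul_of_one_le_right ((sq_nonneg _).trans a3) (h z hz))

end HorS

open HorS in
open Hor (dzb_shp cont e_add e_sub e_smul) in
/-- the estimate of Hoermander. -/
theorem hor [T2Space Y] [BorelSpace Y] (hA : S.BasA) (hB : T.BasB) (hC : T.BasC) (hG : T.Grn)
    (hD : T.Den) : T.Hor := by
  intro c A ψ u hc hψ hs hb hp hu ε hε
  have H := habs hA hB hC hG hD hc hψ hs hp
  obtain ⟨v, hv, a0, a1, a2⟩ := H.seq2 hu (ε := √(ε / 2)) (by positivity)
  have key : ∀ k, ∃ h : V ι → ℂ, AnalyticOnNhd ℂ h (ball 0 4) ∧ ∀ᵐ z, z ∈ ball (0 : V ι) 4 →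
      Tendsto (fun m => S.rep T.U (v m) k z) atTop (𝓝 (h z)) := fun k => by
    refine limS isOpen_ball (fun m => (hv m).1 k) (fun K hK' hk => ?_) fun K hK' hk j => ?_
    · obtain ⟨A, h0, h⟩ := loc0 hA hB hC hψ k hK' hk
      refine ⟨A * √(ε / 2) ^ 2, fun m => ?_⟩
      have := (h _ ((DS hB).sub_mem (hv m) (hv (m + 1)))).trans
        (mul_le_mul_of_nonneg_left (a2 m) h0)
      rw [e_sub, ← mul_div_assoc] at this
      simp only [hB.lin] at this
      simpa only [one_mul, neg_mul, ← sub_eq_add_neg] using this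
    · obtain ⟨A, h0, h⟩ := loc1 hA hC hψ k hK' hk
      refine squeeze_zero (fun m => integral_nonneg fun z => sq_nonneg _)
        (fun m => (h _ (hv m) j).trans (mul_le_mul_of_nonneg_left (a1 m) h0)) ?_
      simpa using ((tendsto_pow_atTop_atTop_of_one_lt (r := (4 : ℝ)) (by norm_num)).const_div_atTop
        (√(ε / 2) ^ 2)).const_mul A
  choose h han hae using key
  have := S.cnt
  have := hA.pos
  have hY : ∀ᵐ y ∂ν, ∀ k, y ∈ (S.c k).source →
      Tendsto (fun m => S.rep T.U (v m) k (S.c k y)) atTop (𝓝 (h k (S.c k y))) :=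
    ae_all_iff.2 fun k => ae_tr hA k (hae k)
  have hcont : ∀ k, ContinuousOn (fun y => h k (S.c k y)) (S.c k).source := fun k =>
    (han k).continuousOn.comp (S.c k).continuousOn fun y hy => mp k hy
  obtain ⟨σ, hσ⟩ := hB.glue h fun k l y hk hl => by
    have ho : IsOpen ((S.c k).source ∩ (S.c l).source) :=
      (S.c k).open_source.inter (S.c l).open_source
    refine Measure.eqOn_open_of_ae_eq (μ := ν) (f := fun y => h k (S.c k y))
      (g := fun y => T.U k y / T.U l y * h l (S.c l y)) ?_ ho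
      ((hcont k).mono inter_subset_left) ?_ ⟨hk, hl⟩
    · rw [EventuallyEq, ae_restrict_iff' ho.measurableSet]
      filter_upwards [hY] with x hx hx'
      refine tendsto_nhds_unique (hx k hx'.1) ?_
      simp only [hB.tr _ k l x hx'.1 hx'.2]
      exact (hx l hx'.2).const_mul _
    · refine ContinuousOn.mul (fun x hx => ?_) ((hcont l).mono inter_subset_right)
      refine (((T.hol k l x hx.1 hx.2).continuousAt.comp
        ((S.c k).continuousAt hx.1)).continuousWithinAt).congr (fun w hw => ?_) ?_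
      · simp only [Function.comp, (S.c k).left_inv hw.1]
      · simp only [Function.comp, (S.c k).left_inv hx.1]
  have hH : S.Hol T.U σ := fun k => (han k).differentiableOn.congr (hσ k)
  have hlim : ∀ᵐ y ∂ν, Tendsto (fun m => v m y) atTop (𝓝 (σ y)) := by
    filter_upwards [hY] with y hy
    have b := hy _ (chm S y)
    rw [← hσ _ _ (mp _ (chm S y))] at b
    simp only [hB.pt _ _ y (chm S y)] at b
    simpa [← mul_assoc, hB.ne _ y (chm S y)] using b.const_mul (T.U (S.ch y) y)⁻¹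
  obtain ⟨i1, i2⟩ := fatou (μ := ν)
    (g := fun m y => ‖u y - v m y‖ ^ 2 * Real.exp (-ψ y))
    (G := fun y => ‖u y - σ y‖ ^ 2 * Real.exp (-ψ y))
    (B := 2 * (S.p1 T.U ψ u u / c) + ε)
    (fun m => by
      have hd := (DS hB).sub_mem hu (hv m)
      have hi := int0 hA hB hψ hd hd
      simp only [slf] at hi
      exact hi)
    (fun m y => mul_nonneg (sq_nonneg _) (Real.exp_pos _).le)
    (hlim.mono fun y hy => ((hy.const_sub (u y)).norm.pow 2).mul_const _)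
    fun m => by
      have b := a0 m
      rw [q0_self] at b
      have b1 := Real.sq_sqrt (div_nonneg (H.f1.nonneg u hu) hc.le)
      have b2 := Real.sq_sqrt (half_pos hε).le
      refine le_trans b ?_
      nlinarith [sq_nonneg (√(S.p1 T.U ψ u u / c) - √(ε / 2))]
  refine ⟨σ, ⟨hH, ?_⟩, i1, i2⟩
  have i3 := int0 hA hB hψ hu hu
  simp only [slf] at i3
  refine Integrable.mono' ((i3.add i1).const_mul (2 * Real.exp A))
    (hB.ck σ (hB.hol_an σ hH).1).2.aestronglyMeasurable (ae_of_all _ fun y => ?_)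
  rw [Real.norm_of_nonneg (sq_nonneg _)]
  have d1 : ‖σ y‖ ^ 2 ≤ 2 * (‖u y‖ ^ 2 + ‖u y - σ y‖ ^ 2) := by
    have := norm_sub_le (u y) (u y - σ y)
    rw [sub_sub_cancel] at this
    nlinarith [norm_nonneg (σ y), sq_nonneg (‖u y‖ - ‖u y - σ y‖)]
  have d2 : 1 ≤ Real.exp A * Real.exp (-ψ y) := by
    rw [← Real.exp_add]
    exact Real.one_le_exp (by linarith [hb y])
  have d3 := add_nonneg (sq_nonneg ‖u y‖) (sq_nonneg ‖u y - σ y‖)
  simp only [Pi.add_apply]
  nlinarith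

theorem horP (hH : T.Hor) (gap : ∀ (ψ : Y → ℝ) (c : ℝ),
    (∀ y, (ξ y + M.ddc ψ y - (c : ℂ) • g y).PosSemidef) → M.Ck ∞ ψ → T.Gap ψ c) : T.HorP :=
  fun c A ψ u hc hψ hs hb hp => hH c A ψ u hc hψ hs hb (gap ψ c hp hψ)

end Pool.Agent.Lib.MP_813db1_ag.SV
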