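import Pool.Agent.Lib.MP_813db1_ag.SV.StA
import Pool.Agent.Lib.MP_813db1_ag.AN.BasD

/-! The mean value inequality for sections of a line bundle. -/

namespace Pool.Agent.Lib.MP_813db1_ag.SV

open Pool.Agent.Lib.MP_813db1_ag.HS Pool.Agent.Lib.MP_813db1_ag.AS Pool.Agent.Lib.MP_813db1_ag.AN
open MeasureTheory Complex Matrix Filter Topology Set Metric
open scoped ContDiff ComplexOrder ENNReal

variable {ι Y : Type} [Fintype ι] [DecidableEq ι] [TopologicalSpace Y] [MeasurableSpace Y]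
  {M : Atl ι Y} {g : Y → Mat ι} {ν : Measure Y} {S : Sg M g ν} {ξ : Y → Mat ι} {T : Bun S ξ}

theorem mv (hA : S.BasA) (hB : T.BasB) : T.Mv := by
  obtain ⟨L, hL, hb⟩ := hA.bd (7 / 2) (by norm_num)
  obtain ⟨R, -, hr⟩ := hB.bd (7 / 2) (by norm_num)
  refine ⟨L * Real.exp R * Real.exp R, by positivity, fun σ k z τ h0 h1 hz ha => ?_⟩
  have s1 : ∀ w ∈ closedBall z τ, ‖w‖ ≤ 7 / 2 := fun w hw => by
    linarith [norm_le_norm_add_norm_sub' w z, mem_closedBall_iff_norm.1 hw]
  have s2 : closedBall z τ ⊆ ball 0 4 := fun w hw =>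
    mem_ball_zero_iff.2 ((s1 w hw).trans_lt (by norm_num))
  have e : ∀ w ∈ closedBall z τ, (S.H (S.ty k) w).det.re * ‖σ ((S.c k).symm w)‖ ^ 2 =
      ‖S.rep T.U σ k w‖ ^ 2 * Real.exp (-T.ρ (S.ty k) w) := fun w hw => by
    have h : w ∈ (S.c k).target := S.tgt k ▸ s2 hw
    simpa only [(S.c k).right_inv h] using hB.dn σ k _ ((S.c k).map_target h)
  have b : ∀ w ∈ closedBall z τ, |T.ρ (S.ty k) w| ≤ R := fun w hw => hr _ w (s1 w hw)
  have hz' := mem_closedBall_self (x := z) h0.le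
  have c1 := ha.continuousOn.norm.pow 2
  have m1 : ∫ w in closedBall z τ, ‖S.rep T.U σ k w‖ ^ 2 ≤ Real.exp R *
      ∫ y in (S.c k).source ∩ S.c k ⁻¹' closedBall z τ, ‖σ y‖ ^ 2 ∂ν := by
    rw [hA.intR k _ measurableSet_closedBall s2, setIntegral_congr_fun measurableSet_closedBall e,
      ← integral_const_mul]
    refine setIntegral_mono_on (c1.integrableOn_compact (isCompact_closedBall z τ))
      (ContinuousOn.integrableOn_compact (isCompact_closedBall z τ) (continuousOn_const.mul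
        (c1.mul fun w hw => ?_))) measurableSet_closedBall fun w hw => ?_
    · exact ((T.ρ_sm _ w (s2 hw)).continuousAt.neg.rexp).continuousWithinAt
    · rw [mul_left_comm, ← Real.exp_add]
      exact le_mul_of_one_le_right (sq_nonneg _)
        (Real.one_le_exp (by linarith [(abs_le.1 (b w hw)).2]))
  have m2 : ‖σ ((S.c k).symm z)‖ ^ 2 ≤ L * Real.exp R * ‖S.rep T.U σ k z‖ ^ 2 := by
    have h3 := mul_le_mul_of_nonneg_right (hb (S.ty k) z (s1 z hz')).2.2.2.1
      (sq_nonneg ‖σ ((S.c k).symm z)‖)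
    rw [e z hz', inv_mul_le_iff₀ (by positivity)] at h3
    refine h3.trans ?_
    rw [mul_assoc, mul_comm (Real.exp _)]
    gcongr
    linarith [(abs_le.1 (b z hz')).1]
  calc _ ≤ L * Real.exp R * ‖S.rep T.U σ k z‖ ^ 2 * τ ^ (2 * Fintype.card ι) := by gcongr
    _ ≤ _ := by
      rw [mul_assoc, mul_assoc (L * _)]
      exact mul_le_mul_of_nonneg_left ((BD.mean h0 ha).trans m1) (by positivity)

end Pool.Agent.Lib.MP_813db1_ag.SV
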