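import Pool.Agent.Lib.MP_813db1_ag.SV.StB

/-! Slowly varying majorants on a finitely generated group. -/

namespace Pool.Agent.Lib.MP_813db1_ag.SV

namespace Slow

variable {G : Type} [Group G]

/-- the iterates of the averaging operator. -/
noncomputable def it (S : Finset G) (t : ℝ) (c : G → ℝ) : ℕ → G → ℝ
  | 0 => c
  | n + 1 => fun γ => t * ∑ s ∈ S, it S t c n (γ * s)

theorem it_nonneg (S : Finset G) {t : ℝ} (ht : 0 ≤ t) {c : G → ℝ} (hc : ∀ γ, 0 ≤ c γ) :
    ∀ n γ, 0 ≤ it S t c n γ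
  | 0, γ => hc γ
  | n + 1, _ => mul_nonneg ht (Finset.sum_nonneg fun _ _ => it_nonneg S ht hc n _)

theorem it_sum (S : Finset G) (t : ℝ) {c : G → ℝ} {σ : ℝ} (hc : HasSum c σ) :
    ∀ n, HasSum (it S t c n) ((t * S.card) ^ n * σ)
  | 0 => by simpa [it] using hc
  | n + 1 => by
    have h := (hasSum_sum (s := S) fun s _ =>
      (Equiv.mulRight s).hasSum_iff.2 (it_sum S t hc n)).mul_left t
    rw [Finset.sum_const, nsmul_eq_mul] at h
    rw [pow_succ', mul_assoc, mul_assoc]
    exact h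

end Slow

open Slow in
theorem slowS : SlowS := by
  intro G _ b hG hb
  classical
  obtain ⟨S0, hS, hf⟩ := Monoid.fg_iff.1 (Group.fg_iff_monoid_fg.1 hG)
  lift S0 to Finset G using hf
  obtain ⟨t, ht, ht1⟩ : ∃ t : ℝ, 0 < t ∧ t * S0.card < 1 :=
    ⟨1 / (S0.card + 1), by positivity, by
      rw [div_mul_eq_mul_div, div_lt_one (by positivity)]; linarith⟩
  let c : G → ℝ := fun γ => |b γ| + if γ = 1 then 1 else 0
  have hc0 : ∀ γ, 0 ≤ c γ := fun γ => add_nonneg (abs_nonneg _) (by split_ifs <;> norm_num)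
  have hc : Summable c := hb.abs.add (hasSum_ite_eq 1 1).summable
  have h0 := it_nonneg S0 ht.le hc0
  have h1 : Summable fun x : ℕ × G => it S0 t c x.1 x.2 := by
    refine (summable_prod_of_nonneg fun x => h0 _ _).2
      ⟨fun n => (it_sum S0 t hc.hasSum n).summable, ?_⟩
    simp only [fun n => (it_sum S0 t hc.hasSum n).tsum_eq]
    exact (summable_geometric_of_lt_one (by positivity) ht1).mul_right _
  obtain ⟨h2, h3⟩ := (summable_prod_of_nonneg fun x => h0 _ _).1 h1.prod_symm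
  simp only [Prod.fst_swap, Prod.snd_swap] at h2 h3
  set a : G → ℝ := fun γ => ∑' n, it S0 t c n γ with ha
  have a0 : ∀ γ, 0 ≤ a γ := fun γ => tsum_nonneg fun n => h0 n γ
  have ac : ∀ γ, c γ ≤ a γ := fun γ => (h2 γ).le_tsum 0 fun n _ => h0 n γ
  have step : ∀ h, ∃ C > (0 : ℝ), ∀ γ, a (γ * h) ≤ C * a γ := fun h => by
    have hh : h ∈ Submonoid.closure (S0 : Set G) := hS ▸ Submonoid.mem_top h
    induction hh using Submonoid.closure_induction with
    | mem s hs =>
      refine ⟨t⁻¹, by positivity, fun γ => (le_inv_mul_iff₀ ht).2 ?_⟩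
      have e : a γ = it S0 t c 0 γ + ∑' n, it S0 t c (n + 1) γ := (h2 γ).tsum_eq_zero_add
      rw [e, ha, ← tsum_mul_left]
      refine le_add_of_nonneg_of_le (h0 _ _) (((h2 _).mul_left t).tsum_le_tsum (fun n => ?_)
        ((summable_nat_add_iff 1).2 (h2 γ)))
      exact mul_le_mul_of_nonneg_left
        (Finset.single_le_sum (f := fun s => it S0 t c n (γ * s)) (fun _ _ => h0 _ _) hs) ht.le
    | one => exact ⟨1, one_pos, fun γ => by simp⟩
    | mul x y _ _ hx hy =>
      obtain ⟨C, hC, hx⟩ := hx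
      obtain ⟨D, hD, hy⟩ := hy
      refine ⟨D * C, by positivity, fun γ => ?_⟩
      rw [← mul_assoc, mul_assoc D]
      exact (hy _).trans (mul_le_mul_of_nonneg_left (hx γ) hD.le)
  have pos : ∀ γ, 0 < a γ := fun γ => by
    obtain ⟨C, hC, h⟩ := step γ⁻¹
    have h4 := h γ
    have h5 := ac 1
    rw [mul_inv_cancel] at h4
    simp only [c, if_true] at h5
    exact (mul_pos_iff_of_pos_left hC).1 (by linarith [abs_nonneg (b 1)])
  refine ⟨a, h3, fun γ => ⟨pos γ, le_trans ?_ (ac γ)⟩, fun h => ?_⟩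
  · exact le_add_of_le_of_nonneg (le_abs_self _) (by split_ifs <;> norm_num)
  · obtain ⟨C, hC, h4⟩ := step h
    obtain ⟨D, hD, h5⟩ := step h⁻¹
    refine ⟨|Real.log C| + |Real.log D|, fun γ => ?_⟩
    have h6 := Real.log_le_log (pos _) (h4 γ)
    have h7 := Real.log_le_log (pos _) (h5 (γ * h))
    rw [mul_inv_cancel_right] at h7
    rw [Real.log_mul hC.ne' (pos _).ne'] at h6
    rw [Real.log_mul hD.ne' (pos _).ne'] at h7
    exact abs_le.2 ⟨by linarith [le_abs_self (Real.log D), abs_nonneg (Real.log C)],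
      by linarith [le_abs_self (Real.log C), abs_nonneg (Real.log D)]⟩

end Pool.Agent.Lib.MP_813db1_ag.SV
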