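import Pool.Agent.Lib.MP_813db1_ag.SV.All0
import Pool.Agent.Lib.MP_813db1_ag.SV.BasB
import Pool.Agent.Lib.MP_813db1_ag.SV.BasC
import Pool.Agent.Lib.MP_813db1_ag.SV.BasN
import Pool.Agent.Lib.MP_813db1_ag.SV.BasD
import Pool.Agent.Lib.MP_813db1_ag.SV.Mv
import Pool.Agent.Lib.MP_813db1_ag.SV.Dv
import Pool.Agent.Lib.MP_813db1_ag.SV.Grn
import Pool.Agent.Lib.MP_813db1_ag.SV.BkI
import Pool.Agent.Lib.MP_813db1_ag.SV.Den
import Pool.Agent.Lib.MP_813db1_ag.SV.Hor
import Pool.Agent.Lib.MP_813db1_ag.SV.Itp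
import Pool.Agent.Lib.MP_813db1_ag.SV.FamR
import Pool.Agent.Lib.MP_813db1_ag.SV.Slow

/-! All steps together. -/

namespace Pool.Agent.Lib.MP_813db1_ag.SV

theorem bunS : BunS := by
  intro ι Y _ _ _ _ _ _ _ M g ν S hA
  refine ⟨fun ξ T => ?_, itpS hA⟩
  have hB : T.BasB := basB hA
  have hC : T.BasC := basC hA hB
  have hN := basN hA hB hC
  have hG := grn hA hB hC (dv hA)
  have hI := bkI hA hB hC hN (dv hA) hG
  exact ⟨hB, hC, basD hA hB (mv hA hB), mv hA hB,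
    horP (hor hA hB hC hG (den hA hB hC)) fun _ _ hp hψ => gap hA hC hN hI hp hψ, lgS hB⟩

/-- the spherical volume bounds the volume of the canonical bundle from below. -/
theorem mainAll : MainS := main0 bunS (famR puS slowS)

end Pool.Agent.Lib.MP_813db1_ag.SV
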