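import Pool.Agent.Lib.MP_813db1_ag.HS.Peak
import Pool.Agent.Lib.MP_813db1_ag.AS.EVol
import Pool.Agent.Lib.MP_813db1_ag.AN.MeanW
import Pool.Agent.Lib.MP_caab05_ag.GB.Osg

/-! A peak function at one point, with constants that depend only on the dimension. -/

namespace Pool.Agent.Lib.MP_813db1_ag.SV.PkL

open Pool.Agent.Lib.MP_813db1_ag.HS Pool.Agent.Lib.MP_813db1_ag.AS
open MeasureTheory Complex Matrix Filter Topology Set Metric
open scoped ContDiff ComplexOrder ENNReal Real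

variable {ι : Type} [Fintype ι] [DecidableEq ι]

/-- the affine change of variables. -/
theorem cov {H S : Mat ι} (hH : H.PosDef) (h2 : IsUnit S.det)
    (h3 : LinearMap.det ((Matrix.toLin' S).restrictScalars ℝ) = H.det.re) (z0 : V ι)
    (G : V ι → ℝ≥0∞) :
    ∫⁻ z, G (S *ᵥ (z - z0)) = ENNReal.ofReal (H.det.re)⁻¹ * ∫⁻ w, G w := by
  have hd := (mat.det ι H hH).1
  rw [lintegral_sub_right_eq_self (fun z => G (S *ᵥ z)) z0]
  let T : V ι →ₗ[ℝ] V ι := (Matrix.toLin' S).restrictScalars ℝ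
  have hT : LinearMap.det T ≠ 0 := by rw [h3]; exact hd.ne'
  let e := (T.equivOfDetNeZero hT).toContinuousLinearEquiv.toHomeomorph.toMeasurableEquiv
  have h1 := lintegral_map_equiv (μ := (volume : Measure (V ι))) G e
  have h4 : (e : V ι → V ι) = T := rfl
  rw [h4, Measure.map_linearMap_addHaar_eq_smul_addHaar _ hT, lintegral_smul_measure, h3,
    abs_of_pos (inv_pos.2 hd)] at h1
  exact h1.symm

omit [DecidableEq ι] in
theorem gauss0 : Integrable fun w : V ι => Real.exp (-(∑ i, ‖w i‖ ^ 2) / 2) := by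
  have h1 : Integrable fun x : ℂ => Real.exp (-‖x‖ ^ 2 / 2) := by
    have := (GaussianFourier.integrable_cexp_neg_mul_sq_norm_add (V := ℂ) (b := 1 / 2)
      (by norm_num) 0 0).norm
    refine this.congr (Eventually.of_forall fun x => ?_)
    simp only [zero_mul, add_zero, norm_exp]
    congr 1
    rw [← ofReal_pow, show (-(1 / 2) : ℂ) = ((-(1 / 2) : ℝ) : ℂ) by simp, ← ofReal_mul, ofReal_re]
    ring
  have h2 := Integrable.fintype_prod (ι := ι) (f := fun _ (x : ℂ) => Real.exp (-‖x‖ ^ 2 / 2))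
    (μ := fun _ => volume) fun _ => h1
  refine h2.congr (Eventually.of_forall fun w => ?_)
  simp only [← Real.exp_sum, neg_div, Finset.sum_neg_distrib, Finset.sum_div]

/-- the Gaussian integral. -/
theorem gauss (ι : Type) [Fintype ι] [DecidableEq ι] : ∃ C ≥ (0 : ℝ), ∀ H : Mat ι, H.PosDef →
    ∀ z0, ∫⁻ z, ENNReal.ofReal (Real.exp (-nV H (z - z0) / 2)) ≤ ENNReal.ofReal (C / H.det.re) := by
  refine ⟨∫ w : V ι, Real.exp (-(∑ i, ‖w i‖ ^ 2) / 2),
    integral_nonneg fun w => (Real.exp_pos _).le, fun H hH z0 => ?_⟩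
  obtain ⟨S, h1, h2, h3⟩ := EVol.frame hH
  have := cov hH h2 h3 z0 fun w => ENNReal.ofReal (Real.exp (-(∑ i, ‖w i‖ ^ 2) / 2))
  simp only [← h1] at this
  rw [this, ← ofReal_integral_eq_lintegral_ofReal gauss0
    (Eventually.of_forall fun w => (Real.exp_pos _).le),
    ← ENNReal.ofReal_mul (inv_pos.2 (mat.det ι H hH).1).le, div_eq_inv_mul]

/-- the mean value inequality on an ellipsoid. -/
theorem meanE {H : Mat ι} (hH : H.PosDef) {z0 : V ι} {f : V ι → ℂ} {U : Set (V ι)}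
    (hU : ∀ z, nV H (z - z0) ≤ Fintype.card ι → z ∈ U ∧ AnalyticAt ℂ f z) {W : V ι → ℝ} {a : ℝ}
    (ha : 0 ≤ a) (hW : ∀ z, nV H (z - z0) ≤ Fintype.card ι → a ≤ W z) (mU : MeasurableSet U) :
    ENNReal.ofReal (a * π ^ Fintype.card ι * ‖f z0‖ ^ 2) ≤
      ENNReal.ofReal H.det.re * ∫⁻ z in U, ENNReal.ofReal (‖f z‖ ^ 2 * W z) := by
  obtain ⟨S, h1, h2, h3⟩ := EVol.frame hH
  have hd := (mat.det ι H hH).1
  have inv : ∀ z : V ι, z0 + S⁻¹ *ᵥ (S *ᵥ (z - z0)) = z := fun z => by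
    rw [mulVec_mulVec, nonsing_inv_mul _ h2, one_mulVec, add_sub_cancel]
  have ell : ∀ w ∈ closedBall (0 : V ι) 1,
      nV H (z0 + S⁻¹ *ᵥ w - z0) ≤ Fintype.card ι := fun w hw => by
    rw [h1, add_sub_cancel_left, mulVec_mulVec, mul_nonsing_inv _ h2, one_mulVec]
    calc _ ≤ ∑ _i : ι, (1 : ℝ) := Finset.sum_le_sum fun i _ => pow_le_one₀ (norm_nonneg _)
          ((norm_le_pi_norm w i).trans (mem_closedBall_zero_iff.1 hw))
      _ = _ := by simp
  have an : ∀ w : V ι, AnalyticAt ℂ (fun w : V ι => z0 + S⁻¹ *ᵥ w) w := fun w =>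
    analyticAt_const.add ((Matrix.toLin' S⁻¹).toContinuousLinearMap.analyticAt w)
  have m := Pole.meanW (c := (0 : V ι)) (r := 1) (a := a) (f := fun w => f (z0 + S⁻¹ *ᵥ w))
    (w := fun w => W (z0 + S⁻¹ *ᵥ w)) (U := closedBall 0 1) one_pos ha
    (fun w hw => AnalyticAt.comp (g := f) (hU _ (ell w hw)).2 (an w)) subset_rfl
    fun w hw => hW _ (ell w hw)
  simp only [one_pow, mul_one, mulVec_zero, add_zero] at m
  refine m.trans ?_
  have c := cov hH h2 h3 z0 fun w => U.indicator (fun z => ENNReal.ofReal (‖f z‖ ^ 2 * W z))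
    (z0 + S⁻¹ *ᵥ w)
  simp only [inv] at c
  rw [← lintegral_indicator mU, c, ← mul_assoc, ← ENNReal.ofReal_mul hd.le,
    mul_inv_cancel₀ hd.ne', ENNReal.ofReal_one, one_mul,
    ← lintegral_indicator measurableSet_closedBall]
  refine lintegral_mono fun w => ?_
  by_cases hw : w ∈ closedBall (0 : V ι) 1
  · rw [indicator_of_mem hw, indicator_of_mem (hU _ (ell w hw)).1]
  · rw [indicator_of_notMem hw]
    exact zero_le

omit [DecidableEq ι] in
theorem bump (ι : Type) [Fintype ι] : ∃ D ≥ (0 : ℝ), ∀ (z : V ι) (ρ : ℝ), 0 < ρ →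
    ∃ χ : V ι → ℂ, ContDiff ℝ ∞ χ ∧ (∀ y, ‖y - z‖ ≤ ρ → χ y = 1) ∧
      (∀ y, 2 * ρ ≤ ‖y - z‖ → χ y = 0) ∧ (∀ y, ‖χ y‖ ≤ D) ∧ ∀ y, ‖fderiv ℝ χ y‖ ≤ D / ρ := by
  obtain ⟨D, hD, h⟩ := Peak.bump ι
  refine ⟨2 * D + 1, by positivity, fun z ρ hρ => ?_⟩
  obtain ⟨χ, h1, h2, h3, h4⟩ := h z ρ hρ
  refine ⟨χ, h1, h2, h3, fun y => ?_, fun y => (h4 y).trans (by gcongr; linarith)⟩
  rcases le_total (2 * ρ) ‖y - z‖ with hy | hy
  · rw [h3 y hy, norm_zero]; positivity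
  · have := Convex.norm_image_sub_le_of_norm_fderiv_le (𝕜 := ℝ) (f := χ) (C := D / ρ)
      (fun x _ => h1.differentiable (by simp) x) (fun x _ => h4 x) convex_univ (mem_univ z)
      (mem_univ y)
    have e : χ z = 1 := h2 z (by simpa using hρ.le)
    have b : D / ρ * ‖y - z‖ ≤ 2 * D :=
      (mul_le_mul_of_nonneg_left hy (by positivity)).trans (le_of_eq (by field_simp))
    have t := norm_le_norm_add_norm_sub' (χ y) (χ z)
    rw [e, norm_one] at t
    rw [e] at this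
    linarith

omit [DecidableEq ι] in
theorem exists_bd (A B : Mat ι) : ∃ L, Bd L A ∧ Bd L B := by
  obtain ⟨L, hL⟩ := (Set.finite_range fun p : ι × ι => max ‖A p.1 p.2‖ ‖B p.1 p.2‖).bddAbove
  exact ⟨L, fun i j => (le_max_left _ _).trans (hL ⟨(i, j), rfl⟩),
    fun i j => (le_max_right _ _).trans (hL ⟨(i, j), rfl⟩)⟩

omit [DecidableEq ι] in
theorem nV_smul (s : ℝ) (H : Mat ι) (v : V ι) : nV ((s : ℂ) • H) v = s * nV H v := by
  simp only [nV, ipV, Matrix.smul_apply, smul_eq_mul, mul_assoc, ← Finset.mul_sum, re_ofReal_mul]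

/-- the two sided bound for the weight. -/
theorem jet {ψ : V ι → ℝ} {z0 : V ι} (hψ : ∀ᶠ z in 𝓝 z0, ContDiffAt ℝ ∞ ψ z)
    (hH : (levi (fun w => (ψ w : ℂ)) z0).PosDef) : ∃ (q : V ι → ℂ) (c δ : ℝ), ContDiff ℂ ∞ q ∧
    0 < c ∧ 0 < δ ∧ (∀ v, c * ‖v‖ ^ 2 ≤ nV (levi (fun w => (ψ w : ℂ)) z0) v) ∧
    ∀ z ∈ closedBall z0 δ, nV (levi (fun w => (ψ w : ℂ)) z0) (z - z0) / 2 ≤ ψ z - 2 * (q z).re ∧
      ψ z - 2 * (q z).re ≤ 2 * nV (levi (fun w => (ψ w : ℂ)) z0) (z - z0) := by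
  obtain ⟨L, l1, l2⟩ := exists_bd (levi (fun w => (ψ w : ℂ)) z0) (levi (fun w => (ψ w : ℂ)) z0)⁻¹
  obtain ⟨c, hc, hn⟩ := mat.nv ι L
  obtain ⟨q, hq, he⟩ := Peak.exists_q hψ.self_of_nhds
  have hcont : ContinuousAt (fderiv ℝ (fderiv ℝ ψ)) z0 :=
    (((hψ.self_of_nhds.of_le Peak.two_le).fderiv_right (m := 1)
      (by norm_num)).fderiv_right (m := 0) (by norm_num)).continuousAt
  have h1 : ∀ᶠ z in 𝓝 z0, ‖fderiv ℝ (fderiv ℝ ψ) z - fderiv ℝ (fderiv ℝ ψ) z0‖ ≤ c / 2 := by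
    obtain ⟨r, r0, hr⟩ := Peak.unif (W := V ι →L[ℝ] V ι →L[ℝ] ℝ) isCompact_singleton
      (K := {z0}) (fun a ha => by rwa [mem_singleton_iff.1 ha]) (half_pos hc)
    filter_upwards [ball_mem_nhds z0 r0] with z hz
    exact hr z0 rfl z (mem_ball'.1 hz)
  obtain ⟨δ, hδ, hb⟩ := Metric.nhds_basis_closedBall.eventually_iff.1 (hψ.and h1)
  refine ⟨q, c, δ, hq, hc, hδ, fun v => (hn _ hH l1 l2 v).1, fun z hz => ?_⟩
  have t := abs_le.1 (Peak.taylor (fun y hy => (hb hy).1) (fun y hy => (hb hy).2) hz)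
  have a := (hn _ hH l1 l2 (z - z0)).1
  have b := he z
  have p : 0 ≤ c * ‖z - z0‖ ^ 2 := by positivity
  constructor <;> linarith [t.1, t.2]

/-- the peak function. -/
theorem loc (ι : Type) [Fintype ι] [DecidableEq ι] : ∃ C > (0 : ℝ), ∀ (ψ : V ι → ℝ) (z0 : V ι)
    (δ θ : ℝ), (∀ᶠ z in 𝓝 z0, ContDiffAt ℝ ∞ ψ z) → (levi (fun w => (ψ w : ℂ)) z0).PosDef →
    0 < δ → 0 < θ → ∀ᶠ j : ℕ in atTop, ∃ (w : V ι → ℂ) (G : V ι → ℝ) (ρ : ℝ), 0 < ρ ∧
      ContDiff ℝ ∞ w ∧ (∀ z, δ ≤ ‖z - z0‖ → w z = 0) ∧ AnalyticOnNhd ℂ w (ball z0 ρ) ∧ ρ ≤ δ ∧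
      ‖w z0‖ ^ 2 * Real.exp (-(j * ψ z0)) = 1 ∧ (∀ z, 0 ≤ G z) ∧
      ∫⁻ z, ENNReal.ofReal (G z) ≤ ENNReal.ofReal
        (C / ((j : ℝ) ^ Fintype.card ι * (levi (fun w => (ψ w : ℂ)) z0).det.re)) ∧
      (∀ z, ‖w z‖ ^ 2 * Real.exp (-(j * ψ z)) ≤ G z ∧ ∃ X ≥ (0 : ℝ), (∀ k, ‖dzb w k z‖ ≤ X) ∧
        X ^ 2 * Real.exp (-(j * ψ z)) ≤ θ * j * G z) ∧
      ∀ f : V ι → ℂ, AnalyticOnNhd ℂ f (ball z0 ρ) →
        ENNReal.ofReal (‖f z0‖ ^ 2 * Real.exp (-(j * ψ z0))) ≤ ENNReal.ofReal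
          (C * ((j : ℝ) ^ Fintype.card ι * (levi (fun w => (ψ w : ℂ)) z0).det.re)) *
          ∫⁻ z in ball z0 ρ, ENNReal.ofReal (‖f z‖ ^ 2 * Real.exp (-(j * ψ z))) := by
  obtain ⟨C, hC, hG⟩ := gauss ι
  obtain ⟨D, hD, hb⟩ := bump ι
  set n := Fintype.card ι with hn
  set a := Real.exp (-(2 * n)) * π ^ n with ha
  have a0 : 0 < a := by positivity
  refine ⟨(D ^ 2 + 1) * C + a⁻¹, by positivity, fun ψ z0 δ θ hψ hH hδ hθ => ?_⟩
  obtain ⟨q, c, δ1, hq, hc, d1, hn1, hj⟩ := jet hψ hH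
  set H := levi (fun w => (ψ w : ℂ)) z0 with hH0
  have hd := (mat.det ι H hH).1
  obtain ⟨R, R0, R1, R2⟩ : ∃ R : ℝ, 0 < R ∧ D ^ 2 / θ ≤ R ^ 2 ∧ n / c < R ^ 2 := by
    refine ⟨D ^ 2 / θ + n / c + 1, by positivity, ?_, ?_⟩ <;>
      nlinarith [show 0 ≤ D ^ 2 / θ by positivity, show 0 ≤ n / c by positivity]
  have ht : Tendsto (fun b : ℕ => √(b : ℝ)) atTop atTop :=
    Real.tendsto_sqrt_atTop.comp tendsto_natCast_atTop_atTop
  filter_upwards [ht.eventually_ge_atTop (2 * R / min δ δ1), ht.eventually_gt_atTop 0] with j j1 hs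
  have hs2 : √(j : ℝ) ^ 2 = j := Real.sq_sqrt (Nat.cast_nonneg j)
  generalize √(j : ℝ) = s at j1 hs hs2
  have j0 : (0 : ℝ) < j := hs2 ▸ by positivity
  have hρ : 2 * (R / s) ≤ min δ δ1 := by
    rw [← mul_div_assoc, div_le_iff₀ hs]
    rwa [div_le_iff₀' (by positivity)] at j1
  have ρ0 : 0 < R / s := by positivity
  have ρ1 := hρ.trans (min_le_left _ _)
  have ρ2 := hρ.trans (min_le_right _ _)
  obtain ⟨χ, c1, c2, c3, c4, c5⟩ := hb z0 (R / s) ρ0
  set E : V ι → ℂ := fun z => exp (j * q z) with hE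
  have cE : ContDiff ℂ ∞ E := by fun_prop
  have aE : ∀ z, AnalyticAt ℂ E z := fun z =>
    MP_caab05_ag.GB.osg _ _ _ _ isOpen_univ (cE.differentiable (by simp)).differentiableOn z trivial
  have nE : ∀ z, ‖E z‖ ^ 2 * Real.exp (-(j * ψ z)) =
      Real.exp (-(j * (ψ z - 2 * (q z).re))) := fun z => by
    rw [hE, norm_exp, ← Real.exp_nat_mul, ← Real.exp_add]
    congr 1
    simp
    ring
  have E0 : ‖E z0‖ ^ 2 * Real.exp (-(j * ψ z0)) = 1 := by
    have := hj z0 (mem_closedBall_self d1.le)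
    have e : nV H (z0 - z0) = 0 := by simp [nV, ipV]
    rw [e] at this
    rw [nE, show ψ z0 - 2 * (q z0).re = 0 by linarith [this.1, this.2]]
    simp
  have pd : ((j : ℝ) : ℂ) • H |>.PosDef := hH.smul (by exact_mod_cast j0)
  have dt : (((j : ℝ) : ℂ) • H).det.re = (j : ℝ) ^ n * H.det.re := by
    rw [det_smul, ← ofReal_pow, re_ofReal_mul]
  have up : ∀ z, ‖z - z0‖ ≤ 2 * (R / s) → ‖E z‖ ^ 2 * Real.exp (-(j * ψ z)) ≤
      Real.exp (-nV (((j : ℝ) : ℂ) • H) (z - z0) / 2) := fun z hz => by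
    rw [nE, nV_smul]
    refine Real.exp_le_exp.2 ?_
    have := mul_le_mul_of_nonneg_left (hj z (mem_closedBall_iff_norm.2 (hz.trans ρ2))).1 j0.le
    linarith
  refine ⟨fun z => χ z * E z, fun z => (D ^ 2 + 1) *
    Real.exp (-nV (((j : ℝ) : ℂ) • H) (z - z0) / 2), R / s, ρ0,
    c1.mul (cE.restrict_scalars ℝ), fun z hz => by simp only [c3 z (ρ1.trans hz), zero_mul],
    fun z hz => (aE z).congr ?_, by linarith, ?_, fun z => by positivity, ?_, fun z => ?_,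
    fun f hf => ?_⟩
  · filter_upwards [isOpen_ball.mem_nhds hz] with y hy
    rw [c2 y (mem_ball_iff_norm.1 hy).le, one_mul]
  · simp only [c2 z0 (by simpa using ρ0.le), one_mul, E0]
  · simp only [ENNReal.ofReal_mul (show 0 ≤ D ^ 2 + 1 by positivity)]
    rw [lintegral_const_mul' _ _ ENNReal.ofReal_ne_top]
    refine (mul_le_mul_right (hG _ pd z0) _).trans ?_
    rw [← ENNReal.ofReal_mul (by positivity), dt, ← mul_div_assoc]
    refine ENNReal.ofReal_le_ofReal ?_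
    gcongr
    exact le_add_of_nonneg_right (by positivity)
  · have dz := Peak.dzb_mul_hol (c1.differentiable (by simp) z) (cE.differentiable (by simp) z)
    by_cases hz : ‖z - z0‖ ≤ 2 * (R / s)
    · have u := up z hz
      refine ⟨?_, D / (R / s) * ‖E z‖, by positivity,
        fun k => (dz k).trans (by gcongr; exact c5 z), ?_⟩
      · rw [norm_mul, mul_pow, mul_assoc]
        exact mul_le_mul (by nlinarith [c4 z, norm_nonneg (χ z)]) u (by positivity)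
          (by positivity)
      · rw [mul_pow, mul_assoc, ← mul_assoc (θ * j)]
        refine mul_le_mul ?_ u (by positivity) (by positivity)
        rw [div_le_iff₀ hθ] at R1
        calc (D / (R / s)) ^ 2 = D ^ 2 * j / R ^ 2 := by rw [← hs2]; field_simp
          _ ≤ R ^ 2 * θ * j / R ^ 2 := by gcongr
          _ = θ * j * 1 := by field_simp
          _ ≤ _ := by gcongr; linarith [sq_nonneg D]
    · rw [not_le] at hz
      have e : χ =ᶠ[𝓝 z] fun _ => 0 := by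
        filter_upwards [(continuous_id.sub continuous_const).norm.continuousAt.eventually
          (lt_mem_nhds hz)] with y hy
        exact c3 y (le_of_lt hy)
      refine ⟨?_, 0, le_rfl, fun k => (dz k).trans ?_, ?_⟩
      · simp [c3 z hz.le]; positivity
      · rw [e.fderiv_eq]; simp
      · simp; positivity
  · have E1 : ∀ z, E z ≠ 0 := fun z => exp_ne_zero _
    have ell : ∀ z, nV (((j : ℝ) : ℂ) • H) (z - z0) ≤ n → ‖z - z0‖ < R / s := fun z hz => by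
      rw [nV_smul] at hz
      have b1 := (mul_le_mul_of_nonneg_left (hn1 (z - z0)) j0.le).trans hz
      refine lt_of_pow_lt_pow_left₀ 2 ρ0.le ?_
      rw [div_pow, hs2, lt_div_iff₀ j0]
      rw [div_lt_iff₀ hc] at R2
      nlinarith
    have m := meanE pd (z0 := z0) (f := fun z => f z / E z) (U := ball z0 (R / s))
      (W := fun z => ‖E z‖ ^ 2 * Real.exp (-(j * ψ z))) (a := Real.exp (-(2 * n)))
      (fun z hz => ⟨mem_ball_iff_norm.2 (ell z hz),
        (hf z (mem_ball_iff_norm.2 (ell z hz))).div (aE z) (E1 z)⟩) (Real.exp_pos _).le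
      (fun z hz => by
        rw [nE]
        refine Real.exp_le_exp.2 ?_
        have := mul_le_mul_of_nonneg_left (hj z (mem_closedBall_iff_norm.2
          ((ell z hz).le.trans (by linarith)))).2 j0.le
        rw [nV_smul] at hz
        linarith) measurableSet_ball
    have e : ∀ z, ‖f z / E z‖ ^ 2 * (‖E z‖ ^ 2 * Real.exp (-(j * ψ z))) =
        ‖f z‖ ^ 2 * Real.exp (-(j * ψ z)) := fun z => by
      have := norm_pos_iff.2 (E1 z)
      rw [norm_div]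
      field_simp
    simp only [e] at m
    rw [dt, ← ha, ← mul_one (‖f z0 / E z0‖ ^ 2), ← E0, e] at m
    calc _ = ENNReal.ofReal a⁻¹ * ENNReal.ofReal (a * (‖f z0‖ ^ 2 * Real.exp (-(j * ψ z0)))) := by
          rw [← ENNReal.ofReal_mul (by positivity), inv_mul_cancel_left₀ a0.ne']
      _ ≤ _ := mul_le_mul_right m _
      _ ≤ _ := by
          rw [← mul_assoc, ← ENNReal.ofReal_mul (by positivity)]
          gcongr
          exact le_add_of_nonneg_left (by positivity)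

end Pool.Agent.Lib.MP_813db1_ag.SV.PkL
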