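import Pool.Agent.Lib.MP_813db1_ag.SV.PeakD
import Pool.Agent.Lib.MP_813db1_ag.SV.PeakL

/-! Peak sections for a singular weight. -/

namespace Pool.Agent.Lib.MP_813db1_ag.SV

open Pool.Agent.Lib.MP_813db1_ag.HS Pool.Agent.Lib.MP_813db1_ag.AS Pool.Agent.Lib.MP_813db1_ag.AN
open MeasureTheory Complex Matrix Filter Topology Set Metric
open scoped ContDiff ComplexOrder ENNReal Manifold

namespace PkG

variable {ι Y : Type} [Fintype ι] [DecidableEq ι] [TopologicalSpace Y] [MeasurableSpace Y]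
  {M : Atl ι Y} {g : Y → Mat ι} {ν : Measure Y} {S : Sg M g ν}

theorem dpos (S : Sg M g ν) (a : Fin S.n) {z : V ι} (hz : z ∈ ball (0 : V ι) 4) :
    0 < (S.H a z).det.re :=
  (mat.det ι _ ((S.kon a).2 z (ball_subset_ball (by norm_num) hz))).1

theorem src (S : Sg M g ν) (k : S.κ) {z : V ι} (hz : z ∈ ball (0 : V ι) 4) :
    (S.c k).symm z ∈ (S.c k).source ∧ S.c k ((S.c k).symm z) = z :=
  ⟨(S.c k).map_target (S.tgt k ▸ hz), (S.c k).right_inv (S.tgt k ▸ hz)⟩

theorem cpt (S : Sg M g ν) (k : S.κ) {D : Set (V ι)} (hD : IsCompact D) (h : D ⊆ ball 0 4) :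
    IsCompact ((S.c k).source ∩ S.c k ⁻¹' D) := by
  rw [← (S.c k).symm_image_eq_source_inter_preimage (S.tgt k ▸ h)]
  exact hD.image_of_continuousOn ((S.c k).continuousOn_symm.mono (S.tgt k ▸ h))

theorem down (hA : S.BasA) (k : S.κ) {D : Set (V ι)} (hD : MeasurableSet D) (h : D ⊆ ball 0 4)
    {F : Y → ℝ} (hF : Integrable F ν) (h0 : ∀ y, 0 ≤ F y) :
    ∫⁻ z in D, ENNReal.ofReal ((S.H (S.ty k) z).det.re * F ((S.c k).symm z)) ≤
      ENNReal.ofReal (∫ y, F y ∂ν) := by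
  rw [ofReal_integral_eq_lintegral_ofReal hF (Eventually.of_forall h0)]
  refine le_trans (le_of_eq ?_) (setLIntegral_le_lintegral ((S.c k).source ∩ S.c k ⁻¹' D) _)
  rw [hA.lint k D hD h]
  exact setLIntegral_congr_fun hD fun z hz => ENNReal.ofReal_mul (dpos S _ (h hz)).le

theorem up [T2Space Y] [BorelSpace Y] (hA : S.BasA) (k : S.κ) {D : Set (V ι)} (hD : IsCompact D)
    (h : D ⊆ ball 0 4) {F : Y → ℝ} (hF : ContinuousOn F ((S.c k).source ∩ S.c k ⁻¹' D))
    (h0 : ∀ y, 0 ≤ F y) (h1 : ∀ y ∉ (S.c k).source ∩ S.c k ⁻¹' D, F y = 0) {G : V ι → ℝ}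
    {A B : ℝ} (A0 : 0 ≤ A) (B0 : 0 ≤ B) (hG : ∫⁻ z, ENNReal.ofReal (G z) ≤ ENNReal.ofReal B)
    (h2 : ∀ z ∈ D, (S.H (S.ty k) z).det.re * F ((S.c k).symm z) ≤ A * G z) :
    Integrable F ν ∧ ∫ y, F y ∂ν ≤ A * B := by
  have := hA.fin
  have hs : Function.support F ⊆ (S.c k).source ∩ S.c k ⁻¹' D := fun y hy =>
    not_not.1 fun hn => hy (h1 y hn)
  have hi : Integrable F ν := (integrableOn_iff_integrable_of_support_subset hs).1
    (hF.integrableOn_compact (cpt S k hD h))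
  refine ⟨hi, (ENNReal.ofReal_le_ofReal_iff (by positivity)).1 ?_⟩
  rw [ofReal_integral_eq_lintegral_ofReal hi (Eventually.of_forall h0),
    ← setLIntegral_eq_of_support_subset (s := (S.c k).source ∩ S.c k ⁻¹' D)
      (fun y hy => hs fun e => hy (by simp [e])), hA.lint k D hD.measurableSet h,
    ENNReal.ofReal_mul A0]
  refine le_trans ?_ (mul_le_mul_right hG _)
  rw [← lintegral_const_mul' _ _ ENNReal.ofReal_ne_top]
  refine (setLIntegral_mono' hD.measurableSet fun z hz => ?_).trans (setLIntegral_le_lintegral D _)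
  rw [← ENNReal.ofReal_mul (dpos S _ (h hz)).le, ← ENNReal.ofReal_mul A0]
  exact ENNReal.ofReal_le_ofReal (h2 z hz)

theorem logdet {G : V ι → Mat ι} {U : Set (V ι)} (hG : KOn G U) {z : V ι}
    (hz : z ∈ U) : ContDiffAt ℝ ∞ (fun w => Real.log (G w).det.re) z := by
  have d : ContDiffAt ℝ ∞ (fun w => (G w).det) z := by
    simp only [det_apply']
    exact ContDiffAt.sum fun σ _ =>
      contDiffAt_const.mul (contDiffAt_prod fun i _ => hG.1.1 z hz (σ i) i)
  exact (reCLM.contDiff.contDiffAt.comp z d).log (mat.det ι _ (hG.2 z hz)).1.ne'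

/-- the weight of the bundle is explicit. -/
theorem rho (P : Pol S) {ξ : Y → Mat ι} (T : Bun S ξ) {j b : ℕ} (hU : T.U = P.U j b) (k : S.κ)
    {z : V ι} (hz : z ∈ ball (0 : V ι) 4) : T.ρ (S.ty k) z =
      ((j : ℝ) - 1) * Real.log (S.H (S.ty k) z).det.re + b * P.φ (S.ty k) z := by
  obtain ⟨s1, s2⟩ := src S k hz
  have d := dpos S (S.ty k) hz
  have h := T.nrm k _ s1
  rw [hU, Pol.U, norm_mul, norm_pow, norm_pow, mul_pow, ← pow_mul, ← pow_mul, mul_comm j,
    mul_comm b, pow_mul, pow_mul, P.v_nrm k _ s1, P.u_nrm k _ s1, s2] at h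
  have h' := congrArg Real.log h
  rw [Real.log_mul (by positivity) (by positivity), Real.log_mul (by positivity) d.ne',
    Real.log_pow, Real.log_pow, Real.log_exp, Real.log_exp] at h'
  linarith

omit [MeasurableSpace Y] in
theorem th_add (a b a' b' s : ℝ) (y : Y) :
    th M g a b y + (s : ℂ) • th M g a' b' y = th M g (a + s * a') (b + s * b') y := by
  simp only [th, ofReal_add, ofReal_mul, add_smul, smul_add, mul_smul]
  abel

omit [MeasurableSpace Y] in
theorem th_g (b : ℝ) (y : Y) : th M g 0 b y = (b : ℂ) • g y := by simp [th]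

end PkG

open PkG in
theorem peakS : PeakS := by
  intro ι _ _ _
  obtain ⟨C, C0, hloc⟩ := PkL.loc ι
  set ex := Real.exp 1 with hex
  have ex0 : 0 < ex := Real.exp_pos _
  set η := 1 / (8 * ex * C) with hη
  have η0 : 0 < η := by positivity
  refine ⟨1 / (4 * (2 * ex * C + 4 * η)), by positivity, ?_⟩
  intro Y _ _ _ _ _ M g ν S P hA hBn hE m k e ε Q hm he hε hQ y hy
  have m0 : (0 : ℝ) < m := by exact_mod_cast hm
  set κ := S.ch y with hκ
  set z0 := S.c κ y with hz0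
  set n := Fintype.card ι with hn
  have ys : y ∈ (S.c κ).source := by rw [hκ, ← S.ch_eq]; exact M.mem y
  have z1 : ‖z0‖ < 1 := S.ch_lt y
  have z4 : z0 ∈ ball (0 : V ι) 4 := mem_ball_zero_iff.2 (by linarith)
  have sy : (S.c κ).symm z0 = y := (S.c κ).left_inv ys
  set ld : V ι → ℝ := fun z => Real.log (S.H (S.ty κ) z).det.re with hld
  set lq : V ι → ℝ := fun z => Real.log (Q ((S.c κ).symm z)) with hlq
  set φ := P.φ (S.ty κ) with hφ
  set t : ℝ := (k + e) / m with ht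
  have t0 : 0 ≤ t := by positivity
  set ψ : V ι → ℝ := fun z => ld z + (t + ε) * φ z + (m : ℝ)⁻¹ * lq z with hψ
  have cq : ContinuousAt (fun z => Q ((S.c κ).symm z)) z0 :=
    hQ.cont.continuousAt.comp ((S.c κ).continuousAt_symm (S.tgt κ ▸ z4))
  have ev : ∀ᶠ z in 𝓝 z0, z ∈ ball (0 : V ι) 2 ∧ 0 < Q ((S.c κ).symm z) :=
    (isOpen_ball.eventually_mem (mem_ball_zero_iff.2 (by linarith))).and
      (cq.eventually (lt_mem_nhds (by simpa [sy] using hy)))
  have b24 : ball (0 : V ι) 2 ⊆ ball 0 4 := ball_subset_ball (by norm_num)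
  have sm : ∀ z, z ∈ ball (0 : V ι) 2 ∧ 0 < Q ((S.c κ).symm z) →
      ContDiffAt ℝ ∞ ld z ∧ ContDiffAt ℝ ∞ φ z ∧ ContDiffAt ℝ ∞ lq z := fun z hz =>
    ⟨logdet (S.kon _) (ball_subset_ball (by norm_num) hz.1),
      (P.φ_sm _ z (b24 hz.1)).1, (contDiffAt_ofReal.1
        (hQ.sm _ (S.mem κ) z (S.tgt κ ▸ b24 hz.1) hz.2)).log hz.2.ne'⟩
  obtain ⟨s1, s2, s3⟩ := sm z0 ev.self_of_nhds
  have gy : g y = S.H (S.ty κ) z0 := (hA.det y).2.2
  have lev : levi (fun w => (ψ w : ℂ)) z0 = ((m : ℂ)⁻¹) • (th M g m (k + e) y +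
      M.ddc (fun z => Real.log (Q z)) y) + (ε : ℂ) • g y := by
    have c : ∀ {u : V ι → ℝ}, ContDiffAt ℝ ∞ u z0 → ContDiffAt ℝ 2 (fun w => (u w : ℂ)) z0 :=
      fun h => (contDiffAt_ofReal.2 h).of_le Peak.two_le
    have e1 : -M.ricF g y = levi (fun w => (ld w : ℂ)) z0 := by
      rw [Atl.ricF, ric, neg_neg, S.ch_eq]
      refine levi_congr ?_
      filter_upwards [isOpen_ball.mem_nhds z4] with w hw
      rw [S.rep_g _ w hw]
    have e2 : M.ddc (fun z => Real.log (Q z)) y = levi (fun w => (lq w : ℂ)) z0 := by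
      rw [Atl.ddc, S.ch_eq]; rfl
    simp only [hψ, ofReal_add, ofReal_mul]
    rw [levi_add ((c s1).add (contDiffAt_const.mul (c s2))) (contDiffAt_const.mul (c s3)),
      levi_add (c s1) (contDiffAt_const.mul (c s2)), levi_cmul _ (c s2), levi_cmul _ (c s3),
      (P.φ_sm _ z0 z4).2, ← gy, th, e1, e2, ht]
    have : (m : ℂ) ≠ 0 := by exact_mod_cast m0.ne'
    ext i l
    simp only [Matrix.add_apply, Matrix.smul_apply, smul_eq_mul]
    push_cast
    field_simp
    ring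
  have pd : (levi (fun w => (ψ w : ℂ)) z0).PosDef := by
    rw [lev]
    refine PosDef.posSemidef_add ((hQ.psd y hy).smul ?_) ((hA.det y).1.smul (by exact_mod_cast hε))
    rw [← ofReal_natCast, ← ofReal_inv]
    exact_mod_cast (inv_pos.2 m0).le
  have ev2 : ∀ᶠ z in 𝓝 z0, |ld z - ld z0| + (m : ℝ)⁻¹ * |lq z - lq z0| +
      (t + 1) * |φ z - φ z0| < 1 := by
    have : ContinuousAt (fun z => |ld z - ld z0| + (m : ℝ)⁻¹ * |lq z - lq z0| +
        (t + 1) * |φ z - φ z0|) z0 :=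
      ((s1.continuousAt.sub continuousAt_const).abs.add (continuousAt_const.mul
        (s3.continuousAt.sub continuousAt_const).abs)).add (continuousAt_const.mul
          (s2.continuousAt.sub continuousAt_const).abs)
    exact this.eventually (gt_mem_nhds (by simp))
  obtain ⟨δ, d0, hδ⟩ := Metric.nhds_basis_closedBall.eventually_iff.1 (ev.and ev2)
  have D4 : closedBall z0 δ ⊆ ball 0 4 := fun z hz => b24 (hδ hz).1.1
  obtain ⟨L, L1, hL⟩ := hA.bd 2 (by norm_num)
  obtain ⟨cL, cL0, hcL⟩ := mat.nv ι L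
  set KL := (n * |L|) ^ 2 / cL + 1 with hKL
  have KL0 : 0 < KL := by positivity
  set θ := η * ε / (2 * KL * ex * C) with hθ
  obtain ⟨c0, hc0⟩ := hBn.c0
  filter_upwards [hloc ψ z0 δ θ (ev.mono fun z hz => ((sm z hz).1.add (contDiffAt_const.mul
    (sm z hz).2.1)).add (contDiffAt_const.mul (sm z hz).2.2)) pd d0 (by positivity),
    eventually_ge_atTop 1] with j ⟨w, G, ρ, ρ0, w1, w2, w3, ρ1, w4, G0, G1, G2, mean⟩ j1
  have j0 : (1 : ℝ) ≤ j := by exact_mod_cast j1
  set q : ℝ := ((j : ℝ) - 1) / m with hq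
  have q0 : 0 ≤ q := div_nonneg (by linarith) m0.le
  set b := ⌈q * (k + e) + ε * j⌉₊ with hb
  have b1 : q * (k + e) + ε * j ≤ b := Nat.le_ceil _
  have b2 : (b : ℝ) < q * (k + e) + ε * j + 1 := Nat.ceil_lt_add_one (by positivity)
  have qt : q * (k + e) = j * t - t := by rw [hq, ht]; field_simp
  obtain ⟨T, hU, hT⟩ := hBn.ex j b
  have hB := hT.b
  have hC := hT.c
  set H0 := (levi (fun w => (ψ w : ℂ)) z0).det.re with hH0
  have H1 : 0 < H0 := (mat.det ι _ pd).1
  set Δ := (j : ℝ) ^ n * H0 with hΔ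
  have Δ0 : 0 < Δ := by positivity
  set r : V ι → ℝ := fun z => -ld z - (m : ℝ)⁻¹ * lq z + (b - j * (t + ε)) * φ z with hr
  set a := Real.exp (-r z0) with ha
  have a0 : 0 < a := Real.exp_pos _
  have wt : ∀ z ∈ closedBall z0 δ, Real.exp (-T.ρ (S.ty κ) z) * Q ((S.c κ).symm z) ^ (-q) =
      Real.exp (-(j * ψ z)) * Real.exp (-r z) := fun z hz => by
    rw [Real.rpow_def_of_pos (hδ hz).1.2, ← Real.exp_add, ← Real.exp_add, rho P T hU κ (D4 hz)]
    congr 1
    simp only [hr, hψ, hq]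
    field_simp
    ring
  have rr : ∀ z ∈ closedBall z0 δ, Real.exp (-r z) ≤ ex * a ∧ a ≤ ex * Real.exp (-r z) :=
    fun z hz => by
      have h1 := (hδ hz).2
      have h2 : |(b - j * (t + ε)) * (φ z - φ z0)| ≤ (t + 1) * |φ z - φ z0| := by
        rw [abs_mul]
        exact mul_le_mul_of_nonneg_right (abs_le.2 ⟨by linarith, by linarith⟩) (abs_nonneg _)
      have h3 : |(m : ℝ)⁻¹ * (lq z - lq z0)| = (m : ℝ)⁻¹ * |lq z - lq z0| := by
        rw [abs_mul, abs_of_pos (inv_pos.2 m0)]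
      have h4 := abs_le.1 (le_refl |ld z - ld z0|)
      have h5 := abs_le.1 h2
      have h6 := abs_le.1 h3.le
      rw [ha, hex, ← Real.exp_add, ← Real.exp_add, Real.exp_le_exp, Real.exp_le_exp]
      simp only [hr]
      constructor <;> linarith [h4.1, h4.2, h5.1, h5.2, h6.1, h6.2]
  have dn : ∀ σ, ∀ z ∈ closedBall z0 δ, (S.H (S.ty κ) z).det.re * (‖σ ((S.c κ).symm z)‖ ^ 2 *
      Q ((S.c κ).symm z) ^ (-q)) = ‖S.rep T.U σ κ z‖ ^ 2 * Real.exp (-(j * ψ z)) *
        Real.exp (-r z) := fun σ z hz => by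
    have := hB.dn σ κ _ (src S κ (D4 hz)).1
    rw [(src S κ (D4 hz)).2] at this
    rw [← mul_assoc, this, mul_assoc, wt z hz, mul_assoc]
  have tf : Tf 2 w := ⟨w1, fun z hz => w2 z (not_lt.1 fun h => by
    have := mem_ball_zero_iff.1 (hδ (mem_closedBall_iff_norm.2 h.le)).1.1
    linarith)⟩
  obtain ⟨du, ru, su, -⟩ := hB.ext κ 2 (by norm_num) w tf
  set u := S.ext T.U κ w with hu
  set K := (S.c κ).source ∩ S.c κ ⁻¹' closedBall z0 δ with hK
  have cK : IsCompact K := cpt S κ (isCompact_closedBall _ _) D4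
  have uK : ∀ x ∉ K, u x = 0 := fun x hx => not_not.1 fun h => hx ⟨(su x h).1,
    mem_closedBall_iff_norm.2 (not_le.1 fun h' => (su x h).2 (w2 _ h')).le⟩
  have vK : ∀ x ∉ K, S.vec T.U u x = 0 := fun x hx =>
    (hC.off (fun _ => 0) u x (Filter.mem_of_superset (cK.isClosed.isOpen_compl.mem_nhds hx) uK)).2
  have QK : ∀ x ∈ K, 0 < Q x := fun x hx => by
    have := (hδ hx.2).1.2
    rwa [(S.c κ).left_inv hx.1] at this
  have cQ : ContinuousOn (fun x => Q x ^ (-q)) K :=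
    hQ.cont.continuousOn.rpow_const fun x hx => Or.inl (QK x hx).ne'
  have Qn : ∀ x, 0 ≤ Q x ^ (-q) := fun x => Real.rpow_nonneg (hQ.nn x) _
  obtain ⟨i1, A1⟩ := up hA κ (isCompact_closedBall z0 δ) D4
    (F := fun x => ‖u x‖ ^ 2 * Q x ^ (-q)) ((hB.ck u du.1).2.continuousOn.mul cQ)
    (fun x => mul_nonneg (sq_nonneg _) (Qn x)) (fun x hx => by simp [uK x hx])
    (A := ex * a) (by positivity) (by positivity) G1 fun z hz => by
      rw [dn u z hz, ru z (D4 hz), mul_comm]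
      exact mul_le_mul (rr z hz).1 (G2 z).1 (by positivity) (by positivity)
  have nn : ∀ x, 0 ≤ (S.ip1 T.U g u u x).re := fun x => hC.nn g u x (hA.det x).1.posSemidef
  obtain ⟨i2, A2⟩ := up hA κ (isCompact_closedBall z0 δ) D4
    (F := fun x => (S.ip1 T.U g u u x).re * Q x ^ (-q))
    ((continuous_re.comp (hC.cont g u u (fun e he => (S.kg e he).1.1) du.1
      du.1)).continuousOn.mul cQ) (fun x => mul_nonneg (nn x) (Qn x))
    (fun x hx => by simp [Sg.ip1, vK x hx, ipV]) (A := ex * a * (KL * (θ * j))) (by positivity)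
    (by positivity) G1 fun z hz => by
      obtain ⟨-, X, X0, X1, X2⟩ := G2 z
      have f := congrArg re (hC.ip1 g u u du.1 du.1 κ _ (src S κ (D4 hz)).1)
      have e : shp (S.H (S.ty κ)) (S.rep T.U u κ) z = shp (S.H (S.ty κ)) w z := by
        funext i
        refine Finset.sum_congr rfl fun l _ => ?_
        rw [(dzb_eventuallyEq (Filter.mem_of_superset (isOpen_ball.mem_nhds (D4 hz)) ru)
          l).self_of_nhds]
      rw [(src S κ (D4 hz)).2, re_ofReal_mul, re_mul_ofReal, S.rep_g κ z (D4 hz), e] at f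
      obtain ⟨l1, l2, -⟩ := hL (S.ty κ) z (mem_ball_zero_iff.1 (hδ hz).1.1).le
      have f1 := Peak.shp_le X0 l2 X1
      have f2 := (hcL _ ((S.kon _).2 z (ball_subset_ball (by norm_num) (D4 hz))) l1 l2
        (shp (S.H (S.ty κ)) w z)).2
      have f3 : nV (S.H (S.ty κ) z) (shp (S.H (S.ty κ)) w z) ≤ KL * X ^ 2 := by
        refine le_trans ?_ (mul_le_mul_of_nonneg_right (le_add_of_nonneg_right zero_le_one)
          (sq_nonneg X))
        rw [div_mul_eq_mul_div, le_div_iff₀' cL0, ← mul_pow]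
        exact f2.trans (by gcongr)
      rw [← mul_assoc, f, mul_assoc, wt z hz]
      calc _ ≤ KL * X ^ 2 * (Real.exp (-(j * ψ z)) * (ex * a)) :=
            mul_le_mul f3 (by gcongr; exact (rr z hz).1) (by positivity) (by positivity)
        _ = ex * a * KL * (X ^ 2 * Real.exp (-(j * ψ z))) := by ring
        _ ≤ ex * a * KL * (θ * j * G z) := by gcongr
        _ = _ := by ring
  obtain ⟨h, h2, i3, A3⟩ := hE j b (m * c0) (th M g m (k + e)) Q (fun _ => 0) q (ε * j) u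
    (by positivity) q0 hQ (fun s _ => (isClosed_le continuous_const hQ.cont).isCompact)
    (fun x => by
      have := ((hA.det x).1.posSemidef.smul (a := ((k + e : ℝ) : ℂ)) (by positivity)).add
        ((hc0 x).1.smul (a := ((m : ℝ) : ℂ)) (by positivity))
      rw [← th_g (M := M), th_add] at this
      convert this using 1
      simp only [th, ofReal_add, ofReal_mul, add_smul, zero_add, mul_one, ofReal_natCast,
        Nat.cast_mul, add_assoc])
    (fun e _ z _ => contDiffAt_const) HasCompactSupport.zero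
    (fun x => by
      have := (hA.det x).1.posSemidef.smul (a := ((b - q * (k + e) - ε * j : ℝ) : ℂ))
        (by exact_mod_cast sub_nonneg.2 (le_sub_iff_add_le'.2 b1))
      convert this using 1
      have e0 : M.ddc (fun _ => 0) x = 0 := levi_const _ _
      have e1 := th_add (M := M) (g := g) ((j : ℝ) - 1) b m (k + e) (-q) x
      rw [show (j : ℝ) - 1 + -q * m = 0 by rw [hq]; field_simp; ring, th_g, ofReal_neg, neg_smul,
        ← sub_eq_add_neg] at e1
      rw [e0, add_zero, e1, ← sub_smul]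
      congr 1
      push_cast
      ring)
    (hU ▸ du) (fun x hx => hU ▸ vK x fun h => (QK x h).ne' hx)
    (by simpa [← hU] using i2) (η * a / Δ) (by positivity)
  simp only [neg_zero, Real.exp_zero, mul_one, ← hU] at h2 i3 A3 ⊢
  have A4 : ∫ x, ‖u x - h x‖ ^ 2 * Q x ^ (-q) ∂ν ≤ 2 * η * a / Δ := by
    refine A3.trans ((add_le_add_left (mul_le_mul_of_nonneg_left
      (div_le_div_of_nonneg_right A2 (by positivity)) zero_le_two) _).trans (le_of_eq ?_))
    rw [hθ]
    field_simp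
    ring
  have sρ : ball z0 ρ ⊆ closedBall z0 δ := ball_subset_closedBall.trans
    (closedBall_subset_closedBall ρ1)
  have rp : ∀ z ∈ ball (0 : V ι) 4, S.rep T.U (fun x => u x - h x) κ z =
      w z - S.rep T.U h κ z := fun z hz => by
    have := hB.lin 1 (-1) u h κ z
    simp only [one_mul, neg_mul, ← sub_eq_add_neg, ru z hz] at this
    exact this
  have mv := mean (fun z => w z - S.rep T.U h κ z) fun z hz =>
    (w3 z hz).sub ((hB.hol_an h h2.1).2 κ z (D4 (sρ hz)))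
  have m2 : ∫⁻ z in ball z0 ρ, ENNReal.ofReal (‖w z - S.rep T.U h κ z‖ ^ 2 *
      Real.exp (-(j * ψ z))) ≤ ENNReal.ofReal (ex / a * (2 * η * a / Δ)) := by
    rw [ENNReal.ofReal_mul (by positivity)]
    refine le_trans ?_ (mul_le_mul_right ((down hA κ measurableSet_ball (sρ.trans D4) i3
      fun x => mul_nonneg (sq_nonneg _) (Qn x)).trans (ENNReal.ofReal_le_ofReal A4)) _)
    rw [← lintegral_const_mul' _ _ ENNReal.ofReal_ne_top]
    refine setLIntegral_mono' measurableSet_ball fun z hz => ?_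
    rw [← ENNReal.ofReal_mul (by positivity), dn (fun x => u x - h x) z (sρ hz),
      rp z (D4 (sρ hz)), mul_left_comm]
    refine ENNReal.ofReal_le_ofReal (le_mul_of_one_le_right (by positivity) ?_)
    rw [div_mul_eq_mul_div, one_le_div a0]
    exact (rr z (sρ hz)).2
  have m3 : ‖w z0 - S.rep T.U h κ z0‖ ^ 2 * Real.exp (-(j * ψ z0)) ≤ 1 / 4 := by
    have := mv.trans (mul_le_mul_right m2 _)
    rw [← ENNReal.ofReal_mul (by positivity), ENNReal.ofReal_le_ofReal_iff (by positivity)] at this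
    refine this.trans (le_of_eq ?_)
    rw [hη]
    field_simp
    norm_num
  have m4 : 1 / 4 ≤ ‖S.rep T.U h κ z0‖ ^ 2 * Real.exp (-(j * ψ z0)) := by
    have E0 := Real.exp_pos (-(j * ψ z0))
    have t1 : ‖w z0 - S.rep T.U h κ z0‖ ≤ ‖w z0‖ / 2 :=
      (pow_le_pow_iff_left₀ (norm_nonneg _) (by positivity) two_ne_zero).1
        (le_of_mul_le_mul_right (by linarith) E0)
    have t2 := norm_le_norm_add_norm_sub' (w z0) (S.rep T.U h κ z0)
    have t3 : (‖w z0‖ / 2) ^ 2 ≤ ‖S.rep T.U h κ z0‖ ^ 2 := by gcongr; linarith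
    nlinarith
  have m5 := dn h z0 (mem_closedBall_self d0.le)
  rw [sy, ← gy, ← ha] at m5
  have g0 := (hA.det y).2.1
  have tri : ∀ x, ‖h x‖ ^ 2 * Q x ^ (-q) ≤ 2 * (‖u x‖ ^ 2 * Q x ^ (-q)) +
      2 * (‖u x - h x‖ ^ 2 * Q x ^ (-q)) := fun x => by
    have t1 : ‖h x‖ ≤ ‖u x‖ + ‖u x - h x‖ := by
      simpa using norm_sub_le (u x) (u x - h x)
    have t2 : ‖h x‖ ^ 2 ≤ 2 * ‖u x‖ ^ 2 + 2 * ‖u x - h x‖ ^ 2 := by
      nlinarith [norm_nonneg (h x), sq_nonneg (‖u x‖ - ‖u x - h x‖)]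
    nlinarith [Qn x]
  have i4 := (i1.const_mul 2).add (i3.const_mul 2)
  have i5 : Integrable (fun x => ‖h x‖ ^ 2 * Q x ^ (-q)) ν :=
    i4.mono' (((hB.ck h (hB.hol_an h h2.1).1).2.measurable.mul
      (hQ.cont.measurable.pow_const _)).aestronglyMeasurable) (Eventually.of_forall fun x => by
        rw [Real.norm_of_nonneg (mul_nonneg (sq_nonneg _) (Qn x))]
        exact tri x)
  have A5 : ∫ x, ‖h x‖ ^ 2 * Q x ^ (-q) ∂ν ≤ (2 * ex * C + 4 * η) * a / Δ := by
    refine (integral_mono i5 i4 tri).trans ?_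
    simp only [Pi.add_apply]
    rw [integral_add (i1.const_mul 2) (i3.const_mul 2), integral_const_mul, integral_const_mul]
    refine (add_le_add (mul_le_mul_of_nonneg_left A1 zero_le_two)
      (mul_le_mul_of_nonneg_left A4 zero_le_two)).trans (le_of_eq ?_)
    ring
  refine ⟨h, h2.1, i5, fun hy0 => ?_, ?_⟩
  · rw [hy0] at m5
    have : 0 < ‖S.rep T.U h κ z0‖ ^ 2 * Real.exp (-(j * ψ z0)) * a := by
      have := mul_le_mul_of_nonneg_right m4 a0.le
      linarith
    simp [← m5] at this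
  · rw [rat, ← lev, ← hH0]
    refine (mul_le_mul_of_nonneg_left A5 (by positivity)).trans
      (le_of_mul_le_mul_left ?_ g0)
    rw [m5]
    refine le_trans (le_of_eq ?_) (mul_le_mul_of_nonneg_right m4 a0.le)
    rw [hΔ]
    field_simp

end Pool.Agent.Lib.MP_813db1_ag.SV
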