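import Pool.Agent.Lib.MP_813db1_ag.SV.Ber0
import Pool.Agent.Lib.MP_813db1_ag.SV.Peak

/-! The count of sections from a singular weight. -/

namespace Pool.Agent.Lib.MP_813db1_ag.SV

theorem berS : BerS := berS0 peakS

end Pool.Agent.Lib.MP_813db1_ag.SV
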