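import Pool.Agent.Lib.MP_813db1_ag.SV.StB
import Pool.Agent.Lib.MP_bbd4b9_ag.NH.Sard

/-! The theorem of Bertini. -/

namespace Pool.Agent.Lib.MP_813db1_ag.SV

open Pool.Agent.Lib.MP_813db1_ag.HS Pool.Agent.Lib.MP_813db1_ag.AS Pool.Agent.Lib.MP_bbd4b9_ag
open Filter Topology Set Metric Module

namespace BrtP

variable {ι : Type} [Fintype ι] {N : ℕ}

/-- the projection of `a` to the hyperplane `s z`. -/
noncomputable def pr (s : Fin N → V ι → ℂ) (j : Fin N) (q : V ι × (Fin N → ℂ)) : Fin N → ℂ :=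
  q.2 - (∑ i, q.2 i * s i q.1) • (Pi.single j 1 : Fin N → ℂ)

/-- the critical values. -/
def cr (s : Fin N → V ι → ℂ) (j : Fin N) : Set (Fin N → ℂ) :=
  pr s j '' {q | AnalyticAt ℂ (pr s j) q ∧ finrank ℂ (fderiv ℂ (pr s j) q).range ≤ N - 1}

theorem mem_cr {s : Fin N → V ι → ℂ} {j : Fin N} {z : V ι} {a : Fin N → ℂ}
    (hs : ∀ i, AnalyticAt ℂ (s i) z) (h1 : s j z = 1) (h0 : ∑ i, a i * s i z = 0)
    (hd : HasFDerivAt (fun w => ∑ i, a i * s i w) (0 : V ι →L[ℂ] ℂ) z) : a ∈ cr s j := by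
  have ha : AnalyticAt ℂ (pr s j) (z, a) := by
    refine analyticAt_snd.sub (AnalyticAt.fun_smul (Finset.analyticAt_fun_sum _ fun i _ => ?_)
      analyticAt_const)
    exact ((ContinuousLinearMap.proj (R := ℂ) (φ := fun _ : Fin N => ℂ) i).analyticAt _).comp
      analyticAt_snd |>.mul ((hs i).comp_of_eq analyticAt_fst rfl)
  refine ⟨(z, a), ⟨ha, ?_⟩, by simp [pr, h0]⟩
  set L := fderiv ℂ (pr s j) (z, a)
  have hL : HasFDerivAt (pr s j) L (z, a) := ha.differentiableAt.hasFDerivAt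
  let l : (Fin N → ℂ) →L[ℂ] ℂ := ∑ i, s i z • ContinuousLinearMap.proj i
  have hl : ∀ b, l b = ∑ i, b i * s i z := fun b => by simp [l, mul_comm]
  have a1 : L.comp (ContinuousLinearMap.inl ℂ _ _) = 0 := by
    refine (hL.comp z (hasFDerivAt_prodMk_left z a)).unique ?_
    simpa [pr] using (hd.smul_const (Pi.single j 1 : Fin N → ℂ)).const_sub a
  have a2 : l.comp (L.comp (ContinuousLinearMap.inr ℂ _ _)) = 0 := by
    refine (l.hasFDerivAt.comp a (hL.comp a (hasFDerivAt_prodMk_right z a))).unique ?_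
    refine (hasFDerivAt_const (0 : ℂ) a).congr_of_eventuallyEq (.of_forall fun b => ?_)
    change l (b - _ • _) = 0
    rw [map_sub, map_smul, hl, hl]
    simp [Pi.single_apply, h1]
  have a3 : L.range ≠ ⊤ := fun h => by
    obtain ⟨⟨u, v⟩, e⟩ := LinearMap.range_eq_top.1 h (Pi.single j 1)
    have b1 : L (u, 0) = 0 := ContinuousLinearMap.ext_iff.1 a1 u
    have b2 : l (L (0, v)) = 0 := ContinuousLinearMap.ext_iff.1 a2 v
    have b3 : L (u, v) = L (u, 0) + L (0, v) := by rw [← map_add]; simp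
    have b4 := congrArg l e
    rw [ContinuousLinearMap.coe_coe, b3, b1, zero_add, b2, hl] at b4
    simp [Pi.single_apply, h1] at b4
  have := Submodule.finrank_lt a3
  rw [finrank_fin_fun] at this
  omega

theorem small {J : Type} [Countable J] (s : J → Fin N → Fin N → V ι → ℂ) (hN : 0 < N) :
    ∃ a : Fin N → ℂ, ‖a‖ < 1 / N ∧ ∀ k j, a ∉ cr (s k j) j := by
  have h : dimH (⋃ k, ⋃ j, cr (s k j) j) < finrank ℝ (Fin N → ℂ) := by
    refine lt_of_le_of_lt (b := ((2 * (N - 1) : ℕ) : ENNReal)) ?_ (Nat.cast_lt.2 ?_)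
    · simp only [dimH_iUnion]
      exact iSup_le fun k => iSup_le fun j => NH.sard_rk _ _
    · rw [finrank_real_of_complex, finrank_fin_fun]
      omega
  obtain ⟨a, h1, h2⟩ := (dense_compl_of_dimH_lt_finrank h).exists_mem_open isOpen_ball
    (nonempty_ball.2 (show (0 : ℝ) < 1 / N by positivity) : (ball (0 : Fin N → ℂ) _).Nonempty)
  exact ⟨a, mem_ball_zero_iff.1 h2, fun k j hk => h1 (mem_iUnion₂.2 ⟨k, j, hk⟩)⟩

end BrtP

open BrtP in
theorem brtS : BrtS := by
  intro ι X _ _ _ _ M g N σ hP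
  rcases Nat.eq_zero_or_pos N with rfl | hN
  · exact ⟨0, fun _ _ _ _ j => j.elim0, by simp, fun _ _ _ _ j => j.elim0⟩
  obtain ⟨T, hT⟩ := CompactSpace.elim_nhds_subcover (fun x => (M.ch x).source)
    fun x => (M.ch x).open_source.mem_nhds (M.mem x)
  obtain ⟨a, ha, hc⟩ := small (J := T)
    (fun x j i w => σ i ((M.ch x).symm w) / σ j ((M.ch x).symm w)) hN
  have key : ∀ j x, (∑ i, a i * σ i x) / σ j x = ∑ i, a i * (σ i x / σ j x) := fun j x => by
    simp only [Finset.sum_div, mul_div_assoc]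
  refine ⟨fun x => ∑ i, a i * σ i x, fun e he z hz j hj t ht => ?_, fun x => ?_,
    fun e he z hz j hj h0 hd => ?_⟩
  · refine (Finset.analyticAt_fun_sum Finset.univ fun i _ =>
      (analyticAt_const (v := a i)).mul (hP.an e he z hz j hj i)).congr ?_
    filter_upwards [ht.2] with w hw
    rw [pow_zero, one_mul, pow_one, show t w = e.symm w from hw, inv_mul_eq_div, key]
    rfl
  · refine (norm_sum_le _ _).trans ((Finset.sum_le_card_nsmul _ _ (1 / N : ℝ) fun i _ => ?_).trans ?_)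
    · have h1 : ‖σ i x‖ ^ 2 ≤ 1 := (hP.nrm x).symm ▸
        Finset.single_le_sum (f := fun i => ‖σ i x‖ ^ 2) (fun _ _ => by positivity)
          (Finset.mem_univ i)
      rw [norm_mul]
      exact (mul_le_of_le_one_right (norm_nonneg _)
        ((sq_le_one_iff₀ (norm_nonneg _)).1 h1)).trans ((norm_le_pi_norm a i).trans ha.le)
    · have : (N : ℝ) ≠ 0 := by positivity
      simp [this]
  · obtain ⟨x, hx, hm⟩ := mem_iUnion₂.1 (hT.ge (mem_univ (e.symm z)))
    have hz' := e.map_target hz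
    have e1 : (M.ch x).symm (M.ch x (e.symm z)) = e.symm z := (M.ch x).left_inv hm
    have e2 : (e ∘ (M.ch x).symm) (M.ch x (e.symm z)) = z := by
      rw [Function.comp_apply, e1, e.right_inv hz]
    refine hc ⟨x, hx⟩ j (mem_cr (z := M.ch x (e.symm z))
      (hP.an _ (M.ch_mem x) _ ((M.ch x).map_source hm) j (by rwa [e1])) ?_ ?_ ?_)
    · simp only [e1, div_self hj]
    · simp only [e1, ← key, h0, zero_div]
    · have h1 : HasFDerivAt (fun w => (∑ i, a i * σ i (e.symm w)) / σ j (e.symm w))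
          (0 : V ι →L[ℂ] ℂ) ((e ∘ (M.ch x).symm) (M.ch x (e.symm z))) := by
        rw [e2, ← hd]
        simp only [key]
        exact (Finset.analyticAt_fun_sum Finset.univ fun i _ => (analyticAt_const (v := a i)).mul
          (hP.an e he z hz j hj i)).differentiableAt.hasFDerivAt
      have h2 := h1.comp _ (M.hol _ (M.ch_mem x) e he _ hm hz').differentiableAt.hasFDerivAt
      rw [ContinuousLinearMap.zero_comp] at h2
      refine h2.congr_of_eventuallyEq ?_
      have h3 : ∀ᶠ w in 𝓝 (M.ch x (e.symm z)), (M.ch x).symm w ∈ e.source :=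
        ((M.ch x).continuousAt_symm ((M.ch x).map_source hm)).eventually
          (e.open_source.mem_nhds (by rwa [e1]))
      filter_upwards [h3] with w hw
      simp only [Function.comp_apply, e.left_inv hw, key]

end Pool.Agent.Lib.MP_813db1_ag.SV
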