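import Pool.Agent.Lib.MP_813db1_ag.SV.StB

/-! The descent from `K + t L` to `K`. -/

namespace Pool.Agent.Lib.MP_813db1_ag.SV

open Filter Topology Set

theorem endS : EndS := by
  intro n c Cn Ef hn hc mono ef ⟨k₀, h₀⟩ up dn
  let A : Set ℝ := {x | ∃ m k : ℕ, 1 ≤ m ∧ Ef m k ∧ x = k / m}
  have bd : BddBelow A := ⟨0, by
    rintro _ ⟨m, k, -, -, rfl⟩
    positivity⟩
  obtain ⟨C, C0, hC⟩ := dn (sInf A + 1)
  obtain ⟨δ, δ0, δ1, δ2⟩ : ∃ δ : ℝ, 0 < δ ∧ 2 * δ ≤ 1 ∧ 2 * δ * C ≤ c / 4 := by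
    refine ⟨min (1 / 2) (c / (8 * (C + 1))), by positivity, ?_, ?_⟩
    · linarith [min_le_left (1 / 2) (c / (8 * (C + 1)))]
    · have := min_le_right (1 / 2) (c / (8 * (C + 1)))
      rw [le_div_iff₀ (by positivity)] at this
      have : 0 ≤ min (1 / 2) (c / (8 * (C + 1))) := by positivity
      nlinarith
  obtain ⟨_, ⟨m, k, m1, e, rfl⟩, lt⟩ := exists_lt_of_csInf_lt (s := A) ⟨_, 1, k₀, le_rfl, h₀, rfl⟩
    (lt_add_of_pos_right _ δ0)
  filter_upwards [up m k m1 e δ δ0, eventually_ge_atTop 1,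
    tendsto_natCast_atTop_atTop.eventually_ge_atTop (4 * C / c)] with j ⟨b, hb, h⟩ j1 jC
  have j0 : (0 : ℝ) < j := Nat.cast_pos.2 j1
  have hb : (b : ℝ) ≤ j * (sInf A + 2 * δ) :=
    hb.trans (mul_le_mul_of_nonneg_left (by linarith) j0.le)
  have st : ∀ d a : ℕ, a + d = b → Cn j a (c * (j : ℝ) ^ n - d * (C * (j : ℝ) ^ (n - 1))) := by
    intro d
    induction d with
    | zero => exact fun a e => by simpa [← e] using h
    | succ d ih =>
      intro a e
      have ab : (a : ℝ) + 1 ≤ b := by exact_mod_cast (by omega : a + 1 ≤ b)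
      refine mono _ _ _ _ (le_of_eq ?_) (hC j a _ j1 (by nlinarith) (ih (a + 1) (by omega)))
      push_cast
      ring
  have fin : ∀ d a : ℕ, a + d = b → (d : ℝ) ≤ 2 * δ * j + 1 → Cn j a (c / 2 * (j : ℝ) ^ n) := by
    intro d a e hd
    refine mono _ _ _ _ ?_ (st d a e)
    have p : (j : ℝ) ^ n = j * (j : ℝ) ^ (n - 1) := by
      rw [← pow_succ', Nat.sub_add_cancel hn]
    rw [div_le_iff₀ hc] at jC
    have q : d * C ≤ c / 2 * j := by nlinarith
    have : 0 ≤ (j : ℝ) ^ (n - 1) := by positivity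
    rw [p]
    nlinarith
  have fl := Nat.floor_le (show 0 ≤ 2 * δ * j by positivity)
  rcases le_total b (⌊2 * δ * j⌋₊ + 1) with g | g
  · refine fin b 0 (zero_add b) (le_trans ?_ (add_le_add_left fl 1))
    exact_mod_cast g
  · obtain ⟨a, rfl⟩ := Nat.exists_eq_add_of_le' g
    have := csInf_le bd ⟨j, a, j1, ef _ _ _ (by positivity)
      (fin _ a rfl (by push_cast; linarith)), rfl⟩
    rw [le_div_iff₀ j0] at this
    have := Nat.lt_floor_add_one (2 * δ * j)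
    push_cast at hb
    nlinarith

end Pool.Agent.Lib.MP_813db1_ag.SV
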