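import Pool.Agent.Lib.MP_813db1_ag.AN.Pole
import Pool.Agent.Lib.MP_813db1_ag.AN.Ser
import Pool.Agent.Lib.MP_813db1_ag.HS.Max

/-! The family: the local inequalities. -/

namespace Pool.Agent.Lib.MP_813db1_ag.SV.FamL

open Pool.Agent.Lib.MP_813db1_ag.HS Pool.Agent.Lib.MP_813db1_ag.AN
open Complex Matrix Filter Topology
open scoped ContDiff ComplexOrder

variable {ι : Type} [Fintype ι] [DecidableEq ι] {u P Q : V ι → ℝ} {z v : V ι} {B a b : ℝ}

/-- the Levi form of a real function. -/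
noncomputable def L (u : V ι → ℝ) (z v : V ι) : ℝ := nV (levi (fun w => (u w : ℂ)) z) v

/-- a form that is linear in `u`. -/
noncomputable def T (u : V ι → ℝ) (z v : V ι) (B a b : ℝ) : ℝ :=
  L u z v + B * u z - (a * fderiv ℝ u z v + b * fderiv ℝ u z (I • v)) / 2 +
    (a ^ 2 + b ^ 2) / 4 * u z

theorem fd (hu : DifferentiableAt ℝ u z) (v : V ι) :
    fderiv ℝ u z v = 2 * (∑ i, dz (fun w => (u w : ℂ)) i z * v i).re := by
  have e : fderiv ℝ (fun w => (u w : ℂ)) z v = (fderiv ℝ u z v : ℝ) := by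
    have := (ofRealCLM.hasFDerivAt.comp z hu.hasFDerivAt).fderiv
    exact congrArg (fun A => A v) this
  have h := congrArg re (fderiv_eq_dz (fun w => (u w : ℂ)) z v)
  rw [e, ofReal_re] at h
  rw [h, re_sum, re_sum, Finset.mul_sum]
  refine Finset.sum_congr rfl fun i _ => ?_
  rw [dzb_ofReal, ← star_mul', add_re, star_def, conj_re]
  ring

theorem nsq (hu : DifferentiableAt ℝ u z) (v : V ι) :
    ‖∑ i, dz (fun w => (u w : ℂ)) i z * v i‖ ^ 2 =
      (fderiv ℝ u z v ^ 2 + fderiv ℝ u z (I • v) ^ 2) / 4 := by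
  have e : ∑ i, dz (fun w => (u w : ℂ)) i z * (I • v) i =
      I * ∑ i, dz (fun w => (u w : ℂ)) i z * v i := by
    rw [Finset.mul_sum]
    exact Finset.sum_congr rfl fun i _ => by rw [Pi.smul_apply, smul_eq_mul]; ring
  rw [fd hu, fd hu, e, I_mul_re, ← normSq_eq_norm_sq, normSq_apply]
  ring

theorem L_congr (h : P =ᶠ[𝓝 z] Q) : L P z v = L Q z v := by
  rw [L, L, levi_congr (h.mono fun w hw => by rw [hw])]

theorem L_add (hP : ContDiffAt ℝ 2 P z) (hQ : ContDiffAt ℝ 2 Q z) :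
    L (fun w => P w + Q w) z v = L P z v + L Q z v := by
  simp only [L, ofReal_add]
  rw [levi_add (contDiffAt_ofReal.2 hP) (contDiffAt_ofReal.2 hQ), Pole.nV_add]

theorem L_mul (c : ℝ) (hP : ContDiffAt ℝ 2 P z) : L (fun w => c * P w) z v = c * L P z v := by
  simp only [L, ofReal_mul]
  rw [levi_cmul _ (contDiffAt_ofReal.2 hP), Pole.nV_smul]

theorem L_const (c : ℝ) : L (fun _ => c) z v = 0 := by
  simp [L, levi_const, nV, ipV]

theorem L_log (hu : ContDiffAt ℝ 2 u z) (h : 0 < u z) : L (fun w => Real.log (u w)) z v =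
    L u z v / u z - (fderiv ℝ u z v ^ 2 + fderiv ℝ u z (I • v) ^ 2) / (4 * u z ^ 2) := by
  rw [L, Pole.levi_chain (Real.contDiffAt_log.2 h.ne') hu, Pole.nV_add, Pole.nV_smul,
    Pole.nV_smul, Pole.nV_rank, nsq (hu.differentiableAt two_ne_zero), Real.deriv_log',
    deriv_inv, L]
  field_simp
  ring

theorem T_eq (hu : ContDiffAt ℝ 2 u z) (h : 0 < u z) :
    T u z v B a b = u z * (L (fun w => Real.log (u w)) z v + B) +
      ((fderiv ℝ u z v - a * u z) ^ 2 + (fderiv ℝ u z (I • v) - b * u z) ^ 2) / (4 * u z) := by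
  rw [T, L_log hu h]
  field_simp
  ring

theorem T_add (hP : ContDiffAt ℝ 2 P z) (hQ : ContDiffAt ℝ 2 Q z) :
    T (fun w => P w + Q w) z v B a b = T P z v B a b + T Q z v B a b := by
  simp only [T, L_add hP hQ, fderiv_fun_add (hP.differentiableAt two_ne_zero)
    (hQ.differentiableAt two_ne_zero), _root_.add_apply]
  ring

theorem T_nonneg (hP : ContDiffAt ℝ 2 P z) (h0 : ∀ w, 0 ≤ P w)
    (h : 0 < P z → 0 ≤ L (fun w => Real.log (P w)) z v + B) : 0 ≤ T P z v B a b := by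
  rcases (h0 z).eq_or_lt with e | e
  · have hm : IsLocalMin P z := Eventually.of_forall fun w => e ▸ h0 w
    have h1 := Mat.nv_mono (maxS.loc ι (fun w => -P w) z hP.neg hm.neg) v
    simp only [ofReal_neg] at h1
    rw [levi_neg, neg_neg] at h1
    simpa [T, ← e, hm.fderiv_eq_zero, L] using h1
  · rw [T_eq hP e]
    have := h e
    positivity

/-- the curvature of a sum. -/
theorem two (hP : ContDiffAt ℝ 2 P z) (hQ : ContDiffAt ℝ 2 Q z) (h0 : ∀ w, 0 ≤ P w)
    (h : 0 < P z → 0 ≤ L (fun w => Real.log (P w)) z v + B) (hq : 0 < Q z) {c : ℝ}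
    (h' : -c ≤ L (fun w => Real.log (Q w)) z v + B) :
    -(c * Q z) ≤ (P z + Q z) * (L (fun w => Real.log (P w + Q w)) z v + B) := by
  have hW : 0 < P z + Q z := add_pos_of_nonneg_of_pos (h0 z) hq
  have e := T_eq (v := v) (B := B) (a := fderiv ℝ (fun w => P w + Q w) z v / (P z + Q z))
    (b := fderiv ℝ (fun w => P w + Q w) z (I • v) / (P z + Q z)) (hP.add hQ) hW
  rw [div_mul_cancel₀ _ hW.ne', div_mul_cancel₀ _ hW.ne', sub_self, sub_self, T_add hP hQ,
    T_eq hQ hq] at e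
  have h1 := T_nonneg (a := fderiv ℝ (fun w => P w + Q w) z v / (P z + Q z))
    (b := fderiv ℝ (fun w => P w + Q w) z (I • v) / (P z + Q z)) hP h0 h
  have h2 := mul_le_mul_of_nonneg_left h' hq.le
  have h3 : ∀ x y : ℝ, 0 ≤ (x ^ 2 + y ^ 2) / (4 * Q z) := fun x y => by positivity
  have h4 := h3 (fderiv ℝ Q z v - fderiv ℝ (fun w => P w + Q w) z v / (P z + Q z) * Q z)
    (fderiv ℝ Q z (I • v) - fderiv ℝ (fun w => P w + Q w) z (I • v) / (P z + Q z) * Q z)
  simp only [ne_eq, OfNat.ofNat_ne_zero, not_false_eq_true, zero_pow, add_zero, zero_div] at e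
  linarith

/-- the curvature of a power of a sum. -/
theorem pw (hP : ContDiffAt ℝ 2 P z) (hQ : ContDiffAt ℝ 2 Q z) (h0 : ∀ w, 0 ≤ P w)
    (h : 0 < P z → 0 ≤ L (fun w => Real.log (P w)) z v + B) (hq : 0 < Q z) {c s : ℝ} (hc : 0 ≤ c)
    (h' : -c ≤ L (fun w => Real.log (Q w)) z v + B) (s0 : 0 < s) (s1 : s ≤ 1) :
    -(s * c * Q z ^ s) ≤ (P z + Q z) ^ s *
      (L (fun w => Real.log ((P w + Q w) ^ s)) z v + s * B) := by
  have hW : 0 < P z + Q z := add_pos_of_nonneg_of_pos (h0 z) hq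
  have e : (fun w => Real.log ((P w + Q w) ^ s)) =ᶠ[𝓝 z] fun w => s * Real.log (P w + Q w) :=
    ((hP.add hQ).continuousAt.eventually (lt_mem_nhds hW)).mono fun w hw => Real.log_rpow hw s
  rw [L_congr e, L_mul s ((hP.add hQ).log hW.ne'), ← mul_add]
  have h1 := two hP hQ h0 h hq h'
  have h2 : (P z + Q z) ^ (s - 1) ≤ Q z ^ (s - 1) :=
    Real.rpow_le_rpow_of_nonpos hq (le_add_of_nonneg_left (h0 z)) (sub_nonpos.2 s1)
  have h3 : (P z + Q z) ^ s = (P z + Q z) ^ (s - 1) * (P z + Q z) := by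
    rw [Real.rpow_sub_one hW.ne', div_mul_cancel₀ _ hW.ne']
  have h4 : Q z ^ s = Q z ^ (s - 1) * Q z := by
    rw [Real.rpow_sub_one hq.ne', div_mul_cancel₀ _ hq.ne']
  have h5 := mul_le_mul_of_nonneg_left h1 (mul_pos s0 (Real.rpow_pos_of_pos hW (s - 1))).le
  have h6 := mul_le_mul_of_nonneg_left h2 (by positivity : 0 ≤ s * c * Q z)
  rw [h3, h4]
  nlinarith

omit [DecidableEq ι] in
theorem d_sqrt {N : V ι → ℝ} (hu : DifferentiableAt ℝ u z) (hN : DifferentiableAt ℝ N z)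
    (h : 0 < u z) (h' : 0 < N z) : fderiv ℝ (fun w => √(u w / N w)) z v ^ 2 =
      (fderiv ℝ u z v - fderiv ℝ N z v / N z * u z) ^ 2 / (4 * u z) / N z := by
  have h0 : 0 < u z / N z := div_pos h h'
  have h1 := hu.hasFDerivAt.fun_mul ((hasDerivAt_inv h'.ne').comp_hasFDerivAt z hN.hasFDerivAt)
  simp only [Function.comp_apply, ← div_eq_mul_inv] at h1
  rw [(h1.sqrt h0.ne').fderiv]
  simp only [_root_.smul_apply, _root_.add_apply, smul_eq_mul, mul_pow, div_pow, one_pow,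
    Real.sq_sqrt h0.le]
  field_simp
  ring

/-- the Fisher metric of a family is bounded by the curvature of the sum. -/
theorem fisher {G : Type} {F : G → V ι → ℝ} {N : V ι → ℝ} {e : G → ℝ} {E : ℝ}
    (hF : ∀ γ, ContDiffAt ℝ 2 (F γ) z ∧ 0 < F γ z) (hN : ContDiffAt ℝ 2 N z) (h0 : 0 < N z)
    (s0 : HasSum (fun γ => F γ z) (N z))
    (s1 : ∀ v, HasSum (fun γ => fderiv ℝ (F γ) z v) (fderiv ℝ N z v))
    (s2 : HasSum (fun γ => L (F γ) z v) (L N z v)) (se : HasSum e E)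
    (h : ∀ γ, -e γ ≤ F γ z * (L (fun w => Real.log (F γ w)) z v + B)) (A : Finset G) :
    ∑ γ ∈ A, fderiv ℝ (fun w => √(F γ w / N w)) z v ^ 2 ≤
      L (fun w => Real.log (N w)) z v + B + E / N z := by
  set a := fderiv ℝ N z v / N z with ha
  set b := fderiv ℝ N z (I • v) / N z with hb
  have sT : HasSum (fun γ => (T (F γ) z v B a b + e γ) / N z) ((T N z v B a b + E) / N z) :=
    (((((s2.add (s0.mul_left B)).sub ((((s1 v).mul_left a).add
      ((s1 (I • v)).mul_left b)).div_const 2)).add (s0.mul_left _))).add se).div_const _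
  have key : ∀ γ, fderiv ℝ (fun w => √(F γ w / N w)) z v ^ 2 ≤
      (T (F γ) z v B a b + e γ) / N z := fun γ => by
    obtain ⟨c, p⟩ := hF γ
    rw [d_sqrt (c.differentiableAt two_ne_zero) (hN.differentiableAt two_ne_zero) p h0, T_eq c p,
      add_div _ _ (4 * F γ z)]
    refine div_le_div_of_nonneg_right ?_ h0.le
    have : 0 ≤ (fderiv ℝ (F γ) z (I • v) - b * F γ z) ^ 2 / (4 * F γ z) := by positivity
    linarith [h γ]
  refine ((Finset.sum_le_sum fun γ _ => key γ).trans (sum_le_hasSum A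
    (fun γ _ => (sq_nonneg _).trans (key γ)) sT)).trans_eq ?_
  rw [T_eq hN h0, ha, hb, div_mul_cancel₀ _ h0.ne', div_mul_cancel₀ _ h0.ne']
  field_simp
  ring

/-- the square of a holomorphic function times a weight. -/
theorem hol {f : V ι → ℂ} {φ : V ι → ℝ} (hf : AnalyticAt ℂ f z) (hφ : ContDiffAt ℝ 2 φ z)
    (e : P =ᶠ[𝓝 z] fun w => ‖f w‖ ^ 2 * Real.exp (-φ w)) : ContDiffAt ℝ 2 P z ∧
      (0 < P z → 0 ≤ L (fun w => Real.log (P w)) z v + L φ z v) := by
  obtain ⟨c1, c2⟩ := serF (κ := Unit) (F := fun _ => f) (z := z) fun _ =>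
    hf.eventually_analyticAt.mono fun _ h => h.differentiableAt
  simp only [Finset.univ_unique, Finset.sum_singleton] at c1 c2
  have c3 : ContDiffAt ℝ 2 (fun w => ‖f w‖ ^ 2) z := c1.of_le (by norm_cast)
  refine ⟨(c3.mul hφ.neg.exp).congr_of_eventuallyEq e, fun h => ?_⟩
  have h1 : 0 < ‖f z‖ ^ 2 := pos_of_mul_pos_left (h.trans_eq e.self_of_nhds)
    (Real.exp_pos _).le
  have e2 : (fun w => Real.log (P w)) =ᶠ[𝓝 z] fun w => Real.log (‖f w‖ ^ 2) + -1 * φ w := by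
    filter_upwards [e, c3.continuousAt.eventually (lt_mem_nhds h1)] with w h2 h3
    rw [h2, Real.log_mul h3.ne' (Real.exp_pos _).ne', Real.log_exp, neg_one_mul]
  rw [L_congr e2, L_add (c3.log h1.ne') (contDiffAt_const.mul hφ), L_mul _ hφ]
  have := Mat.nv_mono (c2 h1) v
  rw [L]
  linarith

end Pool.Agent.Lib.MP_813db1_ag.SV.FamL
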