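import Pool.Agent.Lib.MP_813db1_ag.SV.FamD
import Pool.Agent.Lib.MP_813db1_ag.SV.FamL
import Pool.Agent.Lib.MP_813db1_ag.AN.Poi

/-! The family of measures and its Fisher metric. -/

namespace Pool.Agent.Lib.MP_813db1_ag.SV

open Pool.Agent.Lib.MP_813db1_ag.HS Pool.Agent.Lib.MP_813db1_ag.AS Pool.Agent.Lib.MP_813db1_ag.AN
open MeasureTheory Complex Matrix Filter Topology
open scoped ContDiff ComplexOrder

namespace FamL

variable {ι X Y G : Type} [Fintype ι] [DecidableEq ι] [TopologicalSpace X] [TopologicalSpace Y]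
  {M : Atl ι X} {g : X → Mat ι} {e : Ch ι X} {z : V ι}

theorem nv_th (a b : ℝ) (v : V ι) : nV (M.repF (th M g a b) e z) v =
    -a * nV (M.repF (M.ricF g) e z) v + b * nV (M.repF g e z) v := by
  rw [← Pole.nV_smul, ← Pole.nV_smul, ← Pole.nV_add]
  simp only [Atl.repF, th, pull, Matrix.mul_add, Matrix.add_mul, Matrix.mul_smul, Matrix.smul_mul,
    Matrix.mul_neg, Matrix.neg_mul, ofReal_neg, smul_neg, neg_smul]

theorem nv_ddc (β : X → Mat ι) {u : X → ℝ} (he : e ∈ M.A) (hz : z ∈ e.target)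
    (hu : ContDiffAt ℝ 2 (fun w => u (e.symm w)) z) (v : V ι) :
    nV (M.repF (fun x => β x + M.ddc u x) e z) v =
      nV (M.repF β e z) v + L (fun w => u (e.symm w)) z v := by
  have h := (AY.repB' ι X M).ddc_rep u e he _ (e.map_target hz) (by
    rw [e.right_inv hz]; exact contDiffAt_ofReal.2 hu)
  rw [e.right_inv hz] at h
  rw [L, ← Pole.nV_add]
  refine congrArg (fun B => nV B v) (Eq.trans ?_ (congrArg (M.repF β e z + ·) h))
  simp only [Atl.repF, pull, Matrix.mul_add, Matrix.add_mul]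

theorem herm_th (hg : M.IsK g) (a b : ℝ) (x : X) : (th M g a b x).IsHermitian := by
  have ha := AY.repA' ι X M
  have h1 := ha.herm _ (ha.clF_smul (-a) _ ((AY.repB' ι X M).ric_cl g hg)) x
  have h2 := ha.herm _ (ha.clF_smul b _ ((ha.isK_iff g).1 hg).1) x
  simpa only [th, ofReal_neg, smul_neg, neg_smul] using h1.add h2

/-- the weight of the local frame. -/
theorem frame {n : ℕ} {σ : Fin n → X → ℂ} (hg : M.IsK g) (hσ : Prj M g σ) (he : e ∈ M.A)
    (hz : z ∈ e.target) {j : Fin n} (hj : σ j (e.symm z) ≠ 0) (m k : ℕ) :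
    ∃ φ : V ι → ℝ, ContDiffAt ℝ 2 φ z ∧ (∀ v, L φ z v = nV (M.repF (th M g m k) e z) v) ∧
      ∀ᶠ w in 𝓝 z, ∀ c : ℂ, ‖c‖ ^ 2 =
        ‖vK M g e (e.symm w) ^ m * (σ j (e.symm w))⁻¹ ^ k * c‖ ^ 2 * Real.exp (-φ w) := by
  have ha := AY.repA' ι X M
  have ev := F1.ev hz (hσ.op j) hj
  have hd : ∀ w ∈ e.target, 0 < (M.repF g e w).det.re := fun w hw =>
    (mat.det ι _ ((hg e he).2 w hw)).1
  have c1 : ContDiffAt ℝ 2 (fun w => Real.log (M.repF g e w).det.re) z :=
    (reCLM.contDiff.contDiffAt.comp z ((hg e he).1.1.cd2 hz).det).log (hd z hz).ne'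
  have e2 : ∀ x, σ j x ≠ 0 → ∑ i, ‖σ i x / σ j x‖ ^ 2 = (‖σ j x‖ ^ 2)⁻¹ := fun x hx => by
    simp only [norm_div, div_pow]
    rw [← Finset.sum_div, hσ.nrm, one_div]
  have c2 : ContDiffAt ℝ 2 (fun w => -Real.log (‖σ j (e.symm w)‖ ^ 2)) z := by
    refine ((ContDiffAt.sum fun i (_ : i ∈ Finset.univ) => ((hσ.an e he z hz j hj
      i).contDiffAt.restrict_scalars ℝ).norm_sq ℂ).log ?_).congr_of_eventuallyEq
      (ev.mono fun w hw => ?_)
    · rw [e2 _ hj]
      exact inv_ne_zero (pow_ne_zero 2 (norm_ne_zero_iff.2 hj))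
    · simp only [e2 _ hw.2, Real.log_inv]
  refine ⟨fun w => m * Real.log (M.repF g e w).det.re + k * -Real.log (‖σ j (e.symm w)‖ ^ 2),
    (contDiffAt_const.mul c1).add (contDiffAt_const.mul c2), fun v => ?_,
    ev.mono fun w hw c => ?_⟩
  · rw [L_add (contDiffAt_const.mul c1) (contDiffAt_const.mul c2), L_mul _ c1, L_mul _ c2, nv_th,
      (AY.repB' ι X M).ric_rep g hg e he z hz, L, L, ← hσ.lv e he z hz j hj, ric,
      ← neg_one_smul ℂ (levi _ z), ← ofReal_one, ← ofReal_neg, Pole.nV_smul]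
    ring
  · have h1 : ‖vK M g e (e.symm w)‖ ^ 2 = (M.repF g e w).det.re := by
      rw [Atl.repF, (mat.pull_pd ι _ _ (ha.tj_det e he _ (M.ch_mem _) _ (e.map_target hw.1)
        (M.mem _))).2.2.2.1, re_ofReal_mul, vK, norm_mul, mul_pow, norm_real, Real.norm_eq_abs,
        sq_abs, Real.sq_sqrt (mat.det ι _ (((ha.isK_iff g).1 hg).2 _)).1.le]
    have h2 : 0 < ‖σ j (e.symm w)‖ ^ 2 := pow_pos (norm_pos_iff.2 hw.2) 2
    have h3 := hd w hw.1
    rw [norm_mul, norm_mul, norm_pow, norm_pow, norm_inv, mul_pow, mul_pow, pow_right_comm _ m,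
      pow_right_comm _ k, h1, inv_pow, Real.exp_neg, Real.exp_add, Real.exp_nat_mul,
      Real.exp_nat_mul, Real.exp_neg, Real.exp_log h3, Real.exp_log h2]
    field_simp

omit [TopologicalSpace X] in
theorem lp_two [SMul G Y] {s : Y → ℂ} {r : ℝ} (r0 : 0 < r) (r2 : r ≤ 2)
    (h : Lp G fun y => ‖s y‖ ^ r) : Lp G fun y => ‖s y‖ ^ 2 := fun K hK => by
  obtain ⟨b, hb, h⟩ := h K hK
  refine ⟨fun γ => |b γ| * (∑' γ, |b γ|) ^ (2 / r - 1), hb.abs.mul_right _, fun γ y hy => ?_⟩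
  have h1 : ‖s (γ • y)‖ ^ r ≤ |b γ| := (h γ y hy).trans (le_abs_self _)
  have h0 : 0 ≤ 2 / r - 1 := sub_nonneg.2 ((one_le_div r0).2 r2)
  have h2 : 0 ≤ ‖s (γ • y)‖ ^ r := by positivity
  have e : ‖s (γ • y)‖ ^ 2 = ‖s (γ • y)‖ ^ r * (‖s (γ • y)‖ ^ r) ^ (2 / r - 1) := by
    rw [← Real.rpow_one_add' h2 (by rw [add_sub_cancel]; positivity), add_sub_cancel,
      ← Real.rpow_mul (norm_nonneg _), mul_div_cancel₀ _ r0.ne', Real.rpow_two]
  simp only [e]
  exact mul_le_mul h1 (Real.rpow_le_rpow h2 (h1.trans (hb.abs.le_tsum γ fun _ _ => abs_nonneg _))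
    h0) (by positivity) (abs_nonneg _)

theorem low {P F : G → ℝ} {ρ N s : ℝ} (hP : HasSum P ρ) (hF : HasSum F N) (h0 : ∀ γ, 0 ≤ P γ)
    (h : ∀ γ, P γ ^ s ≤ F γ) (s0 : 0 < s) (s1 : s ≤ 1) : ρ ^ s ≤ N := by
  rcases (hP.nonneg h0).eq_or_lt with e | e
  · rw [← e, Real.zero_rpow s0.ne']
    exact hF.nonneg fun γ => (Real.rpow_nonneg (h0 γ) s).trans (h γ)
  have es : ∀ x : ℝ, 0 < x → x ^ s = x * x ^ (s - 1) := fun x hx => by
    rw [Real.rpow_sub_one hx.ne', mul_div_cancel₀ _ hx.ne']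
  rw [es ρ e]
  refine hasSum_le (fun γ => le_trans ?_ (h γ)) (hP.mul_right _) hF
  rcases (h0 γ).eq_or_lt with e' | e'
  · rw [← e', zero_mul, Real.zero_rpow s0.ne']
  rw [es _ e']
  exact mul_le_mul_of_nonneg_left (Real.rpow_le_rpow_of_nonpos e'
    (le_hasSum hP γ fun _ _ => h0 _) (sub_nonpos.2 s1)) e'.le

end FamL

open FamL

/-- the family. -/
theorem famS (hR : FamR) (hρ : RhoS) : FamS := by
  intro ι X Y G _ _ _ _ _ _ _ _ _ _ _ M g μ n σ p m k r ε s hg hμ hσ hp r0 r2 hε hs hs0 hL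
  obtain ⟨ρ, ρs, ρq, ρn⟩ := hρ ι X Y G M g μ n σ p m k s hg hμ hσ hp hs hs0 (lp_two r0 r2 hL)
  obtain ⟨l, A, C, hW, hN⟩ := hR ι X Y G M g _ n σ p m k r s ρ hg hσ hp r0 hs hL ρq
  obtain ⟨hA, hC⟩ := hW.nn
  have s0 : 0 < r / 2 := half_pos r0
  have s1 : r / 2 ≤ 1 := by linarith
  have hη : 0 < ε / (C * A + 1) := by positivity
  obtain ⟨δ, hδ, eδ⟩ : ∃ δ > (0 : ℝ), δ ^ (r / 2) = ε / (C * A + 1) :=
    ⟨_, Real.rpow_pos_of_pos hη _, Real.rpow_inv_rpow hη.le s0.ne'⟩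
  obtain ⟨N, hN⟩ := hN δ hδ
  have two : (2 : WithTop ℕ∞) ≤ ∞ := by norm_cast
  have q0 : ∀ y, 0 ≤ δ * Real.exp (2 / r * l y) * ρ (p y) := fun y =>
    mul_nonneg (by positivity) (ρq.nn _)
  have nn : ∀ y, 0 ≤ Ff s l ρ p r δ y := fun y =>
    Real.rpow_nonneg (add_nonneg (sq_nonneg _) (q0 y)) _
  have lo : ∀ x, ρ x ^ (r / 2) ≤ N x := fun x => by
    obtain ⟨y, rfl⟩ := hp.surjective x
    exact low (ρs y) (hN.sum y) (fun _ => sq_nonneg _) (fun γ => Real.rpow_le_rpow (sq_nonneg _)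
      (le_add_of_nonneg_right (q0 _)) s0.le) s0 s1
  have pos : ∀ x, 0 < N x → 0 < ρ x := fun x hx => (ρq.nn x).lt_of_ne fun h => hx.ne' <| by
    obtain ⟨y, rfl⟩ := hp.surjective x
    refine (hN.sum y).unique ((funext fun γ => ?_ : (fun γ : G => Ff s l ρ p r δ (γ • y)) =
      fun _ => 0) ▸ hasSum_zero)
    have h1 := le_hasSum (ρs y) γ fun _ _ => sq_nonneg _
    rw [← h] at h1
    rw [Ff, hp.map_smul, ← h, h1.antisymm (sq_nonneg _), mul_zero, add_zero, Real.zero_rpow s0.ne']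
  have fp : ∀ y, 0 < ρ (p y) → 0 < Ff s l ρ p r δ y := fun y hy =>
    Real.rpow_pos_of_pos (add_pos_of_nonneg_of_pos (sq_nonneg _) (by positivity)) _
  have fis : ∀ e ∈ M.A, ∀ z ∈ e.target, 0 < N (e.symm z) → ∀ t, F12.Sec p e z t →
      ∀ (S : Finset G) (v : V ι),
      ∑ γ ∈ S, fderiv ℝ (fun w => √(Ff s l ρ p r δ (γ • t w) / N (e.symm w))) z v ^ 2 ≤
        nV (M.repF (fun x => th M g (r / 2 * m) (r / 2 * k + ε) x +
          M.ddc (fun y => Real.log (N y)) x) e z) v := fun e he z hz h0 t ht S v => by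
    have h1 := pos _ h0
    have cN := (hN.smN e he z hz h1).of_le two
    have cρ : ContDiffAt ℝ 2 (fun w => ρ (e.symm w)) z :=
      contDiffAt_ofReal.1 ((ρq.sm e he z hz h1).of_le two)
    have hq := Mat.nv_mono ((hg e he).2 z hz).posSemidef v
    have pt : ∀ γ : G, p (γ • t z) = e.symm z := fun γ => (ht.smul hp γ).2.self_of_nhds
    obtain ⟨j, hj⟩ : ∃ j, σ j (e.symm z) ≠ 0 := by
      by_contra! h
      simpa [h] using hσ.nrm (e.symm z)
    obtain ⟨φ, cφ, lφ, eφ⟩ := frame hg hσ he hz hj m k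
    have lρ := Mat.nv_mono (Poi.psd_chart (M := M) (fun x => th M g m k x +
      M.ddc (fun y => Real.log (ρ y)) x) he hz (ρq.psd _ h1)) v
    rw [nv_ddc _ he hz (cρ.log h1.ne')] at lρ
    have key := fisher (v := v) (B := r / 2 * nV (M.repF (th M g m k) e z) v)
      (F := fun γ w => Ff s l ρ p r δ (γ • t w)) (N := fun w => N (e.symm w))
      (fun γ => ⟨(hN.smF e he z hz h1 _ (ht.smul hp γ)).of_le two, fp _ (pt γ ▸ h1)⟩) cN h0
      (ht.2.self_of_nhds ▸ hN.sum (t z)) (hN.d1 e he z hz h1 t ht) (hN.d2 e he z hz h1 t ht v)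
      ((hW.sum (t z)).1.hasSum.mul_left
        (C * nV (M.repF g e z) v * (ε / (C * A + 1)) * ρ (e.symm z) ^ (r / 2))) (fun γ => ?_) S
    · refine key.trans ?_
      rw [nv_ddc _ he hz (cN.log h0.ne'), nv_th, nv_th]
      have h2 : C * nV (M.repF g e z) v * (ε / (C * A + 1)) * ρ (e.symm z) ^ (r / 2) *
          (∑' γ : G, Real.exp (l (γ • t z))) / N (e.symm z) ≤ ε * nV (M.repF g e z) v := by
        rw [div_le_iff₀ h0]
        have h3 : C * A * (ε / (C * A + 1)) ≤ ε := by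
          rw [mul_div_assoc', div_le_iff₀ (by positivity)]
          nlinarith
        calc _ ≤ C * nV (M.repF g e z) v * (ε / (C * A + 1)) * N (e.symm z) * A :=
              mul_le_mul (mul_le_mul_of_nonneg_left (lo _) (by positivity)) (hW.sum _).2
                (tsum_nonneg fun _ => (Real.exp_pos _).le) (by positivity)
          _ = C * A * (ε / (C * A + 1)) * (nV (M.repF g e z) v * N (e.symm z)) := by ring
          _ ≤ _ := (mul_le_mul_of_nonneg_right h3 (by positivity)).trans_eq (by ring)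
      linarith
    · have hγ := ht.smul hp γ
      obtain ⟨cP, lP⟩ := hol (v := v) (P := fun w => ‖s (γ • t w)‖ ^ 2)
        (hs e he z hz j hj _ hγ) cφ (eφ.mono fun w hw => hw _)
      rw [lφ] at lP
      have cl := (hW.sm e he z hz _ hγ).of_le two
      have eQ : (fun w => δ * Real.exp (2 / r * l (γ • t w)) * ρ (p (γ • t w))) =ᶠ[𝓝 z]
          fun w => δ * Real.exp (2 / r * l (γ • t w)) * ρ (e.symm w) :=
        hγ.2.mono fun w hw => by simp only [hw]
      have cQ := ((contDiffAt_const.mul (contDiffAt_const.mul cl).exp).mul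
        cρ).congr_of_eventuallyEq eQ
      have eL : (fun w => Real.log (δ * Real.exp (2 / r * l (γ • t w)) * ρ (p (γ • t w)))) =ᶠ[𝓝 z]
          fun w => Real.log δ + 2 / r * l (γ • t w) + Real.log (ρ (e.symm w)) := by
        filter_upwards [eQ, cρ.continuousAt.eventually (lt_mem_nhds h1)] with w h2 h3
        rw [h2, Real.log_mul (by positivity) h3.ne', Real.log_mul hδ.ne' (Real.exp_pos _).ne',
          Real.log_exp]
      have h2 := pw (c := 2 / r * (C * nV (M.repF g e z) v)) cP cQ (fun _ => sq_nonneg _) lP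
        (by rw [pt]; positivity) (by positivity) (by
          rw [L_congr eL, L_add (contDiffAt_const.add (contDiffAt_const.mul cl)) (cρ.log h1.ne'),
            L_add contDiffAt_const (contDiffAt_const.mul cl), L_const, L_mul _ cl]
          have h3 := mul_le_mul_of_nonneg_left (hW.lv e he z hz _ hγ v) (by positivity : 0 ≤ 2 / r)
          rw [L]
          linarith) s0 s1
      refine le_trans (le_of_eq ?_) h2
      rw [pt, Real.mul_rpow (by positivity) h1.le, Real.mul_rpow hδ.le (Real.exp_pos _).le, eδ,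
        ← Real.exp_mul]
      have : 2 / r * l (γ • t z) * (r / 2) = l (γ • t z) := by field_simp
      rw [this]
      field_simp
  refine ⟨_, N, nn, hN.sum, hN.lp, ⟨hN.cont, fun x => (Real.rpow_nonneg (ρq.nn x) _).trans (lo x),
    fun e he z hz h0 => contDiffAt_ofReal.2 (hN.smN e he z hz (pos _ h0)), fun x hx => ?_⟩,
    measure_mono_null (fun x hx => ?_) ρn, fun e he z hz h0 t ht =>
      ⟨fp _ (ht.2.self_of_nhds ▸ pos _ h0), hN.smF e he z hz (pos _ h0) t ht⟩, fis⟩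
  · have hz := (M.ch x).map_source (M.mem x)
    have h0 : 0 < N ((M.ch x).symm (M.ch x x)) := by rwa [(M.ch x).left_inv (M.mem x)]
    refine Pole.psd ((herm_th hg _ _ x).add (levi_herm_ofReal (contDiffAt_ofReal.2
      (((hN.smN _ (M.ch_mem x) _ hz (pos _ h0)).of_le two).log h0.ne')))) fun v => ?_
    obtain ⟨y, rfl⟩ := hp.surjective x
    have h := fis _ (M.ch_mem _) _ hz h0 _
      (F12.sh_self hp.isCoveringMap.isLocalHomeomorph (M.mem _)).1 ∅ v
    rwa [(AY.repA' ι X M).repF_self, Finset.sum_empty] at h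
  · exact (ρq.nn x).antisymm' (not_lt.1 fun h =>
      ((Real.rpow_pos_of_pos h _).trans_le (lo x)).ne' hx)

end Pool.Agent.Lib.MP_813db1_ag.SV
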