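import Pool.Agent.Lib.MP_813db1_ag.SV.StA
import Pool.Agent.Lib.MP_813db1_ag.AN.BasA

/-! Integration, bounds and partitions of unity on a family of sheets. -/

namespace Pool.Agent.Lib.MP_813db1_ag.SV

open Pool.Agent.Lib.MP_813db1_ag.HS Pool.Agent.Lib.MP_813db1_ag.AS Pool.Agent.Lib.MP_813db1_ag.AN
open MeasureTheory Complex Matrix Filter Topology Set Metric
open scoped ContDiff ComplexOrder ENNReal

variable {ι Y : Type} [Fintype ι] [DecidableEq ι] [TopologicalSpace Y] [MeasurableSpace Y]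
  {M : Atl ι Y} {g : Y → Mat ι} {ν : Measure Y}

theorem basA [T2Space Y] [BorelSpace Y] (S : Sg M g ν) : S.BasA where
  fin := by
    have := BA.lf S.kg S.vol
    infer_instance
  pos := BA.op S.kg S.vol
  cpt k _ hr := BA.cpt S.toSt k hr
  ms k _ hA := Vol.ms_img (S.c k) hA
  lint k A hA h F := by
    rw [BA.rr S.vol (S.mem k), Vol.nu_lint _ (BA.cd S.kg (S.mem k)) hA (S.tgt k ▸ h)]
    exact setLIntegral_congr_fun hA fun z hz => by simp only [S.rep_g k z (h hz)]
  int k _ hA h F := BA.int S.toSt S.vol k hA h F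
  intR k _ hA h F := BA.int S.toSt S.vol k hA h F
  bd r hr := by
    have hK := isCompact_closedBall (0 : V ι) r
    have s5 : closedBall (0 : V ι) r ⊆ ball 0 5 := closedBall_subset_ball (by linarith)
    have dp : ∀ a, ∀ z ∈ ball (0 : V ι) 5, 0 < (S.H a z).det.re := fun a z hz =>
      (Mat.det' ((S.kon a).2 z hz)).1
    have dc : ∀ a, ∀ z ∈ closedBall (0 : V ι) r, ContinuousAt (fun w => (S.H a w).det.re) z :=
      fun a z hz => continuous_re.continuousAt.comp ((S.kon a).1.1.det (s5 hz)).continuousAt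
    obtain ⟨L, h1, h2⟩ := ((eventually_ge_atTop (1 : ℝ)).and (eventually_all.2 fun a =>
      (BA.evM hK ((S.kon a).1.1.mono s5)).and ((BA.evM hK (((S.kon a).1.1.inv fun z hz =>
        ((S.kon a).2 z hz).det_pos.ne').mono s5)).and ((BA.evM hK ((SmM.levi fun z hz =>
          ((S.kon a).1.1.cd hz).lg (dp a z hz).ne').neg.mono s5)).and
        ((BA.ev hK fun z hz => (dc a z hz).inv₀ (dp a z (s5 hz)).ne').and
          (BA.ev hK (dc a))))))).exists
    refine ⟨L, h1, fun a z hz => ?_⟩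
    have hz' := mem_closedBall_zero_iff.2 hz
    obtain ⟨a1, a2, a3, a5, a6⟩ := h2 a
    exact ⟨a1 z hz', a2 z hz', a3 z hz',
      inv_le_of_inv_le₀ (dp a z (s5 hz')) (a5 z hz'), a6 z hz'⟩
  det := BA.det S.toSt
  ov := BA.ov S.toSt
  card := BA.card S.toSt
  exh := BA.exh S.toSt
  extR k _ hr _ hu h0 := BA.extR S.toSt k hr hu h0
  pou := BA.pou S.toSt

end Pool.Agent.Lib.MP_813db1_ag.SV
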