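import Pool.Agent.Lib.MP_813db1_ag.SV.StA
import Pool.Agent.Lib.MP_813db1_ag.AN.Lg
import Pool.Agent.Lib.MP_813db1_ag.HS.RepA

/-! Sums of squares of holomorphic sections of a line bundle. -/

namespace Pool.Agent.Lib.MP_813db1_ag.SV

open Pool.Agent.Lib.MP_813db1_ag.HS Pool.Agent.Lib.MP_813db1_ag.AS Pool.Agent.Lib.MP_813db1_ag.AN
open MeasureTheory Complex Matrix Filter Topology Set Metric
open scoped ContDiff ComplexOrder

variable {ι Y : Type} [Fintype ι] [DecidableEq ι] [TopologicalSpace Y] [MeasurableSpace Y]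
  {M : Atl ι Y} {g : Y → Mat ι} {ν : Measure Y} {S : Sg M g ν} {ξ : Y → Mat ι} {T : Bun S ξ}

namespace Lg

theorem val (hB : T.BasB) {m : ℕ} (σ : Fin m → Y → ℂ) (k : S.κ) {z : V ι}
    (hz : z ∈ ball (0 : V ι) 4) :
    (S.H (S.ty k) z).det.re * ∑ j, ‖σ j ((S.c k).symm z)‖ ^ 2 =
      (∑ j, ‖S.rep T.U (σ j) k z‖ ^ 2) * Real.exp (-T.ρ (S.ty k) z) := by
  have hz' : z ∈ (S.c k).target := (S.tgt k).symm ▸ hz
  rw [Finset.mul_sum, Finset.sum_mul]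
  refine Finset.sum_congr rfl fun j _ => ?_
  have := hB.dn (σ j) k _ ((S.c k).map_target hz')
  rwa [(S.c k).right_inv hz'] at this

theorem kon (S : Sg M g ν) (a : Fin S.n) {z : V ι} (hz : z ∈ ball (0 : V ι) 4) :
    CdM ∞ (S.H a) z ∧ 0 < (S.H a z).det.re := by
  have h5 : z ∈ ball (0 : V ι) 5 := ball_subset_ball (by norm_num) hz
  exact ⟨(S.kon a).1.1.cd h5, (mat.det ι _ ((S.kon a).2 z h5)).1⟩

theorem lev (hB : T.BasB) {m : ℕ} (σ : Fin m → Y → ℂ) (hσ : ∀ j, S.Hol T.U (σ j)) (k : S.κ)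
    {z : V ι} (hz : z ∈ ball (0 : V ι) 4) (h0 : 0 < ∑ j, ‖σ j ((S.c k).symm z)‖ ^ 2) :
    (M.repF ξ (S.c k) z - ric (S.H (S.ty k)) z +
      levi (fn (fun x => Real.log (∑ j, ‖σ j x‖ ^ 2)) (S.c k)) z).PosSemidef := by
  have hn := isOpen_ball.mem_nhds hz
  obtain ⟨hs, hp⟩ := serF (F := fun j => S.rep T.U (σ j) k) (z := z) fun j => by
    filter_upwards [hn] with w hw
    exact (hσ j k).differentiableAt (isOpen_ball.mem_nhds hw)
  have hQ : 0 < ∑ j, ‖S.rep T.U (σ j) k z‖ ^ 2 := by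
    have h1 := mul_pos (kon S (S.ty k) hz).2 h0
    rw [val hB σ k hz] at h1
    exact pos_of_mul_pos_left h1 (Real.exp_pos _).le
  have hev : ∀ᶠ w in 𝓝 z, 0 < ∑ j, ‖S.rep T.U (σ j) k w‖ ^ 2 :=
    hs.continuousAt.eventually (lt_mem_nhds hQ)
  have c1 : ContDiffAt ℝ 2 (fun w => (Real.log (∑ j, ‖S.rep T.U (σ j) k w‖ ^ 2) : ℂ)) z :=
    contDiffAt_ofReal.2 ((hs.log hQ.ne').of_le (by norm_cast))
  have c2 : ContDiffAt ℝ 2 (fun w => (T.ρ (S.ty k) w : ℂ)) z :=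
    contDiffAt_ofReal.2 ((T.ρ_sm _ z hz).of_le (by norm_cast))
  have c3 : ContDiffAt ℝ 2 (HS.lg (S.H (S.ty k))) z :=
    ((kon S (S.ty k) hz).1.lg (kon S (S.ty k) hz).2.ne').of_le (by norm_cast)
  have he : fn (fun x => Real.log (∑ j, ‖σ j x‖ ^ 2)) (S.c k) =ᶠ[𝓝 z] fun w =>
      ((Real.log (∑ j, ‖S.rep T.U (σ j) k w‖ ^ 2) : ℂ) - (T.ρ (S.ty k) w : ℂ)) -
        HS.lg (S.H (S.ty k)) w := by
    filter_upwards [hn, hev] with w hw hw0
    have hd := (kon S (S.ty k) hw).2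
    have h1 : ∑ j, ‖σ j ((S.c k).symm w)‖ ^ 2 = (∑ j, ‖S.rep T.U (σ j) k w‖ ^ 2) *
        Real.exp (-T.ρ (S.ty k) w) / (S.H (S.ty k) w).det.re := by
      rw [← val hB σ k hw]
      field_simp
    simp only [fn, HS.lg]
    rw [h1, Real.log_div (mul_pos hw0 (Real.exp_pos _)).ne' hd.ne',
      Real.log_mul hw0.ne' (Real.exp_pos _).ne', Real.log_exp]
    push_cast
    ring
  rw [levi_congr he, levi_sub (c1.sub c2) c3, levi_sub c1 c2, T.ρ_lv k z hz]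
  have hr : ric (S.H (S.ty k)) z = -levi (HS.lg (S.H (S.ty k))) z := rfl
  rw [hr]
  convert hp hQ using 1
  abel

theorem ric_eq (S : Sg M g ν) (k : S.κ) {z : V ι} (hz : z ∈ ball (0 : V ι) 4) :
    ric (M.repF g (S.c k)) z = ric (S.H (S.ty k)) z := by
  refine congrArg Neg.neg (levi_congr ?_)
  filter_upwards [isOpen_ball.mem_nhds hz] with w hw
  rw [S.rep_g k w hw]

theorem ch_ball (S : Sg M g ν) (y : Y) : S.c (S.ch y) y ∈ ball (0 : V ι) 4 :=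
  mem_ball_zero_iff.2 ((S.ch_lt y).trans (by norm_num))

theorem ricF_eq (S : Sg M g ν) (y : Y) :
    M.ricF g y = ric (S.H (S.ty (S.ch y))) (S.c (S.ch y) y) := by
  rw [Atl.ricF, S.ch_eq y, ric_eq S _ (ch_ball S y)]

end Lg

theorem lgS (hB : T.BasB) : T.Lg := by
  intro m σ hσ
  refine ⟨continuous_finsetSum _ fun j _ => (hB.ck _ (hB.hol_an _ (hσ j)).1).2,
    fun y => Finset.sum_nonneg fun j _ => sq_nonneg _, fun e he z hz _ => ?_, fun y hy => ?_⟩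
  · have : fn (fun y => ∑ j, ‖σ j y‖ ^ 2) e = fun w => ∑ j, fn (fun y => ‖σ j y‖ ^ 2) e w := by
      funext w
      simp only [fn]
      push_cast
      rfl
    rw [this]
    exact ContDiffAt.sum fun j _ => (hB.ck _ (hB.hol_an _ (hσ j)).1).1 e he z hz
  · have hs : y ∈ (S.c (S.ch y)).source := S.ch_eq y ▸ M.mem y
    have h1 := Lg.lev hB σ hσ (S.ch y) (Lg.ch_ball S y) (by rwa [(S.c (S.ch y)).left_inv hs])
    rw [← Lg.ricF_eq, ← S.ch_eq y, RepA.repF_self] at h1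
    exact h1

/-- the form with the three basic hypotheses. -/
theorem lg (_hA : S.BasA) (hB : T.BasB) (_hC : T.BasC) : T.Lg := lgS hB

end Pool.Agent.Lib.MP_813db1_ag.SV
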