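import Pool.Agent.Lib.MP_813db1_ag.SV.StB
import Pool.Agent.Lib.MP_813db1_ag.SV.Lg
import Pool.Agent.Lib.MP_813db1_ag.HS.RepB
import Pool.Agent.Lib.MP_813db1_ag.HS.Max
import Pool.Agent.Lib.MP_813db1_ag.HS.Curv

/-! The bundles `a K + b L`. -/

namespace Pool.Agent.Lib.MP_813db1_ag.SV

open Pool.Agent.Lib.MP_813db1_ag.HS Pool.Agent.Lib.MP_813db1_ag.AS Pool.Agent.Lib.MP_813db1_ag.AN
open MeasureTheory Complex Matrix Filter Topology Set Metric
open scoped ContDiff ComplexOrder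

variable {ι Y : Type} [Fintype ι] [DecidableEq ι] [TopologicalSpace Y] [MeasurableSpace Y]
  {M : Atl ι Y} {g : Y → Mat ι} {ν : Measure Y} {S : Sg M g ν} {P : Pol S}

namespace Bn

omit [MeasurableSpace Y] in
theorem th_eq (M : Atl ι Y) (g : Y → Mat ι) (a b : ℝ) :
    th M g a b = fun y => ((-a : ℝ) : ℂ) • M.ricF g y + (b : ℂ) • g y := by
  funext y
  rw [th, ofReal_neg, neg_smul, smul_neg]

omit [MeasurableSpace Y] in
theorem th_cl (hg : M.IsK g) (a b : ℝ) : M.ClF (th M g a b) := by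
  rw [th_eq]
  exact RepA.clF_add M _ _
    (RepA.clF_smul M _ _ ((repB (repA mat) (curvS mat) mat maxS ι Y M).ric_cl g hg))
    (RepA.clF_smul M _ _ fun e he => (hg e he).1)

theorem th_rep (S : Sg M g ν) (a b : ℝ) (k : S.κ) {z : V ι} (hz : z ∈ ball (0 : V ι) 4) :
    M.repF (th M g a b) (S.c k) z =
      (a : ℂ) • (-ric (S.H (S.ty k)) z) + (b : ℂ) • S.H (S.ty k) z := by
  rw [th_eq, RepA.repF_add, RepA.repF_smul, RepA.repF_smul]
  simp only
  rw [(repB (repA mat) (curvS mat) mat maxS ι Y M).ric_rep g S.kg _ (S.mem k) z (S.tgt k ▸ hz),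
    Lg.ric_eq S k hz, S.rep_g k z hz, ofReal_neg, neg_smul, smul_neg]

theorem src (S : Sg M g ν) {k : S.κ} {y : Y} (h : y ∈ (S.c k).source) :
    S.c k y ∈ ball (0 : V ι) 4 := S.tgt k ▸ (S.c k).map_source h

theorem v_ne (P : Pol S) {k : S.κ} {y : Y} (h : y ∈ (S.c k).source) : P.v k y ≠ 0 := by
  intro h0
  have h1 := P.v_nrm k y h
  have h2 := (Lg.kon S (S.ty k) (src S h)).2
  rw [h0] at h1
  simp only [norm_zero, ne_eq, OfNat.ofNat_ne_zero, not_false_eq_true, zero_pow] at h1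
  exact h2.ne h1

theorem v_hol (P : Pol S) (k l : S.κ) (y : Y) (hk : y ∈ (S.c k).source) (hl : y ∈ (S.c l).source) :
    AnalyticAt ℂ (fun z => P.v k ((S.c k).symm z) / P.v l ((S.c k).symm z)) (S.c k y) := by
  refine (RepA.analyticAt_det (M.hol _ (S.mem k) _ (S.mem l) y hk hl)).congr ?_
  filter_upwards [RepB.ev hk hl] with w hw
  rw [P.v_tr k l _ ((S.c k).map_target hw.1) hw.2, mul_div_cancel_right₀ _ (v_ne P hw.2), tj,
    (S.c k).right_inv hw.1]

/-- the bundle `a K + b L`. -/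
noncomputable def bun (P : Pol S) (a b : ℕ) : Bun S (th M g (a - 1) b) where
  ρ := fun c z => b * P.φ c z + ((a : ℝ) - 1) * Real.log (S.H c z).det.re
  U := P.U a b
  cl := th_cl S.kg _ _
  ρ_sm := fun c z hz => (contDiffAt_const.mul (P.φ_sm c z hz).1).add (contDiffAt_const.mul
    (contDiffAt_ofReal.1 ((Lg.kon S c hz).1.lg (Lg.kon S c hz).2.ne')))
  ρ_lv := fun k z hz => by
    have c2 : ContDiffAt ℝ 2 (fun w => (P.φ (S.ty k) w : ℂ)) z :=
      contDiffAt_ofReal.2 ((P.φ_sm _ z hz).1.of_le (by norm_cast))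
    have c3 : ContDiffAt ℝ 2 (HS.lg (S.H (S.ty k))) z :=
      ((Lg.kon S (S.ty k) hz).1.lg (Lg.kon S (S.ty k) hz).2.ne').of_le (by norm_cast)
    have e : (fun w => ((b * P.φ (S.ty k) w +
        ((a : ℝ) - 1) * Real.log (S.H (S.ty k) w).det.re : ℝ) : ℂ)) = fun w =>
        ((b : ℝ) : ℂ) * (P.φ (S.ty k) w : ℂ) + (((a : ℝ) - 1 : ℝ) : ℂ) * HS.lg (S.H (S.ty k)) w := by
      funext w
      simp only [HS.lg, ofReal_add, ofReal_mul]
    rw [e, levi_add (contDiffAt_const.mul c2) (contDiffAt_const.mul c3), levi_cmul _ c2,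
      levi_cmul _ c3, (P.φ_sm _ z hz).2, th_rep S _ _ k hz, add_comm]
    congr 2
    exact (neg_neg _).symm
  nrm := fun k y hy => by
    have hd := (Lg.kon S (S.ty k) (src S hy)).2
    rw [Pol.U, norm_mul, norm_pow, norm_pow, mul_pow, ← pow_mul, ← pow_mul, mul_comm a, mul_comm b,
      pow_mul, pow_mul, P.v_nrm k y hy, P.u_nrm k y hy, Real.exp_add, Real.exp_nat_mul, sub_mul,
      Real.exp_sub, Real.exp_nat_mul, one_mul, Real.exp_log hd]
    field_simp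
  hol := fun k l y hk hl => by
    refine (((v_hol P k l y hk hl).fun_pow a).fun_mul ((P.u_hol k l y hk hl).fun_pow b)).congr
      (Eventually.of_forall fun w => ?_)
    simp only [Pol.U, div_pow]
    rw [div_mul_div_comm]

theorem c0 (hA : S.BasA) :
    ∃ c : ℕ, ∀ y, (th M g 1 c y).PosSemidef ∧ (th M g (-1) c y).PosSemidef := by
  obtain ⟨L, -, hL⟩ := hA.bd 1 (by norm_num)
  obtain ⟨C, -, hC⟩ := AN.Lg.dom ι L
  refine ⟨⌈C⌉₊, fun y => ?_⟩
  have hz := Lg.ch_ball S y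
  obtain ⟨b1, b2, b3, -⟩ := hL (S.ty (S.ch y)) _ (S.ch_lt y).le
  obtain ⟨hp, -, hg⟩ := hA.det y
  have hh : (ric (S.H (S.ty (S.ch y))) (S.c (S.ch y) y)).IsHermitian :=
    (levi_herm_ofReal (((Lg.kon S _ hz).1.lg (Lg.kon S _ hz).2.ne').of_le (by norm_cast))).neg
  rw [← hg] at b1 b2
  rw [← Lg.ricF_eq] at b3 hh
  have h0 : (((((⌈C⌉₊ : ℕ) : ℝ) - C : ℝ) : ℂ) • g y).PosSemidef :=
    hp.posSemidef.smul (zero_le_real.2 (sub_nonneg.2 (Nat.le_ceil C)))
  have h1 := (hC _ _ hp hh.neg b1 b2 fun i j => by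
    rw [Matrix.neg_apply, norm_neg]; exact b3 i j).add h0
  have h2 := (hC _ _ hp hh b1 b2 b3).add h0
  constructor
  · convert h1 using 1
    rw [th, ofReal_sub, ofReal_one]
    module
  · convert h2 using 1
    rw [th, ofReal_sub, ofReal_neg, ofReal_one]
    module

end Bn

theorem bn (hA : S.BasA) (hT : ∀ (ξ : Y → Mat ι) (T : Bun S ξ), T.All) : P.Bn :=
  ⟨fun a b => ⟨Bn.bun P a b, rfl, hT _ _⟩, Bn.c0 hA⟩

end Pool.Agent.Lib.MP_813db1_ag.SV
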