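import Pool.Agent.Lib.MP_813db1_ag.SV.Null

/-! Division of sections. -/

namespace Pool.Agent.Lib.MP_813db1_ag.SV

open Pool.Agent.Lib.MP_813db1_ag.HS Pool.Agent.Lib.MP_813db1_ag.AS Pool.Agent.Lib.MP_813db1_ag.AN
open MeasureTheory Complex Matrix Filter Topology Set Metric
open scoped ContDiff ComplexOrder ENNReal

variable {ι Y : Type} [Fintype ι] [DecidableEq ι] [TopologicalSpace Y] [MeasurableSpace Y]
  {M : Atl ι Y} {g : Y → Mat ι} {ν : Measure Y} {S : Sg M g ν} {P : Pol S} {τ : Y → ℂ}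

namespace Div

open Nul

lemma freq (h0 : P.Sec0 τ) (k : S.κ) {z : V ι} (hz : z ∈ ball (0 : V ι) 4) :
    ∃ᶠ w in 𝓝 z, τ ((S.c k).symm w) ≠ 0 := by
  intro h
  have h1 : ∀ᶠ w in 𝓝 z, τ ((S.c k).symm w) = 0 := h.mono fun w hw => not_not.1 hw
  refine h0.reg k z hz h1.self_of_nhds ?_
  have h2 : S.rep (P.U 0 1) τ k =ᶠ[𝓝 z] fun _ => 0 := h1.mono fun w hw => by
    rw [Sg.rep, hw, mul_zero]
  rw [h2.fderiv_eq]
  exact fderiv_const_apply _

lemma null (hL : NulL) (hA : S.BasA) (hB : P.Bn) (h0 : P.Sec0 τ) : ν {y | τ y = 0} = 0 := by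
  obtain ⟨T, hT, hall⟩ := hB.ex 0 1
  refine of_ne hL hA hall.b (hT ▸ h0.hol) fun k => ?_
  have hz : (0 : V ι) ∈ ball (0 : V ι) 4 := mem_ball_self (by norm_num)
  obtain ⟨w, hw1, hw2⟩ := ((freq h0 k hz).and_eventually (isOpen_ball.mem_nhds hz)).exists
  exact ⟨w, hw2, mul_ne_zero (hall.b.ne k _ (symm_mem S k hw2)) hw1⟩

lemma loc (hD : DivL) (hB : P.Bn) (h0 : P.Sec0 τ) {a b : ℕ} {H : Y → ℂ}
    (hH : S.Hol (P.U a (b + 1)) H) (hz0 : ∀ y, τ y = 0 → H y = 0) (k : S.κ) (z : V ι)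
    (hz : z ∈ ball (0 : V ι) 4) : ∃ F', AnalyticAt ℂ F' z ∧ ∀ᶠ w in 𝓝 z,
      P.U a b k ((S.c k).symm w) * H ((S.c k).symm w) = τ ((S.c k).symm w) * F' w := by
  obtain ⟨T, hT, hall⟩ := hB.ex 0 1
  obtain ⟨T', hT', hall'⟩ := hB.ex a (b + 1)
  have hne : ∀ w ∈ ball (0 : V ι) 4, P.U 0 1 k ((S.c k).symm w) ≠ 0 := fun w hw =>
    hT ▸ hall.b.ne k _ (symm_mem S k hw)
  have h1 : AnalyticAt ℂ (S.rep (P.U a (b + 1)) H k) z :=
    hT' ▸ (hall'.b.hol_an H (hT' ▸ hH)).2 k z hz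
  have h2 : AnalyticAt ℂ (S.rep (P.U 0 1) τ k) z :=
    hT ▸ (hall.b.hol_an τ (hT ▸ h0.hol)).2 k z hz
  obtain ⟨F', hF1, hF2⟩ := hD ι _ _ z h1 h2
    (fun h => h0.reg k z hz ((mul_eq_zero.1 h).resolve_left (hne z hz)))
    (by
      filter_upwards [isOpen_ball.mem_nhds hz] with w hw h
      rw [Sg.rep, hz0 _ ((mul_eq_zero.1 h).resolve_left (hne w hw)), mul_zero])
  refine ⟨F', hF1, ?_⟩
  filter_upwards [hF2, isOpen_ball.mem_nhds hz] with w hw hw'
  refine mul_left_cancel₀ (hne w hw') ?_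
  simp only [Sg.rep, Pol.U, pow_succ, pow_zero, one_mul] at hw ⊢
  linear_combination hw

lemma one (hD : DivL) (hB : P.Bn) (h0 : P.Sec0 τ) (a b : ℕ) (H : Y → ℂ)
    (hH : S.Hol (P.U a (b + 1)) H) (hz0 : ∀ y, τ y = 0 → H y = 0) :
    ∃ h, S.Hol (P.U a b) h ∧ ∀ y, H y = τ y * h y := by
  obtain ⟨T, hT, hall⟩ := hB.ex a b
  choose! F hF1 hF2 using loc hD hB h0 hH hz0
  rw [← hT] at hF2 ⊢
  have hb := hall.b
  refine ⟨fun y => F (S.ch y) (S.c (S.ch y) y) (S.c (S.ch y) y) / T.U (S.ch y) y, ?_, fun y => ?_⟩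
  · refine hb.hol_loc _ fun y => ⟨S.ch y, src S y, ?_⟩
    have hz := map_mem S (src S y)
    refine (hF1 (S.ch y) _ hz).congr ?_
    generalize S.c (S.ch y) y = z at hz
    generalize S.ch y = k at hz
    filter_upwards [(hF1 k z hz).eventually_analyticAt, (hF2 k z hz).eventually_nhds,
      isOpen_ball.mem_nhds hz] with w hw1 hw2 hw
    have hx := symm_mem S k hw
    set x := (S.c k).symm w with hxd
    have hx' := src S x
    set l := S.ch x
    have t1 : Tendsto (S.c k).symm (𝓝 w) (𝓝 x) :=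
      (S.c k).continuousAt_symm (S.tgt k ▸ hw)
    have t2 : Tendsto (fun u => S.c l ((S.c k).symm u)) (𝓝 w) (𝓝 (S.c l x)) :=
      ((S.c l).continuousAt hx').tendsto.comp t1
    have t3 : Tendsto (fun u => T.U k ((S.c k).symm u) / T.U l ((S.c k).symm u)) (𝓝 w)
        (𝓝 (T.U k x / T.U l x)) := by
      have := (T.hol k l x hx hx').continuousAt
      rw [right_inv S k hw] at this
      exact this
    have t4 := t3.mul ((hF1 l _ (map_mem S hx')).continuousAt.tendsto.comp t2)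
    have h5 := tendsto_nhds_unique_of_frequently_eq hw1.continuousAt.tendsto t4 (by
      refine ((freq h0 k hw).and_eventually (hw2.and ((t2.eventually (hF2 l _ (map_mem S hx'))).and
        (t1.eventually ((S.c l).open_source.mem_nhds hx'))))).mono ?_
      rintro u ⟨h1, h2, h3, h4⟩
      rw [(S.c l).left_inv h4] at h3
      refine mul_left_cancel₀ h1 ?_
      have h6 := hb.ne l _ h4
      simp only [Function.comp_apply]
      rw [← h2, mul_left_comm, ← h3]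
      field_simp)
    rw [h5, Sg.rep, ← hxd]
    ring
  · have h1 := (hF2 (S.ch y) _ (map_mem S (src S y))).self_of_nhds
    rw [(S.c _).left_inv (src S y)] at h1
    have h2 := hb.ne _ _ (src S y)
    beta_reduce at h1 ⊢
    rw [← mul_div_assoc, ← h1]
    field_simp

lemma van (hN : NonI) (hA : S.BasA) (hB : P.Bn) (h0 : P.Sec0 τ) {a b i : ℕ} {H : Y → ℂ}
    (hH : S.Hol (P.U a b) H)
    (hI : ∀ k, IntegrableOn (fun y => ‖H y‖ ^ 2 * (‖τ y‖ ^ (2 * (i + 1)))⁻¹) (S.B k 1) ν)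
    (y : Y) (hy : τ y = 0) : H y = 0 := by
  by_contra hne
  obtain ⟨T, hT, hall⟩ := hB.ex 0 1
  obtain ⟨T', hT', hall'⟩ := hB.ex a b
  have hc : Continuous fun y => ‖H y‖ ^ 2 :=
    (hall'.b.ck H (hall'.b.hol_an H (hT' ▸ hH)).1).2
  have hs := src S y
  have hlt := S.ch_lt y
  set k := S.ch y
  have hz := map_mem S hs
  have han : AnalyticOnNhd ℂ (S.rep T.U τ k) (ball 0 4) := (hall.b.hol_an τ (hT ▸ h0.hol)).2 k
  have hpos : 0 < ‖H y‖ ^ 2 / 2 := by positivity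
  have t1 : Tendsto (S.c k).symm (𝓝 (S.c k y)) (𝓝 y) := (S.c k).tendsto_symm hs
  have hev : ∀ᶠ w in 𝓝 (S.c k y), ‖H y‖ ^ 2 / 2 < ‖H ((S.c k).symm w)‖ ^ 2 ∧ ‖w‖ < 1 :=
    (t1.eventually (hc.continuousAt.eventually (lt_mem_nhds (by linarith)))).and
      (continuous_norm.continuousAt.eventually (gt_mem_nhds hlt))
  obtain ⟨O, hO1, hO2, hO3⟩ := _root_.eventually_nhds_iff.1 hev
  have hOb : O ⊆ ball 0 4 := fun w hw => mem_ball_zero_iff.2 (by linarith [(hO1 w hw).2])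
  obtain ⟨L, hL1, hL⟩ := hA.bd 1 (by norm_num)
  obtain ⟨L', -, hL'⟩ := hall.b.bd 1 (by norm_num)
  refine hN ι (S.rep T.U τ k) (S.c k y) (han _ hz) ((hall.b.zero τ k y hs).2 hy)
    (hT ▸ h0.reg k _ hz (by rw [(S.c k).left_inv hs]; exact hy)) O (hO2.mem_nhds hO3) ⟨?_, ?_⟩
  · have h1 : ContinuousOn (fun w => ‖S.rep T.U τ k w‖ ^ 2) O :=
      ((han.mono hOb).continuousOn.norm).pow 2
    exact (h1.aemeasurable hO2.measurableSet).inv.aestronglyMeasurable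
  have h2 := ((hI k).mono_set (s := (S.c k).source ∩ S.c k ⁻¹' O) fun x hx =>
    ⟨hx.1, mem_closedBall_zero_iff.2 (hO1 _ hx.2).2.le⟩).2
  rw [hasFiniteIntegral_iff_ofReal (Eventually.of_forall fun x => by positivity),
    hA.lint k O hO2.measurableSet hOb] at h2
  rw [hasFiniteIntegral_iff_ofReal (Eventually.of_forall fun x => by positivity)]
  obtain ⟨C, hC, hC0⟩ : ∃ C : ℝ, C = Real.exp L' * L * L / (‖H y‖ ^ 2 / 2) ∧ 0 ≤ C :=
    ⟨_, rfl, by positivity⟩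
  refine lt_of_le_of_lt ?_ (ENNReal.mul_lt_top (ENNReal.ofReal_lt_top (r := C)) h2)
  rw [← lintegral_const_mul' _ _ ENNReal.ofReal_ne_top]
  refine setLIntegral_mono' hO2.measurableSet fun w hw => ?_
  obtain ⟨-, -, -, hd1, -⟩ := hL (S.ty k) w (hO1 w hw).2.le
  have hL0 : 0 < L := by linarith
  have hd0 : 0 < (S.H (S.ty k) w).det.re := (inv_pos.2 hL0).trans_le hd1
  rw [← ENNReal.ofReal_mul hd0.le, ← ENNReal.ofReal_mul hC0]
  refine ENNReal.ofReal_le_ofReal ?_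
  have e1 := hall.b.dn τ k _ (symm_mem S k (hOb hw))
  rw [right_inv S k (hOb hw)] at e1
  have e2 := abs_le.1 (hL' (S.ty k) w (hO1 w hw).2.le)
  have e3 := (hO1 w hw).1
  have e4 := h0.bd ((S.c k).symm w)
  generalize (S.H (S.ty k) w).det.re = d at *
  generalize ‖S.rep T.U τ k w‖ ^ 2 = r at *
  generalize T.ρ (S.ty k) w = ρ at *
  have e5 : 0 ≤ ‖τ ((S.c k).symm w)‖ := norm_nonneg _
  generalize ‖τ ((S.c k).symm w)‖ = t at *
  generalize ‖H ((S.c k).symm w)‖ ^ 2 = h at *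
  generalize ‖H y‖ ^ 2 / 2 = c at *
  have hh : 0 < h := hpos.trans e3
  rcases e5.eq_or_lt with rfl | ht
  · have : r = 0 := by
      have := (Real.exp_pos (-ρ)).ne'
      simpa [this] using e1.symm
    rw [this, _root_.inv_zero]
    positivity
  have hr : r = d * t ^ 2 * Real.exp ρ := by
    rw [e1, mul_assoc, ← Real.exp_add, neg_add_cancel, Real.exp_zero, mul_one]
  have f1 : (t ^ 2)⁻¹ ≤ (t ^ (2 * (i + 1)))⁻¹ :=
    inv_anti₀ (by positivity) (pow_le_pow_of_le_one ht.le e4 (by omega))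
  have f2 : d⁻¹ ≤ L := inv_le_of_inv_le₀ hL0 hd1
  have f3 : (Real.exp ρ)⁻¹ ≤ Real.exp L' := by
    rw [← Real.exp_neg]
    exact Real.exp_le_exp.2 (by linarith [e2.1])
  have f4 : 1 ≤ L * d := by
    rw [← inv_le_iff_one_le_mul₀' hL0]
    exact hd1
  have f5 : 1 ≤ h / c := (one_le_div hpos).2 e3.le
  calc r⁻¹ = d⁻¹ * (t ^ 2)⁻¹ * (Real.exp ρ)⁻¹ * 1 * 1 := by rw [hr, mul_inv, mul_inv]; ring
    _ ≤ L * (t ^ (2 * (i + 1)))⁻¹ * Real.exp L' * (L * d) * (h / c) := by gcongr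
    _ = _ := by rw [hC]; ring

end Div

theorem div (hD : DivL) (hN : NonI) (hL : NulL) (hA : S.BasA) (hB : P.Bn) (h0 : P.Sec0 τ) :
    P.Div τ := by
  refine ⟨Div.null hL hA hB h0, Div.one hD hB h0, fun a b i => ?_⟩
  induction i with
  | zero => exact fun H hH _ => ⟨H, hH, fun y => by rw [pow_zero, one_mul]⟩
  | succ i ih =>
    intro H hH hI
    obtain ⟨h1, hh1, he⟩ := Div.one hD hB h0 a (b + i) H hH (Div.van hN hA hB h0 hH hI)
    obtain ⟨h, hh, he'⟩ := ih h1 hh1 fun k => (hI k).congr (ae_restrict_of_ae (by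
      have : ∀ᵐ y ∂ν, τ y ≠ 0 := by
        rw [ae_iff]
        simpa using Div.null hL hA hB h0
      filter_upwards [this] with y hy
      have : ‖τ y‖ ≠ 0 := norm_ne_zero_iff.2 hy
      rw [he, norm_mul]
      field_simp
      ring))
    exact ⟨h, hh, fun y => by rw [he, he']; ring⟩

end Pool.Agent.Lib.MP_813db1_ag.SV
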