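import Pool.Agent.Lib.MP_813db1_ag.AN.MeanW
import Pool.Agent.Lib.MP_813db1_ag.AN.FinFun

/-! Truncated logarithms, and limits of almost minimal elements for increasing weights. -/

namespace Pool.Agent.Lib.MP_813db1_ag.SV.HE

open Pool.Agent.Lib.MP_813db1_ag.HS Pool.Agent.Lib.MP_813db1_ag.AN
open MeasureTheory Complex Matrix Filter Topology Set Metric
open scoped ContDiff ComplexOrder ENNReal

/-- a decreasing sequence of smooth truncations of the logarithm. -/
structure Tl (m : ℕ → ℝ → ℝ) (c : ℝ) : Prop where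
  sm : ∀ j, ContDiff ℝ ∞ (m j)
  low : ∀ (j : ℕ) s, s ≤ Real.exp (-j - 1) → m j s = c - j
  ge : ∀ (j : ℕ) s, c - j ≤ m j s
  log : ∀ j s, 0 < s → Real.log s ≤ m j s
  anti : ∀ s, 0 ≤ s → Antitone fun j => m j s
  top : ∀ s, 0 ≤ s → m 0 s ≤ s + 1 + c
  ev : ∀ s s', 0 ≤ s → s ≤ s' → 0 < s' → ∀ᶠ j in atTop, m j s ≤ Real.log s'
  psd : ∀ j (ι : Type) [Fintype ι] [DecidableEq ι] (S : V ι → ℝ) (z : V ι) (B : Mat ι),
    ContDiffAt ℝ 2 S z → B.PosSemidef →
    (0 < S z → (B + levi (fun w => (Real.log (S w) : ℂ)) z).PosSemidef) →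
    (B + levi (fun w => (m j (S w) : ℂ)) z).PosSemidef

theorem tl : ∃ m c, Tl m c := by
  obtain ⟨ρ, c, h0, h1, h2, h3⟩ := finFun.rho
  choose Φ p0 p1 p2 p3 p4 using fun j : ℕ => Pole.trunc h0 h1 h2
    (fun x => ⟨(h3 x).1, (h3 x).2.1, (h3 x).2.2.1, (h3 x).2.2.2.1⟩) j
  have z : ∀ j, Φ j 0 = 0 := fun j => p1 j 0 (Real.exp_pos _).le
  refine ⟨fun j s => Φ j s + (c - j), c, fun j => (p0 j).add contDiff_const, fun j s hs => ?_,
    fun j s => ?_, fun j s hs => ?_, fun s hs => antitone_nat_of_succ_le fun j => ?_,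
    fun s hs => ?_, fun s s' hs h h' => ?_, fun j ι _ _ S z B hS hB h => ?_⟩
  · rw [p1 j s hs, zero_add]
  · linarith [p2 j s]
  · linarith [(p3 j s hs).2]
  · rcases hs.eq_or_lt with rfl | hs
    · simp only [z]
      push_cast
      linarith
    · have := image_sub_le_mul_sub_of_deriv_le (h0.differentiable (by simp)) (fun x => (h3 x).2.1)
        (x := Real.log s + j) (y := Real.log s + (j + 1 : ℕ)) (by push_cast; linarith)
      simp only [(p3 _ s hs).1]
      push_cast at this ⊢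
      linarith
  · rcases hs.eq_or_lt with rfl | hs
    · simp [z]
    · have := (h3 (Real.log s + (0 : ℕ))).2.2.2.2
      have h4 : max (Real.log s + (0 : ℕ)) 0 ≤ s :=
        max_le (by simpa using (Real.log_le_sub_one_of_pos hs).trans (by linarith)) hs.le
      simp only [(p3 _ s hs).1]
      push_cast at this h4 ⊢
      linarith
  · rcases hs.eq_or_lt with rfl | hs
    · filter_upwards [tendsto_natCast_atTop_atTop.eventually_ge_atTop (c - Real.log s')] with j hj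
      rw [z]
      linarith
    · filter_upwards [tendsto_natCast_atTop_atTop.eventually_ge_atTop (1 - Real.log s)] with j hj
      rw [(p3 j s hs).1, h2 _ (by linarith)]
      linarith [Real.log_le_log hs h]
  · have c2 : ContDiffAt ℝ 2 (fun w => Φ j (S w)) z :=
      ((p0 j).contDiffAt.of_le (by norm_cast)).comp _ hS
    simp only [ofReal_add]
    rw [levi_add (contDiffAt_ofReal.2 c2) contDiffAt_const, levi_const, add_zero]
    exact p4 j ι S z B hS hB h

theorem par (u a b : ℂ) :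
    ‖a - b‖ ^ 2 = 2 * ‖u - a‖ ^ 2 + 2 * ‖u - b‖ ^ 2 - 4 * ‖u - (a + b) / 2‖ ^ 2 := by
  simp only [Complex.sq_norm, normSq_apply, sub_re, sub_im, div_ofNat_re, div_ofNat_im, add_re,
    add_im]
  ring

theorem tri (a b : ℂ) : ‖b‖ ^ 2 ≤ 2 * ‖a‖ ^ 2 + 2 * ‖a - b‖ ^ 2 := by
  have := par a 0 b
  rw [zero_sub, norm_neg, sub_zero] at this
  nlinarith [sq_nonneg ‖a - (0 + b) / 2‖]

/-- one element that is minimal for the limit of an increasing sequence of weights. -/
theorem minim {Y : Type} [MeasurableSpace Y] {ν : Measure Y} (H : (Y → ℂ) → Prop) (u : Y → ℂ)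
    (w : ℕ → Y → ℝ) {c D : ℝ} (hc : 0 < c) (w0 : ∀ j y, c ≤ w j y)
    (wm : ∀ y, Monotone fun j => w j y)
    (mid : ∀ h h', H h → H h' → H fun y => (h y + h' y) / 2)
    (i1 : ∀ j h, H h → Integrable (fun y => ‖u y - h y‖ ^ 2 * w j y) ν)
    (ex : ∀ j, ∀ ε > (0 : ℝ), ∃ h, H h ∧ ∫ y, ‖u y - h y‖ ^ 2 * w j y ∂ν ≤ D + ε)
    (lim : ∀ (h : ℕ → Y → ℂ) (d : ℕ → ℝ), (∀ j, H (h j)) → Tendsto d atTop (𝓝 0) →
      (∀ i j, i ≤ j → ∫ y, ‖h i y - h j y‖ ^ 2 ∂ν ≤ d i) →
      ∃ h', H h' ∧ ∀ y, Tendsto (fun j => h j y) atTop (𝓝 (h' y))) :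
    0 ≤ D ∧ ∃ h, H h ∧ ∀ W : Y → ℝ, (∀ᵐ y ∂ν, ∀ᶠ j in atTop, W y ≤ w j y) →
      ∫⁻ y, ENNReal.ofReal (‖u y - h y‖ ^ 2 * W y) ∂ν ≤ ENNReal.ofReal D := by
  let n : ℕ → (Y → ℂ) → ℝ := fun j h => ∫ y, ‖u y - h y‖ ^ 2 * w j y ∂ν
  have f0 : ∀ j (h : Y → ℂ) y, 0 ≤ ‖u y - h y‖ ^ 2 * w j y := fun j h y =>
    mul_nonneg (sq_nonneg _) (hc.le.trans (w0 j y))
  have n0 : ∀ j h, 0 ≤ n j h := fun j h => integral_nonneg (f0 j h)
  have nm : ∀ i j h, i ≤ j → H h → n i h ≤ n j h := fun i j h hij hh =>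
    integral_mono (i1 i h hh) (i1 j h hh) fun y => mul_le_mul_of_nonneg_left (wm y hij) (sq_nonneg _)
  let d : ℕ → ℝ := fun j => sInf (n j '' {h | H h})
  have ne : ∀ j, (n j '' {h | H h}).Nonempty := fun j =>
    let ⟨h, hh, _⟩ := ex j 1 one_pos
    ⟨_, h, hh, rfl⟩
  have dl : ∀ j h, H h → d j ≤ n j h := fun j h hh =>
    csInf_le ⟨0, by rintro _ ⟨k, -, rfl⟩; exact n0 j k⟩ ⟨h, hh, rfl⟩
  have dD : ∀ j, d j ≤ D := fun j => le_of_forall_pos_le_add fun ε hε =>
    let ⟨h, hh, hl⟩ := ex j ε hε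
    (dl j h hh).trans hl
  have dm : Monotone d := fun i j hij => le_csInf (ne j) (by
    rintro _ ⟨k, hk, rfl⟩
    exact (dl i k hk).trans (nm i j k hij hk))
  have bd : BddAbove (range d) := ⟨D, by rintro _ ⟨j, rfl⟩; exact dD j⟩
  have dt := tendsto_atTop_ciSup dm bd
  have o0 : ∀ j : ℕ, (0 : ℝ) < 1 / (j + 1) := fun j => by positivity
  have ot := tendsto_one_div_add_atTop_nhds_zero_nat (𝕜 := ℝ)
  have hx : ∀ j : ℕ, ∃ h, H h ∧ n j h ≤ d j + 1 / (j + 1) := fun j => by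
    obtain ⟨_, ⟨h, hh, rfl⟩, hl⟩ := exists_lt_of_csInf_lt (ne j) (lt_add_of_pos_right (d j) (o0 j))
    exact ⟨h, hh, hl.le⟩
  choose h hh hn using hx
  obtain ⟨h', k1, k2⟩ := lim h (fun i => (2 * (iSup d - d i) + 4 * (1 / (i + 1))) / c) hh (by
      have := ((((tendsto_const_nhds (x := iSup d)).sub dt).const_mul 2).add
        (ot.const_mul 4)).div_const c
      simpa using this) fun i j hij => by
    have a1 := i1 i _ (hh i)
    have a2 := i1 i _ (hh j)
    have a3 := i1 i _ (mid _ _ (hh i) (hh j))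
    have e : ∫ y, c * ‖h i y - h j y‖ ^ 2 ∂ν ≤ 2 * n i (h i) + 2 * n i (h j) -
        4 * n i fun y => (h i y + h j y) / 2 := by
      have a4 : Integrable (fun y => 2 * (‖u y - h i y‖ ^ 2 * w i y) +
          2 * (‖u y - h j y‖ ^ 2 * w i y)) ν := (a1.const_mul 2).add (a2.const_mul 2)
      simp only [n]
      rw [← integral_const_mul, ← integral_const_mul, ← integral_const_mul,
        ← integral_add (a1.const_mul 2) (a2.const_mul 2), ← integral_sub a4 (a3.const_mul 4)]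
      refine integral_mono_of_nonneg (Eventually.of_forall fun y => by positivity)
        (a4.sub (a3.const_mul 4)) (Eventually.of_forall fun y => ?_)
      have := mul_le_mul_of_nonneg_right (w0 i y) (sq_nonneg ‖h i y - h j y‖)
      have p := par (u y) (h i y) (h j y)
      simp only
      nth_rewrite 2 [p] at this
      linarith
    rw [integral_const_mul] at e
    have b1 := dl i _ (mid _ _ (hh i) (hh j))
    have b2 := (nm i j _ hij (hh j)).trans (hn j)
    have b3 : (1 : ℝ) / (j + 1) ≤ 1 / (i + 1) :=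
      one_div_le_one_div_of_le (by positivity) (by exact_mod_cast Nat.succ_le_succ hij)
    have b4 := le_ciSup bd j
    rw [le_div_iff₀' hc]
    linarith [hn i]
  refine ⟨le_trans (le_csInf (ne 0) (by rintro _ ⟨k, -, rfl⟩; exact n0 0 k)) (dD 0), h', k1,
    fun W hW => ?_⟩
  calc ∫⁻ y, ENNReal.ofReal (‖u y - h' y‖ ^ 2 * W y) ∂ν
      ≤ ∫⁻ y, liminf (fun j => ENNReal.ofReal (‖u y - h j y‖ ^ 2 * w j y)) atTop ∂ν := by
        refine lintegral_mono_ae (hW.mono fun y hy => ?_)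
        have t : Tendsto (fun j => ENNReal.ofReal (‖u y - h j y‖ ^ 2 * W y)) atTop
            (𝓝 (ENNReal.ofReal (‖u y - h' y‖ ^ 2 * W y))) :=
          ENNReal.tendsto_ofReal ((((k2 y).const_sub (u y)).norm.pow 2).mul_const _)
        rw [← t.liminf_eq]
        exact liminf_le_liminf (hy.mono fun j hj =>
          ENNReal.ofReal_le_ofReal (mul_le_mul_of_nonneg_left hj (sq_nonneg _)))
    _ ≤ liminf (fun j => ∫⁻ y, ENNReal.ofReal (‖u y - h j y‖ ^ 2 * w j y) ∂ν) atTop :=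
        lintegral_liminf_le' fun j => (i1 j _ (hh j)).aemeasurable.ennreal_ofReal
    _ ≤ ENNReal.ofReal D := by
        have t : Tendsto (fun j : ℕ => ENNReal.ofReal (D + 1 / (j + 1))) atTop
            (𝓝 (ENNReal.ofReal D)) :=
          ENNReal.tendsto_ofReal (by simpa using ot.const_add D)
        rw [← t.liminf_eq]
        refine liminf_le_liminf (Eventually.of_forall fun j => ?_)
        rw [← ofReal_integral_eq_lintegral_ofReal (i1 j _ (hh j))
          (Eventually.of_forall (f0 j (h j)))]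
        exact ENNReal.ofReal_le_ofReal ((hn j).trans (by linarith [dD j]))

end Pool.Agent.Lib.MP_813db1_ag.SV.HE
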