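import Pool.Agent.Lib.MP_813db1_ag.SV.StB
import Pool.Agent.Lib.MP_813db1_ag.SV.HorA

/-! The estimate of Hoermander for a singular weight. -/

namespace Pool.Agent.Lib.MP_813db1_ag.SV

open Pool.Agent.Lib.MP_813db1_ag.HS Pool.Agent.Lib.MP_813db1_ag.AS Pool.Agent.Lib.MP_813db1_ag.AN
open Pool.Agent.Lib.MP_bbd4b9_ag.BR (FinT)
open MeasureTheory Complex Matrix Filter Topology Set Metric
open scoped ContDiff ComplexOrder ENNReal

namespace HE

variable {ι Y : Type} [Fintype ι] [DecidableEq ι] [TopologicalSpace Y] {M : Atl ι Y}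
  {β β' g : Y → Mat ι} {Q Q' : Y → ℝ}

omit [DecidableEq ι] in
theorem ev_ch (M : Atl ι Y) {y : Y} {p : Y → Prop} (h : ∀ᶠ x in 𝓝 y, p x) :
    ∀ᶠ w in 𝓝 (M.ch y y), p ((M.ch y).symm w) := by
  have := (M.ch y).continuousAt_symm ((M.ch y).map_source (M.mem y))
  rw [ContinuousAt, (M.ch y).left_inv (M.mem y)] at this
  exact this.eventually h

theorem ck_cont {u : Y → ℝ} (h : M.Ck ∞ u) : Continuous u := by
  refine continuous_iff_continuousAt.2 fun y => ?_
  have a := (contDiffAt_ofReal.1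
    (h _ (M.ch_mem y) _ ((M.ch y).map_source (M.mem y)))).continuousAt.comp
      ((M.ch y).continuousAt (M.mem y))
  refine a.congr (((M.ch y).open_source.eventually_mem (M.mem y)).mono fun x hx => ?_)
  simp only [Function.comp, (M.ch y).left_inv hx]

theorem qb_at (h : QB M β Q) {y : Y} (hy : 0 < Q y) :
    ContDiffAt ℝ 2 (fun w => Q ((M.ch y).symm w)) (M.ch y y) :=
  (contDiffAt_ofReal.1 (h.sm _ (M.ch_mem y) _ ((M.ch y).map_source (M.mem y))
    (by rwa [(M.ch y).left_inv (M.mem y)]))).of_le (by norm_cast)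

theorem qb_mul (h : QB M β Q) (h' : QB M β' Q') :
    QB M (fun y => β y + β' y) fun y => Q y * Q' y := by
  have pos : ∀ y, 0 < Q y * Q' y → 0 < Q y ∧ 0 < Q' y := fun y hy =>
    ⟨(h.nn y).lt_of_ne fun e => by simp [← e] at hy,
      (h'.nn y).lt_of_ne fun e => by simp [← e] at hy⟩
  refine ⟨h.cont.mul h'.cont, fun y => mul_nonneg (h.nn y) (h'.nn y), fun e he z hz hp => ?_,
    fun y hy => ?_⟩
  · exact contDiffAt_ofReal.2 ((contDiffAt_ofReal.1 (h.sm e he z hz (pos _ hp).1)).mul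
      (contDiffAt_ofReal.1 (h'.sm e he z hz (pos _ hp).2)))
  · obtain ⟨a, b⟩ := pos y hy
    have l := (M.ch y).left_inv (M.mem y)
    have c1 := contDiffAt_ofReal.2 ((qb_at h a).log (by rw [l]; exact a.ne'))
    have c2 := contDiffAt_ofReal.2 ((qb_at h' b).log (by rw [l]; exact b.ne'))
    have e : M.ddc (fun x => Real.log (Q x * Q' x)) y =
        M.ddc (fun x => Real.log (Q x)) y + M.ddc (fun x => Real.log (Q' x)) y :=
      (levi_congr ((ev_ch M ((h.cont.continuousAt.eventually (lt_mem_nhds a)).and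
        (h'.cont.continuousAt.eventually (lt_mem_nhds b)))).mono fun w hw => by
          simp only [fn, Real.log_mul hw.1.ne' hw.2.ne', ofReal_add])).trans (levi_add c1 c2)
    rw [e, add_add_add_comm]
    exact (h.psd y a).add (h'.psd y b)

theorem qb_pow (h : QB M β Q) (h' : QB M g Q') (n : ℕ) :
    QB M (fun y => β y + (n : ℂ) • g y) fun y => Q y * Q' y ^ n := by
  induction n with
  | zero => simpa using h
  | succ n ih =>
    have := qb_mul ih h'
    simp only [add_assoc, mul_assoc] at this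
    simpa only [Nat.cast_succ, add_smul, one_smul, pow_succ] using this

theorem qb_tl {m : ℕ → ℝ → ℝ} {c : ℝ} (hm : Tl m c) (h : QB M β Q) (hβ : ∀ y, (β y).PosSemidef)
    (j : ℕ) : M.Ck ∞ (fun y => m j (Q y)) ∧
      ∀ y, (β y + M.ddc (fun y => m j (Q y)) y).PosSemidef := by
  have lo : ∀ y, ¬ 0 < Q y → ∀ᶠ x in 𝓝 y, m j (Q x) = c - j := fun y hy =>
    (h.cont.continuousAt.eventually (gt_mem_nhds ((not_lt.1 hy).trans_lt
      (Real.exp_pos (-j - 1))))).mono fun x hx => hm.low j _ hx.le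
  refine ⟨fun e he z hz => ?_, fun y => ?_⟩
  · by_cases hp : 0 < Q (e.symm z)
    · exact contDiffAt_ofReal.2
        ((hm.sm j).contDiffAt.comp z (contDiffAt_ofReal.1 (h.sm e he z hz hp)))
    · exact (contDiffAt_const (c := ((c - j : ℝ) : ℂ))).congr_of_eventuallyEq
        (((e.continuousAt_symm hz).eventually (lo _ hp)).mono fun w hw => congrArg ofReal hw)
  · by_cases hp : 0 < Q y
    · exact hm.psd j ι _ _ _ (qb_at h hp) (hβ y) fun _ => h.psd y hp
    · have e : M.ddc (fun y => m j (Q y)) y = 0 :=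
        (levi_congr (g := fun _ => ((c - j : ℝ) : ℂ))
          ((ev_ch M (lo _ hp)).mono fun w hw => congrArg ofReal hw)).trans (levi_const _ _)
      rw [e, add_zero]
      exact hβ y

theorem lin3 {u v w : Y → ℝ} (hu : M.Ck ∞ u) (hv : M.Ck ∞ v) (hw : M.Ck ∞ w) (q r : ℝ) :
    M.Ck ∞ (fun y => q * u y + r * v y + w y) ∧ ∀ y, M.ddc (fun y => q * u y + r * v y + w y) y =
      (q : ℂ) • M.ddc u y + (r : ℂ) • M.ddc v y + M.ddc w y := by
  have e : ∀ e : Ch ι Y, fn (fun y => q * u y + r * v y + w y) e =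
      fun z => q * fn u e z + r * fn v e z + fn w e z := fun e => funext fun z => by simp [fn]
  refine ⟨fun e' he z hz => ?_, fun y => ?_⟩
  · rw [e]
    exact ((contDiffAt_const.mul (hu e' he z hz)).add
      (contDiffAt_const.mul (hv e' he z hz))).add (hw e' he z hz)
  · have c : ∀ {f : Y → ℝ}, M.Ck ∞ f → ContDiffAt ℝ 2 (fn f (M.ch y)) (M.ch y y) := fun hf =>
      (hf _ (M.ch_mem y) _ ((M.ch y).map_source (M.mem y))).of_le (by norm_cast)
    rw [Atl.ddc, e, levi_add ((contDiffAt_const.mul (c hu)).add (contDiffAt_const.mul (c hv)))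
      (c hw), levi_add (contDiffAt_const.mul (c hu)) (contDiffAt_const.mul (c hv)),
      levi_cmul _ (c hu), levi_cmul _ (c hv)]
    rfl

theorem ex_eq {A t : ℝ} (hA : 0 < A) (ht : 0 < t) (q p : ℝ) (C i : ℕ) :
    Real.exp (-(q * Real.log (A * t ^ C) + (i - q * C) * Real.log t + p)) =
      A ^ (-q) * (t ^ i)⁻¹ * Real.exp (-p) := by
  rw [Real.log_mul hA.ne' (pow_pos ht C).ne', Real.log_pow, Real.rpow_def_of_pos hA,
    ← Real.exp_log (pow_pos ht i), ← Real.exp_neg, ← Real.exp_add, ← Real.exp_add, Real.log_pow]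
  congr 1
  ring

variable [MeasurableSpace Y] {ν : Measure Y}

omit [TopologicalSpace Y] in
theorem int_of {f : Y → ℝ} {D : ℝ} (hf : AEMeasurable f ν) (h0 : ∀ y, 0 ≤ f y) (hD : 0 ≤ D)
    (h : ∫⁻ y, ENNReal.ofReal (f y) ∂ν ≤ ENNReal.ofReal D) : Integrable f ν ∧ ∫ y, f y ∂ν ≤ D := by
  have i : Integrable f ν := ⟨hf.aestronglyMeasurable,
    (hasFiniteIntegral_iff_ofReal (Eventually.of_forall h0)).2 (h.trans_lt ENNReal.ofReal_lt_top)⟩
  rw [← ofReal_integral_eq_lintegral_ofReal i (Eventually.of_forall h0)] at h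
  exact ⟨i, (ENNReal.ofReal_le_ofReal_iff hD).1 h⟩

variable {S : Sg M g ν}

theorem dif {ξ : Y → Mat ι} {T : Bun S ξ} (hB : T.BasB) {σ σ' : Y → ℂ} (h : S.Sm T.U σ)
    (h' : S.Sm T.U σ') : Continuous fun y => ‖σ y - σ' y‖ ^ 2 := by
  simpa [sub_eq_add_neg] using (hB.ck _ (hB.ck_lin 1 (-1) σ σ' h h')).2

theorem rep_mul (P : Pol S) (a b i : ℕ) (τ u : Y → ℂ) (k : S.κ) :
    S.rep (P.U a (b + i)) (fun y => τ y ^ i * u y) k =
      fun w => S.rep (P.U 0 1) τ k w ^ i * S.rep (P.U a b) u k w := funext fun w => by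
  simp only [Sg.rep, Pol.U]
  ring

theorem ip1_mul (P : Pol S) (a b i : ℕ) {τ u : Y → ℂ} (hτ : S.Hol (P.U 0 1) τ)
    (hu : S.Sm (P.U a b) u) (y : Y) :
    (S.ip1 (P.U a (b + i)) g (fun y => τ y ^ i * u y) (fun y => τ y ^ i * u y) y).re =
      (‖τ y‖ ^ 2) ^ i * (S.ip1 (P.U a b) g u u y).re := by
  have hy : y ∈ (S.c (S.ch y)).source := S.ch_eq y ▸ M.mem y
  have hz : S.c (S.ch y) y ∈ ball (0 : V ι) 4 :=
    mem_ball_zero_iff.2 ((S.ch_lt y).trans (by norm_num))
  have d1 : DifferentiableAt ℂ (fun w => S.rep (P.U 0 1) τ (S.ch y) w ^ i) (S.c (S.ch y) y) :=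
    ((hτ _).differentiableAt (isOpen_ball.mem_nhds hz)).pow i
  have d2 := (hu (S.ch y) _ hz).differentiableAt (by simp)
  have u0 : P.u (S.ch y) y ≠ 0 := fun e => by
    have := P.u_nrm _ y hy
    rw [e, norm_zero, zero_pow two_ne_zero] at this
    exact (Real.exp_pos _).ne this
  have v : S.vec (P.U a (b + i)) (fun y => τ y ^ i * u y) y = τ y ^ i • S.vec (P.U a b) u y := by
    have e : (P.U a (b + i) (S.ch y) y)⁻¹ * S.rep (P.U 0 1) τ (S.ch y) (S.c (S.ch y) y) ^ i =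
        τ y ^ i * (P.U a b (S.ch y) y)⁻¹ := by
      simp only [Sg.rep, Pol.U, (S.c (S.ch y)).left_inv hy, pow_zero, pow_one, one_mul]
      rw [pow_add, ← mul_assoc, mul_inv, mul_pow, mul_assoc, ← mul_assoc (_ ^ i)⁻¹,
        inv_mul_cancel₀ (pow_ne_zero _ u0), one_mul, mul_comm]
    funext l
    simp only [Sg.vec, rep_mul, shp, Pi.smul_apply, smul_eq_mul,
      dzb_mul (d1.restrictScalars ℝ) d2, dzb_hol d1, zero_mul, zero_add]
    rw [← mul_assoc, ← e, mul_assoc, Finset.mul_sum (a := _ ^ i)]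
    exact congrArg _ (Finset.sum_congr rfl fun j _ => by ring)
  have e : ∀ (c : ℂ) (s : V ι), ipV (g y) (c • s) (c • s) = (‖c‖ ^ 2 : ℝ) * ipV (g y) s s :=
    fun c s => by
      rw [ofReal_pow, ← mul_conj']
      simp only [ipV, Pi.smul_apply, smul_eq_mul, star_mul', Finset.mul_sum, RCLike.star_def]
      exact Finset.sum_congr rfl fun i _ => Finset.sum_congr rfl fun j _ => by ring
  rw [Sg.ip1, v, e, re_ofReal_mul, norm_pow, pow_right_comm]
  rfl

end HE

open HE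

variable {ι Y : Type} [Fintype ι] [DecidableEq ι] [TopologicalSpace Y]
  [MeasurableSpace Y] [BorelSpace Y] {M : Atl ι Y} {g : Y → Mat ι} {ν : Measure Y}
  {S : Sg M g ν} {P : Pol S} {τ : Y → ℂ}

theorem horE (hA : S.BasA) (hP : P.Bn) (h0 : P.Sec0 τ) (hD : P.Div τ) : P.HorE := by
  intro a b C β Q ψ q c u hc hq hQ hK hβ hψ hψc hcv hu hv hI ε hε
  obtain ⟨m, c0, hm⟩ := tl
  have := hA.fin
  obtain ⟨i, hi0, hi⟩ : ∃ i : ℕ, i ≠ 0 ∧ 0 ≤ (i : ℝ) - q * C :=
    ⟨⌈q * C⌉₊ + 1, Nat.succ_ne_zero _, by push_cast; linarith [Nat.le_ceil (q * C)]⟩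
  obtain ⟨T0, e0, a0⟩ := hP.ex 0 1
  obtain ⟨T, e, a1⟩ := hP.ex a b
  obtain ⟨T', e', a2⟩ := hP.ex a (b + i)
  obtain ⟨t, ht⟩ : ∃ t : Y → ℝ, t = fun y => ‖τ y‖ ^ 2 := ⟨_, rfl⟩
  have t0 : ∀ y, 0 ≤ t y := fun y => ht ▸ sq_nonneg _
  have t1 : ∀ y, t y ≤ 1 := fun y => ht ▸ pow_le_one₀ (norm_nonneg _) (h0.bd y)
  have tp : ∀ y, τ y ≠ 0 → 0 < t y := fun y hy => ht ▸ pow_pos (norm_pos_iff.2 hy) 2
  have qt : QB M g t := by
    have := a0.lg 1 (fun _ => τ) fun _ => e0 ▸ h0.hol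
    simpa [th, ht] using this
  have q1 := qb_pow hQ qt C
  have r0 : ∀ y, 0 ≤ Q y * t y ^ C := q1.nn
  have r1 : ∀ y, Q y * t y ^ C ≤ Q y := fun y =>
    mul_le_of_le_one_right (hQ.nn y) (pow_le_one₀ (t0 y) (t1 y))
  have k1 := qb_tl hm q1 hβ
  have k2 := qb_tl hm qt fun y => (hA.det y).1.posSemidef
  obtain ⟨φ, hφ⟩ : ∃ φ : ℕ → Y → ℝ,
    φ = fun j y => q * m j (Q y * t y ^ C) + (i - q * C) * m j (t y) + ψ y := ⟨_, rfl⟩
  have f1 : ∀ j, M.Ck ∞ (φ j) := fun j => hφ ▸ (lin3 (k1 j).1 (k2 j).1 hψ _ _).1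
  have f2 : ∀ j y, (th M g (a - 1) (b + i : ℕ) y + M.ddc (φ j) y - (c : ℂ) • g y).PosSemidef :=
    fun j y => by
      have := ((((k1 j).2 y).smul (zero_le_real.2 hq)).add
        (((k2 j).2 y).smul (zero_le_real.2 hi))).add (hcv y)
      rw [hφ, (lin3 (k1 j).1 (k2 j).1 hψ _ _).2]
      convert this using 1
      simp only [th]
      push_cast
      module
  have f3 : ∀ j, FinT S.toSt (φ j) := fun j => by
    choose kk hk using S.onto
    refine ⟨fun a z => q * (c0 - j) + (i - q * C) * m j (t ((S.c (kk a)).symm z)),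
      fun a z hz => contDiffAt_const.add (contDiffAt_const.mul
        (contDiffAt_ofReal.1 ((k2 j).1 _ (S.mem _) z (S.tgt _ ▸ hz)))),
      (S.fin _ ((hK _ (Real.exp_pos (-j - 1))).union hψc) 3 (by norm_num)).subset fun k hk' => ?_⟩
    by_contra hn
    refine hk' fun z hz => ?_
    have z4 : z ∈ ball (0 : V ι) 4 := ball_subset_ball (by norm_num) hz
    have zt : z ∈ (S.c k).target := S.tgt _ ▸ z4
    have hy : (S.c k).symm z ∉ {y | Real.exp (-j - 1) ≤ Q y} ∪ tsupport ψ := fun h =>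
      hn ⟨_, h, (S.c k).map_target zt, by
        rw [(S.c k).right_inv zt]
        exact (mem_ball_zero_iff.1 hz).le⟩
    rw [mem_union, not_or] at hy
    simp only [hφ, image_eq_zero_of_notMem_tsupport hy.2,
      hm.low j _ ((r1 _).trans (not_le.1 hy.1).le), add_zero]
    simp only [ht, h0.inv k (kk (S.ty k)) (hk _).symm z z4]
  obtain ⟨A, A1, hQA⟩ : ∃ A, 1 ≤ A ∧ ∀ y, Q y ≤ A := by
    obtain ⟨A, h⟩ := (hK 1 one_pos).bddAbove_image hQ.cont.continuousOn
    refine ⟨max 1 A, le_max_left _ _, fun y => ?_⟩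
    rcases le_total 1 (Q y) with h' | h'
    · exact (h ⟨y, h', rfl⟩).trans (le_max_right _ _)
    · exact h'.trans (le_max_left _ _)
  have cψ := ck_cont hψ
  obtain ⟨B, hB⟩ := cψ.bounded_above_of_compact_support hψc
  simp only [Real.norm_eq_abs, abs_le] at hB
  have f4 : ∀ y, Antitone fun j => φ j y := fun y j j' h => by
    have := mul_le_mul_of_nonneg_left (hm.anti _ (r0 y) h) hq
    have := mul_le_mul_of_nonneg_left (hm.anti _ (t0 y) h) hi
    simp only [hφ]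
    linarith
  have f5 : ∀ j y, φ j y ≤ q * (A + 1 + c0) + (i - q * C) * (1 + 1 + c0) + B := fun j y => by
    refine (f4 y (Nat.zero_le j)).trans ?_
    have := mul_le_mul_of_nonneg_left ((hm.top _ (r0 y)).trans
      (show _ ≤ A + 1 + c0 by linarith [r1 y, hQA y])) hq
    have := mul_le_mul_of_nonneg_left ((hm.top _ (t0 y)).trans
      (show _ ≤ 1 + 1 + c0 by linarith [t1 y])) hi
    simp only [hφ]
    linarith [(hB y).2]
  have f6 : ∀ (j : ℕ) y, q * (c0 - j) + (i - q * C) * (c0 - j) - B ≤ φ j y := fun j y => by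
    have := mul_le_mul_of_nonneg_left (hm.ge j (Q y * t y ^ C)) hq
    have := mul_le_mul_of_nonneg_left (hm.ge j (t y)) hi
    simp only [hφ]
    linarith [(hB y).1]
  have f7 : ∀ y, τ y ≠ 0 → ∀ A' > 0, Q y ≤ A' → ∀ᶠ j in atTop,
      A' ^ (-q) * (t y ^ i)⁻¹ * Real.exp (-ψ y) ≤ Real.exp (-φ j y) := fun y hy A' h1 h2 => by
    filter_upwards [hm.ev _ _ (r0 y) (mul_le_mul_of_nonneg_right h2 (pow_nonneg (t0 y) C))
      (mul_pos h1 (pow_pos (tp y hy) C)), hm.ev _ _ (t0 y) le_rfl (tp y hy)] with j j1 j2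
    rw [← ex_eq h1 (tp y hy) q (ψ y) C i, Real.exp_le_exp, neg_le_neg_iff]
    have := mul_le_mul_of_nonneg_left j1 hq
    have := mul_le_mul_of_nonneg_left j2 hi
    simp only [hφ]
    linarith
  obtain ⟨u', hu'⟩ : ∃ u' : Y → ℂ, u' = fun y => τ y ^ i * u y := ⟨_, rfl⟩
  have su : S.Sm T.U u := e ▸ hu.1
  have du : S.Dc T'.U u' := by
    rw [e', hu']
    refine ⟨fun k z hz => ?_, hu.2.mul_left⟩
    rw [rep_mul]
    exact ((e0 ▸ (a0.b.hol_an τ (e0 ▸ h0.hol)).1 k z hz).pow i).mul (hu.1 k z hz)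
  have iu : ∀ {ξ} {T : Bun S ξ} {v : Y → ℂ}, T.BasB → S.Dc T.U v →
      Integrable (fun y => ‖v y‖ ^ 2) ν := fun hB hv =>
    (hB.ck _ hv.1).2.integrable_of_hasCompactSupport
      (hv.2.comp_left (g := fun x : ℂ => ‖x‖ ^ 2) (by simp))
  have n0 : ∀ y, 0 ≤ (S.ip1 (P.U a b) g u u y).re := fun y =>
    e ▸ a1.c.nn g u y (hA.det y).1.posSemidef
  have pI : ∀ j, S.p1 T'.U (φ j) u' u' ≤
      ∫ y, (S.ip1 (P.U a b) g u u y).re * Q y ^ (-q) * Real.exp (-ψ y) ∂ν := fun j => by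
    simp only [Sg.p1, e', hu', ip1_mul P a b i h0.hol hu.1]
    refine integral_mono_of_nonneg (Eventually.of_forall fun y => ?_) hI
      (Eventually.of_forall fun y => ?_)
    · exact mul_nonneg (mul_nonneg (by positivity) (n0 y)) (Real.exp_pos _).le
    have g0 : 0 ≤ (S.ip1 (P.U a b) g u u y).re * Q y ^ (-q) * Real.exp (-ψ y) :=
      mul_nonneg (mul_nonneg (n0 y) (Real.rpow_nonneg (hQ.nn y) _)) (Real.exp_pos _).le
    by_cases hy : τ y = 0
    · simpa [hy, hi0] using g0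
    rcases (hQ.nn y).eq_or_lt with hz | hz
    · simp [Sg.ip1, hv y hz.symm, ipV]
    have g1 : Real.exp (-φ j y) ≤ Q y ^ (-q) * (t y ^ i)⁻¹ * Real.exp (-ψ y) := by
      rw [← ex_eq hz (tp y hy) q (ψ y) C i, Real.exp_le_exp, neg_le_neg_iff]
      have := mul_le_mul_of_nonneg_left (hm.log j _ (mul_pos hz (pow_pos (tp y hy) C))) hq
      have := mul_le_mul_of_nonneg_left (hm.log j _ (tp y hy)) hi
      simp only [hφ]
      linarith
    have g2 := mul_le_mul_of_nonneg_left g1 (mul_nonneg (pow_nonneg (t0 y) i) (n0 y))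
    have g3 := (pow_pos (tp y hy) i).ne'
    simp only [ht] at g2 g3
    refine g2.trans_eq ?_
    field_simp
  obtain ⟨D0, H, hH, hW⟩ := minim (ν := ν) (S.H2 T'.U) u' (fun j y => Real.exp (-φ j y))
    (D := 2 * ((∫ y, (S.ip1 (P.U a b) g u u y).re * Q y ^ (-q) * Real.exp (-ψ y) ∂ν) / c))
    (Real.exp_pos _) (fun j y => Real.exp_le_exp.2 (neg_le_neg (f5 j y)))
    (fun y j j' h => Real.exp_le_exp.2 (neg_le_neg (f4 y h)))
    (fun h h' b1 b2 => by
      have := a2.d.h2 (Fin 2) Finset.univ (fun _ => 1 / 2) ![h, h'] fun j _ => by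
        fin_cases j
        exacts [b1, b2]
      convert this using 2
      simp [Fin.sum_univ_two]
      ring)
    (fun j h b1 => by
      refine Integrable.mul_bdd ?_ (ck_cont (f1 j)).neg.rexp.aestronglyMeasurable
        (Eventually.of_forall fun y => (Real.norm_of_nonneg (Real.exp_pos _).le).trans_le
          (Real.exp_le_exp.2 (neg_le_neg (f6 j y))))
      refine (((iu a2.b du).const_mul 2).add (b1.2.const_mul 2)).mono'
        (dif a2.b du.1 (a2.b.hol_an h b1.1).1).aestronglyMeasurable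
        (Eventually.of_forall fun y => ?_)
      simpa using tri (u' y) (u' y - h y))
    (fun j δ hδ => by
      obtain ⟨h, b1, -, b2⟩ := a2.hor c _ (φ j) u' hc (f1 j) (f3 j) (f5 j) (f2 j) du δ hδ
      exact ⟨h, b1, b2.trans (by gcongr; exact pI j)⟩) a2.d.lim
  have ae : ∀ᵐ y ∂ν, τ y ≠ 0 := measure_eq_zero_iff_ae_notMem.1 hD.null
  have A0 : 0 < A := one_pos.trans_le A1
  have cp : 0 < A ^ (-q) * Real.exp (-B) := by positivity
  have mt : Measurable fun y => (t y ^ i)⁻¹ := (qt.cont.pow i).measurable.inv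
  have mH := (dif a2.b du.1 (a2.b.hol_an H hH.1).1).measurable
  have j1 : Integrable (fun y => ‖u' y - H y‖ ^ 2 * (t y ^ i)⁻¹) ν := by
    have := (int_of (mH.mul (mt.const_mul (A ^ (-q) * Real.exp (-B)))).aemeasurable
      (fun y => mul_nonneg (sq_nonneg _) (mul_nonneg cp.le (inv_nonneg.2 (pow_nonneg (t0 y) i)))) D0
      (hW _ (ae.mono fun y hy => (f7 y hy A A0 (hQA y)).mono fun j hj => le_trans ?_ hj))).1
    · refine (this.const_mul (A ^ (-q) * Real.exp (-B))⁻¹).congr (Eventually.of_forall fun y => ?_)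
      simp only [Pi.mul_apply]
      field_simp
    · rw [mul_right_comm]
      exact mul_le_mul_of_nonneg_left (Real.exp_le_exp.2 (neg_le_neg (hB y).2))
        (mul_nonneg (by positivity) (inv_nonneg.2 (pow_nonneg (t0 y) i)))
  have iu0 := iu a1.b (e ▸ hu)
  have nt : ∀ y, τ y ≠ 0 → ∀ x : ℂ, ‖τ y ^ i * x‖ ^ 2 * (t y ^ i)⁻¹ = ‖x‖ ^ 2 := fun y hy x => by
    have := (pow_pos (tp y hy) i).ne'
    rw [norm_mul, mul_pow, norm_pow, pow_right_comm]
    simp only [ht] at this ⊢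
    field_simp
  obtain ⟨h, b1, b2⟩ := hD.pow a b i H (e' ▸ hH.1) fun k => Integrable.integrableOn (by
    simp only [pow_mul]
    refine ((iu0.const_mul 2).add (j1.const_mul 2)).mono'
      ((a2.b.ck _ (a2.b.hol_an H hH.1).1).2.measurable.mul
        (by simpa only [ht] using mt)).aestronglyMeasurable
      (ae.mono fun y hy => ?_)
    have := mul_le_mul_of_nonneg_right (tri (u' y) (H y)) (inv_nonneg.2 (pow_nonneg (t0 y) i))
    have e1 := nt y hy (u y)
    rw [Real.norm_of_nonneg (by positivity)]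
    simp only [Pi.add_apply, hu', ht] at this e1 ⊢
    linarith)
  have sh := (a1.b.hol_an h (e ▸ b1)).1
  have e2 : ∀ᵐ y ∂ν, ‖u' y - H y‖ ^ 2 * (t y ^ i)⁻¹ = ‖u y - h y‖ ^ 2 := ae.mono fun y hy => by
    rw [← nt y hy (u y - h y), mul_sub, hu', b2]
  have mh := (dif a1.b su sh).measurable
  obtain ⟨j2, j3⟩ := int_of (f := fun y => ‖u y - h y‖ ^ 2 * Q y ^ (-q) * Real.exp (-ψ y))
    ((mh.mul (hQ.cont.measurable.pow_const _)).mul cψ.neg.rexp.measurable).aemeasurable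
    (fun y => mul_nonneg (mul_nonneg (sq_nonneg _) (Real.rpow_nonneg (hQ.nn y) _))
      (Real.exp_pos _).le) D0
    (le_trans (lintegral_congr_ae (e2.mono fun y hy => by rw [← hy]; congr 1; ring)).le
      (hW (fun y => Q y ^ (-q) * (t y ^ i)⁻¹ * Real.exp (-ψ y)) (ae.mono fun y hy => by
        rcases (hQ.nn y).eq_or_lt with hz | hz
        · refine (f7 y hy 1 one_pos (hz ▸ zero_le_one)).mono fun j hj => le_trans ?_ hj
          rw [← hz, Real.one_rpow]
          exact mul_le_mul_of_nonneg_right (mul_le_mul_of_nonneg_right (Real.zero_rpow_le_one _)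
            (inv_nonneg.2 (pow_nonneg (t0 y) i))) (Real.exp_pos _).le
        · exact f7 y hy _ hz le_rfl)))
  refine ⟨h, ⟨b1, ((iu0.const_mul 2).add ((j1.congr e2).const_mul 2)).mono'
    (a1.b.ck _ sh).2.aestronglyMeasurable (Eventually.of_forall fun y => ?_)⟩, j2, by linarith⟩
  simpa using tri (u y) (h y)

end Pool.Agent.Lib.MP_813db1_ag.SV
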