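import Pool.Agent.Lib.MP_813db1_ag.SV.StB
import Pool.Agent.Lib.MP_813db1_ag.AN.Pk
import Pool.Agent.Lib.MP_813db1_ag.HS.Green_A

/-! One step of the iteration: sections that are integrable against a singular weight. -/

namespace Pool.Agent.Lib.MP_813db1_ag.SV

open Pool.Agent.Lib.MP_813db1_ag.HS Pool.Agent.Lib.MP_813db1_ag.AS Pool.Agent.Lib.MP_813db1_ag.AN
open MeasureTheory Complex Matrix Filter Topology Set Metric
open scoped ContDiff ComplexOrder

namespace ImpP

variable {ι Y : Type} [Fintype ι] [DecidableEq ι] [TopologicalSpace Y] {M : Atl ι Y}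

theorem cont {u : Y → ℝ} (h : M.Ck ∞ u) : Continuous u := by
  refine continuous_iff_continuousAt.2 fun y => ?_
  have c := (contDiffAt_ofReal.1 (h _ (M.ch_mem y) _
    ((M.ch y).map_source (M.mem y)))).continuousAt.comp ((M.ch y).continuousAt (M.mem y))
  refine c.congr ?_
  filter_upwards [(M.ch y).open_source.mem_nhds (M.mem y)] with x hx
  rw [Function.comp, (M.ch y).left_inv hx]

/-- a cut-off function that is locally constant where `P` is small. -/
theorem cutoff [T2Space Y] {W : Set Y} {P : Y → ℝ} (hW : IsOpen W) (hc : IsCompact (closure W))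
    (hP : M.Ck ∞ P) (hf : ∀ x ∈ frontier W, 0 < P x) : ∃ δ > (0 : ℝ), ∃ χ : Y → ℝ, M.Ck ∞ χ ∧
      HasCompactSupport χ ∧ (∀ x, P x < δ → ∃ a, ∀ᶠ w in 𝓝 x, χ w = a) ∧
      ∀ x ∈ W, P x < δ → ∀ᶠ w in 𝓝 x, χ w = 1 := by
  have cP := cont hP
  obtain ⟨d, d0, hd⟩ := (hc.of_isClosed_subset isClosed_frontier
    frontier_subset_closure).exists_forall_le' cP.continuousOn hf
  have h1 : ∀ x ∈ W, ∀ᶠ w in 𝓝 x, W.indicator (fun x => Real.smoothTransition (2 - 3 * P x / d)) w =
      Real.smoothTransition (2 - 3 * P w / d) := fun x hx => by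
    filter_upwards [hW.mem_nhds hx] with w hw using indicator_of_mem hw _
  have h2 : ∀ x ∉ W, ∀ᶠ w in 𝓝 x,
      W.indicator (fun x => Real.smoothTransition (2 - 3 * P x / d)) w = 0 := fun x hx => by
    by_cases h : x ∈ closure W
    · have := hd x (by rw [hW.frontier_eq]; exact ⟨h, hx⟩)
      filter_upwards [cP.continuousAt.eventually (lt_mem_nhds (show 2 * d / 3 < P x by linarith))]
        with w hw
      refine indicator_apply_eq_zero.2 fun _ => Real.smoothTransition.zero_of_nonpos ?_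
      rw [sub_nonpos, le_div_iff₀ d0]; linarith
    · filter_upwards [isClosed_closure.isOpen_compl.mem_nhds h] with w hw
      exact indicator_of_notMem (fun h' => hw (subset_closure h')) _
  have h3 : ∀ x ∈ W, P x < d / 3 → ∀ᶠ w in 𝓝 x,
      W.indicator (fun x => Real.smoothTransition (2 - 3 * P x / d)) w = 1 := fun x hx h => by
    filter_upwards [h1 x hx, cP.continuousAt.eventually (gt_mem_nhds h)] with w hw hw'
    rw [hw]
    refine Real.smoothTransition.one_of_one_le ?_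
    have : 3 * P w / d ≤ 1 := by rw [div_le_one d0]; linarith
    linarith
  refine ⟨d / 3, by positivity, _, fun e he z hz => ?_, HasCompactSupport.intro hc fun x hx =>
    indicator_of_notMem (fun h' => hx (subset_closure h')) _, fun x hx => ?_, h3⟩
  · have t := e.continuousAt_symm hz
    by_cases h : e.symm z ∈ W
    · have c1 : ContDiffAt ℝ ∞ (fun w => 2 - 3 * P (e.symm w) / d) z := contDiffAt_const.sub
        ((contDiffAt_const.mul (contDiffAt_ofReal.1 (hP e he z hz))).div_const d)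
      refine (contDiffAt_ofReal.2
        (Real.smoothTransition.contDiffAt.comp z c1)).congr_of_eventuallyEq ?_
      filter_upwards [t.eventually (h1 _ h)] with w hw
      rw [fn, hw]; rfl
    · refine (contDiffAt_const (c := (0 : ℂ))).congr_of_eventuallyEq ?_
      filter_upwards [t.eventually (h2 _ h)] with w hw
      rw [fn, hw, ofReal_zero]
  · by_cases h : x ∈ W
    · exact ⟨1, h3 x h hx⟩
    · exact ⟨0, h2 x h⟩

variable [MeasurableSpace Y] {g : Y → Mat ι} {ν : Measure Y} {S : Sg M g ν} {ξ : Y → Mat ι}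
  {T : Bun S ξ} {χ : Y → ℝ} {s : Y → ℂ}

theorem mb {k : S.κ} {x : Y} (hx : x ∈ (S.c k).source) : S.c k x ∈ ball (0 : V ι) 4 :=
  S.tgt k ▸ (S.c k).map_source hx

theorem src (x : Y) : x ∈ (S.c (S.ch x)).source := S.ch_eq x ▸ M.mem x

theorem shp_mul (hT : T.All) (hχ : M.Ck ∞ χ) (hs : S.Hol T.U s) {k : S.κ} {x : Y}
    (hx : x ∈ (S.c k).source) :
    shp (S.H (S.ty k)) (S.rep T.U (fun y => χ y * s y) k) (S.c k x) =
      S.rep T.U s k (S.c k x) • shp (S.H (S.ty k)) (fn χ (S.c k)) (S.c k x) := by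
  have e : S.rep T.U (fun y => χ y * s y) k = fun z => fn χ (S.c k) z * S.rep T.U s k z :=
    funext fun z => hT.b.mul (fun y => χ y) s k z
  have a := ((hT.b.hol_an s hs).2 k _ (mb hx)).differentiableAt
  funext i
  simp only [e, shp, Pi.smul_apply, smul_eq_mul, Finset.mul_sum]
  refine Finset.sum_congr rfl fun j _ => ?_
  rw [dzb_mul ((hχ _ (S.mem k) _ ((S.c k).map_source hx)).differentiableAt (by simp))
    (a.restrictScalars ℝ), dzb_hol a]
  ring

theorem ip_loc (hT : T.All) (hχ : M.Ck ∞ χ) (hs : S.Hol T.U s) {k : S.κ} {x : Y}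
    (hx : x ∈ (S.c k).source) :
    (S.ip1 T.U g (fun y => χ y * s y) (fun y => χ y * s y) x).re =
      nV (S.H (S.ty k) (S.c k x)) (shp (S.H (S.ty k)) (fn χ (S.c k)) (S.c k x)) * ‖s x‖ ^ 2 := by
  have sm := hT.b.ck_mul χ s hχ (hT.b.hol_an s hs).1
  have f := congrArg re (hT.c.ip1 g _ _ sm sm k x hx)
  have p := ((S.kon (S.ty k)).2 (S.c k x) (ball_subset_ball (by norm_num) (mb hx))).det_pos
  have p' : 0 < (S.H (S.ty k) (S.c k x)).det.re := (Complex.lt_def.1 p).1
  have e : ∀ (H : Mat ι) (c : ℂ) (v : V ι), ipV H (c • v) (c • v) = (‖c‖ ^ 2 : ℝ) * ipV H v v :=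
    fun H c v => by
      simp only [ipV, Pi.smul_apply, smul_eq_mul, Finset.mul_sum, star_mul', RCLike.star_def,
        ofReal_pow, ← mul_conj']
      exact Finset.sum_congr rfl fun i _ => Finset.sum_congr rfl fun j _ => by ring
  rw [shp_mul hT hχ hs hx, S.rep_g k _ (mb hx), e, re_ofReal_mul, re_mul_ofReal,
    re_ofReal_mul] at f
  refine mul_left_cancel₀ p'.ne' ?_
  rw [f, mul_left_comm, hT.b.dn s k x hx, nV]
  ring

theorem pw {t q : ℝ} (ht : 0 ≤ t) (hq : q < 1) : t * t ^ (-q) = t ^ (1 - q) := by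
  rw [sub_eq_add_neg, Real.rpow_add' ht (by linarith), Real.rpow_one]

theorem fin_le (a b : ℂ) (c : ℝ) {q B v : ℝ} (hq : q < 1) (hv : v ≤ B) :
    ‖‖b‖ ^ 2 * (‖a‖ ^ 2) ^ (-q)‖ ≤
      2 * Real.exp B * (‖c * a - b‖ ^ 2 * (‖a‖ ^ 2) ^ (-q) * Real.exp (-v)) +
        2 * (c ^ 2 * (‖a‖ ^ 2) ^ (1 - q)) := by
  have a0 : 0 ≤ (‖a‖ ^ 2) ^ (-q) := by positivity
  have a1 : ‖b‖ ^ 2 ≤ 2 * ‖c * a - b‖ ^ 2 + 2 * ‖c * a‖ ^ 2 := by
    have := norm_le_norm_add_norm_sub' b (c * a)
    rw [norm_sub_rev] at this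
    nlinarith [sq_nonneg (‖c * a - b‖ - ‖c * a‖), norm_nonneg b]
  have a2 : 1 ≤ Real.exp B * Real.exp (-v) := by
    rw [← Real.exp_add]
    exact Real.one_le_exp (by linarith)
  have a3 : ‖c * a‖ ^ 2 = c ^ 2 * ‖a‖ ^ 2 := by simp [mul_pow]
  rw [Real.norm_of_nonneg (by positivity), ← pw (sq_nonneg _) hq]
  rw [a3] at a1
  nlinarith [mul_le_mul_of_nonneg_right a1 a0,
    mul_le_mul_of_nonneg_left a2 (mul_nonneg (sq_nonneg ‖c * a - b‖) a0)]

theorem cont_ip (hT : T.All) (hχ : M.Ck ∞ χ) (hs : S.Hol T.U s) {q : ℝ} (hq : q < 1) :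
    Continuous fun x => (S.ip1 T.U g (fun y => χ y * s y) (fun y => χ y * s y) x).re *
      (‖s x‖ ^ 2) ^ (-q) := by
  refine continuous_iff_continuousAt.2 fun y => ?_
  have hk := src (S := S) y
  generalize S.ch y = k at hk
  have b5 := ball_subset_ball (show (4 : ℝ) ≤ 5 by norm_num) (mb hk)
  have cd := (S.kon (S.ty k)).1.1.cd b5
  have sh := fun i => (Green.cd_shp cd ((S.kon (S.ty k)).2 _ b5).det_pos.ne'
    (hχ _ (S.mem k) _ ((S.c k).map_source hk)) (by simp) i).of_le (zero_le (a := ∞))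
  have c := (continuous_re.continuousAt.comp (Green.cd_ipV (cd.of_le zero_le) sh
    sh).continuousAt).comp ((S.c k).continuousAt hk)
  refine (c.mul ((hT.b.ck s (hT.b.hol_an s hs).1).2.rpow_const (p := 1 - q)
    fun _ => Or.inr (by linarith)).continuousAt).congr ?_
  filter_upwards [(S.c k).open_source.mem_nhds hk] with x hx
  rw [ip_loc hT hχ hs hx, mul_assoc, pw (sq_nonneg _) hq]
  rfl

end ImpP

open ImpP in
theorem imp {ι Y : Type} [Fintype ι] [DecidableEq ι] [Nonempty ι] [TopologicalSpace Y]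
    [T2Space Y] [MeasurableSpace Y] [BorelSpace Y] {M : Atl ι Y} {g : Y → Mat ι} {ν : Measure Y}
    {S : Sg M g ν} (P : Pol S) (hA : S.BasA) (hB : P.Bn) (hP : S.Pole) (hE : P.HorE) :
    P.Imp := by
  intro m k s y hm hk hs hy
  obtain ⟨T, hU, hT⟩ := hB.ex m k
  obtain ⟨c, hc⟩ := hB.c0
  obtain ⟨s1, s0, hp⟩ := hP
  obtain ⟨c0, hw⟩ := Pk.weight (M := M) (g := g) finFun
  obtain ⟨Cm, hCm, hmv⟩ := hT.mv
  have := hA.fin
  have m0 : (0 : ℝ) < m := by exact_mod_cast hm
  have m1 : (1 : ℝ) ≤ m := by exact_mod_cast hm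
  have k0 : (0 : ℝ) < k := by exact_mod_cast hk
  set n := Fintype.card ι with hn
  have n0 : 0 < n := Fintype.card_pos
  set q : ℝ := (m - 1) / m with hq
  have q0 : 0 ≤ q := div_nonneg (by linarith) m0.le
  have q1 : q < 1 := by rw [hq, div_lt_one m0]; linarith
  set t : ℝ := k / (2 * m) with ht
  have t0 : 0 < t := by positivity
  obtain ⟨N, hN⟩ := exists_nat_gt (2 * n * s1 / t)
  have N0 : (0 : ℝ) < N := lt_of_le_of_lt (by positivity) hN
  have N1 : 0 < N := by exact_mod_cast N0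
  set p : ℝ := 2 * n / N with hpp
  have p0 : 0 ≤ p := by positivity
  have ps : p * s1 ≤ t := by
    rw [div_lt_iff₀ t0] at hN
    rw [hpp, div_mul_eq_mul_div, div_le_iff₀ N0]; linarith
  obtain ⟨W, R, oW, cW, yW, hR, hK, ⟨C, hO⟩, hf⟩ := hp y N
  obtain ⟨δ, d0, χ, x1, x2, x3, x4⟩ := cutoff oW cW hR.1 hf
  rw [← hU] at hs ⊢
  have ss := (hT.b.hol_an s hs.1).1
  have cQ := (hT.b.ck s ss).2
  have ys := src (S := S) y
  set l := S.ch y with hl
  set z0 := S.c l y with hz0
  have z1 : ‖z0‖ < 1 := S.ch_lt y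
  have sy : (S.c l).symm z0 = y := (S.c l).left_inv ys
  have Ry : R y < δ := by
    have := hO.self_of_nhds
    rw [sy, sub_self, norm_zero, zero_pow (by omega), mul_zero] at this
    exact this.trans_lt d0
  have Q0 : 0 < ‖s y‖ ^ 2 := by positivity
  set A := ‖s y‖ ^ 2 + 1 with hAA
  have c1 : Tendsto (S.c l).symm (𝓝 z0) (𝓝 y) := by
    have := (S.c l).continuousAt_symm ((S.c l).map_source ys)
    rwa [ContinuousAt, sy] at this
  obtain ⟨r0, r1, hr⟩ := Metric.eventually_nhds_iff.1 (hO.and (c1.eventually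
    ((x4 y yW Ry).and ((cQ.continuousAt.eventually (lt_mem_nhds Q0)).and
      (cQ.continuousAt.eventually (gt_mem_nhds (lt_add_one (‖s y‖ ^ 2))))))))
  set u : Y → ℂ := fun x => χ x * s x with hu
  have du : S.Dc T.U u := ⟨hT.b.ck_mul χ s x1 ss,
    (x2.comp_left (g := fun a : ℝ => (a : ℂ)) ofReal_zero).mul_right⟩
  set F : Y → ℝ := fun x => (S.ip1 T.U g u u x).re * (‖s x‖ ^ 2) ^ (-q) with hF
  have cF : Continuous F := cont_ip hT x1 hs.1 q1
  have sF : HasCompactSupport F := HasCompactSupport.intro du.2 fun x hx => by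
    simp [hF, Sg.ip1, (hT.c.off (fun _ => 0) u x (notMem_tsupport_iff_eventuallyEq.1 hx)).2, ipV]
  have nF : ∀ x, 0 ≤ F x := fun x =>
    mul_nonneg (hT.c.nn g u x (hA.det x).1.posSemidef) (by positivity)
  have big : ∀ x, F x ≠ 0 → δ ≤ R x := fun x hx => not_lt.1 fun h => hx (by
    obtain ⟨a, ha⟩ := x3 x h
    have xs := src (S := S) x
    have c2 := (S.c (S.ch x)).continuousAt_symm ((S.c (S.ch x)).map_source xs)
    rw [ContinuousAt, (S.c (S.ch x)).left_inv xs] at c2
    have e := Pk.dzb_loc (F := fn χ (S.c (S.ch x))) (a := (a : ℂ))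
      ((c2.eventually ha).mono fun w hw => by rw [fn, hw]) (S.H (S.ty (S.ch x)))
    simp only [hF, hu, ip_loc hT x1 hs.1 xs, e]
    simp [nV, ipV])
  have ig : Integrable F ν := cF.integrable_of_hasCompactSupport sF
  set I0 := ∫ x, F x ∂ν with hI
  have I1 : 0 ≤ I0 := integral_nonneg nF
  set C1 := max C 1 with hC1
  have C2 : 0 < C1 := lt_max_of_lt_right one_pos
  set E := Real.exp (-(p * (Real.log δ - 1 - Real.log C1 - c0))) with hE'
  have E0 : 0 < E := Real.exp_pos _
  set K := Cm * (A ^ q * (2 * (E * I0 / t) + 1)) with hKK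
  have K0 : 0 ≤ K := by positivity
  obtain ⟨τ, u0, u1, u2, u3⟩ : ∃ τ : ℝ, 0 < τ ∧ τ < r0 ∧ τ ≤ 1 / 2 ∧ K * τ < ‖s y‖ ^ 2 := by
    refine ⟨min (min (r0 / 2) (1 / 2)) (‖s y‖ ^ 2 / (K + 1)), by positivity,
      (min_le_left _ _).trans_lt ((min_le_left _ _).trans_lt (by linarith)),
      (min_le_left _ _).trans (min_le_right _ _), ?_⟩
    refine (mul_le_mul_of_nonneg_left (min_le_right _ _) K0).trans_lt ?_
    rw [← mul_div_assoc, div_lt_iff₀ (by linarith)]
    linarith
  obtain ⟨ψ, w1, w2, w3, w4, w5⟩ := hw s1 p (-1 - Real.log C1 - (2 * N : ℕ) * Real.log τ) R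
    (fun x => (hA.det x).1) s0 p0 hR hK
  have cψ := cont w1
  have qb : QB M (th M g m k) fun x => ‖s x‖ ^ 2 := by
    have := hT.lg 1 (fun _ => s) fun _ => hs.1
    simp only [Finset.univ_unique, Finset.sum_singleton] at this
    have e : (fun x => th M g (m - 1) k x - M.ricF g x) = th M g m k := funext fun x => by
      simp only [th]; push_cast; module
    rwa [e] at this
  obtain ⟨h, h2, hi, hb⟩ := hE m k (m * c) (th M g m k) (fun x => ‖s x‖ ^ 2) ψ q t u t0 q0 qb
    (hT.d.dec s hs) (fun x => by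
      have := (Pk.psd_smul (hc x).1 m0.le).add (Pk.psd_smul (hA.det x).1.posSemidef k0.le)
      have e : th M g m k x + ((m * c : ℕ) : ℂ) • g x =
          ((m : ℝ) : ℂ) • th M g 1 c x + ((k : ℝ) : ℂ) • g x := by
        simp only [th]; push_cast; module
      rwa [e]) w1 w2 (fun x => by
      have := (Pk.psd_smul (hA.det x).1.posSemidef (sub_nonneg.2 ps)).add (w3 x)
      have m2 : (m : ℂ) ≠ 0 := by exact_mod_cast m0.ne'
      have e : th M g (m - 1) k x - (q : ℂ) • th M g m k x + M.ddc ψ x - (t : ℂ) • g x =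
          ((t - p * s1 : ℝ) : ℂ) • g x + (((p * s1 : ℝ) : ℂ) • g x + M.ddc ψ x) := by
        simp only [th, hq, ht]
        push_cast
        match_scalars <;> field_simp <;> ring
      rwa [e]) (hU ▸ du) (fun x hx => by
      have sx : s x = 0 := by simpa using hx
      rw [← hU, Sg.vec, hu, shp_mul hT x1 hs.1 (src x), (hT.b.zero s _ x (src x)).2 sx,
        zero_smul, smul_zero])
    (hU ▸ (cF.mul cψ.neg.rexp).integrable_of_hasCompactSupport sF.mul_right)
    (τ ^ (2 * n) * τ ^ (2 * n)) (by positivity)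
  rw [← hU] at h2 hb
  refine ⟨h, h2, fun hy' => ?_, ?_⟩
  · have b1 : ∫ x, F x * Real.exp (-ψ x) ∂ν ≤ τ ^ (2 * n) * τ ^ (2 * n) * E * I0 := by
      rw [hI, ← integral_const_mul]
      refine integral_mono_of_nonneg (Eventually.of_forall fun x => mul_nonneg (nF x)
        (Real.exp_pos _).le) (ig.const_mul _) (Eventually.of_forall fun x => ?_)
      by_cases hx : F x = 0
      · simp [hx]
      have y1 := big x hx
      have y2 := w5 x (d0.trans_le y1)
      have y3 := mul_le_mul_of_nonneg_left (Real.log_le_log d0 y1) p0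
      have e : τ ^ (2 * n) * τ ^ (2 * n) * E = Real.exp (((2 * n + 2 * n : ℕ) : ℝ) * Real.log τ +
          -(p * (Real.log δ - 1 - Real.log C1 - c0))) := by
        rw [Real.exp_add, Real.exp_nat_mul, Real.exp_log u0, pow_add]
      have e2 : p * (((2 * N : ℕ) : ℝ) * Real.log τ) = ((2 * n + 2 * n : ℕ) : ℝ) * Real.log τ := by
        rw [hpp]; push_cast; field_simp; ring
      dsimp only
      rw [mul_comm, e]
      exact mul_le_mul_of_nonneg_right (Real.exp_le_exp.2 (by linarith)) (nF x)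
    have nb : ∀ z : V ι, dist z z0 ≤ τ → z ∈ ball (0 : V ι) 4 := fun z hz => by
      have := norm_le_norm_add_norm_sub' z z0
      rw [dist_eq_norm] at hz
      exact mem_ball_zero_iff.2 (by linarith)
    have an : AnalyticOnNhd ℂ (S.rep T.U (fun x => u x - h x) l) (closedBall z0 τ) := fun z hz => by
      refine (((hT.b.hol_an s hs.1).2 l z (nb z hz)).sub
        ((hT.b.hol_an h h2.1).2 l z (nb z hz))).congr ?_
      filter_upwards [isOpen_ball.mem_nhds (mem_ball.2 ((mem_closedBall.1 hz).trans_lt u1))]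
        with w hw
      simp only [Sg.rep, hu, (hr hw).2.1, Pi.sub_apply, ofReal_one, one_mul, mul_sub]
    have b2 := hmv (fun x => u x - h x) l z0 τ u0 u2 (by linarith) an
    have b3 : ∫ x in (S.c l).source ∩ S.c l ⁻¹' closedBall z0 τ, ‖u x - h x‖ ^ 2 ∂ν ≤
        A ^ q * ∫ x, ‖u x - h x‖ ^ 2 * (‖s x‖ ^ 2) ^ (-q) * Real.exp (-ψ x) ∂ν := by
      rw [← integral_const_mul]
      refine le_trans ?_ (setIntegral_le_integral (s := (S.c l).source ∩ S.c l ⁻¹' closedBall z0 τ)
        (hi.const_mul _) (Eventually.of_forall fun x => by positivity))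
      refine integral_mono_of_nonneg (Eventually.of_forall fun x => by positivity)
        (hi.const_mul _).integrableOn ((ae_restrict_mem (hA.ms l _ measurableSet_closedBall)).mono
          fun x hx => ?_)
      have y1 : dist (S.c l x) z0 ≤ τ := hx.2
      obtain ⟨y2, -, y3, y4⟩ := hr (y1.trans_lt u1)
      rw [(S.c l).left_inv hx.1] at y2 y3 y4
      rw [← dist_eq_norm] at y2
      have e : Real.exp (-(-1 - Real.log C1 - (2 * N : ℕ) * Real.log τ) - 1) =
          C1 * τ ^ (2 * N) := by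
        rw [show -(-1 - Real.log C1 - (2 * N : ℕ) * Real.log τ) - 1 =
          Real.log C1 + (2 * N : ℕ) * Real.log τ by ring, Real.exp_add, Real.exp_nat_mul,
          Real.exp_log u0, Real.exp_log C2]
      have y5 : 1 ≤ A ^ q * (‖s x‖ ^ 2) ^ (-q) := by
        rw [Real.rpow_neg y3.le, ← div_eq_mul_inv, one_le_div (by positivity)]
        exact Real.rpow_le_rpow y3.le y4.le q0
      dsimp only
      rw [w4 x (e ▸ y2.trans (mul_le_mul (le_max_left _ _) (pow_le_pow_left₀ dist_nonneg y1 _)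
        (by positivity) C2.le)), neg_zero, Real.exp_zero, mul_one, mul_left_comm]
      exact le_mul_of_one_le_right (by positivity) y5
    have e : ‖u ((S.c l).symm z0) - h ((S.c l).symm z0)‖ = ‖s y‖ := by
      rw [sy, hy', sub_zero, hu]
      simp [(x4 y yW Ry).self_of_nhds]
    have T0 : 0 < τ ^ (2 * n) := by positivity
    have T1 : τ ^ (2 * n) ≤ τ := pow_le_of_le_one u0.le (by linarith) (by omega)
    have b4 : ‖s y‖ ^ 2 * τ ^ (2 * n) ≤ K * τ ^ (2 * n) * τ ^ (2 * n) := by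
      rw [← e]
      refine b2.trans ((mul_le_mul_of_nonneg_left (b3.trans (mul_le_mul_of_nonneg_left (hb.trans
        (add_le_add_left (mul_le_mul_of_nonneg_left (div_le_div_of_nonneg_right b1 t0.le)
          zero_le_two) _)) (by positivity))) hCm).trans (le_of_eq ?_))
      rw [hKK]; ring
    have b5 := le_of_mul_le_mul_right b4 T0
    linarith [mul_le_mul_of_nonneg_left T1 K0]
  · obtain ⟨B, hB'⟩ := (cψ.bddAbove_range_of_hasCompactSupport w2)
    have i1 : Continuous fun x => χ x ^ 2 * (‖s x‖ ^ 2) ^ (1 - q) :=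
      ((cont x1).pow 2).mul (cQ.rpow_const fun _ => Or.inr (sub_nonneg.2 q1.le))
    have i2 := i1.integrable_of_hasCompactSupport (μ := ν) (HasCompactSupport.intro x2
      fun x hx => by rw [image_eq_zero_of_notMem_tsupport hx, zero_pow two_ne_zero, zero_mul])
    have me : Measurable fun x => ‖h x‖ ^ 2 * (‖s x‖ ^ 2) ^ (-q) :=
      (hT.b.ck h (hT.b.hol_an h h2.1).1).2.measurable.mul (cQ.measurable.pow_const (-q))
    refine ((hi.const_mul (2 * Real.exp B)).add (i2.const_mul 2)).mono'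
      me.aestronglyMeasurable (Eventually.of_forall fun x => ?_)
    exact fin_le (s x) (h x) (χ x) q1 (hB' (mem_range_self x))

end Pool.Agent.Lib.MP_813db1_ag.SV
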