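import Pool.Agent.Lib.MP_813db1_ag.SV.StB
import Pool.Agent.Lib.MP_bbd4b9_ag.LC.Div

/-! Functions with a smooth zero set: division, and the integral of `1 / |τ|²`. -/

namespace Pool.Agent.Lib.MP_813db1_ag.SV

open Pool.Agent.Lib.MP_813db1_ag.HS
open MeasureTheory Filter Topology Set Metric

namespace Loc

variable {ι : Type} [Fintype ι]

/-- A chart in which the function is a coordinate. -/
theorem chart {τ : V ι → ℂ} {z : V ι} (h : AnalyticAt ℂ τ z) (h' : fderiv ℂ τ z ≠ 0) :
    ∃ (j : ι) (e : OpenPartialHomeomorph (V ι) (V ι)), z ∈ e.source ∧ AnalyticAt ℂ e z ∧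
      AnalyticAt ℂ e.symm (e z) ∧ ∀ w, e w j = τ w := by
  classical
  obtain ⟨j, hj⟩ : ∃ j, fderiv ℂ τ z (Pi.single j 1) ≠ 0 := by
    by_contra c
    refine h' (ContinuousLinearMap.ext fun v => ?_)
    have e : v = ∑ i, v i • (Pi.single i 1 : V ι) := pi_eq_sum_univ' v
    rw [e, map_sum]
    exact Finset.sum_eq_zero fun i _ => by
      rw [map_smul, not_not.1 (not_exists.1 c i), smul_zero]
  let p : V ι →L[ℂ] ℂ := ContinuousLinearMap.proj j
  let Φ : V ι → V ι := fun w => w + (τ w - p w) • (Pi.single j 1 : V ι)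
  have aΦ : AnalyticAt ℂ Φ z :=
    analyticAt_id.add ((h.sub (p.analyticAt z)).smul analyticAt_const)
  let L : V ι →L[ℂ] V ι := ContinuousLinearMap.id ℂ (V ι) +
    (fderiv ℂ τ z - p).smulRight (Pi.single j 1 : V ι)
  have dΦ : HasFDerivAt Φ L z :=
    (hasFDerivAt_id z).add ((h.differentiableAt.hasFDerivAt.sub p.hasFDerivAt).smul_const _)
  have iL : Function.Injective L := by
    refine (injective_iff_map_eq_zero L).2 fun v hv => ?_
    have e : v + (fderiv ℂ τ z v - v j) • (Pi.single j 1 : V ι) = 0 := hv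
    have a : fderiv ℂ τ z v = 0 := by simpa using congrFun e j
    rw [a, zero_sub, neg_smul, add_neg_eq_zero] at e
    rw [e, map_smul, smul_eq_mul] at a
    rw [e, (mul_eq_zero.1 a).resolve_right hj, zero_smul]
  let i : V ι ≃L[ℂ] V ι :=
    (LinearEquiv.ofInjectiveEndo (L : V ι →ₗ[ℂ] V ι) iL).toContinuousLinearEquiv
  have hi : fderiv ℂ Φ z = (i : V ι →L[ℂ] V ι) := dΦ.fderiv
  have s : HasStrictFDerivAt Φ (i : V ι →L[ℂ] V ι) z := hi ▸ aΦ.hasStrictFDerivAt
  exact ⟨j, s.toOpenPartialHomeomorph Φ, s.mem_toOpenPartialHomeomorph_source, aΦ,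
    OpenPartialHomeomorph.analyticAt_symm' _ s.mem_toOpenPartialHomeomorph_source aΦ hi,
    fun w => by simp [Φ, p]⟩

theorem one {r : ℝ} (hr : 0 < r) : ¬ IntegrableOn (fun w : ℂ => (‖w‖ ^ 2)⁻¹) (ball 0 r) := by
  rw [integrableOn_fun_norm_addHaar volume (f := fun t => (t ^ 2)⁻¹), Complex.finrank_real_complex]
  intro h
  refine lt_irrefl _ ((intervalIntegral.integrableOn_Ioo_rpow_iff (s := -1) hr).1
    (h.congr_fun (fun y hy => ?_) measurableSet_Ioo))
  have := hy.1.ne'
  simp only [Real.rpow_neg_one, smul_eq_mul]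
  field_simp
  norm_num

theorem coord {y : V ι} {j : ι} (hy : y j = 0) {r : ℝ} (hr : 0 < r) :
    ¬ IntegrableOn (fun w : V ι => (‖w j‖ ^ 2)⁻¹) (ball y r) := by
  classical
  intro h
  have m : Measurable fun w : ℂ => (‖w‖ ^ 2)⁻¹ := by fun_prop
  rw [IntegrableOn, ball_pi y hr, volume_pi, Measure.restrict_pi_pi] at h
  have h2 := (integrable_map_measure m.aestronglyMeasurable
    (measurable_pi_apply j).aemeasurable).2 h
  rw [Measure.pi_map_eval, integrable_smul_measure, hy] at h2
  · exact one hr h2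
  · exact Finset.prod_ne_zero_iff.2 fun i _ => by
      rw [Measure.restrict_apply_univ]
      exact (measure_ball_pos _ _ hr).ne'
  · exact ENNReal.prod_ne_top fun i _ => by
      rw [Measure.restrict_apply_univ]
      exact measure_ball_lt_top.ne

end Loc

theorem divL : DivL := by
  classical
  intro ι _ F τ z hF hτ h' h0
  by_cases c : τ z = 0
  swap
  · refine ⟨fun w => F w / τ w, hF.div hτ c, ?_⟩
    filter_upwards [hτ.continuousAt.eventually_ne c] with w hw
    rw [mul_div_cancel₀ _ hw]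
  obtain ⟨j, e, hz, a, a', he⟩ := Loc.chart hτ (h' c)
  have t : Tendsto e.symm (𝓝 (e z)) (𝓝 z) := by
    have := e.continuousAt_symm (e.map_source hz)
    rwa [ContinuousAt, e.left_inv hz] at this
  obtain ⟨u, hu, hu', -⟩ := MP_bbd4b9_ag.LC.divS ι (fun y => F (e.symm y)) (e z) j
    (AnalyticAt.comp_of_eq hF a' (e.left_inv hz)) ((he z).trans c) (by
      filter_upwards [t.eventually h0, e.open_target.mem_nhds (e.map_source hz)] with y h1 h2 h3
      exact h1 (by rw [← he, e.right_inv h2, h3]))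
  refine ⟨fun w => u (e w), hu.comp a, ?_⟩
  filter_upwards [a.continuousAt.eventually hu', e.open_source.mem_nhds hz] with w h1 h2
  rwa [e.left_inv h2, he] at h1

theorem nonI : NonI := by
  intro ι _ τ z hτ c h' O hO h
  obtain ⟨j, e, hz, a, -, he⟩ := Loc.chart hτ h'
  obtain ⟨r, hr, hb⟩ := nhds_basis_closedBall.eventually_iff.1
    (a.eventually_analyticAt.and (inter_mem hO (e.open_source.mem_nhds hz)))
  have k : ContinuousOn (fun w => |((fderiv ℂ e w).restrictScalars ℝ).det|) (closedBall z r) :=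
    fun w hw => ((ContinuousLinearMap.continuous_det.comp
      (ContinuousLinearMap.restrictScalarsL ℂ (V ι) (V ι) ℝ ℝ).continuous).continuousAt.comp
        (hb hw).1.fderiv.continuousAt).abs.continuousWithinAt
  have h2 := (integrableOn_image_iff_integrableOn_abs_det_fderiv_smul volume
    (f' := fun w => (fderiv ℂ e w).restrictScalars ℝ) measurableSet_closedBall
    (fun w hw => ((hb hw).1.differentiableAt.hasFDerivAt.restrictScalars ℝ).hasFDerivWithinAt)
    (e.injOn.mono fun w hw => (hb hw).2.2) fun y => (‖y j‖ ^ 2)⁻¹).2 (by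
      simp only [he]
      exact (h.mono_set fun w hw => (hb hw).2.1).continuousOn_smul k (isCompact_closedBall z r))
  obtain ⟨s, hs, hs'⟩ := Metric.mem_nhds_iff.1 (e.image_mem_nhds hz (closedBall_mem_nhds z hr))
  exact Loc.coord ((he z).trans c) hs (h2.mono_set hs')

end Pool.Agent.Lib.MP_813db1_ag.SV
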