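import Pool.Agent.Lib.MP_813db1_ag.SV.StB

/-! Sections that are integrable to a small power. -/

namespace Pool.Agent.Lib.MP_813db1_ag.SV

open Pool.Agent.Lib.MP_813db1_ag.HS Pool.Agent.Lib.MP_813db1_ag.AS Pool.Agent.Lib.MP_813db1_ag.AN
open MeasureTheory Filter Topology Set Metric

namespace LpsP

theorem young {Q Q' a u : ℝ} (hQ : 0 < Q) (hQ' : 0 ≤ Q') (ha : 0 ≤ a) (hu : 0 < u) :
    Q' ^ (a * u + 1)⁻¹ ≤ Q' * Q ^ (-a) + Q ^ u⁻¹ := by
  have h1 : 0 < a * u + 1 := by positivity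
  have hA : 0 ≤ Q' * Q ^ (-a) := by positivity
  have hB : 0 ≤ Q ^ u⁻¹ := by positivity
  have h2 := Real.geom_mean_le_arith_mean2_weighted (w₁ := (a * u + 1)⁻¹)
    (w₂ := a * u / (a * u + 1)) (by positivity) (by positivity) hA hB (by field_simp; ring)
  rw [Real.mul_rpow hQ' (by positivity), ← Real.rpow_mul hQ.le, ← Real.rpow_mul hQ.le, mul_assoc,
    ← Real.rpow_add hQ, show -a * (a * u + 1)⁻¹ + u⁻¹ * (a * u / (a * u + 1)) = 0 by
      field_simp; ring, Real.rpow_zero, mul_one] at h2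
  refine h2.trans (add_le_add (mul_le_of_le_one_left hA ?_) (mul_le_of_le_one_left hB ?_))
  · exact inv_le_one_of_one_le₀ (le_add_of_nonneg_left (by positivity))
  · exact (div_le_one h1).2 (by linarith)

variable {ι Y : Type} [Fintype ι] [DecidableEq ι] [TopologicalSpace Y] [MeasurableSpace Y]
  [BorelSpace Y] {M : Atl ι Y} {g : Y → Mat ι} {ν : Measure Y} {S : Sg M g ν}

omit [BorelSpace Y] in
theorem msB (hA : S.BasA) (l : S.κ) (r : ℝ) : MeasurableSet (S.B l r) :=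
  hA.ms l _ measurableSet_closedBall

theorem mean (hA : S.BasA) {Q : Y → ℝ} (hc : Continuous Q) (h0 : ∀ y, 0 ≤ Q y) {C t : ℝ}
    (hC : 0 ≤ C) (ht : 0 < t) (ht' : t ≤ 1) (hi : Integrable (fun y => Q y ^ t) ν) (l : S.κ)
    (hm : ∀ (z : V ι) (τ : ℝ), 0 < τ → τ ≤ 1 / 2 → ‖z‖ + τ ≤ 3 →
      Q ((S.c l).symm z) * τ ^ (2 * Fintype.card ι) ≤
        C * ∫ y in (S.c l).source ∩ S.c l ⁻¹' closedBall z τ, Q y ∂ν) :
    ∀ x ∈ S.B l 2, Q x ^ t ≤ 6 ^ (2 * Fintype.card ι) * C *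
      (((2 : ℝ) ^ (2 * Fintype.card ι)) ^ t⁻¹) ^ (1 - t) * ∫ y in S.B l 3, Q y ^ t ∂ν := by
  intro x hx
  set n := 2 * Fintype.card ι
  set K : ℝ := ((2 : ℝ) ^ n) ^ t⁻¹
  set I := ∫ y in S.B l 3, Q y ^ t ∂ν
  have hp : ∀ y, 0 ≤ Q y ^ t := fun y => Real.rpow_nonneg (h0 y) _
  have hI : 0 ≤ I := integral_nonneg hp
  have hK : 0 ≤ K := by positivity
  have hx2 : ‖S.c l x‖ ≤ 2 := mem_closedBall_zero_iff.1 hx.2
  have hx3 : x ∈ S.B l 3 := ⟨hx.1, mem_closedBall_zero_iff.2 (by linarith)⟩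
  obtain ⟨w, hw, hmax⟩ := (hA.cpt l 3 (by norm_num)).exists_isMaxOn
    (f := fun y => (3 - ‖S.c l y‖) ^ n * Q y ^ t) ⟨x, hx3⟩
    (((continuousOn_const.sub ((S.c l).continuousOn.mono inter_subset_left).norm).pow n).mul
      (hc.rpow_const fun _ => Or.inr ht.le).continuousOn)
  have hw3 : ‖S.c l w‖ ≤ 3 := mem_closedBall_zero_iff.1 hw.2
  set δ := 3 - ‖S.c l w‖ with hδ
  have h1 : Q x ^ t ≤ δ ^ n * Q w ^ t :=
    le_trans (le_mul_of_one_le_left (hp x) (one_le_pow₀ (by linarith))) (hmax hx3)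
  refine h1.trans ?_
  rcases (h0 w).eq_or_lt with hq | hq
  · rw [← hq, Real.zero_rpow ht.ne', mul_zero]
    positivity
  rcases (show 0 ≤ δ by linarith).eq_or_lt with hd | hd
  · rcases Nat.eq_zero_or_pos (Fintype.card ι) with h | h
    · have := Fintype.card_eq_zero_iff.1 h
      rw [hδ, Subsingleton.elim (S.c l w) 0, norm_zero] at hd
      norm_num at hd
    · rw [← hd, zero_pow (by omega), zero_mul]
      positivity
  have hn := norm_nonneg (S.c l w)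
  have h2 := hm (S.c l w) (δ / 6) (by positivity) (by linarith) (by linarith)
  rw [(S.c l).left_inv hw.1] at h2
  have hsub : (S.c l).source ∩ S.c l ⁻¹' closedBall (S.c l w) (δ / 6) ⊆ S.B l 3 := fun y hy =>
    ⟨hy.1, mem_closedBall_zero_iff.2 (by
      have := norm_le_norm_add_norm_sub' (S.c l y) (S.c l w)
      have h3 := mem_closedBall_iff_norm.1 hy.2
      linarith)⟩
  have h3 : ∀ y ∈ (S.c l).source ∩ S.c l ⁻¹' closedBall (S.c l w) (δ / 6),
      Q y ≤ (K * Q w) ^ (1 - t) * Q y ^ t := fun y hy => by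
    have a1 := norm_le_norm_add_norm_sub' (S.c l y) (S.c l w)
    have a2 := mem_closedBall_iff_norm.1 hy.2
    have a3 : (δ / 2) ^ n * Q y ^ t ≤ (δ / 2) ^ n * (2 ^ n * Q w ^ t) := by
      rw [← mul_assoc, ← mul_pow, div_mul_cancel₀ _ two_ne_zero]
      exact le_trans (mul_le_mul_of_nonneg_right (pow_le_pow_left₀ (by positivity) (by linarith) n)
        (hp y)) (hmax (hsub hy))
    have a4 := Real.rpow_le_rpow (hp y) (le_of_mul_le_mul_left a3 (by positivity))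
      (inv_nonneg.2 ht.le)
    rw [Real.mul_rpow (by positivity) (hp w), Real.rpow_rpow_inv (h0 y) ht.ne',
      Real.rpow_rpow_inv (h0 w) ht.ne'] at a4
    calc Q y = Q y ^ (1 - t) * Q y ^ t := by
          rw [← Real.rpow_add' (h0 y) (by simp), sub_add_cancel, Real.rpow_one]
      _ ≤ _ := mul_le_mul_of_nonneg_right (Real.rpow_le_rpow (h0 y) a4 (by linarith)) (hp y)
  have h4 : ∫ y in (S.c l).source ∩ S.c l ⁻¹' closedBall (S.c l w) (δ / 6), Q y ∂ν ≤
      (K * Q w) ^ (1 - t) * I := by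
    rw [← integral_const_mul]
    refine le_trans (integral_mono_of_nonneg (.of_forall h0) (hi.const_mul _).integrableOn
      ((ae_restrict_iff' (hA.ms l _ measurableSet_closedBall)).2 (.of_forall h3))) ?_
    exact setIntegral_mono_set (hi.const_mul _).integrableOn
      (.of_forall fun y => mul_nonneg (by positivity) (hp y)) hsub.eventuallyLE
  have h5 := h2.trans (mul_le_mul_of_nonneg_left h4 hC)
  have h6 : Q w = Q w ^ (1 - t) * Q w ^ t := by
    rw [← Real.rpow_add hq, sub_add_cancel, Real.rpow_one]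
  rw [Real.mul_rpow hK hq.le] at h5
  refine le_of_mul_le_mul_left ?_ (Real.rpow_pos_of_pos hq (1 - t))
  calc _ = 6 ^ n * (Q w ^ (1 - t) * Q w ^ t * (δ / 6) ^ n) := by
        rw [div_pow]; field_simp
    _ ≤ 6 ^ n * (C * (K ^ (1 - t) * Q w ^ (1 - t) * I)) := by
        rw [← h6]; exact mul_le_mul_of_nonneg_left h5 (by positivity)
    _ = _ := by ring

variable {P : Pol S}

omit [BorelSpace Y] in
theorem cont (hB : P.Bn) {m k : ℕ} {s : Y → ℂ} (h : S.Hol (P.U m k) s) :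
    Continuous fun y => ‖s y‖ ^ 2 := by
  obtain ⟨T, hU, hT⟩ := hB.ex m k
  rw [← hU] at h
  exact (hT.b.ck s (hT.b.hol_an s h).1).2

theorem iter (hB : P.Bn) (hN : P.Nul) (hI : P.Imp) {m k : ℕ} {s : Y → ℂ} {y : Y} (hm : 1 ≤ m)
    (hk : 1 ≤ k) (hs : S.H2 (P.U m k) s) (hy : s y ≠ 0) (j : ℕ) :
    ∃ (u : ℝ) (s' : Y → ℂ), 1 ≤ u ∧ u ≤ m ∧ (m ≤ 2 * u ∨ j ≤ 2 * u) ∧ S.H2 (P.U m k) s' ∧
      s' y ≠ 0 ∧ Integrable (fun x => (‖s' x‖ ^ 2) ^ u⁻¹) ν := by
  have hm' : (1 : ℝ) ≤ m := by exact_mod_cast hm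
  induction j with
  | zero => exact ⟨1, s, le_rfl, hm', Or.inr (by norm_num), hs, hy, by simpa using hs.2⟩
  | succ j ih =>
    obtain ⟨u, s1, a1, a2, a3, a4, a5, a6⟩ := ih
    by_cases h : (m : ℝ) ≤ 2 * u
    · exact ⟨u, s1, a1, a2, Or.inl h, a4, a5, a6⟩
    obtain ⟨s2, b1, b2, b3⟩ := hI m k s1 y hm hk a4 a5
    have ha : 0 ≤ ((m : ℝ) - 1) / m := div_nonneg (by linarith) (by linarith)
    have e : ((m : ℝ) - 1) / m * u = u - u / m := by field_simp
    have c1 : u / m ≤ 1 / 2 := by rw [div_le_iff₀ (by linarith)]; linarith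
    refine ⟨(m - 1) / m * u + 1, s2, le_add_of_nonneg_left (by positivity), ?_, Or.inr ?_, b1, b2,
      (b3.add a6).mono' ((cont hB b1.1).rpow_const fun _ =>
        Or.inr (by positivity)).aestronglyMeasurable ?_⟩
    · have := mul_le_mul_of_nonneg_left a2 ha
      rw [div_mul_cancel₀ _ (by linarith)] at this
      linarith
    · have := a3.resolve_left h
      push_cast
      linarith
    · filter_upwards [compl_mem_ae_iff.2 (hN m k s1 a4.1 ⟨y, a5⟩)] with x hx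
      rw [Real.norm_of_nonneg (by positivity)]
      exact young (pow_pos (norm_pos_iff.2 hx) 2) (by positivity) ha (by linarith)

end LpsP

open LpsP in
theorem lps {ι Y : Type} [Fintype ι] [DecidableEq ι] [TopologicalSpace Y] [MeasurableSpace Y]
    [BorelSpace Y] {M : Atl ι Y} {g : Y → Mat ι} {ν : Measure Y} {S : Sg M g ν} {P : Pol S}
    (hA : S.BasA) (hB : P.Bn) (hN : P.Nul) (hI : P.Imp) : P.Lps := by
  intro m k s y hm hk hs hy
  obtain ⟨u, s', a1, a2, a3, a4, a5, a6⟩ := iter hB hN hI hm hk hs hy m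
  have a3' := or_self_iff.1 a3
  have hu : 0 < u := by linarith
  obtain ⟨T, hU, hT⟩ := hB.ex m k
  obtain ⟨C, hC, hv⟩ := hT.mv
  have hp : ∀ x, 0 ≤ (‖s' x‖ ^ 2) ^ u⁻¹ := fun x => by positivity
  refine ⟨2 * u⁻¹, s', fun l => 6 ^ (2 * Fintype.card ι) * C *
    (((2 : ℝ) ^ (2 * Fintype.card ι)) ^ u⁻¹⁻¹) ^ (1 - u⁻¹) * ∫ x in S.B l 3, (‖s' x‖ ^ 2) ^ u⁻¹ ∂ν,
    by positivity, ?_, ?_, ?_, a4.1, a5, Summable.mul_left _ ?_, fun l x hx => ?_⟩
  · have := inv_le_one_of_one_le₀ a1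
    linarith
  · rw [mul_assoc, inv_mul_eq_div]
    have := (one_le_div hu).2 a2
    linarith
  · rw [mul_assoc, inv_mul_eq_div]
    have := (div_le_iff₀ hu).2 a3'
    linarith
  · exact summable_of_sum_le (fun l => integral_nonneg hp) fun F =>
      hA.ov _ F (fun l => S.B l 3) a6 hp fun l => ⟨msB hA l 3, inter_subset_left⟩
  · rw [Real.rpow_mul (norm_nonneg _), Real.rpow_two]
    refine mean hA (cont hB a4.1) (fun x => by positivity) hC (inv_pos.2 hu)
      (inv_le_one_of_one_le₀ a1) a6 l (fun z τ h1 h2 h3 => hv s' l z τ h1 h2 (by linarith) ?_) x hx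
    refine ((hT.b.hol_an s' (hU ▸ a4.1)).2 l).mono fun w hw => mem_ball_zero_iff.2 ?_
    have := norm_le_norm_add_norm_sub' w z
    have := mem_closedBall_iff_norm.1 hw
    linarith

end Pool.Agent.Lib.MP_813db1_ag.SV
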