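import Pool.Agent.Lib.MP_813db1_ag.SV.StB
import Pool.Agent.Lib.MP_813db1_ag.HS.Sub_Zero

/-! Zero sets of sections are null. -/

namespace Pool.Agent.Lib.MP_813db1_ag.SV

open Pool.Agent.Lib.MP_813db1_ag.HS Pool.Agent.Lib.MP_813db1_ag.AS Pool.Agent.Lib.MP_813db1_ag.AN
open MeasureTheory Complex Matrix Filter Topology Set Metric
open scoped ContDiff ComplexOrder ENNReal

theorem nulL : NulL := fun ι _ F O => HS.zero ι O F

variable {ι Y : Type} [Fintype ι] [DecidableEq ι] [TopologicalSpace Y] [MeasurableSpace Y]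
  {M : Atl ι Y} {g : Y → Mat ι} {ν : Measure Y} {S : Sg M g ν}

namespace Nul

lemma src (S : Sg M g ν) (y : Y) : y ∈ (S.c (S.ch y)).source := S.ch_eq y ▸ M.mem y

lemma map_mem (S : Sg M g ν) {k : S.κ} {y : Y} (hy : y ∈ (S.c k).source) :
    S.c k y ∈ ball (0 : V ι) 4 := S.tgt k ▸ (S.c k).map_source hy

lemma symm_mem (S : Sg M g ν) (k : S.κ) {z : V ι} (hz : z ∈ ball (0 : V ι) 4) :
    (S.c k).symm z ∈ (S.c k).source := (S.c k).map_target (S.tgt k ▸ hz)

lemma right_inv (S : Sg M g ν) (k : S.κ) {z : V ι} (hz : z ∈ ball (0 : V ι) 4) :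
    S.c k ((S.c k).symm z) = z := (S.c k).right_inv (S.tgt k ▸ hz)

/-- a set that is null in every sheet is null. -/
lemma of_loc (hA : S.BasA) {Z : Set Y}
    (h : ∀ k, volume {z ∈ ball (0 : V ι) 4 | (S.c k).symm z ∈ Z} = 0) : ν Z = 0 := by
  have := S.cnt
  have h1 : ∀ k, ν (Z ∩ (S.c k).source) = 0 := by
    intro k
    obtain ⟨B, hB1, hB2, hB3⟩ := exists_measurable_superset_of_null (h k)
    have h2 := hA.lint k (B ∩ ball 0 4) (hB2.inter measurableSet_ball) inter_subset_right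
      fun _ => 1
    rw [setLIntegral_measure_zero _ _ (measure_mono_null inter_subset_left hB3), lintegral_one,
      Measure.restrict_apply_univ] at h2
    refine measure_mono_null ?_ h2
    intro y hy
    refine ⟨hy.2, hB1 ⟨map_mem S hy.2, ?_⟩, map_mem S hy.2⟩
    rw [(S.c k).left_inv hy.2]
    exact hy.1
  refine measure_mono_null ?_ (measure_iUnion_null h1)
  intro y hy
  exact mem_iUnion.2 ⟨S.ch y, hy, src S y⟩

/-- a section that is not zero on any sheet has a null zero set. -/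
lemma of_ne (hL : NulL) (hA : S.BasA) {ξ : Y → Mat ι} {T : Bun S ξ} (hB : T.BasB) {s : Y → ℂ}
    (hs : S.Hol T.U s) (h : ∀ k, ∃ z ∈ ball (0 : V ι) 4, S.rep T.U s k z ≠ 0) :
    ν {y | s y = 0} = 0 := by
  refine of_loc hA fun k => measure_mono_null ?_
    (hL ι _ _ isOpen_ball (convex_ball _ _).isPreconnected ((hB.hol_an s hs).2 k) (h k))
  intro z hz
  refine ⟨hz.1, ?_⟩
  have h0 : s ((S.c k).symm z) = 0 := hz.2
  rw [Sg.rep, h0, mul_zero]

end Nul

open Nul in
theorem nul [ConnectedSpace Y] {P : Pol S} (hA : S.BasA) (hB : P.Bn) : P.Nul := by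
  intro a b s hs ⟨y₀, hy₀⟩
  obtain ⟨T, hT, hall⟩ := hB.ex a b
  rw [← hT] at hs
  have hb := hall.b
  have key : ∀ k, (∀ z ∈ ball (0 : V ι) 4, S.rep T.U s k z = 0) → ∀ y ∈ (S.c k).source,
      ∀ᶠ x in 𝓝 y, s x = 0 := fun k hk y hy => by
    filter_upwards [(S.c k).open_source.mem_nhds hy] with x hx
    exact (hb.zero s k x hx).1 (hk _ (map_mem S hx))
  have key2 : ∀ k, ∀ y ∈ (S.c k).source, (∀ᶠ x in 𝓝 y, s x = 0) →
      ∀ z ∈ ball (0 : V ι) 4, S.rep T.U s k z = 0 := fun k y hy h0 => by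
    refine ((hb.hol_an s hs).2 k).eqOn_zero_of_preconnected_of_eventuallyEq_zero
      (convex_ball _ _).isPreconnected (map_mem S hy) ?_
    have h1 : Tendsto (S.c k).symm (𝓝 (S.c k y)) (𝓝 y) := (S.c k).tendsto_symm hy
    filter_upwards [h1.eventually h0] with w hw
    rw [Sg.rep, hw, mul_zero, Pi.zero_apply]
  have hclo : IsClopen {y | ∀ᶠ x in 𝓝 y, s x = 0} := by
    refine ⟨isOpen_compl_iff.1 (isOpen_iff_mem_nhds.2 fun y hy => ?_),
      isOpen_setOfPred_eventually_nhds⟩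
    filter_upwards [(S.c (S.ch y)).open_source.mem_nhds (src S y)] with x hx hx0
    exact hy (key _ (key2 _ x hx hx0) y (src S y))
  have hem : {y | ∀ᶠ x in 𝓝 y, s x = 0} = ∅ := by
    refine (isClopen_iff.1 hclo).resolve_right fun h => hy₀ ?_
    have : y₀ ∈ {y | ∀ᶠ x in 𝓝 y, s x = 0} := h ▸ mem_univ _
    exact Filter.Eventually.self_of_nhds (p := fun x => s x = 0) this
  refine of_ne nulL hA hb hs fun k => ?_
  by_contra hcon
  push Not at hcon
  have : (S.c k).symm 0 ∈ {y | ∀ᶠ x in 𝓝 y, s x = 0} :=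
    key k hcon _ (symm_mem S k (mem_ball_self (by norm_num)))
  rw [hem] at this
  exact this

end Pool.Agent.Lib.MP_813db1_ag.SV
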