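import Pool.Agent.Lib.MP_813db1_ag.SV.StA
import Pool.Agent.Lib.MP_813db1_ag.AN.Jet

/-! Sections of a line bundle of high order with a compact base locus. -/

namespace Pool.Agent.Lib.MP_813db1_ag.SV

open Pool.Agent.Lib.MP_813db1_ag.HS Pool.Agent.Lib.MP_813db1_ag.AS Pool.Agent.Lib.MP_813db1_ag.AN
open MeasureTheory Complex Matrix Filter Topology Set Metric
open scoped ContDiff ComplexOrder

variable {ι Y : Type} [Fintype ι] [DecidableEq ι] [TopologicalSpace Y] [MeasurableSpace Y]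
  {M : Atl ι Y} {g : Y → Mat ι} {ν : Measure Y} {S : Sg M g ν} {ξ : Y → Mat ι} {T : Bun S ξ}

namespace BsS

theorem src (S : Sg M g ν) (y : Y) : y ∈ (S.c (S.ch y)).source := S.ch_eq y ▸ M.mem y

/-- a bound for the coefficient gives the order of vanishing. -/
theorem ord (hA : S.BasA) (hB : T.BasB) {C : ℝ} {σ : Y → ℂ} {y : Y} {N : ℕ}
    (h : ∀ᶠ z in 𝓝 (S.c (S.ch y) y),
      ‖S.rep T.U σ (S.ch y) z‖ ≤ C * ‖z - S.c (S.ch y) y‖ ^ N) :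
    S.Ord (fun x => ‖σ x‖ ^ 2) y N := by
  obtain ⟨L, L1, hL⟩ := hA.bd 1 (by norm_num)
  obtain ⟨R, -, hR⟩ := hB.bd 1 (by norm_num)
  refine ⟨C ^ 2 * Real.exp R * L, ?_⟩
  filter_upwards [h, isOpen_ball.mem_nhds (mem_ball_zero_iff.2 (S.ch_lt y))] with z a1 a2
  rw [mem_ball_zero_iff] at a2
  have t : z ∈ (S.c (S.ch y)).target := by
    rw [S.tgt, mem_ball_zero_iff]
    linarith
  have e := hB.dn σ (S.ch y) _ ((S.c (S.ch y)).map_target t)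
  rw [(S.c (S.ch y)).right_inv t] at e
  obtain ⟨-, -, -, b2, -⟩ := hL (S.ty (S.ch y)) z a2.le
  have L0 : 0 < L := by linarith
  have c1 : Real.exp (-T.ρ (S.ty (S.ch y)) z) ≤ Real.exp R :=
    Real.exp_le_exp.2 ((neg_le_abs _).trans (hR _ z a2.le))
  have c2 := mul_le_mul (pow_le_pow_left₀ (norm_nonneg _) a1 2) c1 (Real.exp_pos _).le
    (sq_nonneg _)
  have c3 := (mul_le_mul_of_nonneg_right b2 (sq_nonneg _)).trans (e.le.trans c2)
  rw [inv_mul_le_iff₀ L0] at c3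
  exact c3.trans_eq (by ring)

/-- the common zeros meet boundedly many disjoint sheets. -/
theorem few (hA : S.BasA) (hB : T.BasB) (hD : T.BasD) (hI : T.Itp) (y : Y) (N : ℕ) :
    ∃ m : ℕ, ∀ x : Fin m → Y,
      (∀ i j w, w ∈ S.B (S.ch (x i)) 3 → w ∈ S.B (S.ch (x j)) 3 → i = j) →
      ∃ j σ, S.H2 T.U σ ∧ S.Ord (fun x => ‖σ x‖ ^ 2) y N ∧ σ (x j) ≠ 0 := by
  obtain ⟨c, hc⟩ := jetS ι N
  refine ⟨c + 1, fun x hx => ?_⟩
  obtain ⟨h, h1, h2⟩ := hI _ x hx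
  obtain ⟨a, a0, C, -, hC⟩ := hc (Fin (c + 1)) (by simp) (S.c (S.ch y) y)
    (fun i => S.rep T.U (h i) (S.ch y)) fun i => (hB.hol_an _ (h1 i).1).2 _ _
      (mem_ball_zero_iff.2 ((S.ch_lt y).trans (by norm_num)))
  obtain ⟨j, hj⟩ : ∃ j, ∑ i, a i * h i (x j) ≠ 0 := by
    by_contra f
    push Not at f
    exact a0 (h2 a f)
  refine ⟨j, _, hD.h2 _ Finset.univ a h fun i _ => h1 i, ord hA hB (C := C) ?_, hj⟩
  filter_upwards [hC] with z hz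
  rwa [hB.sum _ Finset.univ fun i x => a i * h i x,
    Finset.sum_congr rfl fun i _ => hB.mul (fun _ => a i) (h i) _ z]

/-- a set that meets boundedly many disjoint sheets lies in finitely many sheets. -/
theorem fin (hA : S.BasA) {Z : Set Y} {m : ℕ} (h : ∀ x : Fin m → Y,
    (∀ i j w, w ∈ S.B (S.ch (x i)) 3 → w ∈ S.B (S.ch (x j)) 3 → i = j) → ∃ j, x j ∉ Z) :
    (S.ch '' Z).Finite := by
  obtain ⟨P, hP⟩ : ∃ P : ℕ → Prop, ∀ n, P n ↔ ∃ x : Fin n → Y, (∀ j, x j ∈ Z) ∧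
      ∀ i j w, w ∈ S.B (S.ch (x i)) 3 → w ∈ S.B (S.ch (x j)) 3 → i = j := ⟨_, fun _ => Iff.rfl⟩
  obtain ⟨n, p1, p2⟩ : ∃ n, P n ∧ ¬P (n + 1) := by
    by_contra f
    push Not at f
    have : ∀ n, P n := fun n => Nat.rec ((hP 0).2 ⟨Fin.elim0, fun j => j.elim0, fun j => j.elim0⟩)
      f n
    obtain ⟨x, a, b⟩ := (hP m).1 (this m)
    obtain ⟨j, hj⟩ := h x b
    exact hj (a j)
  obtain ⟨x, a, b⟩ := (hP n).1 p1
  refine (S.fin _ (isCompact_iUnion fun j => hA.cpt (S.ch (x j)) 3 (by norm_num)) 3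
    (by norm_num)).subset ?_
  rintro _ ⟨y, hy, rfl⟩
  by_contra f
  have f' : ∀ j w, w ∈ S.B (S.ch y) 3 → w ∉ S.B (S.ch (x j)) 3 := fun j w c d =>
    f ⟨w, mem_iUnion.2 ⟨j, d⟩, c.1, mem_closedBall_zero_iff.1 c.2⟩
  refine p2 ((hP _).2 ⟨Fin.cons y x, fun j => Fin.cases hy a j, fun i j w => ?_⟩)
  refine Fin.cases ?_ (fun i => ?_) i <;> refine Fin.cases ?_ (fun j => ?_) j
  · exact fun _ _ => rfl
  · exact fun c d => absurd d (f' j w c)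
  · exact fun c d => absurd c (f' i w d)
  · exact fun c d => congrArg _ (b i j w c d)

end BsS

theorem bs [T2Space Y] (hA : S.BasA) (hT : T.All) (hI : T.Itp) : T.Bs := by
  intro y N
  have hB := hT.b
  obtain ⟨m, hm⟩ := BsS.few hA hB hT.d hI y N
  have hF := (BsS.fin hA
    (Z := {x | ∀ σ, S.H2 T.U σ → S.Ord (fun x => ‖σ x‖ ^ 2) y N → σ x = 0}) (m := m)
    fun x hx => by
      obtain ⟨j, σ, a, b, c⟩ := hm x hx
      exact ⟨j, fun e => c (e σ a b)⟩).insert (S.ch y)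
  obtain ⟨F, hF'⟩ : ∃ F : Set S.κ, F = insert (S.ch y)
    (S.ch '' {x | ∀ σ, S.H2 T.U σ → S.Ord (fun x => ‖σ x‖ ^ 2) y N → σ x = 0}) := ⟨_, rfl⟩
  rw [← hF'] at hF
  obtain ⟨W, hW⟩ : ∃ W : Set Y, W = ⋃ k ∈ F, (S.c k).source ∩ S.c k ⁻¹' ball 0 2 := ⟨_, rfl⟩
  have w1 : IsOpen W :=
    hW ▸ isOpen_biUnion fun k _ => (S.c k).isOpen_inter_preimage isOpen_ball
  have k1 : IsCompact (⋃ k ∈ F, S.B k 2) :=
    hF.isCompact_biUnion fun k _ => hA.cpt k 2 (by norm_num)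
  have w2 : IsCompact (closure W) := k1.closure_of_subset
    (hW ▸ iUnion₂_mono fun k _ => inter_subset_inter_right _ (preimage_mono ball_subset_closedBall))
  have w3 : ∀ x, S.ch x ∈ F → x ∈ W := fun x hx => hW ▸ mem_biUnion hx
    ⟨BsS.src S x, mem_ball_zero_iff.2 ((S.ch_lt x).trans one_lt_two)⟩
  obtain ⟨J, hJ⟩ := (w2.of_isClosed_subset isClosed_frontier
    frontier_subset_closure).elim_finite_subcover
    (fun σ : {σ // S.H2 T.U σ ∧ S.Ord (fun x => ‖σ x‖ ^ 2) y N} => {x | ‖σ.1 x‖ ^ 2 ≠ 0})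
    (fun σ => isOpen_ne_fun (hB.ck _ (hB.hol_an _ σ.2.1.1).1).2 continuous_const) fun x hx => by
      by_contra f
      rw [w1.frontier_eq] at hx
      refine hx.2 (w3 x (hF' ▸ mem_insert_of_mem _ ⟨x, fun σ a b => ?_, rfl⟩))
      by_contra e
      exact f (mem_iUnion.2 ⟨⟨σ, a, b⟩, pow_ne_zero _ (norm_ne_zero_iff.2 e)⟩)
  refine ⟨W, J.card, fun j => (J.equivFin.symm j).1.1, w1, w2, w3 y (hF' ▸ mem_insert _ _),
    fun j => (J.equivFin.symm j).1.2, fun x hx => ?_⟩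
  obtain ⟨σ, a, b⟩ := mem_iUnion₂.1 (hJ hx)
  refine ⟨J.equivFin ⟨σ, a⟩, fun e => b ?_⟩
  simp only [Equiv.symm_apply_apply] at e
  rw [e, norm_zero, zero_pow two_ne_zero]

end Pool.Agent.Lib.MP_813db1_ag.SV
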