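import Pool.Agent.Lib.MP_813db1_ag.SV.StB
import Pool.Agent.Lib.MP_813db1_ag.SV.Bs

/-! Functions with a zero of arbitrary order, and sections that do not vanish at a point. -/

namespace Pool.Agent.Lib.MP_813db1_ag.SV

open Pool.Agent.Lib.MP_813db1_ag.HS Pool.Agent.Lib.MP_813db1_ag.AS Pool.Agent.Lib.MP_813db1_ag.AN
open MeasureTheory Complex Matrix Filter Topology Set Metric
open scoped ContDiff ComplexOrder

variable {ι Y : Type} [Fintype ι] [DecidableEq ι] [TopologicalSpace Y] [MeasurableSpace Y]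
  {M : Atl ι Y} {g : Y → Mat ι} {ν : Measure Y} {S : Sg M g ν} {P : Pol S}

/-- interpolation holds in `K + b L` for some `b ≥ 1`. -/
theorem PoleS.itp (hA : S.BasA) (hB : P.Bn) (hI : S.ItpS) : ∃ b : ℕ, 1 ≤ b ∧
    ∃ T : Bun S (th M g ((1 : ℕ) - 1) b), T.U = P.U 1 b ∧ T.All ∧ T.Itp := by
  obtain ⟨s, -, hs⟩ := hI
  obtain ⟨T, h1, h2⟩ := hB.ex 1 (⌈s⌉₊ + 1)
  refine ⟨⌈s⌉₊ + 1, Nat.le_add_left _ _, T, h1, h2, hs _ T h2 fun y => ?_⟩
  have h0 : (0 : ℝ) ≤ ((⌈s⌉₊ + 1 : ℕ) : ℝ) - s := by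
    have := Nat.le_ceil s
    push_cast
    linarith
  convert (hA.det y).1.posSemidef.smul (zero_le_real.2 h0) using 1
  rw [th, Nat.cast_one, sub_self, ofReal_zero, zero_smul, zero_add, ofReal_sub, sub_smul]

theorem nz (hA : S.BasA) (hB : P.Bn) (hI : S.ItpS) : P.Nz := by
  obtain ⟨b, hb, T, h1, -, h3⟩ := PoleS.itp hA hB hI
  refine ⟨b, hb, fun y => ?_⟩
  obtain ⟨h, a1, a2⟩ := h3 1 (fun _ => y) fun i j _ _ _ => Subsingleton.elim i j
  refine ⟨h 0, h1 ▸ a1 0, fun e => ?_⟩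
  exact one_ne_zero (congrFun (a2 (fun _ => 1) fun _ => by simp [e]) 0)

theorem pole [T2Space Y] (hA : S.BasA) (hB : P.Bn) (hI : S.ItpS) : S.Pole := by
  obtain ⟨b, -, T, -, hT, h3⟩ := PoleS.itp hA hB hI
  obtain ⟨c, hc⟩ := hB.c0
  refine ⟨b + c, by positivity, fun y N => ?_⟩
  obtain ⟨W, m, σ, hW, hk, hy, hσ, hfr⟩ := bs hA hT h3 y N
  have hq := hT.lg m σ fun j => (hσ j).1.1
  refine ⟨W, fun x => ∑ j, ‖σ j x‖ ^ 2, hW, hk, hy, ⟨fun e he z hz => ?_, hq.nn, fun x hx => ?_⟩,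
    fun ε hε => ?_, ?_, fun x hx => ?_⟩
  · have : fn (fun y => ∑ j, ‖σ j y‖ ^ 2) e = fun w => ∑ j, fn (fun y => ‖σ j y‖ ^ 2) e w := by
      funext w
      simp only [fn]
      push_cast
      rfl
    rw [this]
    exact ContDiffAt.sum fun j _ => (hT.b.ck _ (hT.b.hol_an _ (hσ j).1.1).1).1 e he z hz
  · convert (hq.psd x hx).add (hc x).2 using 1
    rw [th, th, Nat.cast_one, sub_self, ofReal_zero, ofReal_add, ofReal_neg, ofReal_one]
    module
  · refine (isCompact_iUnion fun j =>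
      hT.d.dec _ (hσ j).1 (ε / (m + 1)) (by positivity)).of_isClosed_subset
      (isClosed_le continuous_const hq.cont) fun x hx => ?_
    by_contra hn
    simp only [mem_iUnion, mem_ofPred_eq, not_exists, not_le] at hn
    have h1 : ∑ j, ‖σ j x‖ ^ 2 ≤ ∑ _j : Fin m, ε / (m + 1) :=
      Finset.sum_le_sum fun j _ => (hn j).le
    rw [Finset.sum_const, Finset.card_univ, Fintype.card_fin, nsmul_eq_mul] at h1
    have h2 : (m : ℝ) * (ε / (m + 1)) < ε := by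
      rw [mul_div_assoc', div_lt_iff₀ (by positivity)]
      linarith
    exact absurd (hx.trans h1) h2.not_ge
  · choose c hc using fun j => (hσ j).2
    refine ⟨∑ j, c j, (eventually_all.2 hc).mono fun z hz => ?_⟩
    rw [Finset.sum_mul]
    exact Finset.sum_le_sum fun j _ => hz j
  · obtain ⟨j, hj⟩ := hfr x hx
    exact Finset.sum_pos' (fun i _ => sq_nonneg _) ⟨j, Finset.mem_univ j, by positivity⟩

end Pool.Agent.Lib.MP_813db1_ag.SV
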