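import Pool.Agent.Lib.MP_813db1_ag.SV.Sec
import Pool.Agent.Lib.MP_813db1_ag.SV.BasA
import Pool.Agent.Lib.MP_813db1_ag.SV.Bn
import Pool.Agent.Lib.MP_813db1_ag.SV.Pole
import Pool.Agent.Lib.MP_813db1_ag.SV.Loc
import Pool.Agent.Lib.MP_813db1_ag.SV.Null
import Pool.Agent.Lib.MP_813db1_ag.SV.Div
import Pool.Agent.Lib.MP_813db1_ag.SV.HorE
import Pool.Agent.Lib.MP_813db1_ag.SV.Imp
import Pool.Agent.Lib.MP_813db1_ag.SV.Lps
import Pool.Agent.Lib.MP_813db1_ag.SV.Res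

/-! The statements about one polarised family of sheets, together. -/

namespace Pool.Agent.Lib.MP_813db1_ag.SV

open Pool.Agent.Lib.MP_813db1_ag.HS Pool.Agent.Lib.MP_813db1_ag.AS Pool.Agent.Lib.MP_813db1_ag.AN
open MeasureTheory

/-- the analysis on every line bundle, and interpolation. -/
def BunS : Prop := ∀ (ι Y : Type) [Fintype ι] [DecidableEq ι] [Nonempty ι] [TopologicalSpace Y]
  [T2Space Y] [MeasurableSpace Y] [BorelSpace Y] (M : Atl ι Y) (g : Y → Mat ι)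
  (ν : Measure Y) (S : Sg M g ν), S.BasA → (∀ (ξ : Y → Mat ι) (T : Bun S ξ), T.All) ∧ S.ItpS

theorem packS (h : BunS) : PackS := by
  intro ι Y _ _ _ _ _ _ _ _ M g ν S P τ h0
  have hA := basA S
  obtain ⟨hT, hI⟩ := h ι Y M g ν S hA
  have hB : P.Bn := bn hA hT
  have hD : P.Div τ := div divL nonI nulL hA hB h0
  have hE : P.HorE := horE hA hB h0 hD
  exact ⟨hA, hB, nz hA hB hI, lps hA hB (nul hA hB) (imp P hA hB (pole hA hB hI) hE), hE,
    fun _ => res P hA hB h0 hD⟩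

end Pool.Agent.Lib.MP_813db1_ag.SV
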