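import Pool.Agent.Lib.MP_813db1_ag.SV.StB
import Pool.Agent.Lib.MP_813db1_ag.HS.RepA
import Pool.Agent.Lib.MP_caab05_ag.GB.Osg

/-! The frames of the canonical bundle and of the polarisation on the sheets. -/

namespace Pool.Agent.Lib.MP_813db1_ag.SV

open Pool.Agent.Lib.MP_813db1_ag.HS Pool.Agent.Lib.MP_813db1_ag.AS Pool.Agent.Lib.MP_813db1_ag.AN
open MeasureTheory Complex Matrix Filter Topology Set Metric
open scoped ContDiff ComplexOrder

namespace PolP

variable {ι X Y : Type} [Fintype ι] [DecidableEq ι] [TopologicalSpace X] [TopologicalSpace Y]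
  {MX : Atl ι X} {gX : X → Mat ι} {p : Y → X} {M : Atl ι Y} {g : Y → Mat ι} {S : St M g}
  (L : Lk MX gX p S) {N : ℕ} {σ : Fin N → X → ℂ}

theorem ball4 {k : S.κ} {y : Y} (hy : y ∈ (S.c k).source) : S.c k y ∈ ball (0 : V ι) 4 :=
  S.tgt k ▸ (S.c k).map_source hy

theorem down {k : S.κ} {y : Y} (hy : y ∈ (S.c k).source) :
    p y = (L.e (S.ty k)).symm (S.c k y) := by
  rw [← L.pr k _ (ball4 hy), (S.c k).left_inv hy]

theorem tg {a : Fin S.n} {z : V ι} (hz : z ∈ ball (0 : V ι) 4) : z ∈ (L.e a).target :=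
  (L.tgt a).symm ▸ hz

theorem src {k : S.κ} {y : Y} (hy : y ∈ (S.c k).source) : p y ∈ (L.e (S.ty k)).source :=
  down L hy ▸ (L.e _).map_target (tg L (ball4 hy))

theorem co {k : S.κ} {y : Y} (hy : y ∈ (S.c k).source) : L.e (S.ty k) (p y) = S.c k y := by
  rw [down L hy, (L.e _).right_inv (tg L (ball4 hy))]

omit [DecidableEq ι] in
theorem ev4 {z : V ι} (hz : z ∈ ball (0 : V ι) 4) : ∀ᶠ w in 𝓝 z, w ∈ ball (0 : V ι) 4 :=
  isOpen_ball.mem_nhds hz

theorem sec (k : S.κ) {z : V ι} (hz : z ∈ ball (0 : V ι) 4) :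
    F12.Sec p (L.e (S.ty k)) z (S.c k).symm :=
  ⟨(S.c k).continuousAt_symm ((S.tgt k).symm ▸ hz), (ev4 hz).mono fun w hw => L.pr k w hw⟩

theorem tj_eq {k l : S.κ} {y : Y} (hk : y ∈ (S.c k).source) (hl : y ∈ (S.c l).source) :
    tj (S.c k) (S.c l) y = tj (L.e (S.ty k)) (L.e (S.ty l)) (p y) := by
  rw [tj, tj, co L hk]
  refine jac_congr ?_
  filter_upwards [RepA.ev_src hk hl, ev4 (ball4 hk)] with w h1 h2
  rw [Function.comp_apply, Function.comp_apply, ← L.pr k w h2, co L h1.2]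

theorem vK_tr {e e' : Ch ι X} (he : e ∈ MX.A) (he' : e' ∈ MX.A) {x : X} (hx : x ∈ e.source)
    (hx' : x ∈ e'.source) : vK MX gX e x = (tj e e' x).det * vK MX gX e' x := by
  rw [vK, vK, RepA.tj_mul MX e he e' he' _ (MX.ch_mem x) x hx hx' (MX.mem x), det_mul]
  ring

theorem vK_nrm (hK : MX.IsK gX) {e : Ch ι X} {x : X} (hx : x ∈ e.source) :
    ‖vK MX gX e x‖ ^ 2 = (MX.repF gX e (e x)).det.re := by
  have h1 := (hK _ (MX.ch_mem x)).2 _ ((MX.ch x).map_source (MX.mem x))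
  rw [RepA.repF_self] at h1
  have h2 : 0 ≤ (gX x).det.re := (Complex.pos_iff.1 h1.det_pos).1.le
  rw [RepA.repF_apply MX gX hx, RepA.det_pull, re_ofReal_mul, vK, norm_mul, mul_pow, norm_real,
    Real.norm_eq_abs, sq_abs, Real.sq_sqrt h2]

theorem phi_sm (hP : Prj MX gX σ) {e : Ch ι X} (he : e ∈ MX.A) {j : Fin N}
    (hj : ∀ x ∈ e.source, σ j x ≠ 0) {z : V ι} (hz : z ∈ e.target) :
    ContDiffAt ℝ ∞ (fun w => -Real.log (‖σ j (e.symm w)‖ ^ 2)) z := by
  have h1 : ∀ w ∈ e.target, ∑ i, ‖σ i (e.symm w) / σ j (e.symm w)‖ ^ 2 =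
      (‖σ j (e.symm w)‖ ^ 2)⁻¹ := fun w _ => by
    simp only [norm_div, div_pow, ← Finset.sum_div, hP.nrm, one_div]
  have h0 := hj _ (e.map_target hz)
  have h2 : ContDiffAt ℝ ∞ (fun w => ∑ i, ‖σ i (e.symm w) / σ j (e.symm w)‖ ^ 2) z :=
    ContDiffAt.sum fun i _ => (RepA.cd_an (hP.an e he z hz j h0 i)).norm_sq ℂ
  refine (h2.log ?_).congr_of_eventuallyEq ?_
  · rw [h1 z hz]
    positivity
  · filter_upwards [e.open_target.mem_nhds hz] with w hw
    rw [h1 w hw, Real.log_inv]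

end PolP

open PolP in
theorem polS : PolS := by
  intro ι X Y _ _ _ _ _ MX gX N σ τ p M g ν S L hK hp hP hB hj
  choose j hj using hj
  let P : Pol S :=
    { φ := fun a z => -Real.log (‖σ (j a) ((L.e a).symm z)‖ ^ 2)
      u := fun k y => (σ (j (S.ty k)) (p y))⁻¹
      v := fun k y => vK MX gX (L.e (S.ty k)) (p y)
      φ_sm := fun a z hz => ⟨phi_sm hP (L.mem a) (hj a) (tg L hz), by
        rw [← L.rep a z hz, hP.lv _ (L.mem a) z (tg L hz) (j a)
          (hj a _ ((L.e a).map_target (tg L hz)))]⟩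
      u_nrm := fun k y hy => by
        have h0 := hj _ _ (src L hy)
        rw [← down L hy, Real.exp_neg, Real.exp_log (by positivity), norm_inv, inv_pow]
      u_hol := fun k l y hk hl => by
        have h0 := hj _ _ (src L hk)
        rw [down L hk] at h0
        refine (hP.an _ (L.mem _) _ (tg L (ball4 hk)) _ h0 (j (S.ty l))).congr ?_
        filter_upwards [ev4 (ball4 hk)] with w hw
        rw [L.pr k w hw, inv_div_inv]
      v_nrm := fun k y hy => by
        rw [vK_nrm hK (src L hy), co L hy, L.rep _ _ (ball4 hy)]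
      v_tr := fun k l y hk hl => by
        rw [tj_eq L hk hl, vK_tr (L.mem _) (L.mem (S.ty l)) (src L hk) (src L hl)] }
  have hU : ∀ a b s k w, w ∈ ball (0 : V ι) 4 → S.rep (P.U a b) s k w =
      vK MX gX (L.e (S.ty k)) ((L.e (S.ty k)).symm w) ^ a *
        (σ (j (S.ty k)) ((L.e (S.ty k)).symm w))⁻¹ ^ b * s ((S.c k).symm w) := by
    intro a b s k w hw
    rw [← L.pr k w hw]
    rfl
  have hI : ∀ a b s, HY MX gX σ p a b s ↔ S.Hol (P.U a b) s := by
    refine fun a b s => ⟨fun h k z hz => ?_, fun h e he z hz i hi t ht => ?_⟩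
    · have h1 := h _ (L.mem (S.ty k)) z (tg L hz) _ (hj _ _ ((L.e _).map_target (tg L hz))) _
        (sec L k hz)
      exact (h1.congr ((ev4 hz).mono fun w hw =>
        (hU a b s k w hw).symm)).differentiableAt.differentiableWithinAt
    · set k := S.ch (t z)
      have hy : t z ∈ (S.c k).source := S.ch_eq (t z) ▸ M.mem (t z)
      have h0 := ht.2.self_of_nhds
      have hx := e.map_target hz
      have hx' : e.symm z ∈ (L.e (S.ty k)).source := h0 ▸ src L hy
      have hΘ := MX.hol e he _ (L.mem (S.ty k)) _ hx hx'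
      have hev := RepA.ev_src hx hx'
      rw [e.right_inv hz] at hΘ hev
      have hF : AnalyticAt ℂ (S.rep (P.U a b) s k) ((L.e (S.ty k) ∘ e.symm) z) := by
        refine MP_caab05_ag.GB.osg _ _ _ _ isOpen_ball (h k) _ ?_
        rw [Function.comp_apply, ← h0, co L hy]
        exact ball4 hy
      refine ((((RepA.analyticAt_det hΘ).fun_pow a).fun_mul
        ((hP.an e he z hz i hi (j (S.ty k))).fun_pow b)).fun_mul (hF.comp hΘ)).congr ?_
      filter_upwards [hev, ht.2, ht.1.eventually_mem ((S.c k).open_source.mem_nhds hy)]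
        with w h1 h2 h3
      have h4 : L.e (S.ty k) (e.symm w) = S.c k (t w) := by rw [← h2, co L h3]
      have h5 := hj _ _ h1.2
      have h6 : tj e (L.e (S.ty k)) (e.symm w) = jac (L.e (S.ty k) ∘ e.symm) w := by
        rw [tj, e.right_inv h1.1]
      rw [Function.comp_apply, Function.comp_apply, hU a b s k _ (h4 ▸ ball4 h3),
        (L.e _).left_inv h1.2, h4, (S.c k).left_inv h3,
        vK_tr he (L.mem (S.ty k)) (e.map_target h1.1) h1.2, h6, div_eq_mul_inv, mul_pow, mul_pow]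
      have h7 : σ (j (S.ty k)) (e.symm w) ^ b * (σ (j (S.ty k)) (e.symm w))⁻¹ ^ b = 1 := by
        rw [← mul_pow, mul_inv_cancel₀ h5, one_pow]
      linear_combination (jac (L.e (S.ty k) ∘ e.symm) w).det ^ a * (σ i (e.symm w))⁻¹ ^ b *
        vK MX gX (L.e (S.ty k)) (e.symm w) ^ a * s (t w) * h7
  refine ⟨P, ⟨(hI 0 1 _).1 fun e he z hz i hi t ht => ?_, fun y => hB.bd _, fun k l hkl z hz => ?_,
    fun k z hz h0 => ?_⟩, hI⟩
  · refine (hB.hol e he z hz i hi e.symm ⟨e.continuousAt_symm hz, .of_forall fun _ => rfl⟩).congr ?_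
    filter_upwards [ht.2] with w hw
    rw [hw]
  · rw [L.pr k z hz, L.pr l z hz, hkl]
  · rw [L.pr k z hz] at h0
    have h1 : S.rep (P.U 0 1) (fun y => τ (p y)) k =ᶠ[𝓝 z] fun w =>
        τ ((L.e (S.ty k)).symm w) / σ (j (S.ty k)) ((L.e (S.ty k)).symm w) := by
      filter_upwards [ev4 hz] with w hw
      rw [hU 0 1 _ k w hw, L.pr k w hw, pow_zero, pow_one, one_mul, div_eq_inv_mul]
    rw [h1.fderiv_eq]
    exact hB.reg _ (L.mem _) z (tg L hz) _ (hj _ _ ((L.e _).map_target (tg L hz))) h0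

end Pool.Agent.Lib.MP_813db1_ag.SV
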