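import Pool.Agent.Lib.MP_813db1_ag.SV.StB
import Pool.Agent.Lib.MP_813db1_ag.AN.Ser
import Pool.Agent.Lib.MP_813db1_ag.AN.BasA

/-! The sum of the squares of the translates of a section. -/

namespace Pool.Agent.Lib.MP_813db1_ag.SV

open Pool.Agent.Lib.MP_813db1_ag.HS Pool.Agent.Lib.MP_813db1_ag.AS Pool.Agent.Lib.MP_813db1_ag.AN
open MeasureTheory Complex Matrix Filter Topology Set Metric
open scoped ContDiff ComplexOrder ENNReal

namespace Rho

variable {ι X Y G : Type} [Fintype ι] [DecidableEq ι] [TopologicalSpace X] [TopologicalSpace Y]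
  [Group G] [MulAction G Y] {M : Atl ι X} {g : X → Mat ι} {N : ℕ} {σ : Fin N → X → ℂ} {p : Y → X}
  {e : Ch ι X} {z : V ι} {j : Fin N} {m k : ℕ} {s : Y → ℂ} {t : V ι → Y}

theorem vk (hg : M.IsK g) (e : Ch ι X) (w : V ι) :
    ‖vK M g e (e.symm w)‖ ^ 2 = (M.repF g e w).det.re := by
  rw [Atl.repF, RepB.det_pull, re_ofReal_mul, vK, norm_mul, mul_pow, norm_real, Real.norm_eq_abs,
    sq_abs, Real.sq_sqrt (RepB.pos_det ((((AY.repA' ι X M).isK_iff g).1 hg).2 _)).le]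

theorem dt (hg : M.IsK g) (he : e ∈ M.A) (hz : z ∈ e.target) :
    ContDiffAt ℝ ∞ (fun w => (M.repF g e w).det.re) z ∧ 0 < (M.repF g e z).det.re :=
  ⟨reCLM.contDiff.contDiffAt.comp z ((hg e he).1.1.det hz), RepB.pos_det ((hg e he).2 z hz)⟩

theorem sg (hσ : Prj M g σ) (he : e ∈ M.A) (hz : z ∈ e.target) (hj : σ j (e.symm z) ≠ 0) :
    ContDiffAt ℝ ∞ (fun w => (‖σ j (e.symm w)‖ ^ 2)⁻¹) z := by
  have : (fun w => (‖σ j (e.symm w)‖ ^ 2)⁻¹) =
      fun w => ∑ i, ‖σ i (e.symm w) / σ j (e.symm w)‖ ^ 2 := funext fun w => by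
    simp only [norm_div, div_pow]
    rw [← Finset.sum_div, hσ.nrm, one_div]
  rw [this]
  exact ContDiffAt.sum fun i _ =>
    ((hσ.an e he z hz j hj i).contDiffAt.restrict_scalars ℝ).norm_sq ℂ

theorem ex (hσ : Prj M g σ) (x : X) : ∃ j, σ j x ≠ 0 := by
  by_contra hc
  push Not at hc
  simpa [hc] using hσ.nrm x

variable (M g σ e j m k) in
/-- the frame of `m K + k L`. -/
noncomputable def cf (w : V ι) : ℂ := vK M g e (e.symm w) ^ m * (σ j (e.symm w))⁻¹ ^ k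

theorem cf_sq (hg : M.IsK g) (w : V ι) : ‖cf M g σ e j m k w‖ ^ 2 =
    (M.repF g e w).det.re ^ m * (‖σ j (e.symm w)‖ ^ 2)⁻¹ ^ k := by
  rw [cf, ← vk hg, norm_mul, norm_pow, norm_pow, norm_inv]
  ring

theorem cf_sm (hg : M.IsK g) (hσ : Prj M g σ) (he : e ∈ M.A) (hz : z ∈ e.target)
    (hj : σ j (e.symm z) ≠ 0) :
    ContDiffAt ℝ ∞ (fun w => ‖cf M g σ e j m k w‖ ^ 2) z ∧ 0 < ‖cf M g σ e j m k z‖ ^ 2 := by
  simp only [cf_sq hg]
  have := (dt hg he hz).2
  exact ⟨((dt hg he hz).1.pow m).mul ((sg hσ he hz hj).pow k), by positivity⟩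

theorem cf_lv (hg : M.IsK g) (hσ : Prj M g σ) (he : e ∈ M.A) (hz : z ∈ e.target)
    (hj : σ j (e.symm z) ≠ 0) : levi (fun w => (Real.log (‖cf M g σ e j m k w‖ ^ 2) : ℂ)) z =
      (m : ℂ) • (-ric (M.repF g e) z) + (k : ℂ) • M.repF g e z := by
  have two : (2 : WithTop ℕ∞) ≤ ((⊤ : ℕ∞) : WithTop ℕ∞) := by norm_cast
  have a1 := contDiffAt_ofReal.2 (((dt hg he hz).1.log (dt hg he hz).2.ne').of_le two)
  have a2 := contDiffAt_ofReal.2 (((sg hσ he hz hj).log (by positivity)).of_le two)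
  rw [levi_congr (g := fun w => (m : ℂ) * (Real.log (M.repF g e w).det.re : ℝ) +
    (k : ℂ) * (Real.log (‖σ j (e.symm w)‖ ^ 2)⁻¹ : ℝ)), levi_add (contDiffAt_const.mul a1)
    (contDiffAt_const.mul a2), levi_cmul _ a1, levi_cmul _ a2, ric, neg_neg, hσ.lv e he z hz j hj]
  · simp only [Real.log_inv]
  · filter_upwards [F1.ev hz (hσ.op j) hj] with w hw
    have h1 := (dt hg he hw.1).2
    have h2 : σ j (e.symm w) ≠ 0 := hw.2
    rw [cf_sq hg, Real.log_mul (by positivity) (by positivity), Real.log_pow, Real.log_pow]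
    push_cast
    rfl

theorem dom (hg : M.IsK g) (hσ : Prj M g σ) (hp : IsQuotientCoveringMap p G)
    (hs : HY M g σ p m k s) (hl : Lp G fun y => ‖s y‖ ^ 2) (he : e ∈ M.A) (hz : z ∈ e.target)
    (hj : σ j (e.symm z) ≠ 0) (ht : F12.Sec p e z t) :
    Dom (fun (γ : G) w => cf M g σ e j m k w * s (γ • t w)) z := by
  obtain ⟨R, hR, h⟩ := nhds_basis_closedBall.eventually_iff.1 (((F1.ev hz (hσ.op j) hj).and
    (ht.ev hp.isCoveringMap.isLocalHomeomorph hz)).and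
    ((cf_sm (m := m) (k := k) hg hσ he hz hj).1.continuousAt.eventually
      (gt_mem_nhds (lt_add_one _))))
  obtain ⟨b, b1, b2⟩ := hl _ ((isCompact_closedBall z R).image_of_continuousOn
    fun w hw => (h hw).1.2.1.continuousWithinAt)
  refine ⟨R, hR, fun γ => √((‖cf M g σ e j m k z‖ ^ 2 + 1) * b γ),
    (b1.mul_left _).congr fun γ => (Real.sq_sqrt (mul_nonneg (by positivity) ((sq_nonneg _).trans
      (b2 γ _ ⟨z, mem_closedBall_self hR.le, rfl⟩)))).symm, fun γ => ⟨fun w hw => ?_,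
        fun w hw => Real.le_sqrt_of_sq_le ?_⟩⟩
  · have := h (ball_subset_closedBall hw)
    exact (hs e he w this.1.1.1 j this.1.1.2 _
      (this.1.2.smul hp γ)).differentiableAt.differentiableWithinAt
  · rw [norm_mul, mul_pow]
    exact mul_le_mul (h (ball_subset_closedBall hw)).2.le (b2 γ _ ⟨w, ball_subset_closedBall hw, rfl⟩)
      (sq_nonneg _) (by positivity)

theorem loc (hg : M.IsK g) (hσ : Prj M g σ) (hp : IsQuotientCoveringMap p G)
    (hs : HY M g σ p m k s) (hl : Lp G fun y => ‖s y‖ ^ 2) {ρ : X → ℝ}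
    (hρ : ∀ y, HasSum (fun γ : G => ‖s (γ • y)‖ ^ 2) (ρ (p y))) (he : e ∈ M.A)
    (hz : z ∈ e.target) : ContDiffAt ℝ ∞ (fn ρ e) z ∧ (0 < ρ (e.symm z) →
      ((m : ℂ) • (-ric (M.repF g e) z) + (k : ℂ) • M.repF g e z +
        levi (fn (fun x => Real.log (ρ x)) e) z).PosSemidef) := by
  obtain ⟨j, hj⟩ := ex hσ (e.symm z)
  obtain ⟨y, hy⟩ := hp.surjective (e.symm z)
  have ht := (F12.sh_self hp.isCoveringMap.isLocalHomeomorph (e := e) (y := y)
    (hy ▸ e.map_target hz)).1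
  rw [hy, e.right_inv hz] at ht
  obtain ⟨-, d1, d2⟩ := (dom hg hσ hp hs hl he hz hj ht).ser
  obtain ⟨c1, c2⟩ := cf_sm (m := m) (k := k) hg hσ he hz hj
  have e1 : ∀ᶠ w in 𝓝 z, ρ (e.symm w) = (∑' γ : G, ‖cf M g σ e j m k w *
      s (γ • F12.sh hp.isCoveringMap.isLocalHomeomorph y e w)‖ ^ 2) / ‖cf M g σ e j m k w‖ ^ 2 := by
    filter_upwards [ht.2, c1.continuousAt.eventually (lt_mem_nhds c2)] with w h1 h2
    simp only [norm_mul, mul_pow]
    rw [tsum_mul_left, (hρ _).tsum_eq, h1, mul_div_cancel_left₀ _ h2.ne']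
  refine ⟨contDiffAt_ofReal.2 ((d1.div c1 c2.ne').congr_of_eventuallyEq e1), fun h0 => ?_⟩
  rw [e1.self_of_nhds, div_pos_iff_of_pos_right c2] at h0
  have two : (2 : WithTop ℕ∞) ≤ ((⊤ : ℕ∞) : WithTop ℕ∞) := by norm_cast
  have a1 := contDiffAt_ofReal.2 ((d1.log h0.ne').of_le two)
  have a2 := contDiffAt_ofReal.2 ((c1.log c2.ne').of_le two)
  rw [← cf_lv hg hσ he hz hj, levi_congr (f := fn _ e) ?_, levi_sub a1 a2, add_sub_cancel]
  · exact d2 h0
  · filter_upwards [e1, c1.continuousAt.eventually (lt_mem_nhds c2),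
      d1.continuousAt.eventually (lt_mem_nhds h0)] with w h1 h2 h3
    rw [fn, h1, Real.log_div h3.ne' h2.ne', ofReal_sub]

/-- a small ball on which the section is analytic. -/
theorem bl (hg : M.IsK g) (hσ : Prj M g σ) (hp : IsLocalHomeomorph p) (hs : HY M g σ p m k s)
    (y : Y) : ∃ (e : Ch ι X) (t : V ι → Y) (c : V ι → ℂ) (R : ℝ), e ∈ M.A ∧ p y ∈ e.source ∧ 0 < R ∧
      AnalyticOnNhd ℂ (fun w => c w * s (t w)) (ball (e (p y)) R) ∧
      (∀ w ∈ ball (e (p y)) R, w ∈ e.target ∧ c w ≠ 0 ∧ F12.Sec p e w t) ∧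
      ∀ᶠ x in 𝓝 y, e (p x) ∈ ball (e (p y)) R ∧ t (e (p x)) = x := by
  obtain ⟨j, hj⟩ := ex hσ (p y)
  have hx := M.mem (p y)
  have hz := (M.ch (p y)).map_source hx
  obtain ⟨ht, h0⟩ := F12.sh_self hp hx
  obtain ⟨R, hR, h⟩ := nhds_basis_ball.eventually_iff.1 ((F1.ev hz (hσ.op j)
    (by rwa [(M.ch (p y)).left_inv hx])).and (ht.ev hp hz))
  have c : ContinuousAt (fun x => M.ch (p y) (p x)) y :=
    ((M.ch (p y)).continuousAt hx).comp hp.continuous.continuousAt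
  refine ⟨_, F12.sh hp y (M.ch (p y)), cf M g σ (M.ch (p y)) j m k, R, M.ch_mem _, hx, hR,
    fun w hw => hs _ (M.ch_mem _) w (h hw).1.1 j (h hw).1.2 _ (h hw).2, fun w hw => ⟨(h hw).1.1,
      fun e => (cf_sm (m := m) (k := k) hg hσ (M.ch_mem _) (h hw).1.1 (h hw).1.2).2.ne' (by simp [e]),
      (h hw).2⟩, (c.eventually (ball_mem_nhds _ hR)).and ?_⟩
  refine F12.uniq hp (ContinuousAt.comp (f := fun x => M.ch (p y) (p x)) ht.1 c) continuousAt_id h0 ?_
  filter_upwards [c.eventually ht.2,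
    hp.continuous.continuousAt.eventually ((M.ch (p y)).open_source.eventually_mem hx)] with x h1 h2
  exact h1.trans ((M.ch (p y)).left_inv h2)

/-- the identity theorem. -/
theorem nz [ConnectedSpace Y] (hg : M.IsK g) (hσ : Prj M g σ) (hp : IsLocalHomeomorph p)
    (hs : HY M g σ p m k s) (h0 : ∃ y, s y ≠ 0) (y : Y) : ¬ ∀ᶠ x in 𝓝 y, s x = 0 := by
  have hc : IsClopen {y | ∀ᶠ x in 𝓝 y, s x = 0} := by
    refine ⟨isOpen_compl_iff.1 (isOpen_iff_mem_nhds.2 fun y hy => ?_),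
      isOpen_setOfPred_eventually_nhds⟩
    obtain ⟨e, t, c, R, -, -, -, h1, h2, h3⟩ := bl hg hσ hp hs y
    filter_upwards [h3] with x hx h4
    have h5 := h1.eqOn_zero_of_preconnected_of_eventuallyEq_zero (convex_ball _ _).isPreconnected
      hx.1 (by
        filter_upwards [(h2 _ hx.1).2.2.1.eventually (p := fun x => s x = 0) (hx.2.symm ▸ h4)]
          with w hw
        simp [hw])
    refine hy (h3.mono fun x' hx' => ?_)
    have : c _ * s (t _) = 0 := h5 hx'.1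
    rw [hx'.2] at this
    exact (mul_eq_zero.1 this).resolve_left (h2 _ hx'.1).2.1
  intro h
  obtain ⟨y₀, h0⟩ := h0
  have : y₀ ∈ {y | ∀ᶠ x in 𝓝 y, s x = 0} := hc.eq_univ ⟨y, h⟩ ▸ mem_univ _
  exact h0 (Eventually.self_of_nhds (p := fun x => s x = 0) this)

end Rho

open Rho in
theorem rhoS (hN : NulL) : RhoS := by
  intro ι X Y G _ _ _ _ _ _ _ _ _ _ _ M g μ N σ p m k s hg hμ hσ hp hs h0 hl
  have hq := hp.isCoveringMap.isLocalHomeomorph
  choose q hq' using hp.surjective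
  have sm : ∀ y, Summable fun γ : G => ‖s (γ • y)‖ ^ 2 := fun y => by
    obtain ⟨b, b1, b2⟩ := hl {y} isCompact_singleton
    exact b1.of_nonneg_of_le (fun _ => sq_nonneg _) fun γ => b2 γ y rfl
  have hρ : ∀ y, HasSum (fun γ : G => ‖s (γ • y)‖ ^ 2) (∑' γ : G, ‖s (γ • q (p y))‖ ^ 2) := fun y => by
    obtain ⟨δ, hδ⟩ := hp.apply_eq_iff_mem_orbit.1 (hq' (p y))
    rw [← (Equiv.mulRight δ).hasSum_iff]
    convert (sm (q (p y))).hasSum using 1
    funext γ
    simp only [← hδ, Function.comp, Equiv.coe_mulRight, mul_smul]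
  have l := fun e he z hz => loc (ρ := fun x => ∑' γ : G, ‖s (γ • q x)‖ ^ 2) (e := e) (z := z)
    hg hσ hp hs hl hρ he hz
  have ha := AY.repA' ι X M
  have ct := ha.cont _ fun e he z hz => (l e he z hz).1.of_le bot_le
  refine ⟨_, hρ, ⟨ct, fun x => tsum_nonneg fun _ => sq_nonneg _, fun e he z hz _ => (l e he z hz).1,
    fun x hx => ?_⟩, (isClosed_eq ct continuous_const).isCompact.measure_zero_of_nhdsWithin
      fun x _ => ?_⟩
  · have := (l _ (M.ch_mem x) _ ((M.ch x).map_source (M.mem x))).2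
      (by rwa [(M.ch x).left_inv (M.mem x)])
    rwa [ha.repF_self] at this
  · obtain ⟨y, rfl⟩ := hp.surjective x
    obtain ⟨e, t, c, R, he, hy, hR, h1, h2, h3⟩ := bl hg hσ hq hs y
    obtain ⟨B, b1, b2, b3⟩ := exists_measurable_superset_of_null (hN ι _ _ isOpen_ball
      (convex_ball _ _).isPreconnected h1 (by
        by_contra hc
        push Not at hc
        refine nz hg hσ hq hs h0 y (h3.mono fun x hx => ?_)
        have := hc _ hx.1
        rw [hx.2] at this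
        exact (mul_eq_zero.1 this).resolve_left (h2 _ hx.1).2.1))
    refine ⟨_, inter_mem_nhdsWithin _ (inter_mem (e.open_source.mem_nhds hy)
      (e.continuousAt hy (ball_mem_nhds _ hR))), measure_mono_null (t := e.source ∩ e ⁻¹'
        (B ∩ ball (e (p y)) R)) (fun x hx => ⟨hx.2.1, b1 ⟨hx.2.2, ?_⟩, hx.2.2⟩) ?_⟩
    · have h4 := hρ (t (e x))
      rw [(h2 _ hx.2.2).2.2.2.self_of_nhds, e.left_inv hx.2.1, hx.1] at h4
      have := le_hasSum h4 1 fun _ _ => sq_nonneg _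
      rw [one_smul] at this
      rw [norm_eq_zero.1 (pow_eq_zero_iff two_ne_zero |>.1 (this.antisymm (sq_nonneg _))), mul_zero]
    · rw [BA.ap hg hμ he (b2.inter measurableSet_ball) fun w hw => (h2 w hw.2).1]
      exact setLIntegral_measure_zero _ _ (measure_mono_null inter_subset_left b3)

end Pool.Agent.Lib.MP_813db1_ag.SV
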