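import Pool.Agent.Lib.MP_813db1_ag.SV.SphF

/-! The upper bound for the spherical volume. -/

namespace Pool.Agent.Lib.MP_813db1_ag.SV

open Pool.Agent.Lib.MP_813db1_ag.HS Pool.Agent.Lib.MP_813db1_ag.AS
open MeasureTheory Complex Matrix Filter Topology Set Metric
open scoped ContDiff ComplexOrder ENNReal

namespace Sph

variable {ι : Type} [Fintype ι] [DecidableEq ι]

theorem fd {u : V ι → ℝ} {z : V ι} (hu : DifferentiableAt ℝ u z) (v : V ι) :
    fderiv ℝ u z v = 2 * (∑ i, dz (fun w => (u w : ℂ)) i z * v i).re := by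
  have e1 : fderiv ℝ (fun w => (u w : ℂ)) z v = (fderiv ℝ u z v : ℝ) :=
    congrArg (fun L : V ι →L[ℝ] ℂ => L v) (ofRealCLM.hasFDerivAt.comp z hu.hasFDerivAt).fderiv
  have e2 := congrArg re (e1.symm.trans (fderiv_eq_dz _ z v))
  rw [ofReal_re] at e2
  rw [e2, re_sum, re_sum, Finset.mul_sum]
  refine Finset.sum_congr rfl fun i _ => ?_
  rw [dzb_ofReal, ← star_mul', add_re, star_def, conj_re, two_mul]

omit [DecidableEq ι] in
theorem nV_add (A B : Mat ι) (c : ℝ) (v : V ι) :
    nV (A + (c : ℂ) • B) v = nV A v + c * nV B v := by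
  simp only [nV, ipV, Matrix.add_apply, Matrix.smul_apply, smul_eq_mul, add_mul, mul_assoc,
    Finset.sum_add_distrib, ← Finset.mul_sum, add_re, re_ofReal_mul]

theorem lim {a b I : ℝ≥0∞} {T : ℕ → ℝ≥0∞} {D K : ℝ} (hD : 0 ≤ D) (hT : Tendsto T atTop (𝓝 0))
    (h : ∀ r > (0 : ℝ), ∀ j, a ≤ b * I + (ENNReal.ofReal (D * (1 + r)) * T j +
      ENNReal.ofReal (D / r) * ENNReal.ofReal K)) : a ≤ b * I := by
  have h1 : ∀ r > (0 : ℝ), a ≤ b * I + ENNReal.ofReal (D * K / r) := fun r hr => by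
    have := ge_of_tendsto' (tendsto_const_nhds.add
      ((ENNReal.Tendsto.const_mul hT (Or.inr ENNReal.ofReal_ne_top)).add tendsto_const_nhds))
      (h r hr)
    rwa [mul_zero, zero_add, ← ENNReal.ofReal_mul (div_nonneg hD hr.le), div_mul_eq_mul_div]
      at this
  have h2 := ge_of_tendsto (tendsto_const_nhds.add (ENNReal.tendsto_ofReal
    (tendsto_const_nhds.div_atTop tendsto_id))) ((eventually_gt_atTop 0).mono h1)
  rwa [ENNReal.ofReal_zero, add_zero] at h2

end Sph

theorem sphS (hP : PuS) (hA : AlgL) (hS : ShS) (hG : GrS) : SphS := by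
  intro ι X Y G _ _ _ _ _ _ _ _ _ _ M g β μ p F N v η hg hμ hβ hq hF ⟨c, hc, hv⟩ hη
  obtain ⟨χ, hχ⟩ := hP ι X Y G M p hq
  obtain ⟨C, hC, h1⟩ := hG ι X Y G M g p χ hg hq hχ.sm hχ.cpt
  obtain ⟨D, hD, h2⟩ := SphF.build hq hχ hC hg h1 hF hη
  obtain ⟨K, hK⟩ := hS ι X M g β μ N η hg hμ hβ hF.qb hη
  have hp := hq.isCoveringMap.isLocalHomeomorph
  choose σ hσ using hq.surjective
  have hae : ∀ᵐ x ∂μ, x ∈ {x | 0 < N x} := measure_mono_null
    (fun x (hx : ¬0 < N x) => le_antisymm (not_lt.1 hx) (hF.qb.nn x)) hF.null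
  rw [Measure.restrict_eq_self_of_ae_mem hae]
  obtain ⟨H, hH⟩ : ∃ H : X → Mat ι,
    H = fun y => β y + M.ddc (fun z => Real.log (N z)) y + (η : ℂ) • g y := ⟨_, rfl⟩
  rw [← hH] at hK ⊢
  by_cases hI : ∫⁻ x, ENNReal.ofReal (rat H g x) ∂μ = ⊤
  · rw [hI]
    exact le_top
  have ms : ∀ δ : ℝ, MeasurableSet {x | N x < δ} := fun δ =>
    (isOpen_lt hF.qb.cont continuous_const).measurableSet
  have hT : Tendsto (fun j : ℕ => ∫⁻ x in {x | N x < 1 / ((j : ℝ) + 1)},
      ENNReal.ofReal (rat H g x) ∂μ) atTop (𝓝 0) := by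
    have := tendsto_measure_iInter_atTop (μ := μ.withDensity fun x => ENNReal.ofReal (rat H g x))
      (s := fun j : ℕ => {x | N x < 1 / ((j : ℝ) + 1)}) (fun j => (ms _).nullMeasurableSet)
      (fun i j hij x (hx : N x < _) => hx.trans_le (Nat.one_div_le_one_div hij)) ⟨0, by
        rw [withDensity_apply _ (ms _)]
        exact ne_top_of_le_ne_top hI (setLIntegral_le_lintegral _ _)⟩
    rw [withDensity_absolutelyContinuous μ _ (measure_mono_null (fun x hx => le_antisymm
      (ge_of_tendsto' tendsto_one_div_add_atTop_nhds_zero_nat fun j => (mem_iInter.1 hx j).le)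
      (hF.qb.nn x)) hF.null)] at this
    simpa only [Function.comp_def, withDensity_apply _ (ms _)] using this
  have h4 : (0 : ℝ) < 4 ^ Fintype.card ι := by positivity
  rw [ENNReal.ofReal_div_of_pos h4]
  refine ENNReal.div_le_of_le_mul' (Sph.lim (pow_nonneg hD (Fintype.card ι)) hT (K := K)
    fun r hr j => ?_)
  obtain ⟨κ, φ, δ', a1, a2, a3, a4, a5, a6⟩ := hK (1 / ((j : ℝ) + 1)) Nat.one_div_pos_of_nat
  obtain ⟨f, f1, f2, f3, f4, f5⟩ := h2 κ _ δ' a1 a2 fun x =>
    ⟨(a4 x).1, (a4 x).2.1, (a4 x).2.2.1, (a4 x).2.2.2.1⟩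
  have ht : ∀ x, F12.Sec p (c x) (c x x) (F12.sh hp (σ x) (c x)) := fun x => by
    have := (F12.sh_self hp (e := c x) (y := σ x) (by rw [hσ]; exact (hc x).2)).1
    rwa [hσ] at this
  have pt : ∀ x, 0 < N x → (1 / ((j : ℝ) + 1) ≤ N x →
      √(gram G f (F12.sh hp (σ x) (c x)) (c x x)).det / (M.repF g (c x) (c x x)).det.re ≤
        4 ^ Fintype.card ι * rat H g x) ∧
      √(gram G f (F12.sh hp (σ x) (c x)) (c x x)).det / (M.repF g (c x) (c x x)).det.re ≤
        D ^ Fintype.card ι * (1 + r) * rat H g x + D ^ Fintype.card ι / r * φ x := fun x hx => by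
    obtain ⟨he, hs⟩ := hc x
    have hz := (c x).map_source hs
    have hi := (c x).left_inv hs
    obtain ⟨ps, b1⟩ := f5 _ he _ hz (hi.symm ▸ hx) _ (ht x)
    have gp := (hg _ he).2 _ hz
    have g0 := (mat.det ι _ gp).1
    have hP : (M.repF H (c x) (c x x)).PosDef := by
      refine (mat.pull_pd ι _ _ (RepA.tj_det M _ he _ (M.ch_mem _) _ ((c x).map_target hz)
        (M.mem _))).1 ?_
      rw [hi, hH]
      exact PosDef.posSemidef_add (hF.qb.psd x hx)
        ((((RepA.isK_iff M mat g).1 hg).2 x).smul (zero_lt_real.2 hη))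
    have H0 := (mat.det ι _ hP).1
    have e1 : ∀ w, nV (M.repF H (c x) (c x x)) w = nV (M.repF (fun y => β y +
        M.ddc (fun z => Real.log (N z)) y) (c x) (c x x)) w +
          η * nV (M.repF g (c x) (c x x)) w := fun w => by
      rw [hH, RepA.repF_add, RepA.repF_smul]
      exact Sph.nV_add _ _ _ _
    have dk := (contDiffAt_ofReal.1 (a2 _ he _ hz)).differentiableAt (by simp)
    rw [← RepA.rat_rep M H g _ he x hs]
    constructor
    · intro hd
      have := (hA ι _ _ 0 4 1 ps hP (by norm_num) one_pos fun y => by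
        simpa only [Pi.zero_apply, zero_mul, Finset.sum_const_zero, zero_re, mul_zero,
          zero_pow two_ne_zero, add_zero] using (b1 y _ (e1 _)).2 (hi.symm ▸ hd)).2 rfl
      rw [← mul_div_assoc]
      exact div_le_div_of_nonneg_right this g0.le
    · obtain ⟨q1, q2⟩ := hA ι _ _ (fun i => dz (fn κ (c x)) i (c x x)) D r ps hP hD hr fun y => by
        have := (b1 y _ (e1 _)).1
        rwa [Sph.fd dk] at this
      have D0 := pow_nonneg hD (Fintype.card ι)
      by_cases ha : (fun i => dz (fn κ (c x)) i (c x x)) = 0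
      · refine (div_le_div_of_nonneg_right (q2 ha) g0.le).trans ?_
        have := mul_nonneg (div_nonneg D0 hr.le) (a4 x).2.2.2.2
        have := mul_nonneg (mul_nonneg D0 hr.le) (div_nonneg H0.le g0.le)
        rw [mul_div_assoc]
        linarith
      · refine (div_le_div_of_nonneg_right q1 g0.le).trans ?_
        refine le_trans (le_of_eq ?_) (add_le_add le_rfl (mul_le_mul_of_nonneg_left
          (a6 _ he x hs hx ha) (div_nonneg D0 hr.le)))
        ring
  refine (hv f _ f1 f2 f3 f4 ht).trans ?_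
  rw [← lintegral_add_compl _ (ms (1 / ((j : ℝ) + 1))), add_comm]
  refine add_le_add ?_ ?_
  · rw [← lintegral_const_mul' _ _ ENNReal.ofReal_ne_top]
    refine (setLIntegral_mono' (ms _).compl fun x hx => ?_).trans (setLIntegral_le_lintegral _ _)
    rw [← ENNReal.ofReal_mul h4.le]
    exact ENNReal.ofReal_le_ofReal
      ((pt x (Nat.one_div_pos_of_nat.trans_le (not_lt.1 hx))).1 (not_lt.1 hx))
  · refine (lintegral_mono_ae (g := fun x => ENNReal.ofReal (D ^ Fintype.card ι * (1 + r)) *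
      ENNReal.ofReal (rat H g x) + ENNReal.ofReal (D ^ Fintype.card ι / r) * ENNReal.ofReal (φ x))
      ((ae_restrict_of_ae hae).mono fun x hx => ?_)).trans ?_
    · rw [← ENNReal.ofReal_mul (by positivity), ← ENNReal.ofReal_mul (by positivity)]
      exact (ENNReal.ofReal_le_ofReal (pt x hx).2).trans ENNReal.ofReal_add_le
    · rw [lintegral_add_right _ (a3.measurable.ennreal_ofReal.const_mul _),
        lintegral_const_mul' _ _ ENNReal.ofReal_ne_top,
        lintegral_const_mul' _ _ ENNReal.ofReal_ne_top]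
      exact add_le_add le_rfl (mul_le_mul_right ((setLIntegral_le_lintegral _ _).trans a5) _)

end Pool.Agent.Lib.MP_813db1_ag.SV
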