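import Pool.Agent.Lib.MP_813db1_ag.SV.SphD
import Pool.Agent.Lib.MP_813db1_ag.AN.FinA
import Pool.Agent.Lib.MP_813db1_ag.AN.FinFun
import Pool.Agent.Lib.MP_813db1_ag.AN.FinMat
import Pool.Agent.Lib.MP_813db1_ag.HS.AYAll

/-! A cut-off near the zero set of a function, and the mass of its shell. -/

namespace Pool.Agent.Lib.MP_813db1_ag.SV

open Pool.Agent.Lib.MP_813db1_ag.HS Pool.Agent.Lib.MP_813db1_ag.AS Pool.Agent.Lib.MP_813db1_ag.AN
open MeasureTheory Complex Matrix Filter Topology Set Metric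
open scoped ContDiff ComplexOrder ENNReal

namespace SphX

open Real in
/-- the convex function that dominates the cut-off. -/
theorem fu : ∃ (L : ℝ → ℝ) (b : ℝ), ContDiff ℝ ∞ L ∧ (∀ x ≤ (-1 : ℝ), L x = 0) ∧ 0 ≤ b ∧ ∀ x,
    0 ≤ deriv L x ∧ deriv L x ≤ b ∧ deriv smoothTransition x ^ 2 ≤ deriv (deriv L) x ∧
    (deriv smoothTransition x ≠ 0 → 1 ≤ deriv L x) := by
  have hk : ContDiff ℝ ∞ smoothTransition := smoothTransition.contDiff
  have d0 := FF.flat hk isOpen_Iio fun x (hx : x < 0) => smoothTransition.zero_of_nonpos hx.le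
  have d1 := FF.flat hk isOpen_Ioi fun x (hx : 1 < x) => smoothTransition.one_of_one_le hx.le
  rw [closure_Iio] at d0
  rw [closure_Ioi] at d1
  obtain ⟨p, p1, p2, p3, p4, -⟩ := FF.prim ((contDiff_infty_iff_deriv.1 hk).2.pow 2) 0 0
  have hs : ContDiff ℝ ∞ fun x : ℝ => smoothTransition (x + 1) :=
    hk.comp (contDiff_id.add contDiff_const)
  obtain ⟨l, l1, l2, l3, l4, -⟩ := FF.prim (hs.add p1) (-1) 0
  have pm : Monotone p := monotone_of_deriv_nonneg (p1.differentiable (by simp)) fun x => by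
    rw [p2]
    positivity
  have q0 : ∀ x ≤ (0 : ℝ), p x = 0 := fun x hx => by
    rw [p4 x 0 0 fun t ht => ?_, p3, zero_mul, add_zero]
    rw [uIcc_of_ge hx] at ht
    rw [d0 t ht.2, zero_pow two_ne_zero]
  have q1 : ∀ x ≥ (1 : ℝ), p x = p 1 := fun x hx => by
    rw [p4 x 1 0 fun t ht => ?_, zero_mul, add_zero]
    rw [uIcc_of_le hx] at ht
    rw [d1 t ht.1, zero_pow two_ne_zero]
  have q2 : ∀ x, 0 ≤ p x := fun x => (q0 _ (min_le_right x _)).ge.trans (pm (min_le_left _ _))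
  refine ⟨l, 1 + p 1, l1, fun x hx => ?_, add_nonneg zero_le_one (q2 1), fun x => ?_⟩
  · rw [l4 x (-1) 0 fun t ht => ?_, l3, zero_mul, add_zero]
    rw [uIcc_of_ge hx] at ht
    rw [smoothTransition.zero_of_nonpos (by linarith [ht.2]), q0 t (by linarith [ht.2]), add_zero]
  rw [l2]
  refine ⟨add_nonneg (smoothTransition.nonneg _) (q2 x), add_le_add (smoothTransition.le_one _)
    ((pm (le_max_left x _)).trans (q1 _ (le_max_right _ _)).le), ?_, fun h => ?_⟩
  · rw [deriv_fun_add (hs.differentiable (by simp) x) (p1.differentiable (by simp) x), p2]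
    exact le_add_of_nonneg_left
      (Monotone.deriv_nonneg fun a b hab => smoothTransition.monotone (by linarith))
  · have : 0 < x := not_le.1 fun c => h (d0 x c)
    simp only
    rw [smoothTransition.one_of_one_le (by linarith)]
    exact le_add_of_nonneg_right (q2 x)

variable {ι X : Type} [Fintype ι] [DecidableEq ι] [TopologicalSpace X] {M : Atl ι X}
  {β : X → Mat ι} {N : X → ℝ}

theorem lg (h : QB M β N) {x : X} (hx : 0 < N x) :
    ContDiffAt ℝ ∞ (fn (fun y => Real.log (N y)) (M.ch x)) (M.ch x x) := by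
  have e := (M.ch x).left_inv (M.mem x)
  exact contDiffAt_ofReal.2 ((contDiffAt_ofReal.1 (h.sm _ (M.ch_mem x) _
    ((M.ch x).map_source (M.mem x)) (e.symm ▸ hx))).log (by rw [e]; exact hx.ne'))

/-- functions of `log N` that vanish near the zero set. -/
theorem ext (h : QB M β N) {Φ : ℝ → ℝ} (hΦ : ContDiff ℝ ∞ Φ) (c : ℝ)
    (h0 : ∀ x ≤ (-1 : ℝ), Φ x = 0) : ∃ u, M.Ck ∞ u ∧ (∀ x, ¬0 < N x → u x = 0 ∧ M.ddc u x = 0) ∧
      ∀ x, 0 < N x → u x = Φ (Real.log (N x) + c) ∧
      M.dfn u x = ((deriv Φ (Real.log (N x) + c) : ℝ) : ℂ) • M.dfn (fun y => Real.log (N y)) x ∧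
      M.ddc u x = ((deriv Φ (Real.log (N x) + c) : ℝ) : ℂ) • M.ddc (fun y => Real.log (N y)) x +
        ((deriv (deriv Φ) (Real.log (N x) + c) : ℝ) : ℂ) •
          vecMulVec (M.dfn (fun y => Real.log (N y)) x) (star (M.dfn (fun y => Real.log (N y)) x)) := by
  obtain ⟨u, hu⟩ : ∃ u : X → ℝ, ∀ x, u x = if 0 < N x then Φ (Real.log (N x) + c) else 0 :=
    ⟨_, fun _ => rfl⟩
  have c1 : ContDiff ℝ ∞ fun s => Φ (s + c) := hΦ.comp (contDiff_id.add contDiff_const)
  have e1 : ∀ x, 0 < N x → u =ᶠ[𝓝 x] fun y => Φ (Real.log (N y) + c) := fun x hx =>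
    (h.cont.continuousAt.eventually (lt_mem_nhds hx)).mono fun y hy => by rw [hu, if_pos hy]
  have e0 : ∀ x, ¬0 < N x → u =ᶠ[𝓝 x] fun _ => 0 := fun x hx => by
    filter_upwards [h.cont.continuousAt.eventually
      (gt_mem_nhds ((not_lt.1 hx).trans_lt (Real.exp_pos (-1 - c))))] with y hy
    rw [hu]
    split_ifs with a
    · exact h0 _ (by linarith [(Real.log_lt_iff_lt_exp a).2 hy])
    · rfl
  refine ⟨u, FinA.ck_of (AY.repA' ι X M) fun x => ?_, fun x hx => ⟨(e0 x hx).self_of_nhds, ?_⟩,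
    fun x hx => ⟨(e1 x hx).self_of_nhds, ?_, ?_⟩⟩
  · by_cases hx : 0 < N x
    · exact ⟨_, e1 x hx, contDiffAt_ofReal.2 (c1.contDiffAt.comp _ (contDiffAt_ofReal.1 (lg h hx)))⟩
    · exact ⟨_, e0 x hx, contDiffAt_const (c := ((0 : ℝ) : ℂ))⟩
  · rw [FinA.ddc_congr (e0 x hx), (AY.repB' ι X M).ddc_const]
  · funext i
    refine (dz_congr (FinA.fn_congr (e1 x hx)) i).trans ?_
    rw [← deriv_comp_add_const]
    exact dz_real_comp (Φ := fun s => Φ (s + c)) (u := fun w => Real.log (N ((M.ch x).symm w)))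
      (by rw [(M.ch x).left_inv (M.mem x)]; exact (c1.differentiable (by simp) _).hasDerivAt)
      ((contDiffAt_ofReal.1 (lg h hx)).differentiableAt (by simp)) i
  · rw [FinA.ddc_congr (e1 x hx), FinA.ddc_comp (Φ := fun s => Φ (s + c)) c1.contDiffAt (lg h hx),
      show deriv (fun s => Φ (s + c)) = fun s => deriv Φ (s + c) from
        funext fun s => deriv_comp_add_const _ _ _, deriv_comp_add_const]

omit [DecidableEq ι] in
theorem pull_vec (J : Mat ι) (a : V ι) :
    pull J (vecMulVec a (star a)) = vecMulVec (a ᵥ* J) (star (a ᵥ* J)) := by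
  rw [pull, mul_vecMulVec, vecMulVec_mul, mulVec_transpose]
  congr 1
  funext i
  simp [vecMul, dotProduct]

end SphX

theorem shS : ShS := by
  intro ι X _ _ _ _ _ _ _ M g β μ N η hg hμ hβ hN hη
  have ha := AY.repA' ι X M
  have hb := AY.repB' ι X M
  obtain ⟨cg, pd⟩ := (ha.isK_iff g).1 hg
  obtain ⟨C, C0, hC⟩ := Nef.low ha mat hg hβ
  obtain ⟨L, b, l1, l2, b0, l3⟩ := SphX.fu
  obtain ⟨B, hB⟩ : ∃ B : X → Mat ι, B = fun x => β x + ((C + η : ℝ) : ℂ) • g x := ⟨_, rfl⟩
  have cB : M.ClF fun x => (b : ℂ) • B x :=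
    ha.clF_smul _ _ (hB ▸ ha.clF_add _ _ hβ (ha.clF_smul _ _ cg))
  have pB : ∀ x, (B x).PosSemidef := fun x => by
    convert (hC x).add (FinA.psd_smul (pd x).posSemidef hη.le) using 1
    rw [hB]
    push_cast
    module
  refine ⟨∫ x, rat (fun y => (b : ℂ) • B y) g x ∂μ, fun δ hδ => ?_⟩
  obtain ⟨κ, k1, k2, k3⟩ := SphX.ext hN Real.smoothTransition.contDiff (1 - Real.log δ)
    fun x hx => Real.smoothTransition.zero_of_nonpos (by linarith)
  obtain ⟨u, u1, u2, u3⟩ := SphX.ext hN l1 (1 - Real.log δ) l2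
  have cφ := FinA.cont_rat ha hg (ha.clF_add _ _ cB (hb.ddc_cl u u1))
  have pD : ∀ x, 0 < N x → (B x + M.ddc (fun y => Real.log (N y)) x).PosSemidef := fun x hx => by
    convert (hN.psd x hx).add (FinA.psd_smul (pd x).posSemidef (add_pos_of_nonneg_of_pos C0 hη).le)
      using 1
    rw [hB]
    module
  have p0 : ∀ x, 0 ≤ rat (fun y => (b : ℂ) • B y + M.ddc u y) g x := fun x => by
    refine div_nonneg (Pole.det_nonneg ?_) (mat.det ι _ (pd x)).1.le
    by_cases hx : 0 < N x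
    · obtain ⟨a1, a2, a3, -⟩ := l3 (Real.log (N x) + (1 - Real.log δ))
      convert ((FinA.psd_smul (pB x) (sub_nonneg.2 a2)).add (FinA.psd_smul (pD x hx) a1)).add
        (FinA.psd_smul (posSemidef_vecMulVec_self_star (M.dfn (fun y => Real.log (N y)) x))
          ((sq_nonneg _).trans a3)) using 1
      simp only
      rw [(u3 x hx).2.2]
      push_cast
      module
    · simp only
      rw [(u2 x hx).2, add_zero]
      exact FinA.psd_smul (pB x) b0
  have fin := ((AY.volS' ι X M g hg).2 μ hμ).fin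
  refine ⟨κ, _, Real.exp (Real.log δ - 1), Real.exp_pos _, k1, cφ, fun x => ?_, ?_,
    fun e he x hx h0 hne => ?_⟩
  · by_cases hx : 0 < N x
    · rw [(k3 x hx).1]
      refine ⟨Real.smoothTransition.nonneg _, Real.smoothTransition.le_one _, fun h =>
        Real.smoothTransition.zero_of_nonpos ?_, fun h => Real.smoothTransition.one_of_one_le ?_,
        p0 x⟩
      · linarith [(Real.log_le_iff_le_exp hx).2 h]
      · linarith [Real.log_le_log hδ h]
    · rw [(k2 x hx).1]
      exact ⟨le_rfl, zero_le_one, fun _ => rfl, fun h => absurd (hδ.trans_le h) hx, p0 x⟩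
  · rw [← ofReal_integral_eq_lintegral_ofReal (cφ.integrable_of_hasCompactSupport
      (HasCompactSupport.of_compactSpace _)) (Eventually.of_forall p0),
      inv AY.repA' AY.repB' AY.divS' AY.curvS' AY.volS' ι X M g _ μ u hg hμ cB u1]
  · rw [hb.dfn_rep κ e he x hx ((k1 e he _ (e.map_source hx)).differentiableAt (by simp))] at hne ⊢
    have e1 := congrFun (RepA.repF_add M
      (fun y => β y + M.ddc (fun z => Real.log (N z)) y + (η : ℂ) • g y)
      (fun y => vecMulVec (M.dfn κ y) (star (M.dfn κ y))) e) (e x)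
    have e2 : M.repF (fun y => vecMulVec (M.dfn κ y) (star (M.dfn κ y))) e (e x) = vecMulVec
        (M.dfn κ x ᵥ* tj e (M.ch x) x) (star (M.dfn κ x ᵥ* tj e (M.ch x) x)) := by
      rw [Atl.repF, e.left_inv hx, SphX.pull_vec]
    rw [← e2, ← e1, ha.rat_rep _ _ e he x hx]
    refine div_le_div_of_nonneg_right ?_ (mat.det ι _ (pd x)).1.le
    obtain ⟨-, a2, a3, a4⟩ := l3 (Real.log (N x) + (1 - Real.log δ))
    have a5 := a4 fun c => hne (by rw [(k3 x h0).2.1, c, ofReal_zero, zero_smul, zero_vecMul])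
    have pv := posSemidef_vecMulVec_self_star (M.dfn (fun y => Real.log (N y)) x)
    refine (finMat.mono ι _ _ (((hN.psd x h0).add (FinA.psd_smul (pd x).posSemidef hη.le)).add
      (posSemidef_vecMulVec_self_star _)) ((((FinA.psd_smul (pB x) (sub_nonneg.2 a2)).add
        (FinA.psd_smul (pD x h0) (sub_nonneg.2 a5))).add
        (FinA.psd_smul (pd x).posSemidef C0)).add (FinA.psd_smul pv (sub_nonneg.2 a3)))).trans_eq ?_
    congr 2
    simp only
    rw [(u3 x h0).2.2, (k3 x h0).2.1, star_smul, smul_vecMulVec, vecMulVec_smul, hB,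
      RCLike.star_def, conj_ofReal]
    push_cast
    module

end Pool.Agent.Lib.MP_813db1_ag.SV
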