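import Pool.Agent.Lib.MP_813db1_ag.SV.StB
import Pool.Agent.Lib.MP_813db1_ag.AN.St

/-! Sheets over small charts, with the action of the group. -/

namespace Pool.Agent.Lib.MP_813db1_ag.SV

open Pool.Agent.Lib.MP_813db1_ag.HS Pool.Agent.Lib.MP_813db1_ag.AS Pool.Agent.Lib.MP_813db1_ag.AN
open MeasureTheory Complex Matrix Filter Topology Set Metric
open scoped ContDiff ComplexOrder

open StJ in
theorem St2.core {ι X Y G : Type} [Fintype ι] [DecidableEq ι] [TopologicalSpace X] [T2Space X]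
    [CompactSpace X] [TopologicalSpace Y] [ConnectedSpace Y] [Group G] [MulAction G Y]
    (MX : Atl ι X) (gX : X → Mat ι) (p : Y → X) (O : X → Set X) (hK : MX.IsK gX)
    (hp : IsQuotientCoveringMap p G) (hO : ∀ x, IsOpen (O x) ∧ x ∈ O x) :
    ∃ (M : Atl ι Y) (g : Y → Mat ι) (S : St M g) (L : Lk MX gX p S) (m : G → S.κ → S.κ),
      (∀ d, ∀ E ∈ MX.A, Ov p d E → d ∈ M.A ∧ ∀ z ∈ d.target, M.repF g d z = MX.repF gX E z) ∧
      (∀ a, ∃ x, (L.e a).source ⊆ O x) ∧ (∀ k, Function.Injective fun γ => m γ k) ∧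
      ∀ γ k, ∀ z ∈ ball (0 : V ι) 4, (S.c (m γ k)).symm z = γ • (S.c k).symm z := by
  have := hp.toContinuousConstSMul
  have pc : Continuous p := hp.isCoveringMap.continuous
  choose P0 hP0 hP1 hP2 using loc hp
  choose E0 hE0 hE1 hE2 hE3 hE4 using fun x =>
    big MX ((P0 x).open_target.inter (hO x).1) ⟨hP0 x, (hO x).2⟩
  obtain ⟨t, ht⟩ := CompactSpace.elim_nhds_subcover
    (fun x => (E0 x).source ∩ E0 x ⁻¹' ball 0 1) fun x =>
      ((E0 x).isOpen_inter_preimage isOpen_ball).mem_nhds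
        ⟨hE3 x, by rw [mem_preimage, hE4]; exact mem_ball_self one_pos⟩
  obtain ⟨n, P, E, hP, hD, hE, hT, hS, hU, hc⟩ : ∃ (n : ℕ) (P : Fin n → OpenPartialHomeomorph Y X)
      (E : Fin n → Ch ι X), (∀ a y, P a y = p y) ∧
      (∀ a (γ : G) y, y ∈ (P a).source → γ • y ∈ (P a).source → γ = 1) ∧ (∀ a, E a ∈ MX.A) ∧
      (∀ a, (E a).target = ball 0 5) ∧ (∀ a, (E a).source ⊆ (P a).target) ∧
      (∀ a, ∃ x, (E a).source ⊆ O x) ∧ ∀ x, ∃ a, x ∈ (E a).source ∧ ‖E a x‖ < 1 := by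
    refine ⟨t.card, fun a => P0 (t.equivFin.symm a), fun a => E0 (t.equivFin.symm a),
      fun a => hP1 _, fun a => hP2 _, fun a => hE0 _, fun a => hE1 _,
      fun a => (hE2 _).trans inter_subset_left,
      fun a => ⟨_, (hE2 _).trans inter_subset_right⟩, fun x => ?_⟩
    obtain ⟨y, hy, h2, h3⟩ := mem_iUnion₂.1 (ht.ge (mem_univ x))
    refine ⟨t.equivFin ⟨y, hy⟩, ?_⟩
    simp only [Equiv.symm_apply_apply]
    exact ⟨h2, mem_ball_zero_iff.1 h3⟩
  let C : Fin n × G → Ch ι Y := fun k => sh (P k.1) (E k.1) k.2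
  have c1 : ∀ k y, C k y = E k.1 (p y) := fun k y =>
    congrArg (E k.1) ((hP k.1 _).trans (hp.map_smul _))
  have c2 : ∀ k y, y ∈ (C k).source ↔ k.2⁻¹ • y ∈ (P k.1).source ∧ p y ∈ (E k.1).source :=
    fun k y => and_congr_right' (by
      change P k.1 (k.2⁻¹ • y) ∈ (E k.1).source ↔ _
      rw [hP, hp.map_smul])
  have c3 : ∀ k, (C k).target = ball 0 5 := fun k =>
    (inter_eq_left.2 fun z hz => show (E k.1).symm z ∈ (P k.1).target from
      hS k.1 ((E k.1).map_target hz)).trans (hT k.1)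
  have c4 : ∀ k, Ov p (C k) (E k.1) := fun k y hy => ⟨((c2 k y).1 hy).2, c1 k y⟩
  have c5 : ∀ k, Ov p (sm (C k)) (E k.1) := fun k y hy => c4 k y hy.1
  have c6 : ∀ a y, p y ∈ (E a).source → ∃ γ, y ∈ (C (a, γ)).source := fun a y hy => by
    have h1 := hS a hy
    obtain ⟨γ, hγ⟩ := hp.apply_eq_iff_mem_orbit.1
      ((hP a _).symm.trans ((P a).right_inv h1)).symm
    refine ⟨γ, (c2 _ y).2 ⟨?_, hy⟩⟩
    rw [← hγ, inv_smul_smul]
    exact (P a).map_target h1
  have c7 : ∀ k l y, k.1 = l.1 → y ∈ (C k).source → y ∈ (C l).source → k = l := by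
    rintro ⟨a, γ⟩ ⟨b, δ⟩ y rfl h1 h2
    have h3 := hD a (δ⁻¹ * γ) _ ((c2 _ y).1 h1).1 (by
      rw [mul_smul, smul_inv_smul]
      exact ((c2 _ y).1 h2).1)
    rw [inv_mul_eq_one.1 h3]
  have c8 : ∀ y, ∃ k, y ∈ (sm (C k)).source ∧ ‖sm (C k) y‖ < 1 := fun y => by
    obtain ⟨a, h1, h2⟩ := hc (p y)
    obtain ⟨γ, h3⟩ := c6 a y h1
    rw [← c1 (a, γ)] at h2
    exact ⟨(a, γ), ⟨h3, mem_ball_zero_iff.2 (h2.trans (by norm_num))⟩, h2⟩
  have c9 : ∀ K, IsCompact K → ∀ r < (4 : ℝ),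
      {k | ∃ y ∈ K, y ∈ (sm (C k)).source ∧ ‖sm (C k) y‖ ≤ r}.Finite := by
    intro K hK r hr
    have hs : ∀ a, closedBall (0 : V ι) r ⊆ (E a).target := fun a =>
      (closedBall_subset_ball (hr.trans (by norm_num))).trans (hT a).ge
    have lf : LocallyFinite fun k => {y | y ∈ (sm (C k)).source ∧ ‖sm (C k) y‖ ≤ r} := by
      intro y0
      have h1 : ∀ a, ∃ W ∈ 𝓝 y0, ∃ γ, ∀ δ, ∀ y ∈ W, y ∈ (sm (C (a, δ))).source →
          ‖sm (C (a, δ)) y‖ ≤ r → δ = γ := fun a => by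
        by_cases h : p y0 ∈ (E a).source
        · obtain ⟨γ, h2⟩ := c6 a y0 h
          exact ⟨_, (C (a, γ)).open_source.mem_nhds h2, γ, fun δ y h3 h4 _ =>
            congrArg Prod.snd (c7 (a, δ) (a, γ) y rfl h4.1 h3)⟩
        · have h2 : IsClosed ((E a).symm '' closedBall 0 r) :=
            ((isCompact_closedBall _ _).image_of_continuousOn
              ((E a).continuousOn_symm.mono (hs a))).isClosed
          refine ⟨p ⁻¹' ((E a).symm '' closedBall 0 r)ᶜ, (h2.isOpen_compl.preimage pc).mem_nhds ?_,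
            1, fun δ y h3 h4 h5 => (h3 ⟨E a (p y), mem_closedBall_zero_iff.2 ?_,
              (E a).left_inv (c5 (a, δ) y h4).1⟩).elim⟩
          · rintro ⟨z, hz, e⟩
            exact h (e ▸ (E a).map_target (hs a hz))
          · rwa [(c5 (a, δ) y h4).2] at h5
      choose W hW γ hγ using h1
      refine ⟨⋂ a, W a, iInter_mem.2 hW, (finite_range fun a => (a, γ a)).subset ?_⟩
      rintro ⟨a, δ⟩ ⟨y, ⟨h2, h3⟩, h4⟩
      exact ⟨a, by rw [hγ a δ y (mem_iInter.1 h4 a) h2 h3]⟩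
    exact (lf.finite_nonempty_inter_compact hK).subset fun k ⟨y, h1, h2⟩ => ⟨y, h2, h1⟩
  have t4 : ∀ k, (sm (C k)).target = ball 0 4 := fun k => sm_tgt (c3 k)
  have ct : Countable (Fin n × G) := by
    have hs : ∀ k, closedBall (0 : V ι) 1 ⊆ (sm (C k)).target := fun k =>
      (closedBall_subset_ball (by norm_num)).trans (t4 k).ge
    refine cnt (fun k => (sm (C k)).source ∩ sm (C k) ⁻¹' ball 0 1)
      (fun k => (sm (C k)).isOpen_inter_preimage isOpen_ball) (fun k => ?_)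
      (fun y => (c8 y).imp fun k h => ⟨h.1, mem_ball_zero_iff.2 h.2⟩) fun k => ?_
    · have h0 := hs k (mem_closedBall_self zero_le_one)
      refine ⟨_, (sm (C k)).map_target h0, ?_⟩
      rw [mem_preimage, (sm (C k)).right_inv h0]
      exact mem_ball_self one_pos
    · refine (c9 _ ((isCompact_closedBall 0 1).image_of_continuousOn
        ((sm (C k)).continuousOn_symm.mono (hs k))) 1 (by norm_num)).countable.mono ?_
      rintro l ⟨y, h1, h2⟩
      exact ⟨y, ⟨_, ball_subset_closedBall h1.2, (sm (C k)).left_inv h1.1⟩, h2.1,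
        (mem_ball_zero_iff.1 h2.2).le⟩
  choose ch h1 h2 using c8
  obtain ⟨M, g, e1, e2, e3⟩ := lift (p := p) MX hK (fun y => sm (C (ch y))) h1
    fun y => ⟨_, hE _, c5 _⟩
  refine ⟨M, g, ⟨Fin n × G, n, Prod.fst, fun k => sm (C k), ch, fun a => MX.repF gX (E a), ct, e2,
    fun k => (e3 _ _ (hE _) (c5 k)).1, t4, fun y => congrFun e1 y, h2,
    fun a => hT a ▸ hK _ (hE a), fun k z hz => (e3 _ _ (hE _) (c5 k)).2 z ((t4 k).ge hz),
    fun a => ⟨(a, 1), rfl⟩, fun k => ⟨C k, (e3 _ _ (hE _) (c4 k)).1, c3 k, fun _ _ => rfl,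
      fun z hz => (e3 _ _ (hE _) (c4 k)).2 z ((c3 k).ge hz)⟩,
    fun k l y h h3 h4 => c7 k l y h h3.1 h4.1, c9⟩,
    ⟨fun a => sm (E a), fun a => RepA.trans_mem MX (hE a) _ (fun _ _ => analyticAt_id)
      fun _ _ => analyticAt_id, fun a => sm_tgt (hT a), fun _ _ _ => rfl, fun k z hz => ?_,
      fun a y hy => ?_, hp.surjective⟩, fun γ k => (k.1, γ * k.2), e3,
    fun a => (hU a).imp fun x h y hy => h hy.1,
    fun k γ δ h => mul_right_cancel (congrArg Prod.snd h), fun γ k z _ => ?_⟩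
  · have h3 := (t4 k).ge hz
    have h4 := c5 k _ ((sm (C k)).map_target h3)
    rw [(sm (C k)).right_inv h3] at h4
    change p ((sm (C k)).symm z) = (E k.1).symm z
    conv_rhs => rw [h4.2, (E k.1).left_inv h4.1]
  · obtain ⟨γ, h3⟩ := c6 a y hy.1
    exact ⟨(a, γ), rfl, h3, show C (a, γ) y ∈ ball 0 4 from c1 (a, γ) y ▸ hy.2⟩
  · change (γ * k.2)⁻¹⁻¹ • (P k.1).symm ((E k.1).symm z) =
      γ • k.2⁻¹⁻¹ • (P k.1).symm ((E k.1).symm z)
    rw [inv_inv, inv_inv, mul_smul]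

theorem stS2 : StS2 := by
  intro ι X Y G _ _ _ _ _ _ _ _ _ MX gX p O hK hp hO
  obtain ⟨M, g, S, L, m, -, h⟩ := St2.core MX gX p O hK hp hO
  exact ⟨StJ.t2 hp.isCoveringMap, M, g, S, L, m, h⟩

theorem selfS : SelfS := by
  intro ι X _ _ _ _ _ _ MX gX O hK hO
  let _ : MulAction Unit X := { smul := fun _ x => x
                                one_smul := fun _ => rfl
                                mul_smul := fun _ _ _ => rfl }
  have hp : IsQuotientCoveringMap (id : X → X) Unit :=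
    { toIsQuotientMap := IsQuotientMap.id
      continuous_const_smul := fun _ => continuous_id
      apply_eq_iff_mem_orbit := ⟨fun h => ⟨1, h.symm⟩, fun ⟨_, h⟩ => h.symm⟩
      disjoint := fun _ => ⟨univ, univ_mem, fun _ _ => rfl⟩ }
  obtain ⟨M, g, S, L, -, h1, h2, -⟩ := St2.core MX gX id O hK hp hO
  have h3 := fun d hd => h1 d d hd fun y hy => ⟨hy, rfl⟩
  have h4 : M.A = MX.A := by
    refine Subset.antisymm (fun e he => MX.max e fun x hx => ?_) fun d hd => (h3 d hd).1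
    have h5 := (h3 _ (MX.ch_mem x)).1
    exact ⟨M.hol _ h5 _ he x (MX.mem x) hx, M.hol _ he _ h5 x hx (MX.mem x)⟩
  exact ⟨M, g, S, ⟨L.e, fun a => (h3 _ (L.mem a)).1, L.tgt, fun a z hz =>
    ((h3 _ (L.mem a)).2 z ((L.tgt a).ge hz)).trans (L.rep a z hz), L.pr, L.on, L.sur⟩, h4,
    fun e he => (h3 e (h4 ▸ he)).2, h2⟩

end Pool.Agent.Lib.MP_813db1_ag.SV
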