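import Pool.Agent.Lib.MP_813db1_ag.SV.StB
import Pool.Agent.Lib.MP_813db1_ag.HS.RepA
import Pool.Agent.Lib.MP_813db1_ag.HS.Mat
import Pool.Agent.Lib.MP_bbd4b9_ag.LC.Dv_A

/-! The passage from the charts of the manifold to the maximal atlas. -/

namespace Pool.Agent.Lib.MP_813db1_ag.SV

open Pool.Agent.Lib.MP_813db1_ag.HS Pool.Agent.Lib.MP_813db1_ag.AS
open Pool.Agent.Lib.MP_bbd4b9_ag.LC
open Complex Matrix Filter Topology Set
open scoped ContDiff ComplexOrder

namespace TopS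

variable {ι X : Type} [Fintype ι] [DecidableEq ι] [TopologicalSpace X] {M : Atl ι X}
  {g : X → Mat ι} {N : ℕ}

theorem vK_tr {e e' : Ch ι X} (he : e ∈ M.A) (he' : e' ∈ M.A) {x : X} (hx : x ∈ e.source)
    (hx' : x ∈ e'.source) : vK M g e x = (tj e e' x).det * vK M g e' x := by
  rw [vK, vK, (repA mat ι X M).tj_mul e he e' he' _ (M.ch_mem x) x hx hx' (M.mem x), det_mul]
  ring

theorem det_pos (hg : M.IsK g) (x : X) : 0 < (g x).det.re :=
  (Complex.pos_iff.1 ((((repA mat ι X M).isK_iff g).1 hg).2 x).det_pos).1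

theorem vK_ne (hg : M.IsK g) {e : Ch ι X} (he : e ∈ M.A) {x : X} (hx : x ∈ e.source) :
    vK M g e x ≠ 0 :=
  mul_ne_zero ((repA mat ι X M).tj_det e he _ (M.ch_mem x) x hx (M.mem x))
    (ofReal_ne_zero.2 (Real.sqrt_pos.2 (det_pos hg x)).ne')

theorem sum_pos {v : Fin N → ℂ} (h : v ≠ 0) : 0 < ∑ i, ‖v i‖ ^ 2 := by
  obtain ⟨j, hj⟩ := Function.ne_iff.1 h
  exact Finset.sum_pos' (fun _ _ => by positivity) ⟨j, Finset.mem_univ j, by
    have : v j ≠ 0 := hj
    positivity⟩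

/-- the normalised vector. -/
noncomputable def nv (v : Fin N → ℂ) (i : Fin N) : ℂ := v i / (√(∑ i, ‖v i‖ ^ 2) : ℝ)

theorem nv_sq {v : Fin N → ℂ} (h : v ≠ 0) (i : Fin N) :
    ‖nv v i‖ ^ 2 = ‖v i‖ ^ 2 / ∑ i, ‖v i‖ ^ 2 := by
  rw [nv, norm_div, div_pow, norm_real, Real.norm_eq_abs, sq_abs, Real.sq_sqrt (sum_pos h).le]

theorem nv_smul {v w : Fin N → ℂ} (h : w ≠ 0) {c : ℂ} (e : w = c • v) :
    (∀ i, ‖nv w i‖ ^ 2 = ‖v i‖ ^ 2 / ∑ i, ‖v i‖ ^ 2) ∧ (∀ i, nv w i ≠ 0 ↔ v i ≠ 0) ∧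
      ∀ i j, nv w i / nv w j = v i / v j := by
  have c0 : c ≠ 0 := fun a => h (by rw [e, a, zero_smul])
  have s0 : ((√(∑ i, ‖w i‖ ^ 2) : ℝ) : ℂ) ≠ 0 :=
    ofReal_ne_zero.2 (Real.sqrt_pos.2 (sum_pos h)).ne'
  refine ⟨fun i => ?_, fun i => ?_, fun i j => ?_⟩
  · rw [nv_sq h, e]
    simp only [Pi.smul_apply, smul_eq_mul, norm_mul, mul_pow, ← Finset.mul_sum]
    exact mul_div_mul_left _ _ (by positivity)
  · rw [nv, div_ne_zero_iff, and_iff_left s0, e, Pi.smul_apply, smul_eq_mul, mul_ne_zero_iff,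
      and_iff_right c0]
  · rw [nv, nv, div_div_div_cancel_right₀ s0, e]
    exact mul_div_mul_left _ _ c0

theorem tend {e : Ch ι X} {z : V ι} (hz : z ∈ e.target) :
    Tendsto e.symm (𝓝 z) (𝓝 (e.symm z)) := e.continuousAt_symm hz

end TopS

open TopS in
theorem topS : TopS := by
  rintro ι X _ _ _ _ K M g hA hg hK ⟨N, S, h1, h2⟩
  have R := repA mat ι X M
  let c : X → Ch ι X := chartAt (ι → ℂ)
  have cA : ∀ x, c x ∈ atlas (ι → ℂ) X := chart_mem_atlas _
  have cs : ∀ x, x ∈ (c x).source := mem_chart_source _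
  have h1' := fun x => h1 _ (cA x) _ ((c x).map_source (cs x))
  let σ : Fin N → X → ℂ := fun i x => nv (S (c x) (c x x)) i
  have key := fun x₀ x (hx : x ∈ (c x₀).source) =>
    nv_smul (h1' x).2.1 (h2 _ (cA x) _ (cA x₀) x (cs x) hx).choose_spec
  have nrm : ∀ x, ∑ i, ‖σ i x‖ ^ 2 = 1 := fun x => by
    simp only [σ, nv_sq (h1' x).2.1]
    rw [← Finset.sum_div, div_self (sum_pos (h1' x).2.1).ne']
  have loc : ∀ e ∈ M.A, ∀ z ∈ e.target, AnalyticAt ℂ (c (e.symm z) ∘ e.symm) z ∧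
      (∀ i, AnalyticAt ℂ (fun w => S (c (e.symm z)) (c (e.symm z) (e.symm w)) i) z) ∧
      ∀ᶠ w in 𝓝 z, e.symm w ∈ (c (e.symm z)).source := fun e he z hz => by
    have a := M.hol e he _ (hA (cA (e.symm z))) _ (e.map_target hz) (cs _)
    rw [e.right_inv hz] at a
    exact ⟨a, fun i => analyticAt_pi_iff.1 (AnalyticAt.comp_of_eq (h1' (e.symm z)).1 a rfl) i,
      (tend hz).eventually ((c _).open_source.mem_nhds (cs _))⟩
  refine ⟨N, σ, ⟨nrm, fun j => isOpen_iff_mem_nhds.2 fun x hx => ?_, fun e he z hz j hj i => ?_,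
    fun e he z hz j hj => ?_⟩, fun a Q s hs li => ⟨fun i e z => vK M g e (e.symm z) ^ a *
      s i (e.symm z), fun i => ⟨fun e he z hz => ?_, fun e he e' he' x hx hx' => ?_⟩,
      fun b hb => ?_⟩⟩
  · have t : ContinuousAt (fun y => S (c x) (c x y) j) x :=
      (continuous_apply j).continuousAt.comp
        (ContinuousAt.comp (h1' x).1.continuousAt ((c x).continuousAt (cs x)))
    filter_upwards [t.eventually_ne (((key x x (cs x)).2.1 j).1 hx),
      (c x).open_source.mem_nhds (cs x)] with y a b using ((key x y b).2.1 j).2 a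
  · obtain ⟨-, a, b⟩ := loc e he z hz
    refine ((a i).div (a j) (((key _ _ (cs _)).2.1 j).1 hj)).congr ?_
    filter_upwards [b] with w hw using ((key _ _ hw).2.2 i j).symm
  · obtain ⟨t, a, b⟩ := loc e he z hz
    have j0 := ((key _ _ (cs _)).2.1 j).1 hj
    have cd : ContDiffAt ℝ 2 (fun w => (Real.log (∑ i, ‖S (c (e.symm z)) w i‖ ^ 2) : ℂ))
        (c (e.symm z) (e.symm z)) := contDiffAt_ofReal.2 ((ContDiffAt.sum fun i _ =>
      DvA.cd_nsq (analyticAt_pi_iff.1 (h1' _).1 i) 2).log (sum_pos (h1' _).2.1).ne')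
    have e1 := R.repF_tr g e he _ (hA (cA (e.symm z))) _ (e.map_target hz) (cs _)
    rw [e.right_inv hz, hK _ (cA _) _ ((c _).map_source (cs _)), (h1' _).2.2, tj,
      e.right_inv hz] at e1
    rw [e1, ← sub_zero (pull _ _), ← DvA.levi_log (a j) j0]
    refine (congrArg₂ _ (levi_comp cd t).symm rfl).trans ?_
    rw [← levi_sub (cd.comp z (t.contDiffAt.restrict_scalars ℝ))
      (contDiffAt_ofReal.2 (DvA.cd_log (a j) j0 2))]
    refine levi_congr ?_
    filter_upwards [b, (a j).continuousAt.eventually_ne j0] with w hw h0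
    rw [(key _ _ hw).1 j, Real.log_div (by positivity)
      (sum_pos (Function.ne_iff.2 ⟨j, h0⟩)).ne', neg_sub, ofReal_sub]
    rfl
  · obtain ⟨j, hj⟩ : ∃ j, σ j (e.symm z) ≠ 0 := by
      by_contra k
      have := nrm (e.symm z)
      simp [fun j => not_not.1 (not_exists.1 k j)] at this
    have := hs i e (hA he) z hz j hj e.symm ⟨e.continuousAt_symm hz, .of_forall fun _ => rfl⟩
    simp only [pow_zero, mul_one] at this
    exact this.differentiableAt.differentiableWithinAt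
  · simp only [e.left_inv hx, e'.left_inv hx']
    rw [vK_tr (hA he) (hA he') hx hx', mul_pow, mul_assoc, tj]
  · refine funext (Fintype.linearIndependent_iff.1 li b (funext fun x => ?_))
    have := hb _ (cA x) _ ((c x).map_source (cs x))
    simp only [(c x).left_inv (cs x), mul_left_comm (b _), ← Finset.mul_sum] at this
    simpa using (mul_eq_zero.1 this).resolve_left (pow_ne_zero _ (vK_ne hg (hA (cA x)) (cs x)))

end Pool.Agent.Lib.MP_813db1_ag.SV
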