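import Pool.Agent.Lib.MP_813db1_ag.SV.Main
import Pool.Agent.Lib.MP_813db1_ag.SV.Pack
import Pool.Agent.Lib.MP_813db1_ag.SV.St2
import Pool.Agent.Lib.MP_813db1_ag.SV.PolS
import Pool.Agent.Lib.MP_813db1_ag.SV.Brt
import Pool.Agent.Lib.MP_813db1_ag.SV.Fam
import Pool.Agent.Lib.MP_813db1_ag.SV.Rho
import Pool.Agent.Lib.MP_813db1_ag.SV.Pu
import Pool.Agent.Lib.MP_813db1_ag.SV.Alg
import Pool.Agent.Lib.MP_813db1_ag.SV.Sph
import Pool.Agent.Lib.MP_813db1_ag.SV.SphG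
import Pool.Agent.Lib.MP_813db1_ag.SV.SphX
import Pool.Agent.Lib.MP_813db1_ag.SV.Ber
import Pool.Agent.Lib.MP_813db1_ag.SV.End
import Pool.Agent.Lib.MP_813db1_ag.SV.TopS
import Pool.Agent.Lib.MP_813db1_ag.HS.AYAll

/-! The theorem from the two last statements. -/

namespace Pool.Agent.Lib.MP_813db1_ag.SV

open Pool.Agent.Lib.MP_813db1_ag.HS AY

theorem main0 (hB : BunS) (hR : FamR) : MainS :=
  main (maxAtl repA') repA' repB' volS' (packS hB) selfS polS brtS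
    (secS (packS hB) stS2 polS brtS) (famS hR (rhoS nulL)) (sphS puS algL shS grS) berS endS topS

end Pool.Agent.Lib.MP_813db1_ag.SV
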