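import Pool.Agent.Lib.MP_813db1_ag.SV.BasA
import Pool.Agent.Lib.MP_813db1_ag.SV.BasB
import Pool.Agent.Lib.MP_813db1_ag.SV.BasC
import Pool.Agent.Lib.MP_813db1_ag.SV.BasD
import Pool.Agent.Lib.MP_813db1_ag.SV.BasN
import Pool.Agent.Lib.MP_813db1_ag.SV.BkI
import Pool.Agent.Lib.MP_813db1_ag.SV.Den
import Pool.Agent.Lib.MP_813db1_ag.SV.Dv
import Pool.Agent.Lib.MP_813db1_ag.SV.Grn
import Pool.Agent.Lib.MP_813db1_ag.SV.Hor
import Pool.Agent.Lib.MP_813db1_ag.SV.Lg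
import Pool.Agent.Lib.MP_813db1_ag.SV.Mv

/-! The estimate of Hoermander for every line bundle on the sheets. -/

namespace Pool.Agent.Lib.MP_813db1_ag.SV

open Pool.Agent.Lib.MP_813db1_ag.HS MeasureTheory

variable {ι Y : Type} [Fintype ι] [DecidableEq ι] [TopologicalSpace Y] [MeasurableSpace Y]
  {M : Atl ι Y} {g : Y → Mat ι} {ν : Measure Y} {S : Sg M g ν} {ξ : Y → Mat ι}

theorem allT [T2Space Y] [BorelSpace Y] (hA : S.BasA) (T : Bun S ξ) : T.All :=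
  have hB : T.BasB := basB hA
  have hC : T.BasC := basC hA hB
  have hN : T.BasN := basN hA hB hC
  have hG : T.Grn := grn hA hB hC (dv hA)
  have hM : T.Mv := mv hA hB
  ⟨hB, hC, basD hA hB hM, hM, horP (hor hA hB hC hG (den hA hB hC))
    fun _ _ hp hψ => gap hA hC hN (bkI hA hB hC hN (dv hA) hG) hp hψ, lg hA hB hC⟩

end Pool.Agent.Lib.MP_813db1_ag.SV
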