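import Pool.Agent.Lib.MP_813db1_ag.SV.Top2

/-! Algebra for the forms attached to cocycles. -/

namespace Pool.Agent.Lib.MP_813db1_ag.SV.Bc

open Finset Function Fintype Matrix

variable {A C G J : Type} [AddCommGroup J] [Module ℝ J] {k : ℕ}

/-- weighted sums of the values of a form. -/
noncomputable def Sm (a : (Fin k → A) → ℝ) (m : (Fin k → J) → ℝ) (r : A → J) : ℝ :=
  ∑' α : Fin k → A, a α * m fun i => r (α i)

theorem sm_eq (a : (Fin k → A) → ℝ) (m : MultilinearMap ℝ (fun _ : Fin k => J) ℝ) {r : A → J}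
    {T : Finset A} (h : ∀ α ∉ T, r α = 0) :
    Sm a m r = ∑ α ∈ piFinset fun _ => T, a α * m fun i => r (α i) :=
  tsum_eq_sum fun α hα => by
    obtain ⟨i, hi⟩ := not_forall.1 (mt mem_piFinset.2 hα)
    rw [m.map_coord_zero i (h _ hi), mul_zero]

omit [AddCommGroup J] [Module ℝ J] in
theorem sm_equiv (σ : C ≃ A) (a : (Fin k → A) → ℝ) (m : (Fin k → J) → ℝ) (r : A → J) :
    Sm (fun α => a fun i => σ (α i)) m (fun x => r (σ x)) = Sm a m r :=
  (Equiv.piCongrRight fun _ => σ).tsum_eq fun α => a α * m fun i => r (α i)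

theorem sum_succ (T : Finset A) (j : Fin (k + 1)) (F : (Fin (k + 1) → A) → ℝ) :
    ∑ α ∈ piFinset fun _ => T, F α =
      ∑ β ∈ piFinset fun _ : Fin k => T, ∑ x ∈ T, F (j.insertNth x β) := by
  rw [← sum_product']
  refine sum_nbij' (fun α => (j.removeNth α, α j)) (fun q => j.insertNth q.2 q.1)
    (fun α h => ?_) (fun q h => ?_) (fun α _ => by simp) (fun q _ => by simp) fun α _ => by simp
  · exact mem_product.2 ⟨mem_piFinset.2 fun i => mem_piFinset.1 h _, mem_piFinset.1 h _⟩
  · refine mem_piFinset.2 ((Fin.forall_iff_succAbove j).2 ⟨?_, fun i => ?_⟩)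
    · simpa using (mem_product.1 h).2
    · simpa using mem_piFinset.1 (mem_product.1 h).1 i

theorem sm_slot {a : (Fin (k + 1) → A) → ℝ} (m : MultilinearMap ℝ (fun _ : Fin (k + 1) => J) ℝ)
    {r : A → J} {T : Finset A} (h : ∀ α ∉ T, r α = 0) {j : Fin (k + 1)} (x0 : A)
    (ha : ∀ x β, a (j.insertNth x β) = a (j.insertNth x0 β)) :
    Sm a m r = ∑ β ∈ piFinset fun _ : Fin k => T, a (j.insertNth x0 β) *
      m (j.insertNth (∑ x ∈ T, r x) fun i => r (β i)) := by
  rw [sm_eq a m h, sum_succ T j]
  refine sum_congr rfl fun β _ => ?_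
  rw [← Fin.update_insertNth (α := fun _ => J) (x := 0), m.map_update_sum, mul_sum]
  refine sum_congr rfl fun x _ => ?_
  rw [ha, Fin.update_insertNth]
  congr 2
  exact funext ((Fin.forall_iff_succAbove j).2 ⟨by simp, fun i => by simp⟩)

theorem sm_fst (a : (Fin k → A) → ℝ) (m : MultilinearMap ℝ (fun _ : Fin k => J) ℝ)
    {r : A × C → J} {r1 : A → J} {T : Finset A} {U : Finset C} (h : ∀ q ∉ T ×ˢ U, r q = 0)
    (h1 : ∀ x, r1 x = ∑ y ∈ U, r (x, y)) : Sm (fun α => a fun i => (α i).1) m r = Sm a m r1 := by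
  rw [sm_eq _ m h, sm_eq a m (T := T) fun x hx => (h1 x).trans
    (sum_eq_zero fun y _ => h _ fun q => hx (mem_product.1 q).1)]
  simp only [h1, m.map_sum_finset, mul_sum]
  rw [← sum_product']
  refine sum_nbij' (fun α => (fun i => (α i).1, fun i => (α i).2)) (fun q i => (q.1 i, q.2 i))
    (fun α h => ?_) (fun q h => ?_) (fun _ _ => rfl) (fun _ _ => rfl) fun _ _ => rfl
  · exact mem_product.2 ⟨mem_piFinset.2 fun i => (mem_product.1 (mem_piFinset.1 h i)).1,
      mem_piFinset.2 fun i => (mem_product.1 (mem_piFinset.1 h i)).2⟩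
  · exact mem_piFinset.2 fun i => mem_product.2
      ⟨mem_piFinset.1 (mem_product.1 h).1 i, mem_piFinset.1 (mem_product.1 h).2 i⟩

/-- two equivariant labellings give cohomologous cochains. -/
theorem prism [Group G] [MulAction G A] {c : (Fin (k + 1) → G) → ℝ} (hc : Coc c)
    {l l' : A → G} (hl : ∀ (h : G) x, l (h • x) = h * l x) (hl' : ∀ (h : G) x, l' (h • x) = h * l' x)
    (Z : Submodule ℝ ((Fin (k + 1) → A) → ℝ)) (hZ : ∀ a (i j : Fin (k + 1)), j ≠ i →
      (∀ (h : G) α, a (h • α) = a α) → (∀ α x, a (update α j x) = a α) → a ∈ Z) :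
    (fun α => c fun i => l (α i)) - (fun α => c fun i => l' (α i)) ∈ Z := by
  let g : Finset (Fin (k + 1)) → (Fin (k + 1) → A) → Fin (k + 1) → G := fun s α =>
    s.piecewise (fun i => l (α i)) fun i => l' (α i)
  have key : ∀ s, (fun α => c (g s α)) - (fun α => c (g ∅ α)) ∈ Z := fun s => by
    induction s using Finset.induction_on with
    | empty => simp
    | insert i s hi ih =>
      rw [← sub_add_sub_cancel _ fun α => c (g s α)]
      refine add_mem ?_ ih
      let t : (Fin (k + 1) → A) → Fin (k + 2) → G := fun α =>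
        i.castSucc.insertNth (l (α i)) (g s α)
      let b : Fin (k + 1) → (Fin (k + 1) → A) → ℝ := fun j α =>
        c fun q => t α ((i.castSucc.succAbove j).succAbove q)
      have e1 : ∀ α, b i α = c (g (insert i s) α) := fun α => by
        refine congrArg c (funext fun q => ?_)
        simp only [g, piecewise_insert, Fin.succAbove_castSucc_self]
        rcases eq_or_ne q i with rfl | h
        · simp [t]
        · rw [update_of_ne h, show i.succ.succAbove q = i.castSucc.succAbove q by
            rcases h.lt_or_gt with h | h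
            · rw [Fin.succAbove_succ_of_le _ _ h.le, Fin.succAbove_castSucc_of_lt _ _ h]
            · rw [Fin.succAbove_succ_of_lt _ _ h, Fin.succAbove_castSucc_of_le _ _ h.le]]
          simp [t, g]
      have e2 : (fun α => c (g (insert i s) α)) - (fun α => c (g s α)) = ∑ j ∈ univ.erase i,
          ((-1 : ℝ) ^ (i : ℕ) * (-1) ^ (i.castSucc.succAbove j : ℕ)) • b j := funext fun α => by
        have h := hc.2 (t α)
        rw [Fin.sum_univ_succAbove _ i.castSucc, ← add_sum_erase _ _ (mem_univ i)] at h
        have h2 : (-1 : ℝ) ^ (i : ℕ) * (-1) ^ (i : ℕ) = 1 := by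
          rw [← mul_pow]
          simp
        simp only [Finset.sum_apply, Pi.smul_apply, smul_eq_mul, mul_assoc, ← mul_sum, Pi.sub_apply,
          ← e1]
        have h3 : (fun j => t α (i.castSucc.succAbove j)) = g s α := funext fun j => by simp [t]
        rw [h3, Fin.succAbove_castSucc_self, Fin.val_succ, Fin.val_castSucc, pow_succ] at h
        simp only [b, Fin.succAbove_castSucc_self]
        linear_combination -(-1) ^ (i : ℕ) * h + (c (g s α) - c fun q => t α (i.succ.succAbove q)) * h2
      rw [e2]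
      refine sum_mem fun j hj => Z.smul_mem _ (hZ _ i j (ne_of_mem_erase hj) (fun h α => ?_)
        fun α x => congrArg c (funext fun q => ?_))
      · refine Eq.trans (congrArg c (funext fun q => ?_)) (hc.1 h _)
        generalize (i.castSucc.succAbove j).succAbove q = u
        revert u
        refine (Fin.forall_iff_succAbove i.castSucc).2 ⟨by simp [t, hl], fun u => ?_⟩
        by_cases hu : u ∈ s <;> simp [t, g, hu, hl, hl']
      · have := Fin.succAbove_ne (i.castSucc.succAbove j) q
        generalize (i.castSucc.succAbove j).succAbove q = u at this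
        revert u
        refine (Fin.forall_iff_succAbove i.castSucc).2
          ⟨fun _ => by simp [t, (ne_of_mem_erase hj).symm], fun u hu => ?_⟩
        have : u ≠ j := fun e => hu (e ▸ rfl)
        by_cases hu : u ∈ s <;> simp [t, g, hu, this]
  simpa [g] using key univ

theorem andr (v : A → Fin k → ℝ) (T : Finset A) :
    ∑ β ∈ piFinset fun _ : Fin k => T, (of fun i => v (β i)).det ^ 2 =
      k.factorial * (of fun i j => ∑ x ∈ T, v x i * v x j).det := by
  have e : (of fun i j => ∑ x ∈ T, v x i * v x j).det = ∑ β ∈ piFinset fun _ : Fin k => T,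
      (∏ i, v (β i) i) * (of fun i => v (β i)).det := by
    have := (detRowAlternating (n := Fin k) (R := ℝ)).toMultilinearMap.map_sum_finset
      (fun i x => v x i • v x) fun _ => T
    simp only [MultilinearMap.map_smul_univ, smul_eq_mul] at this
    refine Eq.trans (congrArg det ?_) this
    ext i j
    simp [Finset.sum_apply]
  have e2 : ∀ σ : Equiv.Perm (Fin k), (of fun i j => ∑ x ∈ T, v x i * v x j).det =
      ∑ β ∈ piFinset fun _ : Fin k => T, (Equiv.Perm.sign σ * ∏ i, v (β (σ i)) i) *
        (of fun i => v (β i)).det := fun σ => by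
    rw [e]
    refine (sum_nbij' (fun β i => β (σ i)) (fun β i => β (σ.symm i))
      (fun β h => mem_piFinset.2 fun i => mem_piFinset.1 h _)
      (fun β h => mem_piFinset.2 fun i => mem_piFinset.1 h _) (fun _ _ => by simp)
      (fun _ _ => by simp) fun β _ => ?_).symm
    rw [mul_right_comm, ← det_permute, mul_comm]
    rfl
  rw [← nsmul_eq_mul, show k.factorial = (univ : Finset (Equiv.Perm (Fin k))).card by
    simp [card_perm], ← sum_const, sum_congr rfl fun σ _ => e2 σ, sum_comm]
  refine sum_congr rfl fun β _ => ?_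
  rw [← sum_mul, sq, det_apply']
  rfl

end Pool.Agent.Lib.MP_813db1_ag.SV.Bc
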