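import Pool.Agent.Lib.MP_813db1_ag.SV.BcA
import Pool.Agent.Lib.MP_813db1_ag.HS.Calc2

/-! Jacobian determinants are divergences. -/

namespace Pool.Agent.Lib.MP_813db1_ag.SV.Bc

open Pool.Agent.Lib.MP_813db1_ag.HS Pool.Agent.Lib.MP_813db1_ag.AS
open Function Matrix Filter Topology Module
open scoped ContDiff

noncomputable section

variable {ι : Type} [Fintype ι] [DecidableEq ι] {N : ℕ}

/-- values and differentials. -/
abbrev Jt (ι : Type) [Fintype ι] : Type := ℝ × (V ι →L[ℝ] ℝ)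

/-- the real basis. -/
def bs (ι : Type) [Fintype ι] : Basis (ι × Fin 2) ℝ (V ι) :=
  (Pi.basis fun _ : ι => Complex.basisOneI).reindex (Equiv.sigmaEquivProd ι (Fin 2))

theorem bs_eq (q : ι × Fin 2) : bs ι q = reB q := by
  obtain ⟨i, s⟩ := q
  simp only [bs, Basis.reindex_apply, Equiv.sigmaEquivProd_symm_apply, Pi.basis_apply, reB]
  fin_cases s <;> simp

/-- the real coordinates. -/
def co (q : ι × Fin 2) : V ι →L[ℝ] ℝ := ((bs ι).coord q).toContinuousLinearMap

theorem co_re (q r : ι × Fin 2) : co q (reB r) = if r = q then 1 else 0 := by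
  rw [← bs_eq, ← Finsupp.single_apply, ← (bs ι).repr_self]
  rfl

theorem co_sum (ξ : V ι →L[ℝ] ℝ) : ξ = ∑ q, ξ (reB q) • co q := by
  ext v
  conv_lhs => rw [← (bs ι).sum_repr v]
  simp [bs_eq, co, mul_comm]

/-- the determinant of the differentials. -/
def dtm (B : Fin N ≃ ι × Fin 2) : MultilinearMap ℝ (fun _ : Fin N => Jt ι) ℝ :=
  detRowAlternating.toMultilinearMap.compLinearMap fun _ =>
    { toFun := fun r j => r.2 (reB (B j))
      map_add' := fun _ _ => rfl
      map_smul' := fun _ _ => rfl }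

theorem dtm_apply (B : Fin N ≃ ι × Fin 2) (r : Fin N → Jt ι) :
    dtm B r = (of fun i j => (r i).2 (reB (B j))).det := rfl

/-- the product with the value of the first function. -/
def mu (m : MultilinearMap ℝ (fun _ : Fin N => Jt ι) ℝ) :
    MultilinearMap ℝ (fun _ : Fin (N + 1) => Jt ι) ℝ :=
  LinearMap.uncurryLeft ((LinearMap.fst ℝ ℝ _).smulRight m)

omit [DecidableEq ι] in
theorem mu_apply (m : MultilinearMap ℝ (fun _ : Fin N => Jt ι) ℝ) (r : Fin (N + 1) → Jt ι) :
    mu m r = (r 0).1 * m fun i => r i.succ := rfl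

/-- the primitive, evaluated on a covector. -/
def fm (B : Fin (N + 1) ≃ ι × Fin 2) (ξ : V ι →L[ℝ] ℝ) :
    MultilinearMap ℝ (fun _ : Fin (N + 1) => Jt ι) ℝ := mu ((dtm B).curryLeft (0, ξ))

theorem fm_apply (B : Fin (N + 1) ≃ ι × Fin 2) (ξ : V ι →L[ℝ] ℝ) (r : Fin (N + 1) → Jt ι) :
    fm B ξ r = (r 0).1 * dtm B (Fin.cons (0, ξ) fun i => r i.succ) := rfl

theorem dtm_comp (B : Fin N ≃ ι × Fin 2) (T : V ι →L[ℝ] V ι) (r r' : Fin N → Jt ι)
    (h : ∀ i, (r' i).2 = (r i).2.comp T) : dtm B r' = T.det * dtm B r := by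
  let b := (bs ι).reindex B.symm
  have e : ∀ j, reB (B j) = b j := fun j => by simp [b, bs_eq]
  rw [dtm_apply, dtm_apply, ContinuousLinearMap.det, ← LinearMap.det_toMatrix b, mul_comm,
    ← det_mul]
  congr 1
  ext i j
  simp only [of_apply, h, e, mul_apply, LinearMap.toMatrix_apply, ContinuousLinearMap.comp_apply]
  conv_lhs => rw [← b.sum_repr (T (b j)), map_sum]
  simp only [map_smul, smul_eq_mul, mul_comm]
  rfl

theorem fm_sum (B : Fin (N + 1) ≃ ι × Fin 2) (ξ : V ι →L[ℝ] ℝ) (r : Fin (N + 1) → Jt ι) :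
    fm B ξ r = ∑ q, ξ (reB q) * fm B (co q) r := by
  have e : ((0 : ℝ), ξ) = ∑ q, ξ (reB q) • ((0 : ℝ), co q) :=
    Prod.ext (by simp [Prod.fst_sum]) (by simpa [Prod.snd_sum] using co_sum ξ)
  simp only [fm, mu_apply]
  rw [e, map_sum]
  simp only [map_smul, _root_.sum_apply, _root_.smul_apply, smul_eq_mul, Finset.mul_sum,
    mul_left_comm]

omit [DecidableEq ι] in
theorem piola {v : Fin (N + 1) → V ι} {g : V ι → Fin N → ℝ} {z : V ι} (hg : ContDiffAt ℝ ∞ g z) :
    ∑ j : Fin (N + 1), (-1) ^ (j : ℕ) * fderiv ℝ (fun w => (of fun k =>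
      fderiv ℝ g w (v (j.succAbove k))).det) z (v j) = 0 := by
  let η : (Fin N → ℝ) [⋀^Fin N]→L[ℝ] ℝ := ⟨⟨detRowAlternating.toMultilinearMap,
    Continuous.matrix_det (A := fun m : Fin N → Fin N → ℝ => of m) continuous_id⟩,
    detRowAlternating.map_eq_zero_of_eq'⟩
  have h1 := extDeriv_pullback (differentiableAt_const η (x := g z)) hg
    (by simp only [minSmoothness_of_isRCLikeNormedField]; norm_cast)
  have h2 : extDeriv (fun _ : Fin N → ℝ => η) (g z) = 0 := by
    ext u
    simp [extDeriv_apply (differentiableAt_const η)]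
  have h4 := extDeriv_apply ((differentiableAt_const η).continuousAlternatingMapCompContinuousLinearMap
    ((hg.fderiv_right (m := 1) (by norm_cast)).differentiableAt one_ne_zero)) v
  rw [h1, h2] at h4
  refine Eq.trans (Finset.sum_congr rfl fun j _ => ?_) h4.symm
  rw [zsmul_eq_mul, Int.cast_pow, Int.cast_neg, Int.cast_one]
  rfl

theorem loc_div (B : Fin (N + 1) ≃ ι × Fin 2) {u : Fin (N + 1) → V ι → ℝ} {z : V ι}
    (hu : ∀ i, ContDiffAt ℝ ∞ (u i) z) :
    (∀ q, ContDiffAt ℝ 1 (fun w => fm B (co q) fun i => (u i w, fderiv ℝ (u i) w)) z) ∧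
    ∑ q, fderiv ℝ (fun w => fm B (co q) fun i => (u i w, fderiv ℝ (u i) w)) z (reB q) =
      dtm B fun i => (u i z, fderiv ℝ (u i) z) := by
  let c : Fin (N + 1) → V ι → ℝ := fun j w =>
    (of fun i k : Fin N => fderiv ℝ (u i.succ) w (reB (B (j.succAbove k)))).det
  have e : ∀ j, (fun w => fm B (co (B j)) fun i => (u i w, fderiv ℝ (u i) w)) = fun w =>
      (-1) ^ (j : ℕ) * (u 0 w * c j w) := fun j => funext fun w => by
    rw [fm_apply, dtm_apply, det_succ_row_zero, Finset.sum_eq_single j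
      (fun k _ hk => by simp [co_re, hk]) (by simp)]
    simp only [of_apply, Fin.cons_zero, co_re, if_true, mul_one, mul_left_comm]
    rfl
  have hc : ∀ j, ContDiffAt ℝ 1 (c j) z := fun j => by
    simp only [c, det_apply', of_apply]
    exact ContDiffAt.sum fun σ _ => contDiffAt_const.mul (contDiffAt_prod fun i _ =>
      ((hu _).fderiv_right (by norm_cast)).clm_apply contDiffAt_const)
  have h0 : ContDiffAt ℝ 1 (u 0) z := (hu 0).of_le (by norm_cast)
  refine ⟨B.forall_congr_right.1 fun j => e j ▸ contDiffAt_const.mul (h0.mul (hc j)), ?_⟩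
  have pi := piola (v := fun j => reB (B j)) (contDiffAt_pi.2 fun i : Fin N => hu i.succ)
  have ev : ∀ᶠ w in 𝓝 z, ∀ i, DifferentiableAt ℝ (u i) w := eventually_all.2 fun i =>
    (((hu i).of_le (m := 1) (by norm_cast)).eventually (by simp)).mono fun w hw =>
      hw.differentiableAt one_ne_zero
  have e2 : ∀ j : Fin (N + 1), (fun w => (of fun k => fderiv ℝ (fun w (i : Fin N) => u i.succ w) w
      (reB (B (j.succAbove k)))).det) =ᶠ[𝓝 z] c j := fun j => ev.mono fun w hw => by
    simp only [fderiv_pi fun i => hw (Fin.succ i)]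
    exact (det_transpose _).symm
  replace pi := (Finset.sum_congr rfl fun j _ => by rw [(e2 j).fderiv_eq]).symm.trans pi
  have d0 := h0.differentiableAt one_ne_zero
  have d1 := fun j => (hc j).differentiableAt one_ne_zero
  rw [← B.sum_comp, dtm_apply, det_succ_row_zero, ← add_zero (∑ j, _ * _), ← mul_zero (u 0 z),
    ← pi, Finset.mul_sum, ← Finset.sum_add_distrib]
  refine Finset.sum_congr rfl fun j _ => ?_
  rw [e, fderiv_const_mul (d0.fun_mul (d1 j)), fderiv_fun_mul d0 (d1 j)]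
  simp only [_root_.smul_apply, _root_.add_apply, smul_eq_mul, of_apply]
  change _ = _ * _ * c j z + _
  ring

theorem re_dv {F : ι × Fin 2 → V ι → ℝ} {z : V ι} (h : ∀ q, DifferentiableAt ℝ (F q) z) :
    2 * (∑ i, dz (fun w => (∑ q, F q w • reB q) i) i z).re = ∑ q, fderiv ℝ (F q) z (reB q) := by
  have e : ∀ i, (fun w => (∑ q, F q w • reB q) i) = fun w =>
      (F (i, 0) w : ℂ) + F (i, 1) w * Complex.I := fun i => funext fun w => by
    simp [Fintype.sum_prod_type, reB, Finset.sum_apply, Pi.single_apply]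
  rw [Fintype.sum_prod_type, Complex.re_sum, Finset.mul_sum]
  refine Finset.sum_congr rfl fun i _ => ?_
  have d := fun s => Complex.ofRealCLM.hasFDerivAt.comp z (h (i, s)).hasFDerivAt
  have d2 := ((d 0).add ((d 1).mul_const Complex.I)).fderiv
  rw [e, dz, show fderiv ℝ (fun w => (F (i, 0) w : ℂ) + F (i, 1) w * Complex.I) z = _ from d2]
  simp [reB]
  ring

end

end Pool.Agent.Lib.MP_813db1_ag.SV.Bc
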