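import Pool.Agent.Lib.MP_813db1_ag.SV.BcB
import Pool.Agent.Lib.MP_813db1_ag.AS.F12
import Pool.Agent.Lib.MP_813db1_ag.HS.AYAll

/-! The theorem of Stokes for equivariant partitions of unity. -/

namespace Pool.Agent.Lib.MP_813db1_ag.SV.Bc

open Pool.Agent.Lib.MP_813db1_ag.HS Pool.Agent.Lib.MP_813db1_ag.AS F12
open Function Matrix Filter Topology Module MeasureTheory Fintype
open scoped ContDiff

variable {ι X Y G A : Type} [Fintype ι] [DecidableEq ι] [TopologicalSpace X]
  [ChartedSpace (ι → ℂ) X] [TopologicalSpace Y] [Group G] [MulAction G Y] [MulAction G A]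
  {p : Y → X} {W : A → Y → ℝ} {e : Ch ι X} {z : V ι} {s s' : V ι → Y} {N : ℕ}

/-- equivariant partitions of unity. -/
structure Fam (ι G : Type) [Fintype ι] [ChartedSpace (ι → ℂ) X] [Group G] [MulAction G Y]
    [MulAction G A] (p : Y → X) (W : A → Y → ℝ) : Prop where
  sm : ∀ α, ∀ e ∈ atlas (ι → ℂ) X, ∀ z ∈ e.target, ∀ s, Sec p e z s →
    ContDiffAt ℝ ∞ (fun w => W α (s w)) z
  eqv : ∀ (h : G) α y, W (h • α) (h • y) = W α y
  fin : ∀ y, ∃ T : Finset A, ∀ᶠ y' in 𝓝 y, ∀ α ∉ T, W α y' = 0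
  one : ∀ y, ∑' α, W α y = 1

/-- the values and differentials. -/
noncomputable def jt (W : A → Y → ℝ) (s : V ι → Y) (z : V ι) (α : A) : Jt ι :=
  (W α (s z), fderiv ℝ (fun w => W α (s w)) z)

omit [DecidableEq ι] in
theorem jt_zero {T : Finset A} (hs : ContinuousAt s z)
    (h : ∀ᶠ y in 𝓝 (s z), ∀ α ∉ T, W α y = 0) : ∀ᶠ w in 𝓝 z, ∀ α ∉ T, jt W s w α = 0 :=
  (hs.eventually h).eventually_nhds.mono fun w hw α hα => Prod.ext (hw.self_of_nhds α hα) (by
    rw [jt, EventuallyEq.fderiv_eq (f := fun _ => 0) (hw.mono fun _ k => k α hα)]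
    simp)

omit [DecidableEq ι] in
theorem Fam.loc (F : Fam ι G p W) (he : e ∈ atlas (ι → ℂ) X) (hz : z ∈ e.target)
    (hs : Sec p e z s) : ∃ T : Finset A, (∀ᶠ w in 𝓝 z, ∀ α ∉ T, jt W s w α = 0) ∧
      ∑ α ∈ T, jt W s z α = (1, 0) := by
  obtain ⟨T, hT⟩ := F.fin (s z)
  have k : (fun w => ∑ α ∈ T, W α (s w)) =ᶠ[𝓝 z] fun _ => 1 :=
    (hs.1.eventually hT).mono fun w hw => (tsum_eq_sum hw).symm.trans (F.one _)
  refine ⟨T, jt_zero hs.1 hT, Prod.ext ((Prod.fst_sum ..).trans k.self_of_nhds) ?_⟩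
  simp only [Prod.snd_sum, jt]
  rw [← fderiv_fun_sum fun α _ => (F.sm α e he z hz s hs).differentiableAt (by simp), k.fderiv_eq]
  simp

theorem Fam.ind (F : Fam ι G p W) (hq : IsQuotientCoveringMap p G) {a : (Fin N → A) → ℝ}
    (ha : ∀ (h : G) α, a (h • α) = a α) (m : (Fin N → Jt ι) → ℝ) (hs : Sec p e z s)
    (hs' : Sec p e z s') : Sm a m (jt W s z) = Sm a m (jt W s' z) := by
  obtain ⟨h, k⟩ := hq.apply_eq_iff_mem_orbit.1
    (hs'.2.self_of_nhds.trans hs.2.self_of_nhds.symm)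
  have u := uniq hq.isCoveringMap.isLocalHomeomorph hs'.1 (hs.smul hq h).1 k.symm
    ((hs'.2.and (hs.smul hq h).2).mono fun w hw => hw.1.trans hw.2.symm)
  rw [← sm_equiv (MulAction.toPerm h) a m (jt W s' z)]
  congr 1
  · exact funext fun α => (ha h α).symm
  · have v : ∀ α, (fun w => W (h • α) (s' w)) =ᶠ[𝓝 z] fun w => W α (s w) := fun α =>
      u.mono fun w hw => by simp only [hw, F.eqv]
    exact funext fun α => Prod.ext (v α).self_of_nhds.symm (v α).fderiv_eq.symm

variable [T2Space X] [CompactSpace X] [MeasurableSpace X] [BorelSpace X]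
  {M : Atl ι X} {g : X → Mat ι} {μ : Measure X} {t : X → V ι → Y}

theorem Fam.stokes (F : Fam ι G p W) (hq : IsQuotientCoveringMap p G)
    (hA : atlas (ι → ℂ) X ⊆ M.A) (hch : ∀ x, M.ch x = chartAt (ι → ℂ) x) (hg : M.IsK g)
    (hμ : M.IsVol g μ) (ht : ∀ x, Sec p (chartAt (ι → ℂ) x) (chartAt (ι → ℂ) x x) (t x))
    (B : Fin (N + 1) ≃ ι × Fin 2) {b : (Fin (N + 1) → A) → ℝ} (hb : ∀ (h : G) α, b (h • α) = b α) :
    Integrable (fun x => Sm b (dtm B) (jt W (t x) (chartAt (ι → ℂ) x x)) / (g x).det.re) μ ∧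
      ∫ x, Sm b (dtm B) (jt W (t x) (chartAt (ι → ℂ) x x)) / (g x).det.re ∂μ = 0 := by
  have hl := hq.isCoveringMap.isLocalHomeomorph
  have R := AY.repA' ι X M
  choose r hr using hq.surjective
  let sc : Ch ι X → V ι → V ι → Y := fun e z => sh hl (r (e.symm z)) e
  have hs : ∀ e : Ch ι X, ∀ z ∈ e.target, Sec p e z (sc e z) := fun e z hz => by
    have := (sh_self hl (e := e) (y := r (e.symm z)) (by rw [hr]; exact e.map_target hz)).1
    rwa [hr, e.right_inv hz] at this
  let φ : Ch ι X → (V ι →L[ℝ] ℝ) → V ι → ℝ := fun e ξ z => Sm b (fm B ξ) (jt W (sc e z) z)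
  have loc : ∀ e ∈ atlas (ι → ℂ) X, ∀ z ∈ e.target, (∀ q, ContDiffAt ℝ 1 (φ e (co q)) z) ∧
      ∑ q, fderiv ℝ (φ e (co q)) z (reB q) = Sm b (dtm B) (jt W (sc e z) z) := fun e he z hz => by
    obtain ⟨T, t1, -⟩ := F.loc he hz (hs e z hz)
    have ev : ∀ q, φ e (co q) =ᶠ[𝓝 z] fun w => ∑ α ∈ piFinset fun _ => T,
        b α * fm B (co q) fun i => jt W (sc e z) w (α i) := fun q => by
      filter_upwards [t1, (hs e z hz).ev hl hz, e.open_target.mem_nhds hz] with w w1 w2 w3
      exact (F.ind hq hb _ (hs e w w3) w2).trans (sm_eq _ _ w1)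
    have L := fun α : Fin (N + 1) → A => loc_div B fun i => F.sm (α i) e he z hz _ (hs e z hz)
    refine ⟨fun q => (ContDiffAt.sum fun α _ => contDiffAt_const.mul
      ((L α).1 q)).congr_of_eventuallyEq (ev q), ?_⟩
    have d : ∀ (α : Fin (N + 1) → A) q, DifferentiableAt ℝ
        (fun w => fm B (co q) fun i => jt W (sc e z) w (α i)) z := fun α q =>
      ((L α).1 q).differentiableAt one_ne_zero
    rw [sm_eq _ _ t1.self_of_nhds, Finset.sum_congr rfl fun q _ => by
      rw [(ev q).fderiv_eq, fderiv_fun_sum fun α _ => (d α q).const_mul _,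
        _root_.sum_apply], Finset.sum_comm]
    refine Finset.sum_congr rfl fun α _ => ?_
    refine Eq.trans ?_ (congrArg _ (L α).2)
    rw [Finset.mul_sum]
    exact Finset.sum_congr rfl fun q _ => congrArg (· (reB q)) (fderiv_const_mul (d α q) _)
  have k1 : ∀ e ∈ atlas (ι → ℂ) X, ∀ z ∈ e.target, ∀ ξ : V ι →L[ℝ] ℝ,
      ξ (∑ q, φ e (co q) z • reB q) = φ e ξ z := fun e he z hz ξ => by
    obtain ⟨T, t1, -⟩ := F.loc he hz (hs e z hz)
    simp only [φ, sm_eq _ _ t1.self_of_nhds, map_sum, map_smul, smul_eq_mul, fm_sum B ξ,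
      Finset.mul_sum, Finset.sum_mul]
    rw [Finset.sum_comm]
    exact Finset.sum_congr rfl fun _ _ => Finset.sum_congr rfl fun _ _ => by ring
  obtain ⟨d, d1, d2, d3⟩ := AY.divS' ι X M g μ (atlas (ι → ℂ) X) (fun e => e.target)
    (fun e z => ∑ q, φ e (co q) z • reB q) hg hμ hA (fun e _ => ⟨e.open_target, subset_rfl⟩)
    (fun x => ⟨_, chart_mem_atlas _ x, mem_chart_source _ x, mem_chart_target _ x⟩)
    (fun e he z hz => ContDiffAt.sum fun q _ => ((loc e he z hz).1 q).smul contDiffAt_const)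
    fun e he e' he' x hx hx' hz hz' => by
      have an := (M.hol e (hA he) e' (hA he') x hx hx').differentiableAt.hasFDerivAt.restrictScalars ℝ
      have e0 : (e' ∘ e.symm) (e x) = e' x := congrArg e' (e.left_inv hx)
      have s1 := hs e' _ hz'
      have s2 : Sec p e (e x) fun w => sc e' (e' x) ((e' ∘ e.symm) w) :=
        ⟨s1.1.comp_of_eq an.continuousAt e0, by
          filter_upwards [(e0 ▸ an.continuousAt.tendsto).eventually s1.2,
            (e.tendsto_symm hx).eventually (e'.open_source.eventually_mem hx')] with w w1 w2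
          exact w1.trans (e'.left_inv w2)⟩
      refine (bs ι).ext_elem fun q => ?_
      change co q _ = co q _
      rw [tj, jac_mulVec, Complex.coe_smul, map_smul, k1 e' he' _ hz', ← Vol.det_real]
      refine (k1 e he _ hz ((co q).comp ((fderiv ℂ _ _).restrictScalars ℝ))).trans
        ((F.ind hq hb _ (hs e _ hz) s2).trans ?_)
      simp only [φ, Sm, smul_eq_mul, ← tsum_mul_left]
      refine tsum_congr fun α => ?_
      rw [fm_apply, fm_apply, dtm_comp B _ (Fin.cons (0, co q) fun i =>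
        jt W (sc e' (e' x)) (e' x) (α i.succ)) _ (Fin.cases rfl fun i => ?_)]
      · simp only [jt, e0]
        ring
      · have := ((F.sm (α i.succ) e' he' _ hz' _ s1).differentiableAt (by simp)).hasFDerivAt
        generalize sc e' (e' x) = u at this ⊢
        rw [← e0] at this ⊢
        exact (this.comp (e x) an).fderiv
  have e : (fun x => Sm b (dtm B) (jt W (t x) (chartAt (ι → ℂ) x x)) / (g x).det.re) =
      fun x => 2 * (d x).re := funext fun x => by
    have m := chart_mem_atlas (ι → ℂ) x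
    have hz := mem_chart_target (ι → ℂ) x
    rw [F.ind hq hb _ (ht x) (hs _ _ hz), ← (loc _ m _ hz).2, ← re_dv fun q =>
      ((loc _ m _ hz).1 q).differentiableAt one_ne_zero, d3 _ m x (mem_chart_source _ x) hz, ← hch,
      R.repF_self, Complex.re_ofReal_mul, mul_left_comm,
      mul_div_cancel_left₀ _ (RepB.pos_det (((R.isK_iff _).1 hg).2 x)).ne']
  have := ((AY.volS' ι X M g hg).2 μ hμ).fin
  have i := d1.integrable_of_hasCompactSupport (μ := μ) (HasCompactSupport.of_compactSpace _)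
  rw [e, integral_const_mul]
  exact ⟨i.re.const_mul _, mul_eq_zero_of_right _ ((integral_re i).trans (by rw [d2]; rfl))⟩

end Pool.Agent.Lib.MP_813db1_ag.SV.Bc
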