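import Pool.Agent.Lib.MP_813db1_ag.SV.PeakD

/-! The count of sections from peak sections. -/

namespace Pool.Agent.Lib.MP_813db1_ag.SV

open Pool.Agent.Lib.MP_813db1_ag.HS Pool.Agent.Lib.MP_813db1_ag.AS Pool.Agent.Lib.MP_813db1_ag.AN
open MeasureTheory Complex Matrix Filter Topology Set Metric
open scoped ContDiff ComplexOrder ENNReal Manifold

namespace BerL

theorem bes {S : Type} [AddCommGroup S] [Module ℂ S] [FiniteDimensional ℂ S]
    (c : InnerProductSpace.Core ℂ S) : ∃ e : Fin (Module.finrank ℂ S) → S,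
      (∀ i, c.inner (e i) (e i) = 1) ∧ ∀ (l : S →ₗ[ℂ] ℂ) h,
        ‖l h‖ ^ 2 ≤ (∑ i, ‖l (e i)‖ ^ 2) * (c.inner h h).re := by
  let _ := c.toNormedAddCommGroup
  let _ := InnerProductSpace.ofCore c.toCore
  let b := stdOrthonormalBasis ℂ S
  refine ⟨b, fun i => ?_, fun l h => ?_⟩
  · have := orthonormal_iff_ite.1 b.orthonormal i i
    rw [if_pos rfl] at this
    exact this
  have e1 : l h = ∑ i, inner ℂ (b i) h * l (b i) := by
    conv_lhs => rw [← b.sum_repr' h]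
    simp only [map_sum, map_smul, smul_eq_mul]
  have e2 : ∑ i, ‖inner ℂ (b i) h‖ ^ 2 = (c.inner h h).re := by
    rw [b.sum_sq_norm_inner_right h]
    exact (inner_self_eq_norm_sq (𝕜 := ℂ) h).symm
  have e3 : ‖l h‖ ≤ ∑ i, ‖l (b i)‖ * ‖inner ℂ (b i) h‖ := by
    rw [e1]
    refine (norm_sum_le _ _).trans (Finset.sum_le_sum fun i _ => ?_)
    rw [norm_mul, mul_comm]
  rw [← e2]
  exact (pow_le_pow_left₀ (norm_nonneg _) e3 2).trans (Finset.sum_mul_sq_le_sq_mul_sq _ _ _)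

theorem sq_eq (a : ℂ) : a * star a = ((‖a‖ ^ 2 : ℝ) : ℂ) := by
  rw [RCLike.star_def, mul_conj', ofReal_pow]

theorem berg {Y : Type} [MeasurableSpace Y] (ν : Measure Y) {wt : Y → ℝ} (hw : Measurable wt)
    (h0 : ∀ y, 0 ≤ wt y) (H : Submodule ℂ (Y → ℂ))
    (hm : ∀ σ ∈ H, ∀ τ ∈ H, Measurable fun y => σ y * star (τ y))
    (hd : ∀ σ ∈ H, (∀ᵐ y ∂ν, ‖σ y‖ ^ 2 * wt y = 0) → σ = 0) {r : ℝ}
    (hr : ∀ (Q : ℕ) (s : Fin Q → Y → ℂ), (∀ i, s i ∈ H) → LinearIndependent ℂ s → (Q : ℝ) < r) :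
    ∃ B : Y → ℝ, Measurable B ∧ ∫⁻ y, ENNReal.ofReal (B y) ∂ν ≤ ENNReal.ofReal r ∧
      ∀ σ ∈ H, Integrable (fun y => ‖σ y‖ ^ 2 * wt y) ν → ∀ y,
        ‖σ y‖ ^ 2 * wt y ≤ B y * ∫ x, ‖σ x‖ ^ 2 * wt x ∂ν := by
  have ms : ∀ σ ∈ H, Measurable fun y => ‖σ y‖ ^ 2 * wt y := fun σ hσ => by
    have := measurable_re.comp (hm σ hσ σ hσ)
    simp only [Function.comp_def, sq_eq, ofReal_re] at this
    exact this.mul hw
  let W : Submodule ℂ (Y → ℂ) :=
    { carrier := {σ | σ ∈ H ∧ Integrable (fun y => ‖σ y‖ ^ 2 * wt y) ν}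
      zero_mem' := ⟨H.zero_mem, by simp⟩
      add_mem' := fun {a b} ha hb => ⟨H.add_mem ha.1 hb.1, by
        refine ((ha.2.add hb.2).const_mul 2).mono' (ms _ (H.add_mem ha.1 hb.1)).aestronglyMeasurable
          (Eventually.of_forall fun y => ?_)
        rw [Real.norm_of_nonneg (mul_nonneg (sq_nonneg _) (h0 y))]
        have t : ‖(a + b) y‖ ≤ ‖a y‖ + ‖b y‖ := norm_add_le _ _
        have t2 : ‖(a + b) y‖ ^ 2 ≤ 2 * (‖a y‖ ^ 2 + ‖b y‖ ^ 2) := by
          nlinarith [pow_le_pow_left₀ (norm_nonneg _) t 2, sq_nonneg (‖a y‖ - ‖b y‖)]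
        have := mul_le_mul_of_nonneg_right t2 (h0 y)
        simp only [Pi.add_apply] at this ⊢
        linarith⟩
      smul_mem' := fun a σ hσ => ⟨H.smul_mem a hσ.1, by
        have := hσ.2.const_mul (‖a‖ ^ 2)
        simpa only [Pi.smul_apply, norm_smul, mul_pow, mul_assoc] using this⟩ }
  have li : ∀ (Q : ℕ) (s : Fin Q → W), LinearIndependent ℂ s → (Q : ℝ) < r := fun Q s hs =>
    hr Q (fun i => s i) (fun i => (s i).2.1) (hs.map' W.subtype W.ker_subtype)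
  have : FiniteDimensional ℂ W := by
    refine Module.rank_lt_aleph0_iff.1 (not_le.1 fun h => ?_)
    obtain ⟨s, hs⟩ := exists_linearIndependent_of_le_rank (R := ℂ) (M := W) (n := ⌈r⌉₊)
      (Cardinal.natCast_lt_aleph0.le.trans h)
    exact (li _ s hs).not_ge (Nat.le_ceil r)
  have ig : ∀ σ τ : W, Integrable (fun y => τ.1 y * star (σ.1 y) * (wt y : ℂ)) ν := fun σ τ => by
    refine (σ.2.2.add τ.2.2).mono'
      ((hm _ τ.2.1 _ σ.2.1).mul (measurable_ofReal.comp hw)).aestronglyMeasurable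
      (Eventually.of_forall fun y => ?_)
    rw [norm_mul, norm_mul, norm_star, norm_real, Real.norm_of_nonneg (h0 y), Pi.add_apply,
      ← add_mul]
    refine mul_le_mul_of_nonneg_right ?_ (h0 y)
    nlinarith [sq_nonneg (‖σ.1 y‖ - ‖τ.1 y‖), norm_nonneg (σ.1 y), norm_nonneg (τ.1 y)]
  have sf : ∀ σ : W, ∫ y, σ.1 y * star (σ.1 y) * (wt y : ℂ) ∂ν =
      ((∫ y, ‖σ.1 y‖ ^ 2 * wt y ∂ν : ℝ) : ℂ) := fun σ => by
    rw [← integral_complex_ofReal]
    simp only [sq_eq, ofReal_mul]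
  let c : InnerProductSpace.Core ℂ W :=
    { inner := fun σ τ => ∫ y, τ.1 y * star (σ.1 y) * (wt y : ℂ) ∂ν
      conj_inner_symm := fun σ τ => by
        show (starRingEnd ℂ) (∫ y, σ.1 y * star (τ.1 y) * (wt y : ℂ) ∂ν) =
          ∫ y, τ.1 y * star (σ.1 y) * (wt y : ℂ) ∂ν
        rw [← integral_conj]
        refine integral_congr_ae (Eventually.of_forall fun y => ?_)
        simp only [map_mul, RCLike.star_def, conj_conj, conj_ofReal]
        ring
      re_inner_nonneg := fun σ => by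
        show 0 ≤ (∫ y, σ.1 y * star (σ.1 y) * (wt y : ℂ) ∂ν).re
        rw [sf, ofReal_re]
        exact integral_nonneg fun y => mul_nonneg (sq_nonneg _) (h0 y)
      add_left := fun σ τ υ => by
        show ∫ y, υ.1 y * star ((σ + τ).1 y) * (wt y : ℂ) ∂ν =
          ∫ y, υ.1 y * star (σ.1 y) * (wt y : ℂ) ∂ν + ∫ y, υ.1 y * star (τ.1 y) * (wt y : ℂ) ∂ν
        rw [← integral_add (ig σ υ) (ig τ υ)]
        refine integral_congr_ae (Eventually.of_forall fun y => ?_)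
        simp only [Submodule.coe_add, Pi.add_apply, star_add]
        ring
      smul_left := fun σ τ a => by
        show ∫ y, τ.1 y * star ((a • σ).1 y) * (wt y : ℂ) ∂ν =
          (starRingEnd ℂ) a * ∫ y, τ.1 y * star (σ.1 y) * (wt y : ℂ) ∂ν
        rw [← integral_const_mul]
        refine integral_congr_ae (Eventually.of_forall fun y => ?_)
        simp only [Submodule.coe_smul, Pi.smul_apply, smul_eq_mul, star_mul', RCLike.star_def]
        ring
      definite := fun σ e => by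
        have e' : ∫ y, σ.1 y * star (σ.1 y) * (wt y : ℂ) ∂ν = 0 := e
        rw [sf, ofReal_eq_zero, integral_eq_zero_iff_of_nonneg
          (fun y => mul_nonneg (sq_nonneg _) (h0 y)) σ.2.2] at e'
        exact Subtype.ext (hd _ σ.2.1 e') }
  obtain ⟨e, he, hb⟩ := bes c
  have n1 : ∀ i, ∫ y, ‖(e i).1 y‖ ^ 2 * wt y ∂ν = 1 := fun i => by
    have t : ∫ y, (e i).1 y * star ((e i).1 y) * (wt y : ℂ) ∂ν = 1 := he i
    rw [sf] at t
    exact_mod_cast t
  refine ⟨fun y => ∑ i, ‖(e i).1 y‖ ^ 2 * wt y,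
    Finset.measurable_sum _ fun i _ => ms _ (e i).2.1, ?_, fun σ hσ hi y => ?_⟩
  · rw [← ofReal_integral_eq_lintegral_ofReal (integrable_finsetSum _ fun i _ => (e i).2.2)
      (Eventually.of_forall fun y => Finset.sum_nonneg fun i _ =>
        mul_nonneg (sq_nonneg _) (h0 y)), integral_finsetSum _ fun i _ => (e i).2.2]
    simp only [n1, Finset.sum_const, Finset.card_univ, Fintype.card_fin, nsmul_eq_mul, mul_one]
    exact ENNReal.ofReal_le_ofReal (li _ _ (Module.finBasis ℂ W).linearIndependent).le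
  · have t := hb ((LinearMap.proj y).comp W.subtype) ⟨σ, hσ, hi⟩
    have t2 : (c.inner ⟨σ, hσ, hi⟩ ⟨σ, hσ, hi⟩).re = ∫ x, ‖σ x‖ ^ 2 * wt x ∂ν := by
      show (∫ x, σ x * star (σ x) * (wt x : ℂ) ∂ν).re = _
      rw [sf ⟨σ, hσ, hi⟩, ofReal_re]
    rw [t2] at t
    have t3 := mul_le_mul_of_nonneg_right t (h0 y)
    beta_reduce
    rw [← Finset.sum_mul]
    simp only [LinearMap.comp_apply, Submodule.subtype_apply, LinearMap.proj_apply] at t3
    linarith

end BerL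

theorem berS0 (hP : PeakS) : BerS := by
  intro ι _ _ _
  obtain ⟨c, hc, hP⟩ := hP ι
  refine ⟨c / 2, half_pos hc, fun Y _ _ _ _ _ M g ν S P hA hB hE m k e ε w Q hm he hε hQ h0 hw => ?_⟩
  have hp := hP Y M g ν S P hA hB hE m k e ε Q hm he hε hQ
  have := hA.pos
  set f : Y → ℝ := rat (fun x => ((m : ℂ)⁻¹) •
    (th M g m (k + e) x + M.ddc (fun z => Real.log (Q z)) x) + (ε : ℂ) • g x) g with hf
  set n := Fintype.card ι
  let b : ℕ → ℕ := fun j => ⌈((j : ℝ) - 1) / m * (k + e) + ε * j⌉₊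
  have m0 : (0 : ℝ) < m := by exact_mod_cast hm
  have hb : ∀ᶠ j : ℕ in atTop, (b j : ℝ) ≤ j * ((k + e) / m + 2 * ε) := by
    filter_upwards [eventually_ge_atTop 1,
      (tendsto_natCast_atTop_atTop.const_mul_atTop hε).eventually_ge_atTop (1 : ℝ)] with j h1 h2
    have j1 : (1 : ℝ) ≤ j := by exact_mod_cast h1
    have t0 : 0 ≤ (k + e) / (m : ℝ) := by positivity
    have t1 : ((j : ℝ) - 1) / m * (k + e) = (j - 1) * ((k + e) / m) := by ring
    have t2 : 0 ≤ ((j : ℝ) - 1) / m * (k + e) + ε * j := by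
      rw [t1]; exact add_nonneg (mul_nonneg (by linarith) t0) (by linarith)
    have t3 := (Nat.ceil_lt_add_one t2).le
    show (⌈((j : ℝ) - 1) / m * (k + e) + ε * j⌉₊ : ℝ) ≤ _
    rw [t1] at t3 ⊢
    nlinarith
  suffices H : ∀ᶠ j : ℕ in atTop, S.Cnt (P.U j (b j)) (c / 2 * w * (j : ℝ) ^ n) by
    filter_upwards [hb, H] with j h1 h2 using ⟨b j, h1, h2⟩
  rcases le_or_gt w 0 with w0 | w0
  · refine Eventually.of_forall fun j => ⟨0, Fin.elim0, ?_, fun i => i.elim0,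
      linearIndependent_empty_type⟩
    have : 0 ≤ c / 2 * (j : ℝ) ^ n := by positivity
    push_cast
    nlinarith
  by_contra hn
  obtain ⟨φ, hφ, hc'⟩ := extraction_of_frequently_atTop
    ((not_eventually.1 hn).and_eventually (eventually_ge_atTop 1))
  have key : ∀ i, ∃ B : Y → ℝ, Measurable B ∧
      ∫⁻ y, ENNReal.ofReal (B y) ∂ν ≤ ENNReal.ofReal (c / 2 * w * (φ i : ℝ) ^ n) ∧
      ∀ σ, S.Hol (P.U (φ i) (b (φ i))) σ →
        Integrable (fun y => ‖σ y‖ ^ 2 * Q y ^ (-(((φ i : ℝ) - 1) / m))) ν → (∃ y, σ y ≠ 0) →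
        0 < ∫ x, ‖σ x‖ ^ 2 * Q x ^ (-(((φ i : ℝ) - 1) / m)) ∂ν ∧
        ∀ y, ‖σ y‖ ^ 2 * Q y ^ (-(((φ i : ℝ) - 1) / m)) ≤
          B y * ∫ x, ‖σ x‖ ^ 2 * Q x ^ (-(((φ i : ℝ) - 1) / m)) ∂ν := fun i => by
    obtain ⟨T, hU, hT⟩ := hB.ex (φ i) (b (φ i))
    let H : Submodule ℂ (Y → ℂ) :=
      { carrier := {σ | S.Hol (P.U (φ i) (b (φ i))) σ}
        zero_mem' := fun l => by
          refine (differentiableOn_const (0 : ℂ)).congr fun z _ => ?_
          simp [Sg.rep]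
        add_mem' := fun {σ τ} h1 h2 l => ((h1 l).add (h2 l)).congr fun z _ => by
          simp only [Sg.rep, Pi.add_apply, mul_add]
        smul_mem' := fun a σ h1 l => ((h1 l).const_mul a).congr fun z _ => by
          simp only [Sg.rep, Pi.smul_apply, smul_eq_mul]; ring }
    have sm : ∀ σ ∈ H, S.Sm T.U σ := fun σ hσ => (hT.b.hol_an σ (hU ▸ hσ)).1
    have nn : ∀ y, 0 ≤ Q y ^ (-(((φ i : ℝ) - 1) / m)) := fun y => Real.rpow_nonneg (hQ.nn y) _
    have df : ∀ σ ∈ H, (∀ᵐ y ∂ν, ‖σ y‖ ^ 2 * Q y ^ (-(((φ i : ℝ) - 1) / m)) = 0) → σ = 0 := by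
      intro σ hσ h
      have t : (fun y => ‖σ y‖ ^ 2) =ᵐ[ν] fun _ => (0 : ℝ) := by
        filter_upwards [h, compl_mem_ae_iff.2 h0] with y h1 h2
        exact (mul_eq_zero.1 h1).resolve_right
          (Real.rpow_pos_of_pos ((hQ.nn y).lt_of_ne' h2) _).ne'
      have t2 := (Continuous.ae_eq_iff_eq ν (hT.b.ck σ (sm σ hσ)).2 continuous_const).1 t
      exact funext fun y => norm_eq_zero.1 (pow_eq_zero_iff two_ne_zero |>.1 (congrFun t2 y))
    obtain ⟨B, h1, h2, h3⟩ := BerL.berg ν (hQ.cont.measurable.pow_const _) nn H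
      (fun σ hσ τ hτ => (hT.b.cont σ τ (sm σ hσ) (sm τ hτ)).measurable) df
      (r := c / 2 * w * (φ i : ℝ) ^ n)
      (fun N s hs hl => not_le.1 fun h => (hc' i).1 ⟨N, s, h, hs, hl⟩)
    refine ⟨B, h1, h2, fun σ hσ hi ⟨y, hy⟩ => ⟨?_, h3 σ hσ hi⟩⟩
    refine (integral_nonneg fun y => mul_nonneg (sq_nonneg _) (nn y)).lt_of_ne' fun h => hy ?_
    rw [integral_eq_zero_iff_of_nonneg (fun y => mul_nonneg (sq_nonneg _) (nn y)) hi] at h
    exact congrFun (df σ hσ h) y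
  choose B hm1 hi1 hb1 using key
  have jp : ∀ i, (0 : ℝ) < (φ i : ℝ) ^ n := fun i => by
    have : (0 : ℝ) < φ i := by exact_mod_cast (hc' i).2
    positivity
  have F := lintegral_liminf_le (μ := ν) (u := atTop)
    (f := fun i y => ENNReal.ofReal (((φ i : ℝ) ^ n)⁻¹) * ENNReal.ofReal (B i y))
    fun i => (hm1 i).ennreal_ofReal.const_mul _
  have U : liminf (fun i => ∫⁻ y, ENNReal.ofReal (((φ i : ℝ) ^ n)⁻¹) * ENNReal.ofReal (B i y) ∂ν)
      atTop ≤ ENNReal.ofReal (c / 2 * w) := by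
    refine liminf_le_of_frequently_le' (Eventually.of_forall fun i => ?_).frequently
    rw [lintegral_const_mul' _ _ ENNReal.ofReal_ne_top]
    refine (mul_le_mul_right (hi1 i) _).trans (le_of_eq ?_)
    rw [← ENNReal.ofReal_mul (inv_pos.2 (jp i)).le]
    congr 1
    field_simp [(jp i).ne']
  have L : ∫⁻ y in {y | 0 < Q y}, ENNReal.ofReal c * ENNReal.ofReal (f y) ∂ν ≤ ∫⁻ y, liminf
      (fun i => ENNReal.ofReal (((φ i : ℝ) ^ n)⁻¹) * ENNReal.ofReal (B i y)) atTop ∂ν := by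
    refine le_trans (setLIntegral_mono' (isOpen_lt continuous_const hQ.cont).measurableSet
      fun y hy => ?_) (setLIntegral_le_lintegral _ _)
    refine le_liminf_of_le (by isBoundedDefault) ?_
    filter_upwards [hφ.tendsto_atTop.eventually (hp y hy)] with i ⟨h, h1, h2, h3, h4⟩
    obtain ⟨t1, t2⟩ := hb1 i h h1 h2 ⟨y, h3⟩
    have t3 := le_of_mul_le_mul_right (h4.trans (t2 y)) t1
    rw [← ENNReal.ofReal_mul hc.le, ← ENNReal.ofReal_mul (inv_pos.2 (jp i)).le]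
    refine ENNReal.ofReal_le_ofReal ?_
    rw [le_inv_mul_iff₀ (jp i)]
    linarith
  rw [lintegral_const_mul' _ _ ENNReal.ofReal_ne_top] at L
  have Z := ((mul_le_mul_right hw _).trans L).trans (F.trans U)
  rw [← ENNReal.ofReal_mul hc.le, ENNReal.ofReal_le_ofReal_iff (by positivity)] at Z
  nlinarith [mul_pos hc w0]

end Pool.Agent.Lib.MP_813db1_ag.SV
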