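import Pool.Agent.Lib.MP_813db1_ag.SV.Top
import Pool.Agent.Lib.MP_bbd4b9_ag.BR.KDefs
import Pool.Agent.Lib.MP_813db1_ag.AS.F12

/-! Line bundles on the sheets of a covering space; sections are functions in a unitary gauge. -/

namespace Pool.Agent.Lib.MP_813db1_ag.SV

open Pool.Agent.Lib.MP_813db1_ag.HS Pool.Agent.Lib.MP_813db1_ag.AS Pool.Agent.Lib.MP_813db1_ag.AN
open MeasureTheory Complex Matrix Filter Topology Set Metric
open scoped ContDiff ComplexOrder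

noncomputable section

variable {ι Y : Type} [Fintype ι] [DecidableEq ι] [TopologicalSpace Y]

/-- the curvature of `a K + b L`. -/
def th (M : Atl ι Y) (g : Y → Mat ι) (a b : ℝ) (y : Y) : Mat ι :=
  (a : ℂ) • (-M.ricF g y) + (b : ℂ) • g y

/-- continuous nonnegative functions, smooth where positive, with `β + ddc log Q ≥ 0`. -/
structure QB (M : Atl ι Y) (β : Y → Mat ι) (Q : Y → ℝ) : Prop where
  cont : Continuous Q
  nn : ∀ y, 0 ≤ Q y
  sm : ∀ e ∈ M.A, ∀ z ∈ e.target, 0 < Q (e.symm z) → ContDiffAt ℝ ∞ (fn Q e) z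
  psd : ∀ y, 0 < Q y → (β y + M.ddc (fun x => Real.log (Q x)) y).PosSemidef

variable [MeasurableSpace Y]

/-- the weighted real product of two sections. -/
def q0 (ν : Measure Y) (ψ : Y → ℝ) (σ τ : Y → ℂ) : ℝ :=
  ∫ y, (σ y * star (τ y)).re * Real.exp (-ψ y) ∂ν

/-- sheets with the volume measure and local parametrices. -/
structure Sg (M : Atl ι Y) (g : Y → Mat ι) (ν : Measure Y) extends St M g where
  vol : M.IsVol g ν
  par : ∀ a, ParL (H a)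

variable {M : Atl ι Y} {g : Y → Mat ι} {ν : Measure Y}

namespace Sg

variable (S : Sg M g ν) (U : S.κ → Y → ℂ)

/-- a section in the holomorphic frame of the sheet `k`. -/
def rep (σ : Y → ℂ) (k : S.κ) (z : V ι) : ℂ := U k ((S.c k).symm z) * σ ((S.c k).symm z)

/-- smooth sections. -/
def Sm (σ : Y → ℂ) : Prop := ∀ k, ∀ z ∈ ball (0 : V ι) 4, ContDiffAt ℝ ∞ (S.rep U σ k) z

/-- smooth sections with compact support. -/
def Dc (σ : Y → ℂ) : Prop := S.Sm U σ ∧ HasCompactSupport σ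

/-- holomorphic sections. -/
def Hol (σ : Y → ℂ) : Prop := ∀ k, DifferentiableOn ℂ (S.rep U σ k) (ball 0 4)

/-- square integrable holomorphic sections. -/
def H2 (σ : Y → ℂ) : Prop := S.Hol U σ ∧ Integrable (fun y => ‖σ y‖ ^ 2) ν

/-- the vector dual to `dbar σ`. -/
def vec (σ : Y → ℂ) (y : Y) : V ι :=
  (U (S.ch y) y)⁻¹ • shp (S.H (S.ty (S.ch y))) (S.rep U σ (S.ch y)) (S.c (S.ch y) y)

/-- the form `B` evaluated on `dbar σ` and `dbar τ`. -/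
def ip1 (B : Y → Mat ι) (σ τ : Y → ℂ) (y : Y) : ℂ := ipV (B y) (S.vec U σ y) (S.vec U τ y)

/-- the weighted real product of `dbar σ` and `dbar τ`. -/
def p1 (ψ : Y → ℝ) (σ τ : Y → ℂ) : ℝ := ∫ y, (S.ip1 U g σ τ y).re * Real.exp (-ψ y) ∂ν

open Classical in
/-- the section with coefficient `w` on the sheet `k`, extended by zero. -/
def ext (k : S.κ) (w : V ι → ℂ) (y : Y) : ℂ :=
  if y ∈ (S.c k).source then w (S.c k y) / U k y else 0

/-- at least `r` independent holomorphic sections. -/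
def Cnt (r : ℝ) : Prop :=
  ∃ (Q : ℕ) (s : Fin Q → Y → ℂ), r ≤ Q ∧ (∀ i, S.Hol U (s i)) ∧ LinearIndependent ℂ s

end Sg

/-- a Hermitian holomorphic line bundle `E` with `ξ` the curvature of `E - K`; the density of a
section with coefficient `F` is `|F|² exp (-ρ)` times the Lebesgue measure. -/
structure Bun (S : Sg M g ν) (ξ : Y → Mat ι) where
  ρ : Fin S.n → V ι → ℝ
  U : S.κ → Y → ℂ
  cl : M.ClF ξ
  ρ_sm : ∀ a, ∀ z ∈ ball (0 : V ι) 4, ContDiffAt ℝ ∞ (ρ a) z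
  ρ_lv : ∀ k, ∀ z ∈ ball (0 : V ι) 4,
    levi (fun w => (ρ (S.ty k) w : ℂ)) z = M.repF ξ (S.c k) z
  nrm : ∀ k, ∀ y ∈ (S.c k).source,
    ‖U k y‖ ^ 2 = Real.exp (ρ (S.ty k) (S.c k y)) * (S.H (S.ty k) (S.c k y)).det.re
  hol : ∀ k l y, y ∈ (S.c k).source → y ∈ (S.c l).source →
    AnalyticAt ℂ (fun z => U k ((S.c k).symm z) / U l ((S.c k).symm z)) (S.c k y)

namespace Bun

variable {S : Sg M g ν} {ξ : Y → Mat ι} (T : Bun S ξ)

/-- the local weight. -/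
def Φ (ψ : Y → ℝ) (k : S.κ) (z : V ι) : ℝ := T.ρ (S.ty k) z + ψ ((S.c k).symm z)

/-- minus the Laplacian on sections. -/
def box (ψ : Y → ℝ) (σ : Y → ℂ) (y : Y) : ℂ :=
  bx (T.Φ ψ (S.ch y)) (S.H (S.ty (S.ch y))) (S.rep T.U σ (S.ch y)) (S.c (S.ch y) y) /
    T.U (S.ch y) y

/-- the squared norm of `dbar` of the vector dual to `dbar σ`. -/
def nd (σ : Y → ℂ) (y : Y) : ℝ :=
  nD (S.H (S.ty (S.ch y))) (shp (S.H (S.ty (S.ch y))) (S.rep T.U σ (S.ch y))) (S.c (S.ch y) y) *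
    Real.exp (-T.ρ (S.ty (S.ch y)) (S.c (S.ch y) y)) / (g y).det.re

/-- the spectral gap. -/
def Gap (ψ : Y → ℝ) (c : ℝ) : Prop :=
  ∀ σ, S.Dc T.U σ → c * S.p1 T.U ψ σ σ ≤ q0 ν ψ (T.box ψ σ) (T.box ψ σ)

end Bun

/-- frames for the canonical bundle (`v`) and for a line bundle of curvature `g` (`u`). -/
structure Pol (S : Sg M g ν) where
  φ : Fin S.n → V ι → ℝ
  u : S.κ → Y → ℂ
  v : S.κ → Y → ℂ
  φ_sm : ∀ a, ∀ z ∈ ball (0 : V ι) 4,
    ContDiffAt ℝ ∞ (φ a) z ∧ levi (fun w => (φ a w : ℂ)) z = S.H a z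
  u_nrm : ∀ k, ∀ y ∈ (S.c k).source, ‖u k y‖ ^ 2 = Real.exp (φ (S.ty k) (S.c k y))
  u_hol : ∀ k l y, y ∈ (S.c k).source → y ∈ (S.c l).source →
    AnalyticAt ℂ (fun z => u k ((S.c k).symm z) / u l ((S.c k).symm z)) (S.c k y)
  v_nrm : ∀ k, ∀ y ∈ (S.c k).source, ‖v k y‖ ^ 2 = (S.H (S.ty k) (S.c k y)).det.re
  v_tr : ∀ k l y, y ∈ (S.c k).source → y ∈ (S.c l).source →
    v k y = (tj (S.c k) (S.c l) y).det * v l y

/-- the frames of `a K + b L`. -/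
def Pol.U {S : Sg M g ν} (P : Pol S) (a b : ℕ) (k : S.κ) (y : Y) : ℂ := P.v k y ^ a * P.u k y ^ b

/-- an invariant section of `L` with a smooth zero divisor. -/
structure Pol.Sec0 {S : Sg M g ν} (P : Pol S) (σ : Y → ℂ) : Prop where
  hol : S.Hol (P.U 0 1) σ
  bd : ∀ y, ‖σ y‖ ≤ 1
  inv : ∀ k l, S.ty k = S.ty l → ∀ z ∈ ball (0 : V ι) 4,
    ‖σ ((S.c k).symm z)‖ = ‖σ ((S.c l).symm z)‖
  reg : ∀ k, ∀ z ∈ ball (0 : V ι) 4, σ ((S.c k).symm z) = 0 →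
    fderiv ℂ (S.rep (P.U 0 1) σ k) z ≠ 0

omit [TopologicalSpace Y] in
theorem q0_self (ν : Measure Y) (ψ : Y → ℝ) (σ : Y → ℂ) :
    q0 ν ψ σ σ = ∫ y, ‖σ y‖ ^ 2 * Real.exp (-ψ y) ∂ν := by
  simp only [q0, RCLike.star_def, mul_conj', ← ofReal_pow, ofReal_re]

end

/-! ### the base -/

noncomputable section

variable {ι X Y : Type} [Fintype ι] [DecidableEq ι] [TopologicalSpace X] [TopologicalSpace Y]

/-- normalised homogeneous coordinates of a map to a projective space that induces `g`. -/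
structure Prj (M : Atl ι X) (g : X → Mat ι) {N : ℕ} (σ : Fin N → X → ℂ) : Prop where
  nrm : ∀ x, ∑ i, ‖σ i x‖ ^ 2 = 1
  op : ∀ j, IsOpen {x | σ j x ≠ 0}
  an : ∀ e ∈ M.A, ∀ z ∈ e.target, ∀ j, σ j (e.symm z) ≠ 0 → ∀ i,
    AnalyticAt ℂ (fun w => σ i (e.symm w) / σ j (e.symm w)) z
  lv : ∀ e ∈ M.A, ∀ z ∈ e.target, ∀ j, σ j (e.symm z) ≠ 0 →
    M.repF g e z = levi (fun w => (-Real.log (‖σ j (e.symm w)‖ ^ 2) : ℝ)) z

/-- the frame of the canonical bundle in the chart `e`. -/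
def vK (M : Atl ι X) (g : X → Mat ι) (e : Ch ι X) (x : X) : ℂ :=
  (tj e (M.ch x) x).det * (√(g x).det.re : ℝ)

/-- holomorphic sections of `a K + b L` on the covering space. -/
def HY (M : Atl ι X) (g : X → Mat ι) {N : ℕ} (σ : Fin N → X → ℂ) (p : Y → X) (a b : ℕ)
    (s : Y → ℂ) : Prop :=
  ∀ e ∈ M.A, ∀ z ∈ e.target, ∀ j, σ j (e.symm z) ≠ 0 → ∀ t, F12.Sec p e z t →
    AnalyticAt ℂ (fun w => vK M g e (e.symm w) ^ a * (σ j (e.symm w))⁻¹ ^ b * s (t w)) z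

/-- smooth functions on the covering space. -/
def SmY (M : Atl ι X) (p : Y → X) (f : Y → ℝ) : Prop :=
  ∀ e ∈ M.A, ∀ z ∈ e.target, ∀ t, F12.Sec p e z t → ContDiffAt ℝ ∞ (fun w => f (t w)) z

/-- the translates of `F` are uniformly summable on compact sets. -/
def Lp (G : Type) [SMul G Y] (F : Y → ℝ) : Prop :=
  ∀ K, IsCompact K → ∃ b : G → ℝ, Summable b ∧ ∀ g, ∀ y ∈ K, F (g • y) ≤ b g

/-- a section of `L` with a smooth zero divisor. -/
structure Brt (M : Atl ι X) (g : X → Mat ι) {N : ℕ} (σ : Fin N → X → ℂ) (τ : X → ℂ) : Prop where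
  hol : HY M g σ id 0 1 τ
  bd : ∀ x, ‖τ x‖ ≤ 1
  reg : ∀ e ∈ M.A, ∀ z ∈ e.target, ∀ j, σ j (e.symm z) ≠ 0 → τ (e.symm z) = 0 →
    fderiv ℂ (fun w => τ (e.symm w) / σ j (e.symm w)) z ≠ 0

/-- an equivariant partition of unity. -/
structure Pu (M : Atl ι X) (G : Type) [SMul G Y] (p : Y → X) (χ : Y → ℝ) : Prop where
  sm : SmY M p χ
  cpt : HasCompactSupport χ
  nn : ∀ y, 0 ≤ χ y
  sum : ∀ y, ∑' g : G, χ (g • y) = 1

variable [MeasurableSpace X]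

/-- an equivariant family of measures whose Fisher metric is at most `β + ddc log N`. -/
structure Fam (M : Atl ι X) (μ : Measure X) (G : Type) [SMul G Y] (p : Y → X) (β : X → Mat ι)
    (F : Y → ℝ) (N : X → ℝ) : Prop where
  nn : ∀ y, 0 ≤ F y
  sum : ∀ y, HasSum (fun g : G => F (g • y)) (N (p y))
  lp : Lp G F
  qb : QB M β N
  null : μ {x | N x = 0} = 0
  sm : ∀ e ∈ M.A, ∀ z ∈ e.target, 0 < N (e.symm z) → ∀ t, F12.Sec p e z t →
    0 < F (t z) ∧ ContDiffAt ℝ ∞ (fun w => F (t w)) z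
  fis : ∀ e ∈ M.A, ∀ z ∈ e.target, 0 < N (e.symm z) → ∀ t, F12.Sec p e z t → ∀ (A : Finset G) (v : V ι),
    ∑ g ∈ A, fderiv ℝ (fun w => √(F (g • t w) / N (e.symm w))) z v ^ 2 ≤
      nV (M.repF (fun x => β x + M.ddc (fun y => Real.log (N y)) x) e z) v

/-- the spherical volume, read in a family of charts of the maximal atlas. -/
def SphA (M : Atl ι X) (g : X → Mat ι) (μ : Measure X) (G : Type) [SMul G Y] (p : Y → X)
    (v : ℝ) : Prop :=
  ∃ c : X → Ch ι X, (∀ x, c x ∈ M.A ∧ x ∈ (c x).source) ∧ ∀ (f : Y → ℝ) (t : X → V ι → Y),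
    HasCompactSupport f → (∀ y, 0 ≤ f y) → SmY M p f → (∀ y, ∑' g : G, f (g • y) ^ 2 = 1) →
    (∀ x, F12.Sec p (c x) (c x x) (t x)) →
    ENNReal.ofReal v ≤ ∫⁻ x, ENNReal.ofReal (√(gram G f (t x) (c x x)).det /
      (M.repF g (c x) (c x x)).det.re) ∂μ

end

end Pool.Agent.Lib.MP_813db1_ag.SV
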