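import Pool.Agent.Lib.MP_813db1_ag.SV.StB

/-! The family: the regularity statement. -/

namespace Pool.Agent.Lib.MP_813db1_ag.SV

open Pool.Agent.Lib.MP_813db1_ag.HS Pool.Agent.Lib.MP_813db1_ag.AS Pool.Agent.Lib.MP_813db1_ag.AN
open Filter Topology
open scoped ContDiff

variable {ι X Y : Type} [Fintype ι] [DecidableEq ι] [TopologicalSpace X] [TopologicalSpace Y]

/-- the members of the family. -/
noncomputable def Ff (s : Y → ℂ) (l : Y → ℝ) (ρ : X → ℝ) (p : Y → X) (r δ : ℝ) (y : Y) : ℝ :=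
  (‖s y‖ ^ 2 + δ * Real.exp (2 / r * l y) * ρ (p y)) ^ (r / 2)

/-- a slowly varying weight. -/
structure Wt (M : Atl ι X) (g : X → Mat ι) (G : Type) [SMul G Y] (p : Y → X) (l : Y → ℝ)
    (A C : ℝ) : Prop where
  sm : SmY M p l
  nn : 0 ≤ A ∧ 0 ≤ C
  sum : ∀ y, Summable (fun γ : G => Real.exp (l (γ • y))) ∧ ∑' γ : G, Real.exp (l (γ • y)) ≤ A
  lv : ∀ e ∈ M.A, ∀ z ∈ e.target, ∀ t, F12.Sec p e z t → ∀ v : V ι,
    -C * nV (M.repF g e z) v ≤ nV (levi (fun w => (l (t w) : ℂ)) z) v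

/-- the sum over the group can be differentiated term by term where `ρ` is positive. -/
structure Reg (M : Atl ι X) (G : Type) [SMul G Y] (p : Y → X) (ρ : X → ℝ) (F : Y → ℝ)
    (N : X → ℝ) : Prop where
  sum : ∀ y, HasSum (fun γ : G => F (γ • y)) (N (p y))
  lp : Lp G F
  cont : Continuous N
  smN : ∀ e ∈ M.A, ∀ z ∈ e.target, 0 < ρ (e.symm z) → ContDiffAt ℝ ∞ (fun w => N (e.symm w)) z
  smF : ∀ e ∈ M.A, ∀ z ∈ e.target, 0 < ρ (e.symm z) → ∀ t, F12.Sec p e z t →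
    ContDiffAt ℝ ∞ (fun w => F (t w)) z
  d1 : ∀ e ∈ M.A, ∀ z ∈ e.target, 0 < ρ (e.symm z) → ∀ t, F12.Sec p e z t → ∀ v : V ι,
    HasSum (fun γ : G => fderiv ℝ (fun w => F (γ • t w)) z v)
      (fderiv ℝ (fun w => N (e.symm w)) z v)
  d2 : ∀ e ∈ M.A, ∀ z ∈ e.target, 0 < ρ (e.symm z) → ∀ t, F12.Sec p e z t → ∀ v : V ι,
    HasSum (fun γ : G => nV (levi (fun w => (F (γ • t w) : ℂ)) z) v) (nV (levi (fn N e) z) v)

/-- the weight and the regularity of the family. -/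
def FamR : Prop := ∀ (ι X Y G : Type) [Fintype ι] [DecidableEq ι] [TopologicalSpace X]
  [T2Space X] [CompactSpace X] [TopologicalSpace Y] [ConnectedSpace Y] [Group G] [MulAction G Y]
  (M : Atl ι X) (g β : X → Mat ι) (N : ℕ) (σ : Fin N → X → ℂ) (p : Y → X) (m k : ℕ) (r : ℝ)
  (s : Y → ℂ) (ρ : X → ℝ), M.IsK g → Prj M g σ → IsQuotientCoveringMap p G → 0 < r →
  HY M g σ p m k s → (Lp G fun y => ‖s y‖ ^ r) → QB M β ρ →
  ∃ (l : Y → ℝ) (A C : ℝ), Wt M g G p l A C ∧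
    ∀ δ > (0 : ℝ), ∃ N', Reg M G p ρ (Ff s l ρ p r δ) N'

end Pool.Agent.Lib.MP_813db1_ag.SV
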