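import Pool.Agent.Lib.MP_813db1_ag.SV.FamD
import Pool.Agent.Lib.MP_813db1_ag.HS.RepA
import Pool.Agent.Lib.MP_813db1_ag.AN.Lg
import Pool.Agent.Lib.MP_bbd4b9_ag.NH.Fg

/-! The family: functions on the covering space. -/

namespace Pool.Agent.Lib.MP_813db1_ag.SV.FamG

open Pool.Agent.Lib.MP_813db1_ag.HS Pool.Agent.Lib.MP_813db1_ag.AS Pool.Agent.Lib.MP_813db1_ag.AN
open Complex Matrix Filter Topology Set F12
open scoped ContDiff ComplexOrder

variable {ι X Y G : Type} [Fintype ι] [DecidableEq ι] [TopologicalSpace X] [TopologicalSpace Y]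
  [Group G] [MulAction G Y] {M : Atl ι X} {g : X → Mat ι} {p : Y → X} {e : Ch ι X} {z : V ι}
  {t : V ι → Y}

omit [Fintype ι] [DecidableEq ι] in
theorem tend (hp : IsLocalHomeomorph p) {y : Y} (h : p y ∈ e.source) :
    ContinuousAt (fun y => e (p y)) y := (e.continuousAt h).comp hp.continuous.continuousAt

theorem back (hp : IsLocalHomeomorph p) {y : Y} (h : p y ∈ e.source) :
    ∀ᶠ y' in 𝓝 y, p y' ∈ e.source ∧ sh hp y e (e (p y')) = y' := by
  have h1 := hp.continuous.continuousAt.eventually (e.open_source.eventually_mem h)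
  have h2 := sh_self hp h
  refine h1.and (uniq hp (q := id) (h2.1.1.comp (f := fun y => e (p y)) (tend hp h))
    continuousAt_id h2.2 ?_)
  filter_upwards [h1, (tend hp h).eventually h2.1.2] with y' a b
  exact b.trans (e.left_inv a)

theorem cont (hp : IsLocalHomeomorph p) {f : Y → ℝ} (h : SmY M p f) : Continuous f := by
  refine continuous_iff_continuousAt.2 fun y => ?_
  have hx := M.mem (p y)
  refine ((h _ (M.ch_mem _) _ ((M.ch _).map_source hx) _ (sh_self hp hx).1).continuousAt.comp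
    (f := fun y' => M.ch (p y) (p y')) (tend hp hx)).congr ((back hp hx).mono fun y' a => ?_)
  exact congrArg f a.2

theorem loc [T2Space X] [CompactSpace X] (hl : IsLocalHomeomorph p) :
    WeaklyLocallyCompactSpace Y := ⟨fun y => by
  obtain ⟨e, he, rfl⟩ := hl y
  obtain ⟨C, c1, c2, c3⟩ := exists_compact_subset e.open_target (e.map_source he)
  refine ⟨e.symm '' C, c1.image_of_continuousOn (e.continuousOn_symm.mono c3), ?_⟩
  have := e.symm.image_mem_nhds (e.map_source he) (mem_interior_iff_mem_nhds.1 c2)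
  rwa [e.left_inv he] at this⟩

omit [DecidableEq ι] in
theorem bdd {A : V ι → Mat ι} (h : CdM ∞ A z) : ∀ᶠ L in atTop, ∀ᶠ w in 𝓝 z, Bd L (A w) :=
  (eventually_all.2 fun i => eventually_all.2 fun j => eventually_gt_atTop ‖A z i j‖).mono
    fun _ hL => eventually_all.2 fun i => eventually_all.2 fun j =>
      ((h i j).continuousAt.norm.eventually (gt_mem_nhds (hL i j))).mono fun _ a => a.le

theorem nn (hg : M.IsK g) (he : e ∈ M.A) (hz : z ∈ e.target) (v : V ι) :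
    0 ≤ nV (M.repF g e z) v := mat.nv_mono ι _ v ((hg e he).2 z hz).posSemidef

theorem dm (L : ℝ) : ∃ C ≥ (0 : ℝ), ∀ G B : Mat ι, G.PosDef → B.IsHermitian → Bd L G →
    Bd L G⁻¹ → Bd L B → ∀ v, |nV B v| ≤ C * nV G v := by
  obtain ⟨C, c0, hC⟩ := Lg.dom ι L
  refine ⟨C, c0, fun G B a b c d e v => ?_⟩
  have k1 := (mat.nv_mono ι _ v (hC G B a b c d e)).trans_eq (Mat.nv_lin _ _ _ _).1
  have k2 := mat.nv_mono ι _ v (hC G (-B) a b.neg c d fun i j => (norm_neg _).trans_le (e i j))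
  rw [← sub_eq_add_neg, (Mat.nv_lin _ _ _ _).2] at k2
  exact abs_le.2 ⟨by linarith, by linarith⟩

theorem lv1 (hg : M.IsK g) (hp : IsLocalHomeomorph p) {f : Y → ℝ} (h : SmY M p f) (y : Y) :
    ∃ C ≥ (0 : ℝ), ∀ᶠ y' in 𝓝 y, ∀ e ∈ M.A, ∀ z ∈ e.target, ∀ t, Sec p e z t → t z = y' → ∀ v,
      |nV (levi (fun w => (f (t w) : ℂ)) z) v| ≤ C * nV (M.repF g e z) v := by
  have hx := M.mem (p y)
  have h0 := M.ch_mem (p y)
  generalize M.ch (p y) = c at hx h0
  have hz := c.map_source hx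
  have s0 := (sh_self hp hx).1
  have u0 := contDiffAt_ofReal.2 (h c h0 _ hz _ s0)
  have g0 : CdM ∞ (M.repF g c) (c (p y)) := (hg c h0).1.1 _ hz
  obtain ⟨L, l1, l2, l3⟩ := ((bdd g0).and ((bdd (g0.inv ((hg c h0).2 _ hz).det_pos.ne')).and
    (bdd (contDiffAt_levi_top u0)))).exists
  obtain ⟨C, c0, hC⟩ := dm (ι := ι) L
  refine ⟨C, c0, ?_⟩
  filter_upwards [back hp hx, (tend hp hx).eventually (l1.and (l2.and (l3.and ((s0.ev hp hz).and
    ((u0.of_le (m := 2) (by norm_cast)).eventually (by simp))))))]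
    with y' ⟨a1, a2⟩ ⟨b1, b2, b3, b4, b5⟩ e he z hz' t ht e0 v
  have e1 : p y' = e.symm z := e0 ▸ ht.2.self_of_nhds
  rw [e1] at a1 a2 b1 b2 b3 b4 b5
  have an := F1.an he h0 hz' a1
  have e2 : t =ᶠ[𝓝 z] fun w => sh hp y c ((c ∘ e.symm) w) := by
    refine uniq hp ht.1 (b4.1.comp (f := c ∘ e.symm) an.continuousAt) (e0.trans a2.symm) ?_
    filter_upwards [ht.2, an.continuousAt.eventually b4.2, F1.ev hz' c.open_source a1] with w c1 c2 c3
    rw [c1, c2, Function.comp_apply, c.left_inv c3.2]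
  have e3 := RepA.repF_tr M g e he c h0 _ (e.map_target hz') a1
  have e4 := RepA.tj_det M e he c h0 _ (e.map_target hz') a1
  rw [tj, e.right_inv hz'] at e3 e4
  have k := hC _ _ ((hg c h0).2 _ (c.map_source a1)) (levi_herm_ofReal b5) b1 b2 b3
  rw [levi_congr (g := (fun w => (f (sh hp y c w) : ℂ)) ∘ (c ∘ e.symm))
    (e2.mono fun w hw => by simp only [hw, Function.comp_apply]), levi_comp b5 an, e3, nV, nV,
    (mat.pull_pd ι _ _ e4).2.2.2.2.2.2, (mat.pull_pd ι _ _ e4).2.2.2.2.2.2]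
  exact k _

omit [DecidableEq ι] in
theorem nV0 (v : V ι) : nV 0 v = 0 := by simp [nV, ipV]

theorem lvb (hg : M.IsK g) (hp : IsLocalHomeomorph p) {f : Y → ℝ} (h : SmY M p f)
    (hc : HasCompactSupport f) : ∃ C ≥ (0 : ℝ), ∀ e ∈ M.A, ∀ z ∈ e.target, ∀ t, Sec p e z t → ∀ v,
      |nV (levi (fun w => (f (t w) : ℂ)) z) v| ≤ C * nV (M.repF g e z) v := by
  obtain ⟨C, c0, hC⟩ := IsCompact.induction_on hc (p := fun s => ∃ C ≥ (0 : ℝ), ∀ y ∈ s, ∀ e ∈ M.A,
    ∀ z ∈ e.target, ∀ t, Sec p e z t → t z = y → ∀ v,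
      |nV (levi (fun w => (f (t w) : ℂ)) z) v| ≤ C * nV (M.repF g e z) v)
    ⟨0, le_rfl, fun _ h => h.elim⟩ (fun s t hs ⟨C, a, b⟩ => ⟨C, a, fun y hy => b y (hs hy)⟩)
    (fun s s' ⟨C, a, b⟩ ⟨C', a', b'⟩ => ⟨C + C', add_nonneg a a',
      fun y hy e he z hz t ht e0 v => by
        have := nn hg he hz v
        rcases hy with hy | hy
        · nlinarith [b y hy e he z hz t ht e0 v]
        · nlinarith [b' y hy e he z hz t ht e0 v]⟩) fun y _ => by
      obtain ⟨C, a, b⟩ := lv1 hg hp h y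
      exact ⟨_, mem_nhdsWithin_of_mem_nhds b, C, a, fun _ h => h⟩
  refine ⟨C, c0, fun e he z hz t ht v => ?_⟩
  by_cases h1 : t z ∈ tsupport f
  · exact hC _ h1 e he z hz t ht rfl v
  · rw [levi_congr (g := fun _ => 0) ((ht.1.eventually (notMem_tsupport_iff_eventuallyEq.1 h1)).mono
      fun w hw => by simp [hw]), levi_const, nV0, abs_zero]
    exact mul_nonneg c0 (nn hg he hz v)

omit [Group G] in
theorem lv_sum (H : Finset G) {u : G → V ι → ℝ} (c : G → ℝ) (c0 : ℝ)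
    (h : ∀ η, ContDiffAt ℝ ∞ (u η) z) (v : V ι) :
    nV (levi (fun w => ((c0 + ∑ η ∈ H, u η w * c η : ℝ) : ℂ)) z) v =
      ∑ η ∈ H, c η * nV (levi (fun w => (u η w : ℂ)) z) v := by
  classical
  induction H using Finset.induction_on with
  | empty => simp [levi_const, nV0]
  | insert a s ha ih =>
    have h1 : ContDiffAt ℝ 2 (fun w => (u a w : ℂ)) z :=
      contDiffAt_ofReal.2 ((h a).of_le (by norm_cast))
    have h2 : ContDiffAt ℝ 2 (fun w => ((c0 + ∑ η ∈ s, u η w * c η : ℝ) : ℂ)) z :=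
      contDiffAt_ofReal.2 ((contDiffAt_const.add (ContDiffAt.sum fun η _ =>
        (h η).mul contDiffAt_const)).of_le (by norm_cast))
    rw [Finset.sum_insert ha, ← ih, ← (Mat.nv_lin _ _ _ _).1, ← levi_cmul _ h1,
      ← levi_add (contDiffAt_const.mul h1) h2]
    congr 2
    funext w
    rw [Finset.sum_insert ha]
    push_cast
    ring

theorem wt (hg : M.IsK g) {N : ℕ} {σ : Fin N → X → ℂ} (hσ : Prj M g σ) {m k : ℕ} {s : Y → ℂ}
    (hs : HY M g σ p m k s) (hp : IsQuotientCoveringMap p G) (he : e ∈ M.A) (hz : z ∈ e.target)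
    (ht : Sec p e z t) : ∃ (W : V ι → ℝ) (S : G → V ι → ℂ), ContDiffAt ℝ ∞ W z ∧ 0 < W z ∧
      ∀ᶠ w in 𝓝 z, ∀ γ, AnalyticAt ℂ (S γ) w ∧ ‖S γ w‖ ^ 2 = W w * ‖s (γ • t w)‖ ^ 2 := by
  obtain ⟨j, hj⟩ : ∃ j, σ j (e.symm z) ≠ 0 := by
    by_contra h
    push Not at h
    simpa [h] using hσ.nrm (e.symm z)
  have n1 : ∀ x, ∑ i, ‖σ i x / σ j x‖ ^ 2 = ‖(σ j x)⁻¹‖ ^ 2 := fun x => by
    simp only [div_eq_mul_inv, norm_mul, mul_pow, ← Finset.sum_mul, hσ.nrm, one_mul]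
  have g0 : CdM ∞ (M.repF g e) z := (hg e he).1.1 _ hz
  refine ⟨fun w => (M.repF g e w).det.re ^ m * (∑ i, ‖σ i (e.symm w) / σ j (e.symm w)‖ ^ 2) ^ k,
    fun γ w => vK M g e (e.symm w) ^ m * (σ j (e.symm w))⁻¹ ^ k * s (γ • t w),
    ((reCLM.contDiff.contDiffAt.comp z g0.det).pow m).mul ((ContDiffAt.sum fun i _ =>
      (RepA.cd_an (hσ.an e he z hz j hj i)).norm_sq ℂ).pow k), ?_, ?_⟩
  · have := (mat.det ι _ ((hg e he).2 z hz)).1
    simp only [n1]
    exact mul_pos (pow_pos this m) (pow_pos (pow_pos (norm_pos_iff.2 (inv_ne_zero hj)) 2) k)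
  · filter_upwards [F1.ev hz (hσ.op j) hj, ht.ev hp.isCoveringMap.isLocalHomeomorph hz]
      with w a b γ
    refine ⟨hs e he w a.1 j a.2 _ (b.smul hp γ), ?_⟩
    have d := (mat.det ι _ (RepA.repF_self M g (e.symm w) ▸ (hg _ (M.ch_mem _)).2 _
      ((M.ch _).map_source (M.mem (e.symm w))))).1
    have d1 : ‖vK M g e (e.symm w)‖ ^ 2 = (M.repF g e w).det.re := by
      rw [vK, Atl.repF, RepA.det_pull, re_ofReal_mul, norm_mul, mul_pow, norm_real,
        Real.norm_of_nonneg (Real.sqrt_nonneg _), Real.sq_sqrt d.le]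
    rw [n1, ← d1, norm_mul, norm_mul, norm_pow, norm_pow]
    ring

theorem sq_sm (hg : M.IsK g) {N : ℕ} {σ : Fin N → X → ℂ} (hσ : Prj M g σ) {m k : ℕ} {s : Y → ℂ}
    (hs : HY M g σ p m k s) (hp : IsQuotientCoveringMap p G) : SmY M p fun y => ‖s y‖ ^ 2 := by
  intro e he z hz t ht
  obtain ⟨W, S, w1, w2, w3⟩ := wt hg hσ hs hp he hz ht
  refine (((RepA.cd_an (w3.self_of_nhds 1).1).norm_sq ℂ).div w1 w2.ne').congr_of_eventuallyEq ?_
  filter_upwards [w3, w1.continuousAt.eventually (lt_mem_nhds w2)] with w a b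
  rw [Pi.div_apply, (a 1).2, one_smul, mul_div_cancel_left₀ _ b.ne']

theorem sumN [T2Space X] [CompactSpace X] (hp : IsQuotientCoveringMap p G) {F : Y → ℝ}
    (c : Continuous F) (h0 : ∀ y, 0 ≤ F y) (h : Lp G F) :
    ∃ N : X → ℝ, (∀ y, HasSum (fun γ : G => F (γ • y)) (N (p y))) ∧ Continuous N := by
  have := loc hp.isCoveringMap.isLocalHomeomorph
  choose σ hσ using hp.surjective
  have s : ∀ y, HasSum (fun γ : G => F (γ • y)) (∑' γ : G, F (γ • σ (p y))) := fun y => by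
    obtain ⟨b, b1, b2⟩ := h {y} isCompact_singleton
    obtain ⟨γ, hγ⟩ := hp.apply_eq_iff_mem_orbit.1 (hσ (p y))
    have := (Equiv.mulRight γ).tsum_eq fun η : G => F (η • y)
    simp only [Equiv.coe_mulRight, mul_smul, show γ • y = _ from hγ] at this
    rw [this]
    exact (b1.of_nonneg_of_le (fun _ => h0 _) fun η => b2 η y rfl).hasSum
  refine ⟨fun x => ∑' γ : G, F (γ • σ x), s, hp.toIsQuotientMap.continuous_iff.2 ?_⟩
  rw [show (fun x => ∑' γ : G, F (γ • σ x)) ∘ p = fun y => ∑' γ : G, F (γ • y) from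
    funext fun y => (s y).tsum_eq.symm]
  refine continuous_iff_continuousAt.2 fun y => ?_
  obtain ⟨K, k1, k2⟩ := exists_compact_mem_nhds y
  obtain ⟨b, b1, b2⟩ := h K k1
  exact (continuousOn_tsum (fun γ => (c.comp (hp.continuous_const_smul γ)).continuousOn) b1
    fun γ x hx => (Real.norm_of_nonneg (h0 _)).trans_le (b2 γ x hx)).continuousAt k2

end Pool.Agent.Lib.MP_813db1_ag.SV.FamG
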