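import Pool.Agent.Lib.MP_813db1_ag.SV.StA

/-! Approximation by holomorphic sections for an increasing limit of weights. -/

namespace Pool.Agent.Lib.MP_813db1_ag.SV

open Pool.Agent.Lib.MP_813db1_ag.HS Pool.Agent.Lib.MP_813db1_ag.AS Pool.Agent.Lib.MP_813db1_ag.AN
open MeasureTheory Complex Matrix Filter Topology Set Metric
open scoped ContDiff ComplexOrder ENNReal

variable {ι Y : Type} [Fintype ι] [DecidableEq ι] [TopologicalSpace Y] [MeasurableSpace Y]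
  [BorelSpace Y] {M : Atl ι Y} {g : Y → Mat ι} {ν : Measure Y} {S : Sg M g ν} {ξ : Y → Mat ι}
  {T : Bun S ξ}

theorem horL (hT : T.All) (u : Y → ℂ) (hu : S.Sm T.U u) (w : ℕ → Y → ℝ) (a B : ℝ)
    (ha : 0 < a) (hc : ∀ j, Continuous (w j)) (hm : ∀ y, Monotone fun j => w j y)
    (h0 : ∀ y, a ≤ w 0 y)
    (hh : ∀ j, ∃ h, S.H2 T.U h ∧ Integrable (fun y => ‖u y - h y‖ ^ 2 * w j y) ν ∧
      ∫ y, ‖u y - h y‖ ^ 2 * w j y ∂ν ≤ B) :
    ∃ h, S.H2 T.U h ∧ ∀ w' : Y → ℝ, Measurable w' → (∀ y, 0 ≤ w' y) →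
      (∀ y, ∀ᶠ j in atTop, w' y ≤ w j y) → Integrable (fun y => ‖u y - h y‖ ^ 2 * w' y) ν ∧
        ∫ y, ‖u y - h y‖ ^ 2 * w' y ∂ν ≤ B := by
  have wa : ∀ j y, a ≤ w j y := fun j y => (h0 y).trans (hm y (Nat.zero_le j))
  have w0 : ∀ j y, 0 ≤ w j y := fun j y => ha.le.trans (wa j y)
  have sub : ∀ σ τ, S.Sm T.U σ → S.Sm T.U τ → Continuous fun y => ‖σ y - τ y‖ ^ 2 :=
    fun σ τ h1 h2 => by
      have := (hT.b.ck _ (hT.b.ck_lin 1 (-1) σ τ h1 h2)).2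
      simpa only [one_mul, neg_mul, ← sub_eq_add_neg] using this
  have sm : ∀ h, S.H2 T.U h → S.Sm T.U h := fun h hh => (hT.b.hol_an h hh.1).1
  have ct : ∀ h j, S.H2 T.U h → Continuous fun y => ‖u y - h y‖ ^ 2 * w j y :=
    fun h j hh => (sub u h hu (sm h hh)).mul (hc j)
  let E : ℕ → Set ℝ := fun j => {r | ∃ h, S.H2 T.U h ∧
    Integrable (fun y => ‖u y - h y‖ ^ 2 * w j y) ν ∧ ∫ y, ‖u y - h y‖ ^ 2 * w j y ∂ν = r}
  have E0 : ∀ j, BddBelow (E j) := fun j => ⟨0, by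
    rintro _ ⟨h, -, -, rfl⟩
    exact integral_nonneg fun y => mul_nonneg (sq_nonneg _) (w0 j y)⟩
  have dn : ∀ i j h, i ≤ j → S.H2 T.U h → Integrable (fun y => ‖u y - h y‖ ^ 2 * w j y) ν →
      Integrable (fun y => ‖u y - h y‖ ^ 2 * w i y) ν ∧
        ∫ y, ‖u y - h y‖ ^ 2 * w i y ∂ν ≤ ∫ y, ‖u y - h y‖ ^ 2 * w j y ∂ν :=
    fun i j h hij h1 h2 => by
      have le : ∀ y, ‖u y - h y‖ ^ 2 * w i y ≤ ‖u y - h y‖ ^ 2 * w j y := fun y =>
        mul_le_mul_of_nonneg_left (hm y hij) (sq_nonneg _)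
      have i1 := h2.mono' (ct h i h1).aestronglyMeasurable (ae_of_all _ fun y => by
        rw [Real.norm_of_nonneg (mul_nonneg (sq_nonneg _) (w0 i y))]
        exact le y)
      exact ⟨i1, integral_mono i1 h2 le⟩
  have ex : ∀ j : ℕ, ∃ h, S.H2 T.U h ∧ Integrable (fun y => ‖u y - h y‖ ^ 2 * w j y) ν ∧
      ∫ y, ‖u y - h y‖ ^ 2 * w j y ∂ν ≤ B ∧
      ∫ y, ‖u y - h y‖ ^ 2 * w j y ∂ν ≤ sInf (E j) + 1 / ((j : ℝ) + 1) := fun j => by
    obtain ⟨h, h1, h2, h3⟩ := hh j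
    obtain ⟨_, ⟨h', k1, k2, rfl⟩, k3⟩ := Real.lt_sInf_add_pos (s := E j) ⟨_, h, h1, h2, rfl⟩
      (Nat.one_div_pos_of_nat (n := j))
    rcases le_total (∫ y, ‖u y - h y‖ ^ 2 * w j y ∂ν) (∫ y, ‖u y - h' y‖ ^ 2 * w j y ∂ν) with l | l
    exacts [⟨h, h1, h2, h3, l.trans k3.le⟩, ⟨h', k1, k2, l.trans h3, k3.le⟩]
  choose h h1 h2 h3 h4 using ex
  have dB : ∀ j, sInf (E j) ≤ B := fun j => (csInf_le (E0 j) ⟨h j, h1 j, h2 j, rfl⟩).trans (h3 j)
  have dm : Monotone fun j => sInf (E j) := fun i j hij =>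
    le_csInf ⟨_, h j, h1 j, h2 j, rfl⟩ (by
      rintro _ ⟨k, k1, k2, rfl⟩
      obtain ⟨i1, i2⟩ := dn i j k hij k1 k2
      exact (csInf_le (E0 i) ⟨k, k1, i1, rfl⟩).trans i2)
  have bb : BddAbove (range fun j => sInf (E j)) := ⟨B, by rintro _ ⟨j, rfl⟩; exact dB j⟩
  have dl := tendsto_atTop_ciSup dm bb
  obtain ⟨h', k1, k2⟩ := hT.d.lim h
    (fun i => (2 * ((⨆ j, sInf (E j)) - sInf (E i)) + 4 * (1 / ((i : ℝ) + 1))) / a) h1
    (by
      have := (((dl.const_sub (⨆ j, sInf (E j))).const_mul 2).add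
        ((tendsto_one_div_add_atTop_nhds_zero_nat (𝕜 := ℝ)).const_mul 4)).div_const a
      simpa using this) fun i j hij => by
    obtain ⟨i1, i2⟩ := dn i j (h j) hij (h1 j) (h2 j)
    have m1 : S.H2 T.U fun y => 1 / 2 * h i y + 1 / 2 * h j y := by
      simpa only [Fin.sum_univ_two, cons_val_zero, cons_val_one] using
        hT.d.h2 (Fin 2) Finset.univ (fun _ => 1 / 2) ![h i, h j] fun l _ => by
          fin_cases l
          exacts [h1 i, h1 j]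
    have par : ∀ y, ‖h i y - h j y‖ ^ 2 + 4 * ‖u y - (1 / 2 * h i y + 1 / 2 * h j y)‖ ^ 2 =
        2 * ‖u y - h i y‖ ^ 2 + 2 * ‖u y - h j y‖ ^ 2 := fun y => by
      simp only [Complex.sq_norm, normSq_apply, sub_re, sub_im, add_re, add_im, mul_re, mul_im]
      norm_num
      ring
    have s1 : Integrable (fun y => 2 * (‖u y - h i y‖ ^ 2 * w i y) +
        2 * (‖u y - h j y‖ ^ 2 * w i y)) ν := ((h2 i).const_mul 2).add (i1.const_mul 2)
    have m2 : Integrable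
        (fun y => ‖u y - (1 / 2 * h i y + 1 / 2 * h j y)‖ ^ 2 * w i y) ν :=
      s1.mono' (ct _ i m1).aestronglyMeasurable (ae_of_all _ fun y => by
        rw [Real.norm_of_nonneg (mul_nonneg (sq_nonneg _) (w0 i y))]
        have := mul_le_mul_of_nonneg_right (show ‖u y - (1 / 2 * h i y + 1 / 2 * h j y)‖ ^ 2 ≤
          2 * ‖u y - h i y‖ ^ 2 + 2 * ‖u y - h j y‖ ^ 2 by
            nlinarith [par y, sq_nonneg ‖h i y - h j y‖,
              sq_nonneg ‖u y - (1 / 2 * h i y + 1 / 2 * h j y)‖]) (w0 i y)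
        linarith)
    have m3 := csInf_le (E0 i) ⟨_, m1, m2, rfl⟩
    have m4 : ∫ y, ‖h i y - h j y‖ ^ 2 * a ∂ν ≤ ∫ y, (2 * (‖u y - h i y‖ ^ 2 * w i y) +
        2 * (‖u y - h j y‖ ^ 2 * w i y)) -
          4 * (‖u y - (1 / 2 * h i y + 1 / 2 * h j y)‖ ^ 2 * w i y) ∂ν :=
      integral_mono_of_nonneg (ae_of_all _ fun y => mul_nonneg (sq_nonneg _) ha.le)
        (s1.sub (m2.const_mul 4)) (ae_of_all _ fun y => by
          have := mul_le_mul_of_nonneg_left (wa i y) (sq_nonneg ‖h i y - h j y‖)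
          have e := congrArg (· * w i y) (par y)
          simp only at e ⊢
          linarith)
    rw [integral_mul_const, integral_sub s1 (m2.const_mul 4),
      integral_add ((h2 i).const_mul 2) (i1.const_mul 2), integral_const_mul, integral_const_mul,
      integral_const_mul] at m4
    have m5 := le_ciSup bb j
    have m6 : 1 / ((j : ℝ) + 1) ≤ 1 / ((i : ℝ) + 1) := Nat.one_div_le_one_div hij
    rw [le_div_iff₀ ha]
    linarith [h4 i, h4 j]
  refine ⟨h', k1, fun w' hw w1 hl => ?_⟩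
  have nn : ∀ᵐ y ∂ν, 0 ≤ ‖u y - h' y‖ ^ 2 * w' y :=
    ae_of_all _ fun y => mul_nonneg (sq_nonneg _) (w1 y)
  have B0 : 0 ≤ B := (integral_nonneg fun y => mul_nonneg (sq_nonneg _) (w0 0 y)).trans (h3 0)
  have fa : ∫⁻ y, ENNReal.ofReal (‖u y - h' y‖ ^ 2 * w' y) ∂ν ≤ ENNReal.ofReal B := by
    refine (lintegral_mono fun y => ?_).trans ((lintegral_liminf_le' (u := atTop) fun j =>
        (ct (h j) j (h1 j)).measurable.ennreal_ofReal.aemeasurable).trans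
          (liminf_le_of_frequently_le' (Frequently.of_forall fun j => ?_)))
    · rw [← (ENNReal.tendsto_ofReal
        ((((k2 y).const_sub (u y)).norm.pow 2).mul_const (w' y))).liminf_eq]
      exact liminf_le_liminf ((hl y).mono fun j hj =>
        ENNReal.ofReal_le_ofReal (mul_le_mul_of_nonneg_left hj (sq_nonneg _)))
    · rw [← ofReal_integral_eq_lintegral_ofReal (h2 j)
        (ae_of_all _ fun y => mul_nonneg (sq_nonneg _) (w0 j y))]
      exact ENNReal.ofReal_le_ofReal (h3 j)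
  have i0 : Integrable (fun y => ‖u y - h' y‖ ^ 2 * w' y) ν :=
    ⟨((sub u h' hu (sm h' k1)).measurable.mul hw).aestronglyMeasurable,
      (hasFiniteIntegral_iff_ofReal nn).2 (fa.trans_lt ENNReal.ofReal_lt_top)⟩
  refine ⟨i0, ?_⟩
  rwa [← ofReal_integral_eq_lintegral_ofReal i0 nn, ENNReal.ofReal_le_ofReal_iff B0] at fa

end Pool.Agent.Lib.MP_813db1_ag.SV
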