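import Pool.Agent.Lib.MP_813db1_ag.SV.StA
import Pool.Agent.Lib.MP_813db1_ag.AN.Itp
import Pool.Agent.Lib.MP_813db1_ag.HS.AYAll

/-! Interpolation at points of disjoint sheets. -/

namespace Pool.Agent.Lib.MP_813db1_ag.SV

open Pool.Agent.Lib.MP_813db1_ag.HS Pool.Agent.Lib.MP_813db1_ag.AS Pool.Agent.Lib.MP_813db1_ag.AN
open Pool.Agent.Lib.MP_bbd4b9_ag.BR (FinT)
open MeasureTheory Complex Matrix Filter Topology Set Metric
open scoped ContDiff ComplexOrder

namespace ItpL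

open HS.Pole

variable {ι Y : Type} [Fintype ι] [DecidableEq ι] [TopologicalSpace Y] [MeasurableSpace Y]
  {M : Atl ι Y} {g : Y → Mat ι} {ν : Measure Y} {S : Sg M g ν} {ξ : Y → Mat ι} {T : Bun S ξ}

theorem tgt {k : S.κ} {z : V ι} (h : ‖z‖ < 4) : z ∈ (S.c k).target := by
  rw [S.tgt]; exact mem_ball_zero_iff.2 h

theorem src (y : Y) : y ∈ (S.c (S.ch y)).source := S.ch_eq y ▸ M.mem y

theorem lt4 {k : S.κ} {y : Y} (h : y ∈ (S.c k).source) : ‖S.c k y‖ < 4 := by
  have := (S.c k).map_source h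
  rwa [S.tgt, mem_ball_zero_iff] at this

theorem memB {k : S.κ} {z : V ι} {r : ℝ} (h : ‖z‖ ≤ r) (hr : r < 4) : (S.c k).symm z ∈ S.B k r :=
  ⟨(S.c k).map_target (tgt (h.trans_lt hr)), by
    rw [mem_preimage, (S.c k).right_inv (tgt (h.trans_lt hr))]; exact mem_closedBall_zero_iff.2 h⟩

/-- a weight with poles in disjoint sheets. -/
theorem weight [T2Space Y] (hA : S.BasA) {m : ℕ} (k : Fin m → S.κ)
    (hd : ∀ i j x, x ∈ S.B (k i) 3 → x ∈ S.B (k j) 3 → i = j) (P : Fin m → V ι → ℝ)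
    (hP : ∀ i, ContDiff ℝ ∞ (P i)) (h0 : ∀ i z, 3 < ‖z‖ → P i z = 0) :
    ∃ ψ : Y → ℝ, M.Ck ∞ ψ ∧ HasCompactSupport ψ ∧
      (∀ i, ∀ x ∈ S.B (k i) 3, ψ =ᶠ[𝓝 x] fun y => P i (S.c (k i) y)) ∧
      ∀ x, (∀ i, x ∉ S.B (k i) 3) → ψ =ᶠ[𝓝 x] fun _ => 0 := by
  have e := fun i => hA.extR (k i) 3 (by norm_num) (P i) (hP i) (h0 i)
  have z0 : ∀ j x, x ∉ S.B (k j) 3 → ∀ᶠ y in 𝓝 x, S.extR (k j) (P j) y = 0 := fun j x hx =>
    notMem_tsupport_iff_eventuallyEq.1 fun h => hx ((e j).2.2 h)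
  refine ⟨fun y => ∑ i, S.extR (k i) (P i) y, fun c hc z hz => ?_, ?_, fun i x hx => ?_,
    fun x hx => ?_⟩
  · have := ContDiffAt.sum (s := Finset.univ) fun i _ => (e i).1 c hc z hz
    refine this.congr_of_eventuallyEq (Eventually.of_forall fun w => ?_)
    simp only [fn, ofReal_sum]
  · refine HasCompactSupport.intro (isCompact_iUnion fun i => hA.cpt (k i) 3 (by norm_num))
      fun x hx => Finset.sum_eq_zero fun i _ => ?_
    exact (z0 i x fun h => hx (mem_iUnion.2 ⟨i, h⟩)).self_of_nhds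
  · have h1 : ∀ᶠ y in 𝓝 x, ∀ j, j ≠ i → S.extR (k j) (P j) y = 0 := eventually_all.2 fun j => by
      by_cases hj : j = i
      · exact Eventually.of_forall fun _ h => (h hj).elim
      · exact (z0 j x fun h => hj (hd j i x h hx)).mono fun _ h _ => h
    filter_upwards [h1, (S.c (k i)).open_source.mem_nhds hx.1] with y a b
    rw [Finset.sum_eq_single i (fun j _ hj => a j hj) (by simp), St.extR, if_pos b]
  · filter_upwards [eventually_all.2 fun j => z0 j x (hx j)] with y a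
    exact Finset.sum_eq_zero fun j _ => a j

/-- positivity is tested in a sheet. -/
theorem psd_of {ψ : Y → ℝ} (hψ : M.Ck ∞ ψ) (t : ℝ) {k : S.κ} {x : Y}
    (hx : x ∈ (S.c k).source) {P : V ι → ℝ} (e : ψ =ᶠ[𝓝 x] fun y => P (S.c k y))
    (h : ((t : ℂ) • S.H (S.ty k) (S.c k x) + levi (fun w => (P w : ℂ)) (S.c k x)).PosSemidef) :
    ((t : ℂ) • g x + M.ddc ψ x).PosSemidef := by
  have hz := (S.c k).map_source hx
  have ha := AY.repA' ι Y M
  have l := (AY.repB' ι Y M).ddc_rep ψ _ (S.mem k) _ hx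
    ((hψ _ (S.mem k) _ hz).of_le (by norm_cast))
  have l2 : M.repF (fun y => (t : ℂ) • g y + M.ddc ψ y) (S.c k) (S.c k x) =
      (t : ℂ) • S.H (S.ty k) (S.c k x) + levi (fn ψ (S.c k)) (S.c k x) := by
    rw [← l, ← S.rep_g k _ (mem_ball_zero_iff.2 (lt4 hx))]
    simp only [Atl.repF, pull, Matrix.mul_add, Matrix.add_mul, Matrix.mul_smul, Matrix.smul_mul]
  have l3 := ha.repF_self (fun y => (t : ℂ) • g y + M.ddc ψ y) x
  rw [ha.repF_tr _ _ (M.ch_mem x) _ (S.mem k) x (M.mem x) hx] at l3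
  rw [← l3]
  refine (mat.pull_pd ι _ _ (ha.tj_det _ (M.ch_mem x) _ (S.mem k) x (M.mem x) hx)).2.1 ?_
  rw [l2, levi_congr (g := fun w => (P w : ℂ))]
  · exact h
  · have c := (S.c k).continuousAt_symm hz
    rw [ContinuousAt, (S.c k).left_inv hx] at c
    filter_upwards [c.eventually e, (S.c k).open_target.mem_nhds hz] with w a b
    rw [fn, a, (S.c k).right_inv b]

theorem finT {ψ : Y → ℝ} (h : HasCompactSupport ψ) : FinT S.toSt ψ := by
  refine ⟨fun _ _ => 0, fun _ _ _ => contDiffAt_const, (S.fin _ h 3 (by norm_num)).subset ?_⟩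
  intro k hk
  by_contra hn
  refine hk fun z hz => ?_
  have z3 := mem_ball_zero_iff.1 hz
  have hm : (S.c k).symm z ∈ S.B k 3 := memB z3.le (by norm_num)
  exact image_eq_zero_of_notMem_tsupport fun hs =>
    hn ⟨_, hs, hm.1, mem_closedBall_zero_iff.1 hm.2⟩

/-- the metric dominates the identity matrix. -/
theorem dom (hA : S.BasA) (C : ℝ) (hC : 0 ≤ C) : ∃ t ≥ (0 : ℝ), ∀ a, ∀ z : V ι, ‖z‖ ≤ 3 →
    ∀ B : Mat ι, ((C : ℂ) • (1 : Mat ι) + B).PosSemidef → ((t : ℂ) • S.H a z + B).PosSemidef := by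
  obtain ⟨L, -, hL⟩ := hA.bd 3 (by norm_num)
  obtain ⟨c, hc, k⟩ := Mat.nv ι L
  refine ⟨C * Fintype.card ι / c, by positivity, fun a z hz B hB => ?_⟩
  have hH := (S.kon a).2 z (mem_ball_zero_iff.2 (by linarith))
  have h1 : (((C * Fintype.card ι / c : ℝ) : ℂ) • S.H a z - (C : ℂ) • (1 : Mat ι)).PosSemidef := by
    refine psd ((herm_smul _ hH.1).sub (herm_smul _ isHermitian_one)) fun v => ?_
    have a1 := mul_le_mul_of_nonneg_left (k _ hH (hL a z hz).1 (hL a z hz).2.1 v).1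
      (show 0 ≤ C * Fintype.card ι / c by positivity)
    have a2 := mul_le_mul_of_nonneg_left (nq_le 0 v) hC
    rw [← mul_assoc, div_mul_cancel₀ _ hc.ne'] at a1
    simp only [nq, Pi.zero_apply, sub_zero] at a2
    rw [nV_sub, nV_smul, nV_smul, nV_one]
    linarith
  have := h1.add hB
  rwa [← add_assoc, sub_add_cancel] at this

theorem ip1_zero (hC : T.BasC) {σ : Y → ℂ} (hσ : S.Sm T.U σ) {k : S.κ}
    {x : Y} (hx : x ∈ (S.c k).source) (e : S.rep T.U σ k =ᶠ[𝓝 (S.c k x)] fun _ => 1) :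
    S.ip1 T.U g σ σ x = 0 := by
  have h := hC.ip1 g σ σ hσ hσ k x hx
  have h0 : shp (S.H (S.ty k)) (S.rep T.U σ k) (S.c k x) = 0 := by
    funext i
    simp only [shp, dzb_congr e, dzb_const, mul_zero, Finset.sum_const_zero, Pi.zero_apply]
  have hH := (S.kon (S.ty k)).2 (S.c k x) (mem_ball_zero_iff.2 (by linarith [lt4 hx]))
  rw [h0] at h
  simp only [ipV, Pi.zero_apply, mul_zero, zero_mul, Finset.sum_const_zero] at h
  exact (mul_eq_zero.1 h).resolve_left (ofReal_ne_zero.2 (Mat.det' hH).1.ne')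

end ItpL

open ItpL HS.Pole in
theorem itpS {ι Y : Type} [Fintype ι] [DecidableEq ι] [TopologicalSpace Y] [T2Space Y]
    [MeasurableSpace Y] [BorelSpace Y] {M : Atl ι Y} {g : Y → Mat ι} {ν : Measure Y}
    {S : Sg M g ν} (hA : S.BasA) : S.ItpS := by
  obtain ⟨χ, χ1, χ2, χ3, χ4, χ5⟩ := AN.Itp.bump ι
  obtain ⟨C, C0, hP⟩ := pole χ1 χ2 χ3 (isCompact_closedBall (0 : V ι) 1) isOpen_ball
    (closedBall_subset_ball one_lt_two) χ4
  set n := Fintype.card ι with hn
  set q : ℝ := ((n + 1 : ℕ) : ℝ) with hq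
  have q0 : 0 < q := by positivity
  obtain ⟨t, t0, ht⟩ := dom hA (q * C) (by positivity)
  refine ⟨t + 1, by linarith, fun ξ T hT hξ m y hd => ?_⟩
  have hB := hT.b
  have hC := hT.c
  obtain ⟨D, D0, hmv⟩ := hT.mv
  have := hA.fin
  let k : Fin m → S.κ := fun i => S.ch (y i)
  let z : Fin m → V ι := fun i => S.c (k i) (y i)
  have z1 : ∀ i, ‖z i‖ < 1 := fun i => S.ch_lt _
  have hu := fun i => hB.ext (k i) 3 (by norm_num) (fun w => (χ w : ℂ))
    ⟨ofRealCLM.contDiff.comp χ1, fun w hw => by simp [χ5 w hw]⟩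
  set u : Fin m → Y → ℂ := fun i => S.ext T.U (k i) fun w => (χ w : ℂ)
  have ur : ∀ i j, ∀ w ∈ ball (0 : V ι) 2, S.rep T.U (u i) (k j) w = (1 : Matrix _ _ ℂ) i j := by
    intro i j w hw
    have w2 := mem_ball_zero_iff.1 hw
    by_cases e : i = j
    · subst e
      rw [(hu i).2.1 w (mem_ball_zero_iff.2 (by linarith)), χ4 w hw, one_apply_eq, ofReal_one]
    · have hw3 : (S.c (k j)).symm w ∈ S.B (k j) 3 := memB (by linarith) (by norm_num)
      have := (hB.zero (u i) (k j) _ hw3.1).2 (image_eq_zero_of_notMem_tsupport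
        fun h => e (hd i j _ ((hu i).2.2.2 h) hw3))
      rwa [(S.c (k j)).right_inv (tgt (by linarith)), ← one_apply_ne e] at this
  have off : ∀ i x, x ∉ S.B (k i) 3 → S.ip1 T.U g (u i) (u i) x = 0 := fun i x hx => by
    have := (hC.off (fun _ => 0) (u i) x (notMem_tsupport_iff_eventuallyEq.1
      fun h => hx ((hu i).2.2.2 h))).2
    simp [Sg.ip1, this, ipV]
  have nn : ∀ i x, 0 ≤ (S.ip1 T.U g (u i) (u i) x).re := fun i x =>
    hC.nn g _ x (hA.det x).1.posSemidef
  have ig : ∀ i, Integrable (fun x => (S.ip1 T.U g (u i) (u i) x).re * Real.exp (q * C)) ν :=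
    fun i => ((continuous_re.comp (hC.cont g _ _ (fun e he => (S.kg e he).1.1) (hu i).1.1
      (hu i).1.1)).mul continuous_const).integrable_of_hasCompactSupport
      (HasCompactSupport.intro (hA.cpt (k i) 3 (by norm_num)) fun x hx => by
        change (S.ip1 T.U g (u i) (u i) x).re * _ = 0
        rw [off i x hx, zero_re, zero_mul])
  let A : Fin m → ℝ := fun i => ∫ x, (S.ip1 T.U g (u i) (u i) x).re * Real.exp (q * C) ∂ν
  let K : Fin m → Fin m → ℝ := fun i j => (S.H (S.ty (k j)) (z j)).det.re *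
    Real.exp (T.ρ (S.ty (k j)) (z j)) * (D * q ^ (n + 1) * (2 * A i + 1))
  have key : ∀ τ : ℝ, 0 < τ → τ ≤ 1 / 2 → ∃ h : Fin m → Y → ℂ, ∀ i, S.H2 T.U (h i) ∧ ∀ j,
      ‖S.rep T.U (h i) (k j) (z j) - (1 : Matrix _ _ ℂ) i j‖ ^ 2 ≤ K i j * τ ^ 2 := by
    intro τ τ0 τ1
    have δ0 : 0 < τ ^ 2 := by positivity
    have hδ : τ ^ 2 ∈ Ioc (0 : ℝ) 1 := ⟨δ0, by nlinarith⟩
    have hp := fun i => hP _ hδ (z i) (mem_closedBall_zero_iff.2 (z1 i).le)
    have sm := fun i => χ1.mul (cd_lp (z i) δ0)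
    obtain ⟨ψ, ψ1, ψ2, ψ3, ψ4⟩ := weight hA k hd (fun i w => q * (χ w * lp (z i) (τ ^ 2) w))
      (fun i => contDiff_const.mul (sm i)) fun i w hw => by simp [χ5 w hw]
    have pos : ∀ x, ((t : ℂ) • g x + M.ddc ψ x).PosSemidef := fun x => by
      by_cases hx : ∃ i, x ∈ S.B (k i) 3
      · obtain ⟨i, hi⟩ := hx
        refine psd_of ψ1 t hi.1 (P := fun w => q * (χ w * lp (z i) (τ ^ 2) w)) (ψ3 i x hi)
          (ht _ _ (mem_closedBall_zero_iff.1 hi.2) _ ?_)
        have := (hp i (S.c (k i) x)).1.smul (zero_le_real.2 q0.le)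
        rw [smul_add, smul_smul, ← ofReal_mul, ← levi_cmul _
          (contDiffAt_ofReal.2 ((sm i).contDiffAt.of_le (by norm_cast)))] at this
        simpa only [ofReal_mul] using this
      · refine psd_of ψ1 t (src (S := S) x) (P := fun _ => 0) (ψ4 x (not_exists.1 hx)) ?_
        rw [levi_const, add_zero, ← (hA.det x).2.2]
        exact (hA.det x).1.posSemidef.smul (zero_le_real.2 t0)
    have p1 : ∀ i, S.p1 T.U ψ (u i) (u i) ≤ A i := fun i => by
      refine integral_mono_of_nonneg (Eventually.of_forall fun x =>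
        mul_nonneg (nn i x) (Real.exp_pos _).le) (ig i) (Eventually.of_forall fun x => ?_)
      by_cases hx : x ∈ S.B (k i) 3
      · by_cases h2 : S.c (k i) x ∈ ball (0 : V ι) 2
        · simp [ip1_zero (σ := u i) hC (hu i).1.1 hx.1 ((isOpen_ball.eventually_mem h2).mono
            fun w hw => (ur i i w hw).trans (one_apply_eq i))]
        · refine mul_le_mul_of_nonneg_left (Real.exp_le_exp.2 ?_) (nn i x)
          rw [(ψ3 i x hx).self_of_nhds]
          nlinarith [mul_le_mul_of_nonneg_left ((hp i _).2.2 h2) q0.le]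
      · simp [off i x hx]
    obtain ⟨B, hB'⟩ := ((AY.repA' ι Y M).cont ψ fun e he z hz =>
      (ψ1 e he z hz).of_le zero_le).bounded_above_of_compact_support ψ2
    have pos' : ∀ x, (ξ x + M.ddc ψ x - ((1 : ℝ) : ℂ) • g x).PosSemidef := fun x => by
      have := (hξ x).add (pos x)
      rw [ofReal_add, add_smul] at this
      convert this using 1
      abel
    choose h h1 h2 h3 using fun i => hT.hor 1 B ψ (u i) one_pos ψ1 (finT ψ2)
      (fun x => (le_abs_self _).trans (hB' x)) pos' (hu i).1 1 one_pos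
    refine ⟨h, fun i => ⟨h1 i, fun j => ?_⟩⟩
    set v : Y → ℂ := fun x => u i x - h i x
    have b2 : closedBall (z j) τ ⊆ ball 0 2 := closedBall_subset_ball' (by
      rw [dist_zero_right]; linarith [z1 j])
    have vr : ∀ w ∈ ball (0 : V ι) 2, S.rep T.U v (k j) w =
        (1 : Matrix _ _ ℂ) i j - S.rep T.U (h i) (k j) w := fun w hw => by
      have := hB.lin 1 (-1) (u i) (h i) (k j) w
      simp only [one_mul, neg_mul, ← sub_eq_add_neg] at this
      rw [this, ur i j w hw]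
    have an : AnalyticOnNhd ℂ (S.rep T.U v (k j)) (closedBall (z j) τ) := fun w hw =>
      (analyticAt_const.sub ((hB.hol_an _ (h1 i).1).2 (k j) w
        (ball_subset_ball (by norm_num) (b2 hw)))).congr
        ((isOpen_ball.eventually_mem (b2 hw)).mono fun a ha => (vr a ha).symm)
    have m1 := hmv v (k j) (z j) τ τ0 τ1 (by linarith [z1 j]) an
    rw [(S.c (k j)).left_inv (src (y j))] at m1
    have w0 : ∀ x, 0 ≤ ‖v x‖ ^ 2 * Real.exp (-ψ x) := fun x =>
      mul_nonneg (sq_nonneg _) (Real.exp_pos _).le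
    have m2 : ∫ x in (S.c (k j)).source ∩ S.c (k j) ⁻¹' closedBall (z j) τ, ‖v x‖ ^ 2 ∂ν ≤
        (q * τ ^ 2) ^ (n + 1) * (2 * A i + 1) := by
      have ms := hA.ms (k j) _ (measurableSet_closedBall (x := z j) (ε := τ))
      calc _ ≤ ∫ x in (S.c (k j)).source ∩ S.c (k j) ⁻¹' closedBall (z j) τ,
            (q * τ ^ 2) ^ (n + 1) * (‖v x‖ ^ 2 * Real.exp (-ψ x)) ∂ν := by
            refine integral_mono_of_nonneg (Eventually.of_forall fun x => sq_nonneg _)
              ((h2 i).const_mul _).integrableOn ((ae_restrict_mem ms).mono fun x hx => ?_)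
            have x2 := b2 hx.2
            have x3 : x ∈ S.B (k j) 3 :=
              ⟨hx.1, ball_subset_closedBall (ball_subset_ball (by norm_num) x2)⟩
            have n0 := nq_pos (z j) (S.c (k j) x) δ0
            have n1 : nq (z j) (S.c (k j) x) + τ ^ 2 ≤ q * τ ^ 2 := by
              have := pow_le_pow_left₀ (norm_nonneg _) (mem_closedBall_iff_norm.1 hx.2) 2
              have := mul_le_mul_of_nonneg_left this (Nat.cast_nonneg n)
              have := nq_le (z j) (S.c (k j) x)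
              rw [hq]; push_cast; linarith
            have e : Real.exp (-ψ x) = ((nq (z j) (S.c (k j) x) + τ ^ 2) ^ (n + 1))⁻¹ := by
              rw [(ψ3 j x x3).self_of_nhds]
              beta_reduce
              rw [χ4 _ x2, one_mul, Real.exp_neg, hq, Real.exp_nat_mul, Pole.lp, Real.exp_log n0]
            have n2 := pow_le_pow_left₀ n0.le n1 (n + 1)
            beta_reduce
            rw [e, mul_left_comm]
            exact le_mul_of_one_le_right (sq_nonneg _)
              ((one_le_div (pow_pos n0 _)).2 n2)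
        _ ≤ _ := by
            rw [integral_const_mul]
            refine mul_le_mul_of_nonneg_left ((setIntegral_le_integral (h2 i)
              (Eventually.of_forall w0)).trans ((h3 i).trans ?_)) (by positivity)
            linarith [p1 i]
    have m3 : ‖v (y j)‖ ^ 2 ≤ D * q ^ (n + 1) * (2 * A i + 1) * τ ^ 2 := by
      refine le_of_mul_le_mul_right (m1.trans ((mul_le_mul_of_nonneg_left m2 D0).trans
        (le_of_eq ?_))) (pow_pos τ0 (2 * n))
      ring
    have m4 := hB.dn v (k j) (y j) (src (y j))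
    have hH' := (S.kon (S.ty (k j))).2 (z j) (mem_ball_zero_iff.2 (by linarith [z1 j]))
    rw [vr _ (mem_ball_zero_iff.2 (by linarith [z1 j])), Real.exp_neg, ← div_eq_mul_inv,
      eq_div_iff (Real.exp_pos _).ne'] at m4
    rw [norm_sub_rev, ← m4, mul_right_comm, mul_assoc _ _ (τ ^ 2)]
    exact mul_le_mul_of_nonneg_left m3 (mul_pos (Mat.det' hH').1 (Real.exp_pos _)).le
  have ev : ∀ᶠ τ in 𝓝[>] (0 : ℝ), ∀ i j, (m : ℝ) ^ 2 * (K i j * τ ^ 2) < 1 :=
    eventually_all.2 fun i => eventually_all.2 fun j => nhdsWithin_le_nhds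
      ((show Continuous fun τ : ℝ => (m : ℝ) ^ 2 * (K i j * τ ^ 2) by fun_prop).continuousAt
        |>.eventually (gt_mem_nhds (by simp)))
  obtain ⟨τ, τ2, τ0⟩ := (ev.and (Ioc_mem_nhdsGT (show (0 : ℝ) < 1 / 2 by norm_num))).exists
  obtain ⟨h, hh⟩ := key τ τ0.1 τ0.2
  refine ⟨h, fun i => (hh i).1, fun d hd0 => by_contra fun d0 => ?_⟩
  have dt := det_ne_of_near (A := Matrix.of fun i j => S.rep T.U (h i) (k j) (z j)) fun i j => by
    rw [Fintype.card_fin, of_apply, ← sq_lt_one_iff₀ (by positivity), mul_pow]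
    exact (mul_le_mul_of_nonneg_left ((hh i).2 j) (sq_nonneg _)).trans_lt (τ2 i j)
  obtain ⟨j, hj⟩ := jet_ne dt d0
  refine hj ?_
  simp only [of_apply, z, k, hB.pt _ _ _ (src (y j)), mul_left_comm _ (T.U _ _)]
  rw [← Finset.mul_sum, hd0 j, mul_zero]

end Pool.Agent.Lib.MP_813db1_ag.SV
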