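import Pool.Agent.Lib.MP_813db1_ag.SV.Sec
import Pool.Agent.Lib.MP_813db1_ag.AN.Pole

/-! Assembly. -/

namespace Pool.Agent.Lib.MP_813db1_ag.SV

open Pool.Agent.Lib.MP_813db1_ag.HS Pool.Agent.Lib.MP_813db1_ag.AS Pool.Agent.Lib.MP_813db1_ag.AN
open MeasureTheory Complex Matrix Filter Topology Set Metric
open scoped ContDiff ComplexOrder ENNReal Manifold

namespace MainA

variable {ι X : Type} [Fintype ι] [DecidableEq ι] [TopologicalSpace X] {M : Atl ι X}
  {g β : X → Mat ι} {N : X → ℝ}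

theorem ddc_pow (h : QB M β N) (q : ℝ) {x : X} (hx : 0 < N x) :
    M.ddc (fun z => Real.log (N z ^ q)) x = (q : ℂ) • M.ddc (fun z => Real.log (N z)) x := by
  have h1 := (M.ch x).map_source (M.mem x)
  have h2 : 0 < N ((M.ch x).symm (M.ch x x)) := by rwa [(M.ch x).left_inv (M.mem x)]
  have h3 : ContDiffAt ℝ ∞ (fun w => N ((M.ch x).symm w)) (M.ch x x) :=
    reCLM.contDiff.contDiffAt.comp _ (h.sm _ (M.ch_mem x) _ h1 h2)
  have h4 : ContDiffAt ℝ 2 (fn (fun z => Real.log (N z)) (M.ch x)) (M.ch x x) :=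
    (ofRealCLM.contDiff.contDiffAt.comp _ (h3.log h2.ne')).of_le (by norm_cast)
  rw [Atl.ddc, Atl.ddc, ← levi_cmul _ h4]
  refine levi_congr ?_
  filter_upwards [h3.continuousAt.eventually (lt_mem_nhds h2)] with w hw
  simp only [fn]
  rw [Real.log_rpow hw, ofReal_mul]

theorem qb_pow (h : QB M β N) {q : ℝ} (hq : 0 < q) :
    QB M (fun x => (q : ℂ) • β x) fun x => N x ^ q := by
  have pos : ∀ x, 0 < N x ^ q → 0 < N x := fun x hx => (h.nn x).lt_of_ne' fun e => by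
    rw [e, Real.zero_rpow hq.ne'] at hx
    exact hx.false
  refine ⟨h.cont.rpow_const fun _ => Or.inr hq.le, fun x => Real.rpow_nonneg (h.nn x) q,
    fun e he z hz h0 => ?_, fun x hx => ?_⟩
  · have h3 : ContDiffAt ℝ ∞ (fun w => N (e.symm w)) z :=
      reCLM.contDiff.contDiffAt.comp _ (h.sm _ he _ hz (pos _ h0))
    exact ofRealCLM.contDiff.contDiffAt.comp _ (h3.rpow_const_of_ne (pos _ h0).ne')
  · rw [ddc_pow h q (pos x hx), ← smul_add]
    exact (h.psd x (pos x hx)).smul (zero_le_real.2 hq.le)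

theorem det_half {T H : Mat ι} (hT : T.PosSemidef) (hH : H.PosDef) {a ε : ℝ} (ha : 1 / 2 ≤ a)
    (hε : 0 < ε) : (1 / 2) ^ Fintype.card ι * (T + ((2 * ε : ℝ) : ℂ) • H).det.re ≤
      ((a : ℂ) • T + (ε : ℂ) • H).det.re := by
  have h1 : (((1 / 2 : ℝ) : ℂ) • (T + ((2 * ε : ℝ) : ℂ) • H)).PosDef :=
    (PosDef.posSemidef_add hT (hH.smul (zero_lt_real.2 (by positivity)))).smul
      (zero_lt_real.2 (by norm_num))
  have h2 := Pole.det_mono h1 (hT.smul (zero_le_real.2 (sub_nonneg.2 ha)))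
  rw [det_smul, ← ofReal_pow, re_ofReal_mul] at h2
  refine h2.trans_eq ?_
  congr 2
  push_cast
  module

end MainA

open MainA in
theorem main (hmax : MaxAtlS) (ha : RepA) (hb : RepB) (hv : VolS) (hK : PackS) (h1 : SelfS)
    (h2 : PolS) (h3 : BrtS) (h4 : SecS) (h5 : FamS) (h6 : SphS) (h7 : BerS) (h8 : EndS)
    (h9 : TopS) : MainS := by
  intro ι _ _ _
  obtain ⟨c, hc, h7⟩ := h7 ι
  refine ⟨c / 8 ^ Fintype.card ι / 2, by positivity, ?_⟩
  intro X Y G _ _ _ _ _ _ _ _ _ _ _ _ K μ p v hp hP hμ' hv0 hS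
  obtain ⟨MX, gX, hA, hch, hg, hrep⟩ := hmax ι X K
  obtain ⟨⟨μ0, hμ⟩, hV0⟩ := hv ι X MX gX hg
  obtain rfl : μ = μ0 := by
    refine (hV0 μ0 hμ).uniq μ fun x => ?_
    rw [hμ _ (MX.ch_mem x), hch x, hμ' _ (chart_mem_atlas _ x)]
    congr 1
    refine withDensity_congr_ae ?_
    filter_upwards [ae_restrict_mem (chartAt (ι → ℂ) x).open_target.measurableSet] with w hw
    rw [hrep _ (chart_mem_atlas _ x) w hw]
  obtain ⟨N, σ, hσ0, -⟩ := h9 ι X K MX gX hA hg hrep hP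
  obtain ⟨O, hO, hO'⟩ := SecA.cov hσ0
  obtain ⟨M, g, S0, L, e1, e2, l1⟩ := h1 ι X MX gX O hg hO
  have hσ : Prj M g σ := ⟨hσ0.nrm, hσ0.op, e1 ▸ hσ0.an, fun e he z hz j hj => by
    rw [e2 e he z hz, hσ0.lv e (e1 ▸ he) z hz j hj]⟩
  have hν : M.IsVol g μ := fun e he => by
    rw [hμ e (e1 ▸ he)]
    congr 1
    refine withDensity_congr_ae ?_
    filter_upwards [ae_restrict_mem e.open_target.measurableSet] with w hw
    rw [e2 e he w hw]
  have hA' : atlas (ι → ℂ) X ⊆ M.A := e1 ▸ hA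
  have hr' : ∀ e ∈ atlas (ι → ℂ) X, ∀ z ∈ e.target, M.repF g e z = K.g e z := fun e he z hz => by
    rw [e2 e (hA' he) z hz, hrep e he z hz]
  have kg := S0.kg
  let S : Sg M g μ := ⟨S0, hν, fun b => resS ι X M g (L.e b) _ kg (L.mem b) (L.tgt b) (L.rep b)⟩
  obtain ⟨τ, hτ⟩ := h3 ι X M g N σ hσ
  obtain ⟨P, p1, p2⟩ := h2 ι X X M g N σ τ id M g μ S L kg (Homeomorph.refl X).isLocalHomeomorph hσ
    hτ fun a => by
      obtain ⟨x, hx⟩ := l1 a
      obtain ⟨j, hj⟩ := hO' x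
      exact ⟨j, fun y hy => hj y (hx hy)⟩
  obtain ⟨bA, bB, ⟨s1, -, bN⟩, -, bE, bR⟩ := hK ι X M g μ S P _ p1
  have ber := h7 X M g μ S P bA bB bE
  obtain ⟨s0, sec⟩ := h4 ι X Y G M g N σ p kg hσ hp
  have sph : SphA M g μ G p v := ⟨chartAt (ι → ℂ), fun x => ⟨hA' (chart_mem_atlas _ x),
    mem_chart_source _ x⟩, fun f t f1 f2 f3 f4 f5 => by
      refine (hS f t f1 f2 (fun e he z hz s s1 s2 => f3 e (hA' he) z hz s ⟨s1, s2⟩) f4
        f5).trans_eq (lintegral_congr fun x => ?_)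
      rw [hr' _ (chart_mem_atlas _ x) _ (mem_chart_target _ x)]⟩
  have fin := h8 (Fintype.card ι) (c * (v / 8 ^ Fintype.card ι)) (fun a b r => S.Cnt (P.U a b) r)
    (fun a b => ∃ s, S.Hol (P.U a b) s ∧ ∃ x, s x ≠ 0) Fintype.card_pos (by positivity)
    (fun a b r r' h ⟨Q, s, q1, q2⟩ => ⟨Q, s, h.trans q1, q2⟩)
    (fun a b r h ⟨Q, s, q1, q2, q3⟩ => by
      have hQ : 0 < Q := Nat.cast_pos.1 (h.trans_le q1)
      exact ⟨s ⟨0, hQ⟩, q2 _, Function.ne_iff.1 (q3.ne_zero _)⟩)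
    (by
      obtain ⟨h, a1, a2⟩ := bN (Classical.arbitrary X)
      exact ⟨s1, h, a1.1, _, a2⟩) ?_ (bR inferInstance)
  · obtain ⟨N', σ', -, cv⟩ := h9 ι X K M g hA' kg hr' hP
    filter_upwards [fin] with a ⟨Q, s, q1, q2, q3⟩
    obtain ⟨s', c1, c2⟩ := cv a Q s (fun i e he z hz _ _ t ht => by
      obtain ⟨j, hj⟩ := hO' (e.symm z)
      simpa using (p2 a 0 _).2 (q2 i) e he z hz j (hj _ (hO _).2) t ht) q3
    exact ⟨Q, s', le_of_eq_of_le (by ring) q1, c1, c2⟩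
  rintro m k hm ⟨s, a1, a2⟩ ε hε
  obtain ⟨j0, hj0⟩ := exists_nat_ge (4 * s0 / ε)
  obtain ⟨r, s', r1, r2, r3, r4, b1, b2, b3⟩ := sec m k j0 s ((p2 _ _ _).2 a1) a2
  have hkm : ((j0 * k + s0 : ℕ) : ℝ) / (j0 * m + 1 : ℕ) ≤ k / m + ε / 4 := by
    have m1 : (1 : ℝ) ≤ m := by exact_mod_cast hm
    have j1 : (0 : ℝ) ≤ j0 := j0.cast_nonneg
    have k1 : 0 ≤ (k : ℝ) / m := by positivity
    have k2 : (k : ℝ) / m * m = k := by field_simp
    rw [div_le_iff₀ hε] at hj0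
    push_cast
    rw [div_le_iff₀ (by positivity)]
    nlinarith [mul_le_mul_of_nonneg_left m1 (mul_nonneg j1 hε.le)]
  generalize j0 * k + s0 = k' at *
  have hm' : 1 ≤ j0 * m + 1 := by omega
  generalize j0 * m + 1 = m' at *
  have m1 : (0 : ℝ) < m' := by exact_mod_cast hm'
  obtain ⟨F, N', fam⟩ := h5 ι X Y G M g μ N σ p m' k' r (ε / 4) s' kg hν hσ hp r1 r2
    (by positivity) b1 b2 b3
  have cl : M.ClF (th M g (r / 2 * m') (r / 2 * k' + ε / 4)) := by
    have c1 := (ha ι X M).clF_add _ _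
      ((ha ι X M).clF_smul (-(r / 2 * m')) _ ((hb ι X M).ric_cl g kg))
      ((ha ι X M).clF_smul (r / 2 * k' + ε / 4) _ (((ha ι X M).isK_iff g).1 kg).1)
    convert c1 using 2 with x
    simp only [th, ofReal_neg, neg_smul, smul_neg]
  have lo := h6 ι X Y G M g _ μ p F N' v (2 * (ε / 4)) kg hν cl hp fam sph (by positivity)
  have q0 : 0 < 2 / r := by positivity
  have et : th M g m' (k' + 2 / r * (ε / 4)) =
      fun x => ((2 / r : ℝ) : ℂ) • th M g (r / 2 * m') (r / 2 * k' + ε / 4) x := by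
    funext x
    have : (r : ℂ) ≠ 0 := ofReal_ne_zero.2 r1.ne'
    simp only [th, smul_add, smul_smul]
    congr 2 <;> push_cast <;> field_simp
  have es : {y | 0 < N' y ^ (2 / r)} = {y | 0 < N' y} := Set.ext fun y =>
    ⟨fun h => (fam.qb.nn y).lt_of_ne' fun e => by
      simp [e, Real.zero_rpow q0.ne'] at h, fun h => Real.rpow_pos_of_pos h _⟩
  have cnt := ber m' k' (2 / r * (ε / 4)) (ε / 4) (v / 8 ^ Fintype.card ι) (fun x => N' x ^ (2 / r))
    hm' (by positivity) (by positivity) (et ▸ qb_pow fam.qb q0) (by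
      refine measure_mono_null (fun y hy => ?_) fam.null
      exact (Real.rpow_eq_zero (fam.qb.nn y) q0.ne').1 hy) (by
      rw [es, show v / 8 ^ Fintype.card ι = (1 / 2) ^ Fintype.card ι * (v / 4 ^ Fintype.card ι) by
        rw [show (8 : ℝ) = 2 * 4 by norm_num, mul_pow, one_div, inv_pow]; field_simp,
        ENNReal.ofReal_mul (by positivity)]
      refine (mul_le_mul_right lo _).trans ?_
      rw [← lintegral_const_mul' _ _ ENNReal.ofReal_ne_top]
      refine setLIntegral_mono' (isOpen_lt continuous_const fam.qb.cont).measurableSet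
        fun x hx => ?_
      rw [← ENNReal.ofReal_mul (by positivity)]
      refine ENNReal.ofReal_le_ofReal ?_
      have d := det_half (fam.qb.psd x hx) (bA.det x).1 (a := 2 / r / m') (ε := ε / 4)
        (by rw [div_div, le_div_iff₀ (by positivity)]; linarith) (by positivity)
      simp only [rat, et, ddc_pow fam.qb _ hx, ← smul_add, smul_smul]
      rw [← mul_div_assoc]
      refine div_le_div_of_nonneg_right (d.trans_eq ?_) (bA.det x).2.1.le
      congr 4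
      push_cast
      ring)
  filter_upwards [cnt] with j ⟨b, c1, c2⟩
  refine ⟨b, c1.trans (mul_le_mul_of_nonneg_left ?_ j.cast_nonneg), c2⟩
  have : 2 / r * (ε / 4) / m' ≤ ε / 4 := by
    rw [div_le_iff₀ m1, div_mul_eq_mul_div, div_le_iff₀ r1]
    nlinarith
  rw [add_div]
  linarith

end Pool.Agent.Lib.MP_813db1_ag.SV
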