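import Pool.Agent.Lib.MP_813db1_ag.SV.StB

/-! Peak sections for a singular weight: statement. -/

namespace Pool.Agent.Lib.MP_813db1_ag.SV

open Pool.Agent.Lib.MP_813db1_ag.HS Pool.Agent.Lib.MP_813db1_ag.AS Pool.Agent.Lib.MP_813db1_ag.AN
open MeasureTheory Complex Matrix Filter Topology Set Metric
open scoped ContDiff ComplexOrder ENNReal Manifold

/-- a section that concentrates at a given point. -/
def Pol.Peak {ι Y : Type} [Fintype ι] [DecidableEq ι] [TopologicalSpace Y] [MeasurableSpace Y]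
    {M : Atl ι Y} {g : Y → Mat ι} {ν : Measure Y} {S : Sg M g ν} (P : Pol S) (c : ℝ) : Prop :=
  ∀ (m k : ℕ) (e ε : ℝ) (Q : Y → ℝ), 1 ≤ m → 0 ≤ e → 0 < ε → QB M (th M g m (k + e)) Q →
  ∀ y, 0 < Q y → ∀ᶠ j : ℕ in atTop, ∃ h,
    S.Hol (P.U j ⌈((j : ℝ) - 1) / m * (k + e) + ε * j⌉₊) h ∧
    Integrable (fun x => ‖h x‖ ^ 2 * Q x ^ (-(((j : ℝ) - 1) / m))) ν ∧ h y ≠ 0 ∧
    c * (j : ℝ) ^ Fintype.card ι * rat (fun x => ((m : ℂ)⁻¹) •
      (th M g m (k + e) x + M.ddc (fun z => Real.log (Q z)) x) + (ε : ℂ) • g x) g y *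
      ∫ x, ‖h x‖ ^ 2 * Q x ^ (-(((j : ℝ) - 1) / m)) ∂ν ≤
      ‖h y‖ ^ 2 * Q y ^ (-(((j : ℝ) - 1) / m))

/-- the constant depends only on the dimension. -/
def PeakS : Prop := ∀ (ι : Type) [Fintype ι] [DecidableEq ι] [Nonempty ι], ∃ c > (0 : ℝ),
  ∀ (Y : Type) [TopologicalSpace Y] [T2Space Y] [CompactSpace Y] [MeasurableSpace Y]
    [BorelSpace Y] (M : Atl ι Y) (g : Y → Mat ι) (ν : Measure Y) (S : Sg M g ν) (P : Pol S),
    S.BasA → P.Bn → P.HorE → P.Peak c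

end Pool.Agent.Lib.MP_813db1_ag.SV
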