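import Pool.Agent.Lib.MP_813db1_ag.SV.ResA
import Pool.Agent.Lib.MP_813db1_ag.SV.Loc

/-! Restriction to the divisor. -/

set_option autoImplicit false

namespace Pool.Agent.Lib.MP_813db1_ag.SV

open Pool.Agent.Lib.MP_813db1_ag.HS Pool.Agent.Lib.MP_813db1_ag.AS Pool.Agent.Lib.MP_813db1_ag.AN
open MeasureTheory Complex Matrix Filter Topology Set Metric Asymptotics
open scoped ContDiff ComplexOrder

theorem ResB.par {ι : Type} [Fintype ι] [DecidableEq ι] (τ : V ι → ℂ) (z : V ι)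
    (h : AnalyticAt ℂ τ z) (h0 : τ z = 0) (h1 : fderiv ℂ τ z ≠ 0) (O : Set (V ι)) (hO : O ∈ 𝓝 z) :
    ∃ R > (0 : ℝ), ∃ γ : (Fin (Fintype.card ι - 1) → ℂ) → V ι, AnalyticOnNhd ℂ γ (ball 0 R) ∧
      (∀ w ∈ ball 0 R, γ w ∈ O ∧ τ (γ w) = 0) ∧
      ∀ᶠ x in 𝓝 z, τ x = 0 → ∃ w, ‖w‖ ≤ R / 2 ∧ γ w = x := by
  obtain ⟨j, e, hz, a, a', he⟩ := Loc.chart h h1
  let q : {i // ¬ i = j} ≃ Fin (Fintype.card ι - 1) := Fintype.equivFinOfCardEq (by simp)
  let l : (Fin (Fintype.card ι - 1) → ℂ) →L[ℂ] V ι := ContinuousLinearMap.pi fun i =>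
    if hi : i = j then 0 else ContinuousLinearMap.proj (q ⟨i, hi⟩)
  have lj : ∀ w, l w j = 0 := fun w => by simp [l]
  have li : ∀ x : V ι, x j = 0 → l (fun t => x (q.symm t).1) = x := fun x hx => by
    funext i
    by_cases hi : i = j
    · rw [hi, lj, hx]
    · simp [l, hi]
  have al : AnalyticAt ℂ (fun w => e z + l w) 0 := analyticAt_const.add (l.analyticAt 0)
  have e0 : e z + l 0 = e z := by rw [map_zero, add_zero]
  have aγ : AnalyticAt ℂ (fun w => e.symm (e z + l w)) 0 := a'.comp_of_eq al e0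
  have t1 : ∀ᶠ w in 𝓝 0, e z + l w ∈ e.target :=
    al.continuousAt.eventually_mem (by rw [e0]; exact e.open_target.mem_nhds (e.map_source hz))
  have t2 : ∀ᶠ w in 𝓝 0, e.symm (e z + l w) ∈ O :=
    aγ.continuousAt.eventually_mem (by rwa [e0, e.left_inv hz])
  obtain ⟨R, hR, hb⟩ := Metric.eventually_nhds_iff_ball.1
    (aγ.eventually_analyticAt.and (t1.and t2))
  refine ⟨R, hR, _, fun w hw => (hb w hw).1, fun w hw => ⟨(hb w hw).2.2, ?_⟩, ?_⟩
  · rw [← he, e.right_inv (hb w hw).2.1, Pi.add_apply, he, h0, lj, add_zero]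
  · have c : ContinuousAt (fun x => ‖fun t => (e x - e z) (q.symm t).1‖) z :=
      (continuousAt_pi.2 fun t => (continuous_apply _).continuousAt.comp
        (a.continuousAt.sub continuousAt_const)).norm
    have t3 := c.eventually_lt (g := fun _ => R / 2) continuousAt_const (by
      have : (fun t => (e z - e z) (q.symm t).1) = 0 := by funext t; simp
      rw [this, norm_zero]; positivity)
    filter_upwards [t3, e.open_source.mem_nhds hz] with x hx hs hx0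
    refine ⟨_, hx.le, ?_⟩
    rw [li _ (by rw [Pi.sub_apply, he, he, hx0, h0, sub_zero]), add_sub_cancel, e.left_inv hs]

variable {ι Y : Type} [Fintype ι] [DecidableEq ι] [TopologicalSpace Y] [MeasurableSpace Y]
  {M : Atl ι Y} {g : Y → Mat ι} {ν : Measure Y} {S : Sg M g ν} (P : Pol S)

namespace ResB

theorem bd (hA : S.BasA) : ∃ L ≥ (1 : ℝ), ∀ (a b : ℕ) k (z z' : V ι), ‖z‖ ≤ 3 → ‖z'‖ ≤ 3 →
    0 < ‖P.U a b k ((S.c k).symm z)‖ ∧
    ‖P.U a b k ((S.c k).symm z')‖ ≤ L ^ (a + b) * ‖P.U a b k ((S.c k).symm z)‖ := by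
  obtain ⟨L, hL, h1⟩ := hA.bd 3 (by norm_num)
  have hb : ∀ z : V ι, ‖z‖ ≤ 3 → z ∈ ball (0 : V ι) 4 := fun z hz => by
    rw [mem_ball_zero_iff]; linarith
  have h2 : ∀ a, ∃ B, ∀ z ∈ closedBall (0 : V ι) 3, ‖P.φ a z‖ ≤ B := fun a =>
    (isCompact_closedBall 0 3).exists_bound_of_continuousOn fun z hz =>
      (P.φ_sm a z (hb z (mem_closedBall_zero_iff.1 hz))).1.continuousAt.continuousWithinAt
  choose B hB using h2
  obtain ⟨B0, hB0⟩ := (finite_range B).bddAbove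
  have h3 : ∀ a (z : V ι), ‖z‖ ≤ 3 → |P.φ a z| ≤ B0 := fun a z hz =>
    (hB a z (mem_closedBall_zero_iff.2 hz)).trans (hB0 (mem_range_self a))
  have hu : ∀ k (z : V ι), ‖z‖ ≤ 3 → ‖P.u k ((S.c k).symm z)‖ ^ 2 = Real.exp (P.φ (S.ty k) z) ∧
      ‖P.v k ((S.c k).symm z)‖ ^ 2 = (S.H (S.ty k) z).det.re := fun k z hz => by
    have ht : z ∈ (S.c k).target := by rw [S.tgt]; exact hb z hz
    have e1 := P.u_nrm k _ ((S.c k).map_target ht)
    have e2 := P.v_nrm k _ ((S.c k).map_target ht)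
    rw [(S.c k).right_inv ht] at e1 e2
    exact ⟨e1, e2⟩
  refine ⟨max L (Real.exp B0), le_max_of_le_left hL, fun a b k z z' hz hz' => ?_⟩
  obtain ⟨u1, v1⟩ := hu k z hz
  obtain ⟨u2, v2⟩ := hu k z' hz'
  obtain ⟨-, -, -, d1, -⟩ := h1 (S.ty k) z hz
  obtain ⟨-, -, -, -, d2⟩ := h1 (S.ty k) z' hz'
  have hL0 : 0 < L := by linarith
  have u0 : 0 < ‖P.u k ((S.c k).symm z)‖ := by
    refine (norm_nonneg _).lt_of_ne fun h => ?_
    rw [← h] at u1
    linarith [Real.exp_pos (P.φ (S.ty k) z)]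
  have v0 : 0 < ‖P.v k ((S.c k).symm z)‖ := by
    refine (norm_nonneg _).lt_of_ne fun h => ?_
    rw [← h] at v1
    linarith [inv_pos.2 hL0]
  have u3 : ‖P.u k ((S.c k).symm z')‖ ≤ max L (Real.exp B0) * ‖P.u k ((S.c k).symm z)‖ := by
    refine le_trans (le_of_sq_le_sq ?_ (by positivity))
      (mul_le_mul_of_nonneg_right (le_max_right _ _) u0.le)
    rw [mul_pow, u1, u2, ← Real.exp_nat_mul, ← Real.exp_add, Real.exp_le_exp]
    have := abs_le.1 (h3 (S.ty k) z hz)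
    have := abs_le.1 (h3 (S.ty k) z' hz')
    push_cast
    linarith
  have v3 : ‖P.v k ((S.c k).symm z')‖ ≤ max L (Real.exp B0) * ‖P.v k ((S.c k).symm z)‖ := by
    refine le_trans (le_of_sq_le_sq ?_ (by positivity))
      (mul_le_mul_of_nonneg_right (le_max_left _ _) v0.le)
    rw [mul_pow, v1, v2]
    calc _ ≤ L := d2
      _ = L ^ 2 * L⁻¹ := by field_simp
      _ ≤ _ := by gcongr
  simp only [Pol.U, norm_mul, norm_pow]
  refine ⟨by positivity, ?_⟩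
  calc _ ≤ (max L (Real.exp B0) * ‖P.v k ((S.c k).symm z)‖) ^ a *
        (max L (Real.exp B0) * ‖P.u k ((S.c k).symm z)‖) ^ b := by gcongr
    _ = _ := by ring

theorem cov {τ : Y → ℂ} (hA : S.BasA) (hB : P.Bn) (h0 : P.Sec0 τ) (p : Y) (hp : τ p = 0) :
    ∃ (k : S.κ) (R : ℝ) (γ : (Fin (Fintype.card ι - 1) → ℂ) → V ι) (N : Set Y), 0 < R ∧
      AnalyticOnNhd ℂ γ (ball 0 R) ∧
      (∀ w ∈ ball 0 R, ‖γ w‖ ≤ 3 ∧ τ ((S.c k).symm (γ w)) = 0) ∧ N ∈ 𝓝 p ∧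
      ∀ y ∈ N, τ y = 0 → ∃ w, ‖w‖ ≤ R / 2 ∧ (S.c k).symm (γ w) = y := by
  obtain ⟨T, hT, hall⟩ := hB.ex 0 1
  obtain ⟨L, -, hL⟩ := bd P hA
  have hs : p ∈ (S.c (S.ch p)).source := S.ch_eq p ▸ M.mem p
  have hz := S.ch_lt p
  have hz4 : S.c (S.ch p) p ∈ ball (0 : V ι) 4 := by rw [mem_ball_zero_iff]; linarith
  have han := ((hall.b.hol_an τ (hT ▸ h0.hol)).2 (S.ch p) _ hz4)
  rw [hT] at han
  have hp' : τ ((S.c (S.ch p)).symm (S.c (S.ch p) p)) = 0 := by rw [(S.c _).left_inv hs, hp]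
  obtain ⟨R, hR, γ, h1, h2, h3⟩ := par _ _ han (by simp only [Sg.rep, hp', mul_zero])
    (h0.reg _ _ hz4 hp') (closedBall 0 3) (mem_of_superset (isOpen_ball.mem_nhds
      (by rw [mem_ball_zero_iff]; linarith)) ball_subset_closedBall)
  refine ⟨S.ch p, R, γ, _, hR, h1, fun w hw => ?_, inter_mem ((S.c _).open_source.mem_nhds hs)
    (((S.c _).continuousAt hs).eventually h3), fun y hy hy0 => ?_⟩
  · have h4 := mem_closedBall_zero_iff.1 (h2 w hw).1
    exact ⟨h4, (mul_eq_zero.1 (h2 w hw).2).resolve_left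
      (norm_pos_iff.1 (hL 0 1 _ _ _ h4 h4).1)⟩
  · obtain ⟨w, hw, e⟩ := hy.2 (by simp only [Sg.rep, (S.c _).left_inv hy.1, hy0, mul_zero])
    exact ⟨w, hw, by rw [e, (S.c _).left_inv hy.1]⟩

end ResB

theorem res [CompactSpace Y] {τ : Y → ℂ} (hA : S.BasA) (hB : P.Bn) (h0 : P.Sec0 τ)
    (hD : P.Div τ) : P.Res := by
  intro t
  obtain ⟨L, hL1, hL⟩ := ResB.bd P hA
  have hcont : ∀ a b σ, S.Hol (P.U a b) σ → (Continuous fun y => ‖σ y‖ ^ 2) ∧
      ∀ k, AnalyticOnNhd ℂ (S.rep (P.U a b) σ k) (ball 0 4) := fun a b σ hσ => by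
    obtain ⟨T, hT, hall⟩ := hB.ex a b
    have h1 := hall.b.hol_an σ (hT ▸ hσ)
    exact ⟨(hall.b.ck σ h1.1).2, hT ▸ h1.2⟩
  have hK : IsCompact {y | τ y = 0} := by
    have e : {y | τ y = 0} = (fun y => ‖τ y‖ ^ 2) ⁻¹' {0} := by ext y; simp
    rw [e]
    exact (isClosed_singleton.preimage (hcont 0 1 τ h0.hol).1).isCompact
  choose k R γ N hR hγ hγ3 hN hcov using fun p : {y | τ y = 0} => ResB.cov P hA hB h0 p.1 p.2
  obtain ⟨F, hF⟩ := hK.elim_nhds_subcover' (fun x hx => N ⟨x, hx⟩) fun x hx => hN ⟨x, hx⟩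
  obtain ⟨m0, hm0⟩ := pow_unbounded_of_one_lt (L ^ (1 + ⌈t⌉₊)) (one_lt_two (α := ℝ))
  refine ⟨F.card * ((m0 : ℝ) + 1) ^ (Fintype.card ι - 1), by positivity, ?_⟩
  rintro j b r hj hb ⟨Q, s, hQ, hs, hli⟩
  have h4 : ∀ x, ∀ w ∈ ball 0 (R x), γ x w ∈ ball (0 : V ι) 4 := fun x w hw => by
    rw [mem_ball_zero_iff]; linarith [(hγ3 x w hw).1]
  have han : ∀ σ, S.Hol (P.U j (b + 1)) σ → ∀ x,
      AnalyticOnNhd ℂ (fun w => S.rep (P.U j (b + 1)) σ (k x) (γ x w)) (ball 0 (R x)) :=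
    fun σ hσ x w hw => ((hcont _ _ σ hσ).2 (k x) _ (h4 x w hw)).comp (hγ x w hw)
  choose a ha using fun (l : Fin Q) (x : F) =>
    ResA.tay _ (han (s l) (hs l) x 0 (mem_ball_self (hR x))) (m0 * j + 1)
  obtain ⟨Q', c, hQ', hc, hli'⟩ := ResA.ker s hli
    fun l (q : F × (Fin (Fintype.card ι - 1) → Fin (m0 * j + 1))) => a l q.1 q.2
  have hrep : ∀ i κ z, S.rep (P.U j (b + 1)) (fun y => ∑ l, c i l * s l y) κ z =
      ∑ l, c i l * S.rep (P.U j (b + 1)) (s l) κ z := fun i κ z => by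
    simp only [Sg.rep, Finset.mul_sum]
    exact Finset.sum_congr rfl fun l _ => by ring
  have hhol : ∀ i, S.Hol (P.U j (b + 1)) fun y => ∑ l, c i l * s l y := fun i κ => by
    rw [funext (hrep i κ)]
    exact DifferentiableOn.fun_sum fun l _ => (hs l κ).const_mul _
  have hnum : L ^ (j + (b + 1)) * (1 / 2) ^ (m0 * j + 1) ≤ 1 / 2 := by
    have e1 : j + (b + 1) ≤ (1 + ⌈t⌉₊) * j := by
      have : ((b + 1 : ℕ) : ℝ) ≤ (⌈t⌉₊ * j : ℕ) := by
        push_cast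
        exact hb.trans (mul_le_mul_of_nonneg_right (Nat.le_ceil t) (Nat.cast_nonneg j))
      have := Nat.cast_le.1 this
      nlinarith
    have e2 : L ^ (j + (b + 1)) ≤ 2 ^ (m0 * j) := by
      refine (pow_le_pow_right₀ hL1 e1).trans ?_
      rw [pow_mul, pow_mul]
      exact pow_le_pow_left₀ (by positivity) hm0.le _
    calc _ ≤ (2 : ℝ) ^ (m0 * j) * (1 / 2) ^ (m0 * j + 1) := by gcongr
      _ = _ := by rw [pow_succ, ← mul_assoc, ← mul_pow]; norm_num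
  have hvan : ∀ i y, τ y = 0 → ∑ l, c i l * s l y = 0 := by
    intro i y hy
    obtain ⟨y0, hy0, hmax⟩ := hK.exists_isMaxOn ⟨y, hy⟩ (hcont _ _ _ (hhol i)).1.continuousOn
    have hle : ∀ x, τ x = 0 → ‖∑ l, c i l * s l x‖ ≤ ‖∑ l, c i l * s l y0‖ := fun x hx =>
      le_of_sq_le_sq (hmax hx) (norm_nonneg _)
    obtain ⟨x, hx, hxN⟩ := mem_iUnion₂.1 (hF hy0)
    obtain ⟨w, hw, e⟩ := hcov x y0 hxN hy0
    have hw' : w ∈ ball 0 (R x) := by rw [mem_ball_zero_iff]; linarith [hR x]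
    have hO : (fun w => S.rep (P.U j (b + 1)) (fun y => ∑ l, c i l * s l y) (k x) (γ x w)) =O[𝓝 0]
        fun w : Fin (Fintype.card ι - 1) → ℂ => ‖w‖ ^ (m0 * j + 1) := by
      refine (IsBigO.sum (s := Finset.univ) fun l _ =>
        (ha l ⟨x, hx⟩).const_mul_left (c i l)).congr_left fun w => ?_
      rw [hrep]
      simp only [Finset.sum_apply, mul_sub, Finset.sum_sub_distrib, Finset.mul_sum, sub_eq_self]
      rw [Finset.sum_comm]
      refine Finset.sum_eq_zero fun α _ => ?_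
      simp only [← mul_assoc, ← Finset.sum_mul]
      rw [hc i (⟨x, hx⟩, α), zero_mul]
    have hU := fun w' hw'' => hL j (b + 1) (k x) (γ x w) (γ x w') (hγ3 x w hw').1 (hγ3 x w' hw'').1
    have h5 := ResA.sch _ (R x) (L ^ (j + (b + 1)) * ‖P.U j (b + 1) (k x) ((S.c (k x)).symm (γ x w))‖ *
      ‖∑ l, c i l * s l y0‖) _ (hR x) (han _ (hhol i) x).differentiableOn (fun w' hw'' => by
        simp only [Sg.rep, norm_mul]
        exact mul_le_mul (hU w' hw'').2 (hle _ (hγ3 x w' hw'').2) (norm_nonneg _)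
          (by positivity)) hO w hw
    have h6 := (hU w hw').1
    simp only [Sg.rep, norm_mul, e] at h5 h6
    have h7 : ‖∑ l, c i l * s l y0‖ ≤ 0 := by
      have h8 := mul_le_mul_of_nonneg_left hnum (mul_nonneg h6.le (norm_nonneg (∑ l, c i l * s l y0)))
      by_contra h9
      have := mul_pos h6 (not_le.1 h9)
      nlinarith
    exact norm_le_zero_iff.1 ((hle y hy).trans h7)
  choose h hh hh' using fun i => hD.one j b _ (hhol i) (hvan i)
  refine ⟨Q', h, ?_, hh, ?_⟩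
  · have e1 : (Q : ℝ) ≤ Q' + F.card * ((m0 : ℝ) * j + 1) ^ (Fintype.card ι - 1) := by
      simp only [Fintype.card_prod, Fintype.card_coe, Fintype.card_fun, Fintype.card_fin] at hQ'
      exact_mod_cast hQ'
    have e2 : ((m0 : ℝ) * j + 1) ^ (Fintype.card ι - 1) ≤
        ((m0 : ℝ) + 1) ^ (Fintype.card ι - 1) * (j : ℝ) ^ (Fintype.card ι - 1) := by
      rw [← mul_pow]
      have : (1 : ℝ) ≤ j := by exact_mod_cast hj
      exact pow_le_pow_left₀ (by positivity) (by linarith) _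
    have e3 := mul_le_mul_of_nonneg_left e2 (Nat.cast_nonneg (α := ℝ) F.card)
    rw [mul_assoc]
    linarith
  · refine LinearIndependent.of_comp (LinearMap.mulLeft ℂ τ) ?_
    have e : LinearMap.mulLeft ℂ τ ∘ h = fun i y => ∑ l, c i l * s l y := by
      funext i y
      exact (hh' i y).symm
    rw [e]
    exact hli'

end Pool.Agent.Lib.MP_813db1_ag.SV
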