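import Pool.Agent.Lib.MP_813db1_ag.SV.StB

/-! Taylor polynomials, the lemma of Schwarz and kernels. -/

set_option autoImplicit false

namespace Pool.Agent.Lib.MP_813db1_ag.SV.ResA

open Complex Filter Topology Set Metric Asymptotics

theorem tay {κ : Type} [Fintype κ] [DecidableEq κ] (f : (κ → ℂ) → ℂ) (h : AnalyticAt ℂ f 0)
    (m : ℕ) : ∃ a : (κ → Fin m) → ℂ,
      (fun w => f w - ∑ α, a α * ∏ j, w j ^ (α j : ℕ)) =O[𝓝 0] fun w : κ → ℂ => ‖w‖ ^ m := by
  obtain ⟨p, hp⟩ := h
  have h1 := hp.isBigO_sub_partialSum_pow m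
  have h2 : (fun w => p.partialSum m w) ∈ Submodule.span ℂ
      (range fun α : κ → Fin m => fun w : κ → ℂ => ∏ j, w j ^ (α j : ℕ)) := by
    have e : (fun w => p.partialSum m w) = ∑ k ∈ Finset.range m, ∑ r : Fin k → κ,
        p k (fun t => Pi.single (r t) 1) • fun w : κ → ℂ => ∏ t, w (r t) := by
      funext w
      simp only [FormalMultilinearSeries.partialSum, Finset.sum_apply, Pi.smul_apply, smul_eq_mul]
      refine Finset.sum_congr rfl fun k _ => ?_
      have e1 : (fun _ : Fin k => w) = fun _ => ∑ j, w j • (Pi.single j 1 : κ → ℂ) := by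
        funext _; exact pi_eq_sum_univ' w
      rw [e1, ContinuousMultilinearMap.map_sum]
      refine Finset.sum_congr rfl fun r _ => ?_
      rw [ContinuousMultilinearMap.map_smul_univ, smul_eq_mul, mul_comm]
    rw [e]
    refine Submodule.sum_mem _ fun k hk => Submodule.sum_mem _ fun r _ =>
      Submodule.smul_mem _ _ (Submodule.subset_span ⟨fun j => ⟨(Finset.univ.filter
        fun t => r t = j).card, ?_⟩, ?_⟩)
    · refine lt_of_le_of_lt (Finset.card_le_univ _) ?_
      simpa using hk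
    · funext w
      rw [← Finset.prod_fiberwise Finset.univ r fun t => w (r t)]
      refine Finset.prod_congr rfl fun j _ => ?_
      rw [Finset.prod_congr rfl (g := fun _ => w j) fun t ht => by
        rw [(Finset.mem_filter.1 ht).2], Finset.prod_const]
  obtain ⟨a, ha⟩ := (Submodule.mem_span_range_iff_exists_fun ℂ).1 h2
  refine ⟨a, h1.congr_left fun w => ?_⟩
  have := congrFun ha w
  simp only [Finset.sum_apply, Pi.smul_apply, smul_eq_mul] at this
  rw [this, zero_add]

theorem sch {E : Type} [NormedAddCommGroup E] [NormedSpace ℂ E] (f : E → ℂ) (R A : ℝ) (m : ℕ)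
    (hR : 0 < R) (hd : DifferentiableOn ℂ f (ball 0 R)) (hA : ∀ w ∈ ball (0 : E) R, ‖f w‖ ≤ A)
    (hO : f =O[𝓝 0] fun w : E => ‖w‖ ^ (m + 1)) (w : E) (hw : ‖w‖ ≤ R / 2) :
    ‖f w‖ ≤ A * (1 / 2) ^ (m + 1) := by
  have h0 : f 0 = 0 := by
    obtain ⟨c, hc⟩ := hO.bound
    simpa using hc.self_of_nhds
  have hA0 : 0 ≤ A := (norm_nonneg _).trans (hA 0 (mem_ball_self hR))
  have h1 : (fun w : E => ‖w‖ ^ (m + 1)) =o[𝓝 0] fun w : E => ‖w‖ ^ m :=
    (isLittleO_pow_pow (𝕜 := ℝ) (Nat.lt_succ_self m)).comp_tendsto tendsto_norm_zero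
  have h2 := dist_le_mul_div_pow_of_mapsTo_ball_of_isLittleO (f := f) (c := 0) (z := w) (R₁ := R)
    (R₂ := A) (n := m) hd (fun x hx => by simpa [h0] using hA x hx)
    (by simpa [h0] using hO.trans_isLittleO h1) (by rw [mem_ball_zero_iff]; linarith)
  rw [h0, dist_zero_right, dist_zero_right] at h2
  refine h2.trans (mul_le_mul_of_nonneg_left (pow_le_pow_left₀ (by positivity) ?_ _) hA0)
  rw [div_le_iff₀ hR]; linarith

theorem ker {J Y : Type} [Fintype J] {Q : ℕ} (s : Fin Q → Y → ℂ) (hs : LinearIndependent ℂ s)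
    (a : Fin Q → J → ℂ) : ∃ (Q' : ℕ) (c : Fin Q' → Fin Q → ℂ), Q ≤ Q' + Fintype.card J ∧
      (∀ i α, ∑ l, c i l * a l α = 0) ∧
      LinearIndependent ℂ fun i y => ∑ l, c i l * s l y := by
  let L : (Fin Q → ℂ) →ₗ[ℂ] J → ℂ := Fintype.linearCombination ℂ a
  let b := Module.finBasis ℂ (LinearMap.ker L)
  refine ⟨_, fun i => (b i : Fin Q → ℂ), ?_, fun i α => ?_, ?_⟩
  · have h1 := L.finrank_range_add_finrank_ker
    have h2 := (LinearMap.range L).finrank_le
    simp only [Module.finrank_fintype_fun_eq_card, Fintype.card_fin] at h1 h2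
    omega
  · have h : L (b i) = 0 := (b i).2
    have := congrFun h α
    rw [Fintype.linearCombination_apply, Finset.sum_apply] at this
    exact this
  · have h1 : LinearIndependent ℂ fun i => (b i : Fin Q → ℂ) :=
      b.linearIndependent.map' (LinearMap.ker L).subtype (Submodule.ker_subtype _)
    have h2 := h1.map' (Fintype.linearCombination ℂ s)
      (LinearMap.ker_eq_bot.2 (linearIndependent_iff_injective_fintypeLinearCombination.1 hs))
    have e : (fun i y => ∑ l, (b i : Fin Q → ℂ) l * s l y) =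
        Fintype.linearCombination ℂ s ∘ fun i => (b i : Fin Q → ℂ) := by
      funext i y
      simp [Fintype.linearCombination_apply, Finset.sum_apply]
    rw [e]
    exact h2

end Pool.Agent.Lib.MP_813db1_ag.SV.ResA
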