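import Pool.Agent.Lib.MP_813db1_ag.SV.StB
import Pool.Agent.Lib.MP_813db1_ag.AN.VolY
import Pool.Agent.Lib.MP_813db1_ag.AN.Res

/-! Sections on the covering space that are summable to a small power. -/

namespace Pool.Agent.Lib.MP_813db1_ag.SV

open Pool.Agent.Lib.MP_813db1_ag.HS Pool.Agent.Lib.MP_813db1_ag.AS Pool.Agent.Lib.MP_813db1_ag.AN
open MeasureTheory Complex Matrix Filter Topology Set Metric
open scoped ContDiff ComplexOrder ENNReal Manifold

/-- all statements about one polarised family of sheets. -/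
def PackS : Prop := ∀ (ι Y : Type) [Fintype ι] [DecidableEq ι] [Nonempty ι] [TopologicalSpace Y]
  [T2Space Y] [ConnectedSpace Y] [MeasurableSpace Y] [BorelSpace Y] (M : Atl ι Y) (g : Y → Mat ι)
  (ν : Measure Y) (S : Sg M g ν) (P : Pol S) (τ : Y → ℂ), P.Sec0 τ →
  S.BasA ∧ P.Bn ∧ P.Nz ∧ P.Lps ∧ P.HorE ∧ (CompactSpace Y → P.Res)

namespace SecA

variable {ι X Y : Type} [Fintype ι] [DecidableEq ι] [TopologicalSpace X] [TopologicalSpace Y]
  {M : Atl ι X} {g : X → Mat ι} {N : ℕ} {σ : Fin N → X → ℂ} {p : Y → X}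

theorem comp {a b : ℕ} {s : X → ℂ} (h : HY M g σ id a b s) : HY M g σ p a b fun y => s (p y) := by
  intro e he z hz j hj t ht
  refine (h e he z hz j hj e.symm ⟨e.continuousAt_symm hz, Eventually.of_forall fun _ => rfl⟩).congr
    ?_
  filter_upwards [ht.2] with w hw
  rw [hw]

theorem mul {a b a' b' : ℕ} {s s' : Y → ℂ} (h : HY M g σ p a b s) (h' : HY M g σ p a' b' s') :
    HY M g σ p (a + a') (b + b') fun y => s y * s' y := by
  intro e he z hz j hj t ht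
  refine ((h e he z hz j hj t ht).mul (h' e he z hz j hj t ht)).congr
    (Eventually.of_forall fun w => ?_)
  simp only [Pi.mul_apply]
  ring

theorem pow {a b : ℕ} {s : Y → ℂ} (h : HY M g σ p a b s) (i : ℕ) :
    HY M g σ p (i * a) (i * b) fun y => s y ^ i := by
  intro e he z hz j hj t ht
  refine ((h e he z hz j hj t ht).pow i).congr (Eventually.of_forall fun w => ?_)
  simp only [Pi.pow_apply]
  ring

theorem cov (h : Prj M g σ) : ∃ O : X → Set X, (∀ x, IsOpen (O x) ∧ x ∈ O x) ∧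
    ∀ x, ∃ j, ∀ y ∈ O x, σ j y ≠ 0 := by
  have h1 : ∀ x, ∃ j, σ j x ≠ 0 := fun x => by
    by_contra hc
    push Not at hc
    have := h.nrm x
    simp [hc] at this
  choose j hj using h1
  exact ⟨fun x => {y | σ (j x) y ≠ 0}, fun x => ⟨h.op _, hj x⟩, fun x => ⟨j x, fun _ hy => hy⟩⟩

end SecA

theorem secS (hK : PackS) (h1 : StS2) (h2 : PolS) (h3 : BrtS) : SecS := by
  intro ι X Y G _ _ _ _ _ _ _ _ _ _ MX gX N σ p hg hσ hp
  obtain ⟨τ, hτ⟩ := h3 ι X MX gX N σ hσ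
  obtain ⟨O, hO, hO'⟩ := SecA.cov hσ
  obtain ⟨_, M, g, S0, L, act, l1, l2, l3⟩ := h1 ι X Y G MX gX p O hg hp hO
  borelize Y
  obtain ⟨ν, hν⟩ := volY ι Y M g S0
  let S : Sg M g ν := ⟨S0, hν, fun b => resS ι X MX gX (L.e b) _ hg (L.mem b) (L.tgt b) (L.rep b)⟩
  obtain ⟨P, p1, p2⟩ := h2 ι X Y MX gX N σ τ p M g ν S L hg hp.isCoveringMap.isLocalHomeomorph hσ
    hτ fun a => by
      obtain ⟨x, hx⟩ := l1 a
      obtain ⟨j, hj⟩ := hO' x
      exact ⟨j, fun y hy => hj y (hx hy)⟩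
  obtain ⟨hA, hB, ⟨s0, hs0, hN⟩, hL, -⟩ := hK ι Y M g ν S P _ p1
  refine ⟨s0, fun m k j s hs ⟨x0, hx0⟩ => ?_⟩
  obtain ⟨y0, rfl⟩ := hp.surjective x0
  obtain ⟨h, ⟨a1, a2⟩, a3⟩ := hN y0
  have ck : ∀ a b u, HY MX gX σ p a b u → Continuous fun y => ‖u y‖ ^ 2 := fun a b u hu => by
    obtain ⟨T, e, hT⟩ := hB.ex a b
    exact (hT.b.ck u (hT.b.hol_an u (e ▸ (p2 a b u).1 hu)).1).2
  have b1 := SecA.pow (SecA.comp (p := p) hs) j
  have b2 := SecA.mul b1 ((p2 1 s0 h).2 a1)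
  have b3 : Continuous fun x => ‖s x ^ j‖ ^ 2 := hp.toIsQuotientMap.continuous_iff.2 (ck _ _ _ b1)
  obtain ⟨C, hC⟩ := (isCompact_range b3).bddAbove
  have b4 : Integrable (fun y => ‖s (p y) ^ j * h y‖ ^ 2) ν := by
    refine (a2.const_mul C).mono' (ck _ _ _ b2).aestronglyMeasurable
      (Eventually.of_forall fun y => ?_)
    rw [Real.norm_of_nonneg (by positivity), norm_mul, mul_pow]
    exact mul_le_mul_of_nonneg_right (hC ⟨p y, rfl⟩) (by positivity)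
  obtain ⟨r, s', b, r1, r2, r3, r4, c1, c2, c3, c4⟩ := hL (j * m + 1) (j * k + s0) _ y0 (by omega)
    (by omega) ⟨(p2 _ _ _).1 b2, b4⟩ (mul_ne_zero (pow_ne_zero _ hx0) a3)
  refine ⟨r, s', r1, r2, r3, r4, (p2 _ _ _).2 c1, ⟨y0, c2⟩, fun K hK => ?_⟩
  have b0 : ∀ l, 0 ≤ b l := fun l => by
    have h0 : (0 : V ι) ∈ (S.c l).target := by rw [S.tgt]; exact mem_ball_self (by norm_num)
    refine le_trans (by positivity) (c4 l ((S.c l).symm 0) ⟨(S.c l).map_target h0, ?_⟩)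
    rw [mem_preimage, (S.c l).right_inv h0]
    exact mem_closedBall_self (by norm_num)
  have hf := S.fin K hK 1 (by norm_num)
  refine ⟨fun γ => ∑ l ∈ hf.toFinset, b (act γ l),
    summable_sum fun l _ => c3.comp_injective (l2 l), fun γ y hy => ?_⟩
  have m1 : y ∈ (S.c (S.ch y)).source := S.ch_eq y ▸ M.mem y
  have m2 := S.ch_lt y
  have m3 : S.c (S.ch y) y ∈ ball (0 : V ι) 4 := mem_ball_zero_iff.2 (m2.trans (by norm_num))
  have m4 : S.c (S.ch y) y ∈ (S.c (act γ (S.ch y))).target := by rw [S.tgt]; exact m3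
  have e := l3 γ (S.ch y) _ m3
  rw [(S0.c _).left_inv m1] at e
  refine le_trans (c4 (act γ (S.ch y)) _ ⟨?_, ?_⟩)
    (Finset.single_le_sum (f := fun l => b (act γ l)) (fun l _ => b0 _)
      (hf.mem_toFinset.2 ⟨y, hy, m1, m2.le⟩))
  · rw [← e]
    exact (S.c _).map_target m4
  · rw [mem_preimage, ← e]
    change S.c _ ((S.c _).symm _) ∈ _
    rw [(S.c _).right_inv m4]
    exact mem_closedBall_zero_iff.2 (m2.le.trans (by norm_num))

end Pool.Agent.Lib.MP_813db1_ag.SV
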