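import Pool.Agent.Lib.MP_813db1_ag.SV.StB

/-! The upper bound for the spherical volume: statements of the parts. -/

namespace Pool.Agent.Lib.MP_813db1_ag.SV

open Pool.Agent.Lib.MP_813db1_ag.HS Pool.Agent.Lib.MP_813db1_ag.AS Pool.Agent.Lib.MP_813db1_ag.AN
open MeasureTheory Complex Matrix Filter Topology Set Metric
open scoped ContDiff ComplexOrder ENNReal

/-- a cut-off near the zero set of `N`; the mass of its shell is bounded. -/
def ShS : Prop := ∀ (ι X : Type) [Fintype ι] [DecidableEq ι] [TopologicalSpace X] [T2Space X]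
  [CompactSpace X] [MeasurableSpace X] [BorelSpace X] (M : Atl ι X) (g β : X → Mat ι)
  (μ : Measure X) (N : X → ℝ) (η : ℝ), M.IsK g → M.IsVol g μ → M.ClF β → QB M β N → 0 < η →
  ∃ K : ℝ, ∀ δ > (0 : ℝ), ∃ (κ φ : X → ℝ) (δ' : ℝ), 0 < δ' ∧ M.Ck ∞ κ ∧ Continuous φ ∧
    (∀ x, 0 ≤ κ x ∧ κ x ≤ 1 ∧ (N x ≤ δ' → κ x = 0) ∧ (δ ≤ N x → κ x = 1) ∧ 0 ≤ φ x) ∧
    ∫⁻ x, ENNReal.ofReal (φ x) ∂μ ≤ ENNReal.ofReal K ∧
    ∀ e ∈ M.A, ∀ x ∈ e.source, 0 < N x → (fun i => dz (fn κ e) i (e x)) ≠ 0 →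
      (M.repF (fun y => β y + M.ddc (fun z => Real.log (N z)) y + (η : ℂ) • g y) e (e x) +
        vecMulVec (fun i => dz (fn κ e) i (e x)) (star fun i => dz (fn κ e) i (e x))).det.re /
        (M.repF g e (e x)).det.re ≤ φ x

/-- the gradient of a smooth function with compact support on the covering space is bounded. -/
def GrS : Prop := ∀ (ι X Y G : Type) [Fintype ι] [DecidableEq ι] [TopologicalSpace X]
  [TopologicalSpace Y] [Group G] [MulAction G Y] (M : Atl ι X) (g : X → Mat ι) (p : Y → X)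
  (χ : Y → ℝ), M.IsK g → IsQuotientCoveringMap p G → SmY M p χ → HasCompactSupport χ →
  ∃ C ≥ (0 : ℝ), ∀ e ∈ M.A, ∀ z ∈ e.target, ∀ t, F12.Sec p e z t → ∀ v : V ι,
    fderiv ℝ (fun w => χ (t w)) z v ^ 2 ≤ C * nV (M.repF g e z) v

end Pool.Agent.Lib.MP_813db1_ag.SV
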