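import Pool.Agent.Lib.MP_813db1_ag.SV.SphN
import Pool.Agent.Lib.MP_813db1_ag.HS.RepA
import Pool.Agent.Lib.MP_813db1_ag.HS.Mat

/-! The test map for the spherical volume. -/

namespace Pool.Agent.Lib.MP_813db1_ag.SV

open Pool.Agent.Lib.MP_813db1_ag.HS Pool.Agent.Lib.MP_813db1_ag.AS
open MeasureTheory Matrix Filter Topology Set Metric
open scoped ContDiff ComplexOrder

namespace SphF

theorem der {E : Type} [NormedAddCommGroup E] [NormedSpace ℝ E] {k c a u f : E → ℝ} {z : E} (v : E)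
    (hk : DifferentiableAt ℝ k z) (hc : DifferentiableAt ℝ c z) (ha : DifferentiableAt ℝ a z)
    (hu : DifferentiableAt ℝ u z) (hf : f =ᶠ[𝓝 z] fun w => k w * (c w * a w) + (1 - k w) * u w) :
    fderiv ℝ f z v = k z * c z * fderiv ℝ a z v + k z * a z * fderiv ℝ c z v +
      (1 - k z) * fderiv ℝ u z v + fderiv ℝ k z v * (c z * a z - u z) := by
  rw [hf.fderiv_eq, ((hk.hasFDerivAt.fun_mul (hc.hasFDerivAt.fun_mul ha.hasFDerivAt)).fun_add
    ((hk.hasFDerivAt.const_sub 1).fun_mul hu.hasFDerivAt)).fderiv]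
  simp only [_root_.add_apply, _root_.smul_apply, _root_.neg_apply, smul_eq_mul]
  ring

theorem pt {k c a u da dc du dk : ℝ} (k0 : 0 ≤ k) (k1 : k ≤ 1) (c0 : 0 ≤ c) (c1 : c ≤ 1)
    (a0 : 0 ≤ a) (u0 : 0 ≤ u) : (k * c * da + k * a * dc + (1 - k) * du + dk * (c * a - u)) ^ 2 ≤
      4 * (da ^ 2 + a ^ 2 * dc ^ 2 + du ^ 2 + dk ^ 2 * (a ^ 2 + u ^ 2)) := by
  have h1 : (k * c * da) ^ 2 ≤ da ^ 2 := by
    rw [mul_pow]
    exact mul_le_of_le_one_left (sq_nonneg _)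
      (pow_le_one₀ (mul_nonneg k0 c0) (mul_le_one₀ k1 c0 c1))
  have h2 : (k * a * dc) ^ 2 ≤ a ^ 2 * dc ^ 2 := by
    rw [mul_assoc, mul_pow, mul_pow]
    exact mul_le_of_le_one_left (by positivity) (pow_le_one₀ k0 k1)
  have h3 : ((1 - k) * du) ^ 2 ≤ du ^ 2 := by
    rw [mul_pow]
    exact mul_le_of_le_one_left (sq_nonneg _) (pow_le_one₀ (by linarith) (by linarith))
  have h4 : (dk * (c * a - u)) ^ 2 ≤ dk ^ 2 * (a ^ 2 + u ^ 2) := by
    rw [mul_pow]
    refine mul_le_mul_of_nonneg_left ?_ (sq_nonneg _)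
    have h5 : (c * a) ^ 2 ≤ a ^ 2 := by
      rw [mul_pow]
      exact mul_le_of_le_one_left (sq_nonneg _) (pow_le_one₀ c0 c1)
    nlinarith [mul_nonneg (mul_nonneg c0 a0) u0]
  generalize k * c * da = x1 at *
  generalize k * a * dc = x2 at *
  generalize (1 - k) * du = x3 at *
  generalize dk * (c * a - u) = x4 at *
  nlinarith [sq_nonneg (x1 - x2), sq_nonneg (x1 - x3), sq_nonneg (x1 - x4), sq_nonneg (x2 - x3),
    sq_nonneg (x2 - x4), sq_nonneg (x3 - x4)]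

variable {ι X Y G : Type} [Group G] [MulAction G Y]

theorem cnt {K : Set Y} {A0 : Finset G} (h0 : ∀ y ∈ K, ∀ γ ∉ A0, γ • y ∉ K) (A : Finset G) (y : Y)
    {d : G → ℝ} {c : ℝ} (hc : 0 ≤ c) (h1 : ∀ γ, γ • y ∉ K → d γ = 0) (h2 : ∀ γ, d γ ^ 2 ≤ c) :
    ∑ γ ∈ A, d γ ^ 2 ≤ A0.card * c ∧ (∑ γ ∈ A, d γ) ^ 2 ≤ A0.card ^ 2 * c := by
  classical
  have e1 : ((A.filter fun γ => γ • y ∈ K).card : ℝ) ≤ A0.card := by
    rcases (A.filter fun γ => γ • y ∈ K).eq_empty_or_nonempty with h | ⟨δ, h⟩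
    · rw [h]
      exact Nat.cast_le.2 (Nat.zero_le _)
    refine Nat.cast_le.2 (Finset.card_le_card_of_injOn (fun γ => γ * δ⁻¹) (fun γ hγ => ?_)
      fun _ _ _ _ h => mul_right_cancel h)
    by_contra hn
    refine h0 _ (Finset.mem_filter.1 h).2 _ hn ?_
    rw [smul_smul, inv_mul_cancel_right]
    exact (Finset.mem_filter.1 hγ).2
  have e2 : ∑ γ ∈ A.filter fun γ => γ • y ∈ K, d γ ^ 2 ≤ A0.card * c :=
    (Finset.sum_le_card_nsmul _ _ c fun γ _ => h2 γ).trans (by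
      rw [nsmul_eq_mul]
      exact mul_le_mul_of_nonneg_right e1 hc)
  constructor
  · rwa [Finset.sum_filter_of_ne fun γ _ h => by
      by_contra hn
      exact h (by rw [h1 γ hn, zero_pow two_ne_zero])] at e2
  · rw [← Finset.sum_filter_of_ne (p := fun γ => γ • y ∈ K) fun γ _ h => by
      by_contra hn
      exact h (h1 γ hn), sq (A0.card : ℝ), mul_assoc]
    exact sq_sum_le_card_mul_sum_sq.trans (mul_le_mul e1 e2 (by positivity) (by positivity))

variable [Fintype ι] [DecidableEq ι] [TopologicalSpace X] [TopologicalSpace Y]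
  {p : Y → X} {M : Atl ι X} {g β : X → Mat ι} {χ : Y → ℝ}

omit [DecidableEq ι] in
theorem le_one (hχ : Pu M G p χ) (A : Finset G) (y : Y) : ∑ γ ∈ A, χ (γ • y) ≤ 1 := by
  have hs : Summable fun γ : G => χ (γ • y) := by
    by_contra h
    exact zero_ne_one ((tsum_eq_zero_of_not_summable h).symm.trans (hχ.sum y))
  exact (hs.sum_le_tsum A fun γ _ => hχ.nn _).trans_eq (hχ.sum y)

omit [DecidableEq ι] in
theorem orb (hχ : Pu M G p χ) (y : Y) : ∃ γ : G, γ • y ∈ tsupport χ := by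
  by_contra h
  have h1 := hχ.sum y
  simp only [fun γ : G => image_eq_zero_of_notMem_tsupport (not_exists.1 h γ), tsum_zero] at h1
  exact zero_ne_one h1

/-- a cut-off function that is one on a large set and has a bounded gradient. -/
theorem cut (hq : IsQuotientCoveringMap p G) (hχ : Pu M G p χ) {A0 : Finset G}
    (h0 : ∀ y ∈ tsupport χ, ∀ γ ∉ A0, γ • y ∉ tsupport χ) {C : ℝ} (hC : 0 ≤ C) (hg : M.IsK g)
    (h1 : ∀ e ∈ M.A, ∀ z ∈ e.target, ∀ t, F12.Sec p e z t → ∀ v : V ι,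
      fderiv ℝ (fun w => χ (t w)) z v ^ 2 ≤ C * nV (M.repF g e z) v) (B : Finset G) :
    ∃ c : Y → ℝ, HasCompactSupport c ∧ SmY M p c ∧ (∀ y, 0 ≤ c y ∧ c y ≤ 1) ∧
      (∀ y ∈ tsupport χ, ∀ γ ∈ B, c (γ • y) = 1) ∧
      ∀ e ∈ M.A, ∀ z ∈ e.target, ∀ t, F12.Sec p e z t → ∀ v : V ι,
        fderiv ℝ (fun w => c (t w)) z v ^ 2 ≤ A0.card ^ 2 * (C * nV (M.repF g e z) v) ∧
        ∀ A : Finset G, ∑ γ ∈ A, fderiv ℝ (fun w => χ (γ • t w)) z v ^ 2 ≤
          A0.card * (C * nV (M.repF g e z) v) := by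
  classical
  have := hq.toContinuousConstSMul
  let S : Finset G := (A0 ×ˢ B).image fun q => q.1 * q.2⁻¹
  refine ⟨fun y => ∑ h ∈ S, χ (h • y), ?_, fun e he z hz t ht => ContDiffAt.sum fun h _ =>
    hχ.sm e he z hz _ (ht.smul hq h), fun y => ⟨Finset.sum_nonneg fun _ _ => hχ.nn _,
      le_one hχ S y⟩, fun y hy γ hγ => ?_, fun e he z hz t ht v => ?_⟩
  · have := HasCompactSupport.finset_sum (s := S) (f := fun h y => χ (h • y))
      fun h _ => hχ.cpt.comp_homeomorph (Homeomorph.smul h)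
    rwa [Finset.sum_fn] at this
  · rw [← hχ.sum (γ • y)]
    refine (tsum_eq_sum fun h hh => image_eq_zero_of_notMem_tsupport ?_).symm
    rw [smul_smul]
    exact h0 y hy _ fun hm => hh (Finset.mem_image.2 ⟨(h * γ, γ), Finset.mem_product.2 ⟨hm, hγ⟩,
      mul_inv_cancel_right h γ⟩)
  · have key := fun A => cnt h0 A (t z) (d := fun γ => fderiv ℝ (fun w => χ (γ • t w)) z v)
      (mul_nonneg hC (mat.nv_mono ι _ v ((hg e he).2 z hz).posSemidef)) (fun γ hγ => by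
        have : (fun w => χ (γ • t w)) =ᶠ[𝓝 z] fun _ => 0 :=
          (ht.smul hq γ).1.eventually (notMem_tsupport_iff_eventuallyEq.1 hγ)
        simp only [this.fderiv_eq, fderiv_fun_const, Pi.zero_apply, _root_.zero_apply])
      fun γ => h1 e he z hz _ (ht.smul hq γ) v
    refine ⟨?_, fun A => (key A).1⟩
    rw [fderiv_fun_sum fun h _ => (hχ.sm e he z hz _ (ht.smul hq h)).differentiableAt (by simp),
      _root_.sum_apply]
    exact (key S).2

variable [MeasurableSpace X] {μ : Measure X} {F : Y → ℝ} {N : X → ℝ}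

theorem smA (hF : Fam M μ G p β F N) {e : Ch ι X} (he : e ∈ M.A)
    {z : V ι} (hz : z ∈ e.target) (h0 : 0 < N (e.symm z)) {t : V ι → Y} (ht : F12.Sec p e z t) :
    ContDiffAt ℝ ∞ (fun w => √(F (t w) / N (e.symm w))) z :=
  ((hF.sm e he z hz h0 t ht).2.div (contDiffAt_ofReal.1 (hF.qb.sm e he z hz h0)) h0.ne').sqrt
    (div_pos (hF.sm e he z hz h0 t ht).1 h0).ne'

theorem build [T2Space X] (hq : IsQuotientCoveringMap p G) (hχ : Pu M G p χ) {C : ℝ} (hC : 0 ≤ C)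
    (hg : M.IsK g) (h1 : ∀ e ∈ M.A, ∀ z ∈ e.target, ∀ t, F12.Sec p e z t → ∀ v : V ι,
      fderiv ℝ (fun w => χ (t w)) z v ^ 2 ≤ C * nV (M.repF g e z) v) (hF : Fam M μ G p β F N)
    {η : ℝ} (hη : 0 < η) : ∃ D ≥ (0 : ℝ), ∀ (κ : X → ℝ) (δ δ' : ℝ), 0 < δ' → M.Ck ∞ κ →
      (∀ x, 0 ≤ κ x ∧ κ x ≤ 1 ∧ (N x ≤ δ' → κ x = 0) ∧ (δ ≤ N x → κ x = 1)) →
      ∃ f : Y → ℝ, HasCompactSupport f ∧ (∀ y, 0 ≤ f y) ∧ SmY M p f ∧
        (∀ y, ∑' γ : G, f (γ • y) ^ 2 = 1) ∧ ∀ e ∈ M.A, ∀ z ∈ e.target, 0 < N (e.symm z) →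
        ∀ t, F12.Sec p e z t → (gram G f t z).PosSemidef ∧ ∀ (x : ι × Fin 2 → ℝ) (τ : ℝ),
          τ = nV (M.repF (fun y => β y + M.ddc (fun z => Real.log (N z)) y) e z)
            (∑ q, x q • reB q) + η * nV (M.repF g e z) (∑ q, x q • reB q) →
          x ⬝ᵥ gram G f t z *ᵥ x ≤
            D * (τ + fderiv ℝ (fun w => κ (e.symm w)) z (∑ q, x q • reB q) ^ 2) ∧
          (δ ≤ N (e.symm z) → x ⬝ᵥ gram G f t z *ᵥ x ≤ 4 * τ) := by
  classical
  obtain ⟨A0, h0⟩ := SphN.fin hq hχ.cpt hχ.cpt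
  obtain ⟨b, hb, hb'⟩ := hF.lp _ hχ.cpt
  obtain ⟨L, hL⟩ : ∃ L : ℝ, L = A0.card := ⟨_, rfl⟩
  have L0 : 0 ≤ L := hL ▸ Nat.cast_nonneg _
  have u1 : ∀ y ∈ tsupport χ, 1 ≤ L * ∑ γ ∈ A0, χ (γ • y) ^ 2 := fun y hy => by
    have := sq_sum_le_card_mul_sum_sq (s := A0) (f := fun γ => χ (γ • y))
    rwa [← tsum_eq_sum (L := SummationFilter.unconditional G) fun γ hγ =>
      image_eq_zero_of_notMem_tsupport (h0 y hy γ hγ), hχ.sum, one_pow, ← hL] at this
  have u2 : ∀ (A : Finset G) y, ∑ γ ∈ A, χ (γ • y) ^ 2 ≤ 1 := fun A y =>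
    (Finset.sum_le_sum fun γ _ => by
      have := le_one hχ {γ} y
      rw [Finset.sum_singleton] at this
      nlinarith [hχ.nn (γ • y)]).trans (le_one hχ A y)
  refine ⟨(8 + 4 * L) * (4 * (2 + (L ^ 2 + L) * C / η)), by positivity,
    fun κ δ δ' hδ hκ hk => ?_⟩
  obtain ⟨θ, θ0, θ1, θ2⟩ : ∃ θ : ℝ, 0 < θ ∧ θ ≤ 1 / 2 ∧ θ * (L ^ 2 * C) ≤ η :=
    ⟨min (1 / 2) (η / (L ^ 2 * C + 1)), by positivity, min_le_left _ _,
      (mul_le_mul_of_nonneg_right (min_le_right _ _) (by positivity)).trans (by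
        rw [div_mul_eq_mul_div, div_le_iff₀ (by positivity)]
        linarith)⟩
  obtain ⟨B, hB⟩ := summable_iff_vanishing_norm.1 hb _ (mul_pos θ0 hδ)
  obtain ⟨c, c1, c2, c3, c4, c5⟩ := cut hq hχ h0 hC hg h1 B
  rw [← hL] at c5
  have pos : ∀ x, κ x ≠ 0 → δ' < N x := fun x h => not_le.1 fun h' => h ((hk x).2.2.1 h')
  have a1 : ∀ (A : Finset G) y, 0 < N (p y) → ∑ γ ∈ A, √(F (γ • y) / N (p y)) ^ 2 ≤ 1 ∧
      (y ∈ tsupport χ → δ' < N (p y) → ∑ γ ∈ A \ B, √(F (γ • y) / N (p y)) ^ 2 ≤ θ ∧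
        1 / 2 ≤ ∑ γ ∈ B, √(F (γ • y) / N (p y)) ^ 2) := fun A y hy => by
    simp only [Real.sq_sqrt (div_nonneg (hF.nn _) hy.le), ← Finset.sum_div]
    refine ⟨(div_le_one hy).2 (sum_le_hasSum A (fun _ _ => hF.nn _) (hF.sum y)), fun hK hd => ?_⟩
    have tl : ∀ A : Finset G, ∑ γ ∈ A \ B, F (γ • y) ≤ θ * N (p y) := fun A =>
      (Finset.sum_le_sum fun γ _ => hb' γ y hK).trans (((le_abs_self _).trans
        (hB _ Finset.sdiff_disjoint).le).trans (mul_le_mul_of_nonneg_left hd.le θ0.le))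
    refine ⟨(div_le_iff₀ hy).2 (tl A), (le_div_iff₀ hy).2 ?_⟩
    have : N (p y) ≤ ∑ γ ∈ B, F (γ • y) + θ * N (p y) := hasSum_le_of_sum_le (hF.sum y) fun A => by
      rw [← Finset.sum_inter_add_sum_sdiff A B]
      exact add_le_add (Finset.sum_le_sum_of_subset_of_nonneg Finset.inter_subset_right
        fun _ _ _ => hF.nn _) (tl A)
    nlinarith
  obtain ⟨f, hf⟩ : ∃ f : Y → ℝ, ∀ y, f y =
      κ (p y) * (c y * √(F y / N (p y))) + (1 - κ (p y)) * χ y := ⟨_, fun _ => rfl⟩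
  have t1 : ∀ y, 0 ≤ κ (p y) * (c y * √(F y / N (p y))) := fun y =>
    mul_nonneg (hk _).1 (mul_nonneg (c3 y).1 (Real.sqrt_nonneg _))
  have t2 : ∀ y, 0 ≤ (1 - κ (p y)) * χ y := fun y =>
    mul_nonneg (sub_nonneg.2 (hk _).2.1) (hχ.nn y)
  have f0 : ∀ y, 0 ≤ f y := fun y => hf y ▸ add_nonneg (t1 y) (t2 y)
  have fc : HasCompactSupport f := (c1.add hχ.cpt).mono fun y hy h => hy (by
    obtain ⟨e1, e2⟩ := (add_eq_zero_iff_of_nonneg (c3 y).1 (hχ.nn y)).1 h
    rw [hf, e1, e2, zero_mul, mul_zero, mul_zero, add_zero])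
  have fe : ∀ {e : Ch ι X} {z t}, F12.Sec p e z t → (fun w => f (t w)) =ᶠ[𝓝 z] fun w =>
      κ (e.symm w) * (c (t w) * √(F (t w) / N (e.symm w))) + (1 - κ (e.symm w)) * χ (t w) :=
    fun ht => ht.2.mono fun w hw => by simp only [hf, hw]
  have fs : SmY M p f := fun e he z hz t ht => by
    have k1 := contDiffAt_ofReal.1 (hκ e he z hz)
    rcases (hF.qb.nn (e.symm z)).eq_or_lt with h | h
    · refine (hχ.sm e he z hz t ht).congr_of_eventuallyEq ?_
      filter_upwards [fe ht, (hF.qb.cont.continuousAt.comp (e.continuousAt_symm hz)).eventually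
        (gt_mem_nhds (show N (e.symm z) < δ' from h ▸ hδ))] with w e1 e2
      rw [e1, (hk _).2.2.1 e2.le, zero_mul, zero_add, sub_zero, one_mul]
    · exact ((k1.mul ((c2 e he z hz t ht).mul (smA hF he hz h ht))).add
        ((contDiffAt_const.sub k1).mul (hχ.sm e he z hz t ht))).congr_of_eventuallyEq (fe ht)
  have n0 : ∀ (A : Finset G) y, ∑ γ ∈ A, f (γ • y) ^ 2 ≤ SphN.nn G f y := fun A y => by
    obtain ⟨A', hA⟩ := SphN.fin hq (isCompact_singleton (x := y)) fc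
    exact (summable_of_ne_finset_zero (s := A') fun γ hγ => by
      rw [image_eq_zero_of_notMem_tsupport (hA y rfl γ hγ), zero_pow two_ne_zero]).sum_le_tsum A
        fun _ _ => sq_nonneg _
  have n1 : ∀ y, κ (p y) ^ 2 / 2 ≤ SphN.nn G f y ∧ (1 - κ (p y)) ^ 2 ≤ L * SphN.nn G f y :=
    fun y => by
    obtain ⟨γ0, hγ⟩ := orb hχ y
    rw [← SphN.nn_smul f γ0, ← hq.map_smul γ0]
    generalize γ0 • y = y at hγ
    constructor
    · by_cases h : κ (p y) = 0
      · rw [h, zero_pow two_ne_zero, zero_div]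
        exact tsum_nonneg fun _ => sq_nonneg _
      have := ((a1 B y (hδ.trans (pos _ h))).2 hγ (pos _ h)).2
      refine le_trans ?_ (n0 B y)
      rw [div_eq_mul_one_div]
      refine (mul_le_mul_of_nonneg_left this (sq_nonneg _)).trans ?_
      rw [Finset.mul_sum]
      refine Finset.sum_le_sum fun γ hγ' => ?_
      have e1 := t1 (γ • y)
      have e2 := t2 (γ • y)
      rw [hf, ← mul_pow]
      rw [c4 y hγ γ hγ', one_mul, hq.map_smul] at *
      exact pow_le_pow_left₀ e1 (le_add_of_nonneg_right e2) 2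
    · refine le_trans ?_ (mul_le_mul_of_nonneg_left (n0 A0 y) L0)
      refine (le_mul_of_one_le_right (sq_nonneg _) (u1 y hγ)).trans ?_
      rw [mul_left_comm, Finset.mul_sum]
      refine mul_le_mul_of_nonneg_left (Finset.sum_le_sum fun γ _ => ?_) L0
      have e1 := t1 (γ • y)
      have e2 := t2 (γ • y)
      rw [hf, ← mul_pow]
      rw [hq.map_smul] at *
      exact pow_le_pow_left₀ e2 (le_add_of_nonneg_left e1) 2
  have n2 : ∀ y, 1 ≤ (8 + 4 * L) * SphN.nn G f y := fun y => by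
    nlinarith [(n1 y).1, (n1 y).2, sq_nonneg (2 * κ (p y) - 1), sq_nonneg (κ (p y)),
      sq_nonneg (1 - κ (p y))]
  obtain ⟨f1, g1, g2, g3, g4, g5⟩ := SphN.norm hq fc f0 fs fun y =>
    pos_of_mul_pos_right (one_pos.trans_le (n2 y)) (by positivity)
  refine ⟨f1, g1, g2, g3, g4, fun e he z hz hN t ht => ?_⟩
  obtain ⟨γ0, hγ⟩ := orb hχ (t z)
  obtain ⟨ps, A, hA⟩ := g5 e he z hz t ht
  refine ⟨ps, fun x τ hτ => ?_⟩
  have q0 := ps.dotProduct_mulVec_nonneg x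
  rw [star_trivial] at q0
  have q1 := hA x
  generalize x ⬝ᵥ gram G f1 t z *ᵥ x = Q at *
  generalize ∑ q, x q • reB q = v at *
  have e0 : ∑ γ ∈ A, fderiv ℝ (fun w => f (γ • t w)) z v ^ 2 =
      ∑ γ ∈ A.map (Equiv.mulRight γ0⁻¹).toEmbedding,
        fderiv ℝ (fun w => f (γ • γ0 • t w)) z v ^ 2 := by
    rw [Finset.sum_map]
    simp only [Equiv.coe_toEmbedding, Equiv.coe_mulRight, smul_smul, inv_mul_cancel_right]
  rw [e0, ← SphN.nn_smul f γ0] at q1
  have hs := ht.smul hq γ0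
  generalize A.map (Equiv.mulRight γ0⁻¹).toEmbedding = A at q1
  change Q * SphN.nn G f ((fun w => γ0 • t w) z) ≤
    ∑ γ ∈ A, fderiv ℝ (fun w => f (γ • (fun w => γ0 • t w) w)) z v ^ 2 at q1
  change (fun w => γ0 • t w) z ∈ _ at hγ
  generalize (fun w => γ0 • t w) = s at q1 hs hγ
  have hp := hs.2.self_of_nhds
  have dk := (contDiffAt_ofReal.1 (hκ e he z hz)).differentiableAt (by simp)
  have d1 := fun γ : G => der v dk ((c2 e he z hz _ (hs.smul hq γ)).differentiableAt (by simp))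
    ((smA hF he hz hN (hs.smul hq γ)).differentiableAt (by simp))
    ((hχ.sm e he z hz _ (hs.smul hq γ)).differentiableAt (by simp)) (fe (hs.smul hq γ))
  have b1 := hF.fis e he z hz hN s hs A v
  have b0 := (Finset.sum_nonneg fun _ _ => sq_nonneg _).trans b1
  have b2 := fun γ : G => (c5 e he z hz _ (hs.smul hq γ) v).1
  have b3 := (c5 e he z hz s hs v).2 A
  have b4 := a1 A (s z) (hp ▸ hN)
  have b5 := u2 A (s z)
  have b6 := mat.nv_mono ι _ v ((hg e he).2 z hz).posSemidef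
  have b7 := n1 (s z)
  have b8 := n2 (s z)
  rw [hp] at b4 b7
  generalize nV (M.repF g e z) v = o at *
  generalize nV (M.repF (fun y => β y + M.ddc (fun z => Real.log (N z)) y) e z) v = T at *
  simp only [d1] at q1
  constructor
  · have b9 : ∑ γ ∈ A, √(F (γ • s z) / N (e.symm z)) ^ 2 *
        fderiv ℝ (fun w => c (γ • s w)) z v ^ 2 ≤ L ^ 2 * (C * o) :=
      (Finset.sum_le_sum fun γ _ => mul_le_mul_of_nonneg_left (b2 γ) (sq_nonneg _)).trans (by
        rw [← Finset.sum_mul]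
        exact mul_le_of_le_one_left (by positivity) b4.1)
    have q2 := q1.trans (Finset.sum_le_sum fun γ _ => pt (hk _).1 (hk _).2.1 (c3 _).1 (c3 _).2
      (Real.sqrt_nonneg _) (hχ.nn _))
    simp only [← Finset.mul_sum, Finset.sum_add_distrib] at q2
    generalize fderiv ℝ (fun w => κ (e.symm w)) z v = k at *
    have q3 : Q * SphN.nn G f (s z) ≤ 4 * (T + (L ^ 2 + L) * C * o + k ^ 2 * 2) := by
      have := mul_le_mul_of_nonneg_left (add_le_add b4.1 b5) (sq_nonneg k)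
      linarith
    have q4 : T + (L ^ 2 + L) * C * o + k ^ 2 * 2 ≤ (2 + (L ^ 2 + L) * C / η) * (τ + k ^ 2) := by
      have e1 : (L ^ 2 + L) * C * o = (L ^ 2 + L) * C / η * (η * o) := by field_simp
      have e2 : 0 ≤ (L ^ 2 + L) * C / η := by positivity
      rw [e1, hτ]
      nlinarith [mul_nonneg e2 b0, mul_nonneg e2 (sq_nonneg k), mul_nonneg hη.le b6]
    calc Q ≤ (8 + 4 * L) * (Q * SphN.nn G f (s z)) := by nlinarith
      _ ≤ (8 + 4 * L) * (4 * ((2 + (L ^ 2 + L) * C / η) * (τ + k ^ 2))) :=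
          mul_le_mul_of_nonneg_left (by linarith) (by positivity)
      _ = _ := by ring
  · intro hd
    have k1 := (hk _).2.2.2 hd
    have k2 : fderiv ℝ (fun w => κ (e.symm w)) z = 0 :=
      IsLocalMax.fderiv_eq_zero (Eventually.of_forall fun w => (hk _).2.1.trans_eq k1.symm)
    have b9 : ∑ γ ∈ A, √(F (γ • s z) / N (e.symm z)) ^ 2 *
        fderiv ℝ (fun w => c (γ • s w)) z v ^ 2 ≤ η * o := by
      rw [← Finset.sum_inter_add_sum_sdiff A B, Finset.sum_eq_zero fun γ h => ?_, zero_add]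
      · refine (Finset.sum_le_sum fun γ _ =>
          mul_le_mul_of_nonneg_left (b2 γ) (sq_nonneg _)).trans ?_
        rw [← Finset.sum_mul]
        refine (mul_le_mul_of_nonneg_right (b4.2 hγ (pos _ (k1 ▸ one_ne_zero))).1
          (by positivity)).trans ?_
        rw [← mul_assoc (L ^ 2), ← mul_assoc]
        exact mul_le_mul_of_nonneg_right θ2 b6
      · rw [IsLocalMax.fderiv_eq_zero (f := fun w => c (γ • s w)) (Eventually.of_forall fun w =>
          (c3 _).2.trans_eq (c4 _ hγ γ (Finset.mem_inter.1 h).2).symm), _root_.zero_apply,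
          zero_pow two_ne_zero, mul_zero]
    have q2 := q1.trans (Finset.sum_le_sum (g := fun γ => 2 * (fderiv ℝ
        (fun w => √(F (γ • s w) / N (e.symm w))) z v ^ 2 + √(F (γ • s z) / N (e.symm z)) ^ 2 *
        fderiv ℝ (fun w => c (γ • s w)) z v ^ 2)) fun γ _ => by
      rw [k1, k2, _root_.zero_apply]
      have e1 := (c3 (γ • s z)).1
      have e2 := (c3 (γ • s z)).2
      generalize fderiv ℝ (fun w => √(F (γ • s w) / N (e.symm w))) z v = da
      generalize fderiv ℝ (fun w => c (γ • s w)) z v = dc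
      generalize √(F (γ • s z) / N (e.symm z)) = a
      generalize c (γ • s z) = c at *
      have : (c * da) ^ 2 ≤ da ^ 2 := by
        rw [mul_pow]
        exact mul_le_of_le_one_left (sq_nonneg _) (pow_le_one₀ e1 e2)
      nlinarith [sq_nonneg (c * da - a * dc)])
    simp only [← Finset.mul_sum, Finset.sum_add_distrib] at q2
    rw [k1] at b7
    linarith [mul_le_mul_of_nonneg_left b7.1 q0]

end SphF

end Pool.Agent.Lib.MP_813db1_ag.SV
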