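import Pool.Agent.Lib.MP_813db1_ag.SV.SphD
import Pool.Agent.Lib.MP_813db1_ag.HS.Mat
import Pool.Agent.Lib.MP_813db1_ag.HS.RepA
import Pool.Agent.Lib.MP_813db1_ag.HS.Calc

/-! The gradient of a function with compact support on the covering space is bounded. -/

namespace Pool.Agent.Lib.MP_813db1_ag.SV

open Pool.Agent.Lib.MP_813db1_ag.HS Pool.Agent.Lib.MP_813db1_ag.AS
open Complex Matrix Filter Topology Set Metric
open scoped ContDiff ComplexOrder

namespace SphG

variable {ι : Type} [Fintype ι] [DecidableEq ι]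

theorem bd_ev {H : V ι → Mat ι} {z : V ι} (h : ContinuousAt H z) :
    ∃ L, ∀ L' ≥ L, ∀ᶠ w in 𝓝 z, Bd L' (H w) := by
  refine ⟨∑ i, ∑ j, ‖H z i j‖ + 1, fun L' hL => eventually_all.2 fun i =>
    eventually_all.2 fun j => ?_⟩
  have h1 : ContinuousAt (fun w => ‖H w i j‖) z :=
    (continuousAt_pi.1 (continuousAt_pi.1 h i) j).norm
  have h2 : ‖H z i j‖ ≤ ∑ i, ∑ j, ‖H z i j‖ :=
    (Finset.single_le_sum (f := fun j => ‖H z i j‖) (fun _ _ => norm_nonneg _)
      (Finset.mem_univ j)).trans (Finset.single_le_sum (f := fun i => ∑ j, ‖H z i j‖)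
        (fun _ _ => by positivity) (Finset.mem_univ i))
  exact (h1.eventually (gt_mem_nhds (by linarith : ‖H z i j‖ < L'))).mono fun w hw => hw.le

theorem low {H : V ι → Mat ι} {U : Set (V ι)} {z : V ι} (hU : U ∈ 𝓝 z) (h : KOn H U) :
    ∃ c > (0 : ℝ), ∀ᶠ w in 𝓝 z, ∀ v : V ι, c * ‖v‖ ^ 2 ≤ nV (H w) v := by
  have hz := mem_of_mem_nhds hU
  have h1 : ContinuousAt H z :=
    continuousAt_pi.2 fun i => continuousAt_pi.2 fun j => (h.1.1 z hz i j).continuousAt
  have h2 : ContinuousAt (fun w => (H w)⁻¹) z := by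
    refine ContinuousAt.comp (continuousAt_matrix_inv _ ?_) h1
    rw [Ring.inverse_eq_inv']
    exact continuousAt_inv₀ (h.2 z hz).det_pos.ne'
  obtain ⟨L, hL⟩ := bd_ev h1
  obtain ⟨L', hL'⟩ := bd_ev h2
  obtain ⟨c, c0, hc⟩ := mat.nv ι (max L L')
  refine ⟨c, c0, ?_⟩
  filter_upwards [hL _ (le_max_left _ _), hL' _ (le_max_right _ _), hU] with w k1 k2 k3 v
  exact (hc _ (h.2 w k3) k1 k2 v).1

end SphG

open SphG F12 in
theorem grS : GrS := by
  intro ι X Y G _ _ _ _ _ _ M g p χ hg hq hχ hc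
  have hp := hq.isCoveringMap.isLocalHomeomorph
  have ha := repA mat ι X M
  let P : Y → ℝ → Prop := fun y C => ∀ e ∈ M.A, ∀ z ∈ e.target, ∀ t, Sec p e z t → t z = y →
    ∀ v : V ι, fderiv ℝ (fun w => χ (t w)) z v ^ 2 ≤ C * nV (M.repF g e z) v
  have nn : ∀ e ∈ M.A, ∀ z ∈ e.target, ∀ v, 0 ≤ nV (M.repF g e z) v := fun e he z hz v =>
    mat.nv_mono ι _ v ((hg e he).2 z hz).posSemidef
  have tr : ∀ y C, ∀ e ∈ M.A, p y ∈ e.source → ∀ s, Sec p e (e (p y)) s → s (e (p y)) = y →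
      (∀ v, fderiv ℝ (fun w => χ (s w)) (e (p y)) v ^ 2 ≤ C * nV (M.repF g e (e (p y))) v) →
      P y C := by
    intro y C e' he' hy s hs h0 h e he z hz t ht h1 v
    have k0 : p y = e.symm z := h1 ▸ ht.2.self_of_nhds
    have k1 : p y ∈ e.source := k0 ▸ e.map_target hz
    have k2 : e (p y) = z := by rw [k0, e.right_inv hz]
    have k3 := M.hol e he e' he' _ k1 hy
    rw [k2] at k3
    have k4 : (e' ∘ e.symm) z = e' (p y) := by rw [k0]; rfl
    have k5 : t =ᶠ[𝓝 z] fun w => s ((e' ∘ e.symm) w) := by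
      refine uniq hp ht.1 (ContinuousAt.comp (k4 ▸ hs.1) k3.continuousAt) (by rw [k4, h0, h1]) ?_
      filter_upwards [ht.2, k3.continuousAt.eventually (k4 ▸ hs.2),
        (e.continuousAt_symm hz).eventually (e'.open_source.eventually_mem (k0 ▸ hy))]
        with w a1 a2 a3
      rw [a1, a2]
      exact (e'.left_inv a3).symm
    have k6 : (fun w => χ (t w)) =ᶠ[𝓝 z] (fun w => χ (s w)) ∘ (e' ∘ e.symm) :=
      k5.mono fun w hw => congrArg χ hw
    have k7 := (hχ e' he' _ (e'.map_source hy) s hs).differentiableAt (by simp)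
    have k8 := ha.repF_tr g e he e' he' _ k1 hy
    rw [k6.fderiv_eq, fderiv_comp z (k4 ▸ k7) (k3.differentiableAt.restrictScalars ℝ),
      ContinuousLinearMap.comp_apply, k3.differentiableAt.fderiv_restrictScalars ℝ, k4,
      ContinuousLinearMap.coe_restrictScalars', ← jac_mulVec, ← k2, k8, nV,
      (mat.pull_pd ι _ _ (ha.tj_det e he e' he' _ k1 hy)).2.2.2.2.2.2]
    exact h _
  have mono : ∀ y C C', C ≤ C' → P y C → P y C' := fun y C C' h k e he z hz t ht h1 v =>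
    (k e he z hz t ht h1 v).trans (mul_le_mul_of_nonneg_right h (nn e he z hz v))
  obtain ⟨C, C0, hC⟩ : ∃ C ≥ (0 : ℝ), ∀ y ∈ tsupport χ, P y C := by
    refine IsCompact.induction_on (p := fun K => ∃ C ≥ (0 : ℝ), ∀ y ∈ K, P y C) hc
      ⟨0, le_rfl, by simp⟩ (fun s t h ⟨C, C0, k⟩ => ⟨C, C0, fun y hy => k y (h hy)⟩)
      (fun s t ⟨C, C0, k⟩ ⟨C', _, k'⟩ => ⟨max C C', le_max_of_le_left C0, fun y hy => hy.elim
        (fun h => mono y C _ (le_max_left _ _) (k y h))
        fun h => mono y C' _ (le_max_right _ _) (k' y h)⟩) fun y _ => ?_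
    obtain ⟨e, he, hy⟩ : ∃ e ∈ M.A, p y ∈ e.source := ⟨_, M.ch_mem _, M.mem _⟩
    have hz := e.map_source hy
    obtain ⟨s1, -⟩ := sh_self hp hy
    obtain ⟨c, c0, k1⟩ := low (e.open_target.mem_nhds hz) (hg e he)
    have k2 := ((hχ e he _ hz _ s1).continuousAt_fderiv (by simp)).norm
    have k3 := k2.eventually (gt_mem_nhds (lt_add_one _))
    have k4 : ContinuousAt (fun x => e (p x)) y :=
      (e.continuousAt hy).comp hp.continuous.continuousAt
    generalize ‖fderiv ℝ (fun w => χ (sh hp y e w)) (e (p y))‖ + 1 = A at k3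
    refine ⟨_, mem_nhdsWithin_of_mem_nhds (?_ : ∀ᶠ x in 𝓝 y, P x (A ^ 2 / c)), _,
      by positivity, fun x hx => hx⟩
    filter_upwards [k4.eventually (k1.and (k3.and (s1.ev hp hz))),
      hp.continuous.continuousAt.eventually (e.open_source.eventually_mem hy),
      (hp.localInverseAt y).open_target.eventually_mem hp.self_mem_localInverseAt_target]
      with x a1 a2 a3
    refine tr x _ e he a2 _ a1.2.2 ?_ fun v => ?_
    · rw [sh, e.left_inv a2, ← congrFun (hp.localInverseAt_symm y)]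
      exact (hp.localInverseAt y).right_inv a3
    · have b := (fderiv ℝ (fun w => χ (sh hp y e w)) (e (p x))).le_opNorm v
      rw [← sq_abs, div_mul_eq_mul_div, mul_div_assoc]
      refine (pow_le_pow_left₀ (abs_nonneg _) (b.trans (mul_le_mul_of_nonneg_right a1.2.1.le
        (norm_nonneg _))) 2).trans ?_
      rw [mul_pow]
      exact mul_le_mul_of_nonneg_left ((le_div_iff₀' c0).2 (a1.1 v)) (sq_nonneg _)
  refine ⟨C, C0, fun e he z hz t ht v => ?_⟩
  by_cases h : t z ∈ tsupport χ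
  · exact hC _ h e he z hz t ht rfl v
  have k : (fun w => χ (t w)) =ᶠ[𝓝 z] fun _ => 0 :=
    ht.1.eventually (notMem_tsupport_iff_eventuallyEq.1 h)
  rw [k.fderiv_eq]
  simpa using mul_nonneg C0 (nn e he z hz v)

end Pool.Agent.Lib.MP_813db1_ag.SV
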