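import Pool.Agent.Lib.MP_813db1_ag.SV.SphD
import Pool.Agent.Lib.MP_bbd4b9_ag.SI.CovTop

/-! Normalisation of an equivariant map to the sphere. -/

namespace Pool.Agent.Lib.MP_813db1_ag.SV

open Pool.Agent.Lib.MP_813db1_ag.HS Pool.Agent.Lib.MP_813db1_ag.AS
open MeasureTheory Matrix Filter Topology Set Metric
open scoped ContDiff

namespace SphN

theorem core {G E : Type} [NormedAddCommGroup E] [NormedSpace ℝ E] {A : Finset G} {h : G → E → ℝ}
    {s : E → ℝ} {z : E} (v : E) (hs : DifferentiableAt ℝ s z) (hh : ∀ γ, DifferentiableAt ℝ (h γ) z)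
    (h1 : ∀ᶠ w in 𝓝 z, ∑ γ ∈ A, h γ w ^ 2 = 1) :
    (∑ γ ∈ A, fderiv ℝ (h γ) z v ^ 2) * s z ^ 2 ≤
      ∑ γ ∈ A, fderiv ℝ (fun w => s w * h γ w) z v ^ 2 := by
  have e0 : ∑ γ ∈ A, h γ z * fderiv ℝ (h γ) z v = 0 := by
    have a1 : HasFDerivAt (fun w => ∑ γ ∈ A, h γ w * h γ w)
        (∑ γ ∈ A, (h γ z • fderiv ℝ (h γ) z + h γ z • fderiv ℝ (h γ) z)) z :=
      HasFDerivAt.fun_sum fun γ _ => (hh γ).hasFDerivAt.fun_mul (hh γ).hasFDerivAt
    have a2 : (fun w => ∑ γ ∈ A, h γ w * h γ w) =ᶠ[𝓝 z] fun _ => (1 : ℝ) :=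
      h1.mono fun w hw => by simpa only [sq] using hw
    have a3 := congrArg (fun L : E →L[ℝ] ℝ => L v)
      (a1.unique ((hasFDerivAt_const (1 : ℝ) z).congr_of_eventuallyEq a2))
    simp only [_root_.sum_apply, _root_.add_apply,
      _root_.smul_apply, smul_eq_mul, _root_.zero_apply,
      Finset.sum_add_distrib] at a3
    linarith
  have e1 : ∀ γ, fderiv ℝ (fun w => s w * h γ w) z v ^ 2 = fderiv ℝ (h γ) z v ^ 2 * s z ^ 2 +
      2 * s z * fderiv ℝ s z v * (h γ z * fderiv ℝ (h γ) z v) +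
        fderiv ℝ s z v ^ 2 * h γ z ^ 2 := fun γ => by
    rw [fderiv_fun_mul hs (hh γ)]
    simp only [_root_.add_apply, _root_.smul_apply, smul_eq_mul]
    ring
  simp only [e1, Finset.sum_add_distrib, ← Finset.mul_sum, ← Finset.sum_mul, e0, mul_zero, add_zero]
  exact le_add_of_nonneg_right (by positivity)

variable {ι X Y G : Type} [Fintype ι] [DecidableEq ι] [TopologicalSpace X] [TopologicalSpace Y]
  [Group G] [MulAction G Y] {p : Y → X} {M : Atl ι X} {e : Ch ι X} {z : V ι} {t : V ι → Y}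
  {f : Y → ℝ}

omit [TopologicalSpace Y] in
theorem gram_eq {A : Finset G} (h : ∀ γ ∉ A, fderiv ℝ (fun w => f (γ • t w)) z = 0)
    (x : ι × Fin 2 → ℝ) : x ⬝ᵥ gram G f t z *ᵥ x =
      ∑ γ ∈ A, fderiv ℝ (fun w => f (γ • t w)) z (∑ q, x q • reB q) ^ 2 := by
  have e1 : ∀ q r, gram G f t z q r = ∑ γ ∈ A, fderiv ℝ (fun w => f (γ • t w)) z (reB q) *
      fderiv ℝ (fun w => f (γ • t w)) z (reB r) := fun q r =>
    tsum_eq_sum fun γ hγ => by rw [h γ hγ, _root_.zero_apply, zero_mul]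
  simp only [dotProduct, mulVec, e1, map_sum, map_smul, smul_eq_mul, sq, Finset.sum_mul,
    Finset.mul_sum]
  refine (Finset.sum_congr rfl fun q _ => Finset.sum_comm).trans (Finset.sum_comm.trans ?_)
  refine Finset.sum_congr rfl fun γ _ => Finset.sum_comm.trans ?_
  exact Finset.sum_congr rfl fun q _ => Finset.sum_congr rfl fun r _ => by ring

omit [TopologicalSpace Y] in
theorem gram_psd {A : Finset G} (h : ∀ γ ∉ A, fderiv ℝ (fun w => f (γ • t w)) z = 0) :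
    (gram G f t z).PosSemidef := by
  refine PosSemidef.of_dotProduct_mulVec_nonneg ?_ fun x => ?_
  · ext q r
    simp only [gram, conjTranspose_apply, of_apply, star_trivial, mul_comm]
  · rw [star_trivial, gram_eq h]
    positivity

theorem lf [T2Space X] (hq : IsQuotientCoveringMap p G) {K : Set Y} (hK : IsCompact K)
    (hz : z ∈ e.target) (ht : F12.Sec p e z t) :
    ∃ A : Finset G, ∀ᶠ w in 𝓝 z, ∀ γ ∉ A, γ • t w ∉ K := by
  have := MP_bbd4b9_ag.SI.CovTop.proper hq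
  obtain ⟨r, hr, h⟩ := nhds_basis_closedBall.eventually_iff.1
    (ht.ev hq.isCoveringMap.isLocalHomeomorph hz)
  have hc : IsCompact (t '' closedBall z r) :=
    (isCompact_closedBall z r).image_of_continuousOn fun w hw => (h hw).1.continuousWithinAt
  have hf := ProperlyDiscontinuousSMul.finite_disjoint_inter_image (Γ := G) hc hK
  refine ⟨hf.toFinset, ?_⟩
  filter_upwards [closedBall_mem_nhds z hr] with w hw γ hγ hm
  exact hγ (hf.mem_toFinset.2 ⟨γ • t w, ⟨t w, ⟨w, hw, rfl⟩, rfl⟩, hm⟩)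

theorem fin [T2Space X] (hq : IsQuotientCoveringMap p G) {K L : Set Y} (hK : IsCompact K)
    (hL : IsCompact L) : ∃ A : Finset G, ∀ y ∈ K, ∀ γ ∉ A, γ • y ∉ L := by
  have := MP_bbd4b9_ag.SI.CovTop.proper hq
  have hf := ProperlyDiscontinuousSMul.finite_disjoint_inter_image (Γ := G) hK hL
  exact ⟨hf.toFinset, fun y hy γ hγ hm => hγ (hf.mem_toFinset.2 ⟨γ • y, ⟨y, hy, rfl⟩, hm⟩)⟩

/-- the squared norm in `ℓ²(G)`. -/
noncomputable def nn (G : Type) [SMul G Y] (f : Y → ℝ) (y : Y) : ℝ := ∑' γ : G, f (γ • y) ^ 2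

omit [TopologicalSpace Y] in
theorem nn_smul (f : Y → ℝ) (γ : G) (y : Y) : nn G f (γ • y) = nn G f y := by
  rw [nn, nn, ← (Equiv.mulRight γ).tsum_eq fun δ => f (δ • y) ^ 2]
  simp only [Equiv.coe_mulRight, mul_smul]

theorem norm [T2Space X] (hq : IsQuotientCoveringMap p G) (hc : HasCompactSupport f)
    (h0 : ∀ y, 0 ≤ f y) (hs : SmY M p f) (hn : ∀ y, 0 < nn G f y) :
    ∃ f1 : Y → ℝ, HasCompactSupport f1 ∧ (∀ y, 0 ≤ f1 y) ∧ SmY M p f1 ∧
      (∀ y, ∑' γ : G, f1 (γ • y) ^ 2 = 1) ∧ ∀ e ∈ M.A, ∀ z ∈ e.target, ∀ t, F12.Sec p e z t →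
        (gram G f1 t z).PosSemidef ∧ ∃ A : Finset G, ∀ x : ι × Fin 2 → ℝ,
          x ⬝ᵥ gram G f1 t z *ᵥ x * nn G f (t z) ≤
            ∑ γ ∈ A, fderiv ℝ (fun w => f (γ • t w)) z (∑ q, x q • reB q) ^ 2 := by
  have ev : ∀ {e : Ch ι X} {z t}, z ∈ e.target → F12.Sec p e z t →
      ∃ A : Finset G, ∀ᶠ w in 𝓝 z, ∀ γ ∉ A, f (γ • t w) = 0 := fun hz ht =>
    (lf hq hc hz ht).imp fun _ h => h.mono fun _ h γ hγ =>
      image_eq_zero_of_notMem_tsupport (h γ hγ)
  have sn : ∀ e ∈ M.A, ∀ z ∈ e.target, ∀ t, F12.Sec p e z t →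
      ContDiffAt ℝ ∞ (fun w => √(nn G f (t w))) z := fun e he z hz t ht => by
    obtain ⟨A, hA⟩ := ev hz ht
    refine ContDiffAt.sqrt ?_ (hn _).ne'
    refine (ContDiffAt.sum (s := A) fun γ _ =>
      (hs e he z hz _ (ht.smul hq γ)).pow 2).congr_of_eventuallyEq (hA.mono fun w hw => ?_)
    exact tsum_eq_sum fun γ hγ => by rw [hw γ hγ, zero_pow two_ne_zero]
  have s1 : SmY M p fun y => f y / √(nn G f y) := fun e he z hz t ht =>
    (hs e he z hz t ht).div (sn e he z hz t ht) (Real.sqrt_pos.2 (hn _)).ne'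
  have n1 : ∀ y, ∑' γ : G, (f (γ • y) / √(nn G f (γ • y))) ^ 2 = 1 := fun y => by
    simp only [nn_smul, div_pow, Real.sq_sqrt (hn y).le]
    rw [tsum_div_const]
    exact div_self (hn y).ne'
  refine ⟨fun y => f y / √(nn G f y), hc.mono fun y hy h => hy (by simp only [h, zero_div]),
    fun y => div_nonneg (h0 y) (Real.sqrt_nonneg _), s1, n1, fun e he z hz t ht => ?_⟩
  obtain ⟨A, hA⟩ := ev hz ht
  have d0 : ∀ γ ∉ A, fderiv ℝ (fun w => f (γ • t w) / √(nn G f (γ • t w))) z = 0 := fun γ hγ => by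
    have : (fun w => f (γ • t w) / √(nn G f (γ • t w))) =ᶠ[𝓝 z] fun _ => 0 :=
      hA.mono fun w hw => by simp only [hw γ hγ, zero_div]
    rw [this.fderiv_eq, fderiv_fun_const, Pi.zero_apply]
  refine ⟨gram_psd (f := fun y => f y / √(nn G f y)) d0, A, fun x => ?_⟩
  rw [gram_eq (f := fun y => f y / √(nn G f y)) d0, ← Real.sq_sqrt (hn (t z)).le]
  refine (core (s := fun w => √(nn G f (t w))) _
    ((sn e he z hz t ht).differentiableAt (by simp))
    (fun γ => (s1 e he z hz _ (ht.smul hq γ)).differentiableAt (by simp))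
    (hA.mono fun w hw => ?_)).trans (le_of_eq ?_)
  · rw [← n1 (t w)]
    exact (tsum_eq_sum fun γ hγ => by simp only [hw γ hγ, zero_div, zero_pow two_ne_zero]).symm
  · refine Finset.sum_congr rfl fun γ _ => ?_
    congr 3
    funext w
    simp only [nn_smul]
    rw [mul_div_cancel₀ _ (Real.sqrt_pos.2 (hn _)).ne']

end SphN

end Pool.Agent.Lib.MP_813db1_ag.SV
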