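import Pool.Agent.Lib.MP_813db1_ag.SV.Defs

/-! The estimate of Hoermander for a line bundle on the sheets: statements. -/

namespace Pool.Agent.Lib.MP_813db1_ag.SV

open Pool.Agent.Lib.MP_813db1_ag.HS Pool.Agent.Lib.MP_813db1_ag.AS Pool.Agent.Lib.MP_813db1_ag.AN
open Pool.Agent.Lib.MP_bbd4b9_ag.BR (FinT)
open MeasureTheory Complex Matrix Filter Topology Set Metric
open scoped ContDiff ComplexOrder ENNReal Manifold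

variable {ι Y : Type} [Fintype ι] [DecidableEq ι] [TopologicalSpace Y] [MeasurableSpace Y]
  {M : Atl ι Y} {g : Y → Mat ι} {ν : Measure Y}

namespace Sg

variable (S : Sg M g ν)

/-- integration, bounds, partitions of unity. -/
structure BasA : Prop where
  fin : IsFiniteMeasureOnCompacts ν
  pos : ν.IsOpenPosMeasure
  cpt : ∀ k, ∀ r < (4 : ℝ), IsCompact (S.B k r)
  ms : ∀ k (A : Set (V ι)), MeasurableSet A → MeasurableSet ((S.c k).source ∩ S.c k ⁻¹' A)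
  lint : ∀ k (A : Set (V ι)), MeasurableSet A → A ⊆ ball 0 4 → ∀ F : Y → ℝ≥0∞,
    ∫⁻ y in (S.c k).source ∩ S.c k ⁻¹' A, F y ∂ν =
      ∫⁻ z in A, ENNReal.ofReal (S.H (S.ty k) z).det.re * F ((S.c k).symm z)
  int : ∀ k (A : Set (V ι)), MeasurableSet A → A ⊆ ball 0 4 → ∀ F : Y → ℂ,
    ∫ y in (S.c k).source ∩ S.c k ⁻¹' A, F y ∂ν =
      ∫ z in A, ((S.H (S.ty k) z).det.re : ℂ) * F ((S.c k).symm z)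
  intR : ∀ k (A : Set (V ι)), MeasurableSet A → A ⊆ ball 0 4 → ∀ F : Y → ℝ,
    ∫ y in (S.c k).source ∩ S.c k ⁻¹' A, F y ∂ν =
      ∫ z in A, (S.H (S.ty k) z).det.re * F ((S.c k).symm z)
  bd : ∀ r < (4 : ℝ), ∃ L ≥ (1 : ℝ), ∀ a, ∀ z : V ι, ‖z‖ ≤ r → Bd L (S.H a z) ∧ Bd L (S.H a z)⁻¹ ∧
    Bd L (ric (S.H a) z) ∧ L⁻¹ ≤ (S.H a z).det.re ∧ (S.H a z).det.re ≤ L
  det : ∀ y, (g y).PosDef ∧ 0 < (g y).det.re ∧ g y = S.H (S.ty (S.ch y)) (S.c (S.ch y) y)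
  ov : ∀ (F : Y → ℝ) (T : Finset S.κ) (A : S.κ → Set Y), Integrable F ν → (∀ y, 0 ≤ F y) →
    (∀ k, MeasurableSet (A k) ∧ A k ⊆ (S.c k).source) →
    ∑ k ∈ T, ∫ y in A k, F y ∂ν ≤ S.n * ∫ y, F y ∂ν
  card : ∀ (T : Finset S.κ) y, (∀ k ∈ T, y ∈ (S.c k).source) → T.card ≤ S.n
  exh : ∃ K : ℕ → Finset S.κ, Monotone K ∧ ∀ k, ∃ j, k ∈ K j
  extR : ∀ k, ∀ r < (4 : ℝ), ∀ u : V ι → ℝ, ContDiff ℝ ∞ u → (∀ z, r < ‖z‖ → u z = 0) →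
    M.Ck ∞ (S.extR k u) ∧ HasCompactSupport (S.extR k u) ∧ tsupport (S.extR k u) ⊆ S.B k r
  pou : ∃ χ : S.κ → Y → ℝ, (∀ k, M.Ck ∞ (χ k) ∧ ∀ y, 0 ≤ χ k y ∧ (χ k y ≠ 0 → y ∈ S.B k 2)) ∧
    ∀ (T : Finset S.κ) y, (∀ k, y ∈ S.B k 2 → k ∈ T) → ∑ k ∈ T, χ k y = 1

/-- the divergence theorem. -/
def Dv : Prop := ∀ (W : S.κ → V ι → V ι) (d : Y → ℂ) (K : Set Y), IsCompact K →
  (∀ k, ∀ z ∈ ball (0 : V ι) 4, ContDiffAt ℝ 1 (W k) z) →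
  (∀ k l y, y ∈ (S.c k).source → y ∈ (S.c l).source → tj (S.c k) (S.c l) y *ᵥ W k (S.c k y) =
    ((‖(tj (S.c k) (S.c l) y).det‖ ^ 2 : ℝ) : ℂ) • W l (S.c l y)) →
  (∀ k, ∀ y ∈ (S.c k).source, y ∉ K → W k (S.c k y) = 0) →
  (∀ y, ∑ i, dz (fun w => W (S.ch y) w i) i (S.c (S.ch y) y) = ((g y).det.re : ℂ) * d y) →
  Continuous d ∧ (∀ y ∉ K, d y = 0) ∧ ∫ y, d y ∂ν = 0

/-- functions with a zero of arbitrary order and a compact part of the zero set. -/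
def Pole : Prop := ∃ s ≥ (0 : ℝ), ∀ (y : Y) (N : ℕ), ∃ (W : Set Y) (P : Y → ℝ), IsOpen W ∧
  IsCompact (closure W) ∧ y ∈ W ∧ QP M g s P ∧ (∀ ε > (0 : ℝ), IsCompact {x | ε ≤ P x}) ∧
  S.Ord P y N ∧ ∀ x ∈ frontier W, 0 < P x

end Sg

namespace Bun

variable {S : Sg M g ν} {ξ : Y → Mat ι} (T : Bun S ξ)

/-- sections read in the sheets. -/
structure BasB : Prop where
  bd : ∀ r < (4 : ℝ), ∃ L ≥ (1 : ℝ), ∀ a, ∀ z : V ι, ‖z‖ ≤ r → |T.ρ a z| ≤ L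
  ne : ∀ k, ∀ y ∈ (S.c k).source, T.U k y ≠ 0
  pt : ∀ σ k, ∀ y ∈ (S.c k).source, S.rep T.U σ k (S.c k y) = T.U k y * σ y
  tr : ∀ σ k l y, y ∈ (S.c k).source → y ∈ (S.c l).source → S.rep T.U σ k (S.c k y) =
    T.U k y / T.U l y * S.rep T.U σ l (S.c l y)
  zero : ∀ σ k, ∀ y ∈ (S.c k).source, S.rep T.U σ k (S.c k y) = 0 ↔ σ y = 0
  wt : ∀ k l y, y ∈ (S.c k).source → y ∈ (S.c l).source →
    Real.exp (-T.ρ (S.ty k) (S.c k y)) * ‖T.U k y / T.U l y‖ ^ 2 =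
    ‖(tj (S.c k) (S.c l) y).det‖ ^ 2 * Real.exp (-T.ρ (S.ty l) (S.c l y))
  ip : ∀ σ τ k, ∀ y ∈ (S.c k).source,
    ((S.H (S.ty k) (S.c k y)).det.re : ℂ) * (σ y * star (τ y)) =
    S.rep T.U σ k (S.c k y) * star (S.rep T.U τ k (S.c k y)) *
      (Real.exp (-T.ρ (S.ty k) (S.c k y)) : ℝ)
  dn : ∀ σ k, ∀ y ∈ (S.c k).source, (S.H (S.ty k) (S.c k y)).det.re * ‖σ y‖ ^ 2 =
    ‖S.rep T.U σ k (S.c k y)‖ ^ 2 * Real.exp (-T.ρ (S.ty k) (S.c k y))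
  sm_loc : ∀ σ, (∀ y, ∃ k, y ∈ (S.c k).source ∧ ContDiffAt ℝ ∞ (S.rep T.U σ k) (S.c k y)) →
    S.Sm T.U σ
  hol_loc : ∀ σ, (∀ y, ∃ k, y ∈ (S.c k).source ∧ AnalyticAt ℂ (S.rep T.U σ k) (S.c k y)) →
    S.Hol T.U σ
  hol_an : ∀ σ, S.Hol T.U σ → S.Sm T.U σ ∧ ∀ k, AnalyticOnNhd ℂ (S.rep T.U σ k) (ball 0 4)
  glue : ∀ F : S.κ → V ι → ℂ, (∀ k l y, y ∈ (S.c k).source → y ∈ (S.c l).source →
    F k (S.c k y) = T.U k y / T.U l y * F l (S.c l y)) →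
    ∃ σ, ∀ k, ∀ z ∈ ball (0 : V ι) 4, S.rep T.U σ k z = F k z
  lin : ∀ (a b : ℂ) σ τ k z, S.rep T.U (fun y => a * σ y + b * τ y) k z =
    a * S.rep T.U σ k z + b * S.rep T.U τ k z
  mul : ∀ (u : Y → ℂ) σ k z,
    S.rep T.U (fun y => u y * σ y) k z = u ((S.c k).symm z) * S.rep T.U σ k z
  sum : ∀ (J : Type) (F : Finset J) (σ : J → Y → ℂ) k z,
    S.rep T.U (fun y => ∑ j ∈ F, σ j y) k z = ∑ j ∈ F, S.rep T.U (σ j) k z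
  ck_lin : ∀ (a b : ℂ) σ τ, S.Sm T.U σ → S.Sm T.U τ → S.Sm T.U fun y => a * σ y + b * τ y
  ck_mul : ∀ (u : Y → ℝ) σ, M.Ck ∞ u → S.Sm T.U σ → S.Sm T.U fun y => u y * σ y
  dc_lin : ∀ (a b : ℂ) σ τ, S.Dc T.U σ → S.Dc T.U τ → S.Dc T.U fun y => a * σ y + b * τ y
  dc_sum : ∀ (J : Type) (F : Finset J) (σ : J → Y → ℂ), (∀ j ∈ F, S.Dc T.U (σ j)) →
    S.Dc T.U fun y => ∑ j ∈ F, σ j y
  cont : ∀ σ τ, S.Sm T.U σ → S.Sm T.U τ → Continuous fun y => σ y * star (τ y)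
  ck : ∀ σ, S.Sm T.U σ → M.Ck ∞ (fun y => ‖σ y‖ ^ 2) ∧ Continuous fun y => ‖σ y‖ ^ 2
  ext : ∀ k, ∀ r < (4 : ℝ), ∀ w, Tf r w → S.Dc T.U (S.ext T.U k w) ∧
    (∀ z ∈ ball (0 : V ι) 4, S.rep T.U (S.ext T.U k w) k z = w z) ∧
    (∀ y, S.ext T.U k w y ≠ 0 → y ∈ (S.c k).source ∧ w (S.c k y) ≠ 0) ∧
    tsupport (S.ext T.U k w) ⊆ S.B k r
  cut : ∀ σ k, ∀ r < (4 : ℝ), S.Sm T.U σ → (∀ y, σ y ≠ 0 → y ∈ S.B k r) →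
    Tf r ((ball (0 : V ι) 4).indicator (S.rep T.U σ k))

/-- the differential operators. -/
structure BasC : Prop where
  box : ∀ ψ σ, M.Ck ∞ ψ → S.Sm T.U σ → ∀ k, ∀ z ∈ ball (0 : V ι) 4,
    S.rep T.U (T.box ψ σ) k z = bx (T.Φ ψ k) (S.H (S.ty k)) (S.rep T.U σ k) z
  shp : ∀ σ, S.Sm T.U σ → ∀ k l y, y ∈ (S.c k).source → y ∈ (S.c l).source →
    tj (S.c k) (S.c l) y *ᵥ shp (S.H (S.ty k)) (S.rep T.U σ k) (S.c k y) =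
      (T.U k y / T.U l y) •
        shp (S.H (S.ty l)) (S.rep T.U σ l) (S.c l y)
  ip1 : ∀ B σ τ, S.Sm T.U σ → S.Sm T.U τ → ∀ k, ∀ y ∈ (S.c k).source,
    ((S.H (S.ty k) (S.c k y)).det.re : ℂ) * S.ip1 T.U B σ τ y =
      ipV (M.repF B (S.c k) (S.c k y)) (HS.shp (S.H (S.ty k)) (S.rep T.U σ k) (S.c k y))
        (HS.shp (S.H (S.ty k)) (S.rep T.U τ k) (S.c k y)) *
          (Real.exp (-T.ρ (S.ty k) (S.c k y)) : ℝ)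
  cont : ∀ B σ τ, M.SmF B → S.Sm T.U σ → S.Sm T.U τ → Continuous (S.ip1 T.U B σ τ)
  nn : ∀ B σ y, (B y).PosSemidef → 0 ≤ (S.ip1 T.U B σ σ y).re
  off : ∀ ψ σ y, (∀ᶠ x in 𝓝 y, σ x = 0) → T.box ψ σ y = 0 ∧ S.vec T.U σ y = 0
  dc : ∀ ψ σ, M.Ck ∞ ψ → S.Dc T.U σ → S.Dc T.U (T.box ψ σ)
  lin : ∀ ψ (a b : ℂ) σ τ y, S.Sm T.U σ → S.Sm T.U τ →
    T.box ψ (fun x => a * σ x + b * τ x) y = a * T.box ψ σ y + b * T.box ψ τ y ∧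
    S.vec T.U (fun x => a * σ x + b * τ x) y = a • S.vec T.U σ y + b • S.vec T.U τ y
  levi : ∀ ψ, M.Ck ∞ ψ → ∀ k, ∀ z ∈ ball (0 : V ι) 4, ContDiffAt ℝ ∞ (T.Φ ψ k) z ∧
    levi (fun w => (T.Φ ψ k w : ℂ)) z = M.repF (fun y => ξ y + M.ddc ψ y) (S.c k) z

/-- the gradient term read in the sheets. -/
structure BasN : Prop where
  nd : ∀ σ, S.Sm T.U σ → ∀ k, ∀ y ∈ (S.c k).source,
    (S.H (S.ty k) (S.c k y)).det.re * T.nd σ y =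
      nD (S.H (S.ty k)) (HS.shp (S.H (S.ty k)) (S.rep T.U σ k)) (S.c k y) *
        Real.exp (-T.ρ (S.ty k) (S.c k y))
  nn : ∀ σ y, 0 ≤ T.nd σ y
  cont : ∀ σ, S.Sm T.U σ → Continuous (T.nd σ)
  off : ∀ σ y, (∀ᶠ x in 𝓝 y, σ x = 0) → T.nd σ y = 0

/-- the mean value inequality. -/
def Mv : Prop := ∃ C ≥ (0 : ℝ), ∀ σ k (z : V ι) (τ : ℝ), 0 < τ → τ ≤ 1 / 2 → ‖z‖ ≤ 3 →
  AnalyticOnNhd ℂ (S.rep T.U σ k) (closedBall z τ) →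
  ‖σ ((S.c k).symm z)‖ ^ 2 * τ ^ (2 * Fintype.card ι) ≤
    C * ∫ y in (S.c k).source ∩ S.c k ⁻¹' closedBall z τ, ‖σ y‖ ^ 2 ∂ν

/-- the formula of Green. -/
def Grn : Prop := ∀ ψ σ τ, M.Ck ∞ ψ → S.Dc T.U σ → S.Dc T.U τ →
  q0 ν ψ (T.box ψ σ) τ = -S.p1 T.U ψ σ τ

/-- the identity of Bochner and Kodaira. -/
def BkI : Prop := ∀ ψ σ, M.Ck ∞ ψ → S.Dc T.U σ → q0 ν ψ (T.box ψ σ) (T.box ψ σ) =
  ∫ y, (S.ip1 T.U (fun x => ξ x + M.ddc ψ x) σ σ y).re * Real.exp (-ψ y) ∂ν +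
    ∫ y, T.nd σ y * Real.exp (-ψ y) ∂ν

/-- the global parametrix. -/
def Den : Prop := ∀ ψ, M.Ck ∞ ψ → FinT S.toSt ψ → ∃ lam > (0 : ℝ), ∀ u, S.Dc T.U u →
  ∃ w, S.Dc T.U w ∧ q0 ν ψ (fun y => lam * w y - T.box ψ w y - u y)
    (fun y => lam * w y - T.box ψ w y - u y) ≤ q0 ν ψ u u / 4

/-- the estimate of Hoermander. -/
def Hor : Prop := ∀ (c A : ℝ) ψ u, 0 < c → M.Ck ∞ ψ → FinT S.toSt ψ → (∀ y, ψ y ≤ A) →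
  T.Gap ψ c → S.Dc T.U u → ∀ ε > (0 : ℝ),
  ∃ h, S.H2 T.U h ∧ Integrable (fun y => ‖u y - h y‖ ^ 2 * Real.exp (-ψ y)) ν ∧
    ∫ y, ‖u y - h y‖ ^ 2 * Real.exp (-ψ y) ∂ν ≤ 2 * (S.p1 T.U ψ u u / c) + ε

/-- decay and sums of square integrable sections. -/
structure BasD : Prop where
  dec : ∀ σ, S.H2 T.U σ → ∀ ε > (0 : ℝ), IsCompact {y | ε ≤ ‖σ y‖ ^ 2}
  h2 : ∀ (J : Type) (F : Finset J) (d : J → ℂ) (σ : J → Y → ℂ), (∀ j ∈ F, S.H2 T.U (σ j)) →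
    S.H2 T.U fun y => ∑ j ∈ F, d j * σ j y
  lim : ∀ (h : ℕ → Y → ℂ) (d : ℕ → ℝ), (∀ j, S.H2 T.U (h j)) → Tendsto d atTop (𝓝 0) →
    (∀ i j, i ≤ j → ∫ y, ‖h i y - h j y‖ ^ 2 ∂ν ≤ d i) →
    ∃ h', S.H2 T.U h' ∧ ∀ y, Tendsto (fun j => h j y) atTop (𝓝 (h' y))

/-- the estimate of Hoermander for a weight of positive curvature. -/
def HorP : Prop := ∀ (c A : ℝ) ψ u, 0 < c → M.Ck ∞ ψ → FinT S.toSt ψ → (∀ y, ψ y ≤ A) →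
  (∀ y, (ξ y + M.ddc ψ y - (c : ℂ) • g y).PosSemidef) → S.Dc T.U u → ∀ ε > (0 : ℝ),
  ∃ h, S.H2 T.U h ∧ Integrable (fun y => ‖u y - h y‖ ^ 2 * Real.exp (-ψ y)) ν ∧
    ∫ y, ‖u y - h y‖ ^ 2 * Real.exp (-ψ y) ∂ν ≤ 2 * (S.p1 T.U ψ u u / c) + ε

/-- sums of squares of sections. -/
def Lg : Prop := ∀ (m : ℕ) (σ : Fin m → Y → ℂ), (∀ j, S.Hol T.U (σ j)) →
  QB M (fun y => ξ y - M.ricF g y) fun y => ∑ j, ‖σ j y‖ ^ 2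

/-- everything that the later steps use. -/
structure All : Prop where
  b : T.BasB
  c : T.BasC
  d : T.BasD
  mv : T.Mv
  hor : T.HorP
  lg : T.Lg

/-- interpolation at points of disjoint sheets. -/
def Itp : Prop := ∀ (m : ℕ) (y : Fin m → Y),
  (∀ i j x, x ∈ S.B (S.ch (y i)) 3 → x ∈ S.B (S.ch (y j)) 3 → i = j) →
  ∃ h : Fin m → Y → ℂ, (∀ i, S.H2 T.U (h i)) ∧
    ∀ d : Fin m → ℂ, (∀ j, ∑ i, d i * h i (y j) = 0) → d = 0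

/-- sections of high order with a compact base locus. -/
def Bs : Prop := ∀ (y : Y) (N : ℕ), ∃ (W : Set Y) (m : ℕ) (σ : Fin m → Y → ℂ),
  IsOpen W ∧ IsCompact (closure W) ∧ y ∈ W ∧
    (∀ j, S.H2 T.U (σ j) ∧ S.Ord (fun x => ‖σ j x‖ ^ 2) y N) ∧ ∀ x ∈ frontier W, ∃ j, σ j x ≠ 0

end Bun

/-- interpolation holds for all sufficiently positive bundles. -/
def Sg.ItpS (S : Sg M g ν) : Prop := ∃ s ≥ (0 : ℝ), ∀ (ξ : Y → Mat ι) (T : Bun S ξ), T.All →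
  (∀ y, (ξ y - (s : ℂ) • g y).PosSemidef) → T.Itp

end Pool.Agent.Lib.MP_813db1_ag.SV
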