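import Pool.Agent.Lib.MP_813db1_ag.SV.StA

/-! The spherical volume and the canonical bundle: statements. -/

namespace Pool.Agent.Lib.MP_813db1_ag.SV

open Pool.Agent.Lib.MP_813db1_ag.HS Pool.Agent.Lib.MP_813db1_ag.AS Pool.Agent.Lib.MP_813db1_ag.AN
open MeasureTheory Complex Matrix Filter Topology Set Metric
open scoped ContDiff ComplexOrder ENNReal Manifold

/-! ### local statements -/

/-- division by a function with a smooth zero set. -/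
def DivL : Prop := ∀ (ι : Type) [Fintype ι] (F τ : V ι → ℂ) (z : V ι), AnalyticAt ℂ F z →
  AnalyticAt ℂ τ z → (τ z = 0 → fderiv ℂ τ z ≠ 0) → (∀ᶠ w in 𝓝 z, τ w = 0 → F w = 0) →
  ∃ F', AnalyticAt ℂ F' z ∧ ∀ᶠ w in 𝓝 z, F w = τ w * F' w

/-- `1 / |τ|²` is not integrable near a zero. -/
def NonI : Prop := ∀ (ι : Type) [Fintype ι] (τ : V ι → ℂ) (z : V ι), AnalyticAt ℂ τ z →
  τ z = 0 → fderiv ℂ τ z ≠ 0 → ∀ O ∈ 𝓝 z, ¬ IntegrableOn (fun w => (‖τ w‖ ^ 2)⁻¹) O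

/-- zero sets are null. -/
def NulL : Prop := ∀ (ι : Type) [Fintype ι] (F : V ι → ℂ) (O : Set (V ι)), IsOpen O →
  IsPreconnected O → AnalyticOnNhd ℂ F O → (∃ z ∈ O, F z ≠ 0) → volume {z ∈ O | F z = 0} = 0

/-- the volume density of a real quadratic form below a Hermitian form plus a real square. -/
def AlgL : Prop := ∀ (ι : Type) [Fintype ι] [DecidableEq ι] (Q : Matrix (ι × Fin 2) (ι × Fin 2) ℝ)
  (H : Mat ι) (a : V ι) (c r : ℝ), Q.PosSemidef → H.PosDef → 0 ≤ c → 0 < r →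
  (∀ x : ι × Fin 2 → ℝ, x ⬝ᵥ Q *ᵥ x ≤
    c * (nV H (∑ q, x q • reB q) + (2 * (∑ i, a i * (∑ q, x q • reB q) i).re) ^ 2)) →
  √Q.det ≤ c ^ Fintype.card ι *
    ((1 + r) * H.det.re + (H + vecMulVec a (star a)).det.re / r) ∧
  (a = 0 → √Q.det ≤ c ^ Fintype.card ι * H.det.re)

/-! ### statements about one polarised family of sheets -/

namespace Pol

variable {ι Y : Type} [Fintype ι] [DecidableEq ι] [TopologicalSpace Y] [MeasurableSpace Y]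
  {M : Atl ι Y} {g : Y → Mat ι} {ν : Measure Y} {S : Sg M g ν} (P : Pol S)

/-- the bundles `a K + b L`, and bounds for the curvature of `K`. -/
structure Bn : Prop where
  ex : ∀ a b : ℕ, ∃ T : Bun S (th M g (a - 1) b), T.U = P.U a b ∧ T.All
  c0 : ∃ c : ℕ, ∀ y, (th M g 1 c y).PosSemidef ∧ (th M g (-1) c y).PosSemidef

/-- sections that do not vanish at a given point. -/
def Nz : Prop := ∃ s : ℕ, 1 ≤ s ∧ ∀ y, ∃ h, S.H2 (P.U 1 s) h ∧ h y ≠ 0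

/-- division of sections. -/
structure Div (τ : Y → ℂ) : Prop where
  null : ν {y | τ y = 0} = 0
  one : ∀ a b H, S.Hol (P.U a (b + 1)) H → (∀ y, τ y = 0 → H y = 0) →
    ∃ h, S.Hol (P.U a b) h ∧ ∀ y, H y = τ y * h y
  pow : ∀ a b i H, S.Hol (P.U a (b + i)) H →
    (∀ k, IntegrableOn (fun y => ‖H y‖ ^ 2 * (‖τ y‖ ^ (2 * i))⁻¹) (S.B k 1) ν) →
    ∃ h, S.Hol (P.U a b) h ∧ ∀ y, H y = τ y ^ i * h y

/-- zero sets of sections are null. -/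
def Nul : Prop := ∀ a b s, S.Hol (P.U a b) s → (∃ y, s y ≠ 0) → ν {y | s y = 0} = 0

/-- the estimate of Hoermander for a singular weight. -/
def HorE : Prop := ∀ (a b C : ℕ) (β : Y → Mat ι) (Q ψ : Y → ℝ) (q c : ℝ) (u : Y → ℂ), 0 < c →
  0 ≤ q → QB M β Q → (∀ ε > (0 : ℝ), IsCompact {y | ε ≤ Q y}) →
  (∀ y, (β y + (C : ℂ) • g y).PosSemidef) → M.Ck ∞ ψ → HasCompactSupport ψ →
  (∀ y, (th M g (a - 1) b y - (q : ℂ) • β y + M.ddc ψ y - (c : ℂ) • g y).PosSemidef) →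
  S.Dc (P.U a b) u → (∀ y, Q y = 0 → S.vec (P.U a b) u y = 0) →
  Integrable (fun y => (S.ip1 (P.U a b) g u u y).re * Q y ^ (-q) * Real.exp (-ψ y)) ν →
  ∀ ε > (0 : ℝ), ∃ h, S.H2 (P.U a b) h ∧
    Integrable (fun y => ‖u y - h y‖ ^ 2 * Q y ^ (-q) * Real.exp (-ψ y)) ν ∧
    ∫ y, ‖u y - h y‖ ^ 2 * Q y ^ (-q) * Real.exp (-ψ y) ∂ν ≤
      2 * ((∫ y, (S.ip1 (P.U a b) g u u y).re * Q y ^ (-q) * Real.exp (-ψ y) ∂ν) / c) + ε

/-- one step of the iteration. -/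
def Imp : Prop := ∀ (m k : ℕ) (s : Y → ℂ) (y : Y), 1 ≤ m → 1 ≤ k → S.H2 (P.U m k) s → s y ≠ 0 →
  ∃ s', S.H2 (P.U m k) s' ∧ s' y ≠ 0 ∧
    Integrable (fun x => ‖s' x‖ ^ 2 * (‖s x‖ ^ 2) ^ (-(((m : ℝ) - 1) / m))) ν

/-- sections that are integrable to a small power, with local suprema. -/
def Lps : Prop := ∀ (m k : ℕ) (s : Y → ℂ) (y : Y), 1 ≤ m → 1 ≤ k → S.H2 (P.U m k) s → s y ≠ 0 →
  ∃ (r : ℝ) (s' : Y → ℂ) (b : S.κ → ℝ), 0 < r ∧ r ≤ 2 ∧ 2 ≤ r * m ∧ r * m ≤ 4 ∧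
    S.Hol (P.U m k) s' ∧ s' y ≠ 0 ∧ Summable b ∧ ∀ l, ∀ x ∈ S.B l 2, ‖s' x‖ ^ r ≤ b l

/-- the count of sections from a singular weight (compact `Y`). -/
def Ber (c : ℝ) : Prop := ∀ (m k : ℕ) (e ε w : ℝ) (Q : Y → ℝ), 1 ≤ m → 0 ≤ e → 0 < ε →
  QB M (th M g m (k + e)) Q → ν {y | Q y = 0} = 0 →
  ENNReal.ofReal w ≤ ∫⁻ y in {y | 0 < Q y}, ENNReal.ofReal (rat (fun x => ((m : ℂ)⁻¹) •
    (th M g m (k + e) x + M.ddc (fun z => Real.log (Q z)) x) + (ε : ℂ) • g x) g y) ∂ν →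
  ∀ᶠ j : ℕ in atTop, ∃ b : ℕ, (b : ℝ) ≤ j * ((k + e) / m + 2 * ε) ∧
    S.Cnt (P.U j b) (c * w * (j : ℝ) ^ Fintype.card ι)

/-- restriction to the divisor (compact `Y`). -/
def Res : Prop := ∀ t : ℝ, ∃ C ≥ (0 : ℝ), ∀ (j b : ℕ) (r : ℝ), 1 ≤ j → (b : ℝ) + 1 ≤ t * j →
  S.Cnt (P.U j (b + 1)) r → S.Cnt (P.U j b) (r - C * (j : ℝ) ^ (Fintype.card ι - 1))

end Pol

/-- the constant of the count depends only on the dimension. -/
def BerS : Prop := ∀ (ι : Type) [Fintype ι] [DecidableEq ι] [Nonempty ι], ∃ c > (0 : ℝ),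
  ∀ (Y : Type) [TopologicalSpace Y] [T2Space Y] [CompactSpace Y] [MeasurableSpace Y]
    [BorelSpace Y] (M : Atl ι Y) (g : Y → Mat ι) (ν : Measure Y) (S : Sg M g ν) (P : Pol S),
    S.BasA → P.Bn → P.HorE → P.Ber c

/-! ### the base -/

/-- sheets over charts that are subordinate to given open sets, with the action of the group. -/
def StS2 : Prop := ∀ (ι X Y G : Type) [Fintype ι] [DecidableEq ι] [TopologicalSpace X] [T2Space X]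
  [CompactSpace X] [TopologicalSpace Y] [ConnectedSpace Y] [Group G] [MulAction G Y]
  (MX : Atl ι X) (gX : X → Mat ι) (p : Y → X) (O : X → Set X), MX.IsK gX →
  IsQuotientCoveringMap p G → (∀ x, IsOpen (O x) ∧ x ∈ O x) →
  T2Space Y ∧ ∃ (M : Atl ι Y) (g : Y → Mat ι) (S : St M g) (L : Lk MX gX p S) (m : G → S.κ → S.κ),
    (∀ a, ∃ x, (L.e a).source ⊆ O x) ∧ (∀ k, Function.Injective fun γ => m γ k) ∧
    ∀ γ k, ∀ z ∈ ball (0 : V ι) 4, (S.c (m γ k)).symm z = γ • (S.c k).symm z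

/-- the base carries sheets for the identity map. -/
def SelfS : Prop := ∀ (ι X : Type) [Fintype ι] [DecidableEq ι] [TopologicalSpace X] [T2Space X]
  [CompactSpace X] [ConnectedSpace X] (MX : Atl ι X) (gX : X → Mat ι) (O : X → Set X),
  MX.IsK gX → (∀ x, IsOpen (O x) ∧ x ∈ O x) →
  ∃ (M : Atl ι X) (g : X → Mat ι) (S : St M g) (L : Lk M g id S), M.A = MX.A ∧
    (∀ e ∈ M.A, ∀ z ∈ e.target, M.repF g e z = MX.repF gX e z) ∧ ∀ a, ∃ x, (L.e a).source ⊆ O x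

/-- the frames on the sheets. -/
def PolS : Prop := ∀ (ι X Y : Type) [Fintype ι] [DecidableEq ι] [TopologicalSpace X]
  [TopologicalSpace Y] [MeasurableSpace Y] (MX : Atl ι X) (gX : X → Mat ι) (N : ℕ)
  (σ : Fin N → X → ℂ) (τ : X → ℂ) (p : Y → X) (M : Atl ι Y) (g : Y → Mat ι) (ν : Measure Y)
  (S : Sg M g ν) (L : Lk MX gX p S.toSt), MX.IsK gX → IsLocalHomeomorph p → Prj MX gX σ →
  Brt MX gX σ τ → (∀ a, ∃ j, ∀ x ∈ (L.e a).source, σ j x ≠ 0) →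
  ∃ P : Pol S, P.Sec0 (fun y => τ (p y)) ∧ ∀ a b s, HY MX gX σ p a b s ↔ S.Hol (P.U a b) s

/-- the theorem of Bertini. -/
def BrtS : Prop := ∀ (ι X : Type) [Fintype ι] [DecidableEq ι] [TopologicalSpace X]
  [CompactSpace X] (M : Atl ι X) (g : X → Mat ι) (N : ℕ) (σ : Fin N → X → ℂ), Prj M g σ →
  ∃ τ, Brt M g σ τ

/-- sections on the covering space that are summable to a small power. -/
def SecS : Prop := ∀ (ι X Y G : Type) [Fintype ι] [DecidableEq ι] [Nonempty ι]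
  [TopologicalSpace X] [T2Space X] [CompactSpace X] [TopologicalSpace Y] [ConnectedSpace Y]
  [Group G] [MulAction G Y] (M : Atl ι X) (g : X → Mat ι) (N : ℕ) (σ : Fin N → X → ℂ)
  (p : Y → X), M.IsK g → Prj M g σ → IsQuotientCoveringMap p G → ∃ s0 : ℕ,
  ∀ (m k j : ℕ) (s : X → ℂ), HY M g σ id m k s → (∃ x, s x ≠ 0) → ∃ (r : ℝ) (s' : Y → ℂ),
    0 < r ∧ r ≤ 2 ∧ 2 ≤ r * (j * m + 1 : ℕ) ∧ r * (j * m + 1 : ℕ) ≤ 4 ∧
    HY M g σ p (j * m + 1) (j * k + s0) s' ∧ (∃ y, s' y ≠ 0) ∧ Lp G fun y => ‖s' y‖ ^ r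

def PuS : Prop := ∀ (ι X Y G : Type) [Fintype ι] [DecidableEq ι] [TopologicalSpace X] [T2Space X]
  [CompactSpace X] [TopologicalSpace Y] [Group G] [MulAction G Y] (M : Atl ι X) (p : Y → X),
  IsQuotientCoveringMap p G → ∃ χ, Pu M G p χ

/-- the sum of the squares of the translates. -/
def RhoS : Prop := ∀ (ι X Y G : Type) [Fintype ι] [DecidableEq ι] [TopologicalSpace X]
  [T2Space X] [CompactSpace X] [MeasurableSpace X] [BorelSpace X] [TopologicalSpace Y]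
  [ConnectedSpace Y] [Group G] [MulAction G Y] (M : Atl ι X) (g : X → Mat ι) (μ : Measure X)
  (N : ℕ) (σ : Fin N → X → ℂ) (p : Y → X) (m k : ℕ) (s : Y → ℂ), M.IsK g → M.IsVol g μ →
  Prj M g σ → IsQuotientCoveringMap p G → HY M g σ p m k s → (∃ y, s y ≠ 0) →
  (Lp G fun y => ‖s y‖ ^ 2) → ∃ ρ : X → ℝ, (∀ y, HasSum (fun γ : G => ‖s (γ • y)‖ ^ 2) (ρ (p y))) ∧
    QB M (th M g m k) ρ ∧ μ {x | ρ x = 0} = 0

/-- slowly varying majorants. -/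
def SlowS : Prop := ∀ (G : Type) [Group G] (b : G → ℝ), Group.FG G → Summable b →
  ∃ a : G → ℝ, Summable a ∧ (∀ γ, 0 < a γ ∧ b γ ≤ a γ) ∧
    ∀ h, ∃ C, ∀ γ, |Real.log (a (γ * h)) - Real.log (a γ)| ≤ C

/-- the family. -/
def FamS : Prop := ∀ (ι X Y G : Type) [Fintype ι] [DecidableEq ι] [TopologicalSpace X]
  [T2Space X] [CompactSpace X] [MeasurableSpace X] [BorelSpace X] [TopologicalSpace Y]
  [ConnectedSpace Y] [Group G] [MulAction G Y] (M : Atl ι X) (g : X → Mat ι) (μ : Measure X)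
  (N : ℕ) (σ : Fin N → X → ℂ) (p : Y → X) (m k : ℕ) (r ε : ℝ) (s : Y → ℂ), M.IsK g →
  M.IsVol g μ → Prj M g σ → IsQuotientCoveringMap p G → 0 < r → r ≤ 2 → 0 < ε →
  HY M g σ p m k s → (∃ y, s y ≠ 0) → (Lp G fun y => ‖s y‖ ^ r) →
  ∃ F N', Fam M μ G p (th M g (r / 2 * m) (r / 2 * k + ε)) F N'

/-- the upper bound for the spherical volume. -/
def SphS : Prop := ∀ (ι X Y G : Type) [Fintype ι] [DecidableEq ι] [TopologicalSpace X]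
  [T2Space X] [CompactSpace X] [MeasurableSpace X] [BorelSpace X] [TopologicalSpace Y]
  [Group G] [MulAction G Y] (M : Atl ι X) (g β : X → Mat ι) (μ : Measure X) (p : Y → X)
  (F : Y → ℝ) (N : X → ℝ) (v η : ℝ), M.IsK g → M.IsVol g μ → M.ClF β →
  IsQuotientCoveringMap p G → Fam M μ G p β F N → SphA M g μ G p v → 0 < η →
  ENNReal.ofReal (v / 4 ^ Fintype.card ι) ≤ ∫⁻ x in {x | 0 < N x}, ENNReal.ofReal
    (rat (fun y => β y + M.ddc (fun z => Real.log (N z)) y + (η : ℂ) • g y) g x) ∂μ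

/-- the descent from `K + t L` to `K`; `Cn a b r` says that `a K + b L` has `r` sections. -/
def EndS : Prop := ∀ (n : ℕ) (c : ℝ) (Cn : ℕ → ℕ → ℝ → Prop) (Ef : ℕ → ℕ → Prop), 0 < n → 0 < c →
  (∀ a b r r', r' ≤ r → Cn a b r → Cn a b r') → (∀ a b r, 0 < r → Cn a b r → Ef a b) →
  (∃ k, Ef 1 k) →
  (∀ m k, 1 ≤ m → Ef m k → ∀ ε > (0 : ℝ), ∀ᶠ j : ℕ in atTop, ∃ b : ℕ,
    (b : ℝ) ≤ j * (k / m + ε) ∧ Cn j b (c * (j : ℝ) ^ n)) →
  (∀ t : ℝ, ∃ C ≥ (0 : ℝ), ∀ (j b : ℕ) (r : ℝ), 1 ≤ j → (b : ℝ) + 1 ≤ t * j →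
    Cn j (b + 1) r → Cn j b (r - C * (j : ℝ) ^ (n - 1))) →
  ∀ᶠ j : ℕ in atTop, Cn j 0 (c / 2 * (j : ℝ) ^ n)

/-- the passage from the charts of the manifold to the maximal atlas. -/
def TopS : Prop := ∀ (ι X : Type) [Fintype ι] [DecidableEq ι] [TopologicalSpace X]
  [ChartedSpace (ι → ℂ) X] (K : Kahler ι X) (M : Atl ι X) (g : X → Mat ι),
  atlas (ι → ℂ) X ⊆ M.A → M.IsK g →
  (∀ e ∈ atlas (ι → ℂ) X, ∀ z ∈ e.target, M.repF g e z = K.g e z) → Proj K →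
  ∃ (N : ℕ) (σ : Fin N → X → ℂ), Prj M g σ ∧ ∀ (a Q : ℕ) (s : Fin Q → X → ℂ),
    (∀ i, HY M g σ id a 0 (s i)) → LinearIndependent ℂ s →
    ∃ s' : Fin Q → Ch ι X → V ι → ℂ, (∀ i, IsPluri a (s' i)) ∧ Indep s'

/-- the theorem. -/
def MainS : Prop := ∀ (ι : Type) [Fintype ι] [DecidableEq ι] [Nonempty ι], ∃ c > (0 : ℝ),
  ∀ (X Y G : Type) [TopologicalSpace X] [T2Space X] [CompactSpace X] [ConnectedSpace X]
    [MeasurableSpace X] [BorelSpace X] [ChartedSpace (ι → ℂ) X] [IsManifold 𝓘(ℂ, ι → ℂ) ω X]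
    [TopologicalSpace Y] [ConnectedSpace Y] [Group G] [MulAction G Y] (K : Kahler ι X)
    (μ : Measure X) (p : Y → X) (v : ℝ), IsQuotientCoveringMap p G → Proj K → K.IsVol μ →
    0 < v → SphGe G K μ p v → ∀ᶠ a : ℕ in atTop, ∃ (Q : ℕ) (s : Fin Q → Ch ι X → V ι → ℂ),
      c * v * (a : ℝ) ^ Fintype.card ι ≤ Q ∧ (∀ j, IsPluri a (s j)) ∧ Indep s

end Pool.Agent.Lib.MP_813db1_ag.SV
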