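import Pool.Agent.Lib.MP_813db1_ag.AS.Top2

/-! Projective manifolds and the spherical volume. -/

namespace Pool.Agent.Lib.MP_813db1_ag.SV

open Pool.Agent.Lib.MP_813db1_ag.HS Pool.Agent.Lib.MP_813db1_ag.AS Filter Topology MeasureTheory
open scoped ContDiff

variable {ι X Y : Type} [Fintype ι] [DecidableEq ι] [TopologicalSpace X] [ChartedSpace (ι → ℂ) X]
  [TopologicalSpace Y]

/-- the Kaehler metric is the pull back of the Fubini-Study metric under a holomorphic map to a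
projective space; `σ e z` are homogeneous coordinates of the image of the point `z` of the
chart `e`. -/
def Proj (K : Kahler ι X) : Prop :=
  ∃ (N : ℕ) (σ : OpenPartialHomeomorph X (ι → ℂ) → (ι → ℂ) → Fin N → ℂ),
    (∀ e ∈ atlas (ι → ℂ) X, ∀ z ∈ e.target, AnalyticAt ℂ (σ e) z ∧ σ e z ≠ 0 ∧
      K.g e z = levi (fun w => (Real.log (∑ i, ‖σ e w i‖ ^ 2) : ℂ)) z) ∧
    ∀ e ∈ atlas (ι → ℂ) X, ∀ e' ∈ atlas (ι → ℂ) X, ∀ x ∈ e.source, x ∈ e'.source →
      ∃ c : ℂ, σ e (e x) = c • σ e' (e' x)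

/-- the Gram matrix at `z` of the differential of the map `w ↦ (f (g • t w))_g` to `ℓ²(G)`. -/
noncomputable def gram (G : Type) [SMul G Y] (f : Y → ℝ) (t : (ι → ℂ) → Y) (z : ι → ℂ) :
    Matrix (ι × Fin 2) (ι × Fin 2) ℝ :=
  Matrix.of fun q r => ∑' g : G, fderiv ℝ (fun w => f (g • t w)) z (reB q) *
    fderiv ℝ (fun w => f (g • t w)) z (reB r)

/-- the spherical volume is at least `v`: for every smooth `f ≥ 0` with compact support on `Y`
such that `y ↦ (f (g • y))_g` maps `Y` to the unit sphere of `ℓ²(G)`, the volume of `X` for the pulled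
back metric is at least `v`. Here `s` and `t x` are local inverses of `e ∘ p`. -/
def SphGe [MeasurableSpace X] (G : Type) [SMul G Y] (K : Kahler ι X) (μ : Measure X) (p : Y → X)
    (v : ℝ) : Prop :=
  ∀ (f : Y → ℝ) (t : X → (ι → ℂ) → Y), HasCompactSupport f → (∀ y, 0 ≤ f y) →
    (∀ e ∈ atlas (ι → ℂ) X, ∀ z ∈ e.target, ∀ s : (ι → ℂ) → Y, ContinuousAt s z →
      (∀ᶠ w in 𝓝 z, p (s w) = e.symm w) → ContDiffAt ℝ ∞ (fun w => f (s w)) z) →
    (∀ y, ∑' g : G, f (g • y) ^ 2 = 1) →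
    (∀ x, ContinuousAt (t x) (chartAt (ι → ℂ) x x) ∧
      ∀ᶠ w in 𝓝 (chartAt (ι → ℂ) x x), p (t x w) = (chartAt (ι → ℂ) x).symm w) →
    ENNReal.ofReal v ≤ ∫⁻ x, ENNReal.ofReal (√(gram G f (t x) (chartAt (ι → ℂ) x x)).det /
      (K.g (chartAt (ι → ℂ) x) (chartAt (ι → ℂ) x x)).det.re) ∂μ

end Pool.Agent.Lib.MP_813db1_ag.SV
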