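import Pool.Agent.Lib.MP_813db1_ag.SV.Top

/-! Bounded cohomology classes of the group of a covering evaluated on the fundamental class. -/

namespace Pool.Agent.Lib.MP_813db1_ag.SV

open Pool.Agent.Lib.MP_813db1_ag.HS Pool.Agent.Lib.MP_813db1_ag.AS Filter Topology MeasureTheory
open scoped ContDiff

variable {ι X Y G : Type} [Fintype ι] [DecidableEq ι] [TopologicalSpace X]
  [ChartedSpace (ι → ℂ) X] [TopologicalSpace Y] [Group G] [MulAction G Y]

/-- homogeneous real cocycles of degree `N` on the group `G`. -/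
def Coc {N : ℕ} (c : (Fin (N + 1) → G) → ℝ) : Prop :=
  (∀ (h : G) g, c (fun i => h * g i) = c g) ∧
    ∀ g : Fin (N + 2) → G, ∑ i : Fin (N + 2), (-1) ^ (i : ℕ) * c (fun j => g (i.succAbove j)) = 0

/-- the coefficient at `z` of the form `∑ c (g 0, ..., g N) φ_(g 0) d φ_(g 1) ∧ ... ∧ d φ_(g N)`,
where `φ_g y = φ (g⁻¹ • y)`, read in the coordinates `t`. -/
noncomputable def frm {N : ℕ} (B : Fin N ≃ ι × Fin 2) (c : (Fin (N + 1) → G) → ℝ) (φ : Y → ℝ)
    (t : (ι → ℂ) → Y) (z : ι → ℂ) : ℝ :=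
  ∑' g : Fin (N + 1) → G, c g * (φ ((g 0)⁻¹ • t z) * (Matrix.of fun i j =>
    fderiv ℝ (fun w => φ ((g i.succ)⁻¹ • t w)) z (reB (B j))).det)

/-- there is a cocycle `c` of top degree on `G` with `|c| ≤ 1` whose class takes on the
fundamental class of `X` a value of size at least `v`: the value is the integral of the form
attached to `c` by a smooth function `φ` with compact support on `Y` whose translates have sum
one. Here `s` and `t x` are local inverses of `e ∘ p`. -/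
def BddGe [MeasurableSpace X] (G : Type) [Group G] [MulAction G Y] (K : Kahler ι X)
    (μ : Measure X) (p : Y → X) (v : ℝ) : Prop :=
  ∃ (N : ℕ) (B : Fin N ≃ ι × Fin 2) (c : (Fin (N + 1) → G) → ℝ) (φ : Y → ℝ)
    (t : X → (ι → ℂ) → Y), Coc c ∧ (∀ g, |c g| ≤ 1) ∧ HasCompactSupport φ ∧
    (∀ e ∈ atlas (ι → ℂ) X, ∀ z ∈ e.target, ∀ s : (ι → ℂ) → Y, ContinuousAt s z →
      (∀ᶠ w in 𝓝 z, p (s w) = e.symm w) → ContDiffAt ℝ ∞ (fun w => φ (s w)) z) ∧
    (∀ y, ∑' g : G, φ (g⁻¹ • y) = 1) ∧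
    (∀ x, ContinuousAt (t x) (chartAt (ι → ℂ) x x) ∧
      ∀ᶠ w in 𝓝 (chartAt (ι → ℂ) x x), p (t x w) = (chartAt (ι → ℂ) x).symm w) ∧
    v ≤ |∫ x, frm B c φ (t x) (chartAt (ι → ℂ) x x) /
      (K.g (chartAt (ι → ℂ) x) (chartAt (ι → ℂ) x x)).det.re ∂μ|

end Pool.Agent.Lib.MP_813db1_ag.SV
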